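import Pool.Agent.Lib.MP_83fbc5_gt.Basic

/-!
# MP_83fbc5_gt, module A45: normalised ranks of induced matrices

PROOF. Let `Q = G/N`, `N' = N.comap f`, `Q' = H/N'`; `f` induces an injective homomorphism `j : Q' → Q` (`QuotientGroup.map`, or
`QuotientGroup.lift`) and `toQ F N (ind f x) = j_* (toQ F N' x)` (check on `el h`, e.g. `MonoidAlgebra.ringHom_ext`). Choose representatives `s` of the left cosets of
`j(Q')` in `Q`: the map `(s, q') ↦ s * j q'` is a bijection `P × Q' ≃ Q` (`P = Q ⧸ j.range`, `Quotient.out`). For `x ∈ F[Q]` put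
`x_s (q') = x (s * j q')`; `x ↦ (x_s)_s` is a linear equivalence `F[Q] ≃ (P → F[Q'])` and `(x * j_* y)_s = x_s * y` (check for `x`, `y` group elements and
use linearity). So `E : (m → F[Q]) ≃ (P → m → F[Q'])` turns `actM F (j_* B)` into the product over `P` of `actM F B`, whose rank is
`|P| * rkM F B`; finally `|P| * |Q'| = |Q|`, i.e. `|P| * N'.index = N.index`.
(60-90 minutes)
-/

set_option autoImplicit false

namespace NBT

open Matrix Module

universe w

private theorem A45_pi {F : Type w} [Field F] {P : Type} {V W : Type w} [Fintype P] [AddCommGroup V]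
    [Module F V] [AddCommGroup W] [Module F W] [FiniteDimensional F W] (φ : V →ₗ[F] W) :
    finrank F (LinearMap.range (LinearMap.pi (fun p : P => φ ∘ₗ LinearMap.proj (φ := fun _ : P => V) p))) =
      Fintype.card P * finrank F (LinearMap.range φ) := by
  classical
  let Ψ : (P → LinearMap.range φ) →ₗ[F] (P → W) :=
    LinearMap.pi (fun p : P => (LinearMap.range φ).subtype ∘ₗ
      LinearMap.proj (φ := fun _ : P => LinearMap.range φ) p)
  have hinj : Function.Injective Ψ := by
    intro a b hab
    ext p
    exact congrFun hab p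
  have hr : LinearMap.range Ψ =
      LinearMap.range (LinearMap.pi (fun p : P => φ ∘ₗ LinearMap.proj (φ := fun _ : P => V) p)) := by
    ext y
    constructor
    · rintro ⟨a, rfl⟩
      choose v hv using fun p => (a p).2
      exact ⟨v, by ext1 p; exact hv p⟩
    · rintro ⟨v, rfl⟩
      exact ⟨fun p => ⟨φ (v p), ⟨v p, rfl⟩⟩, rfl⟩
  rw [← hr, LinearMap.finrank_range_of_inj hinj, finrank_pi_fintype]
  simp

section

variable {F : Type w} [Field F] {Q' Q : Type} [Group Q'] [Group Q] [Finite Q] (j : Q' →* Q)
  (hj : Function.Injective j)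

private noncomputable def A45_out (c : Q ⧸ j.range) : Q := Quotient.out c

omit [Finite Q] in
private theorem A45_out_spec (c : Q ⧸ j.range) (g : Q) :
    (QuotientGroup.mk g : Q ⧸ j.range) = c ↔ ∃ k, g = A45_out j c * j k := by
  have h1 : (QuotientGroup.mk (A45_out j c) : Q ⧸ j.range) = c := Quotient.out_eq c
  constructor
  · intro h
    have h2 : (QuotientGroup.mk (A45_out j c) : Q ⧸ j.range) = QuotientGroup.mk g := by rw [h1, h]
    rw [QuotientGroup.eq] at h2
    obtain ⟨k, hk⟩ := h2
    exact ⟨k, by rw [hk]; group⟩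
  · rintro ⟨k, rfl⟩
    rw [← h1, eq_comm, QuotientGroup.eq]
    refine ⟨k, ?_⟩
    rw [h1]
    group

private noncomputable def A45_e : (Q ⧸ j.range) × Q' ≃ Q :=
  Equiv.ofBijective (fun x => A45_out j x.1 * j x.2) (by
    constructor
    · rintro ⟨p, a⟩ ⟨q, b⟩ h
      simp only at h
      have h1 : (QuotientGroup.mk (A45_out j p * j a) : Q ⧸ j.range) = p :=
        (A45_out_spec j p _).2 ⟨a, rfl⟩
      have h2 : (QuotientGroup.mk (A45_out j p * j a) : Q ⧸ j.range) = q :=
        (A45_out_spec j q _).2 ⟨b, h⟩
      have h3 : p = q := h1.symm.trans h2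
      subst h3
      rw [hj (mul_left_cancel h)]
    · intro g
      obtain ⟨k, hk⟩ := (A45_out_spec j (QuotientGroup.mk g) g).1 rfl
      exact ⟨(QuotientGroup.mk g, k), hk.symm⟩)

omit [Finite Q] in
private theorem A45_e_apply (p : Q ⧸ j.range) (q : Q') : A45_e j hj (p, q) = A45_out j p * j q := rfl

/-- components -/
private noncomputable def A45_E [Finite Q'] :
    MonoidAlgebra F Q ≃ₗ[F] ((Q ⧸ j.range) → MonoidAlgebra F Q') where
  toFun x := fun p => MonoidAlgebra.ofCoeff (Finsupp.equivFunOnFinite.symm fun q => x.coeff (A45_e j hj (p, q)))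
  map_add' x y := by
    ext p q
    simp
  map_smul' c x := by
    ext p q
    simp
  invFun y := MonoidAlgebra.ofCoeff (Finsupp.equivFunOnFinite.symm fun g =>
    (y ((A45_e j hj).symm g).1).coeff ((A45_e j hj).symm g).2)
  left_inv x := by
    ext g
    simp
  right_inv y := by
    ext p q
    simp

private theorem A45_E_coeff [Finite Q'] (x : MonoidAlgebra F Q) (p : Q ⧸ j.range) (q : Q') :
    (A45_E j hj x p).coeff q = x.coeff (A45_out j p * j q) := by
  rw [← A45_e_apply j hj]
  simp [A45_E]

private theorem A45_E_mul [Finite Q'] (x : MonoidAlgebra F Q) (y : MonoidAlgebra F Q') (p : Q ⧸ j.range) :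
    A45_E j hj (x * MonoidAlgebra.mapDomainRingHom F j y) p = A45_E j hj x p * y := by
  induction y using MonoidAlgebra.induction_linear with
  | zero => simp
  | add y z hy hz => rw [map_add, mul_add, map_add, Pi.add_apply, hy, hz, mul_add]
  | single h a =>
    ext k
    rw [A45_E_coeff]
    have h1 : MonoidAlgebra.mapDomainRingHom F j (MonoidAlgebra.single h a)
        = MonoidAlgebra.single (j h) a := by simp
    rw [h1, MonoidAlgebra.coeff_mul_single_apply, MonoidAlgebra.coeff_mul_single_apply, A45_E_coeff,
      j.map_mul, j.map_inv, mul_assoc (A45_out j p)]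

private theorem A45_main {m n : Type} [Fintype m] [Fintype n] (B : Matrix m n (MonoidAlgebra F Q'))
    (hj : Function.Injective j) :
    rkM F (B.map (MonoidAlgebra.mapDomainRingHom F j)) * Nat.card Q' = rkM F B * Nat.card Q := by
  classical
  have hQ' : Finite Q' := Finite.of_injective j hj
  have : Fintype (Q ⧸ j.range) := Fintype.ofFinite _
  have : Fintype Q' := Fintype.ofFinite _
  let E : MonoidAlgebra F Q ≃ₗ[F] ((Q ⧸ j.range) → MonoidAlgebra F Q') := A45_E j hj
  let sw : (k : Type) → (k → MonoidAlgebra F Q) →ₗ[F] ((Q ⧸ j.range) → k → MonoidAlgebra F Q') := fun k =>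
    { toFun := fun u p i => E (u i) p
      map_add' := fun u v => by ext1 p; ext1 i; simp
      map_smul' := fun c u => by ext1 p; ext1 i; simp }
  have hsw : ∀ k : Type, Function.Bijective (sw k) := by
    intro k
    constructor
    · intro u v huv
      ext1 i
      apply E.injective
      ext1 p
      exact congrFun (congrFun huv p) i
    · intro y
      refine ⟨fun i => E.symm fun p => y p i, ?_⟩
      ext1 p
      ext1 i
      show E (E.symm fun p => y p i) p = y p i
      rw [E.apply_symm_apply]
  have fd : FiniteDimensional F (MonoidAlgebra F Q') :=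
    Module.Finite.equiv (MonoidAlgebra.coeffLinearEquiv F).symm
  have fd' : FiniteDimensional F (MonoidAlgebra F Q) :=
    Module.Finite.equiv (MonoidAlgebra.coeffLinearEquiv F).symm
  let Φ := LinearMap.pi (fun p : Q ⧸ j.range => (actM F B) ∘ₗ
    LinearMap.proj (φ := fun _ : Q ⧸ j.range => (m → MonoidAlgebra F Q')) p)
  have hcomm : (sw n) ∘ₗ actM F (B.map (MonoidAlgebra.mapDomainRingHom F j)) = Φ ∘ₗ (sw m) := by
    refine LinearMap.ext fun u => funext fun p => funext fun i => ?_
    show E ((u ᵥ* B.map (MonoidAlgebra.mapDomainRingHom F j)) i) p = ((fun i => E (u i) p) ᵥ* B) i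
    simp only [Matrix.vecMul, dotProduct, Matrix.map_apply]
    rw [map_sum, Finset.sum_apply]
    refine Finset.sum_congr rfl fun i _ => ?_
    exact A45_E_mul j hj _ _ p
  have h1 : finrank F (LinearMap.range ((sw n) ∘ₗ actM F (B.map (MonoidAlgebra.mapDomainRingHom F j))))
      = rkM F (B.map (MonoidAlgebra.mapDomainRingHom F j)) := by
    rw [LinearMap.range_comp]
    exact LinearEquiv.finrank_map_eq (LinearEquiv.ofBijective (sw n) (hsw n)) _
  have h2 : finrank F (LinearMap.range (Φ ∘ₗ (sw m))) = finrank F (LinearMap.range Φ) := by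
    rw [LinearMap.range_comp_of_range_eq_top Φ (LinearMap.range_eq_top.2 (hsw m).2)]
  have h3 : finrank F (LinearMap.range Φ) = Fintype.card (Q ⧸ j.range) * rkM F B :=
    A45_pi (actM F B)
  have h4 : Nat.card Q = Fintype.card (Q ⧸ j.range) * Nat.card Q' := by
    rw [← Nat.card_congr (A45_e j hj), Nat.card_prod, Nat.card_eq_fintype_card]
  rw [← h1, hcomm, h2, h3, h4]
  ring

end

theorem rk_ind (F : Type w) [Field F] {H G : Type} [Group H] [Group G] (f : H →* G) (N : Subgroup G) [N.Normal]
    [N.FiniteIndex] {m n : Type} [Fintype m] [Fintype n] (A : Matrix m n (MonoidAlgebra ℤ H)) :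
    rk F N (A.map (ind f)) * (N.comap f).index = rk F (N.comap f) A * N.index := by
  let j : H ⧸ N.comap f →* G ⧸ N := QuotientGroup.map (N.comap f) N f le_rfl
  have hj : Function.Injective j := by
    rw [injective_iff_map_eq_one]
    intro a
    induction a using QuotientGroup.induction_on with
    | H z =>
      intro hz
      have h1 : ((f z : G) : G ⧸ N) = 1 := hz
      rw [QuotientGroup.eq_one_iff] at h1
      rw [QuotientGroup.eq_one_iff]
      exact h1
  have h1 : (A.map (ind f)).map (toQ F N) = (A.map (toQ F (N.comap f))).map (MonoidAlgebra.mapDomainRingHom F j) := by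
    have h2 : (toQ F N).comp (ind f) = (MonoidAlgebra.mapDomainRingHom F j).comp (toQ F (N.comap f)) := by
      apply MonoidAlgebra.ringHom_ext
      · intro r
        simp [toQ, ind]
      · intro h
        simp [toQ, ind, j]
    ext1 i k
    simp only [Matrix.map_apply]
    exact RingHom.congr_fun h2 (A i k)
  unfold rk
  rw [h1]
  exact A45_main j _ hj

end NBT
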