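import Pool.Agent.Lib.MP_83fbc5_gt.ZA

/-!
# MP_83fbc5_gt, module AM1: a Shearer type inequality for subspaces of functions on a finite group

PROOF. `am_points`: `V` is a subspace of the functions on the finite set `Q` (`MonoidAlgebra F Q`, coefficients `x.coeff p`). The evaluations `p ↦ (x ↦ x.coeff p)`, `p ∈ Q`, span the dual space of `V` (an element of `V` killed by all of them is zero), so there is a set `I` of points for which they form a basis of the dual (`exists_linearIndependent`, or choose `I` maximal
such that the evaluations at the points of `I` are linearly independent on `V`); `|I| = dim V` and `V → (I → F)` is bijective, in particular onto. (Elementary alternative: take `I` minimal (in cardinality) such that `V → (I → F)` is injective; then it is onto, for a proper image is killed by a functional `φ ≠ 0` on `F^I`, and a point `p` with `φ_p ≠ 0` could be omitted; then `|I| = dim V`.)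
`am_cover`: let `I` be such a set, `q ∈ Q = H/N`. The set `B_q = {b ∈ B : q b ∈ I}` satisfies `|B_q| ≤ dim (resB q) V`: the map `V → (B_q → F)`, `x ↦ (x (q b))_b` is onto (the points `q b`, `b ∈ B_q`, are distinct by `hinj` and in `I`) and factors through `resB q`. So
`|B| * dim V = |B| * |I| = ∑_(b ∈ B) |{q : q b ∈ I}| = ∑_q |B_q| ≤ |Q| * c`.
(50-70 minutes)
-/

set_option autoImplicit false

namespace NBT

open Module

universe w

theorem am_points (F : Type w) [Field F] {Q : Type} [Group Q] [Finite Q] (V : Submodule F (MonoidAlgebra F Q)) :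
    ∃ I : Finset Q, I.card = finrank F V ∧ ∀ y : Q → F, ∃ x ∈ V, ∀ i ∈ I, x.coeff i = y i := by
  classical
  haveI := Fintype.ofFinite Q
  obtain ⟨I, hI, hmin⟩ := Finset.exists_min_image
    ((Finset.univ : Finset (Finset Q)).filter fun I => ∀ x ∈ V, (∀ i ∈ I, x.coeff i = 0) → x = 0) Finset.card
    ⟨Finset.univ, by
      rw [Finset.mem_filter]
      refine ⟨Finset.mem_univ _, fun x _ hx => ?_⟩
      apply MonoidAlgebra.coeff_injective
      ext i
      exact hx i (Finset.mem_univ i)⟩
  have hI' := (Finset.mem_filter.1 hI).2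
  let g : V →ₗ[F] (I → F) :=
    { toFun := fun x i => x.1.coeff i.1
      map_add' := fun x y => by ext i; simp
      map_smul' := fun c x => by ext i; simp }
  have hinj : Function.Injective g := by
    rw [injective_iff_map_eq_zero]
    intro x hx
    apply Subtype.ext
    exact hI' x.1 x.2 fun i hi => congrFun hx ⟨i, hi⟩
  have hsurj : Function.Surjective g := by
    rw [← LinearMap.range_eq_top]
    by_contra hne
    obtain ⟨φ, hφ, hle⟩ := (LinearMap.range g).exists_le_ker_of_lt_top (lt_top_iff_ne_top.2 hne)
    have h1 : ∃ p : I, φ (Pi.single p 1) ≠ 0 := by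
      by_contra hcon
      push Not at hcon
      apply hφ
      refine LinearMap.pi_ext' fun p => ?_
      apply LinearMap.ext_ring
      exact hcon p
    obtain ⟨p, hp⟩ := h1
    have h2 : I.erase p.1 ∈ (Finset.univ : Finset (Finset Q)).filter
        fun I => ∀ x ∈ V, (∀ i ∈ I, x.coeff i = 0) → x = 0 := by
      rw [Finset.mem_filter]
      refine ⟨Finset.mem_univ _, fun x hxV hx => ?_⟩
      have h3 : g ⟨x, hxV⟩ = (x.coeff p.1) • (Pi.single p 1 : I → F) := by
        ext i
        rw [Pi.smul_apply, Pi.single_apply, smul_eq_mul]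
        by_cases h4 : i = p
        · rw [if_pos h4, mul_one, h4]; rfl
        · rw [if_neg h4, mul_zero]
          exact hx i.1 (Finset.mem_erase.2 ⟨fun h5 => h4 (Subtype.ext h5), i.2⟩)
      have h4 : φ (g ⟨x, hxV⟩) = 0 := hle ⟨_, rfl⟩
      rw [h3, map_smul, smul_eq_mul] at h4
      have h5 := (mul_eq_zero.1 h4).resolve_right hp
      apply hI' x hxV
      intro i hi
      by_cases h6 : i = p.1
      · rw [h6]; exact h5
      · exact hx i (Finset.mem_erase.2 ⟨h6, hi⟩)
    have h3 := hmin _ h2
    have h4 := Finset.card_erase_lt_of_mem p.2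
    omega
  refine ⟨I, ?_, fun y => ?_⟩
  · rw [(LinearEquiv.ofBijective g ⟨hinj, hsurj⟩).finrank_eq, finrank_fintype_fun_eq_card, Fintype.card_coe]
  · obtain ⟨x, hx⟩ := hsurj fun i => y i.1
    exact ⟨x.1, x.2, fun i hi => congrFun hx ⟨i, hi⟩⟩

theorem am_cover (F : Type w) [Field F] {H : Type} [Group H] (N : Subgroup H) [N.Normal] [N.FiniteIndex]
    (B : Finset H) (hinj : ∀ b ∈ B, ∀ b' ∈ B, b⁻¹ * b' ∈ N → b = b')
    (V : Submodule F (MonoidAlgebra F (H ⧸ N))) (c : ℕ)
    (hc : ∀ q, finrank F (Submodule.map (resB F N B q) V) ≤ c) : B.card * finrank F V ≤ c * N.index := by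
  classical
  haveI : Finite (H ⧸ N) := Subgroup.finite_quotient_of_finiteIndex
  haveI := Fintype.ofFinite (H ⧸ N)
  obtain ⟨I, hI, hsurj⟩ := am_points F V
  have h1 : ∀ q : H ⧸ N, (B.filter fun b => q * QuotientGroup.mk b ∈ I).card ≤ c := by
    intro q
    refine le_trans ?_ (hc q)
    let h : Submodule.map (resB F N B q) V →ₗ[F] ((B.filter fun b => q * QuotientGroup.mk b ∈ I : Finset H) → F) :=
      { toFun := fun y b => y.1 ⟨b.1, (Finset.mem_filter.1 b.2).1⟩
        map_add' := fun x y => rfl
        map_smul' := fun c x => rfl }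
    have hs : Function.Surjective h := by
      intro z
      obtain ⟨x, hxV, hx⟩ := hsurj fun p => ∑ b : (B.filter fun b => q * QuotientGroup.mk b ∈ I : Finset H),
        if q * QuotientGroup.mk b.1 = p then z b else 0
      refine ⟨⟨resB F N B q x, ⟨x, hxV, rfl⟩⟩, ?_⟩
      funext b
      show x.coeff (q * QuotientGroup.mk b.1) = z b
      rw [hx _ (Finset.mem_filter.1 b.2).2, Finset.sum_eq_single b]
      · rw [if_pos rfl]
      · intro b' _ hb'
        rw [if_neg]
        intro h2
        apply hb'
        have h3 := mul_left_cancel h2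
        have h4 : b'.1⁻¹ * b.1 ∈ N := QuotientGroup.eq.1 h3
        exact Subtype.ext (hinj _ (Finset.mem_filter.1 b'.2).1 _ (Finset.mem_filter.1 b.2).1 h4)
      · intro h2
        exact absurd (Finset.mem_univ _) h2
    have h2 := LinearMap.finrank_le_finrank_of_surjective (f := h) hs
    rw [finrank_fintype_fun_eq_card, Fintype.card_coe] at h2
    exact h2
  have h2 : ∀ b ∈ B, ((Finset.univ : Finset (H ⧸ N)).filter fun q => q * QuotientGroup.mk b ∈ I).card = I.card := by
    intro b _
    refine Finset.card_bij (fun q _ => q * QuotientGroup.mk b) ?_ ?_ ?_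
    · intro q hq
      exact (Finset.mem_filter.1 hq).2
    · intro q _ q' _ h3
      exact mul_right_cancel h3
    · intro p hp
      refine ⟨p * (QuotientGroup.mk b)⁻¹, ?_, ?_⟩
      · rw [Finset.mem_filter]
        refine ⟨Finset.mem_univ _, ?_⟩
        rw [inv_mul_cancel_right]
        exact hp
      · exact inv_mul_cancel_right _ _
  have h3 : ∑ b ∈ B, ((Finset.univ : Finset (H ⧸ N)).filter fun q => q * QuotientGroup.mk b ∈ I).card
      = ∑ q : H ⧸ N, (B.filter fun b => q * QuotientGroup.mk b ∈ I).card :=
    Finset.sum_card_bipartiteAbove_eq_sum_card_bipartiteBelow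
      (fun (b : H) (q : H ⧸ N) => q * QuotientGroup.mk b ∈ I)
  rw [Finset.sum_congr rfl h2, Finset.sum_const, smul_eq_mul, hI] at h3
  rw [h3]
  refine le_trans (Finset.sum_le_sum fun q _ => h1 q) ?_
  rw [Finset.sum_const, smul_eq_mul, Finset.card_univ, ← Nat.card_eq_fintype_card, mul_comm]
  exact le_of_eq rfl

end NBT
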