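import Pool.Agent.Lib.MP_83fbc5_gt.YDefs

/-!
# MP_83fbc5_gt, AMDefs: amenable groups (Følner condition)
-/

set_option autoImplicit false

namespace NBT

open Classical in
/-- Følner's condition: for every finite set `S` and `ε > 0` there is a nonempty finite set `B` such that for each `s ∈ S` at most
`ε |B|` elements `b` of `B` have `b s ∉ B` -/
def Folner (H : Type) [Group H] : Prop :=
  ∀ (S : Finset H) (ε : ℝ), 0 < ε → ∃ B : Finset H, B.Nonempty ∧
    ∀ s ∈ S, ((B.filter fun b => b * s ∉ B).card : ℝ) ≤ ε * B.card

end NBT
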