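import Pool.Agent.Lib.MP_83fbc5_gt.AM1
import Pool.Agent.Lib.MP_83fbc5_gt.AMDefs

/-!
# MP_83fbc5_gt, module AM2: small kernels for amenable groups

PROOF. Let `S = {s⁻¹ : s ∈ supp f}`, `k = |S|`, `B` from `Folner H` for `S` and `ε' = ε / (k + 1)`. `J = {c ∈ B : c * s⁻¹ ∈ B for all s ∈ supp f}`: `|B| - |J| ≤ ∑_(s ∈ supp f) |{c ∈ B : c * s⁻¹ ∉ B}| ≤ k ε' |B| ≤ ε |B|`. `E` = the elements `b⁻¹ * b' ≠ 1`, `b, b' ∈ B`. If no element of `E` is in `N`, then `hinj` of `am_cover` holds; by `local_bound` (module `ZA`, on main) the number `c = |B| - |J|` bounds the local dimensions,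
so `|B| * dim ker ≤ (|B| - |J|) * index ≤ ε |B| * index`.
(30-45 minutes)
-/

set_option autoImplicit false

namespace NBT

open Module

universe w

theorem am_ker (F : Type w) [Field F] {H : Type} [Group H] (hH : Folner H) [NoZeroDivisors (MonoidAlgebra F H)]
    (f : MonoidAlgebra F H) (hf : f ≠ 0) (ε : ℝ) (hε : 0 < ε) :
    ∃ E : Finset H, (1 : H) ∉ E ∧ ∀ (N : Subgroup H) [N.Normal] [N.FiniteIndex], (∀ e ∈ E, e ∉ N) →
      (finrank F (LinearMap.ker (LinearMap.mulRight F
        (MonoidAlgebra.mapDomainRingHom F (QuotientGroup.mk' N) f))) : ℝ) ≤ ε * N.index := by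
  classical
  set P := f.coeff.support with hP
  have hk : (0 : ℝ) < (P.card : ℝ) + 1 := by positivity
  obtain ⟨B, hB, hF⟩ := hH (P.image (fun s => s⁻¹)) (ε / ((P.card : ℝ) + 1)) (by positivity)
  set J := B.filter (fun c => ∀ s ∈ P, c * s⁻¹ ∈ B) with hJdef
  have hJ : ∀ c ∈ J, ∀ s ∈ f.coeff.support, c * s⁻¹ ∈ B := by
    intro c hc s hs
    rw [hJdef, Finset.mem_filter] at hc
    exact hc.2 s hs
  have hB0 : (0 : ℝ) < B.card := by exact_mod_cast hB.card_pos
  have hdiff : ((B.card : ℝ) - J.card) ≤ ε * B.card := by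
    have h1 : B \ J ⊆ P.biUnion (fun s => B.filter (fun b => b * s⁻¹ ∉ B)) := by
      intro b hb
      rw [Finset.mem_sdiff] at hb
      have h2 : ¬ ∀ s ∈ P, b * s⁻¹ ∈ B := by
        intro h
        exact hb.2 (by rw [hJdef, Finset.mem_filter]; exact ⟨hb.1, h⟩)
      push Not at h2
      obtain ⟨s, hs, h3⟩ := h2
      rw [Finset.mem_biUnion]
      exact ⟨s, hs, Finset.mem_filter.2 ⟨hb.1, h3⟩⟩
    have h2 : ((B \ J).card : ℝ) ≤ ∑ s ∈ P, ((B.filter (fun b => b * s⁻¹ ∉ B)).card : ℝ) := by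
      have h3 := (Finset.card_le_card h1).trans Finset.card_biUnion_le
      exact_mod_cast h3
    have h3 : ∑ s ∈ P, ((B.filter (fun b => b * s⁻¹ ∉ B)).card : ℝ) ≤
        ∑ s ∈ P, ε / ((P.card : ℝ) + 1) * B.card := by
      refine Finset.sum_le_sum fun s hs => ?_
      have h4 := hF s⁻¹ (Finset.mem_image.2 ⟨s, hs, rfl⟩)
      refine le_trans (le_of_eq ?_) h4
      norm_cast
    rw [Finset.sum_const, nsmul_eq_mul] at h3
    have h4 : ((B \ J).card : ℝ) = (B.card : ℝ) - J.card := by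
      rw [Finset.card_sdiff_of_subset (Finset.filter_subset _ _), Nat.cast_sub (Finset.card_filter_le _ _)]
    rw [← h4]
    refine (h2.trans h3).trans ?_
    have h5 : (P.card : ℝ) * (ε / ((P.card : ℝ) + 1) * B.card) =
        (ε * B.card) * ((P.card : ℝ) / ((P.card : ℝ) + 1)) := by
      field_simp
    rw [h5]
    have h6 : (P.card : ℝ) / ((P.card : ℝ) + 1) ≤ 1 := by
      rw [div_le_one hk]
      linarith
    have h7 : 0 ≤ ε * B.card := by positivity
    nlinarith
  refine ⟨((B ×ˢ B).image (fun p => p.1⁻¹ * p.2)).erase 1, Finset.notMem_erase _ _, ?_⟩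
  intro N _ _ hE
  have hinj : ∀ b ∈ B, ∀ b' ∈ B, b⁻¹ * b' ∈ N → b = b' := by
    intro b hb b' hb' h
    by_contra hne
    refine hE (b⁻¹ * b') ?_ h
    rw [Finset.mem_erase]
    refine ⟨?_, Finset.mem_image.2 ⟨(b, b'), Finset.mem_product.2 ⟨hb, hb'⟩, rfl⟩⟩
    intro h1
    exact hne (inv_mul_eq_one.1 h1)
  have hcov := am_cover F N B hinj (LinearMap.ker (LinearMap.mulRight F
        (MonoidAlgebra.mapDomainRingHom F (QuotientGroup.mk' N) f))) (B.card - J.card) ?_
  · have hJB : J.card ≤ B.card := Finset.card_filter_le _ _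
    have h1 : (B.card : ℝ) * (finrank F (LinearMap.ker (LinearMap.mulRight F
        (MonoidAlgebra.mapDomainRingHom F (QuotientGroup.mk' N) f))) : ℝ) ≤
        ((B.card : ℝ) - J.card) * N.index := by
      rw [← Nat.cast_sub hJB]
      exact_mod_cast hcov
    have h2 : ((B.card : ℝ) - J.card) * N.index ≤ ε * B.card * N.index :=
      mul_le_mul_of_nonneg_right hdiff (Nat.cast_nonneg _)
    have h3 : (B.card : ℝ) * (finrank F (LinearMap.ker (LinearMap.mulRight F
        (MonoidAlgebra.mapDomainRingHom F (QuotientGroup.mk' N) f))) : ℝ) ≤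
        (B.card : ℝ) * (ε * N.index) := by linarith
    exact le_of_mul_le_mul_left h3 hB0
  · intro q
    have := local_bound F f hf N B J hJ q
    omega

end NBT
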