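import Pool.Agent.Lib.MP_83fbc5_gt.AMDefs

/-!
# MP_83fbc5_gt, module AM3: the Ore condition for amenable group rings without zero divisors (Tamari)

PROOF. `S = supp a ∪ supp b`, `k = |S|`, `B` from `Folner H` for `S` and `ε = 1 / (2 (k + 1))`. The linear map `(c, d) ↦ c * a - d * b` from `F^B × F^B` (elements of `F[H]` with support in `B`) has values with support in `T = B ∪ ⋃_(s ∈ S) {b s : b ∈ B, b s ∉ B}`, `|T| ≤ |B| + k ε |B| < 2 |B|` (`B` is not empty). So it is not injective: `c * a = d * b` with `(c, d) ≠ 0`; as `a, b ≠ 0` and there are no zero divisors, `c ≠ 0` and `d ≠ 0`.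
-/

set_option autoImplicit false

namespace NBT

open Module

universe w

/-- elements with support in `B` -/
private noncomputable def AM3_phi (F : Type w) [Field F] {H : Type} [Group H] (B : Finset H) :
    (B → F) →ₗ[F] MonoidAlgebra F H where
  toFun u := ∑ x : B, MonoidAlgebra.single x.1 (u x)
  map_add' u v := by
    rw [← Finset.sum_add_distrib]
    refine Finset.sum_congr rfl fun x _ => ?_
    rw [Pi.add_apply, MonoidAlgebra.single_add]
  map_smul' c u := by
    rw [RingHom.id_apply, Finset.smul_sum]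
    refine Finset.sum_congr rfl fun x _ => ?_
    rw [Pi.smul_apply, MonoidAlgebra.smul_single]

private theorem AM3_phi_apply (F : Type w) [Field F] {H : Type} [Group H] (B : Finset H) (u : B → F) :
    AM3_phi F B u = ∑ x : B, MonoidAlgebra.single x.1 (u x) := rfl

private theorem AM3_coeff (F : Type w) [Field F] {H : Type} [Group H] (B : Finset H) (u : B → F) (y : B) :
    (AM3_phi F B u).coeff y.1 = u y := by
  classical
  rw [AM3_phi_apply, MonoidAlgebra.coeff_sum, Finsupp.finset_sum_apply, Finset.sum_eq_single y]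
  · rw [MonoidAlgebra.coeff_single, Finsupp.single_eq_same]
  · intro z _ hz
    rw [MonoidAlgebra.coeff_single, Finsupp.single_eq_of_ne]
    intro h
    exact hz (Subtype.ext h.symm)
  · intro h
    exact absurd (Finset.mem_univ _) h

private theorem AM3_supp (F : Type w) [Field F] {H : Type} [Group H] (B : Finset H) (u : B → F)
    (a : MonoidAlgebra F H) (T : Finset H) (hT : ∀ x ∈ B, ∀ s ∈ a.coeff.support, x * s ∈ T) (t : H) (ht : t ∉ T) :
    (AM3_phi F B u * a).coeff t = 0 := by
  rw [AM3_phi_apply, Finset.sum_mul, MonoidAlgebra.coeff_sum, Finsupp.finset_sum_apply]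
  refine Finset.sum_eq_zero fun x _ => ?_
  have h1 : (MonoidAlgebra.single x.1 (u x) * a).coeff t = u x * a.coeff (x.1⁻¹ * t) := by
    refine MonoidAlgebra.coeff_single_mul_eq_mul_coeff _ fun m' _ => ?_
    rw [eq_inv_mul_iff_mul_eq]
  rw [h1]
  by_cases h : x.1⁻¹ * t ∈ a.coeff.support
  · exact absurd (by simpa using hT x.1 x.2 _ h) ht
  · rw [Finsupp.notMem_support_iff.1 h, mul_zero]

theorem am_ore (F : Type w) [Field F] {H : Type} [Group H] (hH : Folner H) [NoZeroDivisors (MonoidAlgebra F H)]
    (a b : MonoidAlgebra F H) (ha : a ≠ 0) (hb : b ≠ 0) :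
    ∃ c d : MonoidAlgebra F H, c ≠ 0 ∧ d ≠ 0 ∧ c * a = d * b := by
  classical
  set S := a.coeff.support ∪ b.coeff.support with hS
  obtain ⟨B, hB, hBS⟩ := hH S (1 / (2 * (S.card + 1))) (by positivity)
  set T : Finset H := B ∪ S.biUnion fun s => (B.filter fun x => x * s ∉ B).image (· * s) with hT
  have hmem : ∀ x ∈ B, ∀ s ∈ S, x * s ∈ T := by
    intro x hx s hs
    rw [hT, Finset.mem_union]
    by_cases h : x * s ∈ B
    · exact Or.inl h
    · refine Or.inr (Finset.mem_biUnion.2 ⟨s, hs, Finset.mem_image.2 ⟨x, ?_, rfl⟩⟩)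
      exact Finset.mem_filter.2 ⟨hx, h⟩
  have hcard : (T.card : ℝ) < 2 * B.card := by
    have h1 : (T.card : ℝ) ≤ B.card + ∑ s ∈ S, ((B.filter fun x => x * s ∉ B).card : ℝ) := by
      have h2 : T.card ≤ B.card + ∑ s ∈ S, (B.filter fun x => x * s ∉ B).card := by
        refine (Finset.card_union_le _ _).trans ?_
        refine Nat.add_le_add_left (Finset.card_biUnion_le.trans ?_) _
        exact Finset.sum_le_sum fun s _ => Finset.card_image_le
      exact_mod_cast h2
    have hBpos : (0 : ℝ) < B.card := by exact_mod_cast Finset.card_pos.2 hB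
    have h3 : ∑ s ∈ S, ((B.filter fun x => x * s ∉ B).card : ℝ) ≤ S.card * (1 / (2 * (S.card + 1)) * B.card) := by
      rw [← nsmul_eq_mul]
      refine Finset.sum_le_card_nsmul _ _ _ fun s hs => ?_
      exact_mod_cast hBS s hs
    have h4 : (S.card : ℝ) * (1 / (2 * (S.card + 1)) * B.card) < B.card := by
      have h5 : (0 : ℝ) ≤ S.card := Nat.cast_nonneg _
      have h6 : (S.card : ℝ) * (1 / (2 * (S.card + 1)) * B.card) = (S.card / (2 * (S.card + 1))) * B.card := by
        ring
      rw [h6]
      have h7 : (S.card : ℝ) / (2 * (S.card + 1)) < 1 := by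
        rw [div_lt_one (by positivity)]
        linarith
      calc (S.card : ℝ) / (2 * (S.card + 1)) * B.card < 1 * B.card := mul_lt_mul_of_pos_right h7 hBpos
        _ = B.card := one_mul _
    linarith
  have hcardN : T.card < 2 * B.card := by exact_mod_cast hcard
  let Ψ : ((B → F) × (B → F)) →ₗ[F] (T → F) :=
    { toFun := fun u t => (AM3_phi F B u.1 * a - AM3_phi F B u.2 * b).coeff t.1
      map_add' := by
        intro u v
        funext t
        show (AM3_phi F B (u.1 + v.1) * a - AM3_phi F B (u.2 + v.2) * b).coeff t.1 =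
          (AM3_phi F B u.1 * a - AM3_phi F B u.2 * b).coeff t.1 + (AM3_phi F B v.1 * a - AM3_phi F B v.2 * b).coeff t.1
        rw [map_add, map_add, add_mul, add_mul, add_sub_add_comm, MonoidAlgebra.coeff_add, Finsupp.add_apply]
      map_smul' := by
        intro c u
        funext t
        show (AM3_phi F B (c • u.1) * a - AM3_phi F B (c • u.2) * b).coeff t.1 =
          c * (AM3_phi F B u.1 * a - AM3_phi F B u.2 * b).coeff t.1
        rw [map_smul, map_smul, smul_mul_assoc, smul_mul_assoc, ← smul_sub, MonoidAlgebra.coeff_smul,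
          Finsupp.smul_apply, smul_eq_mul] }
  have hker : LinearMap.ker Ψ ≠ ⊥ := by
    apply LinearMap.ker_ne_bot_of_finrank_lt
    rw [finrank_prod, finrank_fintype_fun_eq_card, finrank_fintype_fun_eq_card, Fintype.card_coe, Fintype.card_coe]
    omega
  obtain ⟨u, hu, hu0⟩ := (Submodule.ne_bot_iff _).1 hker
  have hzero : AM3_phi F B u.1 * a - AM3_phi F B u.2 * b = 0 := by
    apply MonoidAlgebra.coeff_injective
    refine Finsupp.ext fun t => ?_
    by_cases ht : t ∈ T
    · exact congrFun (LinearMap.mem_ker.1 hu) ⟨t, ht⟩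
    · rw [MonoidAlgebra.coeff_sub, Finsupp.sub_apply,
        AM3_supp F B u.1 a T (fun x hx s hs => hmem x hx s (Finset.mem_union_left _ hs)) t ht,
        AM3_supp F B u.2 b T (fun x hx s hs => hmem x hx s (Finset.mem_union_right _ hs)) t ht, sub_zero]
      rfl
  have hinj : ∀ v : B → F, AM3_phi F B v = 0 → v = 0 := by
    intro v hv
    funext y
    have h := AM3_coeff F B v y
    rw [hv] at h
    exact h.symm
  have heq := sub_eq_zero.1 hzero
  have hc : AM3_phi F B u.1 ≠ 0 := by
    intro hc
    rw [hc, zero_mul] at heq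
    have hd : AM3_phi F B u.2 = 0 := (mul_eq_zero.1 heq.symm).resolve_right hb
    exact hu0 (Prod.ext (hinj _ hc) (hinj _ hd))
  refine ⟨AM3_phi F B u.1, AM3_phi F B u.2, hc, ?_, heq⟩
  intro hd
  rw [hd, zero_mul] at heq
  exact hc ((mul_eq_zero.1 heq).resolve_right ha)

end NBT
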