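import Pool.Agent.Lib.MP_83fbc5_gt.CDefs

/-!
# MP_83fbc5_gt, module AM4: one step of elimination (ranks over a finite dimensional algebra)

`S` is a finite dimensional `F`-algebra, `rkM F A` the dimension of the image of `u ↦ u A`.

PROOF. Let `L` be the square matrix over `Unit ⊕ n` with rows `(1, 0)` and `(-c i, d i e_i)`. `L * A = fromBlocks a x 0 A''` with `a = A (inl ()) (inl ())`, `x j = A (inl ()) (inr j)`, `A'' i j = d i * A (inr i) (inr j) - c i * A (inl ()) (inr j)` (use `hcd`). (1) The image of `L * A` is the image of the range of `L` under `u ↦ u A`, so `rk (L A) ≤ rk A ≤ rk (L A) + dim ker L` (`u ↦ u L` is an endomorphism of a finite dimensional space: codimension of the range = dimension of the kernel);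
`(u_0, u) L = (u_0 - ∑ u_i c_i, (u_i d_i)_i)`, so the kernel is isomorphic to the product of the kernels of the right multiplications by `d i`. (2) `rk (fromBlocks a x 0 A'')`: the image of `(u_0, u) ↦ (u_0 a, u_0 x + u A'')`; projection to the first coordinate has image of dimension `dim S - dim ker (· a)` and the kernel of the projection contains the image of `A''`: so `≥ dim S - dim ker (· a) + rk A''`; and the image is the sum of the images
of `u_0` (dimension `≤ dim S`) and of `u` (dimension `rk A''`): so `≤ dim S + rk A''`. Together: `rk A - (dim S + rk A'')` lies between `- dim ker (· a)` and `∑ dim ker (· d i)`.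
(60-90 minutes)
-/

set_option autoImplicit false

namespace NBT

open Matrix Module

universe w

/-- a bound for the dimension of a subspace by the dimensions of an image and of a kernel -/
private theorem am4_dim {F : Type w} [Field F] {V W : Type w} [AddCommGroup V] [Module F V] [FiniteDimensional F V]
    [AddCommGroup W] [Module F W] [FiniteDimensional F W] (P : Submodule F V) (φ : V →ₗ[F] W)
    (W' : Submodule F W) (K : Submodule F V) (h1 : ∀ v ∈ P, φ v ∈ W') (h2 : ∀ v ∈ P, φ v = 0 → v ∈ K) :
    finrank F P ≤ finrank F W' + finrank F K := by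
  have h := LinearMap.finrank_range_add_finrank_ker (φ.domRestrict P)
  have h3 : finrank F (LinearMap.range (φ.domRestrict P)) ≤ finrank F W' := by
    refine Submodule.finrank_mono ?_
    rintro _ ⟨v, rfl⟩
    exact h1 v v.2
  have h4 : finrank F (LinearMap.ker (φ.domRestrict P)) ≤ finrank F K := by
    rw [← Submodule.finrank_map_subtype_eq]
    refine Submodule.finrank_mono ?_
    rintro _ ⟨v, hv, rfl⟩
    exact h2 v v.2 hv
  omega

/-- the elimination step as a linear map on row vectors -/
private noncomputable def am4_g (F : Type w) [Field F] {S : Type w} [Ring S] [Algebra F S] {n : Type} [Fintype n]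
    (c d : n → S) : (Unit ⊕ n → S) →ₗ[F] (Unit ⊕ n → S) where
  toFun u := Sum.elim (fun _ => u (Sum.inl ()) - ∑ i, u (Sum.inr i) * c i) (fun i => u (Sum.inr i) * d i)
  map_add' u v := by
    funext x
    rcases x with x | x
    · simp only [Sum.elim_inl, Pi.add_apply, add_mul, Finset.sum_add_distrib]
      abel
    · simp only [Sum.elim_inr, Pi.add_apply, add_mul]
  map_smul' t u := by
    funext x
    rcases x with x | x
    · simp only [Sum.elim_inl, Pi.smul_apply, smul_mul_assoc, RingHom.id_apply, smul_sub, Finset.smul_sum]
    · simp only [Sum.elim_inr, Pi.smul_apply, smul_mul_assoc, RingHom.id_apply]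

private noncomputable def am4_i (F : Type w) [Field F] (S : Type w) [Ring S] [Algebra F S] (n : Type) :
    (n → S) →ₗ[F] (Unit ⊕ n → S) where
  toFun u := Sum.elim 0 u
  map_add' u v := by
    funext x
    rcases x with x | x
    · simp
    · simp
  map_smul' t u := by
    funext x
    rcases x with x | x
    · simp
    · simp

theorem am_elim (F : Type w) [Field F] {S : Type w} [Ring S] [Algebra F S] [FiniteDimensional F S] {n m : Type}
    [Fintype n] [Fintype m] (A : Matrix (Unit ⊕ n) (Unit ⊕ m) S) (c d : n → S)
    (hcd : ∀ i, c i * A (Sum.inl ()) (Sum.inl ()) = d i * A (Sum.inr i) (Sum.inl ())) :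
    |(rkM F A : ℤ) - (finrank F S + rkM F (Matrix.of fun i j =>
      d i * A (Sum.inr i) (Sum.inr j) - c i * A (Sum.inl ()) (Sum.inr j)))| ≤
      finrank F (LinearMap.ker (LinearMap.mulRight F (A (Sum.inl ()) (Sum.inl ())))) +
        ∑ i, (finrank F (LinearMap.ker (LinearMap.mulRight F (d i))) : ℤ) := by
  classical
  set a : S := A (Sum.inl ()) (Sum.inl ()) with ha
  set A'' : Matrix n m S := Matrix.of fun i j =>
      d i * A (Sum.inr i) (Sum.inr j) - c i * A (Sum.inl ()) (Sum.inr j) with hA''
  set f := actM F A with hf
  set g := am4_g F c d with hg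
  set h := f ∘ₗ g with hh
  -- the values of `h`
  have hval1 : ∀ u, h u (Sum.inl ()) = u (Sum.inl ()) * a := by
    intro u
    show ∑ i, g u i * A i (Sum.inl ()) = _
    rw [Fintype.sum_sum_type]
    have e1 : ∑ i : Unit, g u (Sum.inl i) * A (Sum.inl i) (Sum.inl ()) =
        (u (Sum.inl ()) - ∑ i, u (Sum.inr i) * c i) * a := by
      simp [hg, am4_g, ha]
    have e2 : ∑ i : n, g u (Sum.inr i) * A (Sum.inr i) (Sum.inl ()) = ∑ i, u (Sum.inr i) * c i * a := by
      refine Finset.sum_congr rfl fun i _ => ?_
      show u (Sum.inr i) * d i * A (Sum.inr i) (Sum.inl ()) = _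
      rw [mul_assoc, ← hcd, ← mul_assoc]
    rw [e1, e2, sub_mul, Finset.sum_mul, sub_add_cancel]
  have hval2 : ∀ u j, h u (Sum.inr j) = u (Sum.inl ()) * A (Sum.inl ()) (Sum.inr j) +
      ((fun i => u (Sum.inr i)) ᵥ* A'') j := by
    intro u j
    show ∑ i, g u i * A i (Sum.inr j) = _
    rw [Fintype.sum_sum_type]
    have e1 : ∑ i : Unit, g u (Sum.inl i) * A (Sum.inl i) (Sum.inr j) =
        (u (Sum.inl ()) - ∑ i, u (Sum.inr i) * c i) * A (Sum.inl ()) (Sum.inr j) := by
      simp [hg, am4_g]
    have e2 : ∑ i : n, g u (Sum.inr i) * A (Sum.inr i) (Sum.inr j) =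
        ∑ i, u (Sum.inr i) * d i * A (Sum.inr i) (Sum.inr j) := rfl
    have e3 : ((fun i => u (Sum.inr i)) ᵥ* A'') j = ∑ i, u (Sum.inr i) *
        (d i * A (Sum.inr i) (Sum.inr j) - c i * A (Sum.inl ()) (Sum.inr j)) := rfl
    rw [e1, e2, e3, sub_mul, Finset.sum_mul]
    simp only [mul_sub, Finset.sum_sub_distrib, mul_assoc]
    abel
  -- the four inequalities
  have b1 : finrank F (LinearMap.range h) ≤ finrank F (LinearMap.range f) := by
    refine Submodule.finrank_mono ?_
    rw [hh]
    exact LinearMap.range_comp_le_range _ _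
  have b2 : finrank F (LinearMap.ker h) ≤ finrank F (LinearMap.ker f) + finrank F (LinearMap.ker g) :=
    am4_dim _ g _ _ (fun v hv => hv) (fun v _ hv => hv)
  have b3 : finrank F (LinearMap.ker g) ≤ ∑ i, finrank F (LinearMap.ker (LinearMap.mulRight F (d i))) := by
    rw [← Module.finrank_pi_fintype]
    let φ : LinearMap.ker g →ₗ[F] (∀ i, LinearMap.ker (LinearMap.mulRight F (d i))) :=
      { toFun := fun v i => ⟨v.1 (Sum.inr i), by
          have h1 := congrFun v.2 (Sum.inr i)
          rw [LinearMap.mem_ker, LinearMap.mulRight_apply]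
          exact h1⟩
        map_add' := fun u v => rfl
        map_smul' := fun t u => rfl }
    refine LinearMap.finrank_le_finrank_of_injective (f := φ) ?_
    rw [injective_iff_map_eq_zero]
    intro v hv
    have h1 : ∀ i, v.1 (Sum.inr i) = 0 := fun i => congrArg Subtype.val (congrFun hv i)
    have h2 : v.1 (Sum.inl ()) - ∑ i, v.1 (Sum.inr i) * c i = 0 := congrFun v.2 (Sum.inl ())
    apply Subtype.ext
    funext x
    rcases x with x | x
    · simp only [h1, zero_mul, Finset.sum_const_zero, sub_zero] at h2
      exact h2
    · exact h1 x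
  have b4 : finrank F (LinearMap.ker h) ≤ finrank F (LinearMap.ker (LinearMap.mulRight F a)) +
      finrank F (LinearMap.ker (actM F A'')) := by
    have h1 := am4_dim (LinearMap.ker h) (LinearMap.proj (Sum.inl ()) : (Unit ⊕ n → S) →ₗ[F] S)
      (LinearMap.ker (LinearMap.mulRight F a)) (Submodule.map (am4_i F S n) (LinearMap.ker (actM F A'')))
      (fun v hv => by
        rw [LinearMap.mem_ker, LinearMap.mulRight_apply, LinearMap.proj_apply, ← hval1]
        exact congrFun hv _)
      (fun v hv hv0 => by
        rw [LinearMap.proj_apply] at hv0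
        refine ⟨fun i => v (Sum.inr i), ?_, ?_⟩
        · show (fun i => v (Sum.inr i)) ᵥ* A'' = 0
          funext j
          have h2 := hval2 v j
          rw [hv0, zero_mul, zero_add] at h2
          rw [← h2]
          exact congrFun hv _
        · funext x
          rcases x with x | x
          · exact hv0.symm
          · rfl)
    exact h1.trans (Nat.add_le_add_left (Submodule.finrank_map_le _ _) _)
  have b5 : finrank F (LinearMap.ker (actM F A'')) ≤ finrank F (LinearMap.ker h) := by
    have hinj : Function.Injective (am4_i F S n) := fun u v huv => by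
      funext i
      exact congrFun huv (Sum.inr i)
    rw [(Submodule.equivMapOfInjective (am4_i F S n) hinj (LinearMap.ker (actM F A''))).finrank_eq]
    refine Submodule.finrank_mono ?_
    rintro _ ⟨v, hv, rfl⟩
    rw [LinearMap.mem_ker]
    funext x
    rcases x with x | x
    · rw [show x = () from rfl, hval1]
      show (0 : S) * a = 0
      rw [zero_mul]
    · rw [hval2]
      have h1 : (v ᵥ* A'') x = 0 := congrFun hv x
      show (0 : S) * _ + (v ᵥ* A'') x = 0
      rw [h1, zero_mul, zero_add]
  have r1 := LinearMap.finrank_range_add_finrank_ker f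
  have r2 := LinearMap.finrank_range_add_finrank_ker h
  have r3 := LinearMap.finrank_range_add_finrank_ker (actM F A'')
  have r4 : finrank F (Unit ⊕ n → S) = finrank F S + finrank F (n → S) := by
    rw [Module.finrank_pi_fintype, Module.finrank_pi_fintype, Fintype.sum_sum_type]
    simp
  rw [r4] at r1 r2
  have q1 : rkM F A = finrank F (LinearMap.range f) := rfl
  have q2 : rkM F A'' = finrank F (LinearMap.range (actM F A'')) := rfl
  rw [q1, q2]
  zify at b1 b2 b3 b4 b5 r1 r2 r3
  rw [abs_le]
  constructor <;> linarith

end NBT
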