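import Pool.Agent.Lib.MP_83fbc5_gt.CDefs

/-!
# MP_83fbc5_gt, module Basic: elementary facts
-/

set_option autoImplicit false

namespace NBT

open Matrix

universe w

section

variable {G : Type} [Group G]

theorem el_mul (g h : G) : (el (g * h) : MonoidAlgebra ℤ G) = el g * el h := by
  rw [el, el, el, MonoidAlgebra.single_mul_single, one_mul]

theorem el_one : (el (1 : G) : MonoidAlgebra ℤ G) = 1 := rfl

theorem eps_el (g : G) : eps G (el g) = 1 := by
  simp [eps, el]

theorem ind_el {H : Type} [Group H] (f : H →* G) (h : H) : ind f (el h) = el (f h) := by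
  simp [ind, el]

theorem toQ_el (F : Type w) [Field F] (N : Subgroup G) [N.Normal] (g : G) :
    toQ F N (el g) = MonoidAlgebra.single (QuotientGroup.mk g) 1 := by
  simp [toQ, el]

theorem pf_el {A : Type} (π : G → A) (g : G) : pf π (el g) = Finsupp.single (π g) 1 := by
  simp [pf, el]

theorem pf_zero {A : Type} (π : G → A) : pf π (0 : MonoidAlgebra ℤ G) = 0 := by
  simp [pf]

theorem pf_add {A : Type} (π : G → A) (x y : MonoidAlgebra ℤ G) : pf π (x + y) = pf π x + pf π y := by
  simp [pf, Finsupp.mapDomain_add]

/-- induction on elements of the group ring -/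
theorem zg_ind {P : MonoidAlgebra ℤ G → Prop} (h0 : P 0) (he : ∀ g, P (el g)) (ha : ∀ x y, P x → P y → P (x + y))
    (hn : ∀ x, P x → P (-x)) (x : MonoidAlgebra ℤ G) : P x := by
  induction x using MonoidAlgebra.induction_linear with
  | zero => exact h0
  | add x y hx hy => exact ha x y hx hy
  | single g n =>
    have hnat : ∀ k : ℕ, P (MonoidAlgebra.single g (k : ℤ)) := by
      intro k
      induction k with
      | zero => simpa using h0
      | succ k ih =>
        have e : (MonoidAlgebra.single g ((k + 1 : ℕ) : ℤ) : MonoidAlgebra ℤ G) =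
            MonoidAlgebra.single g (k : ℤ) + el g := by
          rw [el, ← MonoidAlgebra.single_add]
          push_cast
          rfl
        rw [e]
        exact ha _ _ ih (he g)
    rcases Int.eq_nat_or_neg n with ⟨k, rfl | rfl⟩
    · exact hnat k
    · have e : (MonoidAlgebra.single g (-(k : ℤ)) : MonoidAlgebra ℤ G) = -MonoidAlgebra.single g (k : ℤ) := by
        rw [MonoidAlgebra.single_neg]
      rw [e]
      exact hn _ (hnat k)

/-- two additive maps on row vectors over the group ring agree if they agree on the vectors `g e_j` -/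
theorem row_ext {J M : Type} [Finite J] [DecidableEq J] [AddCommGroup M] (f f' : (J → MonoidAlgebra ℤ G) →+ M)
    (h : ∀ j g, f (Pi.single j (el g)) = f' (Pi.single j (el g))) : f = f' := by
  have : Fintype J := Fintype.ofFinite J
  refine AddMonoidHom.ext fun u => ?_
  have e : u = ∑ j, Pi.single j (u j) := (Finset.univ_sum_single u).symm
  rw [e, map_sum, map_sum]
  refine Finset.sum_congr rfl fun j _ => ?_
  refine zg_ind (P := fun x => f (Pi.single j x) = f' (Pi.single j x)) ?_ (h j) ?_ ?_ (u j)
  · simp
  · intro x y hx hy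
    rw [Pi.single_add, map_add, map_add, hx, hy]
  · intro x hx
    rw [Pi.single_neg, map_neg, map_neg, hx]

end

section

variable (F : Type w) [Field F] {S : Type w} [Ring S] [Algebra F S]

theorem actM_apply {m n : Type} [Fintype m] (A : Matrix m n S) (u : m → S) : actM F A u = u ᵥ* A := rfl

theorem actM_mul {l m n : Type} [Fintype l] [Fintype m] (A : Matrix l m S) (B : Matrix m n S) :
    actM F (A * B) = actM F B ∘ₗ actM F A := by
  ext1 u
  simp [actM_apply, Matrix.vecMul_vecMul]

variable {G : Type} [Group G]

instance fdQ (N : Subgroup G) [N.Normal] [N.FiniteIndex] : FiniteDimensional F (MonoidAlgebra F (G ⧸ N)) :=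
  Module.Finite.equiv (MonoidAlgebra.coeffLinearEquiv F).symm

theorem finrank_Q (N : Subgroup G) [N.Normal] [N.FiniteIndex] : Module.finrank F (MonoidAlgebra F (G ⧸ N)) = N.index := by
  have : Fintype (G ⧸ N) := Fintype.ofFinite _
  rw [(MonoidAlgebra.coeffLinearEquiv F).finrank_eq, Module.finrank_finsupp_self, ← Nat.card_eq_fintype_card]
  rfl

theorem finrank_row (N : Subgroup G) [N.Normal] [N.FiniteIndex] (n : Type) [Fintype n] :
    Module.finrank F (n → MonoidAlgebra F (G ⧸ N)) = Fintype.card n * N.index := by
  rw [Module.finrank_pi_fintype]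
  simp [finrank_Q]

theorem rk_congr {N N' : Subgroup G} [i : N.Normal] [i' : N'.Normal] (h : N = N') {m n : Type} [Fintype m]
    (A : Matrix m n (MonoidAlgebra ℤ G)) : rk F N A = rk F N' A := by
  subst h
  rfl

theorem rk_le_col (N : Subgroup G) [N.Normal] [N.FiniteIndex] {m n : Type} [Fintype m] [Fintype n]
    (A : Matrix m n (MonoidAlgebra ℤ G)) : rk F N A ≤ Fintype.card n * N.index := by
  rw [← finrank_row F N n]
  exact Submodule.finrank_le _

theorem rk_le_row (N : Subgroup G) [N.Normal] [N.FiniteIndex] {m n : Type} [Fintype m] [Fintype n]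
    (A : Matrix m n (MonoidAlgebra ℤ G)) : rk F N A ≤ Fintype.card m * N.index := by
  rw [← finrank_row F N m]
  exact LinearMap.finrank_range_le _

/-- rank and nullity -/
theorem rk_add_ker (N : Subgroup G) [N.Normal] [N.FiniteIndex] {m n : Type} [Fintype m]
    (A : Matrix m n (MonoidAlgebra ℤ G)) :
    rk F N A + Module.finrank F (LinearMap.ker (actM F (A.map (toQ F N)))) = Fintype.card m * N.index := by
  rw [← finrank_row F N m]
  exact LinearMap.finrank_range_add_finrank_ker _

end

section scal

variable {S : Type w} [Ring S]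

theorem vecMul_scal {n : Type} [Fintype n] (s : S) (u : n → S) : u ᵥ* scal n s = fun i => u i * s := by
  classical
  ext i
  have e : ∀ j, scal n s j i = if i = j then s else 0 := fun j => by
    unfold scal
    rw [Matrix.of_apply, Pi.single_apply]
  simp only [Matrix.vecMul, dotProduct, e, mul_ite, mul_zero]
  simp

theorem scal_map {S' : Type w} [Ring S'] {n : Type} (f : S →+* S') (s : S) : (scal n s).map f = scal n (f s) := by
  classical
  ext i j
  unfold scal
  simp only [Matrix.map_apply, Matrix.of_apply, Pi.single_apply]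
  split_ifs <;> simp

end scal

end NBT
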