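import Pool.Agent.Lib.MP_83fbc5_gt.AM2
import Pool.Agent.Lib.MP_83fbc5_gt.AM3
import Pool.Agent.Lib.MP_83fbc5_gt.AM4
import Pool.Agent.Lib.MP_83fbc5_gt.Basic

/-!
# MP_83fbc5_gt, module AM5: normalised ranks for amenable groups without zero divisors in the group ring

PROOF. `am_rank`: induction on `k = card m` (number of rows) for all finite types; `θ_N = mapDomainRingHom F (mk' N)`. If `A = 0` (in particular if there are no rows), then `rkM = 0`, `r = 0`. Otherwise choose `A i0 j0 ≠ 0` and reindex the rows as `Unit ⊕ {i // i ≠ i0}`, the columns as `Unit ⊕ {j // j ≠ j0}`.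
For each row `i ≠ i0` choose `c i, d i` with `d i ≠ 0`, `c i * A i0 j0 = d i * A i j0`: if `A i j0 = 0` take `c i = 0`, `d i = 1`, otherwise `am_ore`. Let `A''` be the matrix of `am_elim` over `F[H]` and `r''` from the induction hypothesis for it; `r = r'' + 1`. `am_elim` for the images under `θ_N` (`finrank F (MonoidAlgebra F (H ⧸ N)) = N.index`) gives
`|rk - (r'' + 1) q| ≤ |rk'' - r'' q| + dim ker (A i0 j0) + ∑ dim ker (d i)`, and each of these terms is small for all `N` avoiding a finite set (`am_ker`, induction hypothesis); take the union of these finite sets.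
-/

set_option autoImplicit false

namespace NBT

open Matrix Module

universe w

private theorem AM5_reindex (F : Type w) [Field F] {S : Type w} [Ring S] [Algebra F S] {m n m' n' : Type}
    [Fintype m] [Fintype m'] (e : m' ≃ m) (e' : n' ≃ n) (A : Matrix m n S) :
    rkM F (A.submatrix e e') = rkM F A := by
  unfold rkM
  let f : (n → S) ≃ₗ[F] (n' → S) := LinearEquiv.funCongrLeft F S e'
  have h : LinearMap.range (actM F (A.submatrix e e')) = (LinearMap.range (actM F A)).map (f : _ →ₗ[F] _) := by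
    ext x
    rw [LinearMap.mem_range, Submodule.mem_map]
    constructor
    · rintro ⟨u, rfl⟩
      refine ⟨actM F A (u ∘ e.symm), LinearMap.mem_range_self _ _, ?_⟩
      rw [actM_apply, actM_apply]
      ext1 j
      show ∑ i, (u ∘ e.symm) i * A i (e' j) = ∑ i, u i * A (e i) (e' j)
      rw [← e.sum_comp (fun i => (u ∘ e.symm) i * A i (e' j))]
      refine Finset.sum_congr rfl fun i _ => ?_
      show u (e.symm (e i)) * _ = _
      rw [e.symm_apply_apply]
    · rintro ⟨_, ⟨u, rfl⟩, rfl⟩
      refine ⟨u ∘ e, ?_⟩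
      rw [actM_apply, actM_apply]
      ext1 j
      show ∑ i, (u ∘ e) i * A (e i) (e' j) = ∑ i, u i * A i (e' j)
      rw [← e.sum_comp (fun i => u i * A i (e' j))]
      rfl
  rw [h]
  exact LinearEquiv.finrank_map_eq f _

/-- splitting off a point -/
private noncomputable def AM5_eq {m : Type} (i0 : m) : Unit ⊕ {i // i ≠ i0} ≃ m := by
  classical
  exact
  { toFun := Sum.elim (fun _ => i0) Subtype.val
    invFun := fun i => if h : i = i0 then Sum.inl () else Sum.inr ⟨i, h⟩
    left_inv := by
      rintro (i | i)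
      · simp
      · simp [i.2]
    right_inv := by
      intro i
      by_cases h : i = i0
      · simp [h]
      · simp [h] }

private theorem AM5_eq_inl {m : Type} (i0 : m) (x : Unit) : AM5_eq i0 (Sum.inl x) = i0 := rfl

private theorem AM5_eq_inr {m : Type} (i0 : m) (i : {i // i ≠ i0}) : AM5_eq i0 (Sum.inr i) = i.1 := rfl

private theorem AM5_aux (F : Type w) [Field F] {H : Type} [Group H] (hH : Folner H)
    [NoZeroDivisors (MonoidAlgebra F H)] : ∀ (k : ℕ) (m n : Type) [Fintype m] [Fintype n]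
    (A : Matrix m n (MonoidAlgebra F H)), Fintype.card m = k →
    ∃ r : ℕ, ∀ ε : ℝ, 0 < ε → ∃ E : Finset H, (1 : H) ∉ E ∧ ∀ (N : Subgroup H) [N.Normal] [N.FiniteIndex],
      (∀ e ∈ E, e ∉ N) →
      |(rkM F (A.map (MonoidAlgebra.mapDomainRingHom F (QuotientGroup.mk' N))) : ℝ) - r * N.index| ≤
        ε * N.index := by
  classical
  intro k
  induction k with
  | zero =>
    intro m n _ _ A hk
    have hm : IsEmpty m := Fintype.card_eq_zero_iff.1 hk
    refine ⟨0, fun ε hε => ⟨∅, Finset.notMem_empty _, fun N _ _ _ => ?_⟩⟩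
    have h0 : rkM F (A.map (MonoidAlgebra.mapDomainRingHom F (QuotientGroup.mk' N))) = 0 := by
      unfold rkM
      have : actM F (A.map (MonoidAlgebra.mapDomainRingHom F (QuotientGroup.mk' N))) = 0 := by
        refine LinearMap.ext fun u => ?_
        rw [actM_apply, LinearMap.zero_apply]
        ext1 j
        show ∑ i, _ = _
        rw [Fintype.sum_empty]
        rfl
      rw [this, LinearMap.range_zero]
      exact finrank_bot _ _
    rw [h0]
    push_cast
    rw [zero_mul, sub_zero, abs_zero]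
    positivity
  | succ k ih =>
    intro m n _ _ A hk
    by_cases hA : A = 0
    · refine ⟨0, fun ε hε => ⟨∅, Finset.notMem_empty _, fun N _ _ _ => ?_⟩⟩
      have h0 : rkM F (A.map (MonoidAlgebra.mapDomainRingHom F (QuotientGroup.mk' N))) = 0 := by
        unfold rkM
        have : actM F (A.map (MonoidAlgebra.mapDomainRingHom F (QuotientGroup.mk' N))) = 0 := by
          refine LinearMap.ext fun u => ?_
          rw [actM_apply, LinearMap.zero_apply, hA, Matrix.map_zero _ (map_zero _), Matrix.vecMul_zero]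
        rw [this, LinearMap.range_zero]
        exact finrank_bot _ _
      rw [h0]
      push_cast
      rw [zero_mul, sub_zero, abs_zero]
      positivity
    obtain ⟨i0, j0, h00⟩ : ∃ i0 j0, A i0 j0 ≠ 0 := by
      by_contra hc
      push Not at hc
      exact hA (Matrix.ext fun i j => hc i j)
    have hcd : ∀ i : {i // i ≠ i0}, ∃ cd : MonoidAlgebra F H × MonoidAlgebra F H, cd.2 ≠ 0 ∧
        cd.1 * A i0 j0 = cd.2 * A i.1 j0 := by
      intro i
      by_cases h : A i.1 j0 = 0
      · exact ⟨(0, 1), one_ne_zero, by rw [h, mul_zero, zero_mul]⟩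
      · obtain ⟨c, d, _, hd, he⟩ := am_ore F hH (A i0 j0) (A i.1 j0) h00 h
        exact ⟨(c, d), hd, he⟩
    choose cd hd0 hcd using hcd
    set A2 : Matrix {i // i ≠ i0} {j // j ≠ j0} (MonoidAlgebra F H) :=
      Matrix.of fun i j => (cd i).2 * A i.1 j.1 - (cd i).1 * A i0 j.1 with hA2
    have hk2 : Fintype.card {i // i ≠ i0} = k := by
      rw [Fintype.card_subtype_compl, hk, Fintype.card_unique]
      rfl
    obtain ⟨r, hr⟩ := ih {i // i ≠ i0} {j // j ≠ j0} A2 hk2
    refine ⟨r + 1, fun ε hε => ?_⟩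
    obtain ⟨E2, hE2, hr2⟩ := hr (ε / (k + 2)) (by positivity)
    obtain ⟨E0, hE0, hr0⟩ := am_ker F hH (A i0 j0) h00 (ε / (k + 2)) (by positivity)
    have hEi := fun i : {i // i ≠ i0} => am_ker F hH (cd i).2 (hd0 i) (ε / (k + 2)) (by positivity)
    choose Ei hEi hri using hEi
    refine ⟨(E2 ∪ E0) ∪ Finset.univ.biUnion Ei, ?_, fun N _ _ hN => ?_⟩
    · intro h
      rcases Finset.mem_union.1 h with h | h
      · rcases Finset.mem_union.1 h with h | h
        · exact hE2 h
        · exact hE0 h
      · obtain ⟨i, _, hi⟩ := Finset.mem_biUnion.1 h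
        exact hEi i hi
    have g2 := hr2 N fun e he => hN e (Finset.mem_union_left _ (Finset.mem_union_left _ he))
    have g0 := hr0 N fun e he => hN e (Finset.mem_union_left _ (Finset.mem_union_right _ he))
    have gi := fun i => hri i N fun e he => hN e (Finset.mem_union_right _
      (Finset.mem_biUnion.2 ⟨i, Finset.mem_univ _, he⟩))
    set θ := MonoidAlgebra.mapDomainRingHom F (QuotientGroup.mk' N) with hθ
    have hfd : FiniteDimensional F (MonoidAlgebra F (H ⧸ N)) := by
      have : Finite (H ⧸ N) := inferInstance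
      infer_instance
    have e1 := am_elim F ((A.map θ).submatrix (AM5_eq i0) (AM5_eq j0)) (fun i => θ (cd i).1) (fun i => θ (cd i).2)
      (by
        intro i
        show θ (cd i).1 * θ (A i0 j0) = θ (cd i).2 * θ (A i.1 j0)
        rw [← map_mul, ← map_mul, hcd i])
    have e2 : (Matrix.of fun (i : {i // i ≠ i0}) (j : {j // j ≠ j0}) =>
        θ (cd i).2 * ((A.map θ).submatrix (AM5_eq i0) (AM5_eq j0)) (Sum.inr i) (Sum.inr j) -
          θ (cd i).1 * ((A.map θ).submatrix (AM5_eq i0) (AM5_eq j0)) (Sum.inl ()) (Sum.inr j)) = A2.map θ := by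
      ext1 i j
      show θ (cd i).2 * θ (A i.1 j.1) - θ (cd i).1 * θ (A i0 j.1) = θ ((cd i).2 * A i.1 j.1 - (cd i).1 * A i0 j.1)
      rw [map_sub, map_mul, map_mul]
    rw [e2, AM5_reindex, finrank_Q F N] at e1
    have e3 : |(rkM F (A.map θ) : ℝ) - (N.index + rkM F (A2.map θ))| ≤
        finrank F (LinearMap.ker (LinearMap.mulRight F (θ (A i0 j0)))) +
          ∑ i, (finrank F (LinearMap.ker (LinearMap.mulRight F (θ (cd i).2))) : ℝ) := by
      have e4 := e1
      exact_mod_cast e4
    have hsum : ∑ i, (finrank F (LinearMap.ker (LinearMap.mulRight F (θ (cd i).2))) : ℝ) ≤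
        k * (ε / (k + 2) * N.index) := by
      have h := Finset.sum_le_card_nsmul (Finset.univ : Finset {i // i ≠ i0})
        (fun i => (finrank F (LinearMap.ker (LinearMap.mulRight F (θ (cd i).2))) : ℝ)) (ε / (k + 2) * N.index)
        (fun i _ => gi i)
      rw [nsmul_eq_mul, Finset.card_univ, hk2] at h
      exact h
    have hkey : ((k : ℝ) + 2) * (ε / (k + 2) * N.index) = ε * N.index := by
      have : (k : ℝ) + 2 ≠ 0 := by positivity
      field_simp
    rw [abs_le] at g2 e3 ⊢
    push_cast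
    constructor <;> nlinarith [g2.1, g2.2, e3.1, e3.2, g0, hsum, hkey]

theorem am_rank (F : Type w) [Field F] {H : Type} [Group H] (hH : Folner H) [NoZeroDivisors (MonoidAlgebra F H)]
    {m n : Type} [Fintype m] [Fintype n] (A : Matrix m n (MonoidAlgebra F H)) :
    ∃ r : ℕ, ∀ ε : ℝ, 0 < ε → ∃ E : Finset H, (1 : H) ∉ E ∧ ∀ (N : Subgroup H) [N.Normal] [N.FiniteIndex],
      (∀ e ∈ E, e ∉ N) →
      |(rkM F (A.map (MonoidAlgebra.mapDomainRingHom F (QuotientGroup.mk' N))) : ℝ) - r * N.index| ≤
        ε * N.index := AM5_aux F hH _ m n A rfl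

private theorem AM5_sep {H : Type} [Group H] (C : Chain H) (T : Finset H) (hT : (1 : H) ∉ T) :
    ∃ i0, ∀ i, i0 ≤ i → ∀ x ∈ T, x ∉ C.N i := by
  classical
  induction T using Finset.induction_on with
  | empty => exact ⟨0, fun i _ x hx => absurd hx (Finset.notMem_empty x)⟩
  | insert y T hy ih =>
    obtain ⟨i0, h0⟩ := ih fun h => hT (Finset.mem_insert_of_mem h)
    have hy1 : y ≠ 1 := fun h => hT (h ▸ Finset.mem_insert_self _ _)
    have h1 : ∃ j, y ∉ C.N j := by
      by_contra hc
      push Not at hc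
      have h2 : y ∈ ⨅ i, C.N i := Subgroup.mem_iInf.2 hc
      rw [C.bot] at h2
      exact hy1 (Subgroup.mem_bot.1 h2)
    obtain ⟨j, hj⟩ := h1
    refine ⟨max i0 j, fun i hi x hx hxi => ?_⟩
    rcases Finset.mem_insert.1 hx with rfl | hx
    · exact absurd (C.anti (le_trans (le_max_right _ _) hi) hxi) hj
    · exact h0 i (le_trans (le_max_left _ _) hi) x hx hxi

theorem am_conv (F : Type w) [Field F] {H : Type} [Group H] (hH : Folner H) [NoZeroDivisors (MonoidAlgebra F H)]
    {m n : Type} [Fintype m] [Fintype n] (A : Matrix m n (MonoidAlgebra ℤ H)) :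
    ∃ r : ℕ, ∀ C : Chain H,
      Filter.Tendsto (fun i => (rk F (C.N i) A : ℝ) / (C.N i).index) Filter.atTop (nhds r) := by
  obtain ⟨r, hr⟩ := am_rank F hH (A.map (toF F H))
  refine ⟨r, fun C => ?_⟩
  rw [Metric.tendsto_atTop]
  intro ε hε
  obtain ⟨E, hE, hE2⟩ := hr (ε / 2) (by positivity)
  obtain ⟨i0, hi0⟩ := AM5_sep C E hE
  refine ⟨i0, fun i hi => ?_⟩
  have h := hE2 (C.N i) (hi0 i hi)
  have hq : (0 : ℝ) < (C.N i).index := by
    exact_mod_cast Nat.pos_of_ne_zero Subgroup.FiniteIndex.index_ne_zero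
  have hA : A.map (toQ F (C.N i)) =
      (A.map (toF F H)).map (MonoidAlgebra.mapDomainRingHom F (QuotientGroup.mk' (C.N i))) := by
    have e : toQ F (C.N i) = (MonoidAlgebra.mapDomainRingHom F (QuotientGroup.mk' (C.N i))).comp (toF F H) :=
      MonoidAlgebra.mapRingHom_comp_mapDomainRingHom _ _
    rw [Matrix.map_map, e]
    rfl
  rw [← hA] at h
  have h2 : (rk F (C.N i) A : ℝ) / (C.N i).index - r = ((rk F (C.N i) A : ℝ) - r * (C.N i).index) / (C.N i).index := by
    field_simp
  rw [Real.dist_eq, h2, abs_div, abs_of_pos hq, div_lt_iff₀ hq]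
  have h3 : |(rk F (C.N i) A : ℝ) - r * (C.N i).index| ≤ ε / 2 * (C.N i).index := h
  have h4 : 0 < ε / 2 * (C.N i).index := by positivity
  linarith

end NBT
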