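import Pool.Agent.Lib.MP_83fbc5_gt.BET

/-!
# MP_83fbc5_gt, module REV: convergence for matrices implies Q1

PROOF. By `betti_zero`, `betti_succ` the normalised Betti number is `card (ι n) - rk (d n) / index - rk (d (n-1)) / index` (`index > 0` as the
subgroups have finite index). The matrices `R.d n` are indexed by finite types; reindex to `Fin` (`Fintype.equivFin`): the rank `rk` does
not change (`rk_reindex` below).
-/

set_option autoImplicit false

namespace NBT

open Matrix Module

universe w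

/-- the rank does not grow if the rows and the columns are permuted -/
private theorem REV_le (F : Type w) [Field F] {G : Type} [Group G] (N : Subgroup G) [N.Normal] {m n m' n' : Type}
    [Fintype m] [Fintype m'] (e : m ≃ m') (e' : n ≃ n') (A : Matrix m n (MonoidAlgebra ℤ G)) :
    rk F N (Matrix.reindex e e' A) = rk F N A := by
  unfold rk rkM
  let f : (n → MonoidAlgebra F (G ⧸ N)) ≃ₗ[F] (n' → MonoidAlgebra F (G ⧸ N)) :=
    LinearEquiv.funCongrLeft F (MonoidAlgebra F (G ⧸ N)) e'.symm
  have h : LinearMap.range (actM F ((Matrix.reindex e e' A).map (toQ F N))) =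
      (LinearMap.range (actM F (A.map (toQ F N)))).map (f : _ →ₗ[F] _) := by
    ext x
    rw [LinearMap.mem_range, Submodule.mem_map]
    constructor
    · rintro ⟨u, rfl⟩
      refine ⟨actM F (A.map (toQ F N)) (u ∘ e), LinearMap.mem_range_self _ _, ?_⟩
      rw [actM_apply, actM_apply]
      ext1 j
      show ∑ i, (u ∘ e) i * (toQ F N) (A i (e'.symm j)) = ∑ i, u i * (toQ F N) (A (e.symm i) (e'.symm j))
      rw [← e.sum_comp (fun i => u i * (toQ F N) (A (e.symm i) (e'.symm j)))]
      refine Finset.sum_congr rfl fun i _ => ?_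
      rw [e.symm_apply_apply]
      rfl
    · rintro ⟨_, ⟨u, rfl⟩, rfl⟩
      refine ⟨u ∘ e.symm, ?_⟩
      rw [actM_apply, actM_apply]
      ext1 j
      show ∑ i, (u ∘ e.symm) i * (toQ F N) (A (e.symm i) (e'.symm j)) = ∑ i, u i * (toQ F N) (A i (e'.symm j))
      rw [← e.sum_comp (fun i => (u ∘ e.symm) i * (toQ F N) (A (e.symm i) (e'.symm j)))]
      refine Finset.sum_congr rfl fun i _ => ?_
      show u (e.symm (e i)) * _ = _
      rw [e.symm_apply_apply]
  rw [h]
  exact LinearEquiv.finrank_map_eq f _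

theorem rk_reindex (F : Type w) [Field F] {G : Type} [Group G] (N : Subgroup G) [N.Normal] {m n m' n' : Type} [Fintype m]
    [Fintype m'] (e : m ≃ m') (e' : n ≃ n') (A : Matrix m n (MonoidAlgebra ℤ G)) :
    rk F N (Matrix.reindex e e' A) = rk F N A := REV_le F N e e' A

theorem q1_of_mat (F : Type w) [Field F] (D : ℕ) (h : MatConv F D) (n : ℕ) : Q1 F D n := by
  classical
  intro G _ hG R
  have key : ∀ k, ∃ ℓ : ℝ, ∀ C : Chain G,
      Filter.Tendsto (fun i => (rk F (C.N i) (R.d k) : ℝ) / ((C.N i).index : ℝ)) Filter.atTop (nhds ℓ) := by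
    intro k
    obtain ⟨ℓ, hℓ⟩ := h G hG ⟨R⟩ _ _
      (Matrix.reindex (Fintype.equivFin (R.ι (k + 1))) (Fintype.equivFin (R.ι k)) (R.d k))
    refine ⟨ℓ, fun C => (hℓ C).congr fun i => ?_⟩
    rw [rk_reindex]
  have hpos : ∀ (C : Chain G) (i : ℕ), ((C.N i).index : ℝ) ≠ 0 := fun C i =>
    Nat.cast_ne_zero.2 (Subgroup.FiniteIndex.index_ne_zero (H := C.N i))
  cases n with
  | zero =>
    obtain ⟨ℓ, hℓ⟩ := key 0
    refine ⟨Fintype.card (R.ι 0) - ℓ, fun C => ?_⟩
    refine ((tendsto_const_nhds (x := (Fintype.card (R.ι 0) : ℝ))).sub (hℓ C)).congr fun i => ?_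
    have b := betti_zero F R (C.N i)
    have b' : (betti F R (C.N i) 0 : ℝ) + rk F (C.N i) (R.d 0) = Fintype.card (R.ι 0) * (C.N i).index := by
      exact_mod_cast b
    have hp := hpos C i
    field_simp
    linarith
  | succ n =>
    obtain ⟨ℓ, hℓ⟩ := key n
    obtain ⟨ℓ', hℓ'⟩ := key (n + 1)
    refine ⟨Fintype.card (R.ι (n + 1)) - ℓ - ℓ', fun C => ?_⟩
    refine (((tendsto_const_nhds (x := (Fintype.card (R.ι (n + 1)) : ℝ))).sub (hℓ C)).sub (hℓ' C)).congr
      fun i => ?_
    have b := betti_succ F R (C.N i) n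
    have b' : (betti F R (C.N i) (n + 1) : ℝ) + rk F (C.N i) (R.d n) + rk F (C.N i) (R.d (n + 1)) =
        Fintype.card (R.ι (n + 1)) * (C.N i).index := by
      exact_mod_cast b
    have hp := hpos C i
    field_simp
    linarith

end NBT
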