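import Pool.Agent.Lib.MP_83fbc5_gt.Basic

/-!
# MP_83fbc5_gt, module XC: a chain map from the flag complex to a resolution

PROOF. `φ0`: all rows equal to the vector `u` of `R.surj`. `φ1`: for `p ∈ J2` the row `p` of `-(bd2 * φ0)` has augmentation `∑ eps(..) * aug = -(1 - 1) = 0` (rows of `bd2` have coefficient augmentations `1`, `-1`), so by `R.exact0` it is `v ᵥ* R.d 0`. `φ2`: `-(bd3 * φ1) * d 0 = bd3 * bd2 * φ0 = 0` by the hypothesis,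
so each row of `-(bd3 * φ1)` is `v ᵥ* R.d 1` by `R.exact 0`.
(30-45 minutes)
-/

set_option autoImplicit false

namespace NBT

open Matrix

theorem exists_chm {H : Type} [Group H] (L : VG H) (hbd : L.bd3 * L.bd2 = 0) {D : ℕ} (R : FFR H D) :
    ∃ (φ0 : Matrix L.I (R.ι 0) (MonoidAlgebra ℤ H)) (φ1 : Matrix L.J2 (R.ι 1) (MonoidAlgebra ℤ H))
      (φ2 : Matrix L.J3 (R.ι 2) (MonoidAlgebra ℤ H)),
      (∀ i, ∑ j, eps H (φ0 i j) * R.aug j = 1) ∧ L.bd2 * φ0 + φ1 * R.d 0 = 0 ∧ L.bd3 * φ1 + φ2 * R.d 1 = 0 := by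
  obtain ⟨u, hu⟩ := R.surj
  have h1 : ∀ p : L.J2, ∃ v : R.ι 1 → MonoidAlgebra ℤ H,
      v ᵥ* R.d 0 = -(L.bd2 * (Matrix.of fun _ => u : Matrix L.I (R.ι 0) (MonoidAlgebra ℤ H))) p := by
    intro p
    rw [← R.exact0]
    have e : ∀ j, (L.bd2 * (Matrix.of fun _ => u : Matrix L.I (R.ι 0) (MonoidAlgebra ℤ H))) p j =
        (el (L.g p.1.1 p.1.2) - 1) * u j := by
      intro j
      rw [Matrix.mul_apply]
      simp only [Matrix.of_apply]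
      rw [← Finset.sum_mul]
      congr 1
      unfold VG.bd2
      simp only [Matrix.of_apply, Pi.sub_apply]
      rw [Finset.sum_sub_distrib, Finset.sum_pi_single', Finset.sum_pi_single',
        if_pos (Finset.mem_univ _), if_pos (Finset.mem_univ _)]
    refine Finset.sum_eq_zero fun j _ => ?_
    rw [Pi.neg_apply, e j, map_neg, map_mul, map_sub, eps_el, map_one]
    simp
  choose φ1 hφ1 using h1
  have e1 : L.bd2 * (Matrix.of fun _ => u : Matrix L.I (R.ι 0) (MonoidAlgebra ℤ H)) +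
      (Matrix.of φ1 : Matrix L.J2 (R.ι 1) (MonoidAlgebra ℤ H)) * R.d 0 = 0 := by
    refine funext fun p => ?_
    have e2 : ((Matrix.of φ1 : Matrix L.J2 (R.ι 1) (MonoidAlgebra ℤ H)) * R.d 0) p = φ1 p ᵥ* R.d 0 :=
      Matrix.mul_apply_eq_vecMul _ _ _
    show (L.bd2 * (Matrix.of fun _ => u : Matrix L.I (R.ι 0) (MonoidAlgebra ℤ H))) p +
      ((Matrix.of φ1 : Matrix L.J2 (R.ι 1) (MonoidAlgebra ℤ H)) * R.d 0) p = 0
    rw [e2, hφ1 p, add_neg_cancel]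
  have h2 : ∀ q : L.J3, ∃ v : R.ι 2 → MonoidAlgebra ℤ H,
      v ᵥ* R.d 1 = -(L.bd3 * (Matrix.of φ1 : Matrix L.J2 (R.ι 1) (MonoidAlgebra ℤ H))) q := by
    intro q
    have hx := R.exact 0 (-(L.bd3 * (Matrix.of φ1 : Matrix L.J2 (R.ι 1) (MonoidAlgebra ℤ H))) q)
    refine hx.mp ?_
    have e3 : L.bd3 * (Matrix.of φ1 : Matrix L.J2 (R.ι 1) (MonoidAlgebra ℤ H)) * R.d 0 = 0 := by
      have e4 : (Matrix.of φ1 : Matrix L.J2 (R.ι 1) (MonoidAlgebra ℤ H)) * R.d 0 =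
          -(L.bd2 * (Matrix.of fun _ => u : Matrix L.I (R.ι 0) (MonoidAlgebra ℤ H))) :=
        eq_neg_of_add_eq_zero_right e1
      rw [Matrix.mul_assoc, e4, Matrix.mul_neg, ← Matrix.mul_assoc, hbd, Matrix.zero_mul, neg_zero]
    have e5 : ((L.bd3 * (Matrix.of φ1 : Matrix L.J2 (R.ι 1) (MonoidAlgebra ℤ H))) * R.d 0) q =
        (L.bd3 * (Matrix.of φ1 : Matrix L.J2 (R.ι 1) (MonoidAlgebra ℤ H))) q ᵥ* R.d 0 :=
      Matrix.mul_apply_eq_vecMul _ _ _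
    rw [Matrix.neg_vecMul, ← e5, e3]
    show -(0 : R.ι 0 → MonoidAlgebra ℤ H) = 0
    exact neg_zero
  choose φ2 hφ2 using h2
  refine ⟨Matrix.of fun _ => u, Matrix.of φ1, Matrix.of φ2, fun i => hu, e1, ?_⟩
  refine funext fun q => ?_
  have e6 : ((Matrix.of φ2 : Matrix L.J3 (R.ι 2) (MonoidAlgebra ℤ H)) * R.d 1) q = φ2 q ᵥ* R.d 1 :=
    Matrix.mul_apply_eq_vecMul _ _ _
  show (L.bd3 * (Matrix.of φ1 : Matrix L.J2 (R.ι 1) (MonoidAlgebra ℤ H))) q +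
    ((Matrix.of φ2 : Matrix L.J3 (R.ι 2) (MonoidAlgebra ℤ H)) * R.d 1) q = 0
  rw [e6, hφ2 q, add_neg_cancel]

end NBT
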