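import Mathlib

/-!
# MP_83fbc5_gt, module RF2: cyclic completion of partial left multiplications
-/

set_option autoImplicit false

namespace NBT

open Classical in
/-- first exit time of the backward orbit -/
private noncomputable def RF2_fst {A : Type} [Group A] (P : Set A) (g y : A) : ℕ :=
  sInf {j : ℕ | g⁻¹ ^ j * y ∉ P}

open Classical in
/-- the completed step -/
private noncomputable def RF2_stp {A : Type} [Group A] (P : Set A) (g y : A) : A :=
  if g * y ∈ P then g * y else g⁻¹ ^ (RF2_fst P g y - 1) * y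

section

variable {A : Type} [Group A] {P : Set A}

private theorem RF2_spec (hP : P.Finite) {g : A} (hg : ∀ k : ℕ, 0 < k → g ^ k ≠ 1) (y : A) :
    g⁻¹ ^ RF2_fst P g y * y ∉ P := by
  have hne : {j : ℕ | g⁻¹ ^ j * y ∉ P}.Nonempty := by
    by_contra hc
    rw [Set.not_nonempty_iff_eq_empty] at hc
    have hall : ∀ j : ℕ, g⁻¹ ^ j * y ∈ P := by
      intro j
      by_contra hj
      have : j ∈ {j : ℕ | g⁻¹ ^ j * y ∉ P} := hj
      rw [hc] at this
      exact this
    have hinj : Function.Injective (fun j : ℕ => (⟨g⁻¹ ^ j * y, hall j⟩ : P)) := by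
      have key : ∀ i j : ℕ, i < j → g⁻¹ ^ i * y ≠ g⁻¹ ^ j * y := by
        intro i j hij h
        have h1 : g⁻¹ ^ i = g⁻¹ ^ j := mul_right_cancel h
        obtain ⟨d, rfl⟩ := Nat.exists_eq_add_of_lt hij
        rw [show i + d + 1 = i + (d + 1) by ring, pow_add] at h1
        have h2 : g⁻¹ ^ (d + 1) = 1 := by
          have := mul_left_cancel (a := g⁻¹ ^ i) (b := 1) (c := g⁻¹ ^ (d + 1)) (by rw [mul_one]; exact h1)
          exact this.symm
        rw [inv_pow, inv_eq_one] at h2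
        exact hg (d + 1) (Nat.succ_pos d) h2
      intro i j hij
      have hij' : g⁻¹ ^ i * y = g⁻¹ ^ j * y := congrArg Subtype.val hij
      rcases lt_trichotomy i j with h | h | h
      · exact absurd hij' (key i j h)
      · exact h
      · exact absurd hij'.symm (key j i h)
    have hf : Finite P := hP
    exact not_injective_infinite_finite _ hinj
  exact Nat.sInf_mem hne

private theorem RF2_lt {g y : A} {j : ℕ} (hj : j < RF2_fst P g y) : g⁻¹ ^ j * y ∈ P := by
  by_contra hc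
  exact Nat.notMem_of_lt_sInf hj hc

private theorem RF2_pos (hP : P.Finite) {g : A} (hg : ∀ k : ℕ, 0 < k → g ^ k ≠ 1) {y : A}
    (hy : y ∈ P) : 0 < RF2_fst P g y := by
  rcases Nat.eq_zero_or_pos (RF2_fst P g y) with h | h
  · have := RF2_spec hP hg y
    rw [h] at this
    simp at this
    exact absurd hy this
  · exact h

private theorem RF2_unique (hP : P.Finite) {g : A} (hg : ∀ k : ℕ, 0 < k → g ^ k ≠ 1) {y : A} {N : ℕ}
    (h1 : ∀ j < N, g⁻¹ ^ j * y ∈ P) (h2 : g⁻¹ ^ N * y ∉ P) : RF2_fst P g y = N := by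
  have hs := RF2_spec hP hg y
  rcases lt_trichotomy (RF2_fst P g y) N with h | h | h
  · exact absurd (h1 _ h) hs
  · exact h
  · exact absurd (RF2_lt h) h2

private theorem RF2_mem (hP : P.Finite) {g : A} (hg : ∀ k : ℕ, 0 < k → g ^ k ≠ 1) {y : A}
    (hy : y ∈ P) : RF2_stp P g y ∈ P := by
  unfold RF2_stp
  split_ifs with h
  · exact h
  · apply RF2_lt
    have := RF2_pos hP hg hy
    omega

private theorem RF2_inj (hP : P.Finite) {g : A} (hg : ∀ k : ℕ, 0 < k → g ^ k ≠ 1) {y y' : A}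
    (hy : y ∈ P) (hy' : y' ∈ P) (h : RF2_stp P g y = RF2_stp P g y') : y = y' := by
  have mixed : ∀ y y' : A, y ∈ P → y' ∈ P → g * y = g⁻¹ ^ (RF2_fst P g y' - 1) * y' → False := by
    intro y y' hy hy' h
    have hp := RF2_pos hP hg hy'
    have h1 : y = g⁻¹ ^ RF2_fst P g y' * y' := by
      have e : RF2_fst P g y' = (RF2_fst P g y' - 1) + 1 := by omega
      rw [e, pow_succ', mul_assoc, ← h, inv_mul_cancel_left]
    exact RF2_spec hP hg y' (h1 ▸ hy)
  have both : ∀ y y' : A, y ∈ P → y' ∈ P → g * y ∉ P →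
      RF2_fst P g y - 1 ≤ RF2_fst P g y' - 1 →
      g⁻¹ ^ (RF2_fst P g y - 1) * y = g⁻¹ ^ (RF2_fst P g y' - 1) * y' → y = y' := by
    intro y y' hy hy' hgy hle h
    have hp := RF2_pos hP hg hy
    have hp' := RF2_pos hP hg hy'
    obtain ⟨d, hd⟩ := Nat.exists_eq_add_of_le hle
    rw [hd, pow_add, mul_assoc] at h
    have h1 : y = g⁻¹ ^ d * y' := mul_left_cancel h
    rcases Nat.eq_zero_or_pos d with h0 | h0
    · rw [h1, h0, pow_zero, one_mul]
    · exfalso
      apply hgy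
      obtain ⟨e, rfl⟩ := Nat.exists_eq_add_of_lt h0
      rw [h1, zero_add, pow_succ', mul_assoc, mul_inv_cancel_left]
      exact RF2_lt (by omega)
  unfold RF2_stp at h
  split_ifs at h with h1 h2 h2
  · exact mul_left_cancel h
  · exact (mixed y y' hy hy' h).elim
  · exact (mixed y' y hy' hy h.symm).elim
  · rcases le_total (RF2_fst P g y - 1) (RF2_fst P g y' - 1) with hle | hle
    · exact both y y' hy hy' h1 hle h
    · exact (both y' y hy' hy h2 hle h.symm).symm

/-- The exit time does not change under a compatible step `s`. -/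
private theorem RF2_fst_step (hP : P.Finite) {g : A} (hg : ∀ k : ℕ, 0 < k → g ^ k ≠ 1) {s : A}
    (hs : s * g = g * s)
    (hcomp : ∀ z ∈ P, s * z ∈ P → ∀ g' ∈ ({g, g⁻¹} : Set A), (g' * z ∈ P ↔ g' * (s * z) ∈ P))
    {y : A} (hy : y ∈ P) (hsy : s * y ∈ P) : RF2_fst P g (s * y) = RF2_fst P g y := by
  have hs' : ∀ j : ℕ, s * g⁻¹ ^ j = g⁻¹ ^ j * s := by
    intro j
    have h1 : Commute s g := hs
    exact (h1.inv_right.pow_right j).eq
  have key : ∀ j < RF2_fst P g y, s * (g⁻¹ ^ j * y) ∈ P := by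
    intro j
    induction j with
    | zero => intro _; simpa using hsy
    | succ j ih =>
      intro hj
      have h1 := ih (by omega)
      have h2 : g⁻¹ ^ j * y ∈ P := RF2_lt (by omega)
      have h3 : g⁻¹ * (g⁻¹ ^ j * y) ∈ P := by
        rw [← mul_assoc, ← pow_succ']
        exact RF2_lt hj
      have h4 := (hcomp _ h2 h1 g⁻¹ (by simp)).mp h3
      have h5 : s * (g⁻¹ ^ (j + 1) * y) = g⁻¹ * (s * (g⁻¹ ^ j * y)) := by
        rw [← mul_assoc s, hs', ← mul_assoc s, hs', pow_succ', mul_assoc, mul_assoc, mul_assoc]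
      rw [h5]
      exact h4
  refine RF2_unique hP hg (fun j hj => ?_) ?_
  · rw [← mul_assoc, ← hs', mul_assoc]
    exact key j hj
  · intro hc
    have hp := RF2_pos hP hg hy
    obtain ⟨N, hN⟩ : ∃ N, RF2_fst P g y = N + 1 := ⟨RF2_fst P g y - 1, by omega⟩
    have h1 : g⁻¹ ^ N * y ∈ P := RF2_lt (by omega)
    have h2 := key N (by omega)
    have h3 : g⁻¹ * (s * (g⁻¹ ^ N * y)) ∈ P := by
      rw [hN] at hc
      have h5 : g⁻¹ ^ (N + 1) * (s * y) = g⁻¹ * (s * (g⁻¹ ^ N * y)) := by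
        rw [← mul_assoc s, hs', pow_succ', mul_assoc, mul_assoc]
      rw [← h5]
      exact hc
    have h4 := (hcomp _ h1 h2 g⁻¹ (by simp)).mpr h3
    rw [← mul_assoc, ← pow_succ', ← hN] at h4
    exact RF2_spec hP hg y h4

/-- The completed step commutes with a compatible step `s`. -/
private theorem RF2_stp_step (hP : P.Finite) {g : A} (hg : ∀ k : ℕ, 0 < k → g ^ k ≠ 1) {s : A}
    (hs : s * g = g * s)
    (hcomp : ∀ z ∈ P, s * z ∈ P → ∀ g' ∈ ({g, g⁻¹} : Set A), (g' * z ∈ P ↔ g' * (s * z) ∈ P))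
    {y : A} (hy : y ∈ P) (hsy : s * y ∈ P) : RF2_stp P g (s * y) = s * RF2_stp P g y := by
  have hs' : ∀ j : ℕ, s * g⁻¹ ^ j = g⁻¹ ^ j * s := by
    intro j
    have h1 : Commute s g := hs
    exact (h1.inv_right.pow_right j).eq
  have h1 := hcomp y hy hsy g (by simp)
  unfold RF2_stp
  by_cases h : g * y ∈ P
  · rw [if_pos h, if_pos (h1.mp h), ← mul_assoc, ← hs, mul_assoc]
  · rw [if_neg h, if_neg (fun h2 => h (h1.mpr h2)), RF2_fst_step hP hg hs hcomp hy hsy,
      ← mul_assoc, ← hs', mul_assoc]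

/-- Commutation of the completed steps. -/
private theorem RF2_comm (hP : P.Finite) {g h : A} (hg : ∀ k : ℕ, 0 < k → g ^ k ≠ 1)
    (hh : ∀ k : ℕ, 0 < k → h ^ k ≠ 1) (hgh : g * h = h * g)
    (H1 : ∀ y ∈ P, ∀ g' ∈ ({g, g⁻¹} : Set A), ∀ h' ∈ ({h, h⁻¹} : Set A), g' * y ∈ P →
          (h' * y ∈ P ↔ h' * (g' * y) ∈ P))
    (H2 : ∀ y ∈ P, ∀ g' ∈ ({g, g⁻¹} : Set A), ∀ h' ∈ ({h, h⁻¹} : Set A), h' * y ∈ P →
          (g' * y ∈ P ↔ g' * (h' * y) ∈ P))
    {y : A} (hy : y ∈ P) :
    RF2_stp P g (RF2_stp P h y) = RF2_stp P h (RF2_stp P g y) := by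
  have hc : Commute g h := hgh
  -- the step lemmas for `s = h, h⁻¹`
  have A1 : ∀ h' ∈ ({h, h⁻¹} : Set A), ∀ y ∈ P, h' * y ∈ P →
      RF2_stp P g (h' * y) = h' * RF2_stp P g y := by
    intro h' hh' y hy hhy
    refine RF2_stp_step hP hg ?_ (fun z hz hsz g' hg' => H2 z hz g' hg' h' hh' hsz) hy hhy
    rcases hh' with rfl | rfl
    · exact hc.symm.eq
    · exact hc.symm.inv_left.eq
  have B1 : ∀ g' ∈ ({g, g⁻¹} : Set A), ∀ y ∈ P, g' * y ∈ P →
      RF2_fst P h (g' * y) = RF2_fst P h y := by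
    intro g' hg' y hy hgy
    refine RF2_fst_step hP hh ?_ (fun z hz hsz h' hh' => H1 z hz g' hg' h' hh' hsz) hy hgy
    rcases hg' with rfl | rfl
    · exact hc.eq
    · exact hc.inv_left.eq
  by_cases hhy : h * y ∈ P
  · have e1 : RF2_stp P h y = h * y := by unfold RF2_stp; rw [if_pos hhy]
    have e2 := A1 h (by simp) y hy hhy
    rw [e1, e2]
    have e3 : h * RF2_stp P g y ∈ P := by
      rw [← e2]
      exact RF2_mem hP hg hhy
    conv_rhs => unfold RF2_stp
    rw [if_pos (by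
      have := e3
      unfold RF2_stp at this
      exact this)]
    unfold RF2_stp
    rfl
  · -- invariance along the `g`-steps
    have hinv : h * RF2_stp P g y ∉ P ∧ RF2_fst P h (RF2_stp P g y) = RF2_fst P h y := by
      by_cases hgy : g * y ∈ P
      · have e1 : RF2_stp P g y = g * y := by unfold RF2_stp; rw [if_pos hgy]
        rw [e1]
        exact ⟨fun h1 => hhy ((H1 y hy g (by simp) h (by simp) hgy).mpr h1),
          B1 g (by simp) y hy hgy⟩
      · have e1 : RF2_stp P g y = g⁻¹ ^ (RF2_fst P g y - 1) * y := by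
          unfold RF2_stp; rw [if_neg hgy]
        rw [e1]
        have key : ∀ j < RF2_fst P g y, h * (g⁻¹ ^ j * y) ∉ P ∧
            RF2_fst P h (g⁻¹ ^ j * y) = RF2_fst P h y := by
          intro j
          induction j with
          | zero => intro _; simpa using hhy
          | succ j ih =>
            intro hj
            obtain ⟨i1, i2⟩ := ih (by omega)
            have m1 : g⁻¹ ^ j * y ∈ P := RF2_lt (by omega)
            have m2 : g⁻¹ * (g⁻¹ ^ j * y) ∈ P := by
              rw [← mul_assoc, ← pow_succ']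
              exact RF2_lt hj
            have e2 : g⁻¹ ^ (j + 1) * y = g⁻¹ * (g⁻¹ ^ j * y) := by
              rw [← mul_assoc, ← pow_succ']
            rw [e2]
            exact ⟨fun h1 => i1 ((H1 _ m1 g⁻¹ (by simp) h (by simp) m2).mpr h1),
              (B1 g⁻¹ (by simp) _ m1 m2).trans i2⟩
        have hp := RF2_pos hP hg hy
        exact key _ (by omega)
    have e1 : RF2_stp P h y = h⁻¹ ^ (RF2_fst P h y - 1) * y := by
      unfold RF2_stp; rw [if_neg hhy]
    have e2 : ∀ x, h * x ∉ P → RF2_stp P h x = h⁻¹ ^ (RF2_fst P h x - 1) * x := by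
      intro x hx
      unfold RF2_stp; rw [if_neg hx]
    rw [e1, e2 _ hinv.1, hinv.2]
    have key : ∀ j < RF2_fst P h y, RF2_stp P g (h⁻¹ ^ j * y) = h⁻¹ ^ j * RF2_stp P g y := by
      intro j
      induction j with
      | zero => intro _; simp
      | succ j ih =>
        intro hj
        have m1 : h⁻¹ ^ j * y ∈ P := RF2_lt (by omega)
        have m2 : h⁻¹ * (h⁻¹ ^ j * y) ∈ P := by
          rw [← mul_assoc, ← pow_succ']
          exact RF2_lt hj
        have e2 : h⁻¹ ^ (j + 1) * y = h⁻¹ * (h⁻¹ ^ j * y) := by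
          rw [← mul_assoc, ← pow_succ']
        rw [e2, A1 h⁻¹ (by simp) _ m1 m2, ih (by omega), ← mul_assoc, ← pow_succ']
    have hp := RF2_pos hP hh hy
    exact key _ (by omega)

end

theorem exists_completion {A : Type} [Group A] (P : Set A) (hP : P.Finite) :
    ∃ c : A → Equiv.Perm P,
      (∀ g, (∀ k : ℕ, 0 < k → g ^ k ≠ 1) → ∀ y (hy : y ∈ P) (hgy : g * y ∈ P), c g ⟨y, hy⟩ = ⟨g * y, hgy⟩) ∧
      ∀ g h, (∀ k : ℕ, 0 < k → g ^ k ≠ 1) → (∀ k : ℕ, 0 < k → h ^ k ≠ 1) → g * h = h * g →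
        (∀ y ∈ P, ∀ g' ∈ ({g, g⁻¹} : Set A), ∀ h' ∈ ({h, h⁻¹} : Set A), g' * y ∈ P →
          (h' * y ∈ P ↔ h' * (g' * y) ∈ P)) →
        (∀ y ∈ P, ∀ g' ∈ ({g, g⁻¹} : Set A), ∀ h' ∈ ({h, h⁻¹} : Set A), h' * y ∈ P →
          (g' * y ∈ P ↔ g' * (h' * y) ∈ P)) →
        c g * c h = c h * c g := by
  classical
  have hf : Finite P := hP
  have hbij : ∀ g : A, ∀ hg : (∀ k : ℕ, 0 < k → g ^ k ≠ 1),
      Function.Bijective (fun y : P => (⟨RF2_stp P g y.1, RF2_mem hP hg y.2⟩ : P)) := by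
    intro g hg
    rw [← Finite.injective_iff_bijective]
    intro y y' h
    apply Subtype.ext
    exact RF2_inj hP hg y.2 y'.2 (congrArg Subtype.val h)
  refine ⟨fun g => if hg : (∀ k : ℕ, 0 < k → g ^ k ≠ 1) then Equiv.ofBijective _ (hbij g hg) else 1,
    ?_, ?_⟩
  · intro g hg y hy hgy
    beta_reduce
    rw [dif_pos hg]
    apply Subtype.ext
    show RF2_stp P g y = g * y
    unfold RF2_stp
    rw [if_pos hgy]
  · intro g h hg hh hgh H1 H2
    beta_reduce
    rw [dif_pos hg, dif_pos hh]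
    ext y
    exact RF2_comm hP hg hh hgh H1 H2 y.2

end NBT
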