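import Pool.Agent.Lib.MP_83fbc5_gt.RF1
import Pool.Agent.Lib.MP_83fbc5_gt.RF2

/-!
# MP_83fbc5_gt, module RF: right-angled Artin groups are residually finite

PROOF. Let `x = a ≠ 1`, `P = Sf x` (finite), `c` from `exists_completion`. The generators have infinite order (`gen_zpow_inj`); for adjacent `v, w` the permutations `c (gen v)`, `c (gen w)` commute, by
`sf_adj` for the letters `(v, ±), (w, ±)` (`gl (v, true) = gen v`, `gl (v, false) = (gen v)⁻¹`). By `ra_lift` there is `F : RA Γ →* Equiv.Perm P` with `F (gen v) = c (gen v)`. Let `l` be a reduced word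
with `ev l = x` (`exists_wr`); all suffixes of `l` have values in `P` (`sf_word`; `x` itself and `1 = ev []` too), so by induction on the suffix `F (ev l') ⟨1, _⟩ = ⟨ev l', _⟩` (for a letter
`(v, false)`: `c (gen v)⁻¹` maps `gen v * y` to `y`). Hence `F x` maps `1` to `x ≠ 1`. `K = F.ker` (`Subgroup.finiteIndex_ker`, `Equiv.Perm P` finite).
-/

set_option autoImplicit false

namespace NBT

open RaagIso

private theorem RF_letter {V : Type} {Γ : SimpleGraph V} {v : V} {g' : RA Γ}
    (h : g' ∈ ({gen v, (gen v)⁻¹} : Set (RA Γ))) : ∃ b : Bool, gl (v, b) = g' := by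
  rcases h with rfl | h
  · exact ⟨true, rfl⟩
  · rw [Set.mem_singleton_iff] at h
    subst h
    exact ⟨false, rfl⟩

theorem ra_rf {V : Type} (Γ : SimpleGraph V) (a : RA Γ) (ha : a ≠ 1) :
    ∃ K : Subgroup (RA Γ), K.FiniteIndex ∧ a ∉ K := by
  obtain ⟨l, hl, hw⟩ := exists_wr a
  obtain ⟨c, hc1, hc2⟩ := exists_completion (Sf a) (sf_finite a)
  have hfin : Finite (Sf a) := sf_finite a
  have hinf : ∀ v : V, ∀ k : ℕ, 0 < k → (gen v : RA Γ) ^ k ≠ 1 := by
    intro v k hk h
    have h3 := gen_zpow_inj (Γ := Γ) (v := v) (n := (k : ℤ)) (m := 0) (by rw [zpow_natCast, zpow_zero, h])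
    have h4 : k = 0 := by exact_mod_cast h3
    omega
  obtain ⟨F, hF⟩ := ra_lift (Γ := Γ) (fun v => c (gen v)) (fun v w hvw => by
    refine hc2 _ _ (hinf v) (hinf w) (gen_comm hvw) ?_ ?_
    · intro y hy g' hg' h' hh' hgy
      obtain ⟨b, rfl⟩ := RF_letter hg'
      obtain ⟨b', rfl⟩ := RF_letter hh'
      exact sf_adj (b := (v, b)) (c := (w, b')) hvw hy hgy
    · intro y hy g' hg' h' hh' hhy
      obtain ⟨b, rfl⟩ := RF_letter hg'
      obtain ⟨b', rfl⟩ := RF_letter hh'
      exact sf_adj (b := (w, b')) (c := (v, b)) hvw.symm hy hhy)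
  have hmem : ∀ m l' : List (V × Bool), m ++ l' = l → (ev l' : RA Γ) ∈ Sf a := by
    intro m l' h
    rw [← hl, ← h]
    rw [← h] at hw
    exact sf_word hw
  have h1 : (1 : RA Γ) ∈ Sf a := by
    have := hmem l [] (by simp)
    rwa [ev_nil] at this
  have key : ∀ (l' m : List (V × Bool)), m ++ l' = l → ∀ h : (ev l' : RA Γ) ∈ Sf a,
      F (ev l') ⟨1, h1⟩ = ⟨ev l', h⟩ := by
    intro l'
    induction l' with
    | nil =>
      intro m _ h
      have e0 : F (ev []) = 1 := by rw [ev_nil, map_one]
      rw [e0]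
      rfl
    | cons b l' ih =>
      intro m hm h
      have hm' : (m ++ [b]) ++ l' = l := by rw [← hm]; simp
      have h' := hmem (m ++ [b]) l' hm'
      have e := ih (m ++ [b]) hm' h'
      have h2 : gl b * ev l' ∈ Sf a := by rwa [← ev_cons]
      have e2 : F (gl b) ⟨ev l', h'⟩ = ⟨gl b * ev l', h2⟩ := by
        rcases b with ⟨v, b⟩
        cases b
        · have h3 : (gl (v, false) : RA Γ) = (gen v)⁻¹ := rfl
          have h4 : gen v * (gl (v, false) * ev l') = (ev l' : RA Γ) := by
            rw [h3, mul_inv_cancel_left]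
          have h5 : gen v * (gl (v, false) * ev l') ∈ Sf a := by rw [h4]; exact h'
          have h6 := hc1 (gen v) (hinf v) (gl (v, false) * ev l') h2 h5
          have h7 : F (gl (v, false)) = (c (gen v))⁻¹ := by
            rw [h3, map_inv, hF]
          rw [h7]
          have h8 : (⟨ev l', h'⟩ : Sf a) = c (gen v) ⟨gl (v, false) * ev l', h2⟩ := by
            rw [h6]
            exact Subtype.ext h4.symm
          rw [h8]
          exact (c (gen v)).symm_apply_apply _
        · have h3 : (gl (v, true) : RA Γ) = gen v := rfl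
          have h7 : F (gl (v, true)) = c (gen v) := by
            rw [h3, hF]
          rw [h7]
          exact hc1 (gen v) (hinf v) (ev l') h' h2
      have e3 : F (ev (b :: l')) = F (gl b) * F (ev l') := by rw [ev_cons, map_mul]
      rw [e3, Equiv.Perm.mul_apply, e, e2]
      exact Subtype.ext (ev_cons b l').symm
  have hall : (ev l : RA Γ) ∈ Sf a := hmem [] l (by simp)
  have e := key l [] (by simp) hall
  refine ⟨F.ker, inferInstance, fun h => ha ?_⟩
  rw [MonoidHom.mem_ker] at h
  have h9 : F (ev l) = 1 := by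
    have h10 : F (ev l) = F a := congrArg F hl
    rw [h10, h]
  rw [h9] at e
  have e2 : (1 : RA Γ) = ev l := congrArg Subtype.val e
  exact hl.symm.trans e2.symm

end NBT
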