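import Mathlib
import Pool.Agent.Lib.MP_32d917_al_raag.W03

/-!
# MP_83fbc5_gt, module VV: a functorial family of finite index subgroups

`VV A m` is the intersection of the kernels of all homomorphisms of `A` to the symmetric groups on `Fin k`, `k ≤ m`.

PROOF. `vv_map`: compose homomorphisms `B →* Perm (Fin k)` with `φ`. `vv_anti`: fewer homomorphisms for smaller `m`. Normal: infimum of kernels (`Subgroup.mem_iInf`).
`vv_fin`: for a finite vertex set there are only finitely many homomorphisms `RA Γ →* Perm (Fin k)` (they are determined by the values on the generators: `ra_ext`, so `MonoidHom` injects in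
`V → Perm (Fin k)`), and each kernel has finite index (`Subgroup.finiteIndex_ker`); `Subgroup.finiteIndex_iInf`. `vv_bot`: if `a ∉ K`, `K` of finite index `n`, the action of `A` on the
cosets `A ⧸ K ≃ Fin n` (`MulAction.toPermHom`, conjugated by the equivalence) moves the coset of `1`, so `a ∉ VV A n`.
(45-60 minutes)
-/

set_option autoImplicit false

namespace NBT

open RaagIso

def VV (A : Type) [Group A] (m : ℕ) : Subgroup A :=
  ⨅ (k : Fin (m + 1)) (f : A →* Equiv.Perm (Fin k)), f.ker

theorem mem_VV {A : Type} [Group A] {m : ℕ} {x : A} :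
    x ∈ VV A m ↔ ∀ (k : Fin (m + 1)) (f : A →* Equiv.Perm (Fin k)), f x = 1 := by
  unfold VV
  simp only [Subgroup.mem_iInf, MonoidHom.mem_ker]

instance vv_normal (A : Type) [Group A] (m : ℕ) : (VV A m).Normal := by
  unfold VV
  exact Subgroup.normal_iInf_normal fun k => Subgroup.normal_iInf_normal fun f => inferInstance

theorem vv_map {A B : Type} [Group A] [Group B] (φ : A →* B) (m : ℕ) : VV A m ≤ (VV B m).comap φ := by
  intro x hx
  rw [Subgroup.mem_comap, mem_VV]
  rw [mem_VV] at hx
  intro k f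
  exact hx k (f.comp φ)

theorem vv_anti (A : Type) [Group A] : Antitone (VV A) := by
  intro m m' h x hx
  rw [mem_VV] at hx ⊢
  intro k f
  exact hx (Fin.castLE (Nat.succ_le_succ h) k) f

theorem vv_fin {V : Type} [Finite V] (Γ : SimpleGraph V) (m : ℕ) : (VV (RA Γ) m).FiniteIndex := by
  unfold VV
  refine Subgroup.finiteIndex_iInf fun k => ?_
  have hfin : Finite (RA Γ →* Equiv.Perm (Fin k)) := by
    refine Finite.of_injective
      (fun f : RA Γ →* Equiv.Perm (Fin k) => fun v : V => f (gen v)) ?_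
    intro f g hfg
    exact ra_ext fun v => congrFun hfg v
  refine Subgroup.finiteIndex_iInf fun f => ?_
  exact Subgroup.finiteIndex_ker f

theorem vv_bot {A : Type} [Group A] (h : ∀ a : A, a ≠ 1 → ∃ K : Subgroup A, K.FiniteIndex ∧ a ∉ K) (a : A)
    (ha : ∀ m, a ∈ VV A m) : a = 1 := by
  by_contra hne
  obtain ⟨K, hK, haK⟩ := h a hne
  have hfin : Finite (A ⧸ K) := Subgroup.finite_quotient_of_finiteIndex
  obtain ⟨n, ⟨e⟩⟩ := Finite.exists_equiv_fin (A ⧸ K)
  have h1 := mem_VV.1 (ha n) (Fin.last n)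
    ((Equiv.permCongrHom e).toMonoidHom.comp (MulAction.toPermHom A (A ⧸ K)))
  have h2 : MulAction.toPermHom A (A ⧸ K) a = 1 := by
    have h3 : (Equiv.permCongrHom e) (MulAction.toPermHom A (A ⧸ K) a) = 1 := h1
    exact (MulEquiv.map_eq_one_iff _).1 h3
  have h3 : a • ((1 : A) : A ⧸ K) = ((1 : A) : A ⧸ K) := by
    have h4 := Equiv.congr_fun h2 ((1 : A) : A ⧸ K)
    exact h4
  rw [MulAction.Quotient.smul_coe, smul_eq_mul, mul_one, QuotientGroup.eq] at h3
  apply haK
  have h5 : a⁻¹ * 1 = a⁻¹ := mul_one _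
  rw [h5] at h3
  exact K.inv_mem_iff.1 h3

end NBT
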