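import Pool.Agent.Lib.MP_83fbc5_gt.QM
import Pool.Agent.Lib.MP_83fbc5_gt.VV
import Pool.Agent.Lib.MP_83fbc5_gt.RF

/-!
# MP_83fbc5_gt, module CL2: an element of the right-angled Artin group which dies in all finite quotients is trivial

PROOF. Suppose `a` satisfies the hypothesis. Write `a = ev l` (`ev_surj`) and let `S` be the finite set of the vertices of `l`. For `s, s' ∈ S` consider the elements
`s.1⁻¹ * s'.1` and `s.1⁻¹ * s'.1 * (L.g s.2 s'.2)⁻¹`: finitely many elements of `H`; each of them which is not `1` is outside `C.N i` for all large `i` (`C.bot`, `C.anti`). So there is `i0` such that for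
`i ≥ i0`, with `f = mk' (C.N i)`: (a) `(f s.1, s.2) = (f s'.1, s'.2)` implies `s = s'`; (b) if the images of `s, s' ∈ S` are adjacent in `(L.map f).gr` then `s, s'` are adjacent in `L.gr`
(`f s'.1 = f s.1 * f (g s.2 s'.2)` means `s.1⁻¹ * s'.1 * g⁻¹ ∈ C.N i` up to conjugation in the normal subgroup: use `(s.1 * g)⁻¹ * s'.1 ∈ C.N i`; take these elements instead). For `i ≥ i0` define
`σ : RA (L.map f).gr →* RA L.gr`, `gen w ↦ gen s` if `w` is the image of `s ∈ S` and `gen w ↦ 1` otherwise (`ra_lift`, (a), (b), `gen_comm`). Then `σ (L.qm f a) = a` (letters of `l`). By `vv_map`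
`a ∈ VV (RA L.gr) i` for all `i ≥ i0`, hence for all `i` (`vv_anti`), so `a = 1` by `vv_bot`, `ra_rf`.
(60-80 minutes)
-/

set_option autoImplicit false

namespace NBT

open RaagIso

namespace VG

theorem chain_sep {H : Type} [Group H] (C : Chain H) (T : Finset H) :
    ∃ i0, ∀ i, i0 ≤ i → ∀ x ∈ T, x ∈ C.N i → x = 1 := by
  classical
  induction T using Finset.induction_on with
  | empty => exact ⟨0, fun i _ x hx => absurd hx (Finset.notMem_empty x)⟩
  | insert y T hy ih =>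
    obtain ⟨i0, h0⟩ := ih
    by_cases hy1 : y = 1
    · refine ⟨i0, fun i hi x hx hxi => ?_⟩
      rcases Finset.mem_insert.1 hx with rfl | hx
      · exact hy1
      · exact h0 i hi x hx hxi
    · have h1 : ∃ j, y ∉ C.N j := by
        by_contra hc
        push Not at hc
        have h2 : y ∈ ⨅ i, C.N i := Subgroup.mem_iInf.2 hc
        rw [C.bot] at h2
        exact hy1 (Subgroup.mem_bot.1 h2)
      obtain ⟨j, hj⟩ := h1
      refine ⟨max i0 j, fun i hi x hx hxi => ?_⟩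
      rcases Finset.mem_insert.1 hx with rfl | hx
      · exact absurd (C.anti (le_trans (le_max_right _ _) hi) hxi) hj
      · exact h0 i (le_trans (le_max_left _ _) hi) x hx hxi

theorem exists_back {H : Type} [Group H] (L : VG H) {H' : Type} [Group H'] (f : H →* H') (S : Finset (H × L.I))
    (ha : ∀ s ∈ S, ∀ s' ∈ S, f s.1 = f s'.1 → s.2 = s'.2 → s = s')
    (hb : ∀ s ∈ S, ∀ s' ∈ S, f s'.1 = f s.1 * f (L.g s.2 s'.2) → s'.1 = s.1 * L.g s.2 s'.2) :
    ∃ σ : RA (L.map f).gr →* RA L.gr, ∀ s ∈ S, σ (L.qm f (gen s)) = gen s := by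
  classical
  have hadj : ∀ s ∈ S, ∀ s' ∈ S, (L.map f).gr.Adj ((f s.1, s.2) : H' × (L.map f).I) (f s'.1, s'.2) →
      L.gr.Adj s s' := by
    intro s hs s' hs' h
    rcases h with ⟨h1, h2⟩ | ⟨h1, h2⟩
    · exact Or.inl ⟨h1, hb s hs s' hs' h2⟩
    · exact Or.inr ⟨h1, hb s' hs' s hs h2⟩
  have key : ∀ w : H' × (L.map f).I, ∃ y : RA L.gr,
      (∃ s ∈ S, ((f s.1, s.2) : H' × (L.map f).I) = w ∧ y = gen s) ∨
        ((∀ s ∈ S, ((f s.1, s.2) : H' × (L.map f).I) ≠ w) ∧ y = 1) := by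
    intro w
    by_cases h : ∃ s ∈ S, ((f s.1, s.2) : H' × (L.map f).I) = w
    · obtain ⟨s, hs, hw⟩ := h
      exact ⟨gen s, Or.inl ⟨s, hs, hw, rfl⟩⟩
    · push Not at h
      exact ⟨1, Or.inr ⟨h, rfl⟩⟩
  choose τ hτ using key
  obtain ⟨σ, hσ⟩ := ra_lift (Γ := (L.map f).gr) τ (by
    intro v w hvw
    rcases hτ v with ⟨s, hs, h1, h2⟩ | ⟨_, h2⟩
    · rcases hτ w with ⟨s', hs', h3, h4⟩ | ⟨_, h4⟩
      · rw [h2, h4]
        apply gen_comm
        apply hadj s hs s' hs'
        rw [h1, h3]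
        exact hvw
      · rw [h4, mul_one, one_mul]
    · rw [h2, mul_one, one_mul])
  refine ⟨σ, fun s hs => ?_⟩
  rw [qm_gen, hσ]
  rcases hτ ((f s.1, s.2) : H' × (L.map f).I) with ⟨s', hs', h1, h2⟩ | ⟨h1, _⟩
  · rw [h2]
    have h3 : f s'.1 = f s.1 := (Prod.mk.inj h1).1
    have h4 : s'.2 = s.2 := (Prod.mk.inj h1).2
    rw [ha s' hs' s hs h3 h4]
  · exact absurd rfl (h1 s hs)

theorem qm_bot {H : Type} [Group H] (L : VG H) (C : Chain H) (a : RA L.gr)
    (h : ∀ i, L.qm (QuotientGroup.mk' (C.N i)) a ∈ VV (RA (L.map (QuotientGroup.mk' (C.N i))).gr) i) : a = 1 := by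
  classical
  obtain ⟨l, rfl⟩ := ev_surj a
  let S : Finset (H × L.I) := (l.map Prod.fst).toFinset
  have hS : ∀ c ∈ l, c.1 ∈ S := fun c hc => List.mem_toFinset.2 (List.mem_map.2 ⟨c, hc, rfl⟩)
  let T : Finset H := (S ×ˢ S).image (fun p => p.1.1⁻¹ * p.2.1) ∪
    (S ×ˢ S).image (fun p => (p.1.1 * L.g p.1.2 p.2.2)⁻¹ * p.2.1)
  obtain ⟨i0, hi0⟩ := chain_sep C T
  have hmem : ∀ i, i0 ≤ i → (ev l : RA L.gr) ∈ VV (RA L.gr) i := by
    intro i hi
    obtain ⟨σ, hσ⟩ := exists_back L (QuotientGroup.mk' (C.N i)) S (by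
      intro s hs s' hs' h1 h2
      have h3 : s.1⁻¹ * s'.1 ∈ C.N i := QuotientGroup.eq.1 h1
      have h4 := hi0 i hi _ (Finset.mem_union_left _ (Finset.mem_image.2
        ⟨(s, s'), Finset.mem_product.2 ⟨hs, hs'⟩, rfl⟩)) h3
      exact Prod.ext (inv_mul_eq_one.1 h4) h2) (by
      intro s hs s' hs' h1
      rw [← map_mul] at h1
      have h3 : (s.1 * L.g s.2 s'.2)⁻¹ * s'.1 ∈ C.N i := QuotientGroup.eq.1 h1.symm
      have h4 := hi0 i hi _ (Finset.mem_union_right _ (Finset.mem_image.2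
        ⟨(s, s'), Finset.mem_product.2 ⟨hs, hs'⟩, rfl⟩)) h3
      exact (inv_mul_eq_one.1 h4).symm)
    have hgl : ∀ c ∈ l, σ (L.qm (QuotientGroup.mk' (C.N i)) (gl c)) = gl c := by
      intro c hc
      unfold gl
      split_ifs
      · exact hσ _ (hS c hc)
      · rw [map_inv, map_inv, hσ _ (hS c hc)]
    have hev : ∀ l' : List ((H × L.I) × Bool), (∀ c ∈ l', c ∈ l) →
        σ (L.qm (QuotientGroup.mk' (C.N i)) (ev l')) = ev l' := by
      intro l'
      induction l' with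
      | nil =>
        intro _
        rw [ev_nil, map_one, map_one]
      | cons c l' ih =>
        intro h1
        rw [ev_cons, map_mul, map_mul, ih fun c' hc' => h1 c' (List.mem_cons_of_mem _ hc'),
          hgl c (h1 c List.mem_cons_self)]
    have h5 := vv_map σ i (h i)
    rw [Subgroup.mem_comap, hev l fun c hc => hc] at h5
    exact h5
  refine vv_bot (ra_rf L.gr) _ fun m => ?_
  exact vv_anti _ (le_max_left m i0) (hmem (max m i0) (le_max_right _ _))

end VG

end NBT
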