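import Pool.Agent.Lib.MP_83fbc5_gt.CL1
import Pool.Agent.Lib.MP_83fbc5_gt.CL2

/-!
# MP_83fbc5_gt, module CL3: every chain of `H` is the trace of a chain of `GG`
-/

set_option autoImplicit false

namespace NBT

open RaagIso

namespace VG

private theorem CL3_qm {H : Type} [Group H] (L : VG H) (A B : Subgroup H) [A.Normal] [B.Normal]
    (hAB : A ≤ B) (m k : ℕ) (hkm : k ≤ m) (a : RA L.gr)
    (ha : L.qm (QuotientGroup.mk' A) a ∈ VV (RA (L.map (QuotientGroup.mk' A)).gr) m) :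
    L.qm (QuotientGroup.mk' B) a ∈ VV (RA (L.map (QuotientGroup.mk' B)).gr) k := by
  let π : H ⧸ A →* H ⧸ B := QuotientGroup.map A B (MonoidHom.id H) hAB
  have hπ : ∀ x : H, π (QuotientGroup.mk' A x) = QuotientGroup.mk' B x := fun x => rfl
  obtain ⟨ψ, hψ⟩ : ∃ F : RA (L.map (QuotientGroup.mk' A)).gr →* RA (L.map (QuotientGroup.mk' B)).gr,
      ∀ v : (H ⧸ A) × L.I, F (gen v) = gen ((π v.1, v.2) : (H ⧸ B) × L.I) := by
    refine ra_lift (fun v : (H ⧸ A) × L.I =>
      (gen ((π v.1, v.2) : (H ⧸ B) × L.I) : RA (L.map (QuotientGroup.mk' B)).gr))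
      fun v w h => gen_comm ?_
    rcases h with ⟨h1, h2⟩ | ⟨h1, h2⟩
    · exact Or.inl ⟨h1, by
        show π w.1 = π v.1 * QuotientGroup.mk' B _
        rw [h2, map_mul]
        rfl⟩
    · exact Or.inr ⟨h1, by
        show π v.1 = π w.1 * QuotientGroup.mk' B _
        rw [h2, map_mul]
        rfl⟩
  have hcomp : ψ.comp (L.qm (QuotientGroup.mk' A)) = L.qm (QuotientGroup.mk' B) := by
    apply ra_ext
    intro v
    rw [MonoidHom.comp_apply, qm_gen, qm_gen]
    exact hψ (QuotientGroup.mk' A v.1, v.2)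
  have h1 : ψ (L.qm (QuotientGroup.mk' A) a) ∈ VV (RA (L.map (QuotientGroup.mk' B)).gr) m :=
    vv_map ψ m ha
  have h2 : ψ (L.qm (QuotientGroup.mk' A) a) = L.qm (QuotientGroup.mk' B) a :=
    DFunLike.congr_fun hcomp a
  rw [h2] at h1
  exact vv_anti _ hkm h1

theorem chain_lift {H : Type} [Group H] (L : VG H) (C : Chain H) :
    ∃ C' : Chain L.GG, ∀ i, (C'.N i).comap L.iH = C.N i := by
  choose K hKn hKf hK using fun i : ℕ => L.lft_exists (C.N i) i
  have hanti : Antitone K := by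
    intro i j hij x hx
    rw [hK] at hx ⊢
    exact ⟨C.anti hij hx.1, CL3_qm L (C.N j) (C.N i) (C.anti hij) j i hij x.left hx.2⟩
  have hbot : ⨅ i, K i = ⊥ := by
    rw [eq_bot_iff]
    intro x hx
    rw [Subgroup.mem_iInf] at hx
    have h1 : x.right = 1 := by
      have h2 : x.right ∈ ⨅ i, C.N i := by
        rw [Subgroup.mem_iInf]
        intro i
        exact ((hK i x).mp (hx i)).1
      rw [C.bot] at h2
      exact Subgroup.mem_bot.mp h2
    have h3 : x.left = 1 := L.qm_bot C x.left fun i => ((hK i x).mp (hx i)).2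
    rw [Subgroup.mem_bot]
    exact SemidirectProduct.ext h3 h1
  refine ⟨⟨K, hKn, fun i => hKf i (C.fin i), hanti, hbot⟩, fun i => ?_⟩
  ext h
  rw [Subgroup.mem_comap]
  show L.iH h ∈ K i ↔ _
  rw [hK, SemidirectProduct.right_inr, SemidirectProduct.left_inr, map_one]
  exact ⟨fun h => h.1, fun h => ⟨h, Subgroup.one_mem _⟩⟩

end VG

end NBT
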