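import Pool.Agent.Lib.MP_83fbc5_gt.SDefs

/-!
# MP_83fbc5_gt, module FPG: `GG = RA ⋊ H` is finitely presented if `H` is

PROOF. Let `E = Monoid.Coprod (FreeGroup L.I) H` (finitely presented: instances in `Mathlib.GroupTheory.FinitelyPresentedGroup`) and `f : E →* GG` given by
`of i ↦ X (1, i)`, `h ↦ iH h` (`Monoid.Coprod.lift`). `f` is surjective: the image contains `inr H` and all `inl (gen (h, i)) = iH h * X (1, i) * (iH h)⁻¹`. Let `S` be the finite set of the
elements `[of i, h (of j) h⁻¹]`, `(i, j) ∈ J2`, `h = g i j`, `W = Subgroup.normalClosure S`. Claim `ker f = W` (then `Group.IsFinitelyPresented.of_surjective`, `Subgroup.IsFinitelyNormallyGenerated`).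
`W ≤ ker f`: `X (1, i)`, `X (g i j, j)` commute (`gen_comm`). `ker f ≤ W`: construct `F' : GG →* E ⧸ W` with `F' (f e) = mk e`: on `RA` by `ra_lift` with
`gen (h, i) ↦ mk (h (of i) h⁻¹)` (adjacent generators `(h, i)`, `(h * g i j, j)`: conjugate the relation by `h`), on `H` by `mk ∘ inr`, combined by `SemidirectProduct.lift` (compatibility on
generators `gen v`: `ra_ext`/`MonoidHom` equality: `phi_gen`). Then `F' ∘ f = mk` on the generators (`Monoid.Coprod.hom_ext`, `FreeGroup.ext_hom`).
(60-90 minutes)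
-/

set_option autoImplicit false

namespace NBT

open RaagIso commutatorElement

private theorem fpg_conj {H : Type} [Group H] (L : VG H) (h : H) (v : H × L.I) :
    L.iH h * L.X v * (L.iH h)⁻¹ = L.X (h * v.1, v.2) := by
  show SemidirectProduct.inr h * SemidirectProduct.inl (gen v) * (SemidirectProduct.inr h)⁻¹ =
    SemidirectProduct.inl (gen (h * v.1, v.2))
  rw [← L.phi_gen h v, SemidirectProduct.inl_aut, map_inv]

private theorem fpg_comm_conj {K : Type} [Group K] {x y : K} (h : x * y = y * x) (z : K) :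
    (z * x * z⁻¹) * (z * y * z⁻¹) = (z * y * z⁻¹) * (z * x * z⁻¹) := by
  have e1 : (z * x * z⁻¹) * (z * y * z⁻¹) = z * (x * y) * z⁻¹ := by group
  have e2 : (z * y * z⁻¹) * (z * x * z⁻¹) = z * (y * x) * z⁻¹ := by group
  rw [e1, e2, h]

theorem fp_GG {H : Type} [Group H] (L : VG H) (h : Group.IsFinitelyPresented H) : Group.IsFinitelyPresented L.GG := by
  classical
  let E := Monoid.Coprod (FreeGroup L.I) H
  let a : L.I → E := fun i => Monoid.Coprod.inl (FreeGroup.of i)
  let b : H →* E := Monoid.Coprod.inr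
  let S : Set E := Set.range fun p : L.J2 =>
    ⁅a p.1.1, b (L.g p.1.1 p.1.2) * a p.1.2 * (b (L.g p.1.1 p.1.2))⁻¹⁆
  have hS : S.Finite := Set.finite_range _
  let W : Subgroup E := Subgroup.normalClosure S
  let f : E →* L.GG := Monoid.Coprod.lift (FreeGroup.lift fun i => L.X (1, i)) L.iH
  have hfa : ∀ i, f (a i) = L.X (1, i) := fun i => by
    show Monoid.Coprod.lift (FreeGroup.lift fun i => L.X (1, i)) L.iH
      (Monoid.Coprod.inl (FreeGroup.of i)) = L.X (1, i)
    rw [Monoid.Coprod.lift_apply_inl, FreeGroup.lift_apply_of]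
  have hfb : ∀ x, f (b x) = L.iH x := fun x => by
    show Monoid.Coprod.lift (FreeGroup.lift fun i => L.X (1, i)) L.iH
      (Monoid.Coprod.inr x) = L.iH x
    rw [Monoid.Coprod.lift_apply_inr]
  have hWf : W ≤ f.ker := by
    refine Subgroup.normalClosure_le_normal ?_
    rintro _ ⟨p, rfl⟩
    show f _ = 1
    rw [map_commutatorElement, map_mul, map_mul, map_inv, hfa, hfb, hfa, fpg_conj,
      commutatorElement_eq_one_iff_mul_comm]
    show SemidirectProduct.inl (gen (1, p.1.1)) * SemidirectProduct.inl (gen _) =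
      SemidirectProduct.inl (gen _) * SemidirectProduct.inl (gen (1, p.1.1))
    rw [← map_mul, ← map_mul, gen_comm (Γ := L.gr)]
    exact Or.inl ⟨p.2, by show L.g p.1.1 p.1.2 * 1 = 1 * L.g p.1.1 p.1.2; rw [mul_one, one_mul]⟩
  let fbar : E ⧸ W →* L.GG := QuotientGroup.lift W f hWf
  let a' : L.I → E ⧸ W := fun i => QuotientGroup.mk' W (a i)
  let b' : H →* E ⧸ W := (QuotientGroup.mk' W).comp b
  have hrel : ∀ i j, L.R i j → a' i * (b' (L.g i j) * a' j * (b' (L.g i j))⁻¹) =
      (b' (L.g i j) * a' j * (b' (L.g i j))⁻¹) * a' i := by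
    intro i j hij
    rw [← commutatorElement_eq_one_iff_mul_comm]
    have e1 : (QuotientGroup.mk' W) ⁅a i, b (L.g i j) * a j * (b (L.g i j))⁻¹⁆ = 1 := by
      rw [QuotientGroup.mk'_apply, QuotientGroup.eq_one_iff]
      exact Subgroup.subset_normalClosure ⟨⟨(i, j), hij⟩, rfl⟩
    rw [map_commutatorElement, map_mul, map_mul, map_inv] at e1
    exact e1
  have hb' : ∀ i j (x : H), L.R i j →
      (b' x * a' i * (b' x)⁻¹) * (b' (x * L.g i j) * a' j * (b' (x * L.g i j))⁻¹) =
      (b' (x * L.g i j) * a' j * (b' (x * L.g i j))⁻¹) * (b' x * a' i * (b' x)⁻¹) := by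
    intro i j x hij
    have e1 := fpg_comm_conj (hrel i j hij) (b' x)
    have e2 : b' x * (b' (L.g i j) * a' j * (b' (L.g i j))⁻¹) * (b' x)⁻¹ =
        b' (x * L.g i j) * a' j * (b' (x * L.g i j))⁻¹ := by
      rw [map_mul]; group
    rw [e2] at e1
    exact e1
  obtain ⟨fn, hfn⟩ := ra_lift (Γ := L.gr) (fun v : H × L.I => b' v.1 * a' v.2 * (b' v.1)⁻¹)
    (fun v w hvw => by
      rcases hvw with ⟨h1, h2⟩ | ⟨h1, h2⟩
      · show (b' v.1 * a' v.2 * (b' v.1)⁻¹) * (b' w.1 * a' w.2 * (b' w.1)⁻¹) =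
          (b' w.1 * a' w.2 * (b' w.1)⁻¹) * (b' v.1 * a' v.2 * (b' v.1)⁻¹)
        rw [h2]
        exact hb' _ _ _ h1
      · show (b' v.1 * a' v.2 * (b' v.1)⁻¹) * (b' w.1 * a' w.2 * (b' w.1)⁻¹) =
          (b' w.1 * a' w.2 * (b' w.1)⁻¹) * (b' v.1 * a' v.2 * (b' v.1)⁻¹)
        rw [h2]
        exact (hb' _ _ _ h1).symm)
  have hcompat : ∀ x : H, fn.comp (L.phi x).toMonoidHom =
      (MulAut.conj (b' x)).toMonoidHom.comp fn := by
    intro x
    apply ra_ext
    intro v
    show fn (L.phi x (gen v)) = b' x * fn (gen v) * (b' x)⁻¹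
    rw [L.phi_gen, hfn, hfn]
    show b' (x * v.1) * a' v.2 * (b' (x * v.1))⁻¹ = b' x * (b' v.1 * a' v.2 * (b' v.1)⁻¹) * (b' x)⁻¹
    rw [map_mul]
    group
  let F' : L.GG →* E ⧸ W := SemidirectProduct.lift fn b' hcompat
  have h1 : F'.comp fbar = MonoidHom.id _ := by
    apply QuotientGroup.monoidHom_ext
    apply Monoid.Coprod.hom_ext
    · apply FreeGroup.ext_hom
      intro i
      show F' (fbar (QuotientGroup.mk' W (a i))) = QuotientGroup.mk' W (a i)
      have e1 : fbar (QuotientGroup.mk' W (a i)) = L.X (1, i) := hfa i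
      rw [e1]
      show SemidirectProduct.lift fn b' hcompat (SemidirectProduct.inl (gen (1, i))) = _
      rw [SemidirectProduct.lift_inl, hfn]
      show b' 1 * a' i * (b' 1)⁻¹ = a' i
      rw [map_one]
      group
    · apply MonoidHom.ext
      intro x
      show F' (fbar (QuotientGroup.mk' W (b x))) = QuotientGroup.mk' W (b x)
      have e1 : fbar (QuotientGroup.mk' W (b x)) = L.iH x := hfb x
      rw [e1]
      show SemidirectProduct.lift fn b' hcompat (SemidirectProduct.inr x) = _
      rw [SemidirectProduct.lift_inr]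
      rfl
  have h2 : fbar.comp F' = MonoidHom.id _ := by
    apply SemidirectProduct.hom_ext
    · apply ra_ext
      intro v
      show fbar (SemidirectProduct.lift fn b' hcompat (SemidirectProduct.inl (gen v))) =
        SemidirectProduct.inl (gen v)
      rw [SemidirectProduct.lift_inl, hfn]
      show fbar (b' v.1 * a' v.2 * (b' v.1)⁻¹) = L.X v
      have e1 : fbar (b' v.1) = L.iH v.1 := hfb v.1
      have e2 : fbar (a' v.2) = L.X (1, v.2) := hfa v.2
      rw [map_mul, map_mul, map_inv, e1, e2, fpg_conj]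
      show L.X (v.1 * 1, v.2) = L.X v
      rw [mul_one]
    · apply MonoidHom.ext
      intro x
      show fbar (SemidirectProduct.lift fn b' hcompat (SemidirectProduct.inr x)) =
        SemidirectProduct.inr x
      rw [SemidirectProduct.lift_inr]
      exact hfb x
  have hq : Group.IsFinitelyPresented (E ⧸ W) :=
    Group.IsFinitelyPresented.quotient W ⟨S, hS, rfl⟩
  exact Group.IsFinitelyPresented.equiv (MonoidHom.toMulEquiv fbar F' h1 h2)

end NBT
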