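import Pool.Agent.Lib.MP_83fbc5_gt.LA3

/-!
# MP_83fbc5_gt, module GA5: rank of a matrix whose row space contains `1 - t`

PROOF. Take `B` with rows the `v` of the hypothesis: `B * A = scal (1 - el t)` (row `x` is `Pi.single x (1 - el t)`). Mapping to `F[Q]`, `Q = H/N`: the range of `actM F (A.map ..)` contains the range of
`actM F (scal (1 - q))`, which is right multiplication of all coordinates by `1 - q` (`vecMul_scal`), so by `ker_diag` (lists `[q]`) and rank-nullity `rk A ≥ card n * |Q| - dim ker`, `orderOf q * dim ker ≤ card n * |Q|`.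
(30-45 minutes)
-/

set_option autoImplicit false

namespace NBT

open Matrix Module

universe w

theorem rk_of_rows (F : Type w) [Field F] {H : Type} [Group H] {m n : Type} [Fintype m] [Fintype n] [DecidableEq n]
    (A : Matrix m n (MonoidAlgebra ℤ H)) (t : H) (h : ∀ x : n, ∃ v, v ᵥ* A = Pi.single x (1 - el t))
    (N : Subgroup H) [N.Normal] [N.FiniteIndex] :
    (orderOf (QuotientGroup.mk t : H ⧸ N) : ℤ) * (Fintype.card n * N.index - rk F N A) ≤
      Fintype.card n * N.index := by
  classical
  choose v hv using h
  have hBA : (Matrix.of v * A) = Matrix.of fun x => Pi.single x (1 - el t) := by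
    ext1 x j
    have := congrFun (hv x) j
    rw [Matrix.mul_apply']
    exact this
  have hq : toQ F N (1 - el t) = 1 - MonoidAlgebra.single (QuotientGroup.mk t) 1 := by
    rw [map_sub, map_one, toQ_el]
  set q : H ⧸ N := QuotientGroup.mk t with hqdef
  have hmap : ((Matrix.of v).map (toQ F N)) * (A.map (toQ F N)) =
      scal n (1 - MonoidAlgebra.single q 1 : MonoidAlgebra F (H ⧸ N)) := by
    rw [← Matrix.map_mul, hBA]
    ext1 i j
    unfold scal
    simp only [Matrix.map_apply, Matrix.of_apply, Pi.single_apply]
    split_ifs with hij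
    · exact hq
    · exact map_zero _
  have hdiag : actM F (scal n (1 - MonoidAlgebra.single q 1 : MonoidAlgebra F (H ⧸ N))) =
      diagR F (fun _ : n => (([q] : List (H ⧸ N)).map fun q =>
        (1 - MonoidAlgebra.single q 1 : MonoidAlgebra F (H ⧸ N))).prod) := by
    refine LinearMap.ext fun u => ?_
    rw [actM_apply, vecMul_scal]
    funext i
    simp [diagR]
  have hle : finrank F (LinearMap.range (actM F (scal n (1 - MonoidAlgebra.single q 1 : MonoidAlgebra F (H ⧸ N))))) ≤
      rk F N A := by
    rw [← hmap, actM_mul]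
    exact Submodule.finrank_mono (LinearMap.range_comp_le_range _ _)
  have hrn := LinearMap.finrank_range_add_finrank_ker
    (actM F (scal n (1 - MonoidAlgebra.single q 1 : MonoidAlgebra F (H ⧸ N))))
  rw [finrank_row] at hrn
  have hk := ker_diag F (fun _ : n => [q]) (orderOf q) 1 (fun i q' hq' => by simp at hq'; rw [hq']) (fun i => by simp)
  rw [← hdiag] at hk
  have hidx : Nat.card (H ⧸ N) = N.index := rfl
  rw [hidx, mul_one] at hk
  have h1 : ((Fintype.card n * N.index : ℕ) : ℤ) - rk F N A ≤
      (finrank F (LinearMap.ker (actM F (scal n (1 - MonoidAlgebra.single q 1 : MonoidAlgebra F (H ⧸ N)))))) := by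
    omega
  calc (orderOf q : ℤ) * (Fintype.card n * N.index - rk F N A)
      = (orderOf q : ℤ) * (((Fintype.card n * N.index : ℕ) : ℤ) - rk F N A) := by push_cast; ring
    _ ≤ (orderOf q : ℤ) *
        (finrank F (LinearMap.ker (actM F (scal n (1 - MonoidAlgebra.single q 1 : MonoidAlgebra F (H ⧸ N)))))) :=
        mul_le_mul_of_nonneg_left h1 (by positivity)
    _ ≤ Fintype.card n * N.index := by exact_mod_cast hk

end NBT
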