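import Pool.Agent.Lib.MP_83fbc5_gt.GA0

/-!
# MP_83fbc5_gt, module GA1: 2-cycles of the barycentric subdivision are cellular 2-cycles

PROOF. Write `S` for the ring, `[h] = θ (el h)` (units, `[h k] = [h] [k]`). For `u : C2 → S` let `lift u : J3 → S`, `lift u (fl s true) = u (face s) * [cv s]`, `lift u (fl s false) = - u (face s) * [ev s]` (`fl_bij`). It is
additive/`F`-linear and injective (`face_surj`, `[cv s]` is a unit). (i) For all `u` the vector `lift u ᵥ* bd3` vanishes at all `ec s` (`[cv s] [h]⁻¹ = [sv s]` for the starting vertex and the same for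
the end: `cv s = sv s * h`) and at all `eb (nx s)` (`ev s = cv (nx s)`, `face_nx`; every side is of the form `nx s`). At `ea (e, b)` its value is `∑_{ed s = e} ± u (face s) [sv s] [h_b e]` with the sign `sgn s` for
`b = true` (`h_b = h0`) and `- sgn s` for `b = false` (`h_b = h1`) (four cases for `sg s`, `b`), i.e. `± (u ᵥ* c2) e * [h_b e]`. So `lift u ∈ ker bd3` iff `u ∈ ker c2`. (ii) Every `c ∈ ker bd3` is `lift u`: put
`w s = c (fl s true) * [cv s]⁻¹`; by `val_ec` `c (fl s false) = - w s * [ev s]` and by `val_eb` `c (fl (nx s) true) = - c (fl s false)`, so `w (nx s) = w s` (`ev s = cv (nx s)`); by `trans` `w` depends only on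
`face s`, so `w s = u (face s)` for a function `u` (`face_surj`). Hence `lift` restricts to an `F`-linear isomorphism of the kernels.
(60-90 minutes)
-/

set_option autoImplicit false

namespace NBT

open Matrix Module

universe w

namespace Cell

section GA1

variable {H : Type} [Group H] (K : Cell H) {S : Type w} [Ring S] (θ : MonoidAlgebra ℤ H →+* S)

theorem GA1_mul (g h : H) : θ (el (g * h)) = θ (el g) * θ (el h) := by
  rw [el_mul, map_mul]

theorem GA1_inv (h : H) : θ (el h) * θ (el h⁻¹) = 1 := by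
  rw [← GA1_mul, mul_inv_cancel, el_one, map_one]

theorem GA1_inv' (h : H) : θ (el h⁻¹) * θ (el h) = 1 := by
  rw [← GA1_mul, inv_mul_cancel, el_one, map_one]

/-- the flags as pairs of a side and a sign -/
noncomputable def GA1_e : K.S × Bool ≃ K.toVG.J3 := Equiv.ofBijective K.fl K.fl_bij

theorem GA1_e_symm (q : K.S × Bool) : K.GA1_e.symm (K.fl q) = q := K.GA1_e.symm_apply_apply q

/-- the lift of a cellular chain -/
noncomputable def GA1_lift (F : Type w) [Field F] [Algebra F S] : (K.C2 → S) →ₗ[F] (K.toVG.J3 → S) where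
  toFun u p := if (K.GA1_e.symm p).2 then u (K.face (K.GA1_e.symm p).1) * θ (el (K.cv (K.GA1_e.symm p).1))
    else -(u (K.face (K.GA1_e.symm p).1) * θ (el (K.ev (K.GA1_e.symm p).1)))
  map_add' u v := by
    funext p
    simp only [Pi.add_apply]
    split_ifs
    · rw [add_mul]
    · rw [add_mul, neg_add]
  map_smul' a u := by
    funext p
    simp only [Pi.smul_apply, RingHom.id_apply]
    split_ifs
    · rw [smul_mul_assoc]
    · rw [smul_mul_assoc, smul_neg]

theorem GA1_lift_t (F : Type w) [Field F] [Algebra F S] (u : K.C2 → S) (s : K.S) :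
    K.GA1_lift θ F u (K.fl (s, true)) = u (K.face s) * θ (el (K.cv s)) := by
  show (if (K.GA1_e.symm (K.fl (s, true))).2 then u (K.face (K.GA1_e.symm (K.fl (s, true))).1) *
    θ (el (K.cv (K.GA1_e.symm (K.fl (s, true))).1))
    else -(u (K.face (K.GA1_e.symm (K.fl (s, true))).1) * θ (el (K.ev (K.GA1_e.symm (K.fl (s, true))).1)))) = _
  rw [K.GA1_e_symm]
  rfl

theorem GA1_lift_f (F : Type w) [Field F] [Algebra F S] (u : K.C2 → S) (s : K.S) :
    K.GA1_lift θ F u (K.fl (s, false)) = -(u (K.face s) * θ (el (K.ev s))) := by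
  show (if (K.GA1_e.symm (K.fl (s, false))).2 then u (K.face (K.GA1_e.symm (K.fl (s, false))).1) *
    θ (el (K.cv (K.GA1_e.symm (K.fl (s, false))).1))
    else -(u (K.face (K.GA1_e.symm (K.fl (s, false))).1) * θ (el (K.ev (K.GA1_e.symm (K.fl (s, false))).1)))) = _
  rw [K.GA1_e_symm]
  rfl

/-- the group element of an end of an edge -/
def GA1_h (e : K.C1) (b : Bool) : H := if b then K.h0 e else K.h1 e

theorem GA1_cv (s : K.S) : K.cv s = K.sv s * K.GA1_h (K.ed s) (K.sg s) := by
  unfold cv GA1_h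
  rfl

theorem GA1_ev (s : K.S) : K.ev s = K.sv s * K.GA1_h (K.ed s) (!K.sg s) := by
  unfold ev GA1_h
  cases K.sg s <;> rfl

theorem GA1_val_ec (c : K.toVG.J3 → S) (s : K.S) : (c ᵥ* K.toVG.bd3.map θ) (K.ec s) =
    c (K.fl (s, true)) * θ (el (K.GA1_h (K.ed s) (K.sg s))⁻¹) +
      c (K.fl (s, false)) * θ (el (K.GA1_h (K.ed s) (!K.sg s))⁻¹) := by
  rw [K.val_ec]
  unfold GA1_h
  cases K.sg s <;> rfl

open Classical in
theorem GA1_c2 (u : K.C2 → S) (e : K.C1) : (u ᵥ* K.c2.map θ) e =
    ∑ s : K.S, if K.ed s = e then (K.sgn s : S) * (u (K.face s) * θ (el (K.sv s))) else 0 := by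
  have h1 : (u ᵥ* K.c2.map θ) e = ∑ f, u f * θ (K.c2 f e) := rfl
  have h2 : ∀ f, K.c2 f e = ∑ s : K.S, if K.face s = f then
      (if K.ed s = e then K.sgn s • el (K.sv s) else 0) else 0 := by
    intro f
    unfold c2
    rw [Matrix.of_apply, Finset.sum_apply]
    refine Finset.sum_congr rfl fun s _ => ?_
    by_cases hf : K.face s = f
    · rw [if_pos hf, if_pos hf, Pi.single_apply]
      by_cases he : K.ed s = e
      · rw [if_pos he, if_pos he.symm]
      · rw [if_neg he, if_neg fun h => he h.symm]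
    · rw [if_neg hf, if_neg hf]
      rfl
  rw [h1]
  simp only [h2, map_sum, Finset.mul_sum]
  rw [Finset.sum_comm]
  refine Finset.sum_congr rfl fun s _ => ?_
  rw [Finset.sum_eq_single (K.face s)]
  · rw [if_pos rfl]
    by_cases he : K.ed s = e
    · rw [if_pos he, if_pos he, zsmul_eq_mul, map_mul, map_intCast]
      rw [← mul_assoc, ← mul_assoc, (Int.cast_commute (K.sgn s) (u (K.face s))).eq]
    · rw [if_neg he, if_neg he, map_zero, mul_zero]
  · intro f _ hf
    rw [if_neg fun h => hf h.symm, map_zero, mul_zero]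
  · intro h
    exact absurd (Finset.mem_univ _) h

theorem GA1_val_ea (F : Type w) [Field F] [Algebra F S] (u : K.C2 → S) (e : K.C1) (b : Bool) :
    (K.GA1_lift θ F u ᵥ* K.toVG.bd3.map θ) (K.ea (e, b)) =
      (if b then 1 else -1) * ((u ᵥ* K.c2.map θ) e * θ (el (K.GA1_h e b))) := by
  classical
  rw [K.val_ea, K.GA1_c2, Finset.sum_mul, Finset.mul_sum]
  refine Finset.sum_congr rfl fun s _ => ?_
  by_cases he : K.ed s = e
  · subst he
    rw [if_pos rfl, if_pos rfl]
    unfold sgn
    cases hs : K.sg s <;> cases b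
    · have h1 : (false == false) = true := rfl
      rw [h1, K.GA1_lift_t, K.GA1_cv, hs, GA1_mul]
      simp [mul_assoc]
    · have h1 : (false == true) = false := rfl
      rw [h1, K.GA1_lift_f, K.GA1_ev, hs, GA1_mul]
      simp [mul_assoc]
    · have h1 : (true == false) = false := rfl
      rw [h1, K.GA1_lift_f, K.GA1_ev, hs, GA1_mul]
      simp [mul_assoc]
    · have h1 : (true == true) = true := rfl
      rw [h1, K.GA1_lift_t, K.GA1_cv, hs, GA1_mul]
      simp [mul_assoc]
  · rw [if_neg he, if_neg he, zero_mul, mul_zero]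

theorem GA1_val_lift_ec (F : Type w) [Field F] [Algebra F S] (u : K.C2 → S) (s : K.S) :
    (K.GA1_lift θ F u ᵥ* K.toVG.bd3.map θ) (K.ec s) = 0 := by
  rw [K.GA1_val_ec, K.GA1_lift_t, K.GA1_lift_f, K.GA1_cv, K.GA1_ev, GA1_mul, GA1_mul, mul_assoc, mul_assoc,
    GA1_inv, neg_mul, mul_assoc, mul_assoc, GA1_inv]
  simp

theorem GA1_val_lift_eb (F : Type w) [Field F] [Algebra F S] (u : K.C2 → S) (s : K.S) :
    (K.GA1_lift θ F u ᵥ* K.toVG.bd3.map θ) (K.eb s) = 0 := by
  obtain ⟨s', rfl⟩ := K.nx.surjective s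
  rw [K.val_eb, K.GA1_lift_t, K.GA1_lift_f, K.face_nx, K.ev_eq]
  simp

theorem GA1_surj (F : Type w) [Field F] [Algebra F S] (c : K.toVG.J3 → S) (hc : c ᵥ* K.toVG.bd3.map θ = 0) :
    ∃ u, K.GA1_lift θ F u = c := by
  set w : K.S → S := fun s => c (K.fl (s, true)) * θ (el (K.cv s)⁻¹) with hw
  have hct : ∀ s, c (K.fl (s, true)) = w s * θ (el (K.cv s)) := by
    intro s
    rw [hw]
    simp only
    rw [mul_assoc, GA1_inv', mul_one]
  have hcf : ∀ s, c (K.fl (s, false)) = -(w s * θ (el (K.ev s))) := by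
    intro s
    have h1 := congrFun hc (K.ec s)
    rw [K.GA1_val_ec, Pi.zero_apply] at h1
    have h2 := congrArg (fun x => x * θ (el (K.GA1_h (K.ed s) (!K.sg s)))) h1
    simp only [add_mul, zero_mul] at h2
    rw [mul_assoc (c (K.fl (s, false))), GA1_inv', mul_one, hct s, K.GA1_cv, GA1_mul] at h2
    have h3 : w s * (θ (el (K.sv s)) * θ (el (K.GA1_h (K.ed s) (K.sg s)))) *
        θ (el (K.GA1_h (K.ed s) (K.sg s))⁻¹) * θ (el (K.GA1_h (K.ed s) (!K.sg s))) =
        w s * θ (el (K.ev s)) := by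
      rw [K.GA1_ev, GA1_mul, mul_assoc (w s), mul_assoc (θ (el (K.sv s))), GA1_inv, mul_one, mul_assoc]
    rw [h3] at h2
    exact eq_neg_of_add_eq_zero_right h2
  have hnx : ∀ s, w (K.nx s) = w s := by
    intro s
    have h1 := congrFun hc (K.eb (K.nx s))
    rw [K.val_eb, Pi.zero_apply, hcf s, hct (K.nx s), ← K.ev_eq] at h1
    have h2 : w (K.nx s) * θ (el (K.ev s)) = w s * θ (el (K.ev s)) := by
      have h3 : -(w (K.nx s) * θ (el (K.ev s))) - -(w s * θ (el (K.ev s))) = 0 := h1
      rw [sub_neg_eq_add, neg_add_eq_zero] at h3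
      exact h3
    have h4 := congrArg (fun x => x * θ (el (K.ev s)⁻¹)) h2
    simp only [mul_assoc, GA1_inv, mul_one] at h4
    exact h4
  have hface : ∀ s s', K.face s = K.face s' → w s' = w s := by
    intro s s' h
    exact K.trans (fun t => w t = w s) (fun t ht => (hnx t).trans ht) s s' h rfl
  have hch : ∀ f, ∃ s, K.face s = f := K.face_surj
  choose g hg using hch
  have hu : ∀ s, w (g (K.face s)) = w s := fun s => hface s (g (K.face s)) (hg (K.face s)).symm
  refine ⟨fun f => w (g f), ?_⟩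
  funext p
  obtain ⟨⟨s, b⟩, rfl⟩ := K.fl_bij.2 p
  cases b
  · rw [K.GA1_lift_f, hcf s, hu]
  · rw [K.GA1_lift_t, hct s, hu]

theorem GA1_inj (F : Type w) [Field F] [Algebra F S] : Function.Injective (K.GA1_lift θ F) := by
  intro u v h
  funext f
  obtain ⟨s, rfl⟩ := K.face_surj f
  have h1 := congrFun h (K.fl (s, true))
  rw [K.GA1_lift_t, K.GA1_lift_t] at h1
  have h2 := congrArg (fun x => x * θ (el (K.cv s)⁻¹)) h1
  simp only [mul_assoc, GA1_inv, mul_one] at h2
  exact h2

theorem GA1_mem (F : Type w) [Field F] [Algebra F S] (u : K.C2 → S) :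
    K.GA1_lift θ F u ᵥ* K.toVG.bd3.map θ = 0 ↔ u ᵥ* K.c2.map θ = 0 := by
  constructor
  · intro h
    funext e
    have h1 := congrFun h (K.ea (e, true))
    rw [K.GA1_val_ea, Pi.zero_apply, if_pos rfl, one_mul] at h1
    have h2 := congrArg (fun x => x * θ (el (K.GA1_h e true)⁻¹)) h1
    simp only [mul_assoc, GA1_inv, mul_one, zero_mul] at h2
    exact h2
  · intro h
    funext q
    rcases K.J2_cases q with ⟨s, rfl⟩ | ⟨s, rfl⟩ | ⟨⟨e, b⟩, rfl⟩
    · exact K.GA1_val_lift_ec θ F u s
    · exact K.GA1_val_lift_eb θ F u s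
    · rw [K.GA1_val_ea, h]
      simp

end GA1

theorem ker_bd3 (F : Type w) [Field F] {H : Type} [Group H] (K : Cell H) (N : Subgroup H) [N.Normal] :
    finrank F (LinearMap.ker (actM F (K.toVG.bd3.map (toQ F N)))) =
      finrank F (LinearMap.ker (actM F (K.c2.map (toQ F N)))) := by
  have h : LinearMap.ker (actM F (K.toVG.bd3.map (toQ F N))) =
      Submodule.map (K.GA1_lift (toQ F N) F) (LinearMap.ker (actM F (K.c2.map (toQ F N)))) := by
    ext c
    rw [LinearMap.mem_ker, actM_apply, Submodule.mem_map]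
    constructor
    · intro hc
      obtain ⟨u, hu⟩ := K.GA1_surj (toQ F N) F c hc
      refine ⟨u, ?_, hu⟩
      rw [LinearMap.mem_ker, actM_apply, ← K.GA1_mem (toQ F N) F, hu]
      exact hc
    · rintro ⟨u, hu, rfl⟩
      rw [LinearMap.mem_ker, actM_apply] at hu
      exact (K.GA1_mem (toQ F N) F u).2 hu
  rw [h]
  exact (Submodule.equivMapOfInjective _ (K.GA1_inj (toQ F N) F) _).finrank_eq.symm

end Cell

end NBT
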