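import Pool.Agent.Lib.MP_83fbc5_gt.CellDefs
import Pool.Agent.Lib.MP_83fbc5_gt.Basic

/-!
# MP_83fbc5_gt, module GA4: `1 - t` kills the zeroth homology

PROOF. Let `W` be the left submodule of the row vectors `v ᵥ* bd2` of `ℤ[H]^I`, `e_x = Pi.single x 1`. For a relation `R x y` the row of `bd2` says `[vol x y] e_y - e_x ∈ W`, i.e. `e_x ≡ [vol x y] e_y` and
`e_y ≡ [vol x y]⁻¹ e_x` mod `W`. (i) For an edge label `e`: `e_(e) ≡ [h0 e] e_(e0 e)` and `e_(e) ≡ [h1 e] e_(e1 e)`. So the image of the rows of `c1` under `C0 → I` lies in `W`, and by the hypothesis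
`(1 - t) e_a ∈ W` for all vertex labels `a` (`v ᵥ* c1 = Pi.single a (1 - t)`: apply the additive map `ℤ[H]^C0 → ℤ[H]^I`, extension by zero). (ii) For an edge label `e`: `(1 - t) e_(e) ≡ (1 - t) [h0 e] e_(e0 e) = [h0 e] (1 - t) e_(e0 e) ≡ 0`
as `t` is central. (iii) For a polygon label `f` take a side `s` with `face s = f`; `R (st s) f`, so `e_f ≡ [g] e_(st s)` and the same.
(50-70 minutes)
-/

set_option autoImplicit false

namespace NBT

open Matrix

namespace Cell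

section

variable {H : Type} [Group H] (K : Cell H)

/-- The left submodule of the combinations of the rows of `bd2`. -/
noncomputable def GA4_W : Submodule (MonoidAlgebra ℤ H) (K.toVG.I → MonoidAlgebra ℤ H) :=
  LinearMap.range (Matrix.vecMulLinear K.toVG.bd2)

/-- Unit vectors. -/
noncomputable def GA4_s (x : K.toVG.I) (r : MonoidAlgebra ℤ H) : K.toVG.I → MonoidAlgebra ℤ H :=
  Pi.single x r

theorem GA4_s_apply (x y : K.toVG.I) (r : MonoidAlgebra ℤ H) :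
    K.GA4_s x r y = if y = x then r else 0 := by
  unfold GA4_s
  rw [Pi.single_apply]

theorem GA4_row {x y : K.toVG.I} (h : K.toVG.R x y) :
    K.GA4_s y (el (K.toVG.g x y)) - K.GA4_s x 1 ∈ K.GA4_W := by
  refine ⟨Pi.single (⟨(x, y), h⟩ : K.toVG.J2) 1, ?_⟩
  rw [Matrix.vecMulLinear_apply, Matrix.single_one_vecMul]
  rfl

theorem GA4_smul_single (x : K.toVG.I) (a b : MonoidAlgebra ℤ H) :
    a • K.GA4_s x b = K.GA4_s x (a * b) := by
  unfold GA4_s
  rw [← Pi.single_smul, smul_eq_mul]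

theorem GA4_row' {x y : K.toVG.I} (h : K.toVG.R x y) :
    K.GA4_s y 1 - K.GA4_s x (el (K.toVG.g x y)⁻¹) ∈ K.GA4_W := by
  have h1 := K.GA4_W.smul_mem (el (K.toVG.g x y)⁻¹) (K.GA4_row h)
  rw [smul_sub, GA4_smul_single, GA4_smul_single, ← el_mul, inv_mul_cancel, el_one, mul_one] at h1
  exact h1

omit K in
theorem GA4_comm {t : H} (ht : ∀ h, h * t = t * h) (g : H) :
    (1 - el t) * el g = el g * (1 - el t) := by
  rw [sub_mul, mul_sub, one_mul, mul_one, ← el_mul, ← el_mul, ht g]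

theorem GA4_step {t : H} (ht : ∀ h, h * t = t * h) {x y : K.toVG.I} (h : K.toVG.R x y)
    (hx : K.GA4_s x (1 - el t) ∈ K.GA4_W) : K.GA4_s y (1 - el t) ∈ K.GA4_W := by
  have h1 := K.GA4_W.smul_mem (1 - el t) (K.GA4_row' h)
  have h2 := K.GA4_W.smul_mem (el (K.toVG.g x y)⁻¹) hx
  rw [smul_sub, GA4_smul_single, GA4_smul_single, mul_one, GA4_comm ht] at h1
  rw [GA4_smul_single] at h2
  have h3 := K.GA4_W.add_mem h1 h2
  rwa [sub_add_cancel] at h3

/-- Extension by zero. -/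
noncomputable def GA4_ext : (K.C0 → MonoidAlgebra ℤ H) →ₗ[MonoidAlgebra ℤ H]
    (K.toVG.I → MonoidAlgebra ℤ H) where
  toFun u := (Sum.elim u (fun _ => 0) : K.C0 ⊕ K.C1 ⊕ K.C2 → MonoidAlgebra ℤ H)
  map_add' u v := by
    funext x
    rcases x with a | b
    · rfl
    · show (0 : MonoidAlgebra ℤ H) = 0 + 0
      rw [add_zero]
  map_smul' c u := by
    funext x
    rcases x with a | b
    · rfl
    · show (0 : MonoidAlgebra ℤ H) = c * 0
      rw [mul_zero]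

theorem GA4_ext_single (a : K.C0) (x : MonoidAlgebra ℤ H) :
    K.GA4_ext (Pi.single a x) = K.GA4_s (Sum.inl a) x := by
  funext y
  rw [GA4_s_apply]
  rcases y with b | b
  · show (Pi.single a x : K.C0 → MonoidAlgebra ℤ H) b = _
    rw [Pi.single_apply]
    by_cases h : b = a
    · rw [if_pos h, if_pos (by rw [h])]
    · rw [if_neg h]
      exact (if_neg (fun h' => h (Sum.inl.inj h'))).symm
  · show (0 : MonoidAlgebra ℤ H) = _
    refine (if_neg ?_).symm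
    intro h
    cases h

theorem GA4_c1_row (e : K.C1) : K.GA4_ext (K.c1 e) ∈ K.GA4_W := by
  have h0 : K.toVG.R (Sum.inl (K.e0 e)) (Sum.inr (Sum.inl e)) := Or.inl rfl
  have h1 : K.toVG.R (Sum.inl (K.e1 e)) (Sum.inr (Sum.inl e)) := Or.inr rfl
  have r0 := K.GA4_row' h0
  have r1 := K.GA4_row' h1
  have v0 : K.toVG.g (Sum.inl (K.e0 e)) (Sum.inr (Sum.inl e)) = (K.h0 e)⁻¹ := K.vol_e0 e
  have v1 : K.toVG.g (Sum.inl (K.e1 e)) (Sum.inr (Sum.inl e)) = (K.h1 e)⁻¹ := K.vol_e1 e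
  rw [v0, inv_inv] at r0
  rw [v1, inv_inv] at r1
  have h2 := K.GA4_W.sub_mem r0 r1
  have h3 : K.GA4_ext (K.c1 e) = K.GA4_s (Sum.inl (K.e1 e)) (el (K.h1 e)) -
      K.GA4_s (Sum.inl (K.e0 e)) (el (K.h0 e)) := by
    show K.GA4_ext (Pi.single (K.e1 e) (el (K.h1 e)) - Pi.single (K.e0 e) (el (K.h0 e))) = _
    rw [map_sub, GA4_ext_single, GA4_ext_single]
  rw [h3]
  rw [sub_sub_sub_cancel_left] at h2
  exact h2

theorem GA4_c1 (v : K.C1 → MonoidAlgebra ℤ H) : K.GA4_ext (v ᵥ* K.c1) ∈ K.GA4_W := by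
  rw [Matrix.vecMul_eq_sum, map_sum]
  refine K.GA4_W.sum_mem fun e _ => ?_
  rw [map_smul]
  exact K.GA4_W.smul_mem _ (K.GA4_c1_row e)

end

theorem rows_bd2 {H : Type} [Group H] (K : Cell H) (t : H) (ht : ∀ h, h * t = t * h)
    (hc : ∀ a : K.C0, ∃ v, v ᵥ* K.c1 = Pi.single a (1 - el t)) (x : K.toVG.I) :
    ∃ v, v ᵥ* K.toVG.bd2 = Pi.single x (1 - el t) := by
  have key : K.GA4_s x (1 - el t) ∈ K.GA4_W := by
    have hv : ∀ a : K.C0, K.GA4_s (Sum.inl a) (1 - el t) ∈ K.GA4_W := by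
      intro a
      obtain ⟨v, hv⟩ := hc a
      rw [← GA4_ext_single, ← hv]
      exact K.GA4_c1 v
    rcases x with a | e | f
    · exact hv a
    · exact K.GA4_step ht (x := Sum.inl (K.e0 e)) (y := Sum.inr (Sum.inl e)) (Or.inl rfl) (hv _)
    · obtain ⟨s, rfl⟩ := K.face_surj f
      exact K.GA4_step ht (x := Sum.inl (K.st s)) (y := Sum.inr (Sum.inr (K.face s)))
        ⟨s, rfl, rfl⟩ (hv _)
  obtain ⟨v, hv⟩ := key
  exact ⟨v, hv⟩

end Cell

end NBT
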