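import Pool.Agent.Lib.MP_83fbc5_gt.GB1
import Pool.Agent.Lib.MP_83fbc5_gt.Basic

/-!
# MP_83fbc5_gt, module GB3: `1 - t` kills the zeroth cellular homology

PROOF. Let `W` be the set of row vectors `v ᵥ* c1` (closed under addition, negation and left multiplication by elements of `ℤ[H]`); the row of the edge label `e` is
`[h1 e] e_(le1 e) - e_(le0 e)` (`h0 = 1`). For `x : Fin n ⊕ J` the rows of `u x`, `v x` are `e_(mid x) - e_(xl x)` and `[t] e_(xl x) - e_(mid x)`; their sum is `- (1 - t) e_(xl x)`, so `(1 - t) e_(xl x) ∈ W`: this is the claim for `o k`, `y j`. `mid x`: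
`(1 - t) e_(mid x) = (1 - t) (row of u x) + (1 - t) e_(xl x)`. `m j`: `e_(m j) - e_(y j)` is the row of `ea j`. `a w`: the row of `q w` is `[bg w] e_(bl w) - e_(a w)` and `(1 - t) [bg w] e_(bl w) = [bg w] (1 - t) e_(bl w) ∈ W` as `t` is
central and `bl w` is one of `o, y, m`.
-/

set_option autoImplicit false

namespace NBT

open Matrix

namespace Tms

section

variable {H : Type} [Group H] {n : ℕ} {J : Type} [Finite J] (T : Tms H n J) (t : H)

/-- the row space of `c1` -/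
private noncomputable def gb3W : Submodule (MonoidAlgebra ℤ H) (T.A0 → MonoidAlgebra ℤ H) :=
  LinearMap.range (Matrix.vecMulLinear (T.cell t).c1)

private noncomputable def gb3P (a : T.A0) (r : MonoidAlgebra ℤ H) : T.A0 → MonoidAlgebra ℤ H :=
  Pi.single (M := fun _ : (T.cell t).C0 => MonoidAlgebra ℤ H) a r

private theorem gb3_row (e : T.A1) :
    T.gb3P t (T.le1 e) (el (T.lh1 t e)) - T.gb3P t (T.le0 e) 1 ∈ T.gb3W t := by
  refine ⟨Pi.single (M := fun _ : (T.cell t).C1 => MonoidAlgebra ℤ H) e 1, ?_⟩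
  exact Matrix.single_one_vecMul (m := (T.cell t).C1) e (T.cell t).c1

private def gb3G (a : T.A0) : Prop := T.gb3P t a (1 - el t) ∈ T.gb3W t

private theorem gb3_smul (a : T.A0) (r s : MonoidAlgebra ℤ H) :
    T.gb3P t a (r * s) = r • T.gb3P t a s :=
  Pi.single_smul' (I := (T.cell t).C0) (β := MonoidAlgebra ℤ H) a r s

private theorem gb3_comm (ht : ∀ h, h * t = t * h) (h : H) :
    (1 - el t : MonoidAlgebra ℤ H) * el h = el h * (1 - el t) := by
  rw [sub_mul, mul_sub, ← el_mul, ← el_mul, ht h, one_mul, mul_one]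

private theorem gb3_iff (ht : ∀ h, h * t = t * h) (e : T.A1) :
    T.gb3G t (T.le0 e) ↔ T.gb3G t (T.le1 e) := by
  have h1 := T.gb3_row t e
  have h2 := (T.gb3W t).smul_mem (1 - el t) h1
  rw [smul_sub, ← gb3_smul, ← gb3_smul, mul_one, gb3_comm t ht, gb3_smul] at h2
  constructor
  · intro h
    have h3 := (T.gb3W t).add_mem h2 h
    have h4 := (T.gb3W t).smul_mem (el (T.lh1 t e)⁻¹) h3
    rw [sub_add_cancel, smul_smul, ← el_mul, inv_mul_cancel, el_one, one_smul] at h4
    exact h4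
  · intro h
    have h3 := (T.gb3W t).smul_mem (el (T.lh1 t e)) h
    have h4 := (T.gb3W t).sub_mem h3 h2
    rw [sub_sub_cancel] at h4
    exact h4

private theorem gb3_xl (x : Fin n ⊕ J) : T.gb3G t (T.xl x) := by
  have h1 : T.gb3P t (A0.mid x : T.A0) 1 - T.gb3P t (T.xl x) 1 ∈ T.gb3W t := T.gb3_row t (A1.u x : T.A1)
  have h2 : T.gb3P t (T.xl x) (el t) - T.gb3P t (A0.mid x : T.A0) 1 ∈ T.gb3W t := T.gb3_row t (A1.v x : T.A1)
  have h3 := (T.gb3W t).neg_mem ((T.gb3W t).add_mem h1 h2)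
  have e : T.gb3P t (T.xl x) (1 - el t) = -((T.gb3P t (A0.mid x : T.A0) 1 - T.gb3P t (T.xl x) 1) +
      (T.gb3P t (T.xl x) (el t) - T.gb3P t (A0.mid x : T.A0) 1)) := by
    have : T.gb3P t (T.xl x) (1 - el t) = T.gb3P t (T.xl x) 1 - T.gb3P t (T.xl x) (el t) :=
      Pi.single_sub (f := fun _ : (T.cell t).C0 => MonoidAlgebra ℤ H) _ _ _
    rw [this]
    abel
  unfold gb3G
  rw [e]
  exact h3

private theorem gb3_all (ht : ∀ h, h * t = t * h) (a : T.A0) : T.gb3G t a := by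
  have ho : ∀ k, T.gb3G t (A0.o k : T.A0) := fun k => T.gb3_xl t (Sum.inl k)
  have hy : ∀ j, T.gb3G t (A0.y j : T.A0) := fun j => T.gb3_xl t (Sum.inr j)
  have hm : ∀ j, T.gb3G t (A0.m j : T.A0) := fun j => (T.gb3_iff t ht (A1.ea j : T.A1)).1 (hy j)
  rcases a with k | j | j | w | x
  · exact ho k
  · exact hy j
  · exact hm j
  · refine (T.gb3_iff t ht (A1.q w : T.A1)).2 ?_
    show T.gb3G t (T.bl w)
    obtain ⟨τ, p⟩ := w
    rcases f4 p with rfl | rfl | rfl | rfl
    · exact ho _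
    · exact hy _
    · exact hm _
    · exact hy _
  · exact (T.gb3_iff t ht (A1.u x : T.A1)).1 (T.gb3_xl t x)

end

theorem c1_rows {H : Type} [Group H] {n : ℕ} {J : Type} [Finite J] (T : Tms H n J) (t : H) (ht : ∀ h, h * t = t * h)
    (a : (T.cell t).C0) : ∃ v, v ᵥ* (T.cell t).c1 = Pi.single a (1 - el t) :=
  T.gb3_all t ht a

end Tms

end NBT
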