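import Pool.Agent.Lib.MP_83fbc5_gt.TDefs

/-!
# MP_83fbc5_gt, module TERM: the terms of a matrix over a group ring

PROOF. For an entry `x = A k j = ∑ n_h h` take `|n_h|` terms with sign of `n_h`, group element `h`, row `k`, column `some j`; moreover for each row two terms `± 1` with column `none`.
Concretely: the set of terms is the sigma type / subtype of `(k, some j, h, i)` with `h` in the support of `A k j`, `i < |A k j h|`, together with `(k, b)`, `b : Bool`. Any finite type with a surjection `kk` to `Fin n`
has a permutation `c` whose cycles are the fibres: enumerate each fibre by `Fin (t + 1)` and use `finRotate` (or `i ↦ i + 1`), `Equiv.sigmaFiberEquiv`; `trans`: for `P` closed under `c`, from `i` one reaches every element of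
`Fin (t + 1)` by iterating `+ 1`. `el_sum`: `A k j = ∑_{h} (A k j h) • el h` and `n = sign n * |n|`.
-/

set_option autoImplicit false

namespace NBT

open Matrix

open Fin.NatCast in
/-- a cyclic permutation of a finite set -/
private theorem term_cyc (X : Type) [Finite X] [Nonempty X] :
    ∃ c : Equiv.Perm X, ∀ P : X → Prop, (∀ x, P x → P (c x)) → ∀ x y, P x → P y := by
  obtain ⟨k, ⟨e⟩⟩ : ∃ k, Nonempty (X ≃ Fin (k + 1)) := by
    have : Fintype X := Fintype.ofFinite X
    refine ⟨Fintype.card X - 1, ⟨(Fintype.equivFin X).trans (finCongr ?_)⟩⟩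
    have := Fintype.card_pos (α := X)
    omega
  refine ⟨(e.trans (finRotate (k + 1))).trans e.symm, fun P hP x y hx => ?_⟩
  have h1 : ∀ i : Fin (k + 1), P (e.symm i) → P (e.symm (i + 1)) := by
    intro i hi
    have := hP _ hi
    simpa using this
  have h2 : ∀ j : ℕ, P (e.symm (e x + (j : Fin (k + 1)))) := by
    intro j
    induction j with
    | zero => simpa using hx
    | succ j ih =>
      have := h1 _ ih
      rw [add_assoc] at this
      simpa using this
  have h3 := h2 (e y - e x).val
  rw [Fin.cast_val_eq_self] at h3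
  simpa using h3

section

variable {H : Type} [Group H] {n m : ℕ} (A : Matrix (Fin n) (Fin m) (MonoidAlgebra ℤ H))

/-- the terms of a row -/
private abbrev TermX (k : Fin n) : Type :=
  (Σ j : Fin m, Σ h : (A k j).coeff.support, Fin (((A k j).coeff h).natAbs)) ⊕ Bool

private noncomputable def termT : Tms H n (Option (Fin m)) where
  Tm := Σ k : Fin n, TermX A k
  fin := inferInstance
  kk := fun τ => τ.1
  c := Equiv.sigmaCongrRight (fun k => (term_cyc (TermX A k)).choose)
  kk_c := fun τ => rfl
  kk_surj := fun k => ⟨⟨k, Sum.inr true⟩, rfl⟩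
  trans := by
    rintro P hP ⟨k, x⟩ ⟨k', y⟩ h hx
    have h : k = k' := h
    subst h
    exact (term_cyc (TermX A k)).choose_spec (fun z => P ⟨k, z⟩) (fun z hz => hP _ hz) x y hx
  s := fun τ => match τ.2 with
    | Sum.inl y => decide (0 < (A τ.1 y.1).coeff y.2.1)
    | Sum.inr b => b
  h := fun τ => match τ.2 with
    | Sum.inl y => y.2.1.1
    | Sum.inr _ => 1
  j := fun τ => match τ.2 with
    | Sum.inl y => some y.1
    | Sum.inr _ => none

open Classical in
private theorem term_ent (k : Fin n) (j : Option (Fin m)) : (termT A).entry k j =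
    ∑ x : TermX A k, if (termT A).j ⟨k, x⟩ = j then
      (if (termT A).s ⟨k, x⟩ then el ((termT A).h ⟨k, x⟩) else -el ((termT A).h ⟨k, x⟩)) else 0 := by
  have e1 : (termT A).entry k j = ∑ τ : (Σ k : Fin n, TermX A k), if (termT A).kk τ = k ∧ (termT A).j τ = j then
      (if (termT A).s τ then el ((termT A).h τ) else -el ((termT A).h τ)) else 0 := by
    unfold Tms.entry
    have hI : ∀ (I I' : Fintype (termT A).Tm) (f : (termT A).Tm → MonoidAlgebra ℤ H),
        @Finset.sum _ _ _ (@Finset.univ _ I) f = @Finset.sum _ _ _ (@Finset.univ _ I') f := by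
      intro I I' f
      rw [Subsingleton.elim I I']
    refine (hI _ (Sigma.instFintype (κ := fun k : Fin n => TermX A k)) _).trans ?_
    refine Finset.sum_congr rfl fun τ _ => ?_
    split_ifs <;> rfl
  rw [e1, Fintype.sum_sigma, Finset.sum_eq_single k]
  · refine Finset.sum_congr rfl fun x _ => ?_
    have : (termT A).kk ⟨k, x⟩ = k := rfl
    simp only [this, true_and]
  · intro k' _ hk
    refine Finset.sum_eq_zero fun x _ => ?_
    have : (termT A).kk ⟨k', x⟩ = k' := rfl
    rw [this, if_neg (fun h => hk h.1)]
  · intro h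
    exact absurd (Finset.mem_univ _) h

end

theorem exists_tms {H : Type} [Group H] {n m : ℕ} (A : Matrix (Fin n) (Fin m) (MonoidAlgebra ℤ H)) :
    ∃ T : Tms H n (Option (Fin m)), (∀ k j, T.entry k (some j) = A k j) ∧ ∀ k, T.entry k none = 0 := by
  classical
  refine ⟨termT A, fun k j => ?_, fun k => ?_⟩
  · rw [term_ent, Fintype.sum_sum_type]
    have e0 : ∀ b : Bool, (termT A).j ⟨k, Sum.inr b⟩ = none := fun b => rfl
    have e1 : ∀ y, (termT A).j ⟨k, Sum.inl y⟩ = some y.1 := fun y => rfl
    have e2 : ∀ y, (termT A).s ⟨k, Sum.inl y⟩ = decide (0 < (A k y.1).coeff y.2.1) := fun y => rfl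
    have e3 : ∀ y, (termT A).h ⟨k, Sum.inl y⟩ = y.2.1.1 := fun y => rfl
    simp only [e0, e1, e2, e3, reduceCtorEq, if_false, Finset.sum_const_zero, add_zero, Option.some.injEq]
    rw [Fintype.sum_sigma, Finset.sum_eq_single j]
    · simp only [if_true]
      rw [Fintype.sum_sigma]
      have e4 : ∀ h : (A k j).coeff.support, (∑ i : Fin (((A k j).coeff h).natAbs),
          if decide (0 < (A k j).coeff (h : H)) = true then (el (h : H) : MonoidAlgebra ℤ H) else -el (h : H)) =
          MonoidAlgebra.single (h : H) ((A k j).coeff (h : H)) := by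
        intro h
        rw [Finset.sum_const, Finset.card_univ, Fintype.card_fin]
        by_cases hp : 0 < (A k j).coeff (h : H)
        · rw [if_pos (by simpa using hp), el, MonoidAlgebra.smul_single]
          congr 1
          have : (((A k j).coeff (h : H)).natAbs : ℤ) = (A k j).coeff (h : H) := by omega
          rw [nsmul_eq_mul, this, mul_one]
        · rw [if_neg (by simpa using hp), el, ← MonoidAlgebra.single_neg, MonoidAlgebra.smul_single]
          congr 1
          have : (((A k j).coeff (h : H)).natAbs : ℤ) = -(A k j).coeff (h : H) := by omega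
          rw [nsmul_eq_mul, this, mul_neg, mul_one, neg_neg]
      have e5 : ∀ h : (A k j).coeff.support, (∑ y : Fin (((A k j).coeff h).natAbs),
          if decide (0 < (A k (⟨j, ⟨h, y⟩⟩ : (Σ j : Fin m, Σ h : (A k j).coeff.support,
            Fin (((A k j).coeff h).natAbs))).1).coeff (h : H)) = true then
            (el (h : H) : MonoidAlgebra ℤ H) else -el (h : H)) =
          MonoidAlgebra.single (h : H) ((A k j).coeff (h : H)) := e4
      refine (Finset.sum_congr rfl fun h _ => e5 h).trans ?_
      rw [Finset.sum_coe_sort (A k j).coeff.support (fun h => MonoidAlgebra.single h ((A k j).coeff h))]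
      exact MonoidAlgebra.sum_coeff_single (A k j)
    · intro j' _ hj
      refine Finset.sum_eq_zero fun y _ => ?_
      rw [if_neg hj]
    · intro h
      exact absurd (Finset.mem_univ _) h
  · rw [term_ent, Fintype.sum_sum_type]
    have e0 : ∀ b : Bool, (termT A).j ⟨k, Sum.inr b⟩ = none := fun b => rfl
    have e1 : ∀ y, (termT A).j ⟨k, Sum.inl y⟩ = some y.1 := fun y => rfl
    have e2 : ∀ b : Bool, (termT A).s ⟨k, Sum.inr b⟩ = b := fun y => rfl
    have e3 : ∀ b : Bool, (termT A).h ⟨k, Sum.inr b⟩ = 1 := fun y => rfl
    simp only [e0, e1, e2, e3, reduceCtorEq, if_false, Finset.sum_const_zero, zero_add, if_true]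
    simp

end NBT
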