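import Pool.Agent.Lib.MP_83fbc5_gt.GB2
import Pool.Agent.Lib.MP_83fbc5_gt.TERM
import Pool.Agent.Lib.MP_83fbc5_gt.GB3
import Pool.Agent.Lib.MP_83fbc5_gt.GA1
import Pool.Agent.Lib.MP_83fbc5_gt.GA4

/-!
# MP_83fbc5_gt, GAD: the graph of a matrix (assembly)
-/

set_option autoImplicit false

namespace NBT

open Matrix Module

universe w

theorem gadget (F : Type w) [Field F] {H : Type} [Group H] (t : H) (ht : ∀ h, h * t = t * h) {n m : ℕ}
    (A : Matrix (Fin n) (Fin m) (MonoidAlgebra ℤ H)) :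
    ∃ L : VG H, (∀ x : L.I, ∃ v, v ᵥ* L.bd2 = Pi.single x (1 - el t)) ∧
      ∀ (N : Subgroup H) [N.Normal], finrank F (LinearMap.ker (actM F (L.bd3.map (toQ F N)))) =
        finrank F (LinearMap.ker (actM F (A.map (toQ F N)))) := by
  obtain ⟨T, hA, h0⟩ := exists_tms A
  refine ⟨(T.cell t).toVG, (T.cell t).rows_bd2 t ht (T.c1_rows t ht), fun N _ => ?_⟩
  rw [Cell.ker_bd3, T.ker_cell F t A hA h0 N]

end NBT
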