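import Pool.Agent.Lib.MP_83fbc5_gt.SDefs

/-!
# MP_83fbc5_gt, module ORD: orders in the quotients along a chain

PROOF. `ord_tendsto`: for `1 ≤ k ≤ m` `x ^ k ≠ 1`, so `x ^ k ∉ C.N i` for some `i` (`C.bot`, `Subgroup.mem_iInf`) and all larger `i` (`C.anti`). For `i` large none of
the `x ^ k`, `1 ≤ k ≤ m`, is in `C.N i`, i.e. the image `q` of `x` satisfies `q ^ k ≠ 1` for `1 ≤ k ≤ m`; `orderOf q > 0` (finite group), so `orderOf q > m`
(`pow_orderOf_eq_one`). `X_pow`: `inl` is injective and `gen v ^ n = gen v ^ 0` gives `n = 0` by `gen_zpow_inj`.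
(20-30 minutes)
-/

set_option autoImplicit false

namespace NBT

open RaagIso

theorem ord_tendsto {G : Type} [Group G] (C : Chain G) (x : G) (hx : ∀ k : ℕ, 0 < k → x ^ k ≠ 1) (m : ℕ) :
    ∀ᶠ i in Filter.atTop, m ≤ orderOf (QuotientGroup.mk x : G ⧸ C.N i) := by
  have h1 : ∀ k ∈ Finset.range m, ∀ᶠ i in Filter.atTop, (0 < k → x ^ k ∉ C.N i) := by
    intro k _
    by_cases hk : 0 < k
    · have h2 : x ^ k ∉ (⨅ i, C.N i) := by
        rw [C.bot, Subgroup.mem_bot]
        exact hx k hk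
      rw [Subgroup.mem_iInf] at h2
      push Not at h2
      obtain ⟨i0, hi0⟩ := h2
      filter_upwards [Filter.eventually_ge_atTop i0] with i hi _ hmem
      exact hi0 (C.anti hi hmem)
    · exact Filter.Eventually.of_forall fun i h => absurd h hk
  have h2 := (Filter.eventually_all_finset (Finset.range m)).2 h1
  filter_upwards [h2] with i hi
  by_contra hc
  push Not at hc
  have h3 : 0 < orderOf (QuotientGroup.mk x : G ⧸ C.N i) := orderOf_pos _
  refine hi _ (Finset.mem_range.2 hc) h3 ?_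
  have h4 := pow_orderOf_eq_one (QuotientGroup.mk x : G ⧸ C.N i)
  rw [← QuotientGroup.mk_pow] at h4
  exact (QuotientGroup.eq_one_iff _).1 h4

theorem X_pow {H : Type} [Group H] (L : VG H) (v : H × L.I) (k : ℕ) (hk : 0 < k) : L.X v ^ k ≠ 1 := by
  intro h
  have h1 : (SemidirectProduct.inl (gen v ^ k) : L.GG) = SemidirectProduct.inl 1 := by
    rw [map_pow, map_one]
    exact h
  have h2 : (gen v : RA L.gr) ^ k = 1 := SemidirectProduct.inl_injective h1
  have h3 := gen_zpow_inj (Γ := L.gr) (v := v) (n := (k : ℤ)) (m := 0)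
    (by rw [zpow_natCast, zpow_zero, h2])
  have h4 : k = 0 := by exact_mod_cast h3
  omega

end NBT
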