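import Pool.Agent.Lib.MP_83fbc5_gt.EST
import Pool.Agent.Lib.MP_83fbc5_gt.GAD
import Pool.Agent.Lib.MP_83fbc5_gt.GA5
import Pool.Agent.Lib.MP_83fbc5_gt.ORD
import Pool.Agent.Lib.MP_83fbc5_gt.CL3
import Pool.Agent.Lib.MP_83fbc5_gt.FPG

/-!
# MP_83fbc5_gt, module LIM: Q1 in degree 2 or 3 gives convergence of ranks for groups with a central element of infinite order

PROOF. `L` from `gadget`, `T`, `c` from `estimate`, `L.GG` is finitely presented (`fp_GG`), so Q1 gives `ℓ` with `betti F T (C'.N i) n0 / index → ℓ` for all chains `C'` of `L.GG`. Let `C` be a chain of `H` and `C'` from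
`chain_lift`; `(C'.N i).comap L.iH = C.N i` (rewrite with `rk_congr`, and the index). For every `k` the hypotheses of `estimate` hold for all large `i` (`ord_tendsto` for `C`, `t` and for `C'`, the finitely many
`L.X (1, i)` with `X_pow`; the order of `mk t` in `H ⧸ (C'.N i).comap L.iH`: same subgroup), so the difference in `estimate` tends to 0. By `rk_add_ker` for `bd3` and `A` and the last part of `gadget`,
`card J3 - rk bd3 / I' = n - rk A / I'` (`I' = (C.N i).index`). For `n0 = 3` this gives `rk A / I' → n - ℓ`. For `n0 = 2`: `rk bd2 / I' → card I` by `rk_of_rows` (`orderOf t → ∞`) and `rk_le_col`, so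
`card J2 - card I - card J3 + n - rk A / I' → ℓ`.
(60-90 minutes)
-/

set_option autoImplicit false

namespace NBT

open Matrix Module

universe w

/-- a sequence of quotients tends to zero if it is bounded by `c / k` for all `k`, eventually -/
theorem lim_aux (c : ℝ) (x : ℕ → ℝ) (h : ∀ k : ℕ, 0 < k → ∀ᶠ i in Filter.atTop, |x i| ≤ c / k) :
    Filter.Tendsto x Filter.atTop (nhds 0) := by
  rw [Metric.tendsto_nhds]
  intro ε hε
  obtain ⟨k, hk⟩ := exists_nat_gt (max 1 (|c| / ε))
  have hk0 : (0 : ℝ) < k := lt_of_lt_of_le zero_lt_one ((le_max_left _ _).trans hk.le)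
  have hk1 : 0 < k := by exact_mod_cast hk0
  filter_upwards [h k hk1] with i hi
  rw [Real.dist_eq, sub_zero]
  refine lt_of_le_of_lt hi ?_
  rw [div_lt_iff₀ hk0]
  have h2 : |c| / ε < k := lt_of_le_of_lt (le_max_right _ _) hk
  rw [div_lt_iff₀ hε] at h2
  have h3 := le_abs_self c
  nlinarith

theorem lim_idx {G : Type} [Group G] {N N' : Subgroup G} (h : N = N') : N.index = N'.index := by rw [h]

theorem lim_ord {G : Type} [Group G] {N N' : Subgroup G} [N.Normal] [N'.Normal] (h : N = N') (t : G) :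
    orderOf (QuotientGroup.mk t : G ⧸ N) = orderOf (QuotientGroup.mk t : G ⧸ N') := by
  subst h
  rfl

theorem q1_to_central (F : Type w) [Field F] {D n0 : ℕ} (hD : 3 ≤ D) (hn : n0 = 2 ∨ n0 = 3) (hQ : Q1 F D n0)
    {H : Type} [Group H] (hfp : Group.IsFinitelyPresented H) (R : FFR H D) (t : H) (ht : ∀ h, h * t = t * h)
    (ht' : ∀ k : ℕ, 0 < k → t ^ k ≠ 1) {n m : ℕ} (A : Matrix (Fin n) (Fin m) (MonoidAlgebra ℤ H)) :
    ∃ ℓ : ℝ, ∀ C : Chain H,
      Filter.Tendsto (fun i => (rk F (C.N i) A : ℝ) / ((C.N i).index : ℝ)) Filter.atTop (nhds ℓ) := by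
  obtain ⟨L, hL, hker⟩ := gadget F t ht A
  obtain ⟨T, c, hT⟩ := estimate F t ht L hD R
  obtain ⟨ℓ, hℓ⟩ := hQ L.GG (fp_GG L hfp) T
  -- the limit
  refine ⟨if n0 = 3 then n - ℓ else Fintype.card L.J2 - Fintype.card L.I - Fintype.card L.J3 + n - ℓ, fun C => ?_⟩
  obtain ⟨C', hC'⟩ := L.chain_lift C
  have hℓ' := hℓ C'
  -- notation for the sequences
  have hpos : ∀ i, (0 : ℝ) < (C.N i).index := fun i => by
    exact_mod_cast Nat.pos_of_ne_zero (Subgroup.FiniteIndex.index_ne_zero (H := C.N i))
  have hev : ∀ k : ℕ, ∀ᶠ i in Filter.atTop,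
      k ≤ orderOf (QuotientGroup.mk t : H ⧸ (C'.N i).comap L.iH) ∧
        ∀ x, k ≤ orderOf (QuotientGroup.mk (L.X (1, x)) : L.GG ⧸ C'.N i) := by
    intro k
    have h1 := ord_tendsto C t ht' k
    have h2 : ∀ᶠ i in Filter.atTop, ∀ x, k ≤ orderOf (QuotientGroup.mk (L.X (1, x)) : L.GG ⧸ C'.N i) := by
      rw [Filter.eventually_all]
      exact fun x => ord_tendsto C' (L.X (1, x)) (fun j hj => X_pow L _ j hj) k
    filter_upwards [h1, h2] with i h1 h2
    exact ⟨by rw [lim_ord (hC' i) t]; exact h1, h2⟩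
  -- rank and nullity
  have hnull : ∀ i, (Fintype.card L.J3 : ℝ) - (rk F (C.N i) L.bd3 : ℝ) / (C.N i).index =
      n - (rk F (C.N i) A : ℝ) / (C.N i).index := by
    intro i
    have h1 := rk_add_ker F (C.N i) L.bd3
    have h2 := rk_add_ker F (C.N i) A
    rw [hker (C.N i)] at h1
    rw [Fintype.card_fin] at h2
    have h1' : (rk F (C.N i) L.bd3 : ℝ) + finrank F (LinearMap.ker (actM F (A.map (toQ F (C.N i))))) =
        Fintype.card L.J3 * (C.N i).index := by exact_mod_cast h1
    have h2' : (rk F (C.N i) A : ℝ) + finrank F (LinearMap.ker (actM F (A.map (toQ F (C.N i))))) =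
        n * (C.N i).index := by exact_mod_cast h2
    have hp := (hpos i).ne'
    field_simp
    linarith
  rcases hn with rfl | rfl
  · -- degree two
    rw [if_neg (by norm_num)]
    have h1 : Filter.Tendsto (fun i => (betti F T (C'.N i) 2 : ℝ) / (C'.N i).index -
        (Fintype.card L.J2 - (rk F (C.N i) L.bd2 : ℝ) / (C.N i).index -
          (rk F (C.N i) L.bd3 : ℝ) / (C.N i).index)) Filter.atTop (nhds 0) := by
      refine lim_aux c _ fun k hk => ?_
      filter_upwards [hev k] with i hi
      have h := (hT (C'.N i) k hk hi.1 hi.2).1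
      rwa [rk_congr F (hC' i) L.bd2, rk_congr F (hC' i) L.bd3, lim_idx (hC' i)] at h
    have h2 : Filter.Tendsto (fun i => (rk F (C.N i) L.bd2 : ℝ) / (C.N i).index - Fintype.card L.I)
        Filter.atTop (nhds 0) := by
      refine lim_aux (Fintype.card L.I) _ fun k hk => ?_
      filter_upwards [ord_tendsto C t ht' k] with i hi
      have h3 := rk_of_rows F L.bd2 t hL (C.N i)
      have h4 := rk_le_col F (C.N i) L.bd2
      have h3' : (orderOf (QuotientGroup.mk t : H ⧸ C.N i) : ℝ) *
          (Fintype.card L.I * (C.N i).index - rk F (C.N i) L.bd2) ≤ Fintype.card L.I * (C.N i).index := by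
        exact_mod_cast h3
      have h4' : (rk F (C.N i) L.bd2 : ℝ) ≤ Fintype.card L.I * (C.N i).index := by exact_mod_cast h4
      have hi' : (k : ℝ) ≤ orderOf (QuotientGroup.mk t : H ⧸ C.N i) := by exact_mod_cast hi
      have hkR : (0 : ℝ) < k := by exact_mod_cast hk
      have hp := hpos i
      have e : (rk F (C.N i) L.bd2 : ℝ) / (C.N i).index - Fintype.card L.I =
          -((Fintype.card L.I * (C.N i).index - rk F (C.N i) L.bd2) / (C.N i).index) := by
        field_simp
        ring
      rw [e, abs_neg, abs_div, abs_of_pos hp, abs_of_nonneg (by linarith), div_le_div_iff₀ hp hkR]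
      have h5 : (k : ℝ) * (Fintype.card L.I * (C.N i).index - rk F (C.N i) L.bd2) ≤
          (orderOf (QuotientGroup.mk t : H ⧸ C.N i) : ℝ) *
            (Fintype.card L.I * (C.N i).index - rk F (C.N i) L.bd2) :=
        mul_le_mul_of_nonneg_right hi' (by linarith)
      linarith
    have h3 := ((tendsto_const_nhds (x := (Fintype.card L.J2 - Fintype.card L.I - Fintype.card L.J3 + n : ℝ))).sub
      hℓ').add (h1.sub h2)
    rw [sub_zero, add_zero] at h3
    refine h3.congr fun i => ?_
    have := hnull i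
    linarith
  · -- degree three
    rw [if_pos rfl]
    have h1 : Filter.Tendsto (fun i => (betti F T (C'.N i) 3 : ℝ) / (C'.N i).index -
        (Fintype.card L.J3 - (rk F (C.N i) L.bd3 : ℝ) / (C.N i).index)) Filter.atTop (nhds 0) := by
      refine lim_aux c _ fun k hk => ?_
      filter_upwards [hev k] with i hi
      have h := (hT (C'.N i) k hk hi.1 hi.2).2
      rwa [rk_congr F (hC' i) L.bd3, lim_idx (hC' i)] at h
    have h3 := ((tendsto_const_nhds (x := (n : ℝ))).sub hℓ').add h1
    rw [add_zero] at h3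
    refine h3.congr fun i => ?_
    have := hnull i
    linarith

end NBT
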