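import Pool.Agent.Lib.MP_83fbc5_gt.A45

/-!
# MP_83fbc5_gt, module PCH: chains of `Γ × ℤ`
-/

set_option autoImplicit false

namespace NBT

universe w

/-- the reduction of the integers modulo a power of two, multiplicative notation -/
private def pchHom (i : ℕ) : Multiplicative ℤ →* Multiplicative (ZMod (2 ^ i)) :=
  AddMonoidHom.toMultiplicative (Int.castAddHom (ZMod (2 ^ i)))

private theorem pch_mem (i : ℕ) (x : Multiplicative ℤ) :
    x ∈ (pchHom i).ker ↔ ((2 ^ i : ℕ) : ℤ) ∣ Multiplicative.toAdd x := by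
  rw [MonoidHom.mem_ker, ← ZMod.intCast_zmod_eq_zero_iff_dvd]
  exact Iff.rfl

theorem prod_chain {Γ : Type} [Group Γ] (C : Chain Γ) : ∃ C' : Chain (Γ × Multiplicative ℤ),
    ∀ i, (C'.N i).comap (MonoidHom.inl Γ (Multiplicative ℤ)) = C.N i := by
  refine ⟨{ N := fun i => (C.N i).prod (pchHom i).ker, normal := fun i => inferInstance, fin := ?_, anti := ?_, bot := ?_ }, ?_⟩
  · intro i
    constructor
    have : NeZero (2 ^ i) := ⟨by positivity⟩
    have : Finite (Multiplicative (ZMod (2 ^ i))) := inferInstanceAs (Finite (ZMod (2 ^ i)))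
    rw [Subgroup.index_prod]
    exact mul_ne_zero Subgroup.FiniteIndex.index_ne_zero Subgroup.FiniteIndex.index_ne_zero
  · intro i j hij x hx
    rw [Subgroup.mem_prod] at hx ⊢
    refine ⟨C.anti hij hx.1, ?_⟩
    rw [pch_mem]
    refine dvd_trans ?_ ((pch_mem j x.2).1 hx.2)
    exact_mod_cast pow_dvd_pow 2 hij
  · rw [eq_bot_iff]
    intro x hx
    rw [Subgroup.mem_iInf] at hx
    rw [Subgroup.mem_bot]
    have h1 : x.1 = 1 := by
      have : x.1 ∈ ⨅ i, C.N i := by
        rw [Subgroup.mem_iInf]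
        exact fun i => (Subgroup.mem_prod.1 (hx i)).1
      rw [C.bot] at this
      exact Subgroup.mem_bot.1 this
    have h2 : Multiplicative.toAdd x.2 = 0 := by
      have h3 := (pch_mem _ _).1 (Subgroup.mem_prod.1 (hx (Multiplicative.toAdd x.2).natAbs)).2
      refine Int.eq_zero_of_abs_lt_dvd h3 ?_
      rw [Int.abs_eq_natAbs]
      exact_mod_cast Nat.lt_two_pow_self
    exact Prod.ext h1 h2
  · intro i
    ext x
    rw [Subgroup.mem_comap, Subgroup.mem_prod]
    exact ⟨fun h => h.1, fun h => ⟨h, one_mem _⟩⟩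

theorem rk_chain (F : Type w) [Field F] {H G : Type} [Group H] [Group G] (f : H →* G) (N : Subgroup G) [N.Normal]
    [N.FiniteIndex] (N' : Subgroup H) [N'.Normal] (hN : N.comap f = N') {m n : Type} [Fintype m] [Fintype n]
    (A : Matrix m n (MonoidAlgebra ℤ H)) :
    (rk F N (A.map (ind f)) : ℝ) / N.index = (rk F N' A : ℝ) / N'.index := by
  subst hN
  have h1 : (N.index : ℝ) ≠ 0 := Nat.cast_ne_zero.2 Subgroup.FiniteIndex.index_ne_zero
  have h3 : (N.comap f).FiniteIndex := by
    have e : N.comap f = ((QuotientGroup.mk' N).comp f).ker := by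
      rw [← MonoidHom.comap_ker, QuotientGroup.ker_mk']
    rw [e]
    infer_instance
  have h2 : ((N.comap f).index : ℝ) ≠ 0 := Nat.cast_ne_zero.2 h3.index_ne_zero
  rw [div_eq_div_iff h1 h2]
  exact_mod_cast rk_ind F f N A

end NBT
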