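import Pool.Agent.Lib.MP_83fbc5_gt.Basic

/-!
# MP_83fbc5_gt, module LA1: ranks of intertwined maps

PROOF. `rank f ≤ rank (ψ f) + dim ker ψ` (apply rank-nullity to the restriction of `ψ` to the range of `f`), and
`ψ f = f' φ` has rank at most `rank f'`. Conversely `rank f' ≤ rank (f' φ) + (dim X - rank φ)` (the range of `f'` modulo the range of
`f' φ` is a quotient of `X / range φ`), `dim X - rank φ = dim ker φ` and `f' φ = ψ f` has rank at most `rank f`.
(20-30 minutes)
-/

set_option autoImplicit false

namespace NBT

open Module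

universe w

private theorem finrank_le_map {F : Type w} [Field F] {X Y : Type w} [AddCommGroup X] [Module F X]
    [FiniteDimensional F X] [AddCommGroup Y] [Module F Y] (φ : X →ₗ[F] Y) (S : Submodule F X) :
    finrank F S ≤ finrank F (S.map φ) + finrank F (LinearMap.ker φ) := by
  have h1 := LinearMap.finrank_range_add_finrank_ker (φ.domRestrict S)
  rw [LinearMap.range_domRestrict] at h1
  have h2 : finrank F (LinearMap.ker (φ.domRestrict S)) ≤ finrank F (LinearMap.ker φ) := by
    have hf : ∀ x ∈ LinearMap.ker (φ.domRestrict S), S.subtype x ∈ LinearMap.ker φ := by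
      intro x hx
      rw [LinearMap.mem_ker] at hx ⊢
      exact hx
    refine LinearMap.finrank_le_finrank_of_injective (f := S.subtype.restrict hf) ?_
    intro a b hab
    have h3 : (S.subtype.restrict hf a : X) = (S.subtype.restrict hf b : X) := by rw [hab]
    exact Subtype.ext (Subtype.ext h3)
  omega

theorem rank_intertwine {F : Type w} [Field F] {X Y : Type w} [AddCommGroup X] [Module F X] [FiniteDimensional F X]
    [AddCommGroup Y] [Module F Y] [FiniteDimensional F Y] (f f' : X →ₗ[F] Y) (φ : X →ₗ[F] X) (ψ : Y →ₗ[F] Y)
    (h : ψ ∘ₗ f = f' ∘ₗ φ) :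
    finrank F (LinearMap.range f) ≤ finrank F (LinearMap.range f') + finrank F (LinearMap.ker ψ) ∧
      finrank F (LinearMap.range f') ≤ finrank F (LinearMap.range f) + finrank F (LinearMap.ker φ) := by
  have e1 : (LinearMap.range f).map ψ = LinearMap.range (f' ∘ₗ φ) := by
    rw [← h, LinearMap.range_comp]
  constructor
  · have h1 := finrank_le_map ψ (LinearMap.range f)
    have h2 : finrank F ((LinearMap.range f).map ψ) ≤ finrank F (LinearMap.range f') := by
      rw [e1]
      exact Submodule.finrank_mono (LinearMap.range_comp_le_range φ f')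
    omega
  · have h1 := finrank_le_map φ (LinearMap.ker (f' ∘ₗ φ))
    have h2 : finrank F ((LinearMap.ker (f' ∘ₗ φ)).map φ) ≤ finrank F (LinearMap.ker f') := by
      refine Submodule.finrank_mono ?_
      rintro _ ⟨x, hx, rfl⟩
      exact hx
    have h3 := LinearMap.finrank_range_add_finrank_ker f'
    have h4 := LinearMap.finrank_range_add_finrank_ker (f' ∘ₗ φ)
    have h5 : finrank F (LinearMap.range (f' ∘ₗ φ)) ≤ finrank F (LinearMap.range f) := by
      rw [← e1]
      exact Submodule.finrank_map_le ψ (LinearMap.range f)
    omega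

end NBT
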