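import Pool.Agent.Lib.MP_83fbc5_gt.Basic

/-!
# MP_83fbc5_gt, module LA3: the kernel of multiplication by products of `1 - q`
-/

set_option autoImplicit false

namespace NBT

open Module

universe w

/-- right multiplication of the coordinates by fixed elements -/
noncomputable def diagR (F : Type w) [Field F] {S : Type w} [Ring S] [Algebra F S] {n : Type} (c : n → S) :
    (n → S) →ₗ[F] (n → S) :=
  LinearMap.pi fun i => LinearMap.mulRight F (c i) ∘ₗ LinearMap.proj i

private theorem LA3_fd (F : Type w) [Field F] (Q : Type) [Finite Q] :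
    FiniteDimensional F (MonoidAlgebra F Q) :=
  Module.Finite.equiv (MonoidAlgebra.coeffLinearEquiv F).symm

private theorem LA3_const {F : Type w} [Field F] {Q : Type} [Group Q] (q : Q) (x : MonoidAlgebra F Q)
    (hx : x * (1 - MonoidAlgebra.single q 1) = 0) (h : Q) : x.coeff (h * q⁻¹) = x.coeff h := by
  rw [mul_sub, mul_one, sub_eq_zero] at hx
  have h1 : (x * MonoidAlgebra.single q 1).coeff h = x.coeff (h * q⁻¹) * 1 :=
    MonoidAlgebra.coeff_mul_single_eq_coeff_mul (m₂ := h * q⁻¹) (fun m' _ => by
      constructor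
      · intro e; rw [← e, mul_inv_cancel_right]
      · intro e; rw [e, inv_mul_cancel_right])
  rw [← hx, mul_one] at h1
  exact h1.symm

private theorem LA3_const' {F : Type w} [Field F] {Q : Type} [Group Q] (q : Q) (x : MonoidAlgebra F Q)
    (hx : x * (1 - MonoidAlgebra.single q 1) = 0) (h g : Q) (hg : g ∈ Subgroup.zpowers q) :
    x.coeff (h * g) = x.coeff h := by
  have hpow : ∀ (n : ℕ) (h : Q), x.coeff (h * q ^ n) = x.coeff h := by
    intro n
    induction n with
    | zero => intro h; simp
    | succ n ih =>
      intro h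
      rw [pow_succ, ← mul_assoc]
      have h1 := LA3_const q x hx (h * q ^ n * q)
      rw [mul_inv_cancel_right] at h1
      rw [← h1]
      exact ih h
  obtain ⟨i, rfl⟩ := Subgroup.mem_zpowers_iff.mp hg
  rcases Int.eq_nat_or_neg i with ⟨k, rfl | rfl⟩
  · rw [zpow_natCast]
    exact hpow k h
  · rw [zpow_neg, zpow_natCast]
    have := hpow k (h * (q ^ k)⁻¹)
    rw [inv_mul_cancel_right] at this
    exact this.symm

theorem ker_one_sub (F : Type w) [Field F] {Q : Type} [Group Q] [Finite Q] (q : Q) :
    orderOf q * finrank F (LinearMap.ker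
      (LinearMap.mulRight F (1 - MonoidAlgebra.single q 1 : MonoidAlgebra F Q))) ≤ Nat.card Q := by
  classical
  have hfd := LA3_fd F Q
  have hft : Fintype (Q ⧸ Subgroup.zpowers q) := Fintype.ofFinite _
  let φ : LinearMap.ker (LinearMap.mulRight F (1 - MonoidAlgebra.single q 1 : MonoidAlgebra F Q)) →ₗ[F]
      (Q ⧸ Subgroup.zpowers q → F) :=
    { toFun := fun x c => x.1.coeff (Quotient.out c)
      map_add' := fun x y => rfl
      map_smul' := fun a x => rfl }
  have hinj : Function.Injective φ := by
    rw [injective_iff_map_eq_zero]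
    intro x hx
    have hx0 : x.1 * (1 - MonoidAlgebra.single q 1) = 0 := by
      have := x.2
      rw [LinearMap.mem_ker] at this
      exact this
    apply Subtype.ext
    apply MonoidAlgebra.coeff_inj.mp
    ext h
    have h1 : x.1.coeff (Quotient.out (h : Q ⧸ Subgroup.zpowers q)) = 0 := congrFun hx _
    have h2 : (Quotient.out (h : Q ⧸ Subgroup.zpowers q))⁻¹ * h ∈ Subgroup.zpowers q :=
      QuotientGroup.eq.mp (Quotient.out_eq' _)
    have h3 := LA3_const' q x.1 hx0 (Quotient.out (h : Q ⧸ Subgroup.zpowers q)) _ h2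
    rw [mul_inv_cancel_left] at h3
    rw [h3, h1]
    rfl
  have h1 := LinearMap.finrank_le_finrank_of_injective hinj
  rw [Module.finrank_fintype_fun_eq_card] at h1
  have h2 := Subgroup.card_eq_card_quotient_mul_card_subgroup (Subgroup.zpowers q)
  rw [Nat.card_zpowers] at h2
  rw [h2, mul_comm, Nat.card_eq_fintype_card]
  exact Nat.mul_le_mul_right _ h1

private theorem LA3_comp {F : Type w} [Field F] {V : Type w} [AddCommGroup V] [Module F V]
    [FiniteDimensional F V] (f g : V →ₗ[F] V) :
    finrank F (LinearMap.ker (g ∘ₗ f)) ≤ finrank F (LinearMap.ker f) + finrank F (LinearMap.ker g) := by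
  let φ : LinearMap.ker (g ∘ₗ f) →ₗ[F] LinearMap.ker g :=
    LinearMap.codRestrict (LinearMap.ker g) (f ∘ₗ (LinearMap.ker (g ∘ₗ f)).subtype) (fun x => x.2)
  have h1 := LinearMap.finrank_range_add_finrank_ker φ
  have h2 : finrank F (LinearMap.range φ) ≤ finrank F (LinearMap.ker g) := Submodule.finrank_le _
  let ψ : LinearMap.ker φ →ₗ[F] LinearMap.ker f :=
    LinearMap.codRestrict (LinearMap.ker f)
      ((LinearMap.ker (g ∘ₗ f)).subtype ∘ₗ (LinearMap.ker φ).subtype) (fun x => by
        have := x.2
        rw [LinearMap.mem_ker] at this ⊢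
        exact congrArg Subtype.val this)
  have hψ : Function.Injective ψ := by
    intro x y hxy
    apply Subtype.ext
    apply Subtype.ext
    have h : (ψ x).1 = (ψ y).1 := by rw [hxy]
    exact h
  have h3 := LinearMap.finrank_le_finrank_of_injective hψ
  omega

private theorem LA3_list (F : Type w) [Field F] {Q : Type} [Group Q] [Finite Q] (m : ℕ) (l : List Q)
    (hm : ∀ q ∈ l, m ≤ orderOf q) :
    m * finrank F (LinearMap.ker (LinearMap.mulRight F
      (l.map fun q => (1 - MonoidAlgebra.single q 1 : MonoidAlgebra F Q)).prod)) ≤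
      l.length * Nat.card Q := by
  have hfd := LA3_fd F Q
  induction l with
  | nil =>
    have e : ((([] : List Q).map fun q => (1 - MonoidAlgebra.single q 1 : MonoidAlgebra F Q)).prod) = 1 :=
      rfl
    have : LinearMap.ker (LinearMap.mulRight F (1 : MonoidAlgebra F Q)) = ⊥ := by
      rw [LinearMap.ker_eq_bot']
      intro x hx
      simpa using hx
    rw [e, this, finrank_bot, mul_zero]
    exact Nat.zero_le _
  | cons q l ih =>
    have ih' := ih (fun q' hq' => hm q' (List.mem_cons_of_mem _ hq'))
    have hq := hm q (List.mem_cons_self)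
    have h1 := ker_one_sub F q
    have h2 : LinearMap.mulRight F
        ((q :: l).map fun q => (1 - MonoidAlgebra.single q 1 : MonoidAlgebra F Q)).prod =
        LinearMap.mulRight F
          (l.map fun q => (1 - MonoidAlgebra.single q 1 : MonoidAlgebra F Q)).prod ∘ₗ
        LinearMap.mulRight F (1 - MonoidAlgebra.single q 1 : MonoidAlgebra F Q) := by
      ext1 x
      simp [mul_assoc]
    rw [h2]
    have h3 := LA3_comp
      (LinearMap.mulRight F (1 - MonoidAlgebra.single q 1 : MonoidAlgebra F Q))
      (LinearMap.mulRight F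
          (l.map fun q => (1 - MonoidAlgebra.single q 1 : MonoidAlgebra F Q)).prod)
    calc _ ≤ m * (finrank F (LinearMap.ker
            (LinearMap.mulRight F (1 - MonoidAlgebra.single q 1 : MonoidAlgebra F Q))) +
          finrank F (LinearMap.ker (LinearMap.mulRight F
            (l.map fun q => (1 - MonoidAlgebra.single q 1 : MonoidAlgebra F Q)).prod))) :=
          Nat.mul_le_mul_left _ h3
      _ ≤ Nat.card Q + l.length * Nat.card Q := by
          rw [mul_add]
          refine Nat.add_le_add ((Nat.mul_le_mul_right _ hq).trans h1) ih'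
      _ = (q :: l).length * Nat.card Q := by
          rw [List.length_cons]
          ring

theorem ker_diag (F : Type w) [Field F] {Q : Type} [Group Q] [Finite Q] {n : Type} [Fintype n] (l : n → List Q)
    (m k : ℕ) (hm : ∀ i, ∀ q ∈ l i, m ≤ orderOf q) (hk : ∀ i, (l i).length ≤ k) :
    m * finrank F (LinearMap.ker (diagR F (fun i =>
      ((l i).map fun q => (1 - MonoidAlgebra.single q 1 : MonoidAlgebra F Q)).prod))) ≤
      Fintype.card n * k * Nat.card Q := by
  have hfd := LA3_fd F Q
  let c : n → MonoidAlgebra F Q := fun i =>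
    ((l i).map fun q => (1 - MonoidAlgebra.single q 1 : MonoidAlgebra F Q)).prod
  let ψ : LinearMap.ker (diagR F c) →ₗ[F] (∀ i, LinearMap.ker (LinearMap.mulRight F (c i))) :=
    LinearMap.pi fun i => LinearMap.codRestrict _
      (LinearMap.proj i ∘ₗ (LinearMap.ker (diagR F c)).subtype) (fun x => by
        have := x.2
        rw [LinearMap.mem_ker] at this ⊢
        exact congrFun this i)
  have hψ : Function.Injective ψ := by
    intro x y hxy
    apply Subtype.ext
    funext i
    exact congrArg Subtype.val (congrFun hxy i)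
  have h1 := LinearMap.finrank_le_finrank_of_injective hψ
  rw [Module.finrank_pi_fintype] at h1
  calc m * finrank F (LinearMap.ker (diagR F c)) ≤
      m * ∑ i, finrank F (LinearMap.ker (LinearMap.mulRight F (c i))) := Nat.mul_le_mul_left _ h1
    _ = ∑ i, m * finrank F (LinearMap.ker (LinearMap.mulRight F (c i))) := Finset.mul_sum _ _ _
    _ ≤ ∑ _i : n, k * Nat.card Q := by
        refine Finset.sum_le_sum fun i _ => ?_
        exact (LA3_list F m (l i) (hm i)).trans (Nat.mul_le_mul_right _ (hk i))
    _ = Fintype.card n * k * Nat.card Q := by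
        rw [Finset.sum_const, Finset.card_univ, smul_eq_mul, mul_assoc]

end NBT
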