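import Pool.Agent.Lib.MP_83fbc5_gt.PHI1
import Pool.Agent.Lib.MP_83fbc5_gt.LA1
import Pool.Agent.Lib.MP_83fbc5_gt.LA3

/-!
# MP_83fbc5_gt, module PHI2: the Koszul matrices and the boundary matrices have almost the same rank

PROOF. Put `Q = GG/N`. `actM F ((diagonal P).map (toQ F N)) = diagR F (fun i => toQ F N (P i))` and the entries `toQ (P i)` are products of one, two or three factors
`1 - single q 1` where `q` is the image of `X (h, i)`; `X (h, i) = iH h * X (1, i) * (iH h)⁻¹` (`SemidirectProduct.inl_aut`, `phi_gen`), so `orderOf q` is the order of the image of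
`X (1, i)`, which is at least `m`. So by `ker_diag` the kernels of the diagonal maps satisfy `m * dim ≤ card * 3 * |Q|`. Map the identities `K2_mul`, `K3_mul` to `F[Q]` (`Matrix.map_mul`);
`rank_intertwine` with `f = actM K`, `f' = actM bd`, `φ`, `ψ` the diagonal maps on rows and columns gives both inequalities. Take
`c = 3 * (card I + card J2 + card J3)` in both cases.
(50-75 minutes)
-/

set_option autoImplicit false

namespace NBT

open Matrix RaagIso

universe w

open Module

namespace VG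

theorem PHI2_order {H : Type} [Group H] (L : VG H) (N : Subgroup L.GG) [N.Normal] (h : H) (i : L.I) :
    orderOf (QuotientGroup.mk (L.X (h, i)) : L.GG ⧸ N) =
      orderOf (QuotientGroup.mk (L.X (1, i)) : L.GG ⧸ N) := by
  have h1 : L.X (h, i) * L.iH h = L.iH h * L.X (1, i) := by
    have h2 := SemidirectProduct.inl_aut (φ := L.phi) h (gen (1, i) : RA L.gr)
    rw [L.phi_gen h (1, i), mul_one, map_inv] at h2
    show SemidirectProduct.inl (gen (h, i)) * _ = _
    rw [h2, inv_mul_cancel_right]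
    rfl
  refine (SemiconjBy.orderOf_eq (QuotientGroup.mk (L.iH h) : L.GG ⧸ N) ?_).symm
  show (QuotientGroup.mk (L.iH h) : L.GG ⧸ N) * QuotientGroup.mk (L.X (1, i)) =
    QuotientGroup.mk (L.X (h, i)) * QuotientGroup.mk (L.iH h)
  rw [← QuotientGroup.mk_mul, ← QuotientGroup.mk_mul, h1]

theorem PHI2_diag (F : Type w) [Field F] {G : Type} [Group G] (N : Subgroup G) [N.Normal]
    {n : Type} [Fintype n] [DecidableEq n] (P : n → MonoidAlgebra ℤ G) :
    actM F ((Matrix.diagonal P).map (toQ F N)) = diagR F (fun i => toQ F N (P i)) := by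
  refine LinearMap.ext fun u => ?_
  rw [Matrix.diagonal_map (map_zero _)]
  funext j
  show (u ᵥ* Matrix.diagonal (toQ F N ∘ P)) j = u j * toQ F N (P j)
  rw [Matrix.vecMul_diagonal]
  rfl

theorem PHI2_ker (F : Type w) [Field F] {H : Type} [Group H] (L : VG H) (N : Subgroup L.GG)
    [N.Normal] [N.FiniteIndex] (m : ℕ)
    (hm : ∀ i, m ≤ orderOf (QuotientGroup.mk (L.X (1, i)) : L.GG ⧸ N))
    {n : Type} [Fintype n] [DecidableEq n] (l : n → List (H × L.I)) (hl : ∀ i, (l i).length ≤ 3)
    (P : n → MonoidAlgebra ℤ L.GG) (hP : ∀ i, P i = ((l i).map L.om).prod) :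
    m * finrank F (LinearMap.ker (actM F ((Matrix.diagonal P).map (toQ F N)))) ≤
      Fintype.card n * 3 * N.index := by
  rw [PHI2_diag]
  have h1 := ker_diag F (Q := L.GG ⧸ N)
    (fun i => (l i).map fun v => (QuotientGroup.mk (L.X v) : L.GG ⧸ N)) m 3 (by
      intro i q hq
      obtain ⟨v, -, rfl⟩ := List.mem_map.mp hq
      rcases v with ⟨h, j⟩
      rw [PHI2_order]
      exact hm j) (by
      intro i
      rw [List.length_map]
      exact hl i)
  have he : (fun i : n => (((l i).map fun v => (QuotientGroup.mk (L.X v) : L.GG ⧸ N)).map fun q =>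
      (1 - MonoidAlgebra.single q 1 : MonoidAlgebra F (L.GG ⧸ N))).prod) =
      fun i => toQ F N (P i) := by
    funext i
    rw [hP i, map_list_prod, List.map_map, List.map_map]
    congr 1
    refine List.map_congr_left fun v _ => ?_
    show 1 - MonoidAlgebra.single (QuotientGroup.mk (L.X v)) 1 = toQ F N (L.om v)
    unfold om
    rw [map_sub, map_one, toQ_el]
  rw [he] at h1
  exact h1

theorem PHI2_int {m a b k k' c c' I : ℕ} (h1 : a ≤ b + k) (h2 : b ≤ a + k') (hk : m * k ≤ c * I)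
    (hk' : m * k' ≤ c' * I) : (m : ℤ) * |(a : ℤ) - b| ≤ ((c + c' : ℕ) : ℤ) * I := by
  have h3 : m * a ≤ m * b + c * I := by
    calc m * a ≤ m * (b + k) := Nat.mul_le_mul_left _ h1
      _ = m * b + m * k := by ring
      _ ≤ _ := by omega
  have h4 : m * b ≤ m * a + c' * I := by
    calc m * b ≤ m * (a + k') := Nat.mul_le_mul_left _ h2
      _ = m * a + m * k' := by ring
      _ ≤ _ := by omega
  have h3' : (m : ℤ) * a ≤ m * b + c * I := by exact_mod_cast h3
  have h4' : (m : ℤ) * b ≤ m * a + c' * I := by exact_mod_cast h4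
  have h5 : (0 : ℤ) ≤ c * I := by positivity
  have h6 : (0 : ℤ) ≤ c' * I := by positivity
  have h7 : (m : ℤ) * |(a : ℤ) - b| = |(m : ℤ) * (a - b)| := by
    rw [abs_mul, abs_of_nonneg (Int.natCast_nonneg m)]
  rw [h7, abs_le]
  push_cast
  constructor
  · nlinarith
  · nlinarith

theorem PHI2_gen (F : Type w) [Field F] {H : Type} [Group H] (L : VG H) (N : Subgroup L.GG)
    [N.Normal] [N.FiniteIndex] (m : ℕ)
    {a b : Type} [Fintype a] [DecidableEq a] [Fintype b] [DecidableEq b]
    (K B : Matrix a b (MonoidAlgebra ℤ L.GG)) (P : a → MonoidAlgebra ℤ L.GG)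
    (P' : b → MonoidAlgebra ℤ L.GG) (hKB : K * Matrix.diagonal P' = Matrix.diagonal P * B)
    {c c' : ℕ}
    (h1 : m * finrank F (LinearMap.ker (actM F ((Matrix.diagonal P').map (toQ F N)))) ≤ c * N.index)
    (h2 : m * finrank F (LinearMap.ker (actM F ((Matrix.diagonal P).map (toQ F N)))) ≤
      c' * N.index) :
    (m : ℤ) * |(rk F N K : ℤ) - rk F N B| ≤ ((c + c' : ℕ) : ℤ) * N.index := by
  have h3 := congrArg (fun A : Matrix a b (MonoidAlgebra ℤ L.GG) => actM F (A.map (toQ F N))) hKB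
  simp only [Matrix.map_mul, actM_mul] at h3
  obtain ⟨h4, h5⟩ := rank_intertwine (actM F (K.map (toQ F N))) (actM F (B.map (toQ F N)))
    (actM F ((Matrix.diagonal P).map (toQ F N))) (actM F ((Matrix.diagonal P').map (toQ F N))) h3
  exact PHI2_int h4 h5 h1 h2

theorem K_rank (F : Type w) [Field F] {H : Type} [Group H] (L : VG H) :
    ∃ c : ℕ, ∀ (N : Subgroup L.GG) [N.Normal] [N.FiniteIndex] (m : ℕ),
      (∀ i, m ≤ orderOf (QuotientGroup.mk (L.X (1, i)) : L.GG ⧸ N)) →
      (m : ℤ) * |(rk F N L.K2 : ℤ) - rk F N (L.bd2.map (ind L.iH))| ≤ c * N.index ∧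
      (m : ℤ) * |(rk F N L.K3 : ℤ) - rk F N (L.bd3.map (ind L.iH))| ≤ c * N.index := by
  refine ⟨Fintype.card L.I * 3 + Fintype.card L.J2 * 3 + Fintype.card L.J3 * 3, ?_⟩
  intro N _ _ m hm
  have k1 := PHI2_ker F L N m hm (fun i => [(1, i)]) (by intro i; simp) L.P1
    (by intro i; simp [P1])
  have k2 := PHI2_ker F L N m hm (fun p : L.J2 => [(1, p.1.1), (L.g p.1.1 p.1.2, p.1.2)])
    (by intro i; simp) L.P2 (by intro i; simp [P2])
  have k3 := PHI2_ker F L N m hm (fun p : L.J3 => [(1, p.1.1), (L.g p.1.1 p.1.2.1, p.1.2.1),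
    (L.g p.1.1 p.1.2.2, p.1.2.2)])
    (by intro i; simp) L.P3 (by intro i; simp [P3, mul_assoc])
  have hI : (0 : ℤ) ≤ N.index := Int.natCast_nonneg _
  constructor
  · refine (PHI2_gen F L N m L.K2 _ L.P2 L.P1 L.K2_mul k1 k2).trans ?_
    refine mul_le_mul_of_nonneg_right ?_ hI
    push_cast
    have : (0 : ℤ) ≤ Fintype.card L.J3 := Int.natCast_nonneg _
    linarith
  · refine (PHI2_gen F L N m L.K3 _ L.P3 L.P2 L.K3_mul k2 k3).trans ?_
    refine mul_le_mul_of_nonneg_right ?_ hI
    push_cast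
    have : (0 : ℤ) ≤ Fintype.card L.I := Int.natCast_nonneg _
    linarith

end VG

end NBT
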