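import Pool.Agent.Lib.MP_83fbc5_gt.YI1

/-!
# MP_83fbc5_gt, module YI2: Betti numbers do not depend on the resolution

PROOF. Take `f : R → R'`, `g : R' → R` from `exists_map`. The matrices `h n = scal (R.ι n) 1 - f n * g n` satisfy the hypotheses of `null_homotopic` (`∑ eps ((f 0 * g 0) i j) * aug j = aug i`; `scal _ 1 = 1`), and symmetrically for `g n * f n`. Map everything to `F[G/N]` (`Matrix.map_mul`, `scal_map`): then `u ↦ u ᵥ* f n` maps cycles to cycles and boundaries to boundaries and induces a map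
`cyc R n / bdr R n → cyc R' n / bdr R' n` (`Submodule.mapQ`), the same for `g`, and the compositions are the identity: `u - u f g` is a boundary for a cycle `u` (for `n = 0` by the first identity of `null_homotopic`). So the quotients are isomorphic (`LinearEquiv.ofLinear`), or: both dimensions are `≤` each other because `g f = 1` makes the first map injective.
(60-80 minutes)
-/

set_option autoImplicit false

namespace NBT

open Matrix Module

universe w

private theorem YI2_cyc_map (F : Type w) [Field F] {G : Type} [Group G] {D D' : ℕ} (R : FFR G D)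
    (R' : FFR G D') (N : Subgroup G) [N.Normal] (f : ∀ n, Matrix (R.ι n) (R'.ι n) (MonoidAlgebra ℤ G))
    (hf : ∀ n, R.d n * f n = f (n + 1) * R'.d n) (n : ℕ) (u : R.ι n → MonoidAlgebra F (G ⧸ N))
    (hu : u ∈ cyc F R N n) : u ᵥ* (f n).map (toQ F N) ∈ cyc F R' N n := by
  cases n with
  | zero => trivial
  | succ n =>
    have hu' : u ᵥ* (R.d n).map (toQ F N) = 0 := hu
    show (u ᵥ* (f (n + 1)).map (toQ F N)) ᵥ* (R'.d n).map (toQ F N) = 0
    rw [Matrix.vecMul_vecMul, ← Matrix.map_mul, ← hf, Matrix.map_mul, ← Matrix.vecMul_vecMul, hu',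
      Matrix.zero_vecMul]

private theorem YI2_bdr_map (F : Type w) [Field F] {G : Type} [Group G] {D D' : ℕ} (R : FFR G D)
    (R' : FFR G D') (N : Subgroup G) [N.Normal] (f : ∀ n, Matrix (R.ι n) (R'.ι n) (MonoidAlgebra ℤ G))
    (hf : ∀ n, R.d n * f n = f (n + 1) * R'.d n) (n : ℕ) (u : R.ι n → MonoidAlgebra F (G ⧸ N))
    (hu : u ∈ bdr F R N n) : u ᵥ* (f n).map (toQ F N) ∈ bdr F R' N n := by
  obtain ⟨v, rfl⟩ := hu
  refine ⟨v ᵥ* (f (n + 1)).map (toQ F N), ?_⟩
  show (v ᵥ* (f (n + 1)).map (toQ F N)) ᵥ* (R'.d n).map (toQ F N) =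
    (v ᵥ* (R.d n).map (toQ F N)) ᵥ* (f n).map (toQ F N)
  rw [Matrix.vecMul_vecMul, Matrix.vecMul_vecMul, ← Matrix.map_mul, ← Matrix.map_mul, hf]

private theorem YI2_homot (F : Type w) [Field F] {G : Type} [Group G] {D : ℕ} (R : FFR G D)
    (N : Subgroup G) [N.Normal] (h : ∀ n, Matrix (R.ι n) (R.ι n) (MonoidAlgebra ℤ G))
    (S : ∀ n, Matrix (R.ι n) (R.ι (n + 1)) (MonoidAlgebra ℤ G)) (hS0 : h 0 = S 0 * R.d 0)
    (hS : ∀ n, h (n + 1) = R.d n * S n + S (n + 1) * R.d (n + 1)) (n : ℕ)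
    (u : R.ι n → MonoidAlgebra F (G ⧸ N)) (hu : u ∈ cyc F R N n) :
    u ᵥ* (h n).map (toQ F N) ∈ bdr F R N n := by
  cases n with
  | zero =>
    refine ⟨u ᵥ* (S 0).map (toQ F N), ?_⟩
    show (u ᵥ* (S 0).map (toQ F N)) ᵥ* (R.d 0).map (toQ F N) = u ᵥ* (h 0).map (toQ F N)
    rw [Matrix.vecMul_vecMul, ← Matrix.map_mul, hS0]
  | succ n =>
    have hu' : u ᵥ* (R.d n).map (toQ F N) = 0 := hu
    refine ⟨u ᵥ* (S (n + 1)).map (toQ F N), ?_⟩
    show (u ᵥ* (S (n + 1)).map (toQ F N)) ᵥ* (R.d (n + 1)).map (toQ F N) =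
      u ᵥ* (h (n + 1)).map (toQ F N)
    have e : (h (n + 1)).map (toQ F N) = (R.d n).map (toQ F N) * (S n).map (toQ F N) +
        (S (n + 1)).map (toQ F N) * (R.d (n + 1)).map (toQ F N) := by
      rw [← Matrix.map_mul, ← Matrix.map_mul, hS n]
      ext1 i j
      simp only [Matrix.map_apply, Matrix.add_apply, map_add]
    rw [e, Matrix.vecMul_add, ← Matrix.vecMul_vecMul, hu', Matrix.zero_vecMul, zero_add,
      Matrix.vecMul_vecMul]

private theorem YI2_le (F : Type w) [Field F] {G : Type} [Group G] {D D' : ℕ} (R : FFR G D)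
    (R' : FFR G D') (N : Subgroup G) [N.Normal] [N.FiniteIndex] (n : ℕ) :
    betti F R N n ≤ betti F R' N n := by
  classical
  obtain ⟨f, hf0, hf⟩ := exists_map R R'
  obtain ⟨g, hg0, hg⟩ := exists_map R' R
  obtain ⟨S, hS0, hS⟩ := null_homotopic R (fun n => 1 - f n * g n)
    (by
      intro i
      have e1 : ∀ j, eps G ((1 - f 0 * g 0 : Matrix (R.ι 0) (R.ι 0) (MonoidAlgebra ℤ G)) i j) * R.aug j =
          (if i = j then R.aug j else 0) -
            ∑ k, eps G (f 0 i k) * (eps G (g 0 k j) * R.aug j) := by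
        intro j
        rw [Matrix.sub_apply, map_sub, sub_mul]
        congr 1
        · rw [Matrix.one_apply]
          split_ifs
          · rw [map_one, one_mul]
          · rw [map_zero, zero_mul]
        · rw [Matrix.mul_apply, map_sum, Finset.sum_mul]
          refine Finset.sum_congr rfl fun k _ => ?_
          rw [map_mul, mul_assoc]
      rw [Finset.sum_congr rfl fun j _ => e1 j, Finset.sum_sub_distrib, Finset.sum_ite_eq,
        if_pos (Finset.mem_univ _), Finset.sum_comm]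
      have e2 : ∀ k, ∑ j, eps G (f 0 i k) * (eps G (g 0 k j) * R.aug j) =
          eps G (f 0 i k) * R'.aug k := by
        intro k
        rw [← Finset.mul_sum, hg0 k]
      rw [Finset.sum_congr rfl fun k _ => e2 k, hf0 i, sub_self])
    (by
      intro n
      show R.d n * (1 - f n * g n) = (1 - f (n + 1) * g (n + 1)) * R.d n
      rw [Matrix.mul_sub, Matrix.sub_mul, Matrix.mul_one, Matrix.one_mul, ← Matrix.mul_assoc, hf,
        Matrix.mul_assoc, Matrix.mul_assoc, hg])
  let φ : cyc F R N n →ₗ[F] cyc F R' N n :=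
    (actM F ((f n).map (toQ F N))).restrict (fun u hu => YI2_cyc_map F R R' N f hf n u hu)
  have hφ : (bdr F R N n).comap (cyc F R N n).subtype ≤
      ((bdr F R' N n).comap (cyc F R' N n).subtype).comap φ := by
    intro u hu
    exact YI2_bdr_map F R R' N f hf n u.1 hu
  let ψ := Submodule.mapQ _ _ φ hφ
  refine LinearMap.finrank_le_finrank_of_injective (f := ψ) ?_
  rw [← LinearMap.ker_eq_bot, Submodule.eq_bot_iff]
  intro x hx
  obtain ⟨u, rfl⟩ := Submodule.Quotient.mk_surjective _ x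
  have hx' : ψ (Submodule.Quotient.mk u) = 0 := hx
  rw [Submodule.mapQ_apply, Submodule.Quotient.mk_eq_zero] at hx'
  have hx2 : (u : R.ι n → MonoidAlgebra F (G ⧸ N)) ᵥ* (f n).map (toQ F N) ∈ bdr F R' N n := hx'
  have hx3 := YI2_bdr_map F R' R N g hg n _ hx2
  rw [Matrix.vecMul_vecMul] at hx3
  have hx4 := YI2_homot F R N (fun n => 1 - f n * g n) S hS0 hS n u.1 u.2
  rw [Submodule.Quotient.mk_eq_zero]
  show (u : R.ι n → MonoidAlgebra F (G ⧸ N)) ∈ bdr F R N n
  have e : (u : R.ι n → MonoidAlgebra F (G ⧸ N)) =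
      (u : R.ι n → MonoidAlgebra F (G ⧸ N)) ᵥ* ((fun n => 1 - f n * g n) n).map (toQ F N) +
      (u : R.ι n → MonoidAlgebra F (G ⧸ N)) ᵥ* ((f n).map (toQ F N) * (g n).map (toQ F N)) := by
    have e1 : ((fun n => 1 - f n * g n) n).map (toQ F N) =
        1 - (f n).map (toQ F N) * (g n).map (toQ F N) := by
      rw [← Matrix.map_mul]
      ext1 i j
      simp only [Matrix.map_apply, Matrix.sub_apply, map_sub]
      congr 1
      rw [Matrix.one_apply, Matrix.one_apply]
      split_ifs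
      · rw [map_one]
      · rw [map_zero]
    rw [e1, Matrix.vecMul_sub, Matrix.vecMul_one, sub_add_cancel]
  rw [e]
  exact Submodule.add_mem _ hx4 hx3

theorem betti_indep (F : Type w) [Field F] {G : Type} [Group G] {D D' : ℕ} (R : FFR G D) (R' : FFR G D')
    (N : Subgroup G) [N.Normal] [N.FiniteIndex] (n : ℕ) : betti F R N n = betti F R' N n :=
  le_antisymm (YI2_le F R R' N n) (YI2_le F R' R N n)

end NBT
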