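import Pool.Agent.Lib.MP_83fbc5_gt.YR
import Pool.Agent.Lib.MP_83fbc5_gt.YI2
import Pool.Agent.Lib.MP_83fbc5_gt.PHI2
import Pool.Agent.Lib.MP_83fbc5_gt.LIM
import Pool.Agent.Lib.MP_83fbc5_gt.PCH

/-!
# MP_83fbc5_gt, YE: the normalised Betti numbers of `RA ⋊ H` and of the flag complex, in all degrees
-/

set_option autoImplicit false

namespace NBT

open Matrix Module RaagIso

universe w

/-- the chain of the traces -/
noncomputable def Chain.trace {H : Type} [Group H] (L : VG H) (C : Chain L.GG) : Chain H where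
  N i := (C.N i).comap L.iH
  normal i := inferInstance
  fin i := yr_fi L.iH (C.N i)
  anti i j hij := Subgroup.comap_mono (C.anti hij)
  bot := by
    rw [← Subgroup.comap_iInf, C.bot, MonoidHom.comap_bot]
    exact (MonoidHom.ker_eq_bot_iff _).2 SemidirectProduct.inr_injective

/-- from ranks at `N` to ranks at the trace -/
theorem ye_close (F : Type w) [Field F] {H G : Type} [Group H] [Group G] (f : H →* G) (N : Subgroup G) [N.Normal]
    [N.FiniteIndex] {p q : Type} [Fintype p] [Fintype q]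
    (B : Matrix p q (MonoidAlgebra ℤ H)) (r : ℕ) (c k : ℕ) (hk : 0 < k)
    (h : (k : ℤ) * |(r : ℤ) - rk F N (B.map (ind f))| ≤ c * N.index) :
    |(r : ℝ) / N.index - (rk F (N.comap f) B : ℝ) / (N.comap f).index| ≤ (c : ℝ) / k := by
  have e := rk_chain F f N (N.comap f) rfl B
  rw [← e]
  have hpos : (0 : ℝ) < N.index := by
    exact_mod_cast Nat.pos_of_ne_zero (Subgroup.FiniteIndex.index_ne_zero (H := N))
  have hkR : (0 : ℝ) < k := by exact_mod_cast hk
  have hR : (k : ℝ) * |(r : ℝ) - rk F N (B.map (ind f))| ≤ c * N.index := by exact_mod_cast h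
  rw [← sub_div, abs_div, abs_of_pos hpos, div_le_div_iff₀ hpos hkR]
  linarith

/-- `kb` and `lb` -/
theorem ye_kb (F : Type w) [Field F] {H : Type} [Group H] (L : VG H) :
    ∃ c : ℕ, ∀ (N : Subgroup L.GG) [N.Normal] [N.FiniteIndex] (k : ℕ), 0 < k →
      (∀ i, k ≤ orderOf (QuotientGroup.mk (L.X (1, i)) : L.GG ⧸ N)) → ∀ n,
        |(kb F N L.K2 L.K3 (n + 1) : ℝ) / N.index - (L.lb F (N.comap L.iH) n : ℝ) / (N.comap L.iH).index| ≤
          (c : ℝ) / k := by
  obtain ⟨c, hc⟩ := VG.K_rank F L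
  refine ⟨2 * c, fun N _ _ k hk hN n => ?_⟩
  obtain ⟨h2, h3⟩ := hc N k hN
  have e2 := ye_close F L.iH N L.bd2 _ c k hk h2
  have e3 := ye_close F L.iH N L.bd3 _ c k hk h3
  have hpos : (0 : ℝ) < N.index := by
    exact_mod_cast Nat.pos_of_ne_zero (Subgroup.FiniteIndex.index_ne_zero (H := N))
  have hpos' : (0 : ℝ) < (N.comap L.iH).index := by
    exact_mod_cast Nat.pos_of_ne_zero (yr_fi L.iH N).index_ne_zero
  have hc0 : (0 : ℝ) ≤ (c : ℝ) / k := by positivity
  have hcc : ((2 * c : ℕ) : ℝ) / k = (c : ℝ) / k + (c : ℝ) / k := by push_cast; ring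
  rw [hcc]
  have hd : ∀ a : ℝ, a * N.index / N.index = a := fun a => by field_simp
  have hd' : ∀ a : ℝ, a * (N.comap L.iH).index / (N.comap L.iH).index = a := fun a => by field_simp
  rw [abs_le] at e2 e3 ⊢
  match n with
  | 0 =>
    simp only [kb, VG.lb, Nat.zero_add]
    push_cast
    rw [sub_div, sub_div, hd, hd']
    constructor <;> linarith [e2.1, e2.2]
  | 1 =>
    simp only [kb, VG.lb, Nat.reduceAdd]
    push_cast
    rw [sub_div, sub_div, sub_div, sub_div, hd, hd']
    constructor <;> linarith [e2.1, e2.2, e3.1, e3.2]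
  | 2 =>
    simp only [kb, VG.lb, Nat.reduceAdd]
    push_cast
    rw [sub_div, sub_div, hd, hd']
    constructor <;> linarith [e3.1, e3.2]
  | (n + 3) =>
    simp only [kb, VG.lb]
    push_cast
    rw [zero_div, zero_div, sub_zero]
    constructor <;> linarith

/-- the estimate in all degrees -/
theorem ye_est (F : Type w) [Field F] {H : Type} [Group H] (t : H) (ht : ∀ h, h * t = t * h) (L : VG H) {D : ℕ}
    (hD : 3 ≤ D) (R : FFR H D) {D' : ℕ} (T : FFR L.GG D') (n : ℕ) :
    ∃ c : ℕ, ∀ (N : Subgroup L.GG) [N.Normal] [N.FiniteIndex] (k : ℕ), 0 < k →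
      k ≤ orderOf (QuotientGroup.mk t : H ⧸ N.comap L.iH) →
      (∀ i, k ≤ orderOf (QuotientGroup.mk (L.X (1, i)) : L.GG ⧸ N)) →
        |(betti F T N n : ℝ) / N.index - (kb F N L.K2 L.K3 n : ℝ) / N.index| ≤ (c : ℝ) / k := by
  obtain ⟨T', hT'⟩ := res_all F L hD R
  refine ⟨Fintype.card (R.ι n) + Fintype.card (R.ι (n - 1)), fun N _ _ k hk hk1 _ => ?_⟩
  have h1 := hT' N n
  have h2 := bP_small F t ht L R N k hk1 n
  have h3 := bP_small F t ht L R N k hk1 (n - 1)
  rw [betti_indep F T T' N n]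
  have hpos : (0 : ℝ) < N.index := by
    exact_mod_cast Nat.pos_of_ne_zero (Subgroup.FiniteIndex.index_ne_zero (H := N))
  have hkR : (0 : ℝ) < k := by exact_mod_cast hk
  have h4 : (k : ℤ) * |(betti F T' N n : ℤ) - kb F N L.K2 L.K3 n| ≤
      ((Fintype.card (R.ι n) + Fintype.card (R.ι (n - 1)) : ℕ) : ℤ) * N.index := by
    calc (k : ℤ) * |(betti F T' N n : ℤ) - kb F N L.K2 L.K3 n| ≤ k * (bP F N R.ι (fun n => (R.d n).map (ind L.iH)) n +
        bP F N R.ι (fun n => (R.d n).map (ind L.iH)) (n - 1)) := mul_le_mul_of_nonneg_left h1 (Nat.cast_nonneg _)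
      _ ≤ _ := by
        push_cast
        linarith
  have hR : (k : ℝ) * |(betti F T' N n : ℝ) - kb F N L.K2 L.K3 n| ≤
      ((Fintype.card (R.ι n) + Fintype.card (R.ι (n - 1)) : ℕ) : ℝ) * N.index := by exact_mod_cast h4
  rw [← sub_div, abs_div, abs_of_pos hpos, div_le_div_iff₀ hpos hkR]
  linarith

/-- a resolution of length at most `D` is one of length at most `E ≥ D` -/
def FFR.up {G : Type} [Group G] {D : ℕ} (R : FFR G D) {E : ℕ} (h : D ≤ E) : FFR G E :=
  { R with len := fun n hn => R.len n (lt_of_le_of_lt h hn) }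

/-- homology growth of `RA ⋊ H` in all degrees -/
theorem growth_all (F : Type w) [Field F] {H : Type} [Group H] {D : ℕ} (R : FFR H D) (t : H)
    (ht : ∀ h, h * t = t * h) (ht' : ∀ k : ℕ, 0 < k → t ^ k ≠ 1) (L : VG H) {D' : ℕ} (T : FFR L.GG D')
    (C : Chain L.GG) :
    Filter.Tendsto (fun i => (betti F T (C.N i) 0 : ℝ) / (C.N i).index) Filter.atTop (nhds 0) ∧
    ∀ n, Filter.Tendsto (fun i => (betti F T (C.N i) (n + 1) : ℝ) / (C.N i).index -
      (L.lb F ((C.N i).comap L.iH) n : ℝ) / ((C.N i).comap L.iH).index) Filter.atTop (nhds 0) := by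
  have hev : ∀ k : ℕ, ∀ᶠ i in Filter.atTop,
      k ≤ orderOf (QuotientGroup.mk t : H ⧸ (C.N i).comap L.iH) ∧
        ∀ x, k ≤ orderOf (QuotientGroup.mk (L.X (1, x)) : L.GG ⧸ C.N i) := by
    intro k
    have h1 := ord_tendsto (C.trace L) t ht' k
    have h2 : ∀ᶠ i in Filter.atTop, ∀ x, k ≤ orderOf (QuotientGroup.mk (L.X (1, x)) : L.GG ⧸ C.N i) := by
      rw [Filter.eventually_all]
      exact fun x => ord_tendsto C (L.X (1, x)) (fun j hj => X_pow L _ j hj) k
    filter_upwards [h1, h2] with i h1 h2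
    exact ⟨h1, h2⟩
  have R' := R.up (le_max_left D 3)
  constructor
  · obtain ⟨c, hc⟩ := ye_est F t ht L (le_max_right D 3) R' T 0
    refine lim_aux c _ fun k hk => ?_
    filter_upwards [hev k] with i hi
    have e := hc (C.N i) k hk hi.1 hi.2
    simp only [kb, Int.cast_zero, zero_div, sub_zero] at e
    exact e
  · intro n
    obtain ⟨c, hc⟩ := ye_est F t ht L (le_max_right D 3) R' T (n + 1)
    obtain ⟨c', hc'⟩ := ye_kb F L
    refine lim_aux (c + c') _ fun k hk => ?_
    filter_upwards [hev k] with i hi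
    have e := hc (C.N i) k hk hi.1 hi.2
    have e' := hc' (C.N i) k hk hi.2 n
    rw [add_div]
    refine le_trans ?_ (add_le_add e e')
    exact abs_sub_le _ _ _

end NBT
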