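import Pool.Agent.Lib.MP_83fbc5_gt.IND

/-!
# MP_83fbc5_gt, module CONE: a resolution for `Γ × ℤ`

The new resolution is the mapping cone of multiplication by `z = t - 1`, `t` a generator of the factor `ℤ`, on the resolution
induced from `Γ`.
-/

set_option autoImplicit false

namespace NBT

open Matrix

universe w

section abstract

variable {S : Type w} [Ring S] {z : S} (hz : ∀ x, x * z = z * x)

include hz in
private theorem cone_comm {a b : Type} [Fintype a] [Fintype b] (A : Matrix a b S) (u : a → S) :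
    (u ᵥ* scal a z) ᵥ* A = (u ᵥ* A) ᵥ* scal b z := by
  rw [vecMul_scal, vecMul_scal]
  ext j
  simp only [Matrix.vecMul, dotProduct, Finset.sum_mul]
  refine Finset.sum_congr rfl fun i _ => ?_
  rw [mul_assoc, mul_assoc, hz]

include hz in
private theorem cone_mid {a b c e : Type} [Fintype a] [Fintype b] [Fintype c] (A : Matrix a b S) (B : Matrix b c S)
    (C : Matrix c e S) (h1 : ∀ u : b → S, u ᵥ* B = 0 ↔ ∃ v, v ᵥ* A = u)
    (h2 : ∀ u : c → S, u ᵥ* C = 0 ↔ ∃ v, v ᵥ* B = u) (u : b ⊕ c → S) :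
    u ᵥ* fromBlocks B 0 (scal c z) (-C) = 0 ↔ ∃ v : a ⊕ b → S, v ᵥ* fromBlocks A 0 (scal b z) (-B) = u := by
  rw [vecMul_fromBlocks]
  constructor
  · intro h
    have e1 : (u ∘ Sum.inl) ᵥ* B + (u ∘ Sum.inr) ᵥ* scal c z = 0 := by
      ext i; exact congrFun h (Sum.inl i)
    have e2 : (u ∘ Sum.inl) ᵥ* (0 : Matrix b e S) + (u ∘ Sum.inr) ᵥ* (-C) = 0 := by
      ext i; exact congrFun h (Sum.inr i)
    rw [vecMul_zero, zero_add, vecMul_neg, neg_eq_zero] at e2
    obtain ⟨s, hs⟩ := (h2 _).1 e2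
    have e3 : (u ∘ Sum.inl + s ᵥ* scal b z) ᵥ* B = 0 := by
      rw [add_vecMul, cone_comm hz, hs]
      exact e1
    obtain ⟨r, hr⟩ := (h1 _).1 e3
    refine ⟨Sum.elim r (-s), ?_⟩
    rw [vecMul_fromBlocks, Sum.elim_comp_inl, Sum.elim_comp_inr]
    ext i
    rcases i with i | i
    · rw [Sum.elim_inl, hr, neg_vecMul]
      simp
    · rw [Sum.elim_inr, vecMul_zero, zero_add, vecMul_neg, neg_vecMul, neg_neg, hs]
      rfl
  · rintro ⟨v, rfl⟩
    rw [vecMul_fromBlocks, Sum.elim_comp_inl, Sum.elim_comp_inr]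
    have hAB : ((v ∘ Sum.inl) ᵥ* A) ᵥ* B = 0 := (h1 _).2 ⟨_, rfl⟩
    have hBC : ((v ∘ Sum.inr) ᵥ* B) ᵥ* C = 0 := (h2 _).2 ⟨_, rfl⟩
    ext i
    rcases i with i | i
    · rw [Sum.elim_inl, add_vecMul, hAB, cone_comm hz, vecMul_zero, zero_add, zero_add, vecMul_neg, neg_vecMul,
        add_neg_cancel]
      rfl
    · rw [Sum.elim_inr, vecMul_zero, vecMul_zero, zero_add, zero_add, vecMul_neg, vecMul_neg, neg_vecMul, neg_neg,
        hBC]
      rfl

include hz in
private theorem cone_low {a b c : Type} [Fintype a] [Fintype b] [Fintype c] (A : Matrix a b S) (B : Matrix b c S)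
    (h1 : ∀ u : b → S, u ᵥ* B = 0 ↔ ∃ v, v ᵥ* A = u)
    (h2 : ∀ (s : c → S) (r : b → S), r ᵥ* B + s ᵥ* scal c z = 0 → ∃ v, v ᵥ* B = s) (u : b ⊕ c → S) :
    u ᵥ* fromRows B (scal c z) = 0 ↔ ∃ v : a ⊕ b → S, v ᵥ* fromBlocks A 0 (scal b z) (-B) = u := by
  rw [vecMul_fromRows]
  constructor
  · intro h
    obtain ⟨s, hs⟩ := h2 _ _ h
    have e3 : (u ∘ Sum.inl + s ᵥ* scal b z) ᵥ* B = 0 := by
      rw [add_vecMul, cone_comm hz, hs]
      exact h
    obtain ⟨r, hr⟩ := (h1 _).1 e3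
    refine ⟨Sum.elim r (-s), ?_⟩
    rw [vecMul_fromBlocks, Sum.elim_comp_inl, Sum.elim_comp_inr]
    ext i
    rcases i with i | i
    · rw [Sum.elim_inl, hr, neg_vecMul]
      simp
    · rw [Sum.elim_inr, vecMul_zero, zero_add, vecMul_neg, neg_vecMul, neg_neg, hs]
      rfl
  · rintro ⟨v, rfl⟩
    rw [vecMul_fromBlocks, Sum.elim_comp_inl, Sum.elim_comp_inr]
    have hAB : ((v ∘ Sum.inl) ᵥ* A) ᵥ* B = 0 := (h1 _).2 ⟨_, rfl⟩
    rw [add_vecMul, hAB, cone_comm hz, vecMul_zero, zero_add, zero_add, vecMul_neg, neg_vecMul, add_neg_cancel]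

end abstract

section trans

/-- translation -/
private noncomputable def Tr : (Multiplicative ℤ →₀ ℤ) →+ (Multiplicative ℤ →₀ ℤ) :=
  Finsupp.mapDomain.addMonoidHom fun a => a * Multiplicative.ofAdd 1

private theorem Tr_single (a : Multiplicative ℤ) (c : ℤ) :
    Tr (Finsupp.single a c) = Finsupp.single (a * Multiplicative.ofAdd 1) c := by
  simp [Tr, Finsupp.mapDomain_single]

private theorem Tr_fix (m : Multiplicative ℤ →₀ ℤ) (h : Tr m = m) : m = 0 := by
  by_contra hm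
  have hinj : Function.Injective fun a : Multiplicative ℤ => a * Multiplicative.ofAdd 1 :=
    mul_left_injective _
  have h1 : ∀ a, m (a * Multiplicative.ofAdd 1) = m a := by
    intro a
    conv_lhs => rw [← h]
    exact Finsupp.mapDomain_apply hinj m a
  obtain ⟨a, ha, hmax⟩ := Finset.exists_max_image m.support (fun a => Multiplicative.toAdd a)
    (Finsupp.support_nonempty_iff.2 hm)
  have h2 : a * Multiplicative.ofAdd 1 ∈ m.support := by
    rw [Finsupp.mem_support_iff, h1]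
    exact Finsupp.mem_support_iff.1 ha
  have h3 := hmax _ h2
  rw [toAdd_mul, toAdd_ofAdd] at h3
  omega

private theorem augM_add {A : Type} (a b : A →₀ ℤ) : augM (a + b) = augM a + augM b := by
  classical
  unfold augM
  exact Finsupp.sum_add_index' (fun _ => rfl) fun _ _ _ => rfl

private noncomputable def augH (A : Type) : (A →₀ ℤ) →+ ℤ := AddMonoidHom.mk' augM augM_add

private theorem augH_single {A : Type} (a : A) (c : ℤ) : augH A (Finsupp.single a c) = c := by
  change augM _ = c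
  unfold augM
  exact Finsupp.sum_single_index rfl

private theorem augH_Tr (m : Multiplicative ℤ →₀ ℤ) : augH _ (Tr m) = augH _ m := by
  have : (augH _).comp Tr = augH (Multiplicative ℤ) := by
    refine Finsupp.addHom_ext fun a c => ?_
    rw [AddMonoidHom.comp_apply, Tr_single, augH_single, augH_single]
  exact DFunLike.congr_fun this m

private theorem single_mem (k : ℤ) :
    Finsupp.single (Multiplicative.ofAdd k) (1 : ℤ) - Finsupp.single 1 1 ∈ (Tr - AddMonoidHom.id _).range := by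
  have step : ∀ k : ℤ, Finsupp.single (Multiplicative.ofAdd (k + 1)) (1 : ℤ) -
      Finsupp.single (Multiplicative.ofAdd k) 1 ∈ (Tr - AddMonoidHom.id _).range := by
    intro k
    refine ⟨Finsupp.single (Multiplicative.ofAdd k) 1, ?_⟩
    rw [AddMonoidHom.sub_apply, Tr_single, AddMonoidHom.id_apply, ofAdd_add]
  induction k using Int.induction_on with
  | zero =>
    rw [ofAdd_zero, sub_self]
    exact zero_mem _
  | succ i ih =>
    have := add_mem (step i) ih
    rwa [sub_add_sub_cancel] at this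
  | pred i ih =>
    have h := step (-(i : ℤ) - 1)
    rw [sub_add_cancel] at h
    have := sub_mem ih h
    rwa [sub_sub_sub_cancel_left] at this

private theorem mem_of_aug (m : Multiplicative ℤ →₀ ℤ) (h : augM m = 0) :
    ∃ m', Tr m' - m' = m := by
  have key : ∀ m : Multiplicative ℤ →₀ ℤ, m - augH _ m • Finsupp.single 1 (1 : ℤ) ∈ (Tr - AddMonoidHom.id _).range := by
    intro m
    induction m using Finsupp.induction_linear with
    | zero => simp only [map_zero, zero_smul, sub_zero]; exact zero_mem _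
    | add a b ha hb =>
      rw [map_add, add_smul, add_sub_add_comm]
      exact add_mem ha hb
    | single a c =>
      rw [augH_single]
      have h1 := AddSubgroup.zsmul_mem _ (single_mem (Multiplicative.toAdd a)) c
      rw [ofAdd_toAdd, smul_sub, Finsupp.smul_single, smul_eq_mul, mul_one] at h1
      exact h1
  have h1 := key m
  have h2 : augH _ m = 0 := h
  rw [h2, zero_smul, sub_zero] at h1
  obtain ⟨m', hm'⟩ := h1
  exact ⟨m', hm'⟩

end trans

section data

variable {Γ : Type} [Group Γ] {D : ℕ} (R : FFR Γ D)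

private def cι : ℕ → Type
  | 0 => R.ι 0
  | n + 1 => R.ι (n + 1) ⊕ R.ι n

private instance cfin : ∀ n, Fintype (cι R n)
  | 0 => inferInstanceAs (Fintype (R.ι 0))
  | n + 1 => inferInstanceAs (Fintype (R.ι (n + 1) ⊕ R.ι n))

private abbrev ct (Γ : Type) [Group Γ] : Γ × Multiplicative ℤ := (1, Multiplicative.ofAdd 1)

private noncomputable abbrev cz (Γ : Type) [Group Γ] : MonoidAlgebra ℤ (Γ × Multiplicative ℤ) := el (ct Γ) - 1

private noncomputable abbrev cf (Γ : Type) [Group Γ] :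
    MonoidAlgebra ℤ Γ →+* MonoidAlgebra ℤ (Γ × Multiplicative ℤ) := ind (MonoidHom.inl Γ (Multiplicative ℤ))

private theorem cz_comm (x : MonoidAlgebra ℤ (Γ × Multiplicative ℤ)) : x * cz Γ = cz Γ * x := by
  have h : x * el (ct Γ) = el (ct Γ) * x := by
    refine zg_ind (P := fun x => x * el (ct Γ) = el (ct Γ) * x) ?_ ?_ ?_ ?_ x
    · simp
    · intro g
      rw [← el_mul, ← el_mul]
      congr 1
      rw [Prod.ext_iff]
      exact ⟨by simp [ct], mul_comm _ _⟩
    · intro x y hx hy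
      rw [add_mul, mul_add, hx, hy]
    · intro x hx
      rw [neg_mul, mul_neg, hx]
  rw [mul_sub, sub_mul, h, mul_one, one_mul]

private noncomputable def cd : ∀ n, Matrix (cι R (n + 1)) (cι R n) (MonoidAlgebra ℤ (Γ × Multiplicative ℤ))
  | 0 => fromRows ((R.d 0).map (cf Γ)) (scal (R.ι 0) (cz Γ))
  | n + 1 => fromBlocks ((R.d (n + 1)).map (cf Γ)) 0 (scal (R.ι (n + 1)) (cz Γ)) (-((R.d n).map (cf Γ)))

private theorem cone_pf (x : MonoidAlgebra ℤ (Γ × Multiplicative ℤ)) :
    pf Prod.snd (x * cz Γ) = Tr (pf Prod.snd x) - pf Prod.snd x := by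
  refine zg_ind (P := fun x : MonoidAlgebra ℤ (Γ × Multiplicative ℤ) =>
    pf Prod.snd (x * cz Γ) = Tr (pf Prod.snd x) - pf Prod.snd x) ?_ ?_ ?_ ?_ x
  · simp [pf_zero]
  · intro g
    have e : el g * cz Γ = el (g * ct Γ) + -el g := by
      rw [mul_sub, mul_one, el_mul, sub_eq_add_neg]
    have hn : pf (Prod.snd : Γ × Multiplicative ℤ → _) (-el g) = -pf Prod.snd (el g) := by
      have := pf_add (Prod.snd : Γ × Multiplicative ℤ → _) (el g) (-el g)
      rw [add_neg_cancel, pf_zero] at this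
      exact eq_neg_of_add_eq_zero_right this.symm
    rw [e, pf_add, hn, pf_el, pf_el, Tr_single, sub_eq_add_neg]
    rfl
  · intro x y hx hy
    rw [add_mul, pf_add, pf_add, hx, hy, map_add]
    abel
  · intro x hx
    have hn : ∀ y : MonoidAlgebra ℤ (Γ × Multiplicative ℤ), pf Prod.snd (-y) = -pf Prod.snd y := by
      intro y
      have := pf_add (Prod.snd : Γ × Multiplicative ℤ → _) y (-y)
      rw [add_neg_cancel, pf_zero] at this
      exact eq_neg_of_add_eq_zero_right this.symm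
    rw [neg_mul, hn, hn, hx, map_neg]
    abel

private noncomputable def cE : (R.ι 0 → MonoidAlgebra ℤ (Γ × Multiplicative ℤ)) →+ (Multiplicative ℤ →₀ ℤ) :=
  AddMonoidHom.mk' (eP Prod.snd R.aug) (eP_add _ _)

private theorem cE_scal (s : R.ι 0 → MonoidAlgebra ℤ (Γ × Multiplicative ℤ)) :
    cE R (s ᵥ* scal (R.ι 0) (cz Γ)) = Tr (cE R s) - cE R s := by
  rw [vecMul_scal]
  change eP _ _ _ = Tr (eP _ _ _) - eP _ _ _
  unfold eP
  rw [map_sum, ← Finset.sum_sub_distrib]
  refine Finset.sum_congr rfl fun i _ => ?_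
  rw [cone_pf, map_zsmul, smul_sub]

private theorem cE_aug (u : R.ι 0 → MonoidAlgebra ℤ (Γ × Multiplicative ℤ)) :
    augH _ (cE R u) = ∑ i, eps (Γ × Multiplicative ℤ) (u i) * R.aug i := by
  change augH _ (eP _ _ _) = _
  unfold eP
  rw [map_sum]
  refine Finset.sum_congr rfl fun i _ => ?_
  rw [map_zsmul, smul_eq_mul, mul_comm]
  congr 1
  refine zg_ind (P := fun x : MonoidAlgebra ℤ (Γ × Multiplicative ℤ) =>
    augH _ (pf Prod.snd x) = eps (Γ × Multiplicative ℤ) x) ?_ ?_ ?_ ?_ (u i)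
  · rw [pf_zero, map_zero, map_zero]
  · intro g
    rw [pf_el, augH_single, eps_el]
  · intro x y hx hy
    rw [pf_add, map_add, map_add, hx, hy]
  · intro x hx
    have hn : pf (Prod.snd : Γ × Multiplicative ℤ → _) (-x) = -pf Prod.snd x := by
      have := pf_add (Prod.snd : Γ × Multiplicative ℤ → _) x (-x)
      rw [add_neg_cancel, pf_zero] at this
      exact eq_neg_of_add_eq_zero_right this.symm
    rw [hn, map_neg, map_neg, hx]

private theorem cinj : Function.Injective (MonoidHom.inl Γ (Multiplicative ℤ)) := fun _ _ h => congrArg Prod.fst h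

private theorem cpi (g g' : Γ × Multiplicative ℤ) :
    g.2 = g'.2 ↔ ∃ h, g' = g * MonoidHom.inl Γ (Multiplicative ℤ) h := by
  constructor
  · intro h
    refine ⟨g.1⁻¹ * g'.1, ?_⟩
    rw [Prod.ext_iff]
    simp [h]
  · rintro ⟨h, rfl⟩
    simp

private theorem cker (u : R.ι 0 → MonoidAlgebra ℤ (Γ × Multiplicative ℤ)) :
    cE R u = 0 ↔ ∃ v, v ᵥ* (R.d 0).map (cf Γ) = u :=
  ind_exact0 (MonoidHom.inl Γ (Multiplicative ℤ)) cinj Prod.snd cpi R.aug (R.d 0) R.exact0 u

private theorem csurj (m : Multiplicative ℤ →₀ ℤ) : ∃ u, cE R u = m :=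
  ind_surj (MonoidHom.inl Γ (Multiplicative ℤ)) Prod.snd (fun a => ⟨(1, a), rfl⟩) cpi R.aug R.surj m

private theorem cexact (n : ℕ) (u : R.ι (n + 1) → MonoidAlgebra ℤ (Γ × Multiplicative ℤ)) :
    u ᵥ* (R.d n).map (cf Γ) = 0 ↔ ∃ v, v ᵥ* (R.d (n + 1)).map (cf Γ) = u :=
  ind_exact (MonoidHom.inl Γ (Multiplicative ℤ)) cinj (R.d n) (R.d (n + 1)) (R.exact n) u

private theorem clow (s : R.ι 0 → MonoidAlgebra ℤ (Γ × Multiplicative ℤ))
    (r : R.ι 1 → MonoidAlgebra ℤ (Γ × Multiplicative ℤ))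
    (h : r ᵥ* (R.d 0).map (cf Γ) + s ᵥ* scal (R.ι 0) (cz Γ) = 0) :
    ∃ v, v ᵥ* (R.d 0).map (cf Γ) = s := by
  have h1 := congrArg (cE R) h
  rw [map_add, map_zero, (cker R _).2 ⟨r, rfl⟩, zero_add, cE_scal] at h1
  exact (cker R s).1 (Tr_fix _ (sub_eq_zero.1 h1))

private theorem czero (u : R.ι 0 → MonoidAlgebra ℤ (Γ × Multiplicative ℤ)) :
    ∑ i, eps (Γ × Multiplicative ℤ) (u i) * R.aug i = 0 ↔ ∃ v : R.ι 1 ⊕ R.ι 0 → MonoidAlgebra ℤ (Γ × Multiplicative ℤ),
      v ᵥ* fromRows ((R.d 0).map (cf Γ)) (scal (R.ι 0) (cz Γ)) = u := by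
  rw [← cE_aug R u]
  constructor
  · intro h
    obtain ⟨m, hm⟩ := mem_of_aug _ h
    obtain ⟨s, rfl⟩ := csurj R m
    have h1 : cE R (u - s ᵥ* scal (R.ι 0) (cz Γ)) = 0 := by
      rw [map_sub, cE_scal, hm, sub_self]
    obtain ⟨r, hr⟩ := (cker R _).1 h1
    refine ⟨Sum.elim r s, ?_⟩
    rw [vecMul_fromRows, Sum.elim_comp_inl, Sum.elim_comp_inr, hr]
    exact sub_add_cancel _ _
  · rintro ⟨v, rfl⟩
    rw [vecMul_fromRows, map_add, (cker R _).2 ⟨_, rfl⟩, zero_add, cE_scal, map_sub, augH_Tr, sub_self]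

private theorem csurj1 : ∃ u : R.ι 0 → MonoidAlgebra ℤ (Γ × Multiplicative ℤ),
    ∑ i, eps (Γ × Multiplicative ℤ) (u i) * R.aug i = 1 := by
  obtain ⟨u, hu⟩ := csurj R (Finsupp.single 1 1)
  refine ⟨u, ?_⟩
  rw [← cE_aug R u, hu, augH_single]

end data

theorem cone {Γ : Type} [Group Γ] {D : ℕ} (R : FFR Γ D) : Nonempty (FFR (Γ × Multiplicative ℤ) (D + 1)) := by
  refine ⟨{ ι := cι R, fin := cfin R, d := cd R, aug := (R.aug : cι R 0 → ℤ), len := ?_, exact := ?_, exact0 := ?_, surj := ?_ }⟩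
  · intro n hn
    cases n with
    | zero => omega
    | succ n =>
      have h1 := R.len (n + 1) (by omega)
      have h2 := R.len n (by omega)
      change IsEmpty (R.ι (n + 1) ⊕ R.ι n)
      infer_instance
  · intro n u
    cases n with
    | zero => exact cone_low cz_comm _ _ (cexact R 0) (clow R) u
    | succ n => exact cone_mid cz_comm _ _ _ (cexact R (n + 1)) (cexact R n) u
  · exact fun u => czero R u
  · exact csurj1 R

end NBT
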