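import Pool.Agent.Lib.MP_83fbc5_gt.Basic

/-!
# MP_83fbc5_gt, module FPP: `Γ × ℤ` is finitely presented if `Γ` is
-/

set_option autoImplicit false

namespace NBT

theorem fp_prod {Γ : Type} [Group Γ] (h : Group.IsFinitelyPresented Γ) :
    Group.IsFinitelyPresented (Γ × Multiplicative ℤ) := by
  obtain ⟨n, φ, hφ, _⟩ := h.out
  set τ : Multiplicative ℤ := Multiplicative.ofAdd 1 with hτ
  let f : Monoid.Coprod Γ (Multiplicative ℤ) →* Γ × Multiplicative ℤ := Monoid.Coprod.toProd
  have hfl : ∀ g : Γ, f (Monoid.Coprod.inl g) = (g, 1) := fun g => rfl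
  have hfr : ∀ a : Multiplicative ℤ, f (Monoid.Coprod.inr a) = (1, a) := fun a => rfl
  have hf : Function.Surjective f := by
    intro x
    refine ⟨Monoid.Coprod.inl x.1 * Monoid.Coprod.inr x.2, ?_⟩
    rw [map_mul, hfl, hfr]
    simp
  let c : Γ → Monoid.Coprod Γ (Multiplicative ℤ) := fun g => Monoid.Coprod.inl g * Monoid.Coprod.inr τ * (Monoid.Coprod.inl g)⁻¹ *
    (Monoid.Coprod.inr τ)⁻¹
  let S : Set (Monoid.Coprod Γ (Multiplicative ℤ)) := Set.range fun i : Fin n => c (φ (FreeGroup.of i))
  refine Group.IsFinitelyPresented.of_surjective f hf ⟨S, Set.finite_range _, ?_⟩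
  apply le_antisymm
  · apply Subgroup.normalClosure_le_normal
    rintro _ ⟨i, rfl⟩
    rw [SetLike.mem_coe, MonoidHom.mem_ker]
    simp only [c, map_mul, map_inv, hfl, hfr]
    ext <;> simp
  · set W := Subgroup.normalClosure S with hW
    let q : Monoid.Coprod Γ (Multiplicative ℤ) →* Monoid.Coprod Γ (Multiplicative ℤ) ⧸ W := QuotientGroup.mk' W
    -- the image of `t` commutes with the image of `Γ`
    have hc1 : ∀ g : Γ, Commute (q (Monoid.Coprod.inl g)) (q (Monoid.Coprod.inr τ)) := by
      have hcl : (⊤ : Subgroup (FreeGroup (Fin n))) ≤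
          (Subgroup.centralizer {q (Monoid.Coprod.inr τ)}).comap (q.comp (Monoid.Coprod.inl.comp φ)) := by
        rw [← FreeGroup.closure_range_of, Subgroup.closure_le]
        rintro _ ⟨i, rfl⟩
        rw [SetLike.mem_coe, Subgroup.mem_comap, Subgroup.mem_centralizer_singleton_iff]
        have h1 : q (c (φ (FreeGroup.of i))) = 1 := by
          rw [← MonoidHom.mem_ker, QuotientGroup.ker_mk']
          exact Subgroup.subset_normalClosure ⟨i, rfl⟩
        simp only [c, map_mul, map_inv] at h1
        rw [mul_inv_eq_one, mul_inv_eq_iff_eq_mul] at h1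
        exact h1
      intro g
      obtain ⟨w, rfl⟩ := hφ g
      have h1 := hcl (Subgroup.mem_top w)
      rw [Subgroup.mem_comap, Subgroup.mem_centralizer_singleton_iff] at h1
      exact h1
    have hc2 : ∀ (g : Γ) (a : Multiplicative ℤ),
        Commute ((q.comp Monoid.Coprod.inl) g) ((q.comp Monoid.Coprod.inr) a) := by
      intro g a
      have ha : a = τ ^ (Multiplicative.toAdd a) := by
        rw [hτ, ← ofAdd_zsmul, smul_eq_mul, mul_one, ofAdd_toAdd]
      rw [ha, map_zpow]
      exact (hc1 g).zpow_right _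
    let F' : Γ × Multiplicative ℤ →* Monoid.Coprod Γ (Multiplicative ℤ) ⧸ W := MonoidHom.noncommCoprod _ _ hc2
    have hF : F'.comp f = q := by
      apply Monoid.Coprod.hom_ext
      · ext g
        simp only [MonoidHom.comp_apply, hfl]
        simp [F', MonoidHom.noncommCoprod_apply]
      · refine MonoidHom.ext fun a => ?_
        simp only [MonoidHom.comp_apply, hfr]
        simp [F', MonoidHom.noncommCoprod_apply]
    intro x hx
    rw [MonoidHom.mem_ker] at hx
    have h1 : q x = 1 := by
      rw [← hF, MonoidHom.comp_apply, hx, map_one]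
    rw [← MonoidHom.mem_ker, QuotientGroup.ker_mk'] at h1
    exact h1

end NBT
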