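import Pool.Agent.Lib.MP_83fbc5_gt.IND
import Pool.Agent.Lib.MP_83fbc5_gt.CONE
import Pool.Agent.Lib.MP_83fbc5_gt.FPP

/-!
# MP_83fbc5_gt, module YT: resolutions of the free abelian groups

PROOF. `ffr_equiv`: for an isomorphism `e : G ≃* G'` put `ι' = ι`, `d' n = (d n).map (ind e)`, `aug' = aug`; exactness in positive degrees by `ind_exact` (`e` injective), in degree 0 by `ind_exact0` with `π : G' → Unit` (`π g = π g'` iff `g' = g * e h` for some `h`, true for all `g, g'`) and `augM`: `eP π aug u = 0` iff `∑ eps (u i) * aug i = 0` (the value at `()`: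
`augM_eP`-like; `pf π x = single () (eps x)`); `surj`: apply `ind e`. `ffr_zero` (trivial group, or `Zd 0`): `ι 0 = Unit`, `ι (n+1) = Empty`, `aug = 1`: `exact0`: `eps : ℤ[1] → ℤ` is injective for a trivial group (`Zd 0` is a subsingleton). `ffr_zd`: induction on `d` with `CONE.cone` and `Zd (d+1) ≃* Zd d × Multiplicative ℤ`
(`Fin.consEquiv`/`Fin.initEquiv`, `Pi`, additive equivalence `(Fin (d+1) → ℤ) ≃+ (Fin d → ℤ) × ℤ`, `AddEquiv.toMultiplicative`). `fp_zd`: induction with `fp_prod` (module `FPP`, import it) and `Group.IsFinitelyPresented.equiv`; `Zd 0` is finite.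
(75-100 minutes)
-/

set_option autoImplicit false

namespace NBT

open Matrix

/-! ### Isomorphic groups -/

section equiv

variable {G G' : Type} [Group G] [Group G'] (e : G ≃* G')

theorem YT_ind_ind (x : MonoidAlgebra ℤ G) : ind e.symm.toMonoidHom (ind e.toMonoidHom x) = x := by
  refine zg_ind (P := fun x => ind e.symm.toMonoidHom (ind e.toMonoidHom x) = x) ?_ ?_ ?_ ?_ x
  · rw [map_zero, map_zero]
  · intro g
    rw [ind_el, ind_el]
    congr 1
    exact e.symm_apply_apply g
  · intro x y hx hy
    rw [map_add, map_add, hx, hy]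
  · intro x hx
    rw [map_neg, map_neg, hx]

theorem YT_ind_ind' (x : MonoidAlgebra ℤ G') : ind e.toMonoidHom (ind e.symm.toMonoidHom x) = x := by
  refine zg_ind (P := fun x => ind e.toMonoidHom (ind e.symm.toMonoidHom x) = x) ?_ ?_ ?_ ?_ x
  · rw [map_zero, map_zero]
  · intro g
    rw [ind_el, ind_el]
    congr 1
    exact e.apply_symm_apply g
  · intro x y hx hy
    rw [map_add, map_add, hx, hy]
  · intro x hx
    rw [map_neg, map_neg, hx]

theorem YT_eps_ind {H : Type} [Group H] (f : G →* H) (x : MonoidAlgebra ℤ G) : eps H (ind f x) = eps G x := by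
  refine zg_ind (P := fun x => eps H (ind f x) = eps G x) ?_ ?_ ?_ ?_ x
  · rw [map_zero, map_zero, map_zero]
  · intro g
    rw [ind_el, eps_el, eps_el]
  · intro x y hx hy
    rw [map_add, map_add, hx, hy, map_add]
  · intro x hx
    rw [map_neg, map_neg, hx, map_neg]

theorem YT_map_vecMul {m n : Type} [Fintype m] (v : m → MonoidAlgebra ℤ G) (A : Matrix m n (MonoidAlgebra ℤ G))
    (j : n) : ((fun i => ind e.toMonoidHom (v i)) ᵥ* A.map (ind e.toMonoidHom)) j = ind e.toMonoidHom ((v ᵥ* A) j) := by
  show ∑ i, ind e.toMonoidHom (v i) * ind e.toMonoidHom (A i j) = ind e.toMonoidHom (∑ i, v i * A i j)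
  rw [map_sum]
  exact Finset.sum_congr rfl fun i _ => (map_mul _ _ _).symm

end equiv

theorem ffr_equiv {G G' : Type} [Group G] [Group G'] (e : G ≃* G') {D : ℕ} (R : FFR G D) : Nonempty (FFR G' D) := by
  refine ⟨{ ι := R.ι, fin := R.fin, d := fun n => (R.d n).map (ind e.toMonoidHom), aug := R.aug, len := R.len,
            exact := ?_, exact0 := ?_, surj := ?_ }⟩
  · intro n u
    exact ind_exact e.toMonoidHom e.injective (R.d n) (R.d (n + 1)) (R.exact n) u
  · intro u
    have h1 : ∑ i, eps G' (u i) * R.aug i = ∑ i, eps G (ind e.symm.toMonoidHom (u i)) * R.aug i :=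
      Finset.sum_congr rfl fun i _ => by rw [YT_eps_ind]
    rw [h1, R.exact0]
    constructor
    · rintro ⟨v, hv⟩
      refine ⟨fun i => ind e.toMonoidHom (v i), ?_⟩
      funext j
      rw [YT_map_vecMul, hv, YT_ind_ind']
    · rintro ⟨v, hv⟩
      refine ⟨fun i => ind e.symm.toMonoidHom (v i), ?_⟩
      funext j
      have h2 := congrFun hv j
      have h3 : v = fun i => ind e.toMonoidHom (ind e.symm.toMonoidHom (v i)) := by
        funext i
        rw [YT_ind_ind']
      rw [h3, YT_map_vecMul] at h2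
      rw [← h2, YT_ind_ind]
  · obtain ⟨u, hu⟩ := R.surj
    refine ⟨fun i => ind e.toMonoidHom (u i), ?_⟩
    rw [← hu]
    exact Finset.sum_congr rfl fun i _ => by rw [YT_eps_ind]

/-! ### The trivial group -/

/-- the labels of the resolution of the trivial group -/
def YT_ι : ℕ → Type
  | 0 => Unit
  | _ + 1 => Empty

instance YT_fin : ∀ n, Fintype (YT_ι n)
  | 0 => inferInstanceAs (Fintype Unit)
  | _ + 1 => inferInstanceAs (Fintype Empty)

theorem YT_empty (n : ℕ) : IsEmpty (YT_ι (n + 1)) := inferInstanceAs (IsEmpty Empty)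

theorem YT_eps_zero {G : Type} [Group G] (hG : ∀ g : G, g = 1) (x : MonoidAlgebra ℤ G) (hx : eps G x = 0) :
    x = 0 := by
  have h1 : ∀ x : MonoidAlgebra ℤ G, x = MonoidAlgebra.single 1 (eps G x) := by
    intro x
    refine zg_ind (P := fun x => x = MonoidAlgebra.single 1 (eps G x)) ?_ ?_ ?_ ?_ x
    · rw [map_zero, MonoidAlgebra.single_zero]
    · intro g
      rw [eps_el, hG g]
    · intro x y hx hy
      rw [map_add, MonoidAlgebra.single_add, ← hx, ← hy]
    · intro x hx
      rw [map_neg, MonoidAlgebra.single_neg, ← hx]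
  rw [h1 x, hx, MonoidAlgebra.single_zero]

theorem YT_vm {R m n : Type} [Ring R] [Fintype m] (h : IsEmpty m) (v : m → R) (A : Matrix m n R) : v ᵥ* A = 0 :=
  funext fun _ => Finset.sum_eq_zero fun i _ => h.elim i

theorem YT_zero {G : Type} [Group G] (hG : ∀ g : G, g = 1) : Nonempty (FFR G 0) := by
  refine ⟨{ ι := YT_ι, fin := YT_fin, d := fun n => Matrix.of fun i _ => (YT_empty n).elim i,
            aug := fun _ => 1, len := ?_, exact := ?_, exact0 := ?_, surj := ?_ }⟩
  · intro n hn
    cases n with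
    | zero => exact absurd hn (lt_irrefl 0)
    | succ n => exact YT_empty n
  · intro n u
    have h1 : ∀ w w' : YT_ι (n + 1) → MonoidAlgebra ℤ G, w = w' := fun w w' => funext fun i => (YT_empty n).elim i
    constructor
    · intro _
      exact ⟨fun i => (YT_empty (n + 1)).elim i, h1 _ _⟩
    · intro _
      exact YT_vm (YT_empty n) _ _
  · intro u
    have h2 : ∑ i : YT_ι 0, eps G (u i) * 1 = eps G (u ()) := by
      show ∑ i : Unit, eps G (u i) * 1 = eps G (u ())
      rw [Fintype.sum_unique]
      exact mul_one _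
    have h3 : ∀ v : YT_ι (0 + 1) → MonoidAlgebra ℤ G,
        (v ᵥ* (Matrix.of fun i _ => (YT_empty 0).elim i : Matrix (YT_ι (0 + 1)) (YT_ι 0) (MonoidAlgebra ℤ G))) = 0 := by
      intro v
      exact YT_vm (YT_empty 0) _ _
    rw [h2]
    constructor
    · intro h
      refine ⟨fun i => (YT_empty 0).elim i, ?_⟩
      rw [h3]
      funext j
      cases j
      exact (YT_eps_zero hG _ h).symm
    · rintro ⟨v, hv⟩
      rw [h3] at hv
      rw [← hv]
      exact map_zero _
  · refine ⟨fun _ => 1, ?_⟩
    show ∑ i : Unit, eps G 1 * 1 = 1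
    rw [Fintype.sum_unique, map_one, mul_one]

/-! ### Free abelian groups -/

/-- splitting off the last coordinate -/
def YT_snoc (d : ℕ) : Multiplicative (Fin d → ℤ) × Multiplicative ℤ ≃* Multiplicative (Fin (d + 1) → ℤ) where
  toFun p := Multiplicative.ofAdd (Fin.snoc (α := fun _ => ℤ) (Multiplicative.toAdd p.1) (Multiplicative.toAdd p.2))
  invFun f := (Multiplicative.ofAdd fun i => Multiplicative.toAdd f i.castSucc,
    Multiplicative.ofAdd (Multiplicative.toAdd f (Fin.last d)))
  left_inv p := by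
    apply Prod.ext
    · apply Multiplicative.toAdd.injective
      funext i
      exact Fin.snoc_castSucc (α := fun _ => ℤ) _ _ i
    · apply Multiplicative.toAdd.injective
      exact Fin.snoc_last (α := fun _ => ℤ) _ _
  right_inv f := by
    apply Multiplicative.toAdd.injective
    funext i
    refine Fin.lastCases ?_ (fun i => ?_) i
    · exact Fin.snoc_last (α := fun _ => ℤ) _ _
    · exact Fin.snoc_castSucc (α := fun _ => ℤ) _ _ i
  map_mul' p q := by
    apply Multiplicative.toAdd.injective
    funext i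
    refine Fin.lastCases ?_ (fun i => ?_) i
    · refine (Fin.snoc_last (α := fun _ => ℤ) _ _).trans ?_
      refine Eq.trans ?_ (congrArg₂ (· + ·) (Fin.snoc_last (α := fun _ => ℤ) _ _).symm
        (Fin.snoc_last (α := fun _ => ℤ) _ _).symm)
      rfl
    · refine (Fin.snoc_castSucc (α := fun _ => ℤ) _ _ i).trans ?_
      refine Eq.trans ?_ (congrArg₂ (· + ·) (Fin.snoc_castSucc (α := fun _ => ℤ) _ _ i).symm
        (Fin.snoc_castSucc (α := fun _ => ℤ) _ _ i).symm)
      rfl

theorem YT_triv (g : Multiplicative (Fin 0 → ℤ)) : g = 1 := by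
  apply Multiplicative.toAdd.injective
  funext i
  exact i.elim0

theorem ffr_zd (d : ℕ) : Nonempty (FFR (Multiplicative (Fin d → ℤ)) d) := by
  induction d with
  | zero => exact YT_zero YT_triv
  | succ d ih =>
    obtain ⟨R⟩ := ih
    obtain ⟨R'⟩ := cone R
    exact ffr_equiv (YT_snoc d) R'

theorem fp_zd (d : ℕ) : Group.IsFinitelyPresented (Multiplicative (Fin d → ℤ)) := by
  induction d with
  | zero =>
    have h : Subsingleton (Multiplicative (Fin 0 → ℤ)) := ⟨fun a b => by rw [YT_triv a, YT_triv b]⟩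
    have : Finite (Multiplicative (Fin 0 → ℤ)) := Finite.of_subsingleton
    infer_instance
  | succ d ih =>
    have := fp_prod ih
    exact Group.IsFinitelyPresented.equiv (YT_snoc d)

end NBT
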