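import Pool.Agent.Lib.MP_83fbc5_gt.YDefs

/-!
# MP_83fbc5_gt, module ZD: minors and factorizations over a domain

PROOF. `R` is a commutative domain, `K` its field of fractions, `A` an `n × m` matrix over `R`, `r` its rank over `K`. (a) There are injections `i : Fin r → n`, `j : Fin r → m` such that the minor `M = A.submatrix i j` has `det ≠ 0` (choose `r` linearly independent rows over `K`, then `r` linearly independent columns of the submatrix; Mathlib:
`Matrix.rank_submatrix`, `LinearIndependent`, `exists_linearIndependent`-type lemmas, `Matrix.exists_submatrix_rank`-like if available). With `U` = the selection matrix of the rows and `W` = (selection of the columns) * adjugate of `M`: `U * A * W = det M • 1`. (b) Over `K` `A = B' * C'` with `B' : n × r`, `C' : r × m` (rank factorization: columns of `B'` = a basis of the column space). Clear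
denominators: `B' = B / g1`, `C' = C / g2` (`IsLocalization.exist_integer_multiples_of_finset`), `g = g1 g2 ≠ 0`, `g • A = B * C` over `R` (injectivity of `R → K`).
(60-90 minutes)
-/

set_option autoImplicit false

namespace NBT

open Matrix

universe w

private theorem ZD_scal {S : Type w} [CommRing S] {n : Type} [DecidableEq n] (s : S) :
    scal n s = s • (1 : Matrix n n S) := by
  ext i j
  unfold scal
  rw [Matrix.of_apply, Matrix.smul_apply, Matrix.one_apply, smul_eq_mul]
  by_cases h : i = j
  · subst h
    rw [if_pos rfl, mul_one]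
    exact @Pi.single_eq_same n (fun _ => S) _ (fun a b => Classical.propDecidable (a = b)) i s
  · rw [if_neg h, mul_zero]
    exact @Pi.single_eq_of_ne n (fun _ => S) _ (fun a b => Classical.propDecidable (a = b)) i j
      (fun h' => h h'.symm) s

private theorem ZD_smul_one_map {S S' : Type w} [CommRing S] [CommRing S'] (φ : S →+* S')
    {n : Type} [DecidableEq n] (s : S) :
    (s • (1 : Matrix n n S)).map φ = φ s • (1 : Matrix n n S') := by
  ext i j
  rw [Matrix.map_apply, Matrix.smul_apply, Matrix.smul_apply, Matrix.one_apply, Matrix.one_apply,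
    smul_eq_mul, smul_eq_mul]
  by_cases h : i = j
  · rw [if_pos h, if_pos h, mul_one, mul_one]
  · rw [if_neg h, if_neg h, mul_zero, mul_zero, map_zero]

private theorem ZD_field {K : Type w} [Field K] {n m : Type} [Fintype n] [Fintype m]
    [DecidableEq n] [DecidableEq m] (A : Matrix n m K) :
    ∃ (U : Matrix (Fin A.rank) n K) (W : Matrix m (Fin A.rank) K) (B : Matrix n (Fin A.rank) K)
      (C : Matrix (Fin A.rank) m K), U * A * W = 1 ∧ A = B * C := by
  have hfr : Module.finrank K (LinearMap.range A.mulVecLin) = A.rank := rfl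
  let b := Module.finBasisOfFinrankEq K (LinearMap.range A.mulVecLin) hfr
  have hpre : ∀ j, ∃ v, A.mulVecLin v = (b j : n → K) := fun j => (b j).2
  choose v hv using hpre
  let B : Matrix n (Fin A.rank) K := Matrix.of fun i j => (b j : n → K) i
  let W : Matrix m (Fin A.rank) K := Matrix.of fun k j => v j k
  have hsum : ∀ (c : Fin A.rank → K) (i : n), (B *ᵥ c) i =
      ((∑ j, c j • b j : LinearMap.range A.mulVecLin) : n → K) i := by
    intro c i
    rw [Submodule.coe_sum, Finset.sum_apply]
    show ∑ j, B i j * c j = _
    refine Finset.sum_congr rfl fun j _ => ?_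
    show (b j : n → K) i * c j = (c j • (b j : n → K)) i
    rw [Pi.smul_apply, smul_eq_mul, mul_comm]
  have hker : LinearMap.ker (Matrix.toLin' B) = ⊥ := by
    rw [LinearMap.ker_eq_bot']
    intro c hc
    have h1 : (∑ j, c j • b j : LinearMap.range A.mulVecLin) = 0 := by
      apply Subtype.ext
      funext i
      rw [← hsum c i]
      exact congrFun hc i
    funext j
    exact Fintype.linearIndependent_iff.1 b.linearIndependent c h1 j
  obtain ⟨g, hg⟩ := LinearMap.exists_leftInverse_of_injective (Matrix.toLin' B) hker
  have hUB : LinearMap.toMatrix' g * B = 1 := by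
    have h := congrArg LinearMap.toMatrix' hg
    rwa [LinearMap.toMatrix'_comp, LinearMap.toMatrix'_toLin', LinearMap.toMatrix'_id] at h
  have hAW : A * W = B := by
    ext i j
    have h := congrFun (hv j) i
    rw [Matrix.mulVecLin_apply] at h
    exact h
  let C : Matrix (Fin A.rank) m K := Matrix.of fun j k =>
    b.repr ⟨A.mulVecLin (Pi.single k 1), LinearMap.mem_range_self _ _⟩ j
  refine ⟨LinearMap.toMatrix' g, W, B, C, ?_, ?_⟩
  · rw [Matrix.mul_assoc, hAW, hUB]
  · ext i k
    have h1 : (B * C) i k = (B *ᵥ fun j => C j k) i := rfl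
    rw [h1, hsum]
    have h2 := b.sum_repr ⟨A.mulVecLin (Pi.single k 1), LinearMap.mem_range_self _ _⟩
    have h3 : (∑ j, C j k • b j : LinearMap.range A.mulVecLin) =
        ⟨A.mulVecLin (Pi.single k 1), LinearMap.mem_range_self _ _⟩ := h2
    rw [h3]
    show A i k = (A *ᵥ Pi.single k 1) i
    rw [Matrix.mulVec_single_one]
    rfl

private theorem ZD_clear {R : Type w} [CommRing R] [IsDomain R] {a b : Type} [Finite a] [Finite b]
    (M : Matrix a b (FractionRing R)) : ∃ (d : R) (M0 : Matrix a b R), d ≠ 0 ∧
      M0.map (algebraMap R (FractionRing R)) = (algebraMap R (FractionRing R) d) • M := by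
  obtain ⟨d, hd⟩ := IsLocalization.exist_integer_multiples_of_finite (nonZeroDivisors R)
    (fun p : a × b => M p.1 p.2)
  choose f hf using hd
  refine ⟨d, Matrix.of fun i j => f (i, j), nonZeroDivisors.coe_ne_zero d, ?_⟩
  ext i j
  rw [Matrix.map_apply, Matrix.of_apply, hf (i, j), Matrix.smul_apply, Algebra.smul_def,
    smul_eq_mul]

theorem minor_factor {R : Type w} [CommRing R] [IsDomain R] {n m : Type} [Fintype n] [Fintype m] (A : Matrix n m R) :
    ∃ (r : ℕ) (f g : R) (U : Matrix (Fin r) n R) (W : Matrix m (Fin r) R) (B : Matrix n (Fin r) R)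
      (C : Matrix (Fin r) m R), r = (A.map (algebraMap R (FractionRing R))).rank ∧ f ≠ 0 ∧ g ≠ 0 ∧
        U * A * W = scal (Fin r) f ∧ A * scal m g = B * C := by
  classical
  obtain ⟨U', W', B', C', h1, h2⟩ := ZD_field (A.map (algebraMap R (FractionRing R)))
  obtain ⟨u, U, hu, hU⟩ := ZD_clear U'
  obtain ⟨v, W, hv, hW⟩ := ZD_clear W'
  obtain ⟨b, B, hb, hB⟩ := ZD_clear B'
  obtain ⟨c, C, hc, hC⟩ := ZD_clear C'
  have hinj : Function.Injective (algebraMap R (FractionRing R)) :=
    IsFractionRing.injective R (FractionRing R)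
  refine ⟨_, u * v, b * c, U, W, B, C, rfl, mul_ne_zero hu hv, mul_ne_zero hb hc, ?_, ?_⟩
  · apply Matrix.map_injective hinj
    show (U * A * W).map (algebraMap R (FractionRing R)) =
      (scal _ (u * v)).map (algebraMap R (FractionRing R))
    rw [ZD_scal, ZD_smul_one_map, Matrix.map_mul, Matrix.map_mul, hU, hW, Matrix.smul_mul,
      Matrix.smul_mul, Matrix.mul_smul, h1, smul_smul, map_mul]
  · apply Matrix.map_injective hinj
    show (A * scal m (b * c)).map (algebraMap R (FractionRing R)) =
      (B * C).map (algebraMap R (FractionRing R))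
    rw [ZD_scal, Matrix.map_mul, Matrix.map_mul, ZD_smul_one_map, hB, hC, Matrix.smul_mul,
      Matrix.mul_smul, Matrix.mul_smul, ← h2, smul_smul, map_mul, Matrix.mul_one]

end NBT
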