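import Pool.Agent.Lib.MP_83fbc5_gt.ZC
import Pool.Agent.Lib.MP_83fbc5_gt.ZD
import Pool.Agent.Lib.MP_83fbc5_gt.Basic

/-!
# MP_83fbc5_gt, module ZE: normalised ranks over the quotients of `ℤ^d` converge to the rank over the field of fractions

PROOF. `toQ F N = (mapDomainRingHom F (mk' N)) ∘ (toF F)` (check: `MonoidAlgebra.mapRingHom_comp_mapDomainRingHom`). Apply `minor_factor` to `A.map (toF F _)` over `R = F[ℤ^d]` (a domain: instances) and map to `F[Q]` by `θ = mapDomainRingHom F (mk' N)`; `r = rkK F A`. (1) `U A W = f • 1` gives `rk (f • 1) ≤ rk A`: the range of `u ↦ u U A W` has dimension at most that of the range of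
`u ↦ u A`; and `rk (f • 1) = r * (q - dim ker f)`, `q = N.index` (right multiplication of `r` coordinates by `f`: kernel is the product of the kernels). (2) `A * scal g = B C`: range of `u ↦ u A` followed by multiplication of the `m` coordinates by `g` has dimension `≤ r q` (it factors through `F[Q]^r`), so `rk A ≤ r q + m * dim ker g`. So
`|rk A / q - r| ≤ r * dim ker f / q + card m * dim ker g / q`, and both terms are eventually `≤ ε` along a chain by `ker_small` (the finite set `E` is eventually disjoint from `C.N i`: `C.bot`, `C.anti`). (`Metric.tendsto_atTop`.)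
(75-100 minutes)
-/

set_option autoImplicit false

namespace NBT

open Matrix Module

universe w

private theorem ze_sep {H : Type} [Group H] (C : Chain H) (T : Finset H) (hT : (1 : H) ∉ T) :
    ∃ i0, ∀ i, i0 ≤ i → ∀ x ∈ T, x ∉ C.N i := by
  classical
  induction T using Finset.induction_on with
  | empty => exact ⟨0, fun i _ x hx => absurd hx (Finset.notMem_empty x)⟩
  | insert y T hy ih =>
    obtain ⟨i0, h0⟩ := ih fun h => hT (Finset.mem_insert_of_mem h)
    have hy1 : y ≠ 1 := fun h => hT (h ▸ Finset.mem_insert_self _ _)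
    have h1 : ∃ j, y ∉ C.N j := by
      by_contra hc
      push Not at hc
      have h2 : y ∈ ⨅ i, C.N i := Subgroup.mem_iInf.2 hc
      rw [C.bot] at h2
      exact hy1 (Subgroup.mem_bot.1 h2)
    obtain ⟨j, hj⟩ := h1
    refine ⟨max i0 j, fun i hi x hx hxi => ?_⟩
    rcases Finset.mem_insert.1 hx with rfl | hx
    · exact absurd (C.anti (le_trans (le_max_right _ _) hi) hxi) hj
    · exact h0 i (le_trans (le_max_left _ _) hi) x hx hxi

section

variable (F : Type w) [Field F] {G : Type} [Group G] (N : Subgroup G) [N.Normal] [N.FiniteIndex]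

/-- the kernel of right multiplication on rows -/
private theorem ze_ker {n : Type} [Fintype n] (s : MonoidAlgebra F (G ⧸ N)) :
    finrank F (LinearMap.ker (actM F (scal n s))) =
      Fintype.card n * finrank F (LinearMap.ker (LinearMap.mulRight F s)) := by
  have e : LinearMap.ker (actM F (scal n s)) =
      Submodule.pi Set.univ fun _ : n => LinearMap.ker (LinearMap.mulRight F s) := by
    ext u
    rw [LinearMap.mem_ker, actM_apply, vecMul_scal, Submodule.mem_pi]
    constructor
    · intro h i _
      exact LinearMap.mem_ker.2 (congrFun h i)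
    · intro h
      funext i
      exact LinearMap.mem_ker.1 (h i (Set.mem_univ i))
  rw [e]
  let W := LinearMap.ker (LinearMap.mulRight F s)
  let φ : (n → W) ≃ₗ[F] (Submodule.pi Set.univ fun _ : n => W : Submodule F _) :=
    { toFun := fun u => ⟨fun i => (u i : MonoidAlgebra F (G ⧸ N)), fun i _ => (u i).2⟩
      map_add' := fun _ _ => rfl
      map_smul' := fun _ _ => rfl
      invFun := fun v i => ⟨v.1 i, v.2 i (Set.mem_univ i)⟩
      left_inv := fun _ => rfl
      right_inv := fun _ => rfl }
  rw [← φ.finrank_eq, finrank_pi_fintype, Finset.sum_const, Finset.card_univ, smul_eq_mul]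

private theorem ze_comp {U V W : Type w} [AddCommGroup U] [Module F U] [AddCommGroup V] [Module F V]
    [AddCommGroup W] [Module F W] [FiniteDimensional F U] [FiniteDimensional F V]
    [FiniteDimensional F W] (g : V →ₗ[F] W) (f : U →ₗ[F] V) :
    finrank F (LinearMap.range (g ∘ₗ f)) ≤ finrank F (LinearMap.range f) ∧
      finrank F (LinearMap.range (g ∘ₗ f)) ≤ finrank F (LinearMap.range g) := by
  constructor
  · rw [LinearMap.range_comp]
    exact Submodule.finrank_map_le _ _
  · exact Submodule.finrank_mono (LinearMap.range_comp_le_range _ _)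

private theorem ze_lower {m n : Type} [Fintype m] [Fintype n] {r : ℕ}
    (A : Matrix m n (MonoidAlgebra F (G ⧸ N))) (U : Matrix (Fin r) m (MonoidAlgebra F (G ⧸ N)))
    (W : Matrix n (Fin r) (MonoidAlgebra F (G ⧸ N))) (f : MonoidAlgebra F (G ⧸ N))
    (h : U * A * W = scal (Fin r) f) :
    r * N.index ≤ rkM F A + r * finrank F (LinearMap.ker (LinearMap.mulRight F f)) := by
  have h1 := LinearMap.finrank_range_add_finrank_ker (actM F (scal (Fin r) f))
  rw [ze_ker, finrank_row, Fintype.card_fin] at h1
  have h2 : finrank F (LinearMap.range (actM F (scal (Fin r) f))) ≤ rkM F A := by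
    rw [← h, actM_mul, actM_mul]
    exact (ze_comp F _ _).1.trans (ze_comp F _ _).2
  omega

private theorem ze_upper {m n : Type} [Fintype m] [Fintype n] {r : ℕ}
    (A : Matrix m n (MonoidAlgebra F (G ⧸ N))) (B : Matrix m (Fin r) (MonoidAlgebra F (G ⧸ N)))
    (C : Matrix (Fin r) n (MonoidAlgebra F (G ⧸ N))) (g : MonoidAlgebra F (G ⧸ N))
    (h : A * scal n g = B * C) :
    rkM F A ≤ r * N.index +
      Fintype.card n * finrank F (LinearMap.ker (LinearMap.mulRight F g)) := by
  have h1 : finrank F (LinearMap.range (actM F (A * scal n g))) ≤ r * N.index := by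
    rw [h, actM_mul]
    refine (ze_comp F _ _).2.trans ?_
    refine (LinearMap.finrank_range_le _).trans ?_
    rw [finrank_row, Fintype.card_fin]
  rw [actM_mul, LinearMap.range_comp] at h1
  have h2 := LinearMap.finrank_range_add_finrank_ker
    ((actM F (scal n g)).domRestrict (LinearMap.range (actM F A)))
  rw [LinearMap.range_domRestrict] at h2
  have h3 : finrank F (LinearMap.ker ((actM F (scal n g)).domRestrict (LinearMap.range (actM F A)))) ≤
      finrank F (LinearMap.ker (actM F (scal n g))) := by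
    rw [LinearMap.ker_domRestrict]
    refine le_trans (le_of_eq ?_) (Submodule.finrank_mono
      (inf_le_right : LinearMap.range (actM F A) ⊓ LinearMap.ker (actM F (scal n g)) ≤ _))
    rw [← Submodule.map_comap_subtype]
    exact (LinearEquiv.finrank_eq (Submodule.equivMapOfInjective _ (Submodule.injective_subtype _) _))
  rw [ze_ker] at h3
  have h4 : rkM F A = finrank F (LinearMap.range (actM F A)) := rfl
  omega

end

private theorem ze_toQ (F : Type w) [Field F] {G : Type} [Group G] (N : Subgroup G) [N.Normal] :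
    toQ F N = (MonoidAlgebra.mapDomainRingHom F (QuotientGroup.mk' N)).comp (toF F G) :=
  MonoidAlgebra.mapRingHom_comp_mapDomainRingHom _ _

theorem rk_zd (F : Type w) [Field F] {d : ℕ} {m n : Type} [Fintype m] [Fintype n]
    (A : Matrix m n (MonoidAlgebra ℤ (Zd d))) (C : Chain (Zd d)) :
    Filter.Tendsto (fun i => (rk F (C.N i) A : ℝ) / (C.N i).index) Filter.atTop (nhds (rkK F A)) := by
  obtain ⟨r, f, g, U, W, B, D, hr, hf, hg, h1, h2⟩ := minor_factor (A.map (toF F (Zd d)))
  have hrk : rkK F A = r := hr.symm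
  rw [hrk, Metric.tendsto_atTop]
  intro ε hε
  set c : ℝ := (r : ℝ) + Fintype.card n + 1 with hc
  have hc0 : 0 < c := by positivity
  obtain ⟨E1, hE1, hk1⟩ := ker_small F f hf (ε / 2 / c) (by positivity)
  obtain ⟨E2, hE2, hk2⟩ := ker_small F g hg (ε / 2 / c) (by positivity)
  obtain ⟨i1, hi1⟩ := ze_sep C E1 hE1
  obtain ⟨i2, hi2⟩ := ze_sep C E2 hE2
  refine ⟨max i1 i2, fun i hi => ?_⟩
  have a1 := hk1 (C.N i) (hi1 i ((le_max_left _ _).trans hi))
  have a2 := hk2 (C.N i) (hi2 i ((le_max_right _ _).trans hi))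
  have hq : (0 : ℝ) < (C.N i).index := by
    exact_mod_cast Nat.pos_of_ne_zero Subgroup.FiniteIndex.index_ne_zero
  set θ := MonoidAlgebra.mapDomainRingHom F (QuotientGroup.mk' (C.N i)) with hθ
  have hA : A.map (toQ F (C.N i)) = (A.map (toF F (Zd d))).map θ := by
    rw [Matrix.map_map, ze_toQ]
    rfl
  have b1 : U.map θ * (A.map (toF F (Zd d))).map θ * W.map θ = scal (Fin r) (θ f) := by
    rw [← scal_map, ← h1, Matrix.map_mul, Matrix.map_mul]
  have b2 : (A.map (toF F (Zd d))).map θ * scal n (θ g) = B.map θ * D.map θ := by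
    rw [← scal_map, ← Matrix.map_mul, h2, Matrix.map_mul]
  have c1 := ze_lower F (C.N i) _ _ _ _ b1
  have c2 := ze_upper F (C.N i) _ _ _ _ b2
  rw [← hA] at c1 c2
  have c3 : rk F (C.N i) A = rkM F (A.map (toQ F (C.N i))) := rfl
  rw [← c3] at c1 c2
  have c1' : (r : ℝ) * (C.N i).index ≤ rk F (C.N i) A +
      r * finrank F (LinearMap.ker (LinearMap.mulRight F (θ f))) := by exact_mod_cast c1
  have c2' : (rk F (C.N i) A : ℝ) ≤ r * (C.N i).index +
      Fintype.card n * finrank F (LinearMap.ker (LinearMap.mulRight F (θ g))) := by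
    exact_mod_cast c2
  rw [Real.dist_eq]
  have e : (rk F (C.N i) A : ℝ) / (C.N i).index - r =
      ((rk F (C.N i) A : ℝ) - r * (C.N i).index) / (C.N i).index := by
    field_simp
  rw [e, abs_div, abs_of_pos hq, div_lt_iff₀ hq]
  have d1 : (r : ℝ) * finrank F (LinearMap.ker (LinearMap.mulRight F (θ f))) ≤
      r * (ε / 2 / c * (C.N i).index) := mul_le_mul_of_nonneg_left a1 (Nat.cast_nonneg _)
  have d2 : (Fintype.card n : ℝ) * finrank F (LinearMap.ker (LinearMap.mulRight F (θ g))) ≤
      Fintype.card n * (ε / 2 / c * (C.N i).index) :=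
    mul_le_mul_of_nonneg_left a2 (Nat.cast_nonneg _)
  have hrc : (r : ℝ) ≤ c := by
    have : (0 : ℝ) ≤ Fintype.card n := Nat.cast_nonneg _
    linarith
  have hnc : (Fintype.card n : ℝ) ≤ c := by
    have : (0 : ℝ) ≤ r := Nat.cast_nonneg _
    linarith
  have f1 : c * (ε / 2 / c * (C.N i).index) = ε / 2 * (C.N i).index := by
    field_simp
  have hpos : 0 ≤ ε / 2 / c * (C.N i).index := by positivity
  have g1 : (r : ℝ) * (ε / 2 / c * (C.N i).index) ≤ c * (ε / 2 / c * (C.N i).index) :=
    mul_le_mul_of_nonneg_right hrc hpos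
  have g2 : (Fintype.card n : ℝ) * (ε / 2 / c * (C.N i).index) ≤
      c * (ε / 2 / c * (C.N i).index) := mul_le_mul_of_nonneg_right hnc hpos
  have hεq : 0 < ε / 2 * (C.N i).index := by positivity
  rw [abs_lt]
  constructor <;> linarith

end NBT
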