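import Pool.Agent.Lib.MP_83fbc5_gt.WT
import Pool.Agent.Lib.MP_83fbc5_gt.XC
import Pool.Agent.Lib.MP_83fbc5_gt.YE
import Pool.Agent.Lib.MP_83fbc5_gt.YT
import Pool.Agent.Lib.MP_83fbc5_gt.ZE

/-!
# MP_83fbc5_gt, WL: homology growth of `RA ⋊ H`
-/

set_option autoImplicit false

namespace NBT

open Matrix Module RaagIso

universe w

theorem exists_CMap {H : Type} [Group H] (L : VG H) {D : ℕ} (R : FFR H D) : Nonempty (CMap L R) := by
  obtain ⟨f0, f1, f2, h0, h1, h2⟩ := exists_chm L L.bd_bd R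
  exact ⟨⟨f0, f1, f2, h0, h1, h2⟩⟩

/-- the estimate for the normalised ranks -/
theorem wl_rank (F : Type w) [Field F] {H : Type} [Group H] (L : VG H) {D : ℕ} (hD : 3 ≤ D) (R : FFR H D)
    (f : CMap L R) {D' : ℕ} (T : FFR L.GG D') (n : ℕ) :
    ∃ c : ℕ, ∀ (N : Subgroup L.GG) [N.Normal] [N.FiniteIndex] (k : ℕ), 0 < k →
      (∀ i, k ≤ orderOf (QuotientGroup.mk (L.X (1, i)) : L.GG ⧸ N)) →
        |(betti F T N n : ℝ) / N.index - (relb F f (N.comap L.iH) n : ℝ) / (N.comap L.iH).index| ≤
          (c : ℝ) / k := by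
  obtain ⟨T', hcard, c, hc⟩ := exists_Tall F L hD R f
  refine ⟨2 * c, fun N _ _ k hk hN => ?_⟩
  have hfi := yr_fi L.iH N
  rw [betti_indep F T T' N n]
  have hpos : (0 : ℝ) < N.index := by
    exact_mod_cast Nat.pos_of_ne_zero (Subgroup.FiniteIndex.index_ne_zero (H := N))
  have hpos' : (0 : ℝ) < (N.comap L.iH).index := by
    exact_mod_cast Nat.pos_of_ne_zero hfi.index_ne_zero
  have e : ∀ m, |(rk F N (T'.d m) : ℝ) / N.index -
      (rk F (N.comap L.iH) (coneD f m) : ℝ) / (N.comap L.iH).index| ≤ (c : ℝ) / k := fun m =>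
    ye_close F L.iH N (coneD f m) _ c k hk (hc N k hN m)
  have hcc : ((2 * c : ℕ) : ℝ) / k = (c : ℝ) / k + (c : ℝ) / k := by push_cast; ring
  have hc0 : (0 : ℝ) ≤ (c : ℝ) / k := by positivity
  rw [hcc]
  cases n with
  | zero =>
    have b := betti_zero F T' N
    have b' := hdim_zero F (N.comap L.iH) (coneI L R.ι) (coneD f)
    rw [hcard 0] at b
    have b1 : (betti F T' N 0 : ℝ) / N.index = Fintype.card (coneI L R.ι 0) - (rk F N (T'.d 0) : ℝ) / N.index := by
      have : (betti F T' N 0 : ℝ) + rk F N (T'.d 0) = Fintype.card (coneI L R.ι 0) * N.index := by exact_mod_cast b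
      field_simp
      linarith
    have b2 : (relb F f (N.comap L.iH) 0 : ℝ) / (N.comap L.iH).index = Fintype.card (coneI L R.ι 0) -
        (rk F (N.comap L.iH) (coneD f 0) : ℝ) / (N.comap L.iH).index := by
      have : (relb F f (N.comap L.iH) 0 : ℝ) + rk F (N.comap L.iH) (coneD f 0) =
        Fintype.card (coneI L R.ι 0) * (N.comap L.iH).index := by exact_mod_cast b'
      field_simp
      linarith
    rw [b1, b2]
    have e0 := e 0
    rw [abs_le] at e0 ⊢
    constructor <;> linarith [e0.1, e0.2]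
  | succ n =>
    have b := betti_succ F T' N n
    have b' := hdim_succ F (N.comap L.iH) (coneI L R.ι) (coneD f) n (cone_dd f n)
    rw [hcard (n + 1)] at b
    have b1 : (betti F T' N (n + 1) : ℝ) / N.index = Fintype.card (coneI L R.ι (n + 1)) -
        (rk F N (T'.d n) : ℝ) / N.index - (rk F N (T'.d (n + 1)) : ℝ) / N.index := by
      have : (betti F T' N (n + 1) : ℝ) + rk F N (T'.d n) + rk F N (T'.d (n + 1)) =
        Fintype.card (coneI L R.ι (n + 1)) * N.index := by exact_mod_cast b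
      field_simp
      linarith
    have b2 : (relb F f (N.comap L.iH) (n + 1) : ℝ) / (N.comap L.iH).index = Fintype.card (coneI L R.ι (n + 1)) -
        (rk F (N.comap L.iH) (coneD f n) : ℝ) / (N.comap L.iH).index -
        (rk F (N.comap L.iH) (coneD f (n + 1)) : ℝ) / (N.comap L.iH).index := by
      have : (relb F f (N.comap L.iH) (n + 1) : ℝ) + rk F (N.comap L.iH) (coneD f n) +
        rk F (N.comap L.iH) (coneD f (n + 1)) =
        Fintype.card (coneI L R.ι (n + 1)) * (N.comap L.iH).index := by exact_mod_cast b'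
      field_simp
      linarith
    rw [b1, b2]
    have e0 := e n
    have e1 := e (n + 1)
    rw [abs_le] at e0 e1 ⊢
    constructor <;> linarith [e0.1, e0.2, e1.1, e1.2]

/-- homology growth of `RA ⋊ H` and relative Betti numbers -/
theorem growth_rel (F : Type w) [Field F] {H : Type} [Group H] (L : VG H) {D : ℕ} (R : FFR H D)
    (f : CMap L R) {D' : ℕ} (T : FFR L.GG D') (n : ℕ) (C : Chain L.GG) :
    Filter.Tendsto (fun i => (betti F T (C.N i) n : ℝ) / (C.N i).index -
      (relb F f ((C.N i).comap L.iH) n : ℝ) / ((C.N i).comap L.iH).index) Filter.atTop (nhds 0) := by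
  have hev : ∀ k : ℕ, ∀ᶠ i in Filter.atTop,
      ∀ x, k ≤ orderOf (QuotientGroup.mk (L.X (1, x)) : L.GG ⧸ C.N i) := by
    intro k
    rw [Filter.eventually_all]
    exact fun x => ord_tendsto C (L.X (1, x)) (fun j hj => X_pow L _ j hj) k
  let R' := R.up (le_max_left D 3)
  let f' : CMap L R' := ⟨f.f0, f.f1, f.f2, f.aug, f.eq1, f.eq2⟩
  obtain ⟨c, hc⟩ := wl_rank F L (le_max_right D 3) R' f' T n
  have hf : ∀ (N : Subgroup H) [N.Normal], relb F f' N n = relb F f N n := by
    intro N _
    match n with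
    | 0 => rfl
    | 1 => rfl
    | 2 => rfl
    | 3 => rfl
    | 4 => rfl
    | k + 5 => rfl
  refine lim_aux c _ fun k hk => ?_
  filter_upwards [hev k] with i hi
  have := hc (C.N i) k hk hi
  rw [hf] at this
  exact this

/-- Q1 for `RA ⋊ H` and the relative Betti numbers -/
theorem q1_iff (F : Type w) [Field F] {H : Type} [Group H] (L : VG H) {D : ℕ} (R : FFR H D)
    (f : CMap L R) {D' : ℕ} (T : FFR L.GG D') (n : ℕ) :
    (∃ ℓ : ℝ, ∀ C : Chain L.GG,
      Filter.Tendsto (fun i => (betti F T (C.N i) n : ℝ) / (C.N i).index) Filter.atTop (nhds ℓ)) ↔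
    (∃ ℓ : ℝ, ∀ C : Chain H,
      Filter.Tendsto (fun i => (relb F f (C.N i) n : ℝ) / (C.N i).index) Filter.atTop (nhds ℓ)) := by
  constructor
  · rintro ⟨ℓ, h⟩
    refine ⟨ℓ, fun C => ?_⟩
    obtain ⟨C', hC'⟩ := L.chain_lift C
    have e := (h C').sub (growth_rel F L R f T n C')
    rw [sub_zero] at e
    refine e.congr fun i => ?_
    have h1 : ∀ (N : Subgroup H) [N.Normal], N = C.N i →
        (relb F f N n : ℝ) / N.index = (relb F f (C.N i) n : ℝ) / (C.N i).index := by
      intro N _ hN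
      subst hN
      rfl
    rw [h1 _ (hC' i)]
    ring
  · rintro ⟨ℓ, h⟩
    refine ⟨ℓ, fun C => ?_⟩
    have e := (growth_rel F L R f T n C).add (h (C.trace L))
    rw [zero_add] at e
    refine e.congr fun i => ?_
    show _ - (relb F f ((C.N i).comap L.iH) n : ℝ) / ((C.N i).comap L.iH).index +
      (relb F f ((C.N i).comap L.iH) n : ℝ) / ((C.N i).comap L.iH).index = _
    ring

/-- homology growth of `RA ⋊ H` for groups `H` with a central element of infinite order -/
theorem growth_central (F : Type w) [Field F] {H : Type} [Group H] {D : ℕ} (R : FFR H D) (t : H)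
    (ht : ∀ h, h * t = t * h) (ht' : ∀ k : ℕ, 0 < k → t ^ k ≠ 1) (L : VG H) {D' : ℕ} (T : FFR L.GG D')
    (C : Chain L.GG) :
    Filter.Tendsto (fun i => (betti F T (C.N i) 0 : ℝ) / (C.N i).index) Filter.atTop (nhds 0) ∧
    ∀ n, Filter.Tendsto (fun i => (betti F T (C.N i) (n + 1) : ℝ) / (C.N i).index -
      (cellb F L ((C.N i).comap L.iH) n : ℝ) / ((C.N i).comap L.iH).index) Filter.atTop (nhds 0) := by
  obtain ⟨h0, h1⟩ := growth_all F R t ht ht' L T C
  refine ⟨h0, fun n => (h1 n).congr fun i => ?_⟩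
  have hfi := yr_fi L.iH (C.N i)
  have e : (cellb F L ((C.N i).comap L.iH) n : ℝ) = (L.lb F ((C.N i).comap L.iH) n : ℝ) := by
    rw [← cellb_lb F L ((C.N i).comap L.iH) n]
    norm_cast
  rw [e]

/-- the subgroup `m ℤ^d` -/
def zdSub (d m : ℕ) : Subgroup (Zd d) :=
  (MonoidHom.mk' (fun x : Zd d => Multiplicative.ofAdd fun j => ((Multiplicative.toAdd x j : ℤ) : ZMod m))
    (by
      intro a b
      rw [← ofAdd_add]
      congr 1
      ext j
      simp)).ker

theorem mem_zdSub {d m : ℕ} (x : Zd d) : x ∈ zdSub d m ↔ ∀ j, (m : ℤ) ∣ Multiplicative.toAdd x j := by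
  unfold zdSub
  rw [MonoidHom.mem_ker]
  show Multiplicative.ofAdd (fun j => ((Multiplicative.toAdd x j : ℤ) : ZMod m)) = Multiplicative.ofAdd 0 ↔ _
  rw [Equiv.apply_eq_iff_eq, funext_iff]
  refine forall_congr' fun j => ?_
  exact ZMod.intCast_zmod_eq_zero_iff_dvd _ m

/-- a residual chain of the free abelian group -/
noncomputable def zdChain (d : ℕ) : Chain (Zd d) where
  N i := zdSub d (2 ^ i)
  normal i := by
    unfold zdSub
    infer_instance
  fin i := by
    have : NeZero (2 ^ i) := ⟨by positivity⟩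
    unfold zdSub
    infer_instance
  anti := by
    refine antitone_nat_of_succ_le fun i x hx => ?_
    rw [mem_zdSub] at hx ⊢
    intro j
    refine dvd_trans ?_ (hx j)
    rw [pow_succ]
    push_cast
    exact dvd_mul_right _ _
  bot := by
    rw [eq_bot_iff]
    intro x hx
    rw [Subgroup.mem_iInf] at hx
    rw [Subgroup.mem_bot]
    refine Multiplicative.toAdd.injective ?_
    funext j
    show Multiplicative.toAdd x j = 0
    have h1 : ∀ i : ℕ, ((2 ^ i : ℕ) : ℤ) ∣ Multiplicative.toAdd x j := fun i => (mem_zdSub x).1 (hx i) j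
    by_contra h0
    have h2 := Int.natAbs_dvd_natAbs.2 (h1 (Multiplicative.toAdd x j).natAbs)
    rw [Int.natAbs_natCast] at h2
    have h3 := Nat.le_of_dvd (Int.natAbs_pos.2 h0) h2
    exact absurd h3 (not_le.2 Nat.lt_two_pow_self)

/-- homology growth of `RA ⋊ ℤ^d` -/
theorem growth_zd (F : Type w) [Field F] {d : ℕ} (hd : 0 < d) (L : VG (Zd d)) {D' : ℕ} (T : FFR L.GG D')
    (C : Chain L.GG) :
    Filter.Tendsto (fun i => (betti F T (C.N i) 0 : ℝ) / (C.N i).index) Filter.atTop (nhds 0) ∧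
    ∀ n, Filter.Tendsto (fun i => (betti F T (C.N i) (n + 1) : ℝ) / (C.N i).index) Filter.atTop
      (nhds (L.lK F n)) := by
  obtain ⟨R⟩ := ffr_zd d
  have ht' : ∀ k : ℕ, 0 < k → (Multiplicative.ofAdd (Pi.single ⟨0, hd⟩ 1) : Zd d) ^ k ≠ 1 := by
    intro k hk h
    rw [← ofAdd_nsmul, ← ofAdd_zero] at h
    have h3 := congrFun (Multiplicative.ofAdd.injective h) ⟨0, hd⟩
    simp at h3
    omega
  obtain ⟨h0, h1⟩ := growth_all F R (Multiplicative.ofAdd (Pi.single ⟨0, hd⟩ 1) : Zd d)
    (fun h => mul_comm _ _) ht' L T C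
  refine ⟨h0, fun n => ?_⟩
  have r2 := rk_zd F L.bd2 (C.trace L)
  have r3 := rk_zd F L.bd3 (C.trace L)
  have hlb : Filter.Tendsto (fun i => (L.lb F ((C.trace L).N i) n : ℝ) / ((C.trace L).N i).index) Filter.atTop
      (nhds (L.lK F n)) := by
    have hpos : ∀ i, (((C.trace L).N i).index : ℝ) ≠ 0 := fun i =>
      Nat.cast_ne_zero.2 (Subgroup.FiniteIndex.index_ne_zero (H := (C.trace L).N i))
    match n with
    | 0 =>
      have e := (tendsto_const_nhds (x := (Fintype.card L.I : ℝ))).sub r2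
      have e' : ((L.lK F 0 : ℤ) : ℝ) = Fintype.card L.I - rkK F L.bd2 := by
        simp only [VG.lK]
        push_cast
        rfl
      rw [e']
      refine e.congr fun i => ?_
      simp only [VG.lb]
      push_cast
      have := hpos i
      field_simp
    | 1 =>
      have e := ((tendsto_const_nhds (x := (Fintype.card L.J2 : ℝ))).sub r2).sub r3
      have e' : ((L.lK F 1 : ℤ) : ℝ) = Fintype.card L.J2 - rkK F L.bd2 - rkK F L.bd3 := by
        simp only [VG.lK]
        push_cast
        rfl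
      rw [e']
      refine e.congr fun i => ?_
      simp only [VG.lb]
      push_cast
      have := hpos i
      field_simp
    | 2 =>
      have e := (tendsto_const_nhds (x := (Fintype.card L.J3 : ℝ))).sub r3
      have e' : ((L.lK F 2 : ℤ) : ℝ) = Fintype.card L.J3 - rkK F L.bd3 := by
        simp only [VG.lK]
        push_cast
        rfl
      rw [e']
      refine e.congr fun i => ?_
      simp only [VG.lb]
      push_cast
      have := hpos i
      field_simp
    | n + 3 =>
      have e' : ((L.lK F (n + 3) : ℤ) : ℝ) = 0 := by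
        simp only [VG.lK]
        push_cast
        rfl
      rw [e']
      refine tendsto_const_nhds.congr fun i => ?_
      simp only [VG.lb]
      simp
  have e := (h1 n).add hlb
  rw [zero_add] at e
  refine e.congr fun i => ?_
  show _ - (L.lb F ((C.N i).comap L.iH) n : ℝ) / ((C.N i).comap L.iH).index +
    (L.lb F ((C.N i).comap L.iH) n : ℝ) / ((C.N i).comap L.iH).index = _
  ring

theorem zd_facts {d : ℕ} (L : VG (Zd d)) :
    Group.IsFinitelyPresented L.GG ∧ Nonempty (Chain L.GG) := by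
  refine ⟨fp_GG L (fp_zd d), ?_⟩
  obtain ⟨C', _⟩ := L.chain_lift (zdChain d)
  exact ⟨C'⟩

theorem ffr_GG (F : Type w) [Field F] {H : Type} [Group H] (L : VG H) {D : ℕ} (R : FFR H D) :
    Nonempty (FFR L.GG (max D 3)) := by
  obtain ⟨T, _⟩ := res_all F L (le_max_right D 3) (R.up (le_max_left D 3))
  exact ⟨T⟩

end NBT
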