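import Pool.Agent.Lib.MP_83fbc5_gt.AM5
import Pool.Agent.Lib.MP_83fbc5_gt.WL
import Pool.Agent.Lib.MP_83fbc5_gt.REV

/-!
# MP_83fbc5_gt, AML: homology growth of `RA ⋊ H` if the ranks over `H` converge
-/

set_option autoImplicit false

namespace NBT

open Matrix Module RaagIso

universe w

/-- normalised relative Betti numbers in terms of normalised ranks -/
theorem relb_zero (F : Type w) [Field F] {H : Type} [Group H] {L : VG H} {D : ℕ} {R : FFR H D} (f : CMap L R)
    (N : Subgroup H) [N.Normal] [N.FiniteIndex] :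
    (relb F f N 0 : ℝ) / N.index = Fintype.card (coneI L R.ι 0) - (rk F N (coneD f 0) : ℝ) / N.index := by
  have b' := hdim_zero F N (coneI L R.ι) (coneD f)
  have hpos : (0 : ℝ) < N.index := by
    exact_mod_cast Nat.pos_of_ne_zero (Subgroup.FiniteIndex.index_ne_zero (H := N))
  have : (relb F f N 0 : ℝ) + rk F N (coneD f 0) = Fintype.card (coneI L R.ι 0) * N.index := by exact_mod_cast b'
  field_simp
  linarith

theorem relb_succ (F : Type w) [Field F] {H : Type} [Group H] {L : VG H} {D : ℕ} {R : FFR H D} (f : CMap L R)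
    (N : Subgroup H) [N.Normal] [N.FiniteIndex] (n : ℕ) :
    (relb F f N (n + 1) : ℝ) / N.index = Fintype.card (coneI L R.ι (n + 1)) - (rk F N (coneD f n) : ℝ) / N.index -
      (rk F N (coneD f (n + 1)) : ℝ) / N.index := by
  have b' := hdim_succ F N (coneI L R.ι) (coneD f) n (cone_dd f n)
  have hpos : (0 : ℝ) < N.index := by
    exact_mod_cast Nat.pos_of_ne_zero (Subgroup.FiniteIndex.index_ne_zero (H := N))
  have : (relb F f N (n + 1) : ℝ) + rk F N (coneD f n) + rk F N (coneD f (n + 1)) =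
    Fintype.card (coneI L R.ι (n + 1)) * N.index := by exact_mod_cast b'
  field_simp
  linarith

/-- convergence of the relative Betti numbers from the convergence of the ranks -/
theorem relb_conv (F : Type w) [Field F] {H : Type} [Group H] {L : VG H} {D : ℕ} {R : FFR H D} (f : CMap L R)
    (ρ : ℕ → ℝ) (hρ : ∀ n (C : Chain H), Filter.Tendsto (fun i => (rk F (C.N i) (coneD f n) : ℝ) / (C.N i).index)
      Filter.atTop (nhds (ρ n))) (n : ℕ) (C : Chain H) :
    Filter.Tendsto (fun i => (relb F f (C.N i) n : ℝ) / (C.N i).index) Filter.atTop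
      (nhds (match n with
        | 0 => Fintype.card (coneI L R.ι 0) - ρ 0
        | n + 1 => Fintype.card (coneI L R.ι (n + 1)) - ρ n - ρ (n + 1))) := by
  cases n with
  | zero =>
    refine (tendsto_const_nhds.sub (hρ 0 C)).congr fun i => ?_
    exact (relb_zero F f (C.N i)).symm
  | succ n =>
    refine ((tendsto_const_nhds.sub (hρ n C)).sub (hρ (n + 1) C)).congr fun i => ?_
    exact (relb_succ F f (C.N i) n).symm

/-- if the normalised ranks of all matrices over `ℤ[H]` converge, then Q1 holds for `RA ⋊ H` -/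
theorem q1_of_ranks (F : Type w) [Field F] {H : Type} [Group H]
    (hm : ∀ (m n : ℕ) (A : Matrix (Fin m) (Fin n) (MonoidAlgebra ℤ H)), ∃ ℓ : ℝ, ∀ C : Chain H,
      Filter.Tendsto (fun i => (rk F (C.N i) A : ℝ) / (C.N i).index) Filter.atTop (nhds ℓ))
    (L : VG H) {D : ℕ} (R : FFR H D) {D' : ℕ} (T : FFR L.GG D') (n : ℕ) :
    ∃ ℓ : ℝ, ∀ C : Chain L.GG,
      Filter.Tendsto (fun i => (betti F T (C.N i) n : ℝ) / (C.N i).index) Filter.atTop (nhds ℓ) := by
  obtain ⟨f⟩ := exists_CMap L R
  have key : ∀ k, ∃ ℓ : ℝ, ∀ C : Chain H,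
      Filter.Tendsto (fun i => (rk F (C.N i) (coneD f k) : ℝ) / ((C.N i).index : ℝ)) Filter.atTop (nhds ℓ) := by
    intro k
    obtain ⟨ℓ, hℓ⟩ := hm _ _ (Matrix.reindex (Fintype.equivFin (coneI L R.ι (k + 1)))
      (Fintype.equivFin (coneI L R.ι k)) (coneD f k))
    refine ⟨ℓ, fun C => (hℓ C).congr fun i => ?_⟩
    rw [rk_reindex]
  choose ρ hρ using key
  exact (q1_iff F L R f T n).2 ⟨_, fun C => relb_conv F f ρ hρ n C⟩

/-- homology growth of `RA ⋊ H` for amenable groups `H` without zero divisors in `F[H]` -/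
theorem growth_am (F : Type w) [Field F] {H : Type} [Group H] (hH : Folner H) [NoZeroDivisors (MonoidAlgebra F H)]
    (L : VG H) {D : ℕ} (R : FFR H D) {D' : ℕ} (T : FFR L.GG D') (n : ℕ) :
    ∃ r : ℤ, ∀ C : Chain L.GG,
      Filter.Tendsto (fun i => (betti F T (C.N i) n : ℝ) / (C.N i).index) Filter.atTop (nhds r) := by
  obtain ⟨f⟩ := exists_CMap L R
  have key : ∀ k, ∃ r : ℕ, ∀ C : Chain H,
      Filter.Tendsto (fun i => (rk F (C.N i) (coneD f k) : ℝ) / ((C.N i).index : ℝ)) Filter.atTop (nhds r) :=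
    fun k => am_conv F hH (coneD f k)
  choose ρ hρ using key
  obtain ⟨r, hr⟩ : ∃ r : ℤ, ∀ C : Chain H, Filter.Tendsto (fun i => (relb F f (C.N i) n : ℝ) / (C.N i).index)
      Filter.atTop (nhds (r : ℝ)) := by
    cases n with
    | zero =>
      refine ⟨Fintype.card (coneI L R.ι 0) - ρ 0, fun C => ?_⟩
      have e := relb_conv F f (fun n => (ρ n : ℝ)) hρ 0 C
      push_cast
      exact e
    | succ n =>
      refine ⟨Fintype.card (coneI L R.ι (n + 1)) - ρ n - ρ (n + 1), fun C => ?_⟩
      have e := relb_conv F f (fun n => (ρ n : ℝ)) hρ (n + 1) C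
      push_cast
      exact e
  refine ⟨r, fun C => ?_⟩
  have e := (growth_rel F L R f T n C).add (hr (C.trace L))
  rw [zero_add] at e
  refine e.congr fun i => ?_
  show _ - (relb F f ((C.N i).comap L.iH) n : ℝ) / ((C.N i).comap L.iH).index +
    (relb F f ((C.N i).comap L.iH) n : ℝ) / ((C.N i).comap L.iH).index = _
  ring

end NBT
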