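import Pool.Agent.Lib.MP_83fbc5_gt.Basic

/-!
# MP_83fbc5_gt, module BET: Betti numbers in terms of ranks
-/

set_option autoImplicit false

namespace NBT

open Matrix Module

universe w

theorem dd {G : Type} [Group G] {D : ℕ} (R : FFR G D) (n : ℕ) : R.d (n + 1) * R.d n = 0 := by
  classical
  ext1 i j
  have h := (R.exact n (Pi.single i 1 ᵥ* R.d (n + 1))).2 ⟨Pi.single i 1, rfl⟩
  rw [Matrix.vecMul_vecMul] at h
  have h2 := congrFun h j
  rw [Matrix.single_one_vecMul] at h2
  exact h2

private theorem BET_quot (F : Type w) [Field F] {V : Type w} [AddCommGroup V] [Module F V] [FiniteDimensional F V]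
    {p q : Submodule F V} (h : p ≤ q) :
    Module.finrank F (q ⧸ p.comap q.subtype) + Module.finrank F p = Module.finrank F q := by
  rw [← Submodule.finrank_quotient_add_finrank (p.comap q.subtype), (Submodule.comapSubtypeEquivOfLe h).finrank_eq]

theorem betti_zero (F : Type w) [Field F] {G : Type} [Group G] {D : ℕ} (R : FFR G D) (N : Subgroup G) [N.Normal]
    [N.FiniteIndex] : betti F R N 0 + rk F N (R.d 0) = Fintype.card (R.ι 0) * N.index := by
  have h := BET_quot F (p := bdr F R N 0) (q := cyc F R N 0) le_top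
  have h2 : Module.finrank F (cyc F R N 0) = Fintype.card (R.ι 0) * N.index := by
    rw [← finrank_row F N (R.ι 0)]
    exact finrank_top F _
  rw [← h2]
  exact h

theorem betti_succ (F : Type w) [Field F] {G : Type} [Group G] {D : ℕ} (R : FFR G D) (N : Subgroup G) [N.Normal]
    [N.FiniteIndex] (n : ℕ) :
    betti F R N (n + 1) + rk F N (R.d n) + rk F N (R.d (n + 1)) = Fintype.card (R.ι (n + 1)) * N.index := by
  have hle : bdr F R N (n + 1) ≤ cyc F R N (n + 1) := by
    have e : actM F ((R.d n).map (toQ F N)) ∘ₗ actM F ((R.d (n + 1)).map (toQ F N)) = 0 := by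
      rw [← actM_mul, ← Matrix.map_mul, dd R n]
      ext1 u
      simp [actM_apply, Matrix.map_zero]
    exact LinearMap.range_le_ker_iff.2 e
  have h := BET_quot F (p := bdr F R N (n + 1)) (q := cyc F R N (n + 1)) hle
  have h2 := rk_add_ker F N (R.d n)
  have h3 : Module.finrank F (cyc F R N (n + 1)) =
      Module.finrank F (LinearMap.ker (actM F ((R.d n).map (toQ F N)))) := rfl
  have h4 : betti F R N (n + 1) + rk F N (R.d (n + 1)) = Module.finrank F (cyc F R N (n + 1)) := h
  omega

end NBT
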