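import Pool.Agent.Lib.MP_83fbc5_gt.Defs
import Pool.Agent.Lib.MP_32d917_al_raag.W03

/-!
# MP_83fbc5_gt: definitions used in the construction

* `VG H`: a finite label set `I` with ranks `0, 1, 2`, a transitive relation `R` increasing the rank and a cocycle `g`. It describes
  the `H`-graph `gr` with vertices `H × I` and edges `(h, i) -- (h * g i j, j)` for `R i j`; `J2`, `J3` are the orbits of edges and of
  triangles.
* `bd2`, `bd3`: the boundary matrices of the flag complex of this graph over `ℤ[H]`.
* `GG = RA(gr) ⋊ H`, `K2`, `K3`: the Koszul matrices over `ℤ[GG]`.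
-/

set_option autoImplicit false

namespace NBT

open Matrix RaagIso

universe w

/-- the ring homomorphism `ℤ[H] → ℤ[G]` of a homomorphism `f : H → G` -/
noncomputable def ind {H G : Type} [Group H] [Group G] (f : H →* G) :
    MonoidAlgebra ℤ H →+* MonoidAlgebra ℤ G :=
  MonoidAlgebra.mapDomainRingHom ℤ f

/-- a group element as an element of the group ring -/
noncomputable abbrev el {G : Type} [Group G] (g : G) : MonoidAlgebra ℤ G := MonoidAlgebra.single g 1

/-- the additive map `ℤ[G] → ℤ^(A)` induced by a map `π : G → A` -/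
noncomputable def pf {G A : Type} [Group G] (π : G → A) (x : MonoidAlgebra ℤ G) : A →₀ ℤ :=
  Finsupp.mapDomain π x.coeff

/-- the additive map `ℤ[G]^ι → ℤ^(A)`, `g e_i ↦ aug i * [π g]` -/
noncomputable def eP {G A : Type} [Group G] (π : G → A) {ι : Type} [Fintype ι] (aug : ι → ℤ)
    (u : ι → MonoidAlgebra ℤ G) : A →₀ ℤ :=
  ∑ i, aug i • pf π (u i)

/-- sum of the coefficients -/
noncomputable def augM {A : Type} (m : A →₀ ℤ) : ℤ := m.sum fun _ c => c

/-- the scalar matrix with entry `s` -/
noncomputable def scal {S : Type w} [Ring S] (n : Type) (s : S) : Matrix n n S := by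
  classical exact Matrix.of fun i => Pi.single i s

/-- a voltage graph of poset type -/
structure VG (H : Type) [Group H] where
  I : Type
  fin : Finite I
  rho : I → ℕ
  rho_lt : ∀ i, rho i < 3
  R : I → I → Prop
  g : I → I → H
  lt : ∀ i j, R i j → rho i < rho j
  trans : ∀ i j k, R i j → R j k → R i k
  coh : ∀ i j k, R i j → R j k → g i k = g i j * g j k

attribute [instance] VG.fin

namespace VG

variable {H : Type} [Group H] (L : VG H)

/-- the graph on `H × I` -/
def gr : SimpleGraph (H × L.I) where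
  Adj v w := (L.R v.2 w.2 ∧ w.1 = v.1 * L.g v.2 w.2) ∨ (L.R w.2 v.2 ∧ v.1 = w.1 * L.g w.2 v.2)
  symm := ⟨fun _ _ h => h.symm⟩
  loopless := ⟨fun _ h => h.elim (fun h => absurd (L.lt _ _ h.1) (lt_irrefl _))
    (fun h => absurd (L.lt _ _ h.1) (lt_irrefl _))⟩

/-- orbits of edges -/
def J2 : Type := {p : L.I × L.I // L.R p.1 p.2}

/-- orbits of triangles -/
def J3 : Type := {p : L.I × L.I × L.I // L.R p.1 p.2.1 ∧ L.R p.2.1 p.2.2}

instance : Finite L.J2 := inferInstanceAs (Finite {p : L.I × L.I // L.R p.1 p.2})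

instance : Finite L.J3 :=
  inferInstanceAs (Finite {p : L.I × L.I × L.I // L.R p.1 p.2.1 ∧ L.R p.2.1 p.2.2})

noncomputable instance : Fintype L.I := Fintype.ofFinite _

noncomputable instance : Fintype L.J2 := Fintype.ofFinite _

noncomputable instance : Fintype L.J3 := Fintype.ofFinite _

noncomputable instance : DecidableEq L.I := Classical.decEq _

noncomputable instance : DecidableEq L.J2 := Classical.decEq _

noncomputable instance : DecidableEq L.J3 := Classical.decEq _

variable {L} in
/-- the face `(j, k)` of a triangle `(i, j, k)` -/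
def J3.f0 (p : L.J3) : L.J2 := ⟨(p.1.2.1, p.1.2.2), p.2.2⟩

variable {L} in
/-- the face `(i, k)` of a triangle `(i, j, k)` -/
def J3.f1 (p : L.J3) : L.J2 := ⟨(p.1.1, p.1.2.2), L.trans _ _ _ p.2.1 p.2.2⟩

variable {L} in
/-- the face `(i, j)` of a triangle `(i, j, k)` -/
def J3.f2 (p : L.J3) : L.J2 := ⟨(p.1.1, p.1.2.1), p.2.1⟩

/-- the boundary of edges, `(i, j) ↦ g e_j - e_i` -/
noncomputable def bd2 : Matrix L.J2 L.I (MonoidAlgebra ℤ H) :=
  Matrix.of fun p => Pi.single p.1.2 (el (L.g p.1.1 p.1.2)) - Pi.single p.1.1 1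

/-- the boundary of triangles, `(i, j, k) ↦ g e_(j, k) - e_(i, k) + e_(i, j)` -/
noncomputable def bd3 : Matrix L.J3 L.J2 (MonoidAlgebra ℤ H) :=
  Matrix.of fun p => Pi.single p.f0 (el (L.g p.1.1 p.1.2.1)) - Pi.single p.f1 1 + Pi.single p.f2 1

/-- the voltage graph over another group -/
def map {H' : Type} [Group H'] (f : H →* H') : VG H' where
  I := L.I
  fin := L.fin
  rho := L.rho
  rho_lt := L.rho_lt
  R := L.R
  g i j := f (L.g i j)
  lt := L.lt
  trans := L.trans
  coh i j k h h' := by rw [L.coh i j k h h', map_mul]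

end VG

end NBT
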