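import Pool.Agent.Lib.MP_83fbc5_gt.BET

/-!
# MP_83fbc5_gt, module CEN1: a central element acts homotopically trivially on a resolution
-/

set_option autoImplicit false

namespace NBT

open Matrix

private theorem CEN1_central {H : Type} [Group H] (t : H) (ht : ∀ h, h * t = t * h)
    (x : MonoidAlgebra ℤ H) : (1 - el t) * x = x * (1 - el t) := by
  refine zg_ind (P := fun x => (1 - el t) * x = x * (1 - el t)) ?_ ?_ ?_ ?_ x
  · simp
  · intro g
    rw [sub_mul, mul_sub, one_mul, mul_one, ← el_mul, ← el_mul, ht g]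
  · intro x y hx hy
    rw [mul_add, add_mul, hx, hy]
  · intro x hx
    rw [mul_neg, neg_mul, hx]

private theorem CEN1_scal_mul {S : Type} [Ring S] {m n : Type} [Fintype m] (s : S)
    (A : Matrix m n S) : scal m s * A = Matrix.of fun i j => s * A i j := by
  classical
  ext i j
  rw [Matrix.mul_apply]
  have e : ∀ k, scal m s i k = if k = i then s else 0 := fun k => by
    unfold scal
    rw [Matrix.of_apply, Pi.single_apply]
  simp [e]

private theorem CEN1_mul_scal {S : Type} [Ring S] {m n : Type} [Fintype n] (s : S)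
    (A : Matrix m n S) : A * scal n s = Matrix.of fun i j => A i j * s := by
  classical
  ext i j
  rw [Matrix.mul_apply]
  have e : ∀ k, scal n s k j = if j = k then s else 0 := fun k => by
    unfold scal
    rw [Matrix.of_apply, Pi.single_apply]
  simp [e]

private theorem CEN1_lift {H : Type} [Group H] {D : ℕ} (R : FFR H D) (n : ℕ) {m : Type}
    (M : Matrix m (R.ι (n + 1)) (MonoidAlgebra ℤ H)) (hM : M * R.d n = 0) :
    ∃ T : Matrix m (R.ι (n + 1 + 1)) (MonoidAlgebra ℤ H), T * R.d (n + 1) = M := by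
  have h : ∀ i, ∃ v, v ᵥ* R.d (n + 1) = M i := by
    intro i
    rw [← R.exact n (M i)]
    have := congrFun hM i
    rw [Matrix.mul_apply_eq_vecMul] at this
    exact this
  choose v hv using h
  refine ⟨Matrix.of v, ?_⟩
  funext i
  rw [Matrix.mul_apply_eq_vecMul]
  exact hv i

private theorem CEN1_lift0 {H : Type} [Group H] {D : ℕ} (R : FFR H D) {m : Type}
    (M : Matrix m (R.ι 0) (MonoidAlgebra ℤ H)) (hM : ∀ i, ∑ j, eps H (M i j) * R.aug j = 0) :
    ∃ T : Matrix m (R.ι (0 + 1)) (MonoidAlgebra ℤ H), T * R.d 0 = M := by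
  have h : ∀ i, ∃ v, v ᵥ* R.d 0 = M i := fun i => (R.exact0 (M i)).mp (hM i)
  choose v hv using h
  refine ⟨Matrix.of v, ?_⟩
  funext i
  rw [Matrix.mul_apply_eq_vecMul]
  exact hv i

theorem central_homotopy {H : Type} [Group H] {D : ℕ} (R : FFR H D) (t : H) (ht : ∀ h, h * t = t * h) :
    ∃ S : ∀ n, Matrix (R.ι n) (R.ι (n + 1)) (MonoidAlgebra ℤ H),
      scal (R.ι 0) (1 - el t) = S 0 * R.d 0 ∧
        ∀ n, scal (R.ι (n + 1)) (1 - el t) = R.d n * S n + S (n + 1) * R.d (n + 1) := by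
  classical
  set z : MonoidAlgebra ℤ H := 1 - el t with hz
  have hcomm : ∀ n, scal (R.ι (n + 1)) z * R.d n = R.d n * scal (R.ι n) z := by
    intro n
    rw [CEN1_scal_mul, CEN1_mul_scal]
    ext1 i j
    exact CEN1_central t ht _
  -- degree zero
  obtain ⟨S0, hS0⟩ := CEN1_lift0 R (scal (R.ι 0) z) (fun i => by
    apply Finset.sum_eq_zero
    intro j _
    have e : scal (R.ι 0) z i j = if j = i then z else 0 := by
      unfold scal
      rw [Matrix.of_apply, Pi.single_apply]
    rw [e]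
    split_ifs
    · rw [hz, map_sub, eps_el, map_one, sub_self, zero_mul]
    · rw [map_zero, zero_mul])
  -- the step
  let P : ∀ n, Matrix (R.ι n) (R.ι (n + 1)) (MonoidAlgebra ℤ H) → Prop :=
    fun n S => R.d n * (scal (R.ι n) z - S * R.d n) = 0
  have step : ∀ n (S : Matrix (R.ι n) (R.ι (n + 1)) (MonoidAlgebra ℤ H)), P n S →
      ∃ S' : Matrix (R.ι (n + 1)) (R.ι (n + 1 + 1)) (MonoidAlgebra ℤ H), P (n + 1) S' ∧
        scal (R.ι (n + 1)) z = R.d n * S + S' * R.d (n + 1) := by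
    intro n S hS
    obtain ⟨T, hT⟩ := CEN1_lift R n (scal (R.ι (n + 1)) z - R.d n * S) (by
      rw [Matrix.sub_mul, hcomm, Matrix.mul_assoc, ← Matrix.mul_sub]
      exact hS)
    refine ⟨T, ?_, ?_⟩
    · show R.d (n + 1) * (scal (R.ι (n + 1)) z - T * R.d (n + 1)) = 0
      rw [hT, sub_sub_cancel, ← Matrix.mul_assoc, dd, Matrix.zero_mul]
    · rw [hT]
      abel
  have h0 : P 0 S0 := by
    show R.d 0 * (scal (R.ι 0) z - S0 * R.d 0) = 0
    rw [hS0, sub_self, Matrix.mul_zero]
  choose f hf1 hf2 using step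
  let F : ∀ n, {S : Matrix (R.ι n) (R.ι (n + 1)) (MonoidAlgebra ℤ H) // P n S} :=
    fun n => Nat.rec ⟨S0, h0⟩ (fun n S => ⟨f n S.1 S.2, hf1 n S.1 S.2⟩) n
  refine ⟨fun n => (F n).1, hS0.symm, fun n => ?_⟩
  exact hf2 n (F n).1 (F n).2

end NBT
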