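import Pool.Agent.Lib.MP_83fbc5_gt.CEN1
import Pool.Agent.Lib.MP_83fbc5_gt.LA3

/-!
# MP_83fbc5_gt, module CEN2: Betti numbers are small when a central element has large order

PROOF. Let `q` be the image of `t` in `Q = H/N` (central). Map the matrix identities of `central_homotopy` to `F[Q]` (`Matrix.map_mul`, `scal_map`): for a
cycle `u` (`u ∈ cyc n`) the vector `u (1 - q) = u ᵥ* scal (1 - q)` (`vecMul_scal`) is a boundary. So `f (cyc n) ≤ bdr n`, where `f` is right
multiplication of all coordinates by `1 - q` (`diagR` with the constant function). Hence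
`betti n = dim cyc n - dim bdr n ≤ dim cyc n - dim f (cyc n) = dim (ker f ⊓ cyc n) ≤ dim ker f` (rank-nullity for the restriction of `f`), and
`orderOf q * dim ker f ≤ card (ι n) * 1 * |Q|` by `ker_diag` with the lists `[q]`. (`betti n = dim cyc n - dim bdr n`: see module BET; or use
`betti_zero`, `betti_succ` and `rk_add_ker`.) (45-60 minutes)
-/

set_option autoImplicit false

namespace NBT

open Matrix Module

universe w

theorem CEN2_scal_map {S : Type} [Ring S] {S' : Type w} [Ring S'] {n : Type} (f : S →+* S') (s : S) :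
    (scal n s).map f = scal n (f s) := by
  classical
  ext i j
  unfold scal
  simp only [Matrix.map_apply, Matrix.of_apply, Pi.single_apply]
  split_ifs <;> simp

/-- Dimension of the cycles. -/
theorem CEN2_cyc (F : Type w) [Field F] {H : Type} [Group H] {D : ℕ} (R : FFR H D)
    (N : Subgroup H) [N.Normal] [N.FiniteIndex] (n : ℕ) :
    finrank F (cyc F R N n) = betti F R N n + finrank F (bdr F R N n) := by
  cases n with
  | zero =>
    have h1 := betti_zero F R N
    have h2 : finrank F (cyc F R N 0) = Fintype.card (R.ι 0) * N.index := by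
      show finrank F (⊤ : Submodule F (R.ι 0 → MonoidAlgebra F (H ⧸ N))) = _
      rw [finrank_top, finrank_row]
    have h3 : rk F N (R.d 0) = finrank F (bdr F R N 0) := rfl
    omega
  | succ n =>
    have h1 := betti_succ F R N n
    have h2 := rk_add_ker F N (R.d n)
    have h3 : rk F N (R.d (n + 1)) = finrank F (bdr F R N (n + 1)) := rfl
    have h4 : finrank F (cyc F R N (n + 1)) =
        finrank F (LinearMap.ker (actM F ((R.d n).map (toQ F N)))) := rfl
    omega

/-- The central element maps cycles to boundaries. -/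
theorem CEN2_kill (F : Type w) [Field F] {H : Type} [Group H] {D : ℕ} (R : FFR H D) (t : H)
    (ht : ∀ h, h * t = t * h) (N : Subgroup H) [N.Normal] (n : ℕ)
    (u : R.ι n → MonoidAlgebra F (H ⧸ N)) (hu : u ∈ cyc F R N n) :
    diagR F (fun _ : R.ι n => (1 - MonoidAlgebra.single (QuotientGroup.mk t) 1 :
      MonoidAlgebra F (H ⧸ N))) u ∈ bdr F R N n := by
  obtain ⟨S, hS0, hS⟩ := central_homotopy R t ht
  have hz : toQ F N (1 - el t) = 1 - MonoidAlgebra.single (QuotientGroup.mk t) 1 := by
    rw [map_sub, map_one, toQ_el]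
  have hd : diagR F (fun _ : R.ι n => (1 - MonoidAlgebra.single (QuotientGroup.mk t) 1 :
      MonoidAlgebra F (H ⧸ N))) u = u ᵥ* (scal (R.ι n) (1 - el t)).map (toQ F N) := by
    rw [CEN2_scal_map, vecMul_scal, hz]
    rfl
  rw [hd]
  cases n with
  | zero =>
    rw [hS0, Matrix.map_mul, ← Matrix.vecMul_vecMul]
    exact ⟨_, rfl⟩
  | succ n =>
    have h0 : u ᵥ* (R.d n).map (toQ F N) = 0 := hu
    rw [hS n, Matrix.map_add _ (map_add _), Matrix.map_mul, Matrix.map_mul, Matrix.vecMul_add,
      ← Matrix.vecMul_vecMul, ← Matrix.vecMul_vecMul, h0, Matrix.zero_vecMul, zero_add]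
    exact ⟨_, rfl⟩

theorem betti_central (F : Type w) [Field F] {H : Type} [Group H] {D : ℕ} (R : FFR H D) (t : H)
    (ht : ∀ h, h * t = t * h) (N : Subgroup H) [N.Normal] [N.FiniteIndex] (n : ℕ) :
    orderOf (QuotientGroup.mk t : H ⧸ N) * betti F R N n ≤ Fintype.card (R.ι n) * N.index := by
  have h1 := ker_diag F (Q := H ⧸ N) (n := R.ι n) (fun _ => [(QuotientGroup.mk t : H ⧸ N)])
    (orderOf (QuotientGroup.mk t : H ⧸ N)) 1 (by
      intro i q hq
      rw [List.mem_singleton] at hq
      rw [hq]) (by intro i; simp)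
  have he : (fun _ : R.ι n => (([(QuotientGroup.mk t : H ⧸ N)] : List (H ⧸ N)).map fun q =>
      (1 - MonoidAlgebra.single q 1 : MonoidAlgebra F (H ⧸ N))).prod) =
      fun _ : R.ι n => (1 - MonoidAlgebra.single (QuotientGroup.mk t) 1 :
      MonoidAlgebra F (H ⧸ N)) := by
    funext i
    simp
  rw [he, mul_one] at h1
  set f := diagR F (fun _ : R.ι n => (1 - MonoidAlgebra.single (QuotientGroup.mk t) 1 :
      MonoidAlgebra F (H ⧸ N))) with hf
  have h2 : betti F R N n ≤ finrank F (LinearMap.ker f) := by
    have h3 := CEN2_cyc F R N n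
    have h4 := LinearMap.finrank_range_add_finrank_ker (f ∘ₗ (cyc F R N n).subtype)
    have h5 : finrank F (LinearMap.range (f ∘ₗ (cyc F R N n).subtype)) ≤
        finrank F (bdr F R N n) := by
      refine Submodule.finrank_mono ?_
      rintro _ ⟨⟨u, hu⟩, rfl⟩
      exact CEN2_kill F R t ht N n u hu
    have h6 : finrank F (LinearMap.ker (f ∘ₗ (cyc F R N n).subtype)) ≤
        finrank F (LinearMap.ker f) := by
      refine LinearMap.finrank_le_finrank_of_injective
        (f := ((cyc F R N n).subtype ∘ₗ (LinearMap.ker (f ∘ₗ (cyc F R N n).subtype)).subtype).codRestrict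
          (LinearMap.ker f) (fun x => x.2)) ?_
      intro x y hxy
      have h7 := congrArg Subtype.val hxy
      exact Subtype.ext (Subtype.ext h7)
    omega
  calc orderOf (QuotientGroup.mk t : H ⧸ N) * betti F R N n
      ≤ orderOf (QuotientGroup.mk t : H ⧸ N) * finrank F (LinearMap.ker f) :=
        Nat.mul_le_mul_left _ h2
    _ ≤ Fintype.card (R.ι n) * Nat.card (H ⧸ N) := h1
    _ = Fintype.card (R.ι n) * N.index := rfl

end NBT
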