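import Pool.Agent.Lib.MP_83fbc5_gt.QM
import Pool.Agent.Lib.MP_83fbc5_gt.VV

/-!
# MP_83fbc5_gt, module CL1: finite index normal subgroups of `GG` with prescribed intersection with `H`

PROOF. Let `f = QuotientGroup.mk' N`, `L' = L.map f`. There is a homomorphism `Π : L.GG →* L'.GG`, `x ↦ (L.qm f x.left, f x.right)` (multiplicative by `qm_phi`; e.g. `SemidirectProduct.map` or
`MonoidHom.mk'`). `K` is the preimage under `Π` of `K' = {y | y.right = 1 ∧ y.left ∈ VV _ m}` = image of `VV (RA L'.gr) m` under `inl`. `K'` is normal: it is normalised by `inl _` (`vv_normal`) and by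
`inr h` as `L'.phi h` preserves `VV` (`vv_map` applied to the automorphism). Finite index of `K` if `N` has finite index: `K'` has finite index in `L'.GG`: `L'.GG` is finite modulo
`range inl` (quotient `H ⧸ N`, finite) and `VV` has finite index in `RA L'.gr` (`vv_fin`, the vertex set `(H ⧸ N) × I` is finite). Concretely: the map
`L.GG → (RA L'.gr ⧸ VV) × (H ⧸ N)`, `x ↦ (mk (qm x.left), mk x.right)` has finite target and two elements with the same value differ by an element of `K`
(`x⁻¹ * y ∈ K`): `(x⁻¹ y).left = phi x.right⁻¹ (x.left⁻¹ * y.left)`. So `L.GG ⧸ K` injects in a finite set.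
(60-80 minutes)
-/

set_option autoImplicit false

namespace NBT

open RaagIso

namespace VG

theorem lft_exists {H : Type} [Group H] (L : VG H) (N : Subgroup H) [N.Normal] (m : ℕ) :
    ∃ K : Subgroup L.GG, K.Normal ∧ (N.FiniteIndex → K.FiniteIndex) ∧
      ∀ x : L.GG, x ∈ K ↔ x.right ∈ N ∧
        L.qm (QuotientGroup.mk' N) x.left ∈ VV (RA (L.map (QuotientGroup.mk' N)).gr) m := by
  have hphi : ∀ (k : H ⧸ N) (y : RA (L.map (QuotientGroup.mk' N)).gr),
      y ∈ VV (RA (L.map (QuotientGroup.mk' N)).gr) m →
        (L.map (QuotientGroup.mk' N)).phi k y ∈ VV (RA (L.map (QuotientGroup.mk' N)).gr) m := by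
    intro k y hy
    exact vv_map ((L.map (QuotientGroup.mk' N)).phi k).toMonoidHom m hy
  have h1 : ∀ (n : H), n ∈ N → ∀ (y : RA (L.map (QuotientGroup.mk' N)).gr),
      (L.map (QuotientGroup.mk' N)).phi (QuotientGroup.mk' N n) y = y := by
    intro n hn y
    have h2 : QuotientGroup.mk' N n = 1 := (QuotientGroup.eq_one_iff n).2 hn
    rw [h2, map_one]
    rfl
  let K : Subgroup L.GG :=
    { carrier := {x | x.right ∈ N ∧
        L.qm (QuotientGroup.mk' N) x.left ∈ VV (RA (L.map (QuotientGroup.mk' N)).gr) m}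
      mul_mem' := by
        rintro x y ⟨hx1, hx2⟩ ⟨hy1, hy2⟩
        refine ⟨?_, ?_⟩
        · rw [SemidirectProduct.mul_right]
          exact mul_mem hx1 hy1
        · rw [SemidirectProduct.mul_left, map_mul, qm_phi, h1 _ hx1]
          exact mul_mem hx2 hy2
      one_mem' := by
        refine ⟨?_, ?_⟩
        · rw [SemidirectProduct.one_right]
          exact one_mem _
        · rw [SemidirectProduct.one_left, map_one]
          exact one_mem _
      inv_mem' := by
        rintro x ⟨hx1, hx2⟩
        refine ⟨?_, ?_⟩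
        · rw [SemidirectProduct.inv_right]
          exact inv_mem hx1
        · rw [SemidirectProduct.inv_left, qm_phi, h1 _ (inv_mem hx1), map_inv]
          exact inv_mem hx2 }
  have hK : ∀ x : L.GG, x ∈ K ↔ x.right ∈ N ∧
        L.qm (QuotientGroup.mk' N) x.left ∈ VV (RA (L.map (QuotientGroup.mk' N)).gr) m := fun x => Iff.rfl
  refine ⟨K, ⟨?_⟩, ?_, hK⟩
  · intro x hx g
    rw [hK] at hx ⊢
    obtain ⟨hx1, hx2⟩ := hx
    have hc : g.right * x.right * g.right⁻¹ ∈ N := Subgroup.Normal.conj_mem inferInstance _ hx1 _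
    refine ⟨?_, ?_⟩
    · rw [SemidirectProduct.mul_right, SemidirectProduct.mul_right, SemidirectProduct.inv_right]
      exact hc
    · rw [SemidirectProduct.mul_left, SemidirectProduct.mul_left, SemidirectProduct.inv_left,
        SemidirectProduct.mul_right, ← MulAut.mul_apply, ← map_mul L.phi, map_mul, map_mul, qm_phi, qm_phi,
        h1 _ hc, map_inv]
      exact (vv_normal _ _).conj_mem _ (hphi _ _ hx2) _
  · intro hN
    have hfin : (VV (RA (L.map (QuotientGroup.mk' N)).gr) m).FiniteIndex := by
      have : Finite ((H ⧸ N) × (L.map (QuotientGroup.mk' N)).I) := inferInstance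
      exact vv_fin _ _
    have hfin2 : Finite (RA (L.map (QuotientGroup.mk' N)).gr ⧸ VV (RA (L.map (QuotientGroup.mk' N)).gr) m) :=
      inferInstance
    let Θ : L.GG → (RA (L.map (QuotientGroup.mk' N)).gr ⧸ VV (RA (L.map (QuotientGroup.mk' N)).gr) m) × (H ⧸ N) :=
      fun x => (QuotientGroup.mk (L.qm (QuotientGroup.mk' N) x.left), QuotientGroup.mk x.right)
    have hΘ : ∀ x y : L.GG, Θ x = Θ y → x⁻¹ * y ∈ K := by
      intro x y hxy
      rw [hK]
      have e1 := congrArg Prod.fst hxy
      have e2 := congrArg Prod.snd hxy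
      have e1' := QuotientGroup.eq.1 e1
      have e2' := QuotientGroup.eq.1 e2
      refine ⟨?_, ?_⟩
      · rw [SemidirectProduct.mul_right, SemidirectProduct.inv_right]
        exact e2'
      · rw [SemidirectProduct.mul_left, SemidirectProduct.inv_left, SemidirectProduct.inv_right, ← map_mul,
          qm_phi, map_mul (L.qm (QuotientGroup.mk' N)), map_inv (L.qm (QuotientGroup.mk' N))]
        exact hphi _ _ e1'
    have : Finite (L.GG ⧸ K) := by
      refine Finite.of_injective (fun a : L.GG ⧸ K => Θ a.out) ?_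
      intro a b hab
      have h3 := hΘ _ _ hab
      have h4 : (QuotientGroup.mk a.out : L.GG ⧸ K) = QuotientGroup.mk b.out := QuotientGroup.eq.2 h3
      rwa [QuotientGroup.out_eq', QuotientGroup.out_eq'] at h4
    exact Subgroup.finiteIndex_of_finite_quotient

end VG

end NBT
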