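import Pool.Agent.Lib.MP_83fbc5_gt.CDefs

/-!
# MP_83fbc5_gt, CellDefs: equivariant polygonal complexes

`Cell H` describes a regular 2-dimensional `H`-complex with free action: vertices `H × C0`, edges `H × C1`, polygons `H × C2`. The edge `(1, e)` goes from `(h0 e, e0 e)` to `(h1 e, e1 e)`. `S` is the set of
sides of polygons: the side `s` of the polygon `(1, face s)` is the edge `(sv s, ed s)`, run through in its direction if `sg s`, in the opposite direction otherwise; `nx s` is the next side.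
`st s`, `cv s`: label and group element of the starting vertex of the side `s`; `en s`, `ev s`: of its end. The labels of the vertices (edges) of a polygon are different.
`toVG`: the voltage graph of the face poset (labels `C0 ⊕ C1 ⊕ C2`), so `bd2`, `bd3` are the boundaries of its barycentric subdivision. `c1`, `c2`: cellular boundary matrices.
-/

set_option autoImplicit false

namespace NBT

open Matrix

structure Cell (H : Type) [Group H] where
  C0 : Type
  C1 : Type
  C2 : Type
  S : Type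
  fin0 : Finite C0
  fin1 : Finite C1
  fin2 : Finite C2
  finS : Finite S
  e0 : C1 → C0
  e1 : C1 → C0
  h0 : C1 → H
  h1 : C1 → H
  ne : ∀ e, e0 e ≠ e1 e
  face : S → C2
  nx : Equiv.Perm S
  ed : S → C1
  sv : S → H
  sg : S → Bool
  face_nx : ∀ s, face (nx s) = face s
  face_surj : Function.Surjective face
  ed_inj : ∀ s s', face s = face s' → ed s = ed s' → s = s'
  st_inj : ∀ s s', face s = face s' →
    (if sg s then e0 (ed s) else e1 (ed s)) = (if sg s' then e0 (ed s') else e1 (ed s')) → s = s'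
  glue : ∀ s, (if sg s then e1 (ed s) else e0 (ed s)) = (if sg (nx s) then e0 (ed (nx s)) else e1 (ed (nx s)))
  glue_v : ∀ s, sv s * (if sg s then h1 (ed s) else h0 (ed s)) =
    sv (nx s) * (if sg (nx s) then h0 (ed (nx s)) else h1 (ed (nx s)))
  trans : ∀ P : S → Prop, (∀ s, P s → P (nx s)) → ∀ s s', face s = face s' → P s → P s'

attribute [instance] Cell.fin0 Cell.fin1 Cell.fin2 Cell.finS

namespace Cell

variable {H : Type} [Group H] (K : Cell H)

noncomputable instance : Fintype K.C0 := Fintype.ofFinite _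

noncomputable instance : Fintype K.C1 := Fintype.ofFinite _

noncomputable instance : Fintype K.C2 := Fintype.ofFinite _

noncomputable instance : Fintype K.S := Fintype.ofFinite _

noncomputable instance : DecidableEq K.C0 := Classical.decEq _

noncomputable instance : DecidableEq K.C1 := Classical.decEq _

noncomputable instance : DecidableEq K.C2 := Classical.decEq _

/-- label of the starting vertex of a side -/
def st (s : K.S) : K.C0 := if K.sg s then K.e0 (K.ed s) else K.e1 (K.ed s)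

/-- label of the end of a side -/
def en (s : K.S) : K.C0 := if K.sg s then K.e1 (K.ed s) else K.e0 (K.ed s)

/-- group element of the starting vertex of a side -/
def cv (s : K.S) : H := K.sv s * (if K.sg s then K.h0 (K.ed s) else K.h1 (K.ed s))

/-- group element of the end of a side -/
def ev (s : K.S) : H := K.sv s * (if K.sg s then K.h1 (K.ed s) else K.h0 (K.ed s))

theorem en_eq (s : K.S) : K.en s = K.st (K.nx s) := K.glue s

theorem ev_eq (s : K.S) : K.ev s = K.cv (K.nx s) := K.glue_v s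

theorem st_inj' {s s' : K.S} (h : K.face s = K.face s') (h' : K.st s = K.st s') : s = s' := K.st_inj s s' h h'

/-- sign of a side -/
def sgn (s : K.S) : ℤ := if K.sg s then 1 else -1

/-- the face relation on the labels -/
def rel : K.C0 ⊕ K.C1 ⊕ K.C2 → K.C0 ⊕ K.C1 ⊕ K.C2 → Prop
  | Sum.inl a, Sum.inr (Sum.inl e) => K.e0 e = a ∨ K.e1 e = a
  | Sum.inl a, Sum.inr (Sum.inr f) => ∃ s, K.face s = f ∧ K.st s = a
  | Sum.inr (Sum.inl e), Sum.inr (Sum.inr f) => ∃ s, K.face s = f ∧ K.ed s = e
  | _, _ => False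

open Classical in
/-- the voltages -/
noncomputable def vol : K.C0 ⊕ K.C1 ⊕ K.C2 → K.C0 ⊕ K.C1 ⊕ K.C2 → H
  | Sum.inl a, Sum.inr (Sum.inl e) => if K.e0 e = a then (K.h0 e)⁻¹ else (K.h1 e)⁻¹
  | Sum.inl a, Sum.inr (Sum.inr f) => if h : ∃ s, K.face s = f ∧ K.st s = a then (K.cv h.choose)⁻¹ else 1
  | Sum.inr (Sum.inl e), Sum.inr (Sum.inr f) => if h : ∃ s, K.face s = f ∧ K.ed s = e then (K.sv h.choose)⁻¹ else 1
  | _, _ => 1

def rnk : K.C0 ⊕ K.C1 ⊕ K.C2 → ℕ
  | Sum.inl _ => 0
  | Sum.inr (Sum.inl _) => 1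
  | Sum.inr (Sum.inr _) => 2

theorem vol_st (s : K.S) : K.vol (Sum.inl (K.st s)) (Sum.inr (Sum.inr (K.face s))) = (K.cv s)⁻¹ := by
  have h : ∃ s', K.face s' = K.face s ∧ K.st s' = K.st s := ⟨s, rfl, rfl⟩
  have e : h.choose = s := K.st_inj' h.choose_spec.1 h.choose_spec.2
  show (if h : ∃ s', K.face s' = K.face s ∧ K.st s' = K.st s then (K.cv h.choose)⁻¹ else 1) = _
  rw [dif_pos h, e]

theorem vol_ed (s : K.S) : K.vol (Sum.inr (Sum.inl (K.ed s))) (Sum.inr (Sum.inr (K.face s))) = (K.sv s)⁻¹ := by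
  have h : ∃ s', K.face s' = K.face s ∧ K.ed s' = K.ed s := ⟨s, rfl, rfl⟩
  have e : h.choose = s := K.ed_inj _ _ h.choose_spec.1 h.choose_spec.2
  show (if h : ∃ s', K.face s' = K.face s ∧ K.ed s' = K.ed s then (K.sv h.choose)⁻¹ else 1) = _
  rw [dif_pos h, e]

theorem vol_e0 (e : K.C1) : K.vol (Sum.inl (K.e0 e)) (Sum.inr (Sum.inl e)) = (K.h0 e)⁻¹ := if_pos rfl

theorem vol_e1 (e : K.C1) : K.vol (Sum.inl (K.e1 e)) (Sum.inr (Sum.inl e)) = (K.h1 e)⁻¹ := if_neg (K.ne e)

theorem vol_sts (s : K.S) : K.vol (Sum.inl (K.st s)) (Sum.inr (Sum.inl (K.ed s))) =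
    (if K.sg s then K.h0 (K.ed s) else K.h1 (K.ed s))⁻¹ := by
  unfold st
  split_ifs
  · exact K.vol_e0 _
  · exact K.vol_e1 _

theorem vol_ens (s : K.S) : K.vol (Sum.inl (K.en s)) (Sum.inr (Sum.inl (K.ed s))) =
    (if K.sg s then K.h1 (K.ed s) else K.h0 (K.ed s))⁻¹ := by
  unfold en
  split_ifs
  · exact K.vol_e1 _
  · exact K.vol_e0 _

theorem mem_cases {a : K.C0} {s : K.S} (h : K.e0 (K.ed s) = a ∨ K.e1 (K.ed s) = a) : K.st s = a ∨ K.en s = a := by
  unfold st en
  split_ifs
  · exact h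
  · exact h.symm

theorem rel_trans : ∀ i j k, K.rel i j → K.rel j k → K.rel i k := by
  rintro (a | e | f) (a' | e' | f') (a'' | e'' | f'') h h' <;> try exact h.elim
  all_goals try exact h'.elim
  obtain ⟨s, hs, rfl⟩ := h'
  rcases K.mem_cases h with h | h
  · exact ⟨s, hs, h⟩
  · exact ⟨K.nx s, by rw [K.face_nx, hs], by rw [← en_eq, h]⟩

theorem rel_coh : ∀ i j k, K.rel i j → K.rel j k → K.vol i k = K.vol i j * K.vol j k := by
  rintro (a | e | f) (a' | e' | f') (a'' | e'' | f'') h h' <;> try exact h.elim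
  all_goals try exact h'.elim
  obtain ⟨s, rfl, rfl⟩ := h'
  rcases K.mem_cases h with rfl | rfl
  · rw [vol_st, vol_sts, vol_ed, ← _root_.mul_inv_rev]
    rfl
  · rw [vol_ens, vol_ed, ← _root_.mul_inv_rev, en_eq, ← K.face_nx s, vol_st, ← ev_eq]
    rfl

theorem rel_lt : ∀ i j, K.rel i j → K.rnk i < K.rnk j := by
  rintro (a | e | f) (a' | e' | f') h <;> first | exact h.elim | (simp [rnk])

/-- the voltage graph of the face poset -/
noncomputable def toVG : VG H where
  I := K.C0 ⊕ K.C1 ⊕ K.C2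
  fin := inferInstance
  rho := K.rnk
  rho_lt := by rintro (a | e | f) <;> simp [rnk]
  R := K.rel
  g := K.vol
  lt := K.rel_lt
  trans := K.rel_trans
  coh := K.rel_coh

/-- cellular boundary of edges -/
noncomputable def c1 : Matrix K.C1 K.C0 (MonoidAlgebra ℤ H) :=
  Matrix.of fun e => Pi.single (K.e1 e) (el (K.h1 e)) - Pi.single (K.e0 e) (el (K.h0 e))

open Classical in
/-- cellular boundary of polygons -/
noncomputable def c2 : Matrix K.C2 K.C1 (MonoidAlgebra ℤ H) :=
  Matrix.of fun f => ∑ s : K.S, if K.face s = f then Pi.single (K.ed s) (K.sgn s • el (K.sv s)) else 0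

end Cell

end NBT
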