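import Mathlib

/-!
# MP_83fbc5_gt: definitions used in the statement

Row vectors throughout: a matrix `A` with rows `m` and columns `n` over a ring `S` is the homomorphism of left modules
`S^m → S^n`, `u ↦ u A`.
-/

set_option autoImplicit false

namespace NBT

open Matrix

universe w

/-- the augmentation `ℤ[G] → ℤ` (sum of the coefficients) -/
noncomputable def eps (G : Type) [Group G] : MonoidAlgebra ℤ G →+* ℤ :=
  (MonoidAlgebra.lift ℤ ℤ G (1 : G →* ℤ)).toRingHom

/-- the ring homomorphism `ℤ[G] → F[G/N]` -/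
noncomputable def toQ (F : Type w) [Field F] {G : Type} [Group G] (N : Subgroup G) [N.Normal] :
    MonoidAlgebra ℤ G →+* MonoidAlgebra F (G ⧸ N) :=
  (MonoidAlgebra.mapRingHom (G ⧸ N) (Int.castRingHom F)).comp
    (MonoidAlgebra.mapDomainRingHom ℤ (QuotientGroup.mk' N))

/-- the `F`-linear map `u ↦ u A` of a matrix over an `F`-algebra -/
noncomputable def actM (F : Type w) [Field F] {S : Type w} [Ring S] [Algebra F S] {m n : Type} [Fintype m]
    (A : Matrix m n S) : (m → S) →ₗ[F] (n → S) :=
  (Matrix.vecMulLinear A).restrictScalars F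

/-- the dimension over `F` of the image of `u ↦ u A` -/
noncomputable def rkM (F : Type w) [Field F] {S : Type w} [Ring S] [Algebra F S] {m n : Type} [Fintype m]
    (A : Matrix m n S) : ℕ :=
  Module.finrank F (LinearMap.range (actM F A))

/-- the rank of a matrix over `ℤ[G]` at the quotient `G/N`: the dimension over `F` of the image of
`F[G/N]^m → F[G/N]^n`, `u ↦ u A` -/
noncomputable def rk (F : Type w) [Field F] {G : Type} [Group G] (N : Subgroup G) [N.Normal] {m n : Type}
    [Fintype m] (A : Matrix m n (MonoidAlgebra ℤ G)) : ℕ :=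
  rkM F (A.map (toQ F N))

/-- the dimension over `F` of `q / (p ∩ q)` -/
noncomputable def qdim (F : Type w) [Field F] {V : Type w} [AddCommGroup V] [Module F V] (p q : Submodule F V) : ℕ :=
  Module.finrank F (q ⧸ p.comap q.subtype)

/-- a finite free resolution of length at most `D` of the trivial module `ℤ` over `ℤ[G]`: the modules are `ℤ[G]^(ι n)`, the
differentials are `u ↦ u (d n)`, from degree `n + 1` to degree `n`, and the augmentation is `u ↦ ∑ i, eps (u i) * aug i` -/
structure FFR (G : Type) [Group G] (D : ℕ) where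
  ι : ℕ → Type
  fin : ∀ n, Fintype (ι n)
  d : ∀ n, Matrix (ι (n + 1)) (ι n) (MonoidAlgebra ℤ G)
  aug : ι 0 → ℤ
  len : ∀ n, D < n → IsEmpty (ι n)
  exact : ∀ n (u : ι (n + 1) → MonoidAlgebra ℤ G), u ᵥ* d n = 0 ↔ ∃ v, v ᵥ* d (n + 1) = u
  exact0 : ∀ u : ι 0 → MonoidAlgebra ℤ G, ∑ i, eps G (u i) * aug i = 0 ↔ ∃ v, v ᵥ* d 0 = u
  surj : ∃ u : ι 0 → MonoidAlgebra ℤ G, ∑ i, eps G (u i) * aug i = 1

attribute [instance] FFR.fin

section

variable (F : Type w) [Field F] {G : Type} [Group G] {D : ℕ} (R : FFR G D) (N : Subgroup G) [N.Normal]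

/-- the `n`-cycles of the complex `F[G/N]^(ι n)` -/
noncomputable def cyc : (n : ℕ) → Submodule F (R.ι n → MonoidAlgebra F (G ⧸ N))
  | 0 => ⊤
  | n + 1 => LinearMap.ker (actM F ((R.d n).map (toQ F N)))

/-- the `n`-boundaries of the complex `F[G/N]^(ι n)` -/
noncomputable def bdr (n : ℕ) : Submodule F (R.ι n → MonoidAlgebra F (G ⧸ N)) :=
  LinearMap.range (actM F ((R.d n).map (toQ F N)))

/-- the `n`-th Betti number of `N` over `F`: the dimension of cycles modulo boundaries -/
noncomputable def betti (n : ℕ) : ℕ :=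
  qdim F (bdr F R N n) (cyc F R N n)

end

/-- a nested sequence of normal subgroups of finite index with trivial intersection -/
structure Chain (G : Type) [Group G] where
  N : ℕ → Subgroup G
  normal : ∀ i, (N i).Normal
  fin : ∀ i, (N i).FiniteIndex
  anti : Antitone N
  bot : ⨅ i, N i = ⊥

attribute [instance] Chain.normal Chain.fin

/-- Q1 in degree `n` for the field `F` and all groups of type `F` with a finite free resolution of length at most `D` -/
def Q1 (F : Type w) [Field F] (D n : ℕ) : Prop :=
  ∀ (G : Type) [Group G], Group.IsFinitelyPresented G → ∀ R : FFR G D,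
    ∃ L : ℝ, ∀ C : Chain G,
      Filter.Tendsto (fun i => (betti F R (C.N i) n : ℝ) / ((C.N i).index : ℝ)) Filter.atTop (nhds L)

/-- convergence, with a limit independent of the chain, of the normalised ranks of all matrices over the group rings of the groups
of type `F` with a finite free resolution of length at most `D` -/
def MatConv (F : Type w) [Field F] (D : ℕ) : Prop :=
  ∀ (G : Type) [Group G], Group.IsFinitelyPresented G → Nonempty (FFR G D) →
    ∀ (m n : ℕ) (A : Matrix (Fin m) (Fin n) (MonoidAlgebra ℤ G)),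
      ∃ L : ℝ, ∀ C : Chain G,
        Filter.Tendsto (fun i => (rk F (C.N i) A : ℝ) / ((C.N i).index : ℝ)) Filter.atTop (nhds L)

end NBT
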