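import Pool.Agent.Lib.MP_83fbc5_gt.SDefs
import Pool.Agent.Lib.MP_83fbc5_gt.Basic

/-!
# MP_83fbc5_gt, module EQV: equivariance of the augmentations
-/

set_option autoImplicit false

namespace NBT

open Matrix RaagIso

private theorem EQV_pf_neg {G A : Type} [Group G] (π : G → A) (x : MonoidAlgebra ℤ G) :
    pf π (-x) = -pf π x := by
  have h : pf π x + pf π (-x) = 0 := by rw [← pf_add, add_neg_cancel, pf_zero]
  exact eq_neg_of_add_eq_zero_right h

private noncomputable def EQV_aug {A : Type} : (A →₀ ℤ) →+ ℤ :=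
  Finsupp.liftAddHom fun _ => AddMonoidHom.id ℤ

private theorem EQV_aug_apply {A : Type} (m : A →₀ ℤ) : augM m = EQV_aug m := rfl

private theorem EQV_aug_pf {G A : Type} [Group G] (π : G → A) (x : MonoidAlgebra ℤ G) :
    EQV_aug (pf π x) = eps G x := by
  refine zg_ind (P := fun x => EQV_aug (pf π x) = eps G x) ?_ ?_ ?_ ?_ x
  · rw [pf_zero, map_zero, map_zero]
  · intro g
    rw [pf_el, eps_el]
    simp [EQV_aug]
  · intro x y hx hy
    rw [pf_add, map_add, map_add, hx, hy]
  · intro x hx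
    rw [EQV_pf_neg, map_neg, map_neg, hx]

theorem augM_eP {G A : Type} [Group G] (π : G → A) {ι : Type} [Fintype ι] (aug : ι → ℤ) (u : ι → MonoidAlgebra ℤ G) :
    augM (eP π aug u) = ∑ i, eps G (u i) * aug i := by
  rw [EQV_aug_apply]
  unfold eP
  rw [map_sum]
  refine Finset.sum_congr rfl fun i _ => ?_
  rw [map_zsmul, EQV_aug_pf, smul_eq_mul, mul_comm]

namespace VG

variable {H : Type} [Group H] (L : VG H)

private noncomputable def EQV_aM (x : L.GG) : (RA L.gr →₀ ℤ) →+ (RA L.gr →₀ ℤ) :=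
  Finsupp.mapDomain.addMonoidHom fun a => x.left * L.phi x.right a

private theorem EQV_aM_apply (x : L.GG) (m : RA L.gr →₀ ℤ) : L.aM x m = L.EQV_aM x m := rfl

private theorem EQV_left (g : L.GG) (x : MonoidAlgebra ℤ L.GG) :
    pf SemidirectProduct.left (el g * x) = L.EQV_aM g (pf SemidirectProduct.left x) := by
  refine zg_ind (P := fun x => pf SemidirectProduct.left (el g * x) =
    L.EQV_aM g (pf SemidirectProduct.left x)) ?_ ?_ ?_ ?_ x
  · rw [mul_zero, pf_zero, map_zero]
  · intro y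
    rw [← el_mul, pf_el, pf_el]
    show _ = Finsupp.mapDomain _ _
    rw [Finsupp.mapDomain_single]
    rfl
  · intro x y hx hy
    rw [mul_add, pf_add, pf_add, map_add, hx, hy]
  · intro x hx
    rw [mul_neg, EQV_pf_neg, EQV_pf_neg, map_neg, hx]

theorem eK_smul (g : L.GG) (u : L.I → MonoidAlgebra ℤ L.GG) : L.eK (el g • u) = L.aM g (L.eK u) := by
  rw [EQV_aM_apply]
  unfold eK
  rw [map_sum]
  refine Finset.sum_congr rfl fun i _ => ?_
  rw [map_sub, ← EQV_left, ← EQV_left, ← mul_assoc]
  rfl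

theorem eP_smul {ι : Type} [Fintype ι] (aug : ι → ℤ) (g : L.GG) (u : ι → MonoidAlgebra ℤ L.GG) :
    eP (SemidirectProduct.left : L.GG → RA L.gr) aug (el g • u) =
      L.aM g (eP (SemidirectProduct.left : L.GG → RA L.gr) aug u) := by
  rw [EQV_aM_apply]
  unfold eP
  rw [map_sum]
  refine Finset.sum_congr rfl fun i _ => ?_
  rw [map_zsmul, ← EQV_left]
  rfl

theorem left_iff (x y : L.GG) : x.left = y.left ↔ ∃ h : H, y = x * L.iH h := by
  constructor
  · intro h
    refine ⟨x.right⁻¹ * y.right, ?_⟩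
    refine SemidirectProduct.ext ?_ ?_
    · rw [SemidirectProduct.mul_left, SemidirectProduct.left_inr, map_one, mul_one, h]
    · rw [SemidirectProduct.mul_right, SemidirectProduct.right_inr, mul_inv_cancel_left]
  · rintro ⟨h, rfl⟩
    rw [SemidirectProduct.mul_left, SemidirectProduct.left_inr, map_one, mul_one]

end VG

end NBT
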