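import Pool.Agent.Lib.MP_83fbc5_gt.RESG
import Pool.Agent.Lib.MP_83fbc5_gt.PHI2
import Pool.Agent.Lib.MP_83fbc5_gt.CEN2
import Pool.Agent.Lib.MP_83fbc5_gt.A45
import Pool.Agent.Lib.MP_83fbc5_gt.BET

/-!
# MP_83fbc5_gt, module EST: Betti numbers of `GG` in terms of the boundary ranks of the graph

PROOF. `T` from `res_GG`, `c0` from `K_rank`. Write `N' = N.comap L.iH`, `I = N.index`, `I' = N'.index` (positive), `q n = rk ((R.d n).map (ind iH))` at `N`. By `rk_ind` `q n * I' = rk F N' (R.d n) * I`, so with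
`betti_succ` for `R`, `N'`: `(card (R.ι (n+1)) * I - q n - q (n+1)) * I' = betti F R N' (n+1) * I`, and by `betti_central` (`k ≤ orderOf t`) `k * betti F R N' (n+1) ≤ card (R.ι (n+1)) * I'`; hence
`k * (card (R.ι (n+1)) * I - q n - q (n+1)) ≤ card (R.ι (n+1)) * I`. With `res_GG` this gives `k * |betti T 3 - (card J3 * I - rk K3)| ≤ c1 * I` and
`k * |betti T 2 - (card J2 * I - rk K2 - rk K3)| ≤ c1 * I`, `c1 = card ι 1 + card ι 2 + card ι 3`. Replace `rk K2`, `rk K3` by the ranks of `bd2`, `bd3` (`K_rank`), which satisfy `rk (bd.map ..) / I = rk F N' bd / I'` (`rk_ind`).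
Divide by `k * I`; `c = c1 + 2 * c0`.
(50-75 minutes)
-/

set_option autoImplicit false

namespace NBT

open Matrix Module

universe w

theorem EST_real {I I' k b J x y r s E c0 c1 : ℝ} (hI : 0 < I) (hI' : 0 < I') (hk : 0 < k)
    (h1 : |b - (J * I - x)| ≤ E) (hE : k * E ≤ c1 * I) (hx : k * |x - y| ≤ c0 * I)
    (hy : y * I' = r * I) (hc : c1 + c0 ≤ s) :
    |b / I - (J - r / I')| ≤ s / k := by
  have hr : r / I' = y / I := by
    rw [div_eq_div_iff hI'.ne' hI.ne']
    linarith
  have h2 : b / I - (J - r / I') = (b - (J * I - y)) / I := by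
    rw [hr]
    field_simp
  rw [h2, abs_div, abs_of_pos hI, div_le_div_iff₀ hI hk]
  have h3 : |b - (J * I - y)| ≤ |b - (J * I - x)| + |x - y| := by
    have h4 : b - (J * I - y) = (b - (J * I - x)) + (y - x) := by ring
    rw [h4, abs_sub_comm x y]
    exact abs_add_le _ _
  have h5 : |b - (J * I - y)| * k ≤ (E + |x - y|) * k :=
    mul_le_mul_of_nonneg_right (h3.trans (by linarith)) hk.le
  have h6 : (c1 + c0) * I ≤ s * I := mul_le_mul_of_nonneg_right hc hI.le
  nlinarith

theorem estimate (F : Type w) [Field F] {H : Type} [Group H] (t : H) (ht : ∀ h, h * t = t * h) (L : VG H) {D : ℕ}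
    (hD : 3 ≤ D) (R : FFR H D) :
    ∃ (T : FFR L.GG D) (c : ℝ), ∀ (N : Subgroup L.GG) [N.Normal] [N.FiniteIndex] (k : ℕ), 0 < k →
      k ≤ orderOf (QuotientGroup.mk t : H ⧸ N.comap L.iH) →
      (∀ i, k ≤ orderOf (QuotientGroup.mk (L.X (1, i)) : L.GG ⧸ N)) →
      |(betti F T N 2 : ℝ) / N.index - (Fintype.card L.J2 - (rk F (N.comap L.iH) L.bd2 : ℝ) / (N.comap L.iH).index -
          (rk F (N.comap L.iH) L.bd3 : ℝ) / (N.comap L.iH).index)| ≤ c / k ∧
      |(betti F T N 3 : ℝ) / N.index -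
          (Fintype.card L.J3 - (rk F (N.comap L.iH) L.bd3 : ℝ) / (N.comap L.iH).index)| ≤ c / k := by
  obtain ⟨T, hT⟩ := res_GG F L hD R
  obtain ⟨c0, hc0⟩ := VG.K_rank F L
  refine ⟨T, (Fintype.card (R.ι 1) : ℝ) + Fintype.card (R.ι 2) + Fintype.card (R.ι 3) + 2 * c0, ?_⟩
  intro N _ _ k hk hkt hkX
  have hfin : (N.comap L.iH).FiniteIndex := by
    constructor
    rw [Subgroup.index_comap]
    exact (inferInstance : (N.subgroupOf L.iH.range).FiniteIndex).index_ne_zero
  have hI : (0 : ℝ) < N.index := by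
    exact_mod_cast Nat.pos_of_ne_zero Subgroup.FiniteIndex.index_ne_zero
  have hI' : (0 : ℝ) < (N.comap L.iH).index := by
    exact_mod_cast Nat.pos_of_ne_zero Subgroup.FiniteIndex.index_ne_zero
  have hk' : (0 : ℝ) < k := by exact_mod_cast hk
  have hbet : ∀ n : ℕ, (k : ℝ) * (Fintype.card (R.ι (n + 1)) * N.index -
      rk F N ((R.d n).map (ind L.iH)) - rk F N ((R.d (n + 1)).map (ind L.iH))) ≤
      Fintype.card (R.ι (n + 1)) * N.index := by
    intro n
    have h1 := betti_succ F R (N.comap L.iH) n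
    have h2 := rk_ind F L.iH N (R.d n)
    have h3 := rk_ind F L.iH N (R.d (n + 1))
    have h4 : k * betti F R (N.comap L.iH) (n + 1) ≤
        Fintype.card (R.ι (n + 1)) * (N.comap L.iH).index :=
      (Nat.mul_le_mul_right _ hkt).trans (betti_central F R t ht (N.comap L.iH) (n + 1))
    have h1r : (betti F R (N.comap L.iH) (n + 1) : ℝ) + rk F (N.comap L.iH) (R.d n) +
        rk F (N.comap L.iH) (R.d (n + 1)) =
        Fintype.card (R.ι (n + 1)) * (N.comap L.iH).index := by exact_mod_cast h1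
    have h2r : (rk F N ((R.d n).map (ind L.iH)) : ℝ) * (N.comap L.iH).index =
        rk F (N.comap L.iH) (R.d n) * N.index := by exact_mod_cast h2
    have h3r : (rk F N ((R.d (n + 1)).map (ind L.iH)) : ℝ) * (N.comap L.iH).index =
        rk F (N.comap L.iH) (R.d (n + 1)) * N.index := by exact_mod_cast h3
    have h4r : (k : ℝ) * betti F R (N.comap L.iH) (n + 1) ≤
        Fintype.card (R.ι (n + 1)) * (N.comap L.iH).index := by exact_mod_cast h4
    have h5 : ((Fintype.card (R.ι (n + 1)) : ℝ) * N.index -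
        rk F N ((R.d n).map (ind L.iH)) - rk F N ((R.d (n + 1)).map (ind L.iH))) *
        (N.comap L.iH).index = betti F R (N.comap L.iH) (n + 1) * N.index := by
      have h6 : (betti F R (N.comap L.iH) (n + 1) : ℝ) = Fintype.card (R.ι (n + 1)) * (N.comap L.iH).index
          - rk F (N.comap L.iH) (R.d n) - rk F (N.comap L.iH) (R.d (n + 1)) := by linarith
      rw [h6, sub_mul, sub_mul, sub_mul, sub_mul, h2r, h3r]
      ring
    refine le_of_mul_le_mul_right ?_ hI'
    rw [mul_assoc, h5]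
    calc (k : ℝ) * (betti F R (N.comap L.iH) (n + 1) * N.index)
        = (k * betti F R (N.comap L.iH) (n + 1)) * N.index := by ring
      _ ≤ (Fintype.card (R.ι (n + 1)) * (N.comap L.iH).index) * N.index :=
          mul_le_mul_of_nonneg_right h4r hI.le
      _ = Fintype.card (R.ι (n + 1)) * N.index * (N.comap L.iH).index := by ring
  obtain ⟨hT2, hT3⟩ := hT N
  obtain ⟨hK2, hK3⟩ := hc0 N k hkX
  have hb1 := hbet 0
  have hb2 := hbet 1
  have hb3 := hbet 2
  norm_num at hb1 hb2 hb3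
  have hT2r : |(betti F T N 2 : ℝ) - (Fintype.card L.J2 * N.index - rk F N L.K2 - rk F N L.K3)| ≤
        (Fintype.card (R.ι 1) * N.index - rk F N ((R.d 0).map (ind L.iH)) - rk F N ((R.d 1).map (ind L.iH))) +
          (Fintype.card (R.ι 2) * N.index - rk F N ((R.d 1).map (ind L.iH)) - rk F N ((R.d 2).map (ind L.iH))) := by
    exact_mod_cast hT2
  have hT3r : |(betti F T N 3 : ℝ) - (Fintype.card L.J3 * N.index - rk F N L.K3)| ≤
        (Fintype.card (R.ι 2) * N.index - rk F N ((R.d 1).map (ind L.iH)) - rk F N ((R.d 2).map (ind L.iH))) +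
          (Fintype.card (R.ι 3) * N.index - rk F N ((R.d 2).map (ind L.iH)) - rk F N ((R.d 3).map (ind L.iH))) := by
    exact_mod_cast hT3
  have hK2r : (k : ℝ) * |(rk F N L.K2 : ℝ) - rk F N (L.bd2.map (ind L.iH))| ≤ c0 * N.index := by
    exact_mod_cast hK2
  have hK3r : (k : ℝ) * |(rk F N L.K3 : ℝ) - rk F N (L.bd3.map (ind L.iH))| ≤ c0 * N.index := by
    exact_mod_cast hK3
  have hi2 : (rk F N (L.bd2.map (ind L.iH)) : ℝ) * (N.comap L.iH).index =
      rk F (N.comap L.iH) L.bd2 * N.index := by exact_mod_cast rk_ind F L.iH N L.bd2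
  have hi3 : (rk F N (L.bd3.map (ind L.iH)) : ℝ) * (N.comap L.iH).index =
      rk F (N.comap L.iH) L.bd3 * N.index := by exact_mod_cast rk_ind F L.iH N L.bd3
  have hc1 : (0 : ℝ) ≤ Fintype.card (R.ι 1) := Nat.cast_nonneg _
  have hc2 : (0 : ℝ) ≤ Fintype.card (R.ι 2) := Nat.cast_nonneg _
  have hc3 : (0 : ℝ) ≤ Fintype.card (R.ι 3) := Nat.cast_nonneg _
  have hc00 : (0 : ℝ) ≤ c0 := Nat.cast_nonneg _
  constructor
  · have h := EST_real (I := N.index) (I' := (N.comap L.iH).index) (k := k)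
      (b := betti F T N 2) (J := Fintype.card L.J2)
      (x := rk F N L.K2 + rk F N L.K3)
      (y := rk F N (L.bd2.map (ind L.iH)) + rk F N (L.bd3.map (ind L.iH)))
      (r := rk F (N.comap L.iH) L.bd2 + rk F (N.comap L.iH) L.bd3)
      (s := (Fintype.card (R.ι 1) : ℝ) + Fintype.card (R.ι 2) + Fintype.card (R.ι 3) + 2 * c0)
      (E := (Fintype.card (R.ι 1) * N.index - rk F N ((R.d 0).map (ind L.iH)) - rk F N ((R.d 1).map (ind L.iH))) +
          (Fintype.card (R.ι 2) * N.index - rk F N ((R.d 1).map (ind L.iH)) - rk F N ((R.d 2).map (ind L.iH))))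
      (c0 := 2 * c0) (c1 := Fintype.card (R.ι 1) + Fintype.card (R.ι 2)) hI hI' hk'
      (by rw [← sub_sub]; exact hT2r) (by rw [mul_add, add_mul]; exact add_le_add hb1 hb2)
      (by
        have h1 : ((rk F N L.K2 : ℝ) + rk F N L.K3) -
            (rk F N (L.bd2.map (ind L.iH)) + rk F N (L.bd3.map (ind L.iH))) =
            ((rk F N L.K2 : ℝ) - rk F N (L.bd2.map (ind L.iH))) +
            ((rk F N L.K3 : ℝ) - rk F N (L.bd3.map (ind L.iH))) := by ring
        rw [h1]
        have h2 := mul_le_mul_of_nonneg_left (abs_add_le ((rk F N L.K2 : ℝ) - rk F N (L.bd2.map (ind L.iH)))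
            ((rk F N L.K3 : ℝ) - rk F N (L.bd3.map (ind L.iH)))) hk'.le
        linarith)
      (by rw [add_mul, add_mul, hi2, hi3]) (by linarith)
    rw [add_div, ← sub_sub] at h
    exact h
  · exact EST_real (I := N.index) (I' := (N.comap L.iH).index) (k := k)
      (b := betti F T N 3) (J := Fintype.card L.J3)
      (x := rk F N L.K3)
      (y := rk F N (L.bd3.map (ind L.iH)))
      (r := rk F (N.comap L.iH) L.bd3)
      (c0 := c0) (c1 := Fintype.card (R.ι 2) + Fintype.card (R.ι 3)) hI hI' hk'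
      hT3r (by rw [mul_add, add_mul]; exact add_le_add hb2 hb3) hK3r hi3 (by linarith)

end NBT
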