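import Pool.Agent.Lib.MP_83fbc5_gt.LIM
import Pool.Agent.Lib.MP_83fbc5_gt.REV
import Pool.Agent.Lib.MP_83fbc5_gt.CONE
import Pool.Agent.Lib.MP_83fbc5_gt.FPP
import Pool.Agent.Lib.MP_83fbc5_gt.PCH

/-!
# MP_83fbc5_gt, FIN: the equivalence (assembly)
-/

set_option autoImplicit false

namespace NBT

open Matrix

universe w

theorem mat_of_q1 (F : Type w) [Field F] (D n0 : ℕ) (hD : 2 ≤ D) (hn : n0 = 2 ∨ n0 = 3) (hQ : Q1 F (D + 1) n0) :
    MatConv F D := by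
  intro G _ hG hR m n A
  obtain ⟨R'⟩ := cone hR.some
  have ht : ∀ h : G × Multiplicative ℤ,
      h * ((1, Multiplicative.ofAdd 1) : G × Multiplicative ℤ) = (1, Multiplicative.ofAdd 1) * h := by
    rintro ⟨a, b⟩
    rw [Prod.mk_mul_mk, Prod.mk_mul_mk, mul_one, one_mul, mul_comm b]
  have ht' : ∀ k : ℕ, 0 < k → ((1, Multiplicative.ofAdd 1) : G × Multiplicative ℤ) ^ k ≠ 1 := by
    intro k hk h
    have h2 : (Multiplicative.ofAdd (1 : ℤ)) ^ k = 1 := congrArg Prod.snd h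
    rw [← ofAdd_nsmul, ← ofAdd_zero] at h2
    have h3 := Multiplicative.ofAdd.injective h2
    simp at h3
    omega
  obtain ⟨ℓ, hℓ⟩ := q1_to_central F (by omega) hn hQ (fp_prod hG) R' _ ht ht'
    (A.map (ind (MonoidHom.inl G (Multiplicative ℤ))))
  refine ⟨ℓ, fun C => ?_⟩
  obtain ⟨C', hC'⟩ := prod_chain C
  refine (hℓ C').congr fun i => ?_
  exact rk_chain F (MonoidHom.inl G (Multiplicative ℤ)) (C'.N i) (C.N i) (hC' i) A

theorem main (F : Type w) [Field F] :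
    (∀ D, 2 ≤ D → ((Q1 F (D + 1) 2 → MatConv F D) ∧ (Q1 F (D + 1) 3 → MatConv F D) ∧
      (MatConv F D → ∀ n, Q1 F D n))) ∧
    ((∀ D n, Q1 F D n) ↔ ∀ D, MatConv F D) ∧ ((∀ D, Q1 F D 2) ↔ ∀ D, MatConv F D) ∧
    ((∀ D, Q1 F D 3) ↔ ∀ D, MatConv F D) := by
  have h1 : ∀ D, 2 ≤ D → ((Q1 F (D + 1) 2 → MatConv F D) ∧ (Q1 F (D + 1) 3 → MatConv F D) ∧
      (MatConv F D → ∀ n, Q1 F D n)) := fun D hD =>
    ⟨mat_of_q1 F D 2 hD (Or.inl rfl), mat_of_q1 F D 3 hD (Or.inr rfl), fun h n => q1_of_mat F D h n⟩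
  have h2 : (∀ D, 2 ≤ D → MatConv F D) → ∀ D, MatConv F D := by
    intro h D G _ hG hR m n A
    obtain ⟨R⟩ := hR
    refine h (max D 2) (le_max_right _ _) G hG ⟨?_⟩ m n A
    exact { R with len := fun n hn => R.len n (lt_of_le_of_lt (le_max_left _ _) hn) }
  refine ⟨h1, ⟨fun h => h2 fun D hD => (h1 D hD).1 (h _ _), fun h D n => q1_of_mat F D (h D) n⟩,
    ⟨fun h => h2 fun D hD => (h1 D hD).1 (h _), fun h D => q1_of_mat F D (h D) 2⟩,
    ⟨fun h => h2 fun D hD => (h1 D hD).2.1 (h _), fun h D => q1_of_mat F D (h D) 3⟩⟩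

end NBT
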