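import Pool.Agent.Lib.MP_83fbc5_gt.CellDefs
import Pool.Agent.Lib.MP_83fbc5_gt.Basic

/-!
# MP_83fbc5_gt, module GA0: flags of a polygonal complex, the boundary `bd3` evaluated

PROOF. `fl_bij`: a triangle of `toVG` is `(inl a, inr (inl e), inr (inr f))` (the other shapes have rank or relation contradictions: `rel` is `False`), with `e = ed s`, `f = face s`
for a unique `s` (`ed_inj`) and `a = e0 e` or `e1 e`, i.e. `a = st s` or `a = en s` (`mem_cases`), and `st s ≠ en s` (`ne`). `J2_cases`: the three shapes of pairs. The rows of `bd3` at `fl s true`: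
`f0 = ec s` with voltage `vol (st s) (ed s)`, `f1 = eb s`, `f2 = ea (ed s) (sg s)`; at `fl s false`: `f0 = ec s` with voltage `vol (en s) (ed s)`, `f1 = eb (nx s)` (`en_eq`, `face_nx`),
`f2 = ea (ed s) (!sg s)`. So `c ᵥ* bd3` is the sum over `(s, b)` of `c (fl s b)` times the row (`Fintype.sum_equiv` along `fl_bij`, `Fintype.sum_prod_type`); the maps `ec`, `eb`, `ea` are injective with disjoint images,
which gives the values (`Pi.single_apply`, `Finset.sum_ite_eq`). The sum in `val_eb` has two terms: `fl s true` and `fl s' false` with `nx s' = s`.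
(75-100 minutes)
-/

set_option autoImplicit false

namespace NBT

open Matrix

universe w

namespace Cell

variable {H : Type} [Group H] (K : Cell H)

/-- the flags `(st s, ed s, face s)` and `(en s, ed s, face s)` -/
def fl : K.S × Bool → K.toVG.J3
  | (s, true) => ⟨(Sum.inl (K.st s), Sum.inr (Sum.inl (K.ed s)), Sum.inr (Sum.inr (K.face s))),
      (by
        show K.e0 (K.ed s) = K.st s ∨ K.e1 (K.ed s) = K.st s
        unfold st
        split_ifs
        · exact Or.inl rfl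
        · exact Or.inr rfl), ⟨s, rfl, rfl⟩⟩
  | (s, false) => ⟨(Sum.inl (K.en s), Sum.inr (Sum.inl (K.ed s)), Sum.inr (Sum.inr (K.face s))),
      (by
        show K.e0 (K.ed s) = K.en s ∨ K.e1 (K.ed s) = K.en s
        unfold en
        split_ifs
        · exact Or.inr rfl
        · exact Or.inl rfl), ⟨s, rfl, rfl⟩⟩

/-- the pair (edge, polygon) of a side -/
def ec (s : K.S) : K.toVG.J2 := ⟨(Sum.inr (Sum.inl (K.ed s)), Sum.inr (Sum.inr (K.face s))), ⟨s, rfl, rfl⟩⟩

/-- the pair (starting vertex, polygon) of a side -/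
def eb (s : K.S) : K.toVG.J2 := ⟨(Sum.inl (K.st s), Sum.inr (Sum.inr (K.face s))), ⟨s, rfl, rfl⟩⟩

/-- the pairs (vertex, edge) -/
def ea : K.C1 × Bool → K.toVG.J2
  | (e, true) => ⟨(Sum.inl (K.e0 e), Sum.inr (Sum.inl e)), Or.inl rfl⟩
  | (e, false) => ⟨(Sum.inl (K.e1 e), Sum.inr (Sum.inl e)), Or.inr rfl⟩

theorem GA0_st_ne_en (s : K.S) : K.st s ≠ K.en s := by
  unfold st en
  split_ifs
  · exact K.ne _
  · exact (K.ne _).symm

theorem GA0_fl_1 (s : K.S) (b : Bool) : (K.fl (s, b)).1.1 = Sum.inl (if b then K.st s else K.en s) := by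
  cases b <;> rfl

theorem GA0_fl_2 (s : K.S) (b : Bool) : (K.fl (s, b)).1.2.1 = Sum.inr (Sum.inl (K.ed s)) := by
  cases b <;> rfl

theorem GA0_fl_3 (s : K.S) (b : Bool) : (K.fl (s, b)).1.2.2 = Sum.inr (Sum.inr (K.face s)) := by
  cases b <;> rfl

theorem GA0_inl {a a' : K.C0} (h : (Sum.inl a : K.C0 ⊕ K.C1 ⊕ K.C2) = Sum.inl a') : a = a' :=
  Sum.inl_injective h

theorem GA0_ed {a a' : K.C1} (h : (Sum.inr (Sum.inl a) : K.C0 ⊕ K.C1 ⊕ K.C2) = Sum.inr (Sum.inl a')) : a = a' :=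
  Sum.inl_injective (Sum.inr_injective h)

theorem GA0_face {a a' : K.C2} (h : (Sum.inr (Sum.inr a) : K.C0 ⊕ K.C1 ⊕ K.C2) = Sum.inr (Sum.inr a')) : a = a' :=
  Sum.inr_injective (Sum.inr_injective h)

theorem fl_bij : Function.Bijective K.fl := by
  constructor
  · rintro ⟨s, b⟩ ⟨s', b'⟩ h
    have h2 : K.ed s = K.ed s' := by
      apply K.GA0_ed
      rw [← K.GA0_fl_2 s b, ← K.GA0_fl_2 s' b', h]
    have h3 : K.face s = K.face s' := by
      apply K.GA0_face
      rw [← K.GA0_fl_3 s b, ← K.GA0_fl_3 s' b', h]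
    have h4 : s = s' := K.ed_inj s s' h3 h2
    subst h4
    have h1 : (if b then K.st s else K.en s) = (if b' then K.st s else K.en s) := by
      apply K.GA0_inl
      rw [← K.GA0_fl_1 s b, ← K.GA0_fl_1 s b', h]
    have hne := K.GA0_st_ne_en s
    cases b <;> cases b'
    · rfl
    · exact absurd h1.symm hne
    · exact absurd h1 hne
    · rfl
  · rintro ⟨⟨x, y, z⟩, h1, h2⟩
    rcases x with a | e | f <;> rcases y with a' | e' | f' <;> rcases z with a'' | e'' | f''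
    all_goals try exact False.elim h1
    all_goals try exact False.elim h2
    obtain ⟨s, hs, hs'⟩ := h2
    subst hs
    subst hs'
    rcases K.mem_cases h1 with h | h
    · subst h
      exact ⟨(s, true), rfl⟩
    · subst h
      exact ⟨(s, false), rfl⟩

theorem J2_cases (p : K.toVG.J2) : (∃ s, p = K.ec s) ∨ (∃ s, p = K.eb s) ∨ ∃ q, p = K.ea q := by
  obtain ⟨⟨x, y⟩, h⟩ := p
  rcases x with a | e | f <;> rcases y with a' | e' | f'
  all_goals try exact False.elim h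
  · right; right
    rcases h with h | h
    · subst h
      exact ⟨(e', true), rfl⟩
    · subst h
      exact ⟨(e', false), rfl⟩
  · right; left
    obtain ⟨s, hs, hs'⟩ := h
    subst hs
    subst hs'
    exact ⟨s, rfl⟩
  · left
    obtain ⟨s, hs, hs'⟩ := h
    subst hs
    subst hs'
    exact ⟨s, rfl⟩

theorem GA0_ec_inj {s s' : K.S} : K.ec s = K.ec s' ↔ s = s' := by
  constructor
  · intro h
    have h1 : (K.ec s).1.1 = (K.ec s').1.1 := by rw [h]
    have h2 : (K.ec s).1.2 = (K.ec s').1.2 := by rw [h]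
    exact K.ed_inj s s' (K.GA0_face h2) (K.GA0_ed h1)
  · rintro rfl
    rfl

theorem GA0_eb_inj {s s' : K.S} : K.eb s = K.eb s' ↔ s = s' := by
  constructor
  · intro h
    have h1 : (K.eb s).1.1 = (K.eb s').1.1 := by rw [h]
    have h2 : (K.eb s).1.2 = (K.eb s').1.2 := by rw [h]
    exact K.st_inj' (K.GA0_face h2) (K.GA0_inl h1)
  · rintro rfl
    rfl

theorem GA0_ea_2 (e : K.C1) (b : Bool) : (K.ea (e, b)).1.2 = Sum.inr (Sum.inl e) := by
  cases b <;> rfl

theorem GA0_ea_1 (e : K.C1) (b : Bool) : (K.ea (e, b)).1.1 = Sum.inl (if b then K.e0 e else K.e1 e) := by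
  cases b <;> rfl

theorem GA0_ea_inj {e e' : K.C1} {b b' : Bool} : K.ea (e, b) = K.ea (e', b') ↔ e = e' ∧ b = b' := by
  constructor
  · intro h
    have h2 : e = e' := by
      apply K.GA0_ed
      rw [← K.GA0_ea_2 e b, ← K.GA0_ea_2 e' b', h]
    subst h2
    refine ⟨rfl, ?_⟩
    have h1 : (if b then K.e0 e else K.e1 e) = (if b' then K.e0 e else K.e1 e) := by
      apply K.GA0_inl
      rw [← K.GA0_ea_1 e b, ← K.GA0_ea_1 e b', h]
    have hne := K.ne e
    cases b <;> cases b'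
    · rfl
    · exact absurd h1.symm hne
    · exact absurd h1 hne
    · rfl
  · rintro ⟨rfl, rfl⟩
    rfl

theorem GA0_ec_eb (s s' : K.S) : K.ec s ≠ K.eb s' := by
  intro h
  have h1 : (K.ec s).1.1 = (K.eb s').1.1 := by rw [h]
  exact Sum.inr_ne_inl h1

theorem GA0_ec_ea (s : K.S) (e : K.C1) (b : Bool) : K.ec s ≠ K.ea (e, b) := by
  intro h
  have h1 : (K.ec s).1.1 = (K.ea (e, b)).1.1 := by rw [h]
  rw [K.GA0_ea_1] at h1
  exact Sum.inr_ne_inl h1

theorem GA0_eb_ea (s : K.S) (e : K.C1) (b : Bool) : K.eb s ≠ K.ea (e, b) := by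
  intro h
  have h1 : (K.eb s).1.2 = (K.ea (e, b)).1.2 := by rw [h]
  rw [K.GA0_ea_2] at h1
  exact Sum.inr_ne_inl (Sum.inr_injective h1)

theorem GA0_f0 (s : K.S) (b : Bool) : (K.fl (s, b)).f0 = K.ec s := by
  cases b <;> rfl

theorem GA0_f1t (s : K.S) : (K.fl (s, true)).f1 = K.eb s := rfl

theorem GA0_f1f (s : K.S) : (K.fl (s, false)).f1 = K.eb (K.nx s) := by
  apply Subtype.ext
  show ((Sum.inl (K.en s), Sum.inr (Sum.inr (K.face s))) : (K.C0 ⊕ K.C1 ⊕ K.C2) × (K.C0 ⊕ K.C1 ⊕ K.C2)) =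
    (Sum.inl (K.st (K.nx s)), Sum.inr (Sum.inr (K.face (K.nx s))))
  rw [K.en_eq, K.face_nx]

theorem GA0_f2 (s : K.S) (b : Bool) : (K.fl (s, b)).f2 = K.ea (K.ed s, K.sg s == b) := by
  apply Subtype.ext
  have e1 : (K.fl (s, b)).f2.1 = ((K.fl (s, b)).1.1, (K.fl (s, b)).1.2.1) := rfl
  rw [e1, K.GA0_fl_1, K.GA0_fl_2]
  have e2 : (K.ea (K.ed s, K.sg s == b)).1 =
    ((K.ea (K.ed s, K.sg s == b)).1.1, (K.ea (K.ed s, K.sg s == b)).1.2) := rfl
  rw [e2, K.GA0_ea_1, K.GA0_ea_2]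
  unfold st en
  cases hs : K.sg s <;> cases b <;> simp

theorem GA0_row (s : K.S) (b : Bool) (q : K.toVG.J2) : K.toVG.bd3 (K.fl (s, b)) q =
    (if q = K.ec s then el (K.vol (Sum.inl (if b then K.st s else K.en s)) (Sum.inr (Sum.inl (K.ed s)))) else 0) -
      (if q = (if b then K.eb s else K.eb (K.nx s)) then 1 else 0) +
      (if q = K.ea (K.ed s, K.sg s == b) then 1 else 0) := by
  unfold VG.bd3
  rw [Matrix.of_apply, Pi.add_apply, Pi.sub_apply, Pi.single_apply, Pi.single_apply, Pi.single_apply,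
    K.GA0_f0, K.GA0_f2, K.GA0_fl_1, K.GA0_fl_2]
  cases b
  · rw [K.GA0_f1f]
    rfl
  · rw [K.GA0_f1t]
    rfl

variable {S : Type w} [Ring S] (θ : MonoidAlgebra ℤ H →+* S) (c : K.toVG.J3 → S)

theorem GA0_sum (q : K.toVG.J2) : (c ᵥ* K.toVG.bd3.map θ) q =
    ∑ s : K.S, (c (K.fl (s, true)) * θ (K.toVG.bd3 (K.fl (s, true)) q) +
      c (K.fl (s, false)) * θ (K.toVG.bd3 (K.fl (s, false)) q)) := by
  have h1 : (c ᵥ* K.toVG.bd3.map θ) q = ∑ p, c p * θ (K.toVG.bd3 p q) := rfl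
  rw [h1, ← (Equiv.ofBijective _ K.fl_bij).sum_comp, Fintype.sum_prod_type]
  refine Finset.sum_congr rfl fun s _ => ?_
  rw [Fintype.sum_bool]
  rfl

theorem val_ec (s : K.S) : (c ᵥ* K.toVG.bd3.map θ) (K.ec s) =
    c (K.fl (s, true)) * θ (el (if K.sg s then K.h0 (K.ed s) else K.h1 (K.ed s))⁻¹) +
      c (K.fl (s, false)) * θ (el (if K.sg s then K.h1 (K.ed s) else K.h0 (K.ed s))⁻¹) := by
  rw [K.GA0_sum, Finset.sum_eq_single s]
  · rw [K.GA0_row, K.GA0_row, if_pos rfl, if_pos rfl, if_neg (K.GA0_ec_ea _ _ _), if_neg (K.GA0_ec_ea _ _ _)]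
    simp only [if_true, if_neg (K.GA0_ec_eb _ _), Bool.false_eq_true, if_false, sub_zero, add_zero]
    rw [K.vol_sts, K.vol_ens]
  · intro s' _ hs'
    have h1 : K.ec s ≠ K.ec s' := fun h => hs' (K.GA0_ec_inj.1 h).symm
    rw [K.GA0_row, K.GA0_row, if_neg h1, if_neg h1, if_neg (K.GA0_ec_ea _ _ _), if_neg (K.GA0_ec_ea _ _ _)]
    simp only [if_true, if_neg (K.GA0_ec_eb _ _), Bool.false_eq_true, if_false, sub_zero, add_zero, map_zero,
      mul_zero]
  · intro h
    exact absurd (Finset.mem_univ _) h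

theorem val_eb (s : K.S) : (c ᵥ* K.toVG.bd3.map θ) (K.eb (K.nx s)) =
    -c (K.fl (K.nx s, true)) - c (K.fl (s, false)) := by
  classical
  rw [K.GA0_sum]
  have h1 : ∀ s' : K.S, c (K.fl (s', true)) * θ (K.toVG.bd3 (K.fl (s', true)) (K.eb (K.nx s))) =
      if s' = K.nx s then -c (K.fl (K.nx s, true)) else 0 := by
    intro s'
    rw [K.GA0_row, if_neg (K.GA0_ec_eb _ _).symm, if_neg (K.GA0_eb_ea _ _ _)]
    simp only [if_true, K.GA0_eb_inj, add_zero, zero_sub]
    by_cases h : s' = K.nx s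
    · subst h
      simp
    · rw [if_neg (fun h' => h h'.symm), if_neg h]
      simp
  have h2 : ∀ s' : K.S, c (K.fl (s', false)) * θ (K.toVG.bd3 (K.fl (s', false)) (K.eb (K.nx s))) =
      if s' = s then -c (K.fl (s, false)) else 0 := by
    intro s'
    rw [K.GA0_row, if_neg (K.GA0_ec_eb _ _).symm, if_neg (K.GA0_eb_ea _ _ _)]
    simp only [Bool.false_eq_true, if_false, K.GA0_eb_inj, add_zero, zero_sub]
    by_cases h : s' = s
    · subst h
      simp
    · rw [if_neg (fun h' => h (K.nx.injective h').symm), if_neg h]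
      simp
  simp only [h1, h2, Finset.sum_add_distrib, Finset.sum_ite_eq', Finset.mem_univ, if_true]
  rw [sub_eq_add_neg]

open Classical in
theorem val_ea (e : K.C1) (b : Bool) : (c ᵥ* K.toVG.bd3.map θ) (K.ea (e, b)) =
    ∑ s : K.S, if K.ed s = e then c (K.fl (s, K.sg s == b)) else 0 := by
  rw [K.GA0_sum]
  refine Finset.sum_congr rfl fun s _ => ?_
  rw [K.GA0_row, K.GA0_row, if_neg (K.GA0_ec_ea _ _ _).symm, if_neg (K.GA0_ec_ea _ _ _).symm]
  simp only [if_true, Bool.false_eq_true, if_false, if_neg (K.GA0_eb_ea _ _ _).symm, sub_zero, zero_add,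
    K.GA0_ea_inj]
  by_cases h : K.ed s = e
  · subst h
    cases hs : K.sg s <;> cases b <;> simp
  · have h' : ¬ e = K.ed s := fun h' => h h'.symm
    simp [h, h']

end Cell

end NBT
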