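import Pool.Agent.Lib.MP_83fbc5_gt.GBDefs

/-!
# MP_83fbc5_gt, module GB1: the polygonal complex of a list of terms is well defined
-/

set_option autoImplicit false
set_option linter.unnecessarySeqFocus false
set_option linter.unreachableTactic false
set_option linter.unusedTactic false
set_option linter.unusedSimpArgs false

namespace NBT

open Matrix

namespace Tms

variable {H : Type} [Group H] {n : ℕ} {J : Type} (T : Tms H n J)

theorem f4 (p : Fin 4) : p = 0 ∨ p = 1 ∨ p = 2 ∨ p = 3 := by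
  revert p; decide

theorem nw_pw (w : T.Tm × Fin 4) : T.nw (T.pw w) = w := by
  obtain ⟨τ, p⟩ := w
  rcases f4 p with rfl | rfl | rfl | rfl
  · have e : (0 : Fin 4) - 1 = 3 := rfl
    simp [nw, pw, e]
  · have e : (1 : Fin 4) - 1 = 0 := rfl
    simp [nw, pw]
  · have e : (2 : Fin 4) - 1 = 1 := rfl
    simp [nw, pw, e]
  · have e : (3 : Fin 4) - 1 = 2 := rfl
    simp [nw, pw, e]

theorem pw_nw (w : T.Tm × Fin 4) : T.pw (T.nw w) = w := by
  obtain ⟨τ, p⟩ := w
  rcases f4 p with rfl | rfl | rfl | rfl <;> simp [nw, pw] <;> rfl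

theorem nw_ne (w : T.Tm × Fin 4) : T.nw w ≠ w := by
  obtain ⟨τ, p⟩ := w
  intro h
  have h2 := congrArg Prod.snd h
  rcases f4 p with rfl | rfl | rfl | rfl <;> simp [nw] at h2

theorem kk_nw (w : T.Tm × Fin 4) : T.kk (T.nw w).1 = T.kk w.1 := by
  obtain ⟨τ, p⟩ := w
  rcases f4 p with rfl | rfl | rfl | rfl <;> simp [nw, T.kk_c]

theorem st_we (w : T.Tm × Fin 4) : (if T.ws w then T.le0 (T.we w) else T.le1 (T.we w)) = T.bl w := by
  obtain ⟨τ, p⟩ := w
  rcases f4 p with rfl | rfl | rfl | rfl
  · rfl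
  · simp only [ws, we, bl]
    cases h : T.s τ <;> simp [le0]
  · simp only [ws, we, bl]
    cases h : T.s τ <;> simp [le1]
  · rfl

theorem en_we (w : T.Tm × Fin 4) : (if T.ws w then T.le1 (T.we w) else T.le0 (T.we w)) = T.bl (T.nw w) := by
  obtain ⟨τ, p⟩ := w
  rcases f4 p with rfl | rfl | rfl | rfl
  · rfl
  · simp only [ws, we, bl, nw]
    cases h : T.s τ <;> simp [le1]
  · simp only [ws, we, bl, nw]
    cases h : T.s τ <;> simp [le0]
  · simp only [ws, we, bl, nw]
    simp [le0, T.kk_c]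

theorem stg_we (t : H) (w : T.Tm × Fin 4) :
    T.wg w * (if T.ws w then 1 else T.lh1 t (T.we w)) = T.bg w := by
  obtain ⟨τ, p⟩ := w
  rcases f4 p with rfl | rfl | rfl | rfl
  · simp [wg, ws, bg]
  · simp [wg, ws, bg]
  · simp only [wg, ws, we, bg]
    cases h : T.s τ <;> simp [lh1]
  · simp [wg, ws, we, bg, lh1]

theorem eng_we (t : H) (w : T.Tm × Fin 4) :
    T.wg w * (if T.ws w then T.lh1 t (T.we w) else 1) = T.bg (T.nw w) := by
  obtain ⟨τ, p⟩ := w
  rcases f4 p with rfl | rfl | rfl | rfl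
  · simp [wg, ws, we, bg, lh1, nw]
  · simp only [wg, ws, we, bg, nw]
    cases h : T.s τ <;> simp [lh1]
  · simp [wg, ws, bg, nw]
  · simp [wg, ws, bg, nw]

/-- the next side as a permutation -/
def nxE : Equiv.Perm T.SS where
  toFun := T.snx
  invFun := T.spv
  left_inv := by
    rintro (w | ⟨w, i⟩)
    · simp [snx, spv, pw_nw]
    · simp [snx, spv]
  right_inv := by
    rintro (w | ⟨w, i⟩)
    · simp [snx, spv, nw_pw]
    · simp [snx, spv]

theorem bl_ne (w : T.Tm × Fin 4) : T.bl w ≠ T.bl (T.nw w) := by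
  obtain ⟨τ, p⟩ := w
  rcases f4 p with rfl | rfl | rfl | rfl <;> simp [bl, nw]

theorem bl_ne_a (w w' : T.Tm × Fin 4) : T.bl w ≠ .a w' := by
  obtain ⟨τ, p⟩ := w
  rcases f4 p with rfl | rfl | rfl | rfl <;> simp [bl]

theorem we_ne_q (w w' : T.Tm × Fin 4) : T.we w ≠ .q w' := by
  obtain ⟨τ, p⟩ := w
  rcases f4 p with rfl | rfl | rfl | rfl <;> simp only [we] <;> (try split_ifs) <;> simp

theorem we_ne_r (w w' : T.Tm × Fin 4) : T.we w ≠ .r w' := by
  obtain ⟨τ, p⟩ := w
  rcases f4 p with rfl | rfl | rfl | rfl <;> simp only [we] <;> (try split_ifs) <;> simp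

instance [Finite J] : Finite T.A0 := by
  have f : Function.Surjective (fun x : Fin n ⊕ J ⊕ J ⊕ (T.Tm × Fin 4) ⊕ (Fin n ⊕ J) => match x with
    | .inl k => (A0.o k : T.A0) | .inr (.inl j) => .y j | .inr (.inr (.inl j)) => .m j
    | .inr (.inr (.inr (.inl w))) => .a w | .inr (.inr (.inr (.inr x))) => .mid x) := by
    rintro (k | j | j | w | x)
    · exact ⟨.inl k, rfl⟩
    · exact ⟨.inr (.inl j), rfl⟩
    · exact ⟨.inr (.inr (.inl j)), rfl⟩
    · exact ⟨.inr (.inr (.inr (.inl w))), rfl⟩
    · exact ⟨.inr (.inr (.inr (.inr x))), rfl⟩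
  exact Finite.of_surjective _ f

instance [Finite J] : Finite T.A1 := by
  have f : Function.Surjective (fun x : T.Tm ⊕ J ⊕ J ⊕ (T.Tm × Fin 4) ⊕ (T.Tm × Fin 4) ⊕ (Fin n ⊕ J) ⊕ (Fin n ⊕ J) =>
    match x with
    | .inl k => (A1.arc k : T.A1) | .inr (.inl j) => .ea j | .inr (.inr (.inl j)) => .eb j
    | .inr (.inr (.inr (.inl w))) => .r w | .inr (.inr (.inr (.inr (.inl w)))) => .q w
    | .inr (.inr (.inr (.inr (.inr (.inl x))))) => .u x | .inr (.inr (.inr (.inr (.inr (.inr x))))) => .v x) := by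
    rintro (k | j | j | w | w | x | x)
    · exact ⟨.inl k, rfl⟩
    · exact ⟨.inr (.inl j), rfl⟩
    · exact ⟨.inr (.inr (.inl j)), rfl⟩
    · exact ⟨.inr (.inr (.inr (.inl w))), rfl⟩
    · exact ⟨.inr (.inr (.inr (.inr (.inl w)))), rfl⟩
    · exact ⟨.inr (.inr (.inr (.inr (.inr (.inl x))))), rfl⟩
    · exact ⟨.inr (.inr (.inr (.inr (.inr (.inr x))))), rfl⟩
  exact Finite.of_surjective _ f

instance : Finite T.A2 := by
  have f : Function.Surjective (fun x : (T.Tm × Fin 4) ⊕ Fin n => match x with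
    | .inl w => (A2.Q w : T.A2) | .inr k => .P k) := by
    rintro (w | k)
    · exact ⟨.inl w, rfl⟩
    · exact ⟨.inr k, rfl⟩
  exact Finite.of_surjective _ f

instance : Finite T.SS := by
  have f : Function.Surjective (fun x : (T.Tm × Fin 4) ⊕ ((T.Tm × Fin 4) × Fin 4) => match x with
    | .inl w => (SS.p w : T.SS) | .inr y => .s y.1 y.2) := by
    rintro (w | ⟨w, i⟩)
    · exact ⟨.inl w, rfl⟩
    · exact ⟨.inr (w, i), rfl⟩
  exact Finite.of_surjective _ f

theorem reach (P : T.SS → Prop) (hP : ∀ s, P s → P (T.snx s)) (τ : T.Tm) (p : Fin 4) (h : P (.p (τ, p))) :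
    P (.p (T.c τ, 0)) := by
  have h3 : P (.p (τ, 3)) := by
    rcases f4 p with rfl | rfl | rfl | rfl
    · have := hP _ (hP _ (hP _ h)); simpa [snx, nw] using this
    · have := hP _ (hP _ h); simpa [snx, nw] using this
    · have := hP _ h; simpa [snx, nw] using this
    · exact h
  have := hP _ h3
  simpa [snx, nw] using this

theorem reach' (P : T.SS → Prop) (hP : ∀ s, P s → P (T.snx s)) (τ : T.Tm) (p : Fin 4) (h : P (.p (τ, 0))) :
    P (.p (τ, p)) := by
  rcases f4 p with rfl | rfl | rfl | rfl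
  · exact h
  · have := hP _ h; simpa [snx, nw] using this
  · have := hP _ (hP _ h); simpa [snx, nw] using this
  · have := hP _ (hP _ (hP _ h)); simpa [snx, nw] using this

theorem strans (P : T.SS → Prop) (hP : ∀ s, P s → P (T.snx s)) (s s' : T.SS) (hs : T.sface s = T.sface s')
    (h : P s) : P s' := by
  rcases s with w | ⟨w, i⟩ <;> rcases s' with w' | ⟨w', i'⟩
  · obtain ⟨τ, p⟩ := w
    obtain ⟨τ', p'⟩ := w'
    have hk : T.kk τ = T.kk τ' := by
      simpa [sface] using hs
    have h1 := T.reach P hP τ p h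
    refine T.reach' P hP τ' p' ?_
    exact T.trans (fun σ => P (.p (σ, 0))) (fun σ hσ => T.reach P hP σ 0 hσ) (T.c τ) τ'
      (by rw [T.kk_c, hk]) h1
  · simp [sface] at hs
  · simp [sface] at hs
  · have hw : w = w' := by simpa [sface] using hs
    subst hw
    have h1 := hP _ h
    have h2 := hP _ h1
    have h3 := hP _ h2
    simp only [snx] at h1 h2 h3
    rcases f4 i with rfl | rfl | rfl | rfl <;> rcases f4 i' with rfl | rfl | rfl | rfl <;>
      first | exact h | exact h1 | exact h2 | exact h3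

theorem sed_inj (s s' : T.SS) (hs : T.sface s = T.sface s') (h : T.sed s = T.sed s') : s = s' := by
  rcases s with w | ⟨w, i⟩ <;> rcases s' with w' | ⟨w', i'⟩
  · simpa [sed] using h
  · simp [sface] at hs
  · simp [sface] at hs
  · have hw : w = w' := by simpa [sface] using hs
    subst hw
    have e1 := T.we_ne_q w w
    have e2 := T.we_ne_q w (T.nw w)
    have e3 := T.we_ne_r w w
    have e4 := T.nw_ne w
    rcases f4 i with rfl | rfl | rfl | rfl <;> rcases f4 i' with rfl | rfl | rfl | rfl <;>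
      simp only [sed] at h <;>
      first
      | rfl
      | exact absurd h e1
      | exact absurd h.symm e1
      | exact absurd h e2
      | exact absurd h.symm e2
      | exact absurd h e3
      | exact absurd h.symm e3
      | (exfalso; revert h; simp; done)
      | (simp only [A1.q.injEq] at h; exact absurd h e4)
      | (simp only [A1.q.injEq] at h; exact absurd h.symm e4)
      | exact absurd h (by simp)

/-- label of the starting vertex of a side -/
theorem sst (s : T.SS) : (if T.ssg s then T.le0 (T.sed s) else T.le1 (T.sed s)) =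
    match s with
    | .p w => .a w
    | .s w 0 => .a w
    | .s w 1 => T.bl w
    | .s w 2 => T.bl (T.nw w)
    | .s w 3 => .a (T.nw w) := by
  rcases s with w | ⟨w, i⟩
  · simp [ssg, sed, le0]
  · rcases f4 i with rfl | rfl | rfl | rfl
    · simp [ssg, sed, le0]
    · simp only [ssg, sed]
      exact T.st_we w
    · simp [ssg, sed, le1]
    · simp [ssg, sed, le1]

theorem sst_inj (s s' : T.SS) (hs : T.sface s = T.sface s')
    (h : (if T.ssg s then T.le0 (T.sed s) else T.le1 (T.sed s)) =
      (if T.ssg s' then T.le0 (T.sed s') else T.le1 (T.sed s'))) : s = s' := by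
  rw [sst, sst] at h
  rcases s with w | ⟨w, i⟩ <;> rcases s' with w' | ⟨w', i'⟩
  · simpa using h
  · simp [sface] at hs
  · simp [sface] at hs
  · have hw : w = w' := by simpa [sface] using hs
    subst hw
    have e1 := T.bl_ne_a w w
    have e2 := T.bl_ne_a (T.nw w) w
    have e3 := T.bl_ne_a w (T.nw w)
    have e4 := T.bl_ne_a (T.nw w) (T.nw w)
    have e5 := T.bl_ne w
    have e6 := T.nw_ne w
    have e7 : (A0.a w : T.A0) ≠ .a (T.nw w) := fun h => e6 (by simpa using h.symm)
    rcases f4 i with rfl | rfl | rfl | rfl <;> rcases f4 i' with rfl | rfl | rfl | rfl <;>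
      simp only at h <;>
      first
      | rfl
      | exact absurd h e1
      | exact absurd h.symm e1
      | exact absurd h e2
      | exact absurd h.symm e2
      | exact absurd h e3
      | exact absurd h.symm e3
      | exact absurd h e4
      | exact absurd h.symm e4
      | exact absurd h e5
      | exact absurd h.symm e5
      | exact absurd h e7
      | exact absurd h.symm e7

theorem sglue (s : T.SS) : (if T.ssg s then T.le1 (T.sed s) else T.le0 (T.sed s)) =
    (if T.ssg (T.snx s) then T.le0 (T.sed (T.snx s)) else T.le1 (T.sed (T.snx s))) := by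
  rw [sst]
  rcases s with w | ⟨w, i⟩
  · simp [ssg, sed, le1, snx]
  · rcases f4 i with rfl | rfl | rfl | rfl
    · simp [ssg, sed, le1, snx]
    · simp only [ssg, sed, snx]
      exact T.en_we w
    · simp [ssg, sed, le0, snx]
    · simp [ssg, sed, le0, snx]

theorem sglue_v (t : H) (s : T.SS) : T.ssv s * (if T.ssg s then T.lh1 t (T.sed s) else 1) =
    T.ssv (T.snx s) * (if T.ssg (T.snx s) then 1 else T.lh1 t (T.sed (T.snx s))) := by
  rcases s with w | ⟨w, i⟩
  · simp [ssg, sed, lh1, snx, ssv]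
  · rcases f4 i with rfl | rfl | rfl | rfl
    · have e : T.ssv (T.snx (.s w 0)) *
          (if T.ssg (T.snx (.s w 0)) then 1 else T.lh1 t (T.sed (T.snx (.s w 0)))) = T.bg w := T.stg_we t w
      rw [e]
      simp [ssg, sed, ssv, lh1]
    · have e : T.ssv (.s w 1) * (if T.ssg (.s w 1) then T.lh1 t (T.sed (.s w 1)) else 1) = T.bg (T.nw w) :=
        T.eng_we t w
      rw [e]
      simp [ssg, sed, ssv, lh1, snx]
    · simp [ssg, sed, lh1, snx, ssv]
    · simp [ssg, sed, lh1, snx, ssv]

/-- the polygonal complex of a list of terms -/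
noncomputable def cell [Finite J] (t : H) : Cell H where
  C0 := T.A0
  C1 := T.A1
  C2 := T.A2
  S := T.SS
  fin0 := inferInstance
  fin1 := inferInstance
  fin2 := inferInstance
  finS := inferInstance
  e0 := T.le0
  e1 := T.le1
  h0 := fun _ => 1
  h1 := T.lh1 t
  ne := by
    rintro (τ | j | j | w | w | x | x)
    · simp [le0, le1]
    · simp [le0, le1]
    · simp [le0, le1]
    · simpa [le0, le1] using (T.nw_ne w).symm
    · simpa [le0, le1] using (T.bl_ne_a w w).symm
    · rcases x with k | j <;> simp [le0, le1, xl]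
    · rcases x with k | j <;> simp [le0, le1, xl]
  face := T.sface
  nx := T.nxE
  ed := T.sed
  sv := T.ssv
  sg := T.ssg
  face_nx := by
    rintro (w | ⟨w, i⟩)
    · show T.sface (T.snx (.p w)) = _
      simp [snx, sface, kk_nw]
    · rfl
  face_surj := by
    rintro (w | k)
    · exact ⟨.s w 0, rfl⟩
    · obtain ⟨τ, rfl⟩ := T.kk_surj k
      exact ⟨.p (τ, 0), rfl⟩
  ed_inj := T.sed_inj
  st_inj := T.sst_inj
  glue := T.sglue
  glue_v := T.sglue_v t
  trans := T.strans

end Tms

end NBT
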