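import Pool.Agent.Lib.MP_83fbc5_gt.GB1
import Pool.Agent.Lib.MP_83fbc5_gt.Basic

/-!
# MP_83fbc5_gt, module GB2: the cellular 2-cycles of the complex of the terms of `A` are the `u` with `u A = 0`

PROOF. Let `θ = toQ F N`, `S = F[H/N]`, `K = T.cell t`. For `x : C2 → S`, `(x ᵥ* c2.map θ) e` is the sum over the sides `s` with `sed s = e` of `± x (sface s) * θ (el (ssv s))` (sign `ssg s`). The sides with a given edge:
`r w`: `.p w` (+) and `.s w 3` (-), value `x (P (kk w.1)) - x (Q w)`; `q w`: `.s w 0` (+) and `.s (pw w) 2` (-), value `x (Q w) - x (Q (pw w))` (`nw_pw`); `arc τ`: `.s (τ, 0) 1` (+) and `.s (τ, 3) 1` (-), value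
`x (Q (τ, 0)) - x (Q (τ, 3))`; `ea j`: for the terms `τ` with `j τ = j`: `.s (τ, 1) 1` (+) if `s τ`, `.s (τ, 2) 1` (-) if not `s τ`, group element `h τ`; `eb j`: the same with the opposite signs (positions 2 and 1); `u x`,
`v x`: none. So `x` is a cycle iff `x (Q w) = x (P (kk w.1))` for all `w` and, with `u k = x (P k)`, `∑_{τ, j τ = j} ± u (kk τ) * θ (el (h τ)) = ∑ k, u k * θ (T.entry k j) = 0` for all `j` (`j = none`: automatic by `h0`;
`j = some i`: `(u ᵥ* A.map θ) i = 0`). Hence `u ↦ (Q w ↦ u (kk w.1), P k ↦ u k)` is an `F`-linear isomorphism from the kernel of `A` to the kernel of `c2`.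
-/

set_option autoImplicit false

namespace NBT

open Matrix Module

universe w

namespace Tms

section

variable {S : Type w} [Ring S]

open Classical in
private theorem gb2_colK {H : Type} [Group H] (K : Cell H) (θ : MonoidAlgebra ℤ H →+* S) (x : K.C2 → S) (e : K.C1) :
    (x ᵥ* K.c2.map θ) e = ∑ s : K.S, if K.ed s = e then
        (if K.sg s then x (K.face s) * θ (el (K.sv s)) else -(x (K.face s) * θ (el (K.sv s)))) else 0 := by
  have e1 : ∀ f : K.C2, K.c2 f e = ∑ s : K.S, if K.face s = f then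
      (if K.ed s = e then K.sgn s • el (K.sv s) else 0) else 0 := by
    intro f
    show (∑ s : K.S, if K.face s = f then (Pi.single (K.ed s) (K.sgn s • el (K.sv s)) : K.C1 → MonoidAlgebra ℤ H)
      else 0) e = _
    rw [Finset.sum_apply]
    refine Finset.sum_congr rfl fun s _ => ?_
    split_ifs with h1 h2
    · rw [← h2, Pi.single_eq_same]
    · rw [Pi.single_apply, if_neg (fun h => h2 h.symm)]
    · rfl
  have e2 : (x ᵥ* K.c2.map θ) e = ∑ f : K.C2, x f * θ (K.c2 f e) := rfl
  rw [e2]
  simp only [e1, map_sum, Finset.mul_sum]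
  rw [Finset.sum_comm]
  refine Finset.sum_congr rfl fun s _ => ?_
  rw [Finset.sum_eq_single (K.face s)]
  · rw [if_pos rfl]
    split_ifs with h1 h2
    · have : K.sgn s = 1 := if_pos h2
      rw [this, one_smul]
    · have : K.sgn s = -1 := if_neg h2
      rw [this, neg_smul, one_smul, map_neg, mul_neg]
    · simp
  · intro f _ hf
    rw [if_neg (fun h => hf h.symm)]
    simp
  · intro h
    exact absurd (Finset.mem_univ _) h

end

section

variable {H : Type} [Group H] {n : ℕ} {J : Type} (T : Tms H n J)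

/-- the sides -/
private def gb2E : (T.Tm × Fin 4) ⊕ ((T.Tm × Fin 4) × Fin 4) ≃ T.SS where
  toFun := fun x => match x with
    | .inl w => .p w
    | .inr y => .s y.1 y.2
  invFun := fun x => match x with
    | .p w => .inl w
    | .s w i => .inr (w, i)
  left_inv := by rintro (w | ⟨w, i⟩) <;> rfl
  right_inv := by rintro (w | ⟨w, i⟩) <;> rfl

private theorem gb2_sum {M : Type*} [AddCommMonoid M] (I : Fintype T.SS) (f : T.SS → M) :
    ∑ s, f s = ∑ w : T.Tm × Fin 4, (f (.p w) + (f (.s w 0) + f (.s w 1) + f (.s w 2) + f (.s w 3))) := by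
  rw [← (T.gb2E).sum_comp f, Fintype.sum_sum_type, Finset.sum_add_distrib]
  congr 1
  rw [Fintype.sum_prod_type]
  refine Finset.sum_congr rfl fun w _ => ?_
  rw [Fin.sum_univ_four]
  rfl

/-- the 2-chain of a row vector -/
private def gb2X {M : Type*} (u : Fin n → M) : T.A2 → M
  | .Q w => u (T.kk w.1)
  | .P k => u k

/-- the next position as a permutation -/
private def gb2N : Equiv.Perm (T.Tm × Fin 4) where
  toFun := T.nw
  invFun := T.pw
  left_inv := T.pw_nw
  right_inv := T.nw_pw

variable {S : Type w} [Ring S]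

/-- the map `u ↦ u c2` -/
private noncomputable def gb2B [Finite J] (t : H) (θ : MonoidAlgebra ℤ H →+* S) (x : T.A2 → S) : T.A1 → S :=
  (show (T.cell t).C2 → S from x) ᵥ* (T.cell t).c2.map θ

open Classical in
/-- the value of the boundary at an edge -/
private theorem gb2_val [Finite J] (t : H) (θ : MonoidAlgebra ℤ H →+* S) (x : T.A2 → S) (e : T.A1) :
    T.gb2B t θ x e =
      ∑ w : T.Tm × Fin 4, ((if A1.r w = e then x (.P (T.kk w.1)) else 0) +
        ((if A1.q w = e then x (.Q w) else 0) +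
          (if T.we w = e then (if T.ws w then x (.Q w) * θ (el (T.wg w)) else -(x (.Q w) * θ (el (T.wg w)))) else 0) +
          (if A1.q (T.nw w) = e then -x (.Q w) else 0) + (if A1.r w = e then -x (.Q w) else 0))) := by
  have h1 := gb2_colK (T.cell t) θ (show (T.cell t).C2 → S from x) e
  have h2 := T.gb2_sum (M := S) (Cell.instFintypeS (T.cell t)) (fun s => if T.sed s = e then
        (if T.ssg s then x (T.sface s) * θ (el (T.ssv s)) else -(x (T.sface s) * θ (el (T.ssv s)))) else 0)
  have h3 : T.gb2B t θ x e = _ := h1.trans h2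
  rw [h3]
  refine Finset.sum_congr rfl fun w _ => ?_
  have e1 : ∀ y : S, y * θ (el 1) = y := fun y => by rw [el_one, map_one, mul_one]
  simp only [sed, ssg, sface, ssv, e1, if_true, Bool.false_eq_true, if_false]

open Classical in
private theorem gb2_r [Finite J] (t : H) (θ : MonoidAlgebra ℤ H →+* S) (x : T.A2 → S) (w0 : T.Tm × Fin 4) :
    T.gb2B t θ x (.r w0) = x (.P (T.kk w0.1)) - x (.Q w0) := by
  rw [gb2_val, Finset.sum_eq_single w0]
  · simp [T.we_ne_r]
    abel
  · intro w _ hw
    simp [T.we_ne_r, hw]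
  · intro h
    exact absurd (Finset.mem_univ _) h

open Classical in
private theorem gb2_val2 [Finite J] (t : H) (θ : MonoidAlgebra ℤ H →+* S) (x : T.A2 → S) (e : T.A1)
    (hx : ∀ w : T.Tm × Fin 4, x (.Q w) = x (.P (T.kk w.1))) :
    T.gb2B t θ x e = ∑ τ : T.Tm, ((if T.we (τ, 1) = e then x (.P (T.kk τ)) * θ (el (T.h τ)) else 0) -
      (if T.we (τ, 2) = e then x (.P (T.kk τ)) * θ (el (T.h τ)) else 0)) := by
  have hq : ∑ w : T.Tm × Fin 4, (if A1.q (T.nw w) = e then x (.Q w) else 0) =
      ∑ w : T.Tm × Fin 4, (if A1.q w = e then x (.Q w) else 0) := by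
    rw [← Equiv.sum_comp T.gb2N (fun w => if A1.q w = e then x (.Q w) else 0)]
    refine Finset.sum_congr rfl fun w _ => ?_
    show _ = if A1.q (T.nw w) = e then x (.Q (T.nw w)) else 0
    rw [hx, hx, T.kk_nw]
  have h1 : T.gb2B t θ x e = ∑ w : T.Tm × Fin 4, (if T.we w = e then (if T.ws w then x (.Q w) * θ (el (T.wg w))
      else -(x (.Q w) * θ (el (T.wg w)))) else 0) +
      (∑ w : T.Tm × Fin 4, (if A1.q w = e then x (.Q w) else 0) -
        ∑ w : T.Tm × Fin 4, (if A1.q (T.nw w) = e then x (.Q w) else 0)) := by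
    rw [gb2_val, ← Finset.sum_sub_distrib, ← Finset.sum_add_distrib]
    refine Finset.sum_congr rfl fun w _ => ?_
    have e1 : (if A1.r w = e then x (.P (T.kk w.1)) else 0) + (if A1.r w = e then -x (.Q w) else 0) = 0 := by
      split_ifs
      · rw [hx]; abel
      · simp
    have e2 : (if A1.q (T.nw w) = e then -x (.Q w) else 0) = -(if A1.q (T.nw w) = e then x (.Q w) else 0) := by
      split_ifs <;> simp
    rw [e2]
    have e3 : ∀ a b c d f : S, a + f = 0 → a + (b + c + -d + f) = c + (b - d) := by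
      intro a b c d f h
      have : a + (b + c + -d + f) = (a + f) + (c + (b - d)) := by abel
      rw [this, h, zero_add]
    exact e3 _ _ _ _ _ e1
  rw [h1, hq, sub_self, add_zero, Fintype.sum_prod_type]
  refine Finset.sum_congr rfl fun τ _ => ?_
  rw [Fin.sum_univ_four]
  have w0 : T.we (τ, 0) = .arc τ := rfl
  have w3 : T.we (τ, 3) = .arc τ := rfl
  have s0 : T.ws (τ, 0) = true := rfl
  have s1 : T.ws (τ, 1) = true := rfl
  have s2 : T.ws (τ, 2) = false := rfl
  have s3 : T.ws (τ, 3) = false := rfl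
  have g0 : T.wg (τ, 0) = 1 := rfl
  have g1 : T.wg (τ, 1) = T.h τ := rfl
  have g2 : T.wg (τ, 2) = T.h τ := rfl
  have g3 : T.wg (τ, 3) = 1 := rfl
  simp only [hx, w0, w3, s0, s1, s2, s3, g0, g1, g2, g3, if_true, Bool.false_eq_true, if_false]
  split_ifs <;> simp

open Classical in
private theorem gb2_ent (θ : MonoidAlgebra ℤ H →+* S) (u : Fin n → S) (j : J) :
    ∑ k, u k * θ (T.entry k j) = ∑ τ : T.Tm, if T.j τ = j then
      (if T.s τ then u (T.kk τ) * θ (el (T.h τ)) else -(u (T.kk τ) * θ (el (T.h τ)))) else 0 := by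
  unfold entry
  simp only [map_sum, Finset.mul_sum]
  rw [Finset.sum_comm]
  refine Finset.sum_congr rfl fun τ _ => ?_
  rw [Finset.sum_eq_single (T.kk τ)]
  · by_cases h : T.j τ = j
    · cases h2 : T.s τ <;> simp [h]
    · simp [h]
  · intro k _ hk
    rw [if_neg (fun h => hk h.1.symm)]
    simp
  · intro h
    exact absurd (Finset.mem_univ _) h

private theorem gb2_iff [Finite J] (t : H) (θ : MonoidAlgebra ℤ H →+* S) (x : T.A2 → S) :
    T.gb2B t θ x = 0 ↔ (∀ w : T.Tm × Fin 4, x (.Q w) = x (.P (T.kk w.1))) ∧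
      ∀ j, ∑ k, x (.P k) * θ (T.entry k j) = 0 := by
  classical
  have key : ∀ j, (∀ w : T.Tm × Fin 4, x (.Q w) = x (.P (T.kk w.1))) →
      T.gb2B t θ x (.ea j) = ∑ k, x (.P k) * θ (T.entry k j) := by
    intro j hx
    rw [gb2_val2 T t θ x _ hx, gb2_ent T θ (fun k => x (.P k)) j]
    refine Finset.sum_congr rfl fun τ _ => ?_
    cases h : T.s τ <;> by_cases hj : T.j τ = j <;> simp [we, h, hj]
  constructor
  · intro h
    have h1 : ∀ w : T.Tm × Fin 4, x (.Q w) = x (.P (T.kk w.1)) := by
      intro w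
      have := congrFun h (.r w)
      rw [gb2_r] at this
      exact (sub_eq_zero.1 this).symm
    refine ⟨h1, fun j => ?_⟩
    rw [← key j h1, h]
    rfl
  · rintro ⟨h1, h2⟩
    funext e
    show _ = (0 : S)
    rcases e with τ' | j | j | w | w | y | y
    · rw [gb2_val2 T t θ x _ h1]
      refine Finset.sum_eq_zero fun τ _ => ?_
      cases h : T.s τ <;> simp [we, h]
    · rw [key j h1, h2 j]
    · have := h2 j
      rw [gb2_ent T θ (fun k => x (.P k)) j] at this
      rw [gb2_val2 T t θ x _ h1]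
      refine neg_eq_zero.1 (Eq.trans ?_ this)
      rw [← Finset.sum_neg_distrib]
      refine Finset.sum_congr rfl fun τ _ => ?_
      cases h : T.s τ <;> by_cases hj : T.j τ = j <;> simp [we, h, hj]
    · rw [gb2_val2 T t θ x _ h1]
      refine Finset.sum_eq_zero fun τ _ => ?_
      cases h : T.s τ <;> simp [we, h]
    · rw [gb2_val2 T t θ x _ h1]
      refine Finset.sum_eq_zero fun τ _ => ?_
      cases h : T.s τ <;> simp [we, h]
    · rw [gb2_val2 T t θ x _ h1]
      refine Finset.sum_eq_zero fun τ _ => ?_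
      cases h : T.s τ <;> simp [we, h]
    · rw [gb2_val2 T t θ x _ h1]
      refine Finset.sum_eq_zero fun τ _ => ?_
      cases h : T.s τ <;> simp [we, h]

end

theorem ker_cell (F : Type w) [Field F] {H : Type} [Group H] {n m : ℕ} (T : Tms H n (Option (Fin m))) (t : H)
    (A : Matrix (Fin n) (Fin m) (MonoidAlgebra ℤ H)) (hA : ∀ k j, T.entry k (some j) = A k j)
    (h0 : ∀ k, T.entry k none = 0) (N : Subgroup H) [N.Normal] :
    finrank F (LinearMap.ker (actM F ((T.cell t).c2.map (toQ F N)))) =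
      finrank F (LinearMap.ker (actM F (A.map (toQ F N)))) := by
  have h1 : ∀ x : (T.cell t).C2 → MonoidAlgebra F (H ⧸ N),
      x ∈ LinearMap.ker (actM F ((T.cell t).c2.map (toQ F N))) ↔
      (∀ w : T.Tm × Fin 4, x (A2.Q w : T.A2) = x (A2.P (T.kk w.1) : T.A2)) ∧
        (fun k => x (A2.P k : T.A2)) ∈ LinearMap.ker (actM F (A.map (toQ F N))) := by
    intro x
    have e1 := T.gb2_iff t (toQ F N) x
    rw [LinearMap.mem_ker, LinearMap.mem_ker]
    refine Iff.trans e1 (and_congr_right fun _ => ?_)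
    constructor
    · intro h
      funext i
      have := h (some i)
      simp only [hA] at this
      exact this
    · intro h j
      rcases j with _ | i
      · simp [h0]
      · have := congrFun h i
        simp only [hA]
        exact this
  refine LinearEquiv.finrank_eq (LinearEquiv.mk ⟨⟨fun x => ⟨fun k => x.1 (A2.P k : T.A2), ((h1 x.1).1 x.2).2⟩, ?_⟩, ?_⟩
    (fun u => ⟨T.gb2X u.1, (h1 (T.gb2X u.1)).2 ⟨fun w => rfl, u.2⟩⟩) ?_ ?_)
  · intro x y
    rfl
  · intro c x
    rfl
  · intro x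
    apply Subtype.ext
    funext f
    rcases f with w | k
    · exact (((h1 x.1).1 x.2).1 w).symm
    · rfl
  · intro u
    rfl

end Tms

end NBT
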