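import Pool.Agent.Lib.MP_83fbc5_gt.CDefs

/-!
# MP_83fbc5_gt, TDefs: lists of terms of a matrix
-/

set_option autoImplicit false

namespace NBT

open Matrix

/-- a list of terms, arranged in cycles, for `n` rows and the columns `J` -/
structure Tms (H : Type) [Group H] (n : ℕ) (J : Type) where
  Tm : Type
  fin : Finite Tm
  kk : Tm → Fin n
  c : Equiv.Perm Tm
  kk_c : ∀ τ, kk (c τ) = kk τ
  kk_surj : Function.Surjective kk
  trans : ∀ P : Tm → Prop, (∀ τ, P τ → P (c τ)) → ∀ τ τ', kk τ = kk τ' → P τ → P τ'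
  s : Tm → Bool
  h : Tm → H
  j : Tm → J

attribute [instance] Tms.fin

noncomputable instance {H : Type} [Group H] {n : ℕ} {J : Type} (T : Tms H n J) : Fintype T.Tm := Fintype.ofFinite _

open Classical in
/-- the entry of the matrix given by the terms -/
noncomputable def Tms.entry {H : Type} [Group H] {n : ℕ} {J : Type} (T : Tms H n J) (k : Fin n) (j : J) :
    MonoidAlgebra ℤ H :=
  ∑ τ : T.Tm, if T.kk τ = k ∧ T.j τ = j then (if T.s τ then el (T.h τ) else -el (T.h τ)) else 0

end NBT
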