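import Pool.Agent.Lib.MP_83fbc5_gt.CellDefs
import Pool.Agent.Lib.MP_83fbc5_gt.TDefs

/-!
# MP_83fbc5_gt, GBDefs: the polygonal complex of a list of terms

For terms `T` (rows `Fin n`, columns `J`) and `t ∈ H`. Positions `w = (τ, p)`, `p : Fin 4`; the walk of the row `k` runs for each term `τ` of the row (sign `s`, group element `h`, column `j`) through: the edge `arc τ` from
`(1, o k)` to `(h, y j)` (`p = 0`), the circle of the column `j` at `h`, consisting of the edges `ea j`, `eb j` from `y j` to `m j`: `ea` forward, `eb` backward if `s`, `eb` forward, `ea` backward if not `s`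
(`p = 1, 2`), the edge `arc τ` backward (`p = 3`). `nw` is the next position. For each position there is a ring vertex `a w`, a ring edge `r w` from `a w` to `a (nw w)`, a spoke `q w` from `a w` to the starting
vertex `(bg w, bl w)` of the position `w` of the walk, and a square `Q w` with sides `q w`, the walk edge, `q (nw w)` backward, `r w` backward; for each row the polygon `P k` with the sides `r w`. Moreover for each
`x : Fin n ⊕ J` (vertex `o k` or `y j`) a vertex `mid x` and edges `u x` from `(1, x)` to `(1, mid x)`, `v x` from `(1, mid x)` to `(t, x)`.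
-/

set_option autoImplicit false

namespace NBT

open Matrix

namespace Tms

inductive A0 {H : Type} [Group H] {n : ℕ} {J : Type} (T : Tms H n J) : Type
  | o (k : Fin n) | y (j : J) | m (j : J) | a (w : T.Tm × Fin 4) | mid (x : Fin n ⊕ J)

inductive A1 {H : Type} [Group H] {n : ℕ} {J : Type} (T : Tms H n J) : Type
  | arc (τ : T.Tm) | ea (j : J) | eb (j : J) | r (w : T.Tm × Fin 4) | q (w : T.Tm × Fin 4) | u (x : Fin n ⊕ J)
  | v (x : Fin n ⊕ J)

inductive A2 {H : Type} [Group H] {n : ℕ} {J : Type} (T : Tms H n J) : Type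
  | Q (w : T.Tm × Fin 4) | P (k : Fin n)

inductive SS {H : Type} [Group H] {n : ℕ} {J : Type} (T : Tms H n J) : Type
  | p (w : T.Tm × Fin 4) | s (w : T.Tm × Fin 4) (i : Fin 4)

variable {H : Type} [Group H] {n : ℕ} {J : Type} (T : Tms H n J)

/-- the next position -/
def nw (w : T.Tm × Fin 4) : T.Tm × Fin 4 := (if w.2 = 3 then T.c w.1 else w.1, w.2 + 1)

/-- the previous position -/
def pw (w : T.Tm × Fin 4) : T.Tm × Fin 4 := (if w.2 = 0 then T.c.symm w.1 else w.1, w.2 - 1)

/-- label of the starting vertex of a position of the walk -/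
def bl (w : T.Tm × Fin 4) : T.A0 :=
  match w.2 with
  | 0 => .o (T.kk w.1)
  | 1 => .y (T.j w.1)
  | 2 => .m (T.j w.1)
  | 3 => .y (T.j w.1)

/-- group element of the starting vertex of a position of the walk -/
def bg (w : T.Tm × Fin 4) : H := if w.2 = 0 then 1 else T.h w.1

/-- the edge of a position of the walk -/
def we (w : T.Tm × Fin 4) : T.A1 :=
  match w.2 with
  | 0 => .arc w.1
  | 1 => if T.s w.1 then .ea (T.j w.1) else .eb (T.j w.1)
  | 2 => if T.s w.1 then .eb (T.j w.1) else .ea (T.j w.1)
  | 3 => .arc w.1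

/-- group element of the edge of a position of the walk -/
def wg (w : T.Tm × Fin 4) : H := if w.2 = 0 ∨ w.2 = 3 then 1 else T.h w.1

/-- direction of the edge of a position of the walk -/
def ws (w : T.Tm × Fin 4) : Bool := w.2 = 0 ∨ w.2 = 1

def xl : Fin n ⊕ J → T.A0
  | Sum.inl k => .o k
  | Sum.inr j => .y j

def le0 : T.A1 → T.A0
  | .arc τ => .o (T.kk τ)
  | .ea j => .y j
  | .eb j => .y j
  | .r w => .a w
  | .q w => .a w
  | .u x => T.xl x
  | .v x => .mid x

def le1 : T.A1 → T.A0
  | .arc τ => .y (T.j τ)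
  | .ea j => .m j
  | .eb j => .m j
  | .r w => .a (T.nw w)
  | .q w => T.bl w
  | .u x => .mid x
  | .v x => T.xl x

def lh1 (t : H) : T.A1 → H
  | .arc τ => T.h τ
  | .ea _ => 1
  | .eb _ => 1
  | .r _ => 1
  | .q w => T.bg w
  | .u _ => 1
  | .v _ => t

def sface : T.SS → T.A2
  | .p w => .P (T.kk w.1)
  | .s w _ => .Q w

def snx : T.SS → T.SS
  | .p w => .p (T.nw w)
  | .s w i => .s w (i + 1)

def spv : T.SS → T.SS
  | .p w => .p (T.pw w)
  | .s w i => .s w (i - 1)

def sed : T.SS → T.A1
  | .p w => .r w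
  | .s w 0 => .q w
  | .s w 1 => T.we w
  | .s w 2 => .q (T.nw w)
  | .s w 3 => .r w

def ssv : T.SS → H
  | .s w 1 => T.wg w
  | _ => 1

def ssg : T.SS → Bool
  | .p _ => true
  | .s _ 0 => true
  | .s w 1 => T.ws w
  | .s _ 2 => false
  | .s _ 3 => false

end Tms

end NBT
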