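import Pool.Agent.Lib.MP_83fbc5_gt.Basic

/-!
# MP_83fbc5_gt, module IND: exactness of induced complexes

PROOF. Let `f : H → G` be injective. For `r ∈ G` let `comp r : ℤ[G] →+ ℤ[H]`, `(comp r x) h = x (r * f h)` (`Finsupp.comapDomain` with the injection
`h ↦ r * f h`). Facts: (a) `comp r (x * ind f y) = comp r x * y` (additive in `x`, `y`: check on `el g`, `el h`: `comp r (el g)` is `el k` if
`g = r * f k` and `0` if `g` is not in `r f(H)`); (b) for a set of representatives `ρ : G → G` of the left cosets (`ρ g = g * f k` for some `k`,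
`ρ (g * f k) = ρ g`; e.g. via `Quotient.out`), `x = ∑ r ∈ (support of x).image ρ, el r * ind f (comp r x)`.
`ind_exact`, `←`: `v ᵥ* (d2.map) ᵥ* d1.map = v ᵥ* ((d2 * d1).map) = 0`, where `d2 * d1 = 0` by `h` applied to rows. `→`: if `u ᵥ* d1.map = 0`, then
for each `r` the vector `comp r ∘ u` satisfies `(comp r ∘ u) ᵥ* d1 = 0` by (a), so `comp r ∘ u = v_r ᵥ* d2` and `v = ∑ r, el r * ind f (v_r)` (finite sum over the
representatives occurring in the supports of the coordinates of `u`) satisfies `v ᵥ* d2.map = u` by (b).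
`ind_exact0`: the coefficient of `eP π aug u` at `π r` is `∑ i, eps (comp r (u i)) * aug i` (as `π g = π r` iff `g ∈ r f(H)`), so `eP π aug u = 0` iff all vectors
`comp r ∘ u` satisfy the hypothesis; conclude as before. `ind_surj`: `m` is an integral combination of `single (π g) 1` and
`eP π aug (fun i => el g * ind f (u i)) = single (π g) 1` for the given `u`.
(75-100 minutes; may be split)
-/

set_option autoImplicit false

namespace NBT

open Matrix

theorem eP_add {G A : Type} [Group G] (π : G → A) {ι : Type} [Fintype ι] (aug : ι → ℤ) (u v : ι → MonoidAlgebra ℤ G) :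
    eP π aug (u + v) = eP π aug u + eP π aug v := by
  unfold eP
  rw [← Finset.sum_add_distrib]
  refine Finset.sum_congr rfl fun i _ => ?_
  rw [Pi.add_apply, pf_add, smul_add]

section comp

variable {H G : Type} [Group H] [Group G] (f : H →* G) (hf : Function.Injective f)

/-- the component at the coset of `r` -/
noncomputable def IND_comp (r : G) : MonoidAlgebra ℤ G →+ MonoidAlgebra ℤ H :=
  MonoidAlgebra.comapDomainAddMonoidHom (fun h => r * f h) (fun _ _ h => hf (mul_left_cancel h))

theorem IND_comp_coeff (r : G) (x : MonoidAlgebra ℤ G) (h : H) :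
    (IND_comp f hf r x).coeff h = x.coeff (r * f h) := by
  simp [IND_comp]

include hf in
theorem IND_ind_coeff (y : MonoidAlgebra ℤ H) (h : H) : (ind f y).coeff (f h) = y.coeff h := by
  have : (ind f y).coeff = Finsupp.mapDomain f y.coeff := rfl
  rw [this, Finsupp.mapDomain_apply hf]

theorem IND_ind_coeff_notMem (y : MonoidAlgebra ℤ H) (g : G) (hg : g ∉ Set.range f) :
    (ind f y).coeff g = 0 := by
  have : (ind f y).coeff = Finsupp.mapDomain f y.coeff := rfl
  rw [this, Finsupp.mapDomain_of_notMem_range _ _ hg]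

theorem IND_comp_mul (r : G) (x : MonoidAlgebra ℤ G) (y : MonoidAlgebra ℤ H) :
    IND_comp f hf r (x * ind f y) = IND_comp f hf r x * y := by
  revert x
  refine zg_ind (P := fun y => ∀ x, IND_comp f hf r (x * ind f y) = IND_comp f hf r x * y) ?_ ?_ ?_ ?_ y
  · intro x; simp
  · intro h x
    ext k
    rw [ind_el, IND_comp_coeff, el, el, MonoidAlgebra.coeff_mul_single_apply,
      MonoidAlgebra.coeff_mul_single_apply, IND_comp_coeff, f.map_mul, f.map_inv, mul_assoc]
  · intro y1 y2 h1 h2 x
    rw [map_add, mul_add, map_add, h1, h2, mul_add]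
  · intro y1 h1 x
    rw [map_neg, mul_neg, map_neg, h1, mul_neg]

/-- representative of a coset -/
noncomputable def IND_out (c : G ⧸ f.range) : G := Quotient.out c

theorem IND_out_spec (c : G ⧸ f.range) (g : G) :
    (QuotientGroup.mk g : G ⧸ f.range) = c ↔ ∃ k, g = IND_out f c * f k := by
  have h1 : (QuotientGroup.mk (IND_out f c) : G ⧸ f.range) = c := Quotient.out_eq c
  constructor
  · intro h
    have h2 : (QuotientGroup.mk (IND_out f c) : G ⧸ f.range) = QuotientGroup.mk g := by rw [h1, h]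
    rw [QuotientGroup.eq] at h2
    obtain ⟨k, hk⟩ := h2
    exact ⟨k, by rw [hk]; group⟩
  · rintro ⟨k, rfl⟩
    rw [← h1, eq_comm, QuotientGroup.eq]
    refine ⟨k, ?_⟩
    rw [h1]
    group

theorem IND_sum (x : MonoidAlgebra ℤ G) (T : Finset (G ⧸ f.range))
    (hT : ∀ g ∈ x.coeff.support, (QuotientGroup.mk g : G ⧸ f.range) ∈ T) :
    ∑ c ∈ T, el (IND_out f c) * ind f (IND_comp f hf (IND_out f c) x) = x := by
  classical
  ext g
  rw [MonoidAlgebra.coeff_sum, Finsupp.finsetSum_apply]
  have h1 : ∀ c : G ⧸ f.range, (el (IND_out f c) * ind f (IND_comp f hf (IND_out f c) x)).coeff g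
      = if c = (QuotientGroup.mk g : G ⧸ f.range) then x.coeff g else 0 := by
    intro c
    rw [el, MonoidAlgebra.coeff_single_mul_apply, one_mul]
    split_ifs with hc
    · obtain ⟨k, hk⟩ := (IND_out_spec f c g).1 hc.symm
      have h2 : (IND_out f c)⁻¹ * g = f k := by rw [hk]; group
      rw [h2, IND_ind_coeff f hf, IND_comp_coeff, ← hk]
    · apply IND_ind_coeff_notMem
      rintro ⟨k, hk⟩
      exact hc ((IND_out_spec f c g).2 ⟨k, by rw [hk]; group⟩).symm
  rw [Finset.sum_congr rfl fun c _ => h1 c, Finset.sum_ite_eq']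
  split_ifs with hg
  · rfl
  · by_contra h0
    exact hg (hT g (Finsupp.mem_support_iff.2 fun h => h0 h.symm))

theorem IND_comp_vecMul {b c : Type} [Fintype b] (d1 : Matrix b c (MonoidAlgebra ℤ H)) (r : G)
    (u : b → MonoidAlgebra ℤ G) :
    (fun i => IND_comp f hf r (u i)) ᵥ* d1 = fun j => IND_comp f hf r ((u ᵥ* d1.map (ind f)) j) := by
  ext1 j
  simp only [Matrix.vecMul, dotProduct, map_sum, Matrix.map_apply, IND_comp_mul]

theorem IND_lift {a b : Type} [Fintype a] [Fintype b] (d2 : Matrix a b (MonoidAlgebra ℤ H))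
    (u : b → MonoidAlgebra ℤ G)
    (h : ∀ r, ∃ v : a → MonoidAlgebra ℤ H, v ᵥ* d2 = fun i => IND_comp f hf r (u i)) :
    ∃ v, v ᵥ* d2.map (ind f) = u := by
  classical
  choose v hv using h
  let T : Finset (G ⧸ f.range) :=
    Finset.univ.biUnion fun i : b => (u i).coeff.support.image fun g => (QuotientGroup.mk g : G ⧸ f.range)
  refine ⟨fun i => ∑ c ∈ T, el (IND_out f c) * ind f (v (IND_out f c) i), ?_⟩
  ext1 j
  have h1 := IND_sum f hf (u j) T (by
    intro g hg
    simp only [T, Finset.mem_biUnion, Finset.mem_image]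
    exact ⟨j, Finset.mem_univ _, g, hg, rfl⟩)
  refine Eq.trans ?_ h1
  simp only [Matrix.vecMul, dotProduct, Matrix.map_apply, Finset.sum_mul]
  rw [Finset.sum_comm]
  refine Finset.sum_congr rfl fun c _ => ?_
  have h2 := congrFun (hv (IND_out f c)) j
  simp only [Matrix.vecMul, dotProduct] at h2
  rw [← h2, map_sum, Finset.mul_sum]
  refine Finset.sum_congr rfl fun i _ => ?_
  rw [map_mul, mul_assoc]

end comp

theorem ind_exact {H G : Type} [Group H] [Group G] (f : H →* G) (hf : Function.Injective f) {a b c : Type}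
    [Fintype a] [Fintype b] (d1 : Matrix b c (MonoidAlgebra ℤ H)) (d2 : Matrix a b (MonoidAlgebra ℤ H))
    (h : ∀ u : b → MonoidAlgebra ℤ H, u ᵥ* d1 = 0 ↔ ∃ v, v ᵥ* d2 = u) (u : b → MonoidAlgebra ℤ G) :
    u ᵥ* d1.map (ind f) = 0 ↔ ∃ v, v ᵥ* d2.map (ind f) = u := by
  classical
  constructor
  · intro hu
    refine IND_lift f hf d2 u fun r => (h _).1 ?_
    rw [IND_comp_vecMul, hu]
    ext1 j
    simp
  · rintro ⟨v, rfl⟩
    have h1 : d2 * d1 = 0 := by
      ext1 i j
      have h2 := (h (Pi.single i 1 ᵥ* d2)).2 ⟨_, rfl⟩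
      rw [Matrix.vecMul_vecMul, Matrix.single_one_vecMul] at h2
      have h3 := congrFun h2 j
      simpa using h3
    rw [Matrix.vecMul_vecMul, ← Matrix.map_mul, h1]
    simp

theorem IND_pf_coeff {H G A : Type} [Group H] [Group G] (f : H →* G) (hf : Function.Injective f) (π : G → A)
    (hπ : ∀ g g', π g = π g' ↔ ∃ h, g' = g * f h) (r : G) (x : MonoidAlgebra ℤ G) :
    (pf π x) (π r) = eps H (IND_comp f hf r x) := by
  classical
  refine zg_ind (P := fun x => (pf π x) (π r) = eps H (IND_comp f hf r x)) ?_ ?_ ?_ ?_ x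
  · simp [pf_zero]
  · intro g
    rw [pf_el, Finsupp.single_apply]
    split_ifs with hg
    · obtain ⟨k, hk⟩ := (hπ r g).1 hg.symm
      have h1 : IND_comp f hf r (el g) = el k := by
        ext h
        rw [IND_comp_coeff, el, el, MonoidAlgebra.coeff_single, MonoidAlgebra.coeff_single,
          Finsupp.single_apply, Finsupp.single_apply, hk]
        simp [hf.eq_iff]
      rw [h1, eps_el]
    · have h1 : IND_comp f hf r (el g) = 0 := by
        ext h
        rw [IND_comp_coeff, el, MonoidAlgebra.coeff_single, Finsupp.single_apply, if_neg]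
        · rfl
        · intro h2
          exact hg ((hπ r g).2 ⟨h, h2⟩).symm
      rw [h1, map_zero]
  · intro x y hx hy
    rw [pf_add, Finsupp.add_apply, hx, hy, map_add, map_add]
  · intro x hx
    have h1 : pf π (-x) = - pf π x := by
      have h2 := pf_add π x (-x)
      rw [add_neg_cancel, pf_zero] at h2
      exact (neg_eq_of_add_eq_zero_right h2.symm).symm
    rw [h1, Finsupp.neg_apply, hx, map_neg, map_neg]

theorem IND_eP_coeff {H G A : Type} [Group H] [Group G] (f : H →* G) (hf : Function.Injective f) (π : G → A)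
    (hπ : ∀ g g', π g = π g' ↔ ∃ h, g' = g * f h) {ι : Type} [Fintype ι] (aug : ι → ℤ) (r : G)
    (u : ι → MonoidAlgebra ℤ G) :
    (eP π aug u) (π r) = ∑ i, eps H (IND_comp f hf r (u i)) * aug i := by
  unfold eP
  rw [Finsupp.finsetSum_apply]
  refine Finset.sum_congr rfl fun i _ => ?_
  rw [Finsupp.smul_apply, IND_pf_coeff f hf π hπ, smul_eq_mul, mul_comm]

theorem IND_eP_zero {H G A : Type} [Group H] [Group G] (f : H →* G) (hf : Function.Injective f) (π : G → A)
    (hπ : ∀ g g', π g = π g' ↔ ∃ h, g' = g * f h) {ι : Type} [Fintype ι] (aug : ι → ℤ)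
    (u : ι → MonoidAlgebra ℤ G) :
    eP π aug u = 0 ↔ ∀ r, ∑ i, eps H (IND_comp f hf r (u i)) * aug i = 0 := by
  constructor
  · intro h r
    rw [← IND_eP_coeff f hf π hπ aug r u, h]
    rfl
  · intro h
    ext a
    by_cases ha : a ∈ Set.range π
    · obtain ⟨r, rfl⟩ := ha
      rw [IND_eP_coeff f hf π hπ aug r u, h r]
      rfl
    · unfold eP
      rw [Finsupp.finsetSum_apply, Finsupp.zero_apply]
      refine Finset.sum_eq_zero fun i _ => ?_
      rw [Finsupp.smul_apply]
      unfold pf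
      rw [Finsupp.mapDomain_of_notMem_range _ _ ha, smul_zero]

theorem ind_exact0 {H G A : Type} [Group H] [Group G] (f : H →* G) (hf : Function.Injective f) (π : G → A)
    (hπ : ∀ g g', π g = π g' ↔ ∃ h, g' = g * f h) {κ ι : Type} [Fintype κ] [Fintype ι] (aug : ι → ℤ)
    (d : Matrix κ ι (MonoidAlgebra ℤ H))
    (h : ∀ u : ι → MonoidAlgebra ℤ H, ∑ i, eps H (u i) * aug i = 0 ↔ ∃ v, v ᵥ* d = u) (u : ι → MonoidAlgebra ℤ G) :
    eP π aug u = 0 ↔ ∃ v, v ᵥ* d.map (ind f) = u := by
  rw [IND_eP_zero f hf π hπ]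
  constructor
  · intro hu
    exact IND_lift f hf d u fun r => (h _).1 (hu r)
  · rintro ⟨v, rfl⟩ r
    refine (h fun i => IND_comp f hf r ((v ᵥ* d.map (ind f)) i)).2
      ⟨fun i => IND_comp f hf r (v i), ?_⟩
    rw [IND_comp_vecMul]

theorem IND_pf_single {H G A : Type} [Group H] [Group G] (f : H →* G) (π : G → A)
    (hπ : ∀ g g', π g = π g' ↔ ∃ h, g' = g * f h) (g : G) (n : ℤ) (y : MonoidAlgebra ℤ H) :
    pf π (MonoidAlgebra.single g n * ind f y) = Finsupp.single (π g) (n * eps H y) := by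
  refine zg_ind (P := fun y => pf π (MonoidAlgebra.single g n * ind f y)
    = Finsupp.single (π g) (n * eps H y)) ?_ ?_ ?_ ?_ y
  · simp [pf_zero]
  · intro h
    rw [ind_el, eps_el, mul_one, el, MonoidAlgebra.single_mul_single, mul_one]
    unfold pf
    rw [MonoidAlgebra.coeff_single, Finsupp.mapDomain_single, (hπ g (g * f h)).2 ⟨h, rfl⟩]
  · intro x y hx hy
    rw [map_add, mul_add, pf_add, hx, hy, map_add, mul_add, Finsupp.single_add]
  · intro x hx
    have h1 : ∀ z : MonoidAlgebra ℤ G, pf π (-z) = - pf π z := by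
      intro z
      have h2 := pf_add π z (-z)
      rw [add_neg_cancel, pf_zero] at h2
      exact (neg_eq_of_add_eq_zero_right h2.symm).symm
    rw [map_neg, mul_neg, h1, hx, map_neg, mul_neg, Finsupp.single_neg]

theorem ind_surj {H G A : Type} [Group H] [Group G] (f : H →* G) (π : G → A) (hπs : Function.Surjective π)
    (hπ : ∀ g g', π g = π g' ↔ ∃ h, g' = g * f h) {ι : Type} [Fintype ι] (aug : ι → ℤ)
    (h : ∃ u : ι → MonoidAlgebra ℤ H, ∑ i, eps H (u i) * aug i = 1) (m : A →₀ ℤ) :
    ∃ u : ι → MonoidAlgebra ℤ G, eP π aug u = m := by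
  obtain ⟨u0, hu0⟩ := h
  induction m using Finsupp.induction_linear with
  | zero =>
    refine ⟨0, ?_⟩
    unfold eP
    simp [pf_zero]
  | add m1 m2 h1 h2 =>
    obtain ⟨u1, rfl⟩ := h1
    obtain ⟨u2, rfl⟩ := h2
    exact ⟨u1 + u2, eP_add π aug u1 u2⟩
  | single a n =>
    obtain ⟨g, rfl⟩ := hπs a
    refine ⟨fun i => MonoidAlgebra.single g n * ind f (u0 i), ?_⟩
    unfold eP
    simp only [IND_pf_single f π hπ]
    have h2 : ∀ i, aug i • Finsupp.single (π g) (n * eps H (u0 i))
        = Finsupp.single (π g) (n * (eps H (u0 i) * aug i)) := by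
      intro i
      rw [Finsupp.smul_single, smul_eq_mul]
      congr 1
      ring
    rw [Finset.sum_congr rfl fun i _ => h2 i, ← Finsupp.single_finsetSum, ← Finset.mul_sum, hu0, mul_one]

end NBT
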