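import Pool.Agent.Lib.MP_83fbc5_gt.KDefs

/-!
# MP_83fbc5_gt, module KA: formulas for the differentials in the coordinates `T1, T2, T3`

PROOF. (1) `e2 a w v = - e2 a v w` (the two conditions exclude each other) and `e3` changes sign under transpositions (its definition is the
alternating sum; `abel`). (2) For adjacent `v, w` (ranks different by `RK`) `d2 (e2 a v w) = (s1 a w - s1 (a * gen v) w) - (s1 a v - s1 (a * gen w) v)`: if
`r v < r w` this is `Finsupp.linearCombination_single`, otherwise use the antisymmetry of both sides. (3) For pairwise adjacent `u, v, w`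
`d3 (e3 a u v w) = (e2 a v w - e2 (a * gen u) v w) - (e2 a u w - e2 (a * gen v) u w) + (e2 a u v - e2 (a * gen w) u v)`: exactly one of the six terms of `e3` is not zero
(ranks are three different numbers); both sides are antisymmetric in `(u, v, w)`, so one may assume `r u < r v < r w`.
(4) Translate to the letters: for a letter `b`, `sn b • (f (lo a b) - f (lo a b * gen b.1)) = f a - f (dn a b)` for every function `f` into an abelian
group (two cases for `b.2`: if `b.2 = true`, `lo a b = a * (gen b.1)⁻¹ = dn a b`; if `b.2 = false`, `lo a b = a`, `dn a b = a * gen b.1`), and for adjacent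
`b.1, c.1` the operations `lo · b`, `lo · c`, `dn · b`, right multiplication by `gen b.1` and `gen c.1` commute (`gen_comm`).
(60-90 minutes)
-/

set_option autoImplicit false

namespace NBT

namespace Kz

open RaagIso

variable {V : Type} {Γ : SimpleGraph V} {r : V → ℕ}

theorem KA_d1 (a : RA Γ) (v : V) : d1 Γ (s1 Γ a v) = s0 Γ a - s0 Γ (a * gen v) := by
  unfold d1 s1
  rw [Finsupp.linearCombination_single, one_smul]

theorem KA_d2 (a : RA Γ) (p : C2 Γ r) :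
    d2 Γ r (s2 Γ r a p) = (s1 Γ a p.1.2 - s1 Γ (a * gen p.1.1) p.1.2) -
    (s1 Γ a p.1.1 - s1 Γ (a * gen p.1.2) p.1.1) := by
  unfold d2 s2
  rw [Finsupp.linearCombination_single, one_smul]

theorem KA_d3 (a : RA Γ) (p : C3 Γ r) :
    d3 Γ r (s3 Γ r a p) = (s2 Γ r a p.f0 - s2 Γ r (a * gen p.1.1) p.f0) -
    (s2 Γ r a p.f1 - s2 Γ r (a * gen p.1.2.1) p.f1) +
    (s2 Γ r a p.f2 - s2 Γ r (a * gen p.1.2.2) p.f2) := by
  unfold d3 s3
  rw [Finsupp.linearCombination_single, one_smul]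

/-! antisymmetry -/

/-- an edge -/
def KA_mk2 {v w : V} (h : Γ.Adj v w ∧ r v < r w) : C2 Γ r := ⟨(v, w), h⟩

/-- a triangle -/
def KA_mk3 {u v w : V} (h : (Γ.Adj u v ∧ Γ.Adj u w ∧ Γ.Adj v w) ∧ r u < r v ∧ r v < r w) :
    C3 Γ r := ⟨(u, v, w), h⟩

theorem KA_d2m (a : RA Γ) {v w : V} (h : Γ.Adj v w ∧ r v < r w) :
    d2 Γ r (s2 Γ r a (KA_mk2 h)) = (s1 Γ a w - s1 Γ (a * gen v) w) -
    (s1 Γ a v - s1 Γ (a * gen w) v) :=
  KA_d2 a (KA_mk2 h)

theorem KA_d3m (a : RA Γ) {u v w : V}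
    (h : (Γ.Adj u v ∧ Γ.Adj u w ∧ Γ.Adj v w) ∧ r u < r v ∧ r v < r w) :
    d3 Γ r (s3 Γ r a (KA_mk3 h)) =
    (s2 Γ r a (KA_mk2 ⟨h.1.2.2, h.2.2⟩) - s2 Γ r (a * gen u) (KA_mk2 ⟨h.1.2.2, h.2.2⟩)) -
    (s2 Γ r a (KA_mk2 ⟨h.1.2.1, h.2.1.trans h.2.2⟩) -
      s2 Γ r (a * gen v) (KA_mk2 ⟨h.1.2.1, h.2.1.trans h.2.2⟩)) +
    (s2 Γ r a (KA_mk2 ⟨h.1.1, h.2.1⟩) - s2 Γ r (a * gen w) (KA_mk2 ⟨h.1.1, h.2.1⟩)) :=
  KA_d3 a (KA_mk3 h)

theorem KA_e2_pos (a : RA Γ) {v w : V} (h : Γ.Adj v w ∧ r v < r w) :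
    e2 Γ r a v w = s2 Γ r a (KA_mk2 h) := by
  unfold e2
  exact dif_pos h

theorem KA_e2_neg (a : RA Γ) {v w : V} (h : Γ.Adj w v ∧ r w < r v) :
    e2 Γ r a v w = - s2 Γ r a (KA_mk2 h) := by
  unfold e2
  rw [dif_neg (fun h' => lt_asymm h.2 h'.2)]
  exact dif_pos h

theorem KA_e2_zero (a : RA Γ) {v w : V} (h : ¬ (Γ.Adj v w ∧ r v < r w))
    (h' : ¬ (Γ.Adj w v ∧ r w < r v)) : e2 Γ r a v w = 0 := by
  unfold e2
  rw [dif_neg h, dif_neg h']

theorem KA_e2_symm (a : RA Γ) (v w : V) : e2 Γ r a w v = - e2 Γ r a v w := by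
  by_cases h : Γ.Adj v w ∧ r v < r w
  · rw [KA_e2_pos a h, KA_e2_neg a h]
  · by_cases h' : Γ.Adj w v ∧ r w < r v
    · rw [KA_e2_pos a h', KA_e2_neg a h', neg_neg]
    · rw [KA_e2_zero a h h', KA_e2_zero a h' h, neg_zero]

theorem KA_e3_symm12 (a : RA Γ) (u v w : V) : e3 Γ r a v u w = - e3 Γ r a u v w := by
  unfold e3
  abel

theorem KA_e3_symm23 (a : RA Γ) (u v w : V) : e3 Γ r a u w v = - e3 Γ r a u v w := by
  unfold e3
  abel

/-! commutation -/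

theorem KA_comm_gl {v : V} {b : V × Bool} (h : Γ.Adj b.1 v) :
    Commute (gl b : RA Γ) (gen v) := by
  have h1 : Commute (gen b.1 : RA Γ) (gen v) := gen_comm h
  unfold gl
  split_ifs
  · exact h1
  · exact h1.inv_left

theorem KA_lo_comm (a : RA Γ) {b c : V × Bool} (h : Γ.Adj b.1 c.1) :
    lo (lo a b) c = lo (lo a c) b := by
  have h1 : Commute (gen b.1 : RA Γ)⁻¹ (gen c.1)⁻¹ :=
    (show Commute (gen b.1 : RA Γ) (gen c.1) from gen_comm h).inv_inv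
  unfold lo
  split_ifs
  · rw [mul_assoc, h1.eq, mul_assoc]
  · rfl
  · rfl
  · rfl

theorem KA_dn_lo (a : RA Γ) {b c : V × Bool} (h : Γ.Adj b.1 c.1) :
    dn (lo a c) b = lo (dn a b) c := by
  have h1 : Commute (gl b : RA Γ)⁻¹ (gen c.1)⁻¹ := (KA_comm_gl h).inv_inv
  unfold lo dn
  split_ifs
  · rw [mul_assoc, mul_assoc, h1.eq]
  · rfl

theorem KA_key {M : Type*} [AddCommGroup M] (f : RA Γ → M) (a : RA Γ) (b : V × Bool) :
    sn b • (f (lo a b) - f (lo a b * gen b.1)) = f a - f (dn a b) := by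
  unfold sn lo dn gl
  split_ifs
  · rw [inv_mul_cancel_right, neg_smul, one_smul, neg_sub]
  · rw [inv_inv, one_smul]

/-! the differentials of `e2` and `e3` -/

theorem KA_d2_e2 (hr : RK Γ r) (a : RA Γ) {v w : V} (h : Γ.Adj v w) :
    d2 Γ r (e2 Γ r a v w) = (s1 Γ a w - s1 Γ (a * gen v) w) - (s1 Γ a v - s1 Γ (a * gen w) v) := by
  rcases lt_or_gt_of_ne (hr.1 v w h) with h1 | h1
  · rw [KA_e2_pos a ⟨h, h1⟩, KA_d2m]
  · rw [KA_e2_neg a ⟨h.symm, h1⟩, map_neg, KA_d2m]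
    abel

theorem KA_e3_sorted (a : RA Γ) {u v w : V} (h : Γ.Adj u v ∧ Γ.Adj u w ∧ Γ.Adj v w)
    (h1 : r u < r v) (h2 : r v < r w) :
    e3 Γ r a u v w = s3 Γ r a (KA_mk3 ⟨h, h1, h2⟩) := by
  have h3 : o3 Γ r a u v w = s3 Γ r a (KA_mk3 ⟨h, h1, h2⟩) := by
    unfold o3
    exact dif_pos ⟨h, h1, h2⟩
  unfold e3
  rw [h3]
  unfold o3
  rw [dif_neg (fun h' => by omega), dif_neg (fun h' => by omega),
    dif_neg (fun h' => by omega), dif_neg (fun h' => by omega), dif_neg (fun h' => by omega)]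
  abel

theorem KA_d3_sorted (a : RA Γ) {u v w : V} (h : Γ.Adj u v ∧ Γ.Adj u w ∧ Γ.Adj v w)
    (h1 : r u < r v) (h2 : r v < r w) :
    d3 Γ r (e3 Γ r a u v w) = (e2 Γ r a v w - e2 Γ r (a * gen u) v w) -
      (e2 Γ r a u w - e2 Γ r (a * gen v) u w) + (e2 Γ r a u v - e2 Γ r (a * gen w) u v) := by
  rw [KA_e3_sorted a h h1 h2, KA_d3m, KA_e2_pos a ⟨h.2.2, h2⟩, KA_e2_pos _ ⟨h.2.2, h2⟩,
    KA_e2_pos a ⟨h.2.1, h1.trans h2⟩, KA_e2_pos _ ⟨h.2.1, h1.trans h2⟩,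
    KA_e2_pos a ⟨h.1, h1⟩, KA_e2_pos _ ⟨h.1, h1⟩]

/-- right-hand side -/
noncomputable def KA_R (r : V → ℕ) (a : RA Γ) (u v w : V) : RA Γ × C2 Γ r →₀ ℤ :=
  (e2 Γ r a v w - e2 Γ r (a * gen u) v w) -
      (e2 Γ r a u w - e2 Γ r (a * gen v) u w) + (e2 Γ r a u v - e2 Γ r (a * gen w) u v)

theorem KA_R_symm12 (a : RA Γ) (u v w : V) : KA_R r a v u w = - KA_R r a u v w := by
  unfold KA_R
  rw [KA_e2_symm a u v, KA_e2_symm (a * gen w) u v]
  abel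

theorem KA_R_symm23 (a : RA Γ) (u v w : V) : KA_R r a u w v = - KA_R r a u v w := by
  unfold KA_R
  rw [KA_e2_symm a v w, KA_e2_symm (a * gen u) v w]
  abel

theorem KA_d3_e3 (hr : RK Γ r) (a : RA Γ) {u v w : V} (h1 : Γ.Adj u v) (h2 : Γ.Adj u w)
    (h3 : Γ.Adj v w) : d3 Γ r (e3 Γ r a u v w) = KA_R r a u v w := by
  have n1 := hr.1 u v h1
  have n2 := hr.1 u w h2
  have n3 := hr.1 v w h3
  rcases lt_or_gt_of_ne n1 with c1 | c1
  · rcases lt_or_gt_of_ne n3 with c3 | c3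
    · exact KA_d3_sorted a ⟨h1, h2, h3⟩ c1 c3
    · rcases lt_or_gt_of_ne n2 with c2 | c2
      · -- u < w < v
        have e := KA_d3_sorted a ⟨h2, h1, h3.symm⟩ c2 c3
        change d3 Γ r (e3 Γ r a u w v) = KA_R r a u w v at e
        rw [KA_e3_symm23, KA_R_symm23, map_neg, neg_inj] at e
        exact e
      · -- w < u < v
        have e := KA_d3_sorted a ⟨h2.symm, h3.symm, h1⟩ c2 c1
        change d3 Γ r (e3 Γ r a w u v) = KA_R r a w u v at e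
        rw [KA_e3_symm12, KA_R_symm12, map_neg, neg_inj, KA_e3_symm23, KA_R_symm23, map_neg,
          neg_inj] at e
        exact e
  · rcases lt_or_gt_of_ne n2 with c2 | c2
    · -- v < u < w
      have e := KA_d3_sorted a ⟨h1.symm, h3, h2⟩ c1 c2
      change d3 Γ r (e3 Γ r a v u w) = KA_R r a v u w at e
      rw [KA_e3_symm12, KA_R_symm12, map_neg, neg_inj] at e
      exact e
    · rcases lt_or_gt_of_ne n3 with c3 | c3
      · -- v < w < u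
        have e := KA_d3_sorted a ⟨h3, h1.symm, h2.symm⟩ c3 c2
        change d3 Γ r (e3 Γ r a v w u) = KA_R r a v w u at e
        rw [KA_e3_symm23, KA_R_symm23, map_neg, neg_inj, KA_e3_symm12, KA_R_symm12, map_neg,
          neg_inj] at e
        exact e
      · -- w < v < u
        have e := KA_d3_sorted a ⟨h3.symm, h2.symm, h1.symm⟩ c3 c1
        change d3 Γ r (e3 Γ r a w v u) = KA_R r a w v u at e
        rw [KA_e3_symm12, KA_R_symm12, map_neg, neg_inj, KA_e3_symm23, KA_R_symm23, map_neg,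
          neg_inj, KA_e3_symm12, KA_R_symm12, map_neg, neg_inj] at e
        exact e

theorem T2_symm (a : RA Γ) {b c : V × Bool} (h : Γ.Adj b.1 c.1) : T2 r a c b = -T2 r a b c := by
  unfold T2
  rw [KA_lo_comm a h, KA_e2_symm, smul_neg, mul_comm (sn b)]

theorem T3_symm12 (a : RA Γ) {b c d : V × Bool} (h1 : Γ.Adj b.1 c.1) (h2 : Γ.Adj b.1 d.1) (h3 : Γ.Adj c.1 d.1) :
    T3 r a c b d = -T3 r a b c d := by
  unfold T3
  rw [KA_lo_comm a h1, KA_e3_symm12, smul_neg, mul_comm (sn b) (sn c)]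

theorem T3_symm23 (a : RA Γ) {b c d : V × Bool} (h1 : Γ.Adj b.1 c.1) (h2 : Γ.Adj b.1 d.1) (h3 : Γ.Adj c.1 d.1) :
    T3 r a b d c = -T3 r a b c d := by
  unfold T3
  rw [KA_lo_comm (lo a b) h3, KA_e3_symm23, smul_neg, mul_right_comm (sn b) (sn c) (sn d)]

theorem d1_T1 (a : RA Γ) (b : V × Bool) : d1 Γ (T1 a b) = s0 Γ a - s0 Γ (dn a b) := by
  unfold T1
  rw [map_smul, KA_d1, KA_key (fun x => s0 Γ x)]

theorem d2_T2 (hr : RK Γ r) (a : RA Γ) {b c : V × Bool} (h : Γ.Adj b.1 c.1) :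
    d2 Γ r (T2 r a b c) = (T1 a c - T1 (dn a b) c) - (T1 a b - T1 (dn a c) b) := by
  have k1 : sn b • (s1 Γ (lo (lo a b) c) c.1 - s1 Γ (lo (lo a b) c * gen b.1) c.1) =
      s1 Γ (lo a c) c.1 - s1 Γ (lo (dn a b) c) c.1 := by
    rw [KA_lo_comm a h, KA_key (fun x => s1 Γ x c.1) (lo a c) b, KA_dn_lo a h]
  have k2 : sn c • (s1 Γ (lo (lo a b) c) b.1 - s1 Γ (lo (lo a b) c * gen c.1) b.1) =
      s1 Γ (lo a b) b.1 - s1 Γ (lo (dn a c) b) b.1 := by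
    rw [KA_key (fun x => s1 Γ x b.1) (lo a b) c, KA_dn_lo a h.symm]
  unfold T2 T1
  rw [map_smul, KA_d2_e2 hr _ h, smul_sub]
  congr 1
  · rw [mul_comm, mul_smul, k1, smul_sub]
  · rw [mul_smul, k2, smul_sub]

theorem d3_T3 (hr : RK Γ r) (a : RA Γ) {b c d : V × Bool} (h1 : Γ.Adj b.1 c.1) (h2 : Γ.Adj b.1 d.1)
    (h3 : Γ.Adj c.1 d.1) :
    d3 Γ r (T3 r a b c d) = (T2 r a c d - T2 r (dn a b) c d) - (T2 r a b d - T2 r (dn a c) b d) +
      (T2 r a b c - T2 r (dn a d) b c) := by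
  have k1 : sn b • (e2 Γ r (lo (lo (lo a b) c) d) c.1 d.1 -
      e2 Γ r (lo (lo (lo a b) c) d * gen b.1) c.1 d.1) =
      e2 Γ r (lo (lo a c) d) c.1 d.1 - e2 Γ r (lo (lo (dn a b) c) d) c.1 d.1 := by
    rw [KA_lo_comm a h1, KA_lo_comm (lo a c) h2,
      KA_key (fun x => e2 Γ r x c.1 d.1) (lo (lo a c) d) b, KA_dn_lo (lo a c) h2, KA_dn_lo a h1]
  have k2 : sn c • (e2 Γ r (lo (lo (lo a b) c) d) b.1 d.1 -
      e2 Γ r (lo (lo (lo a b) c) d * gen c.1) b.1 d.1) =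
      e2 Γ r (lo (lo a b) d) b.1 d.1 - e2 Γ r (lo (lo (dn a c) b) d) b.1 d.1 := by
    rw [KA_lo_comm (lo a b) h3,
      KA_key (fun x => e2 Γ r x b.1 d.1) (lo (lo a b) d) c, KA_dn_lo (lo a b) h3,
      KA_dn_lo a h1.symm]
  have k3 : sn d • (e2 Γ r (lo (lo (lo a b) c) d) b.1 c.1 -
      e2 Γ r (lo (lo (lo a b) c) d * gen d.1) b.1 c.1) =
      e2 Γ r (lo (lo a b) c) b.1 c.1 - e2 Γ r (lo (lo (dn a d) b) c) b.1 c.1 := by
    rw [KA_key (fun x => e2 Γ r x b.1 c.1) (lo (lo a b) c) d, KA_dn_lo (lo a b) h3.symm,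
      KA_dn_lo a h2.symm]
  unfold T3 T2
  rw [map_smul, KA_d3_e3 hr _ h1 h2 h3]
  unfold KA_R
  rw [smul_add, smul_sub]
  congr 1
  · congr 1
    · rw [mul_assoc, mul_comm, mul_smul, k1, smul_sub]
    · rw [mul_right_comm, mul_smul, k2, smul_sub]
  · rw [mul_smul, k3, smul_sub]

end Kz

end NBT
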