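import Pool.Agent.Lib.MP_83fbc5_gt.KDefs

/-!
# MP_83fbc5_gt, module KB: right letters and multiplication by a letter

PROOF. `rt_mul_adj` (an adjacent letter does not change right letters): `Rt x c` is `NN c.1 x⁻¹ (cw (ivl c)) ≠ 0`. With `x = a * gl b`,
`x⁻¹ = (gl b)⁻¹ * a⁻¹` and by `nn_mul` `NN c.1 ((gl b)⁻¹ * a⁻¹) z = NN c.1 (gl b)⁻¹ z + NN c.1 a⁻¹ (gl b * z)`. The first term is zero (`nn_pp` with
`D = {b.1}`; `b.1 ≠ c.1`). `z = cw (ivl c)` is a power of `gen c.1`, so it commutes with `gl b` (`gen_comm`) and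
`NN c.1 a⁻¹ (z * gl b) = NN c.1 a⁻¹ z` by `nn_coset` (`gl b ∈ PP (lk c.1)`, `gl_mem`).
`rt_gl_iff`: if `Rt x (ivl b)` then `len (x * gl b) + 1 = len x` (`len_rt`, `gl_ivl`), and `Rt (x * gl b) b` would give `len x + 1 = len (x * gl b)`. If not
`Rt x (ivl b)`, then `Rp x (gl b)` (by `rt_gl`/`lf_gl`: the only left letter of `gl b` is `b`) and `rt_mul` gives `Rt (x * gl b) b` (`rt_gl`).
`rt_dn`: from `rt_adj` and `rt_mul_adj` with `ivl b`. `len_dn`: `len_rt`. `rt_ne_one`: `Rt 1 a` contradicts `len_rt`.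
(30-45 minutes)
-/

set_option autoImplicit false

namespace NBT

namespace Kz

open RaagIso

variable {V : Type} {Γ : SimpleGraph V}

theorem KB_gl_comm {b c : V × Bool} (h : Γ.Adj b.1 c.1) :
    (gl b : RA Γ) * cw (ivl c) = cw (ivl c) * gl b := by
  have h1 : Commute (gen b.1 : RA Γ) (gen c.1) := gen_comm h
  have h2 : Commute (gl b : RA Γ) (gen c.1) := by
    unfold gl
    split_ifs
    · exact h1
    · exact h1.inv_left
  unfold cw
  split_ifs
  · rw [mul_one, one_mul]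
  · exact h2.inv_right

theorem rt_mul_adj {a : RA Γ} {b c : V × Bool} (h : Γ.Adj b.1 c.1) : Rt (a * gl b) c ↔ Rt a c := by
  have h1 : NN (ivl c).1 (a * gl b)⁻¹ (cw (ivl c)) = NN (ivl c).1 a⁻¹ (cw (ivl c)) := by
    rw [mul_inv_rev, nn_mul, inv_inv]
    have h2 : NN (ivl c).1 (gl b : RA Γ)⁻¹ (cw (ivl c)) = 0 := by
      refine nn_pp (D := {b.1}) ((PP Γ {b.1}).inv_mem (gl_mem rfl)) _ ?_ _
      intro h3
      have h4 : c.1 = b.1 := h3
      exact h.ne h4.symm
    rw [h2, zero_add, KB_gl_comm h]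
    exact nn_coset _ _ _ _ (gl_mem (D := lk Γ c.1) h.symm)
  unfold Rt Lf
  rw [h1]

theorem rt_gl_iff (x : RA Γ) (b : V × Bool) : Rt (x * gl b) b ↔ ¬ Rt x (ivl b) := by
  constructor
  · intro h1 h2
    have h3 := len_rt h2
    have h4 := len_rt h1
    rw [gl_ivl, inv_inv] at h3
    rw [mul_inv_cancel_right] at h4
    omega
  · intro h1
    have h2 : Rp x (gl b) := by
      intro a ha hl
      have h3 := lf_gl.1 hl
      apply h1
      rw [← h3, ivl_ivl]
      exact ha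
    exact rt_mul h2 (rt_gl.2 rfl)

/-- if `b ≠ c` are right letters of `a` then `c` is a right letter of `a b⁻¹` -/
theorem rt_dn {a : RA Γ} {b c : V × Bool} (hb : Rt a b) (hc : Rt a c) (hne : b ≠ c) : Rt (dn a b) c := by
  have h1 := rt_adj hb hc hne
  unfold dn
  rw [← gl_ivl]
  exact (rt_mul_adj (b := ivl b) h1).2 hc

theorem len_dn {a : RA Γ} {b : V × Bool} (hb : Rt a b) : len (dn a b) + 1 = len a :=
  len_rt hb

theorem rt_ne_one {a : RA Γ} {b : V × Bool} (hb : Rt a b) : a ≠ 1 := by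
  rintro rfl
  have h1 := len_rt hb
  rw [len_one] at h1
  omega

end Kz

end NBT
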