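import Pool.Agent.Lib.MP_83fbc5_gt.KDefs

/-!
# MP_83fbc5_gt, module KDD: the square of the differential is zero

PROOF. Check on basis elements (`Finsupp.lhom_ext'`, `Finsupp.linearCombination_single`); the generators of a clique commute
(`gen_comm`), then `abel`. For `augM (d1 z) = 0`: `augM` is additive and `augM (s0 a) = 1`. (20-30 minutes)
-/

set_option autoImplicit false

namespace NBT

namespace Kz

open RaagIso

variable {V : Type} {Γ : SimpleGraph V} {r : V → ℕ}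

theorem KDD_d1 (p : RA Γ × V) :
    d1 Γ (Finsupp.single p 1) = s0 Γ p.1 - s0 Γ (p.1 * gen p.2) := by
  unfold d1
  rw [Finsupp.linearCombination_single, one_smul]

theorem KDD_d2 (p : RA Γ × C2 Γ r) :
    d2 Γ r (Finsupp.single p 1) = (s1 Γ p.1 p.2.1.2 - s1 Γ (p.1 * gen p.2.1.1) p.2.1.2) -
    (s1 Γ p.1 p.2.1.1 - s1 Γ (p.1 * gen p.2.1.2) p.2.1.1) := by
  unfold d2
  rw [Finsupp.linearCombination_single, one_smul]

theorem KDD_d3 (p : RA Γ × C3 Γ r) :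
    d3 Γ r (Finsupp.single p 1) =
    (s2 Γ r p.1 p.2.f0 - s2 Γ r (p.1 * gen p.2.1.1) p.2.f0) -
    (s2 Γ r p.1 p.2.f1 - s2 Γ r (p.1 * gen p.2.1.2.1) p.2.f1) +
    (s2 Γ r p.1 p.2.f2 - s2 Γ r (p.1 * gen p.2.1.2.2) p.2.f2) := by
  unfold d3
  rw [Finsupp.linearCombination_single, one_smul]

theorem KDD_comm (a : RA Γ) {v w : V} (h : Γ.Adj v w) :
    a * gen v * gen w = a * gen w * gen v := by
  rw [mul_assoc, gen_comm h, mul_assoc]

theorem aug_d1 (z : RA Γ × V →₀ ℤ) : (d1 Γ z).sum (fun _ c => c) = 0 := by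
  have h1 : ∀ y : RA Γ →₀ ℤ, y.sum (fun _ c => c) =
      Finsupp.linearCombination ℤ (fun _ : RA Γ => (1 : ℤ)) y := by
    intro y
    rw [Finsupp.linearCombination_apply]
    simp
  rw [h1]
  have h2 : (Finsupp.linearCombination ℤ (fun _ : RA Γ => (1 : ℤ))).comp (d1 Γ) = 0 := by
    refine Finsupp.lhom_ext' fun p => LinearMap.ext_ring ?_
    change Finsupp.linearCombination ℤ (fun _ : RA Γ => (1 : ℤ)) (d1 Γ (Finsupp.single p 1)) = 0
    rw [KDD_d1, map_sub]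
    unfold s0
    rw [Finsupp.linearCombination_single, Finsupp.linearCombination_single, sub_self]
  exact LinearMap.congr_fun h2 z

theorem KDD_d1s (a : RA Γ) (v : V) : d1 Γ (s1 Γ a v) = s0 Γ a - s0 Γ (a * gen v) :=
  KDD_d1 (a, v)

theorem KDD_d2s (a : RA Γ) (p : C2 Γ r) :
    d2 Γ r (s2 Γ r a p) = (s1 Γ a p.1.2 - s1 Γ (a * gen p.1.1) p.1.2) -
    (s1 Γ a p.1.1 - s1 Γ (a * gen p.1.2) p.1.1) :=
  KDD_d2 (a, p)

theorem d1_d2 (z : RA Γ × C2 Γ r →₀ ℤ) : d1 Γ (d2 Γ r z) = 0 := by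
  have h2 : (d1 Γ).comp (d2 Γ r) = 0 := by
    refine Finsupp.lhom_ext' fun p => LinearMap.ext_ring ?_
    change d1 Γ (d2 Γ r (Finsupp.single p 1)) = 0
    obtain ⟨a, ⟨v, w⟩, h, h'⟩ := p
    rw [KDD_d2]
    simp only [map_sub, KDD_d1s, KDD_comm a h]
    abel
  exact LinearMap.congr_fun h2 z

theorem d2_d3 (z : RA Γ × C3 Γ r →₀ ℤ) : d2 Γ r (d3 Γ r z) = 0 := by
  have h2 : (d2 Γ r).comp (d3 Γ r) = 0 := by
    refine Finsupp.lhom_ext' fun p => LinearMap.ext_ring ?_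
    change d2 Γ r (d3 Γ r (Finsupp.single p 1)) = 0
    obtain ⟨a, c⟩ := p
    have h1 : Γ.Adj c.1.1 c.1.2.1 := c.2.1.1
    have h2 : Γ.Adj c.1.1 c.1.2.2 := c.2.1.2.1
    have h3 : Γ.Adj c.1.2.1 c.1.2.2 := c.2.1.2.2
    rw [KDD_d3]
    simp only [map_sub, map_add, KDD_d2s]
    have f0 : (C3.f0 c).1 = (c.1.2.1, c.1.2.2) := rfl
    have f1 : (C3.f1 c).1 = (c.1.1, c.1.2.2) := rfl
    have f2 : (C3.f2 c).1 = (c.1.1, c.1.2.1) := rfl
    simp only [f0, f1, f2]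
    simp only [KDD_comm a h1, KDD_comm a h2, KDD_comm a h3]
    abel
  exact LinearMap.congr_fun h2 z

end Kz

end NBT
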