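import Mathlib
import Pool.Agent.Lib.MP_32d917_al_raag.W03

/-!
# MP_83fbc5_gt, KDefs: the Koszul complex of a right-angled Artin group (cliques with at most three vertices)

`Γ` is a graph on `V`, `r : V → ℕ` a rank function (different on adjacent vertices, values `< 3`: hypothesis `RK`). Chains: `RA Γ →₀ ℤ`, `RA Γ × V →₀ ℤ`,
`RA Γ × C2 →₀ ℤ`, `RA Γ × C3 →₀ ℤ`, where `C2`, `C3` are the cliques with two or three vertices, ordered by the rank.

`e2 a v w`, `e3 a u v w` are the antisymmetric versions of the basis elements, defined for all vertices (zero unless a clique).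
`T1 a b`, `T2 a b c`, `T3 a b c d` (`b, c, d` letters, i.e. elements of `V × Bool`) are the same basis elements up to sign, in coordinates given by the vertex `a`
of the cube from which one goes down along the inverses of the letters: if `b, c` are right letters of `a` then `a` is the longest
vertex of the cube. `F1 n`, `F2 n`, `F3 n`: span of those with right letters and `len a ≤ n`.
-/

set_option autoImplicit false

namespace NBT

namespace Kz

open RaagIso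

variable {V : Type} (Γ : SimpleGraph V) (r : V → ℕ)

/-- adjacent vertices have different ranks, the ranks are 0, 1, 2 -/
def RK : Prop := (∀ v w, Γ.Adj v w → r v ≠ r w) ∧ ∀ v, r v < 3

/-- cliques with two vertices -/
def C2 : Type := {p : V × V // Γ.Adj p.1 p.2 ∧ r p.1 < r p.2}

/-- cliques with three vertices -/
def C3 : Type := {p : V × V × V // (Γ.Adj p.1 p.2.1 ∧ Γ.Adj p.1 p.2.2 ∧ Γ.Adj p.2.1 p.2.2) ∧
  r p.1 < r p.2.1 ∧ r p.2.1 < r p.2.2}

variable {Γ r} in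
def C3.f0 (p : C3 Γ r) : C2 Γ r := ⟨(p.1.2.1, p.1.2.2), p.2.1.2.2, p.2.2.2⟩

variable {Γ r} in
def C3.f1 (p : C3 Γ r) : C2 Γ r := ⟨(p.1.1, p.1.2.2), p.2.1.2.1, p.2.2.1.trans p.2.2.2⟩

variable {Γ r} in
def C3.f2 (p : C3 Γ r) : C2 Γ r := ⟨(p.1.1, p.1.2.1), p.2.1.1, p.2.2.1⟩

/-- basis elements -/
noncomputable def s0 (a : RA Γ) : RA Γ →₀ ℤ := Finsupp.single a 1

noncomputable def s1 (a : RA Γ) (v : V) : RA Γ × V →₀ ℤ := Finsupp.single (a, v) 1

noncomputable def s2 (a : RA Γ) (p : C2 Γ r) : RA Γ × C2 Γ r →₀ ℤ := Finsupp.single (a, p) 1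

noncomputable def s3 (a : RA Γ) (p : C3 Γ r) : RA Γ × C3 Γ r →₀ ℤ := Finsupp.single (a, p) 1

/-- the differentials -/
noncomputable def d1 : (RA Γ × V →₀ ℤ) →ₗ[ℤ] (RA Γ →₀ ℤ) :=
  Finsupp.linearCombination ℤ fun p => s0 Γ p.1 - s0 Γ (p.1 * gen p.2)

noncomputable def d2 : (RA Γ × C2 Γ r →₀ ℤ) →ₗ[ℤ] (RA Γ × V →₀ ℤ) :=
  Finsupp.linearCombination ℤ fun p => (s1 Γ p.1 p.2.1.2 - s1 Γ (p.1 * gen p.2.1.1) p.2.1.2) -
    (s1 Γ p.1 p.2.1.1 - s1 Γ (p.1 * gen p.2.1.2) p.2.1.1)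

noncomputable def d3 : (RA Γ × C3 Γ r →₀ ℤ) →ₗ[ℤ] (RA Γ × C2 Γ r →₀ ℤ) :=
  Finsupp.linearCombination ℤ fun p => (s2 Γ r p.1 p.2.f0 - s2 Γ r (p.1 * gen p.2.1.1) p.2.f0) -
    (s2 Γ r p.1 p.2.f1 - s2 Γ r (p.1 * gen p.2.1.2.1) p.2.f1) +
    (s2 Γ r p.1 p.2.f2 - s2 Γ r (p.1 * gen p.2.1.2.2) p.2.f2)

open Classical in
/-- antisymmetric basis elements in degree 2 -/
noncomputable def e2 (a : RA Γ) (v w : V) : RA Γ × C2 Γ r →₀ ℤ :=
  if h : Γ.Adj v w ∧ r v < r w then s2 Γ r a ⟨(v, w), h⟩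
  else if h : Γ.Adj w v ∧ r w < r v then -s2 Γ r a ⟨(w, v), h⟩ else 0

open Classical in
/-- the basis element in degree 3 if the vertices form a clique in this order, else zero -/
noncomputable def o3 (a : RA Γ) (u v w : V) : RA Γ × C3 Γ r →₀ ℤ :=
  if h : (Γ.Adj u v ∧ Γ.Adj u w ∧ Γ.Adj v w) ∧ r u < r v ∧ r v < r w then s3 Γ r a ⟨(u, v, w), h⟩ else 0

/-- antisymmetric basis elements in degree 3 -/
noncomputable def e3 (a : RA Γ) (u v w : V) : RA Γ × C3 Γ r →₀ ℤ :=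
  o3 Γ r a u v w + o3 Γ r a v w u + o3 Γ r a w u v - o3 Γ r a v u w - o3 Γ r a u w v - o3 Γ r a w v u

variable {Γ}

/-- `a` times the inverse of the letter `b` -/
def dn (a : RA Γ) (b : V × Bool) : RA Γ := a * (gl b)⁻¹

/-- the bottom vertex in direction of the letter `b` -/
def lo (a : RA Γ) (b : V × Bool) : RA Γ := if b.2 then a * (gen b.1)⁻¹ else a

/-- sign of a letter -/
def sn (b : V × Bool) : ℤ := if b.2 then -1 else 1

noncomputable def T1 (a : RA Γ) (b : V × Bool) : RA Γ × V →₀ ℤ := sn b • s1 Γ (lo a b) b.1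

noncomputable def T2 (a : RA Γ) (b c : V × Bool) : RA Γ × C2 Γ r →₀ ℤ :=
  (sn b * sn c) • e2 Γ r (lo (lo a b) c) b.1 c.1

noncomputable def T3 (a : RA Γ) (b c d : V × Bool) : RA Γ × C3 Γ r →₀ ℤ :=
  (sn b * sn c * sn d) • e3 Γ r (lo (lo (lo a b) c) d) b.1 c.1 d.1

/-- filtrations by the length of the top vertex -/
noncomputable def F1 (n : ℕ) : Submodule ℤ (RA Γ × V →₀ ℤ) :=
  Submodule.span ℤ {z | ∃ a b, Rt a b ∧ len a ≤ n ∧ z = T1 a b}

noncomputable def F2 (n : ℕ) : Submodule ℤ (RA Γ × C2 Γ r →₀ ℤ) :=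
  Submodule.span ℤ {z | ∃ a b c, Rt a b ∧ Rt a c ∧ b ≠ c ∧ len a ≤ n ∧ z = T2 r a b c}

noncomputable def F3 (n : ℕ) : Submodule ℤ (RA Γ × C3 Γ r →₀ ℤ) :=
  Submodule.span ℤ {z | ∃ a b c d, Rt a b ∧ Rt a c ∧ Rt a d ∧ b ≠ c ∧ b ≠ d ∧ c ≠ d ∧ len a ≤ n ∧ z = T3 r a b c d}

/-- a chosen right letter -/
noncomputable def ml (a : RA Γ) (h : a ≠ 1) : V × Bool := (exists_rt h).choose

theorem ml_rt (a : RA Γ) (h : a ≠ 1) : Rt a (ml a h) := (exists_rt h).choose_spec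

open Classical in
/-- values of the homotopy -/
noncomputable def H0 (a : RA Γ) : RA Γ × V →₀ ℤ := if h : a ≠ 1 then T1 a (ml a h) else 0

open Classical in
noncomputable def H1 (a : RA Γ) (b : V × Bool) : RA Γ × C2 Γ r →₀ ℤ :=
  if h : a ≠ 1 then (if b = ml a h then 0 else T2 r a (ml a h) b) else 0

open Classical in
noncomputable def H2 (a : RA Γ) (b c : V × Bool) : RA Γ × C3 Γ r →₀ ℤ :=
  if h : a ≠ 1 then (if b = ml a h ∨ c = ml a h then 0 else T3 r a (ml a h) b c) else 0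

end Kz

end NBT
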