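import Pool.Agent.Lib.MP_83fbc5_gt.KH1
import Pool.Agent.Lib.MP_83fbc5_gt.KDD

/-!
# MP_83fbc5_gt, module KE1: exactness of the Koszul complex in degrees 0 and 1

PROOF. Degree 0, `←` is `aug_d1`. `→`: modulo the range of `d1` every `s0 a` is congruent to `s0 1`: induction on `len a`, as for `a ≠ 1` with
`b = ml a` `d1 (T1 a b) = s0 a - s0 (dn a b)` (`d1_T1`, `len_dn`, `ml_rt`); so `z - (sum of coefficients) • s0 1` lies in the range
(`Finsupp.induction_linear`).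
Degree 1, `←` is `d1_d2`. `→`: take `h0`, `h1` from `KH1`. Claim: for `z ∈ F1 (n+1)` one has `z - d2 (h1 z) - h0 (d1 z) ∈ F1 n`. It suffices to check the
generators `T1 a b` with `Rt a b`, `len a ≤ n + 1` (`Submodule.span_induction`); write `m = ml a`. If `b = m`: `H1 a b = 0` and the expression is
`T1 a m - H0 a + H0 (dn a m) = H0 (dn a m)`, which is zero or `T1 (dn a m) (ml (dn a m))`, in `F1 n` (`len_dn`). If `b ≠ m`: `b.1, m.1` are adjacent (`rt_adj`), by `d2_T2`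
the expression is `T1 a b - ((T1 a b - T1 (dn a m) b) - (T1 a m - T1 (dn a b) m)) - (T1 a m - H0 (dn a b)) = T1 (dn a m) b - T1 (dn a b) m + H0 (dn a b)`, in `F1 n`
by `rt_dn`, `len_dn`. Now let `d1 z = 0`, `z ∈ F1 n` (`span1`); induction on `n`: `F1 0 = ⊥` (a right letter implies `len a ≥ 1`), and for
`n + 1` the element `z - d2 (h1 z)` is a cycle in `F1 n`.
(50-70 minutes)
-/

set_option autoImplicit false

namespace NBT

namespace Kz

open RaagIso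

variable {V : Type} {Γ : SimpleGraph V} {r : V → ℕ}

theorem KE1_a (n : ℕ) : ∀ a : RA Γ, len a ≤ n → ∃ y, d1 Γ y = s0 Γ a - s0 Γ 1 := by
  induction n with
  | zero =>
    intro a ha
    by_cases h : a = 1
    · exact ⟨0, by rw [h, map_zero, sub_self]⟩
    · exact absurd (len_eq_zero (Nat.le_zero.1 ha)) h
  | succ n ih =>
    intro a ha
    by_cases h : a = 1
    · exact ⟨0, by rw [h, map_zero, sub_self]⟩
    · have h1 := ml_rt a h
      have h2 := len_dn h1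
      obtain ⟨y, hy⟩ := ih (dn a (ml a h)) (by omega)
      refine ⟨T1 a (ml a h) + y, ?_⟩
      rw [map_add, hy, d1_T1]
      abel

theorem KE1_b (z : RA Γ →₀ ℤ) : ∃ y, d1 Γ y = z - (z.sum (fun _ c => c)) • s0 Γ 1 := by
  induction z using Finsupp.induction_linear with
  | zero => exact ⟨0, by simp⟩
  | add x y hx hy =>
    obtain ⟨u, hu⟩ := hx
    obtain ⟨v, hv⟩ := hy
    refine ⟨u + v, ?_⟩
    rw [map_add, hu, hv, Finsupp.sum_add_index' (fun _ => rfl) (fun _ _ _ => rfl), add_smul]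
    abel
  | single a c =>
    obtain ⟨y, hy⟩ := KE1_a (len a) a le_rfl
    refine ⟨c • y, ?_⟩
    have h1 : Finsupp.single a c = c • s0 Γ a := by
      rw [s0, Finsupp.smul_single, smul_eq_mul, mul_one]
    rw [map_smul, hy, Finsupp.sum_single_index rfl, smul_sub, h1]

theorem kos0 (z : RA Γ →₀ ℤ) : z.sum (fun _ c => c) = 0 ↔ ∃ y, d1 Γ y = z := by
  constructor
  · intro h
    obtain ⟨y, hy⟩ := KE1_b z
    exact ⟨y, by rw [hy, h, zero_smul, sub_zero]⟩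
  · rintro ⟨y, rfl⟩
    exact aug_d1 y

theorem KE1_H0 (x : RA Γ) (n : ℕ) (hx : len x ≤ n) : H0 x ∈ (F1 n : Submodule ℤ (RA Γ × V →₀ ℤ)) := by
  unfold H0
  split_ifs with h
  · exact Submodule.subset_span ⟨x, _, ml_rt x h, hx, rfl⟩
  · exact Submodule.zero_mem _

theorem KE1_step (hr : RK Γ r) (h0 : (RA Γ →₀ ℤ) →ₗ[ℤ] (RA Γ × V →₀ ℤ))
    (hh0 : ∀ a, h0 (s0 Γ a) = H0 a) (h1 : (RA Γ × V →₀ ℤ) →ₗ[ℤ] (RA Γ × C2 Γ r →₀ ℤ))
    (hh1 : ∀ a b, Rt a b → h1 (T1 a b) = H1 r a b) (n : ℕ) (z : RA Γ × V →₀ ℤ)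
    (hz : z ∈ F1 (n + 1)) : z - d2 Γ r (h1 z) - h0 (d1 Γ z) ∈ F1 n := by
  classical
  have key : (F1 (n + 1) : Submodule ℤ (RA Γ × V →₀ ℤ)) ≤
      (F1 n).comap ((LinearMap.id : (RA Γ × V →₀ ℤ) →ₗ[ℤ] (RA Γ × V →₀ ℤ)) -
        (d2 Γ r) ∘ₗ h1 - h0 ∘ₗ (d1 Γ)) := by
    refine Submodule.span_le.2 ?_
    rintro _ ⟨a, b, hab, hlen, rfl⟩
    have ha : a ≠ 1 := rt_ne_one hab
    have hm := ml_rt a ha
    have hl1 := len_dn hab
    have hl2 := len_dn hm
    have hH0 : H0 a = T1 a (ml a ha) := dif_pos ha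
    have hH1 : H1 r a b = if b = ml a ha then 0 else T2 r a (ml a ha) b := dif_pos ha
    have hP : ((LinearMap.id : (RA Γ × V →₀ ℤ) →ₗ[ℤ] (RA Γ × V →₀ ℤ)) -
        (d2 Γ r) ∘ₗ h1 - h0 ∘ₗ (d1 Γ)) (T1 a b) =
        T1 a b - d2 Γ r (H1 r a b) - (T1 a (ml a ha) - H0 (dn a b)) := by
      rw [LinearMap.sub_apply, LinearMap.sub_apply, LinearMap.comp_apply, LinearMap.comp_apply,
        LinearMap.id_apply, hh1 a b hab, d1_T1, map_sub, hh0, hh0, hH0]
    rw [SetLike.mem_coe, Submodule.mem_comap, hP, hH1]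
    by_cases hbm : b = ml a ha
    · rw [if_pos hbm, ← hbm, map_zero]
      have e : T1 a b - 0 - (T1 a b - H0 (dn a b)) = H0 (dn a b) := by abel
      rw [e]
      exact KE1_H0 _ _ (by omega)
    · rw [if_neg hbm]
      have hadj : Γ.Adj (ml a ha).1 b.1 := rt_adj hm hab (Ne.symm hbm)
      rw [d2_T2 hr a hadj]
      have e : T1 a b - (T1 a b - T1 (dn a (ml a ha)) b - (T1 a (ml a ha) - T1 (dn a b) (ml a ha))) -
          (T1 a (ml a ha) - H0 (dn a b)) =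
          T1 (dn a (ml a ha)) b - T1 (dn a b) (ml a ha) + H0 (dn a b) := by abel
      rw [e]
      refine Submodule.add_mem _ (Submodule.sub_mem _ ?_ ?_) (KE1_H0 _ _ (by omega))
      · exact Submodule.subset_span ⟨_, _, rt_dn hm hab (Ne.symm hbm), by omega, rfl⟩
      · exact Submodule.subset_span ⟨_, _, rt_dn hab hm hbm, by omega, rfl⟩
  exact key hz

theorem KE1_ind (hr : RK Γ r) (n : ℕ) : ∀ z : RA Γ × V →₀ ℤ, z ∈ F1 n → d1 Γ z = 0 →
    ∃ y, d2 Γ r y = z := by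
  obtain ⟨h0, hh0⟩ := exists_h0 (V := V) (Γ := Γ)
  obtain ⟨h1, hh1⟩ := exists_h1 hr
  induction n with
  | zero =>
    intro z hz _
    have h : (F1 0 : Submodule ℤ (RA Γ × V →₀ ℤ)) ≤ ⊥ := by
      refine Submodule.span_le.2 ?_
      rintro _ ⟨a, b, hab, hlen, rfl⟩
      have := len_dn hab
      omega
    have h2 := (Submodule.mem_bot ℤ).1 (h hz)
    exact ⟨0, by rw [map_zero, h2]⟩
  | succ n ih =>
    intro z hz hd
    have h3 := KE1_step hr h0 hh0 h1 hh1 n z hz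
    rw [hd, map_zero, sub_zero] at h3
    obtain ⟨y, hy⟩ := ih (z - d2 Γ r (h1 z)) h3 (by rw [map_sub, hd, d1_d2, sub_zero])
    exact ⟨y + h1 z, by rw [map_add, hy]; abel⟩

theorem kos1 (hr : RK Γ r) (z : RA Γ × V →₀ ℤ) : d1 Γ z = 0 ↔ ∃ y, d2 Γ r y = z := by
  constructor
  · intro h
    obtain ⟨n, hn⟩ := span1 z
    exact KE1_ind hr n z hn h
  · rintro ⟨y, rfl⟩
    exact d1_d2 y

end Kz

end NBT
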