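import Pool.Agent.Lib.MP_83fbc5_gt.KA
import Pool.Agent.Lib.MP_83fbc5_gt.KB

/-!
# MP_83fbc5_gt, module KH2: the homotopy `h2`; every 2-chain and 3-chain lies in the filtration

PROOF. For a vertex `v` and `a ∈ RA` put `β a v = (v, false)` if `Rt a (v, false)` and `(v, true)` otherwise, `τ a v = a` resp. `a * gen v`. Then
`Rt (τ a v) (β a v)` (`rt_gl_iff` with `b = (v, true)`, `ivl b = (v, false)`).
`h2` (`Finsupp.linearCombination`): the value at `(a, ⟨(v, w), _⟩)` is `(sn b * sn c) • H2 a' b c` with `b = β a v`, `c = β a w`, `a' = τ (τ a v) w`; note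
`β (τ a v) w = β a w` (`rt_mul_adj`). If `b ≠ c` are right letters of `a` then `b.1, c.1` are adjacent (`rt_adj`); if `r b.1 < r c.1` the basis element of
`T2 a b c` is `s2 (lo (lo a b) c) ⟨(b.1, c.1), _⟩`, and `β, τ` give back `b, c, a` (`rt_mul_adj`, `rt_dn`); otherwise use `T2_symm` and `H2 a c b = - H2 a b c` (`T3_symm23`; if `b` or `c` is `ml a`
both are zero; otherwise `b, c, ml a` are three different right letters, so pairwise adjacent).
Spanning: each basis element of degree 2 is `±` a generator of the filtration with `n = len` of its top vertex `a'` as above; in degree 3 three steps of the same kind: for a clique `u, v, w` the top vertex is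
`τ (τ (τ a u) v) w`. A finite sum lies in `F n` for the maximum (`Finsupp.induction_linear`, monotonicity of `F2`, `F3`).
(75-90 minutes)
-/

set_option autoImplicit false

namespace NBT

namespace Kz

open RaagIso

variable {V : Type} {Γ : SimpleGraph V} {r : V → ℕ}

open Classical in
/-- the right letter of type `v` of the top vertex -/
noncomputable def KH2_be (a : RA Γ) (v : V) : V × Bool := if Rt a (v, false) then (v, false) else (v, true)

open Classical in
/-- one step towards the top vertex -/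
noncomputable def KH2_ta (a : RA Γ) (v : V) : RA Γ := if Rt a (v, false) then a else a * gen v

theorem KH2_be_fst (a : RA Γ) (v : V) : (KH2_be a v).1 = v := by
  unfold KH2_be
  split_ifs <;> rfl

theorem KH2_gl_true (v : V) : (gl (v, true) : RA Γ) = gen v := by simp [gl]

theorem KH2_rt (a : RA Γ) (v : V) : Rt (KH2_ta a v) (KH2_be a v) := by
  unfold KH2_ta KH2_be
  by_cases h : Rt a (v, false)
  · rw [if_pos h, if_pos h]; exact h
  · rw [if_neg h, if_neg h, ← KH2_gl_true, rt_gl_iff]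
    exact h

theorem KH2_lo (a : RA Γ) (v : V) : lo (KH2_ta a v) (KH2_be a v) = a := by
  unfold KH2_ta KH2_be
  by_cases h : Rt a (v, false)
  · rw [if_pos h, if_pos h]; rfl
  · rw [if_neg h, if_neg h]
    simp [lo]

theorem KH2_rt_ta {a : RA Γ} {v : V} {c : V × Bool} (h : Γ.Adj v c.1) : Rt (KH2_ta a v) c ↔ Rt a c := by
  unfold KH2_ta
  split_ifs with h1
  · exact Iff.rfl
  · rw [← KH2_gl_true]
    exact rt_mul_adj (b := (v, true)) h

theorem KH2_be_ta {a : RA Γ} {v w : V} (h : Γ.Adj v w) : KH2_be (KH2_ta a v) w = KH2_be a w := by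
  unfold KH2_be
  have h1 : Rt (KH2_ta a v) (w, false) ↔ Rt a (w, false) := KH2_rt_ta h
  by_cases h2 : Rt a (w, false)
  · rw [if_pos h2, if_pos (h1.2 h2)]
  · rw [if_neg h2, if_neg (fun h3 => h2 (h1.1 h3))]

theorem KH2_ta_comm {a : RA Γ} {v w : V} (h : Γ.Adj v w) :
    KH2_ta (KH2_ta a v) w = KH2_ta (KH2_ta a w) v := by
  have h1 : Rt (KH2_ta a v) (w, false) ↔ Rt a (w, false) := KH2_rt_ta h
  have h2 : Rt (KH2_ta a w) (v, false) ↔ Rt a (v, false) := KH2_rt_ta h.symm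
  by_cases h3 : Rt a (v, false) <;> by_cases h4 : Rt a (w, false)
  · have e1 : KH2_ta a v = a := if_pos h3
    have e2 : KH2_ta a w = a := if_pos h4
    rw [e1, e2, e1]
  · have e1 : KH2_ta a v = a := if_pos h3
    have e2 : KH2_ta a w = a * gen w := if_neg h4
    have e3 : KH2_ta (KH2_ta a w) v = KH2_ta a w := if_pos (h2.2 h3)
    rw [e3, e1]
  · have e1 : KH2_ta a w = a := if_pos h4
    have e3 : KH2_ta (KH2_ta a v) w = KH2_ta a v := if_pos (h1.2 h4)
    rw [e3, e1]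
  · have e1 : KH2_ta a v = a * gen v := if_neg h3
    have e2 : KH2_ta a w = a * gen w := if_neg h4
    have e3 : KH2_ta (KH2_ta a v) w = KH2_ta a v * gen w := if_neg (fun h5 => h4 (h1.1 h5))
    have e4 : KH2_ta (KH2_ta a w) v = KH2_ta a w * gen v := if_neg (fun h5 => h3 (h2.1 h5))
    rw [e3, e4, e1, e2, mul_assoc, mul_assoc, gen_comm h]

theorem KH2_lo_comm (a : RA Γ) {b c : V × Bool} (h : Γ.Adj b.1 c.1) :
    lo (lo a b) c = lo (lo a c) b := by
  unfold lo
  have h1 : (gen b.1 : RA Γ)⁻¹ * (gen c.1)⁻¹ = (gen c.1)⁻¹ * (gen b.1)⁻¹ := by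
    rw [← mul_inv_rev, ← mul_inv_rev, gen_comm h]
  split_ifs
  · rw [mul_assoc, mul_assoc, h1]
  · rfl
  · rfl
  · rfl

/-- inverse of `KH2_lo` -/
theorem KH2_back {a : RA Γ} {b : V × Bool} (hb : Rt a b) :
    KH2_be (lo a b) b.1 = b ∧ KH2_ta (lo a b) b.1 = a := by
  rcases b with ⟨v, _ | _⟩
  · have e1 : lo a (v, false) = a := rfl
    rw [e1]
    exact ⟨if_pos hb, if_pos hb⟩
  · have e1 : lo a (v, true) = a * (gen v)⁻¹ := rfl
    have h1 : ¬ Rt (lo a (v, true)) (v, false) := by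
      have h2 := (rt_gl_iff (lo a (v, true)) (v, true)).1
      apply h2
      rw [e1, KH2_gl_true, inv_mul_cancel_right]
      exact hb
    refine ⟨if_neg h1, ?_⟩
    have e2 : KH2_ta (lo a (v, true)) v = lo a (v, true) * gen v := if_neg h1
    rw [e2, e1, inv_mul_cancel_right]

theorem KH2_rt_lo {a : RA Γ} {b c : V × Bool} (hb : Rt a b) (hc : Rt a c) (hne : b ≠ c) :
    Rt (lo a b) c := by
  rcases b with ⟨v, _ | _⟩
  · exact hc
  · have h1 := rt_dn hb hc hne
    have e1 : dn a (v, true) = lo a (v, true) := by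
      unfold dn lo
      rw [KH2_gl_true]
      rfl
    rwa [e1] at h1

theorem KH2_sn (b : V × Bool) : sn b * sn b = 1 := by
  unfold sn
  split_ifs <;> norm_num

theorem KH2_sn2 (b c : V × Bool) : (sn b * sn c) * (sn b * sn c) = 1 := by
  have h1 := KH2_sn b
  have h2 := KH2_sn c
  calc (sn b * sn c) * (sn b * sn c) = (sn b * sn b) * (sn c * sn c) := by ring
    _ = 1 := by rw [h1, h2]; norm_num

theorem KH2_back2 {a : RA Γ} {b c : V × Bool} (hb : Rt a b) (hc : Rt a c) (hne : b ≠ c) :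
    KH2_be (lo (lo a b) c) b.1 = b ∧ KH2_be (lo (lo a b) c) c.1 = c ∧
      KH2_ta (KH2_ta (lo (lo a b) c) b.1) c.1 = a := by
  have hadj : Γ.Adj b.1 c.1 := rt_adj hb hc hne
  obtain ⟨h1, h2⟩ := KH2_back (KH2_rt_lo hb hc hne)
  obtain ⟨h3, h4⟩ := KH2_back hb
  have h5 : KH2_be (lo (lo a b) c) b.1 = b := by
    rw [← KH2_be_ta (a := lo (lo a b) c) hadj.symm, h2, h3]
  refine ⟨h5, h1, ?_⟩
  rw [KH2_ta_comm hadj, h2, h4]

/-- the homotopy on basis elements -/
noncomputable def KH2_val (p : RA Γ × C2 Γ r) : RA Γ × C3 Γ r →₀ ℤ :=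
  (sn (KH2_be p.1 p.2.1.1) * sn (KH2_be p.1 p.2.1.2)) •
    H2 r (KH2_ta (KH2_ta p.1 p.2.1.1) p.2.1.2) (KH2_be p.1 p.2.1.1) (KH2_be p.1 p.2.1.2)

theorem KH2_antisymm (a : RA Γ) {b c : V × Bool} (hb : Rt a b) (hc : Rt a c) (hne : b ≠ c) :
    H2 r a c b = -H2 r a b c := by
  have ha : a ≠ 1 := rt_ne_one hb
  unfold H2
  rw [dif_pos ha, dif_pos ha]
  by_cases h : b = ml a ha ∨ c = ml a ha
  · rw [if_pos h, if_pos h.symm, neg_zero]
  · rw [if_neg h, if_neg (fun h' => h h'.symm)]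
    push Not at h
    have hm := ml_rt a ha
    exact T3_symm23 a (rt_adj hm hb h.1.symm) (rt_adj hm hc h.2.symm) (rt_adj hb hc hne)

theorem exists_h2 (hr : RK Γ r) : ∃ h2 : (RA Γ × C2 Γ r →₀ ℤ) →ₗ[ℤ] (RA Γ × C3 Γ r →₀ ℤ),
    ∀ a b c, Rt a b → Rt a c → b ≠ c → h2 (T2 r a b c) = H2 r a b c := by
  refine ⟨Finsupp.linearCombination ℤ KH2_val, ?_⟩
  have key : ∀ (a : RA Γ) (b c : V × Bool), Rt a b → Rt a c → b ≠ c → r b.1 < r c.1 →
      Finsupp.linearCombination ℤ KH2_val (T2 r a b c) = H2 r a b c := by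
    intro a b c hb hc hne hlt
    have hadj : Γ.Adj b.1 c.1 := rt_adj hb hc hne
    obtain ⟨h1, h2, h3⟩ := KH2_back2 hb hc hne
    have e1 : e2 Γ r (lo (lo a b) c) b.1 c.1 = s2 Γ r (lo (lo a b) c) ⟨(b.1, c.1), hadj, hlt⟩ := by
      unfold e2
      rw [dif_pos ⟨hadj, hlt⟩]
    unfold T2
    rw [e1, map_smul]
    unfold s2
    rw [Finsupp.linearCombination_single, one_smul]
    unfold KH2_val
    simp only
    rw [h1, h2, h3, smul_smul, KH2_sn2, one_smul]
  intro a b c hb hc hne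
  have hadj : Γ.Adj b.1 c.1 := rt_adj hb hc hne
  rcases lt_or_gt_of_ne (hr.1 _ _ hadj) with hlt | hlt
  · exact key a b c hb hc hne hlt
  · have h1 : T2 r a b c = -T2 r a c b := T2_symm a hadj.symm
    rw [h1, map_neg, key a c b hc hb hne.symm hlt, KH2_antisymm a hb hc hne, neg_neg]

theorem KH2_mono2 {m n : ℕ} (h : m ≤ n) : F2 (Γ := Γ) r m ≤ F2 r n := by
  unfold F2
  refine Submodule.span_mono ?_
  rintro z ⟨a, b, c, h1, h2, h3, h4, h5⟩
  exact ⟨a, b, c, h1, h2, h3, h4.trans h, h5⟩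

theorem KH2_mono3 {m n : ℕ} (h : m ≤ n) : F3 (Γ := Γ) r m ≤ F3 r n := by
  unfold F3
  refine Submodule.span_mono ?_
  rintro z ⟨a, b, c, d, h1, h2, h3, h4, h5, h6, h7, h8⟩
  exact ⟨a, b, c, d, h1, h2, h3, h4, h5, h6, h7.trans h, h8⟩

theorem span2 (hr : RK Γ r) (z : RA Γ × C2 Γ r →₀ ℤ) : ∃ n, z ∈ F2 r n := by
  have _ := hr
  induction z using Finsupp.induction_linear with
  | zero => exact ⟨0, Submodule.zero_mem _⟩
  | add f g hf hg =>
    obtain ⟨m, hm⟩ := hf
    obtain ⟨n, hn⟩ := hg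
    exact ⟨max m n, Submodule.add_mem _ (KH2_mono2 (le_max_left _ _) hm)
      (KH2_mono2 (le_max_right _ _) hn)⟩
  | single p k =>
    obtain ⟨x, ⟨⟨v, w⟩, hadj, hlt⟩⟩ := p
    simp only at hadj hlt
    refine ⟨len (KH2_ta (KH2_ta x v) w), ?_⟩
    have hb : Rt (KH2_ta (KH2_ta x v) w) (KH2_be x v) := by
      refine (KH2_rt_ta ?_).2 (KH2_rt x v)
      rw [KH2_be_fst]
      exact hadj.symm
    have hc : Rt (KH2_ta (KH2_ta x v) w) (KH2_be x w) := by
      rw [← KH2_be_ta (a := x) hadj]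
      exact KH2_rt _ w
    have hne : KH2_be x v ≠ KH2_be x w := by
      intro h
      have h1 := congrArg Prod.fst h
      rw [KH2_be_fst, KH2_be_fst] at h1
      exact hadj.ne h1
    have hlo : lo (lo (KH2_ta (KH2_ta x v) w) (KH2_be x v)) (KH2_be x w) = x := by
      rw [KH2_lo_comm _ (by rw [KH2_be_fst, KH2_be_fst]; exact hadj)]
      have h1 : lo (KH2_ta (KH2_ta x v) w) (KH2_be x w) = KH2_ta x v := by
        rw [← KH2_be_ta (a := x) hadj]
        exact KH2_lo _ w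
      rw [h1, KH2_lo]
    have hT : T2 r (KH2_ta (KH2_ta x v) w) (KH2_be x v) (KH2_be x w) =
        (sn (KH2_be x v) * sn (KH2_be x w)) • s2 Γ r x ⟨(v, w), hadj, hlt⟩ := by
      unfold T2
      rw [hlo, KH2_be_fst, KH2_be_fst]
      congr 1
      unfold e2
      rw [dif_pos ⟨hadj, hlt⟩]
    have hs : Finsupp.single ((x, ⟨(v, w), hadj, hlt⟩) : RA Γ × C2 Γ r) k =
        (k * (sn (KH2_be x v) * sn (KH2_be x w))) •
          T2 r (KH2_ta (KH2_ta x v) w) (KH2_be x v) (KH2_be x w) := by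
      rw [hT, smul_smul, mul_assoc, KH2_sn2, mul_one]
      unfold s2
      rw [Finsupp.smul_single, smul_eq_mul, mul_one]
    rw [hs]
    exact Submodule.smul_mem _ _ (Submodule.subset_span ⟨_, _, _, hb, hc, hne, le_rfl, rfl⟩)

theorem span3 (hr : RK Γ r) (z : RA Γ × C3 Γ r →₀ ℤ) : ∃ n, z ∈ F3 r n := by
  have _ := hr
  induction z using Finsupp.induction_linear with
  | zero => exact ⟨0, Submodule.zero_mem _⟩
  | add f g hf hg =>
    obtain ⟨m, hm⟩ := hf
    obtain ⟨n, hn⟩ := hg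
    exact ⟨max m n, Submodule.add_mem _ (KH2_mono3 (le_max_left _ _) hm)
      (KH2_mono3 (le_max_right _ _) hn)⟩
  | single p k =>
    obtain ⟨x, ⟨⟨u, v, w⟩, ⟨huv, huw, hvw⟩, h12, h23⟩⟩ := p
    simp only at huv huw hvw h12 h23
    have hbw : KH2_be (KH2_ta (KH2_ta x u) v) w = KH2_be x w := by
      rw [KH2_be_ta hvw, KH2_be_ta huw]
    have hbv : KH2_be (KH2_ta x u) v = KH2_be x v := KH2_be_ta huv
    refine ⟨len (KH2_ta (KH2_ta (KH2_ta x u) v) w), ?_⟩
    have hb : Rt (KH2_ta (KH2_ta (KH2_ta x u) v) w) (KH2_be x u) := by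
      refine (KH2_rt_ta ?_).2 ((KH2_rt_ta ?_).2 (KH2_rt x u))
      · rw [KH2_be_fst]; exact huw.symm
      · rw [KH2_be_fst]; exact huv.symm
    have hc : Rt (KH2_ta (KH2_ta (KH2_ta x u) v) w) (KH2_be x v) := by
      refine (KH2_rt_ta ?_).2 ?_
      · rw [KH2_be_fst]; exact hvw.symm
      · rw [← hbv]; exact KH2_rt _ v
    have hd : Rt (KH2_ta (KH2_ta (KH2_ta x u) v) w) (KH2_be x w) := by
      rw [← hbw]; exact KH2_rt _ w
    have hne : ∀ s t : V, Γ.Adj s t → KH2_be x s ≠ KH2_be x t := by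
      intro s t hst h
      have h1 := congrArg Prod.fst h
      rw [KH2_be_fst, KH2_be_fst] at h1
      exact hst.ne h1
    have hlo : lo (lo (lo (KH2_ta (KH2_ta (KH2_ta x u) v) w) (KH2_be x u)) (KH2_be x v))
        (KH2_be x w) = x := by
      have a1 : Γ.Adj (KH2_be x v).1 (KH2_be x w).1 := by
        rw [KH2_be_fst, KH2_be_fst]; exact hvw
      have a2 : Γ.Adj (KH2_be x u).1 (KH2_be x w).1 := by
        rw [KH2_be_fst, KH2_be_fst]; exact huw
      have a3 : Γ.Adj (KH2_be x u).1 (KH2_be x v).1 := by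
        rw [KH2_be_fst, KH2_be_fst]; exact huv
      rw [KH2_lo_comm _ a1, KH2_lo_comm _ a2, KH2_lo_comm _ a3]
      have h1 : lo (KH2_ta (KH2_ta (KH2_ta x u) v) w) (KH2_be x w) = KH2_ta (KH2_ta x u) v := by
        rw [← hbw]; exact KH2_lo _ w
      have h2 : lo (KH2_ta (KH2_ta x u) v) (KH2_be x v) = KH2_ta x u := by
        rw [← hbv]; exact KH2_lo _ v
      rw [h1, h2, KH2_lo]
    have he : e3 Γ r x u v w = s3 Γ r x ⟨(u, v, w), ⟨huv, huw, hvw⟩, h12, h23⟩ := by
      unfold e3 o3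
      rw [dif_pos ⟨⟨huv, huw, hvw⟩, h12, h23⟩, dif_neg, dif_neg, dif_neg, dif_neg, dif_neg]
      · simp
      · rintro ⟨-, h1, h2⟩; omega
      · rintro ⟨-, h1, h2⟩; omega
      · rintro ⟨-, h1, h2⟩; omega
      · rintro ⟨-, h1, h2⟩; omega
      · rintro ⟨-, h1, h2⟩; omega
    have hT : T3 r (KH2_ta (KH2_ta (KH2_ta x u) v) w) (KH2_be x u) (KH2_be x v) (KH2_be x w) =
        (sn (KH2_be x u) * sn (KH2_be x v) * sn (KH2_be x w)) •
          s3 Γ r x ⟨(u, v, w), ⟨huv, huw, hvw⟩, h12, h23⟩ := by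
      unfold T3
      rw [hlo, KH2_be_fst, KH2_be_fst, KH2_be_fst, he]
    have hsn : (sn (KH2_be x u) * sn (KH2_be x v) * sn (KH2_be x w)) *
        (sn (KH2_be x u) * sn (KH2_be x v) * sn (KH2_be x w)) = 1 := by
      have h1 := KH2_sn2 (KH2_be x u) (KH2_be x v)
      have h2 := KH2_sn (KH2_be x w)
      calc _ = ((sn (KH2_be x u) * sn (KH2_be x v)) * (sn (KH2_be x u) * sn (KH2_be x v))) *
          (sn (KH2_be x w) * sn (KH2_be x w)) := by ring
        _ = 1 := by rw [h1, h2]; norm_num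
    have hs : Finsupp.single ((x, ⟨(u, v, w), ⟨huv, huw, hvw⟩, h12, h23⟩) : RA Γ × C3 Γ r) k =
        (k * (sn (KH2_be x u) * sn (KH2_be x v) * sn (KH2_be x w))) •
          T3 r (KH2_ta (KH2_ta (KH2_ta x u) v) w) (KH2_be x u) (KH2_be x v) (KH2_be x w) := by
      rw [hT, smul_smul, mul_assoc, hsn, mul_one]
      unfold s3
      rw [Finsupp.smul_single, smul_eq_mul, mul_one]
    rw [hs]
    exact Submodule.smul_mem _ _ (Submodule.subset_span
      ⟨_, _, _, _, hb, hc, hd, hne u v huv, hne u w huw, hne v w hvw, le_rfl, rfl⟩)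

end Kz

end NBT
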