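import Pool.Agent.Lib.MP_83fbc5_gt.KH1
import Pool.Agent.Lib.MP_83fbc5_gt.KH2
import Pool.Agent.Lib.MP_83fbc5_gt.KDD

/-!
# MP_83fbc5_gt, module KE2: exactness of the Koszul complex in degree 2

PROOF. `←` is `d2_d3`. `→`: take `h1`, `h2` from `KH1`, `KH2`. Claim: for `z ∈ F2 (n+1)` one has `z - d3 (h2 z) - h1 (d2 z) ∈ F2 n`. Check the generators `T2 a b c` with
`Rt a b`, `Rt a c`, `b ≠ c`, `len a ≤ n + 1`; `m = ml a`; distinct right letters have adjacent vertices (`rt_adj`). By `d2_T2`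
`h1 (d2 (T2 a b c)) = H1 a c - H1 (dn a b) c - H1 a b + H1 (dn a c) b` (`rt_dn`: `c` is a right letter of `dn a b`), and
`H1 (dn a b) c` is zero or `T2 (dn a b) (ml _) c` with two different right letters, so in `F2 n`. If `b ≠ m`, `c ≠ m`: `H1 a c = T2 a m c`, `H1 a b = T2 a m b`, and by `d3_T3`
`d3 (T3 a m b c) = T2 a b c - T2 (dn a m) b c - T2 a m c + T2 (dn a b) m c + T2 a m b - T2 (dn a c) m b`; the sum is `T2 a b c` plus terms in `F2 n`.
If `b = m`: `H2 a b c = 0`, `H1 a c = T2 a b c`, `H1 a b = 0`. If `c = m`: `H1 a c = 0`, `- H1 a b = - T2 a c b = T2 a b c` (`T2_symm`). Conclude by induction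
on `n` as in degree 1: `F2 0 = ⊥`, `span2`.
(60-75 minutes)
-/

set_option autoImplicit false

namespace NBT

namespace Kz

open RaagIso

variable {V : Type} {Γ : SimpleGraph V} {r : V → ℕ}

theorem KE2_T2_mem {n : ℕ} {a : RA Γ} {b c : V × Bool} (hb : Rt a b) (hc : Rt a c) (hne : b ≠ c)
    (hn : len a ≤ n) : T2 r a b c ∈ F2 r n :=
  Submodule.subset_span ⟨a, b, c, hb, hc, hne, hn, rfl⟩

theorem KE2_H1_eq {a : RA Γ} {c : V × Bool} (h : a ≠ 1) (hc : c ≠ ml a h) :
    H1 r a c = T2 r a (ml a h) c := by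
  unfold H1
  rw [dif_pos h, if_neg hc]

theorem KE2_H1_zero {a : RA Γ} {c : V × Bool} (h : a ≠ 1) (hc : c = ml a h) :
    H1 r a c = 0 := by
  unfold H1
  rw [dif_pos h, if_pos hc]

theorem KE2_H1_mem {n : ℕ} {a : RA Γ} {c : V × Bool} (hc : Rt a c)
    (hn : len a ≤ n) : H1 r a c ∈ F2 r n := by
  have h := rt_ne_one hc
  by_cases h1 : c = ml a h
  · rw [KE2_H1_zero h h1]
    exact Submodule.zero_mem _
  · rw [KE2_H1_eq h h1]
    exact KE2_T2_mem (ml_rt a h) hc (Ne.symm h1) hn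

theorem KE2_H2_eq {a : RA Γ} {b c : V × Bool} (h : a ≠ 1) (hb : b ≠ ml a h) (hc : c ≠ ml a h) :
    H2 r a b c = T3 r a (ml a h) b c := by
  unfold H2
  rw [dif_pos h, if_neg (by
    rintro (h1 | h1)
    · exact hb h1
    · exact hc h1)]

theorem KE2_H2_zero {a : RA Γ} {b c : V × Bool} (h : a ≠ 1) (hc : b = ml a h ∨ c = ml a h) :
    H2 r a b c = 0 := by
  unfold H2
  rw [dif_pos h, if_pos hc]

theorem KE2_len {n : ℕ} {a : RA Γ} {b : V × Bool} (hb : Rt a b) (hn : len a ≤ n + 1) :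
    len (dn a b) ≤ n := by
  have h1 := len_dn hb
  omega

theorem KE2_F_zero {z : RA Γ × C2 Γ r →₀ ℤ} (hz : z ∈ F2 r 0) : z = 0 := by
  have h1 : F2 (Γ := Γ) r 0 ≤ ⊥ := by
    unfold F2
    rw [Submodule.span_le]
    rintro _ ⟨a, b, c, hb, _, _, hn, _⟩
    have h2 := len_dn hb
    omega
  exact (Submodule.mem_bot ℤ).1 (h1 hz)

theorem kos2 (hr : RK Γ r) (z : RA Γ × C2 Γ r →₀ ℤ) : d2 Γ r z = 0 ↔ ∃ y, d3 Γ r y = z := by
  constructor
  swap
  · rintro ⟨y, rfl⟩
    exact d2_d3 y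
  intro hz
  obtain ⟨h1, hh1⟩ := exists_h1 (Γ := Γ) hr
  obtain ⟨h2, hh2⟩ := exists_h2 (Γ := Γ) hr
  have claim : ∀ n, ∀ z ∈ F2 (Γ := Γ) r (n + 1), z - d3 Γ r (h2 z) - h1 (d2 Γ r z) ∈ F2 r n := by
    intro n
    have hle : F2 (Γ := Γ) r (n + 1) ≤ (F2 r n).comap
        (LinearMap.id - (d3 Γ r).comp h2 - h1.comp (d2 Γ r)) := by
      conv_lhs => unfold F2
      rw [Submodule.span_le]
      rintro _ ⟨a, b, c, hb, hc, hbc, hn, rfl⟩
      change T2 r a b c - d3 Γ r (h2 (T2 r a b c)) - h1 (d2 Γ r (T2 r a b c)) ∈ F2 r n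
      have hadj := rt_adj hb hc hbc
      have ha := rt_ne_one hb
      have hm := ml_rt a ha
      rw [d2_T2 hr a hadj, hh2 a b c hb hc hbc]
      simp only [map_sub]
      rw [hh1 a c hc, hh1 (dn a b) c (rt_dn hb hc hbc), hh1 a b hb,
        hh1 (dn a c) b (rt_dn hc hb hbc.symm)]
      have m1 : H1 r (dn a b) c ∈ F2 r n := KE2_H1_mem (rt_dn hb hc hbc) (KE2_len hb hn)
      have m2 : H1 r (dn a c) b ∈ F2 r n := KE2_H1_mem (rt_dn hc hb hbc.symm) (KE2_len hc hn)
      by_cases hbm : b = ml a ha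
      · have hcm : c ≠ ml a ha := fun h => hbc (hbm.trans h.symm)
        rw [KE2_H2_zero ha (Or.inl hbm), KE2_H1_zero ha hbm, KE2_H1_eq ha hcm, ← hbm, map_zero]
        have e : T2 r a b c - 0 - (T2 r a b c - H1 r (dn a b) c - (0 - H1 r (dn a c) b)) =
            H1 r (dn a b) c - H1 r (dn a c) b := by abel
        rw [e]
        exact Submodule.sub_mem _ m1 m2
      · by_cases hcm : c = ml a ha
        · rw [KE2_H2_zero ha (Or.inr hcm), KE2_H1_zero ha hcm, KE2_H1_eq ha hbm, ← hcm, map_zero,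
            T2_symm a hadj]
          have e : T2 r a b c - 0 - (0 - H1 r (dn a b) c - (-T2 r a b c - H1 r (dn a c) b)) =
              H1 r (dn a b) c - H1 r (dn a c) b := by abel
          rw [e]
          exact Submodule.sub_mem _ m1 m2
        · have hmb : ml a ha ≠ b := Ne.symm hbm
          have hmc : ml a ha ≠ c := Ne.symm hcm
          rw [KE2_H2_eq ha hbm hcm, KE2_H1_eq ha hcm, KE2_H1_eq ha hbm,
            d3_T3 hr a (rt_adj hm hb hmb) (rt_adj hm hc hmc) hadj]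
          have e : T2 r a b c -
              (T2 r a b c - T2 r (dn a (ml a ha)) b c -
                (T2 r a (ml a ha) c - T2 r (dn a b) (ml a ha) c) +
                (T2 r a (ml a ha) b - T2 r (dn a c) (ml a ha) b)) -
              (T2 r a (ml a ha) c - H1 r (dn a b) c - (T2 r a (ml a ha) b - H1 r (dn a c) b)) =
              T2 r (dn a (ml a ha)) b c - T2 r (dn a b) (ml a ha) c + T2 r (dn a c) (ml a ha) b +
                H1 r (dn a b) c - H1 r (dn a c) b := by abel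
          rw [e]
          refine Submodule.sub_mem _ (Submodule.add_mem _ (Submodule.add_mem _
            (Submodule.sub_mem _ ?_ ?_) ?_) m1) m2
          · exact KE2_T2_mem (rt_dn hm hb hmb) (rt_dn hm hc hmc) hbc (KE2_len hm hn)
          · exact KE2_T2_mem (rt_dn hb hm hbm) (rt_dn hb hc hbc) hmc (KE2_len hb hn)
          · exact KE2_T2_mem (rt_dn hc hm hcm) (rt_dn hc hb hbc.symm) hmb (KE2_len hc hn)
    exact fun z hz => hle hz
  have main : ∀ n, ∀ z ∈ F2 (Γ := Γ) r n, d2 Γ r z = 0 → ∃ y, d3 Γ r y = z := by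
    intro n
    induction n with
    | zero =>
      intro z hz _
      exact ⟨0, by rw [map_zero, KE2_F_zero hz]⟩
    | succ n ih =>
      intro z hz hz0
      have h3 := claim n z hz
      rw [hz0, map_zero, sub_zero] at h3
      obtain ⟨y, hy⟩ := ih _ h3 (by rw [map_sub, hz0, d2_d3, sub_zero])
      exact ⟨y + h2 z, by rw [map_add, hy, sub_add_cancel]⟩
  obtain ⟨n, hn⟩ := span2 hr z
  exact main n z hn hz

end Kz

end NBT
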