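import Pool.Agent.Lib.MP_83fbc5_gt.KH2
import Pool.Agent.Lib.MP_83fbc5_gt.KDD

/-!
# MP_83fbc5_gt, module KE3: injectivity of the last Koszul differential

PROOF. Take `h2` from `KH2`. Claim: for `z ∈ F3 (n+1)` one has `z - h2 (d3 z) ∈ F3 n`. Generators `T3 a b c d` (three different right letters, their
vertices are pairwise adjacent, `rt_adj`). The letter `m = ml a` is one of `b, c, d`: otherwise the four vertices are pairwise
adjacent, so their ranks are four different numbers `< 3` (`RK`). By `d3_T3`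
`h2 (d3 (T3 a b c d)) = H2 a c d - H2 (dn a b) c d - H2 a b d + H2 (dn a c) b d + H2 a b c - H2 (dn a d) b c` (`rt_dn`), where `H2 (dn a b) c d` is zero or
`T3 (dn a b) (ml _) c d` with three different right letters, so in `F3 n`. If `m = b`: `H2 a c d = T3 a b c d`, the other two vanish. If `m = c`:
`- H2 a b d = - T3 a c b d = T3 a b c d` (`T3_symm12`). If `m = d`: `H2 a b c = T3 a d b c = T3 a b c d` (two transpositions). If `d3 z = 0`, `z ∈ F3 n`
(`span3`): induction on `n`, `F3 0 = ⊥`, `z = z - h2 (d3 z) ∈ F3 n` for `z ∈ F3 (n+1)`.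
(50-60 minutes)
-/

set_option autoImplicit false

namespace NBT

namespace Kz

open RaagIso

variable {V : Type} {Γ : SimpleGraph V} {r : V → ℕ}

theorem KE3_H2_eq {a : RA Γ} {b c : V × Bool} (h : a ≠ 1) (hb : b ≠ ml a h) (hc : c ≠ ml a h) :
    H2 r a b c = T3 r a (ml a h) b c := by
  unfold H2
  rw [dif_pos h, if_neg (by
    rintro (h1 | h1)
    · exact hb h1
    · exact hc h1)]

theorem KE3_H2_zero {a : RA Γ} {b c : V × Bool} (h : a ≠ 1) (hc : b = ml a h ∨ c = ml a h) :
    H2 r a b c = 0 := by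
  unfold H2
  rw [dif_pos h, if_pos hc]

theorem KE3_H2_mem {n : ℕ} {a : RA Γ} {b c : V × Bool} (hb : Rt a b) (hc : Rt a c) (hbc : b ≠ c)
    (hn : len a ≤ n) : H2 r a b c ∈ F3 r n := by
  have h := rt_ne_one hb
  by_cases h1 : b = ml a h ∨ c = ml a h
  · rw [KE3_H2_zero h h1]
    exact Submodule.zero_mem _
  · push Not at h1
    rw [KE3_H2_eq h h1.1 h1.2]
    exact Submodule.subset_span ⟨a, ml a h, b, c, ml_rt a h, hb, hc, Ne.symm h1.1, Ne.symm h1.2,
      hbc, hn, rfl⟩

theorem KE3_len {n : ℕ} {a : RA Γ} {b : V × Bool} (hb : Rt a b) (hn : len a ≤ n + 1) :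
    len (dn a b) ≤ n := by
  have h1 := len_dn hb
  omega

theorem KE3_F_zero {z : RA Γ × C3 Γ r →₀ ℤ} (hz : z ∈ F3 r 0) : z = 0 := by
  have h1 : F3 (Γ := Γ) r 0 ≤ ⊥ := by
    unfold F3
    rw [Submodule.span_le]
    rintro _ ⟨a, b, c, d, hb, _, _, _, _, _, hn, _⟩
    have h2 := len_dn hb
    omega
  exact (Submodule.mem_bot ℤ).1 (h1 hz)

theorem kos3 (hr : RK Γ r) (z : RA Γ × C3 Γ r →₀ ℤ) (h : d3 Γ r z = 0) : z = 0 := by
  obtain ⟨h2, hh2⟩ := exists_h2 (Γ := Γ) hr
  have claim : ∀ n, ∀ z ∈ F3 (Γ := Γ) r (n + 1), z - h2 (d3 Γ r z) ∈ F3 r n := by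
    intro n
    have hle : F3 (Γ := Γ) r (n + 1) ≤ (F3 r n).comap (LinearMap.id - h2.comp (d3 Γ r)) := by
      conv_lhs => unfold F3
      rw [Submodule.span_le]
      rintro _ ⟨a, b, c, d, hb, hc, hd, hbc, hbd, hcd, hn, rfl⟩
      change T3 r a b c d - h2 (d3 Γ r (T3 r a b c d)) ∈ F3 r n
      have abc := rt_adj hb hc hbc
      have abd := rt_adj hb hd hbd
      have acd := rt_adj hc hd hcd
      have ha := rt_ne_one hb
      have hm := ml_rt a ha
      rw [d3_T3 hr a abc abd acd]
      simp only [map_sub, map_add]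
      rw [hh2 a c d hc hd hcd, hh2 (dn a b) c d (rt_dn hb hc hbc) (rt_dn hb hd hbd) hcd,
        hh2 a b d hb hd hbd, hh2 (dn a c) b d (rt_dn hc hb hbc.symm) (rt_dn hc hd hcd) hbd,
        hh2 a b c hb hc hbc, hh2 (dn a d) b c (rt_dn hd hb hbd.symm) (rt_dn hd hc hcd.symm) hbc]
      have m1 : H2 r (dn a b) c d ∈ F3 r n :=
        KE3_H2_mem (rt_dn hb hc hbc) (rt_dn hb hd hbd) hcd (KE3_len hb hn)
      have m2 : H2 r (dn a c) b d ∈ F3 r n :=
        KE3_H2_mem (rt_dn hc hb hbc.symm) (rt_dn hc hd hcd) hbd (KE3_len hc hn)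
      have m3 : H2 r (dn a d) b c ∈ F3 r n :=
        KE3_H2_mem (rt_dn hd hb hbd.symm) (rt_dn hd hc hcd.symm) hbc (KE3_len hd hn)
      have hfin : H2 r (dn a b) c d - H2 r (dn a c) b d + H2 r (dn a d) b c ∈ F3 r n :=
        Submodule.add_mem _ (Submodule.sub_mem _ m1 m2) m3
      by_cases hbm : b = ml a ha
      · have hcm : c ≠ ml a ha := fun h => hbc (hbm.trans h.symm)
        have hdm : d ≠ ml a ha := fun h => hbd (hbm.trans h.symm)
        rw [KE3_H2_eq ha hcm hdm, KE3_H2_zero ha (Or.inl hbm), KE3_H2_zero ha (Or.inl hbm),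
          ← hbm]
        have e : T3 r a b c d - (T3 r a b c d - H2 r (dn a b) c d - (0 - H2 r (dn a c) b d) +
            (0 - H2 r (dn a d) b c)) =
            H2 r (dn a b) c d - H2 r (dn a c) b d + H2 r (dn a d) b c := by abel
        rw [e]
        exact hfin
      · by_cases hcm : c = ml a ha
        · have hdm : d ≠ ml a ha := fun h => hcd (hcm.trans h.symm)
          rw [KE3_H2_zero (b := c) ha (Or.inl hcm), KE3_H2_eq ha hbm hdm,
            KE3_H2_zero (b := b) (c := c) ha (Or.inr hcm), ← hcm, T3_symm12 a abc abd acd]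
          have e : T3 r a b c d - (0 - H2 r (dn a b) c d - (-T3 r a b c d - H2 r (dn a c) b d) +
              (0 - H2 r (dn a d) b c)) =
              H2 r (dn a b) c d - H2 r (dn a c) b d + H2 r (dn a d) b c := by abel
          rw [e]
          exact hfin
        · by_cases hdm : d = ml a ha
          · rw [KE3_H2_zero (b := c) (c := d) ha (Or.inr hdm),
              KE3_H2_zero (b := b) (c := d) ha (Or.inr hdm), KE3_H2_eq ha hbm hcm, ← hdm]
            have e1 : T3 r a d b c = T3 r a b c d := by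
              rw [T3_symm12 a (b := b) (c := d) (d := c) abd abc acd.symm,
                T3_symm23 a abc abd acd, neg_neg]
            rw [e1]
            have e : T3 r a b c d - (0 - H2 r (dn a b) c d - (0 - H2 r (dn a c) b d) +
                (T3 r a b c d - H2 r (dn a d) b c)) =
                H2 r (dn a b) c d - H2 r (dn a c) b d + H2 r (dn a d) b c := by abel
            rw [e]
            exact hfin
          · exfalso
            have n1 := hr.1 _ _ abc
            have n2 := hr.1 _ _ abd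
            have n3 := hr.1 _ _ acd
            have n4 := hr.1 _ _ (rt_adj hm hb (Ne.symm hbm))
            have n5 := hr.1 _ _ (rt_adj hm hc (Ne.symm hcm))
            have n6 := hr.1 _ _ (rt_adj hm hd (Ne.symm hdm))
            have l1 := hr.2 b.1
            have l2 := hr.2 c.1
            have l3 := hr.2 d.1
            have l4 := hr.2 (ml a ha).1
            omega
    exact fun z hz => hle hz
  have main : ∀ n, ∀ z ∈ F3 (Γ := Γ) r n, d3 Γ r z = 0 → z = 0 := by
    intro n
    induction n with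
    | zero => exact fun z hz _ => KE3_F_zero hz
    | succ n ih =>
      intro z hz hz0
      have h3 := claim n z hz
      rw [hz0, map_zero, sub_zero] at h3
      exact ih z h3 hz0
  obtain ⟨n, hn⟩ := span3 hr z
  exact main n z hn h

end Kz

end NBT
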