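import Pool.Agent.Lib.MP_83fbc5_gt.KGDefs
import Pool.Agent.Lib.MP_83fbc5_gt.Basic

/-!
# MP_83fbc5_gt, module KG1: the translation maps are bijective

PROOF. General lemma: let `J` be a finite type, `κ : G × J → B` a bijection; then `u ↦ ∑ j, pf (fun x => κ (x, j)) (u j)` is a bijection
`(J → ℤ[G]) → (B →₀ ℤ)` (inverse: `m ↦ (j ↦ the finitely supported function x ↦ m (κ (x, j)))`, `Finsupp.comapDomain`; or compose the equivalences
`J → (G →₀ ℤ) ≃ (J × G →₀ ℤ)` (`Finsupp.finsuppProdEquiv`, `Finsupp.equivFunOnFinite`) and `Finsupp.domLCongr`; injectivity: evaluate at `κ (x, j)`).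
The maps `(x, i) ↦ (x.left, (x.right, i))`, `(x, p) ↦ (x.left, L.cl2 x.right p)`, `(x, p) ↦ (x.left, L.cl3 x.right p)` are bijections: an element of `C2` is a pair
`((h, i), (h', j))` with `r` increasing, so by `gr` `R i j` and `h' = h * g i j` (the other alternative contradicts `lt`); an element of
`C3` is `((h, i), (h * g i j, j), (h'', k))` with `h'' = h * g i j * g j k`.
(45-60 minutes)
-/

set_option autoImplicit false

namespace NBT

open Matrix RaagIso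

theorem KG1_bij {G B J : Type} [Group G] [Fintype J] (κ : J → G → B)
    (hκ : Function.Bijective fun p : J × G => κ p.1 p.2) :
    Function.Bijective fun u : J → MonoidAlgebra ℤ G => ∑ j, pf (κ j) (u j) := by
  classical
  have hinj : ∀ j, Function.Injective (κ j) := fun j x y h =>
    (Prod.mk.inj (hκ.1 (a₁ := (j, x)) (a₂ := (j, y)) h)).2
  have hev : ∀ (u : J → MonoidAlgebra ℤ G) (j : J) (x : G),
      (∑ j', pf (κ j') (u j')) (κ j x) = (u j).coeff x := by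
    intro u j x
    rw [Finsupp.finsetSum_apply, Finset.sum_eq_single j]
    · exact Finsupp.mapDomain_apply (hinj j) _ _
    · intro j' _ hj'
      refine Finsupp.mapDomain_of_notMem_range _ _ ?_
      rintro ⟨y, hy⟩
      exact hj' (Prod.mk.inj (hκ.1 (a₁ := (j', y)) (a₂ := (j, x)) hy)).1
    · intro h
      exact absurd (Finset.mem_univ j) h
  constructor
  · intro u u' h
    funext j
    apply MonoidAlgebra.coeff_injective
    ext x
    have h1 : (∑ j', pf (κ j') (u j')) (κ j x) = (∑ j', pf (κ j') (u' j')) (κ j x) :=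
      DFunLike.congr_fun h (κ j x)
    rw [hev, hev] at h1
    exact h1
  · intro m
    refine ⟨fun j => MonoidAlgebra.ofCoeff (Finsupp.comapDomain (κ j) m (hinj j).injOn), ?_⟩
    ext b
    obtain ⟨⟨j, x⟩, rfl⟩ := hκ.2 b
    change (∑ j', pf (κ j')
      (MonoidAlgebra.ofCoeff (Finsupp.comapDomain (κ j') m (hinj j').injOn))) (κ j x) = m (κ j x)
    rw [hev (fun j' => MonoidAlgebra.ofCoeff (Finsupp.comapDomain (κ j') m (hinj j').injOn))]
    rfl

namespace VG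

variable {H : Type} [Group H] (L : VG H)

theorem tr1_bij : Function.Bijective L.tr1 := by
  refine KG1_bij (fun i (x : L.GG) => (x.left, (x.right, i))) ⟨?_, ?_⟩
  · rintro ⟨i, x⟩ ⟨j, y⟩ h
    have h1 := Prod.mk.inj h
    have h2 := Prod.mk.inj h1.2
    exact Prod.ext h2.2 (SemidirectProduct.ext h1.1 h2.1)
  · rintro ⟨a, h, i⟩
    exact ⟨(i, ⟨a, h⟩), rfl⟩

theorem tr2_bij : Function.Bijective L.tr2 := by
  refine KG1_bij (fun p (x : L.GG) => (x.left, L.cl2 x.right p)) ⟨?_, ?_⟩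
  · rintro ⟨p, x⟩ ⟨p', y⟩ h
    have h1 := Prod.mk.inj h
    have h2 : ((x.right, p.1.1), (x.right * L.g p.1.1 p.1.2, p.1.2)) =
        ((y.right, p'.1.1), (y.right * L.g p'.1.1 p'.1.2, p'.1.2)) :=
      congrArg Subtype.val h1.2
    have h3 := Prod.mk.inj h2
    have h4 := Prod.mk.inj h3.1
    have h5 := Prod.mk.inj h3.2
    have h6 : p = p' := Subtype.ext (Prod.ext h4.2 h5.2)
    exact Prod.ext h6 (SemidirectProduct.ext h1.1 h4.1)
  · rintro ⟨a, c⟩
    have hadj : L.gr.Adj c.1.1 c.1.2 := c.2.1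
    have hlt : L.rr c.1.1 < L.rr c.1.2 := c.2.2
    have hR : L.R c.1.1.2 c.1.2.2 ∧ c.1.2.1 = c.1.1.1 * L.g c.1.1.2 c.1.2.2 := by
      rcases hadj with h | h
      · exact h
      · exact absurd (L.lt _ _ h.1) (lt_asymm hlt)
    refine ⟨(⟨(c.1.1.2, c.1.2.2), hR.1⟩, ⟨a, c.1.1.1⟩), ?_⟩
    refine Prod.ext rfl (Subtype.ext (Prod.ext rfl (Prod.ext ?_ rfl)))
    exact hR.2.symm

theorem tr3_bij : Function.Bijective L.tr3 := by
  refine KG1_bij (fun p (x : L.GG) => (x.left, L.cl3 x.right p)) ⟨?_, ?_⟩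
  · rintro ⟨p, x⟩ ⟨p', y⟩ h
    have h1 := Prod.mk.inj h
    have h2 : ((x.right, p.1.1), (x.right * L.g p.1.1 p.1.2.1, p.1.2.1),
          (x.right * L.g p.1.1 p.1.2.2, p.1.2.2)) =
        ((y.right, p'.1.1), (y.right * L.g p'.1.1 p'.1.2.1, p'.1.2.1),
          (y.right * L.g p'.1.1 p'.1.2.2, p'.1.2.2)) :=
      congrArg Subtype.val h1.2
    have h3 := Prod.mk.inj h2
    have h4 := Prod.mk.inj h3.1
    have h5 := Prod.mk.inj h3.2
    have h6 := Prod.mk.inj h5.1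
    have h7 := Prod.mk.inj h5.2
    have h8 : p = p' := Subtype.ext (Prod.ext h4.2 (Prod.ext h6.2 h7.2))
    exact Prod.ext h8 (SemidirectProduct.ext h1.1 h4.1)
  · rintro ⟨a, c⟩
    have hadj1 : L.gr.Adj c.1.1 c.1.2.1 := c.2.1.1
    have hadj2 : L.gr.Adj c.1.1 c.1.2.2 := c.2.1.2.1
    have hadj3 : L.gr.Adj c.1.2.1 c.1.2.2 := c.2.1.2.2
    have hlt1 : L.rr c.1.1 < L.rr c.1.2.1 := c.2.2.1
    have hlt2 : L.rr c.1.2.1 < L.rr c.1.2.2 := c.2.2.2
    have hR1 : L.R c.1.1.2 c.1.2.1.2 ∧ c.1.2.1.1 = c.1.1.1 * L.g c.1.1.2 c.1.2.1.2 := by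
      rcases hadj1 with h | h
      · exact h
      · exact absurd (L.lt _ _ h.1) (lt_asymm hlt1)
    have hR2 : L.R c.1.1.2 c.1.2.2.2 ∧ c.1.2.2.1 = c.1.1.1 * L.g c.1.1.2 c.1.2.2.2 := by
      rcases hadj2 with h | h
      · exact h
      · exact absurd (L.lt _ _ h.1) (lt_asymm (hlt1.trans hlt2))
    have hR3 : L.R c.1.2.1.2 c.1.2.2.2 ∧ c.1.2.2.1 = c.1.2.1.1 * L.g c.1.2.1.2 c.1.2.2.2 := by
      rcases hadj3 with h | h
      · exact h
      · exact absurd (L.lt _ _ h.1) (lt_asymm hlt2)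
    refine ⟨(⟨(c.1.1.2, c.1.2.1.2, c.1.2.2.2), hR1.1, hR3.1⟩, ⟨a, c.1.1.1⟩), ?_⟩
    refine Prod.ext rfl (Subtype.ext (Prod.ext rfl (Prod.ext (Prod.ext ?_ rfl) (Prod.ext ?_ rfl))))
    · exact hR1.2.symm
    · exact hR2.2.symm

end VG

end NBT
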