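import Pool.Agent.Lib.MP_83fbc5_gt.KGDefs
import Pool.Agent.Lib.MP_83fbc5_gt.Basic

/-!
# MP_83fbc5_gt, module KG2: the translation maps intertwine the differentials

PROOF. All maps are additive in `u` (`pf_add`), so by `row_ext` it suffices to check `u = Pi.single j (el x)`, `x = (a, h)`. Use
`x * L.X v = ((a * L.phi h (gen v)), h)`, `L.phi_gen`, and `(x * L.iH g) = (a, h * g)` (`SemidirectProduct.mul_left`, `mul_right`, `inl`, `inr`).
`d1_tr1`: `d1 (s1 a (h, i)) = s0 a - s0 (a * gen (h, i))`, and `eK (Pi.single i (el x)) = [x] - [x * X (1, i)]` with `(x * X (1, i)).left = a * gen (h * 1, i)`.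
`d2_tr2`: `Pi.single p (el x) ᵥ* K2 = el x • K2 p`, with `p = (i, j)`: `el x * (1 - X(1,i)) * iH g` at `j` minus `el x * (1 - X(g,j))` at `i`
(`g = g i j`), which is `[(a, h g)] - [(a * gen (h, i), h g)]` at `j` and `-([(a, h)] - [(a * gen (h g, j), h)])` at `i`: the translate is
`(s1 a (hg, j) - s1 (a * gen (h, i)) (hg, j)) - (s1 a (h, i) - s1 (a * gen (hg, j)) (h, i))`. `d3_tr3`: the same computation; the faces of `cl3 h p` are
`cl2 (h * g i j) p.f0`, `cl2 h p.f1`, `cl2 h p.f2` (`coh`).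
(60-80 minutes)
-/

set_option autoImplicit false

namespace NBT

open Matrix RaagIso

namespace VG

variable {H : Type} [Group H] (L : VG H)

theorem KG2_d1 (a : RA L.gr) (v : H × L.I) :
    Kz.d1 L.gr (Kz.s1 L.gr a v) = Kz.s0 L.gr a - Kz.s0 L.gr (a * gen v) := by
  unfold Kz.d1 Kz.s1
  rw [Finsupp.linearCombination_single, one_smul]

theorem KG2_d2 (a : RA L.gr) (p : Kz.C2 L.gr L.rr) :
    Kz.d2 L.gr L.rr (Kz.s2 L.gr L.rr a p) =
      (Kz.s1 L.gr a p.1.2 - Kz.s1 L.gr (a * gen p.1.1) p.1.2) -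
      (Kz.s1 L.gr a p.1.1 - Kz.s1 L.gr (a * gen p.1.2) p.1.1) := by
  unfold Kz.d2 Kz.s2
  rw [Finsupp.linearCombination_single, one_smul]

theorem KG2_d3 (a : RA L.gr) (p : Kz.C3 L.gr L.rr) :
    Kz.d3 L.gr L.rr (Kz.s3 L.gr L.rr a p) =
    (Kz.s2 L.gr L.rr a p.f0 - Kz.s2 L.gr L.rr (a * gen p.1.1) p.f0) -
    (Kz.s2 L.gr L.rr a p.f1 - Kz.s2 L.gr L.rr (a * gen p.1.2.1) p.f1) +
    (Kz.s2 L.gr L.rr a p.f2 - Kz.s2 L.gr L.rr (a * gen p.1.2.2) p.f2) := by
  unfold Kz.d3 Kz.s3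
  rw [Finsupp.linearCombination_single, one_smul]

theorem KG2_sum {G B J : Type} [Group G] [Fintype J] [DecidableEq J] (κ : J → G → B) (j : J)
    (y : MonoidAlgebra ℤ G) :
    ∑ i, pf (κ i) ((Pi.single j y : J → MonoidAlgebra ℤ G) i) = pf (κ j) y := by
  rw [Finset.sum_eq_single j]
  · rw [Pi.single_eq_same]
  · intro i _ hi
    rw [Pi.single_eq_of_ne hi, pf_zero]
  · intro h
    exact absurd (Finset.mem_univ j) h

theorem KG2_pf_neg {G A : Type} [Group G] (π : G → A) (x : MonoidAlgebra ℤ G) :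
    pf π (-x) = - pf π x := by
  have h := pf_add π x (-x)
  rw [add_neg_cancel, pf_zero] at h
  exact (neg_eq_of_add_eq_zero_right h.symm).symm

theorem KG2_pf_sub {G A : Type} [Group G] (π : G → A) (x y : MonoidAlgebra ℤ G) :
    pf π (x - y) = pf π x - pf π y := by
  rw [sub_eq_add_neg, pf_add, KG2_pf_neg, sub_eq_add_neg]

theorem KG2_tr1_single (j : L.I) (y : MonoidAlgebra ℤ L.GG) :
    L.tr1 (Pi.single j y) = pf (fun x : L.GG => (x.left, (x.right, j))) y :=
  KG2_sum (fun i (x : L.GG) => (x.left, (x.right, i))) j y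

theorem KG2_tr2_single (j : L.J2) (y : MonoidAlgebra ℤ L.GG) :
    L.tr2 (Pi.single j y) = pf (fun x : L.GG => (x.left, L.cl2 x.right j)) y :=
  KG2_sum (fun p (x : L.GG) => (x.left, L.cl2 x.right p)) j y

theorem KG2_tr3_single (j : L.J3) (y : MonoidAlgebra ℤ L.GG) :
    L.tr3 (Pi.single j y) = pf (fun x : L.GG => (x.left, L.cl3 x.right j)) y :=
  KG2_sum (fun p (x : L.GG) => (x.left, L.cl3 x.right p)) j y

theorem KG2_tr1_add (u v : L.I → MonoidAlgebra ℤ L.GG) : L.tr1 (u + v) = L.tr1 u + L.tr1 v := by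
  unfold tr1
  rw [← Finset.sum_add_distrib]
  exact Finset.sum_congr rfl fun i _ => pf_add _ _ _

theorem KG2_tr2_add (u v : L.J2 → MonoidAlgebra ℤ L.GG) : L.tr2 (u + v) = L.tr2 u + L.tr2 v := by
  unfold tr2
  rw [← Finset.sum_add_distrib]
  exact Finset.sum_congr rfl fun i _ => pf_add _ _ _

theorem KG2_tr3_add (u v : L.J3 → MonoidAlgebra ℤ L.GG) : L.tr3 (u + v) = L.tr3 u + L.tr3 v := by
  unfold tr3
  rw [← Finset.sum_add_distrib]
  exact Finset.sum_congr rfl fun i _ => pf_add _ _ _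

theorem KG2_tr1_sub (u v : L.I → MonoidAlgebra ℤ L.GG) : L.tr1 (u - v) = L.tr1 u - L.tr1 v := by
  have h := L.KG2_tr1_add (u - v) v
  rw [sub_add_cancel] at h
  rw [h, add_sub_cancel_right]

theorem KG2_tr2_sub (u v : L.J2 → MonoidAlgebra ℤ L.GG) : L.tr2 (u - v) = L.tr2 u - L.tr2 v := by
  have h := L.KG2_tr2_add (u - v) v
  rw [sub_add_cancel] at h
  rw [h, add_sub_cancel_right]

theorem KG2_eK_add (u v : L.I → MonoidAlgebra ℤ L.GG) : L.eK (u + v) = L.eK u + L.eK v := by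
  unfold eK
  rw [← Finset.sum_add_distrib]
  refine Finset.sum_congr rfl fun i _ => ?_
  rw [Pi.add_apply, add_mul, pf_add, pf_add]
  abel

theorem KG2_eK_single (j : L.I) (x : L.GG) :
    L.eK (Pi.single j (el x)) = pf SemidirectProduct.left (el x) -
      pf SemidirectProduct.left (el x * el (L.X (1, j))) := by
  unfold eK
  rw [Finset.sum_eq_single j]
  · rw [Pi.single_eq_same]
  · intro i _ hi
    rw [Pi.single_eq_of_ne hi, zero_mul, pf_zero, sub_zero]
  · intro h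
    exact absurd (Finset.mem_univ j) h

theorem KG2_xX (x : L.GG) (v : H × L.I) :
    x * L.X v = ⟨x.left * gen (x.right * v.1, v.2), x.right⟩ := by
  refine SemidirectProduct.ext ?_ ?_
  · rw [SemidirectProduct.mul_left]
    unfold X
    rw [SemidirectProduct.left_inl, L.phi_gen]
  · rw [SemidirectProduct.mul_right]
    unfold X
    rw [SemidirectProduct.right_inl, mul_one]

theorem KG2_xH (x : L.GG) (g : H) : x * L.iH g = ⟨x.left, x.right * g⟩ := by
  refine SemidirectProduct.ext ?_ ?_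
  · rw [SemidirectProduct.mul_left, SemidirectProduct.left_inr, map_one, mul_one]
  · rw [SemidirectProduct.mul_right, SemidirectProduct.right_inr]

theorem d1_tr1 (u : L.I → MonoidAlgebra ℤ L.GG) : Kz.d1 L.gr (L.tr1 u) = L.eK u := by
  have h : AddMonoidHom.mk' (fun u => Kz.d1 L.gr (L.tr1 u))
      (fun u v => by rw [KG2_tr1_add, map_add]) =
      AddMonoidHom.mk' (fun u => L.eK u) L.KG2_eK_add := by
    refine row_ext _ _ fun j x => ?_
    change Kz.d1 L.gr (L.tr1 (Pi.single j (el x))) = L.eK (Pi.single j (el x))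
    rw [KG2_tr1_single, pf_el, KG2_eK_single, ← el_mul, pf_el, pf_el]
    have h1 := L.KG2_d1 x.left (x.right, j)
    unfold Kz.s1 Kz.s0 at h1
    rw [h1, KG2_xX, mul_one]
  exact DFunLike.congr_fun h u

theorem KG2_vec {J K : Type} [Fintype J] [DecidableEq J] {G : Type} [Group G] (j : J)
    (y : MonoidAlgebra ℤ G) (M : Matrix J K (MonoidAlgebra ℤ G)) :
    (Pi.single j y) ᵥ* M = fun k => y * M j k := by
  funext k
  rw [Matrix.vecMul, dotProduct, Finset.sum_eq_single j]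
  · rw [Pi.single_eq_same]
  · intro i _ hi
    rw [Pi.single_eq_of_ne hi, zero_mul]
  · intro h
    exact absurd (Finset.mem_univ j) h

theorem KG2_mul_single {K : Type} [DecidableEq K] {G : Type} [Group G]
    (x y : MonoidAlgebra ℤ G) (k : K) :
    (fun k' => x * (Pi.single k y : K → MonoidAlgebra ℤ G) k') = Pi.single k (x * y) := by
  funext k'
  by_cases h : k' = k
  · subst h
    rw [Pi.single_eq_same, Pi.single_eq_same]
  · rw [Pi.single_eq_of_ne h, Pi.single_eq_of_ne h, mul_zero]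

theorem d2_tr2 (u : L.J2 → MonoidAlgebra ℤ L.GG) : Kz.d2 L.gr L.rr (L.tr2 u) = L.tr1 (u ᵥ* L.K2) := by
  have h : AddMonoidHom.mk' (fun u => Kz.d2 L.gr L.rr (L.tr2 u))
      (fun u v => by rw [KG2_tr2_add, map_add]) =
      AddMonoidHom.mk' (fun u => L.tr1 (u ᵥ* L.K2))
      (fun u v => by rw [Matrix.add_vecMul, KG2_tr1_add]) := by
    refine row_ext _ _ fun p x => ?_
    change Kz.d2 L.gr L.rr (L.tr2 (Pi.single p (el x))) = L.tr1 (Pi.single p (el x) ᵥ* L.K2)
    rw [KG2_tr2_single, pf_el]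
    have h1 := L.KG2_d2 x.left (L.cl2 x.right p)
    have hc1 : (L.cl2 x.right p).1.1 = (x.right, p.1.1) := rfl
    have hc2 : (L.cl2 x.right p).1.2 = (x.right * L.g p.1.1 p.1.2, p.1.2) := rfl
    unfold Kz.s2 at h1
    rw [h1, hc1, hc2, KG2_vec]
    have h2 : (fun k => el x * L.K2 p k) =
        Pi.single p.1.2 (el x * (L.om (1, p.1.1) * el (L.iH (L.g p.1.1 p.1.2)))) -
        Pi.single p.1.1 (el x * L.om (L.g p.1.1 p.1.2, p.1.2)) := by
      funext k
      unfold K2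
      rw [Matrix.of_apply, Pi.sub_apply, Pi.sub_apply, mul_sub]
      exact congrArg₂ (· - ·) (congrFun (KG2_mul_single (el x) _ _) k)
        (congrFun (KG2_mul_single (el x) _ _) k)
    rw [h2, KG2_tr1_sub, KG2_tr1_single, KG2_tr1_single]
    unfold om
    rw [sub_mul, one_mul, mul_sub, ← el_mul, ← el_mul, ← el_mul, mul_sub, mul_one, ← el_mul,
      KG2_pf_sub, KG2_pf_sub, pf_el, pf_el, pf_el, pf_el, ← mul_assoc, KG2_xX, KG2_xX, KG2_xH,
      KG2_xH, mul_one]
    rfl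
  exact DFunLike.congr_fun h u

theorem KG2_f0 (h : H) (p : L.J3) : (L.cl3 h p).f0 = L.cl2 (h * L.g p.1.1 p.1.2.1) p.f0 := by
  refine Subtype.ext (Prod.ext rfl (Prod.ext ?_ rfl))
  change h * L.g p.1.1 p.1.2.2 = h * L.g p.1.1 p.1.2.1 * L.g p.1.2.1 p.1.2.2
  rw [L.coh _ _ _ p.2.1 p.2.2, mul_assoc]

theorem d3_tr3 (u : L.J3 → MonoidAlgebra ℤ L.GG) : Kz.d3 L.gr L.rr (L.tr3 u) = L.tr2 (u ᵥ* L.K3) := by
  have h : AddMonoidHom.mk' (fun u => Kz.d3 L.gr L.rr (L.tr3 u))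
      (fun u v => by rw [KG2_tr3_add, map_add]) =
      AddMonoidHom.mk' (fun u => L.tr2 (u ᵥ* L.K3))
      (fun u v => by rw [Matrix.add_vecMul, KG2_tr2_add]) := by
    refine row_ext _ _ fun p x => ?_
    change Kz.d3 L.gr L.rr (L.tr3 (Pi.single p (el x))) = L.tr2 (Pi.single p (el x) ᵥ* L.K3)
    rw [KG2_tr3_single, pf_el]
    have h1 := L.KG2_d3 x.left (L.cl3 x.right p)
    have hc1 : (L.cl3 x.right p).1.1 = (x.right, p.1.1) := rfl
    have hc2 : (L.cl3 x.right p).1.2.1 = (x.right * L.g p.1.1 p.1.2.1, p.1.2.1) := rfl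
    have hc3 : (L.cl3 x.right p).1.2.2 = (x.right * L.g p.1.1 p.1.2.2, p.1.2.2) := rfl
    have f1 : (L.cl3 x.right p).f1 = L.cl2 x.right p.f1 := rfl
    have f2 : (L.cl3 x.right p).f2 = L.cl2 x.right p.f2 := rfl
    unfold Kz.s3 at h1
    rw [h1, hc1, hc2, hc3, KG2_f0, f1, f2, KG2_vec]
    have h2 : (fun k => el x * L.K3 p k) =
        Pi.single p.f0 (el x * (L.om (1, p.1.1) * el (L.iH (L.g p.1.1 p.1.2.1)))) -
        Pi.single p.f1 (el x * L.om (L.g p.1.1 p.1.2.1, p.1.2.1)) +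
        Pi.single p.f2 (el x * L.om (L.g p.1.1 p.1.2.2, p.1.2.2)) := by
      funext k
      unfold K3
      rw [Matrix.of_apply, Pi.add_apply, Pi.add_apply, Pi.sub_apply, Pi.sub_apply, mul_add,
        mul_sub]
      exact congrArg₂ (· + ·) (congrArg₂ (· - ·) (congrFun (KG2_mul_single (el x) _ _) k)
        (congrFun (KG2_mul_single (el x) _ _) k)) (congrFun (KG2_mul_single (el x) _ _) k)
    rw [h2, KG2_tr2_add, KG2_tr2_sub, KG2_tr2_single, KG2_tr2_single, KG2_tr2_single]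
    have e0 : el x * (L.om (1, p.1.1) * el (L.iH (L.g p.1.1 p.1.2.1))) =
        el (x * L.iH (L.g p.1.1 p.1.2.1)) -
          el (x * L.X (1, p.1.1) * L.iH (L.g p.1.1 p.1.2.1)) := by
      unfold om
      rw [sub_mul, one_mul, mul_sub, ← el_mul, ← el_mul, ← el_mul, mul_assoc]
    have e1 : ∀ v, el x * L.om v = el x - el (x * L.X v) := by
      intro v
      unfold om
      rw [mul_sub, mul_one, ← el_mul]
    rw [e0, e1, e1, KG2_pf_sub, KG2_pf_sub, KG2_pf_sub, pf_el, pf_el, pf_el, pf_el, pf_el, pf_el,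
      KG2_xX, KG2_xX, KG2_xX, KG2_xH, KG2_xH, mul_one]
    rfl
  exact DFunLike.congr_fun h u

end VG

end NBT
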