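import Pool.Agent.Lib.MP_83fbc5_gt.KG1
import Pool.Agent.Lib.MP_83fbc5_gt.KG2
import Pool.Agent.Lib.MP_83fbc5_gt.KE1
import Pool.Agent.Lib.MP_83fbc5_gt.KE2
import Pool.Agent.Lib.MP_83fbc5_gt.KE3

/-!
# MP_83fbc5_gt, module KG3: exactness of the Koszul matrices over `ℤ[GG]`

PROOF. Transport `kos0 .. kos3` along the bijections (`tr1_bij`, ..) with `d1_tr1`, `d2_tr2`, `d3_tr3`; `tr1 0 = 0` etc. by additivity (`tr` of a zero vector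
is zero). `eK_add`: additivity of `pf` (`pf_add`) and of multiplication.
(30-40 minutes)
-/

set_option autoImplicit false

namespace NBT

open Matrix RaagIso

namespace VG

variable {H : Type} [Group H] (L : VG H)

theorem KG3_tr1_zero : L.tr1 0 = 0 := by
  unfold tr1
  simp [pf_zero]

theorem KG3_tr2_zero : L.tr2 0 = 0 := by
  unfold tr2
  simp [pf_zero]

theorem KG3_tr3_zero : L.tr3 0 = 0 := by
  unfold tr3
  simp [pf_zero]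

theorem eK_add (u v : L.I → MonoidAlgebra ℤ L.GG) : L.eK (u + v) = L.eK u + L.eK v := by
  unfold eK
  rw [← Finset.sum_add_distrib]
  refine Finset.sum_congr rfl fun i _ => ?_
  rw [Pi.add_apply, add_mul, pf_add, pf_add]
  abel

theorem K_exact0 (m : RA L.gr →₀ ℤ) : augM m = 0 ↔ ∃ u, L.eK u = m := by
  have h := Kz.kos0 (Γ := L.gr) m
  unfold augM
  rw [h]
  constructor
  · rintro ⟨y, hy⟩
    obtain ⟨u, rfl⟩ := L.tr1_bij.2 y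
    exact ⟨u, by rw [← L.d1_tr1 u, hy]⟩
  · rintro ⟨u, hu⟩
    exact ⟨L.tr1 u, by rw [L.d1_tr1 u, hu]⟩

theorem K_exact1 (u : L.I → MonoidAlgebra ℤ L.GG) : L.eK u = 0 ↔ ∃ v, v ᵥ* L.K2 = u := by
  rw [← L.d1_tr1 u, Kz.kos1 L.rk_rr]
  constructor
  · rintro ⟨y, hy⟩
    obtain ⟨v, rfl⟩ := L.tr2_bij.2 y
    refine ⟨v, L.tr1_bij.1 ?_⟩
    rw [← L.d2_tr2 v, hy]
  · rintro ⟨v, rfl⟩
    exact ⟨L.tr2 v, L.d2_tr2 v⟩

theorem K_exact2 (u : L.J2 → MonoidAlgebra ℤ L.GG) : u ᵥ* L.K2 = 0 ↔ ∃ v, v ᵥ* L.K3 = u := by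
  have h0 : u ᵥ* L.K2 = 0 ↔ Kz.d2 L.gr L.rr (L.tr2 u) = 0 := by
    rw [L.d2_tr2 u]
    constructor
    · intro h
      rw [h, L.KG3_tr1_zero]
    · intro h
      refine L.tr1_bij.1 ?_
      rw [h, L.KG3_tr1_zero]
  rw [h0, Kz.kos2 L.rk_rr]
  constructor
  · rintro ⟨y, hy⟩
    obtain ⟨v, rfl⟩ := L.tr3_bij.2 y
    refine ⟨v, L.tr2_bij.1 ?_⟩
    rw [← L.d3_tr3 v, hy]
  · rintro ⟨v, rfl⟩
    exact ⟨L.tr3 v, L.d3_tr3 v⟩

theorem K_exact3 (u : L.J3 → MonoidAlgebra ℤ L.GG) (h : u ᵥ* L.K3 = 0) : u = 0 := by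
  have h1 : L.tr3 u = 0 := by
    refine Kz.kos3 L.rk_rr _ ?_
    rw [L.d3_tr3 u, h, L.KG3_tr2_zero]
  refine L.tr3_bij.1 ?_
  rw [h1, L.KG3_tr3_zero]

end VG

end NBT
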