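import Pool.Agent.Lib.MP_83fbc5_gt.SDefs
import Pool.Agent.Lib.MP_83fbc5_gt.KDefs

/-!
# MP_83fbc5_gt, KGDefs: from row vectors over `ℤ[GG]` to chains of the Koszul complex

`x e_i` (`x = (a, h) ∈ GG`, `i ∈ I`) corresponds to `(a, (h, i))`; similarly for edges and triangles.
-/

set_option autoImplicit false

namespace NBT

open Matrix RaagIso

namespace VG

variable {H : Type} [Group H] (L : VG H)

/-- the rank function on the vertices of the graph -/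
def rr (v : H × L.I) : ℕ := L.rho v.2

theorem rk_rr : Kz.RK L.gr L.rr := by
  refine ⟨fun v w h => ?_, fun v => L.rho_lt _⟩
  rcases h with h | h
  · exact (L.lt _ _ h.1).ne
  · exact (L.lt _ _ h.1).ne'

/-- the edge over `h` -/
def cl2 (h : H) (p : L.J2) : Kz.C2 L.gr L.rr :=
  ⟨((h, p.1.1), (h * L.g p.1.1 p.1.2, p.1.2)), Or.inl ⟨p.2, rfl⟩, L.lt _ _ p.2⟩

/-- the triangle over `h` -/
def cl3 (h : H) (p : L.J3) : Kz.C3 L.gr L.rr :=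
  ⟨((h, p.1.1), (h * L.g p.1.1 p.1.2.1, p.1.2.1), (h * L.g p.1.1 p.1.2.2, p.1.2.2)),
    ⟨Or.inl ⟨p.2.1, rfl⟩, Or.inl ⟨L.trans _ _ _ p.2.1 p.2.2, rfl⟩,
      Or.inl ⟨p.2.2, by
        show h * L.g p.1.1 p.1.2.2 = h * L.g p.1.1 p.1.2.1 * L.g p.1.2.1 p.1.2.2
        rw [L.coh _ _ _ p.2.1 p.2.2, mul_assoc]⟩⟩, L.lt _ _ p.2.1, L.lt _ _ p.2.2⟩

noncomputable def tr1 (u : L.I → MonoidAlgebra ℤ L.GG) : RA L.gr × (H × L.I) →₀ ℤ :=
  ∑ i, pf (fun x : L.GG => (x.left, (x.right, i))) (u i)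

noncomputable def tr2 (u : L.J2 → MonoidAlgebra ℤ L.GG) : RA L.gr × Kz.C2 L.gr L.rr →₀ ℤ :=
  ∑ p, pf (fun x : L.GG => (x.left, L.cl2 x.right p)) (u p)

noncomputable def tr3 (u : L.J3 → MonoidAlgebra ℤ L.GG) : RA L.gr × Kz.C3 L.gr L.rr →₀ ℤ :=
  ∑ p, pf (fun x : L.GG => (x.left, L.cl3 x.right p)) (u p)

end VG

end NBT
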