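import Pool.Agent.Lib.MP_83fbc5_gt.KA
import Pool.Agent.Lib.MP_83fbc5_gt.KB

/-!
# MP_83fbc5_gt, module KH1: the homotopies `h0`, `h1`; every 1-chain lies in the filtration

PROOF. For a vertex `v` and `a ∈ RA` put `β a v = (v, false)` if `Rt a (v, false)` and `(v, true)` otherwise, `τ a v = a` resp. `a * gen v`. Then
`Rt (τ a v) (β a v)` (`rt_gl_iff` with `b = (v, true)`, `ivl b = (v, false)`) and `s1 a v = sn (β a v) • T1 (τ a v) (β a v)`.
`h1`: `Finsupp.linearCombination` with value `sn (β a v) • H1 (τ a v) (β a v)` at `(a, v)`. If `Rt a b`, then with `a' = lo a b`: `β a' b.1 = b`, `τ a' b.1 = a` (`rt_gl_iff`), so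
`h1 (T1 a b) = H1 a b` (`sn b * sn b = 1`). `h0`: `Finsupp.linearCombination` with `H0`.
Spanning: each basis element is `±` a generator of the filtration with `n = len` of its top vertex; a finite sum lies in `F1 n` for the
maximum (`Finsupp.induction_linear`, monotonicity of `F1`).
(45-60 minutes)
-/

set_option autoImplicit false

namespace NBT

namespace Kz

open RaagIso

variable {V : Type} {Γ : SimpleGraph V} {r : V → ℕ}

theorem exists_h0 : ∃ h0 : (RA Γ →₀ ℤ) →ₗ[ℤ] (RA Γ × V →₀ ℤ), ∀ a, h0 (s0 Γ a) = H0 a := by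
  refine ⟨Finsupp.linearCombination ℤ (fun a => H0 a), fun a => ?_⟩
  rw [s0, Finsupp.linearCombination_single, one_smul]

open Classical in
/-- the letter at the top vertex of the edge -/
noncomputable def KH1_be (a : RA Γ) (v : V) : V × Bool := if Rt a (v, false) then (v, false) else (v, true)

open Classical in
/-- the top vertex of the edge -/
noncomputable def KH1_ta (a : RA Γ) (v : V) : RA Γ := if Rt a (v, false) then a else a * gen v

theorem KH1_fst (a : RA Γ) (v : V) : (KH1_be a v).1 = v := by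
  unfold KH1_be
  split_ifs <;> rfl

theorem KH1_rt (a : RA Γ) (v : V) : Rt (KH1_ta a v) (KH1_be a v) := by
  unfold KH1_be KH1_ta
  split_ifs with h
  · exact h
  · have h1 := rt_gl_iff a (v, true)
    have h2 : (gl (v, true) : RA Γ) = gen v := rfl
    rw [h2] at h1
    exact h1.2 h

theorem KH1_lo (a : RA Γ) (v : V) : lo (KH1_ta a v) (KH1_be a v) = a := by
  unfold KH1_be KH1_ta
  split_ifs with h
  · rfl
  · simp [lo]

theorem KH1_inv {a : RA Γ} {b : V × Bool} (h : Rt a b) :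
    KH1_be (lo a b) b.1 = b ∧ KH1_ta (lo a b) b.1 = a := by
  obtain ⟨v, t⟩ := b
  cases t with
  | false =>
    have h1 : lo a (v, false) = a := rfl
    rw [h1]
    unfold KH1_be KH1_ta
    rw [if_pos h, if_pos h]
    exact ⟨rfl, rfl⟩
  | true =>
    have h1 : lo a (v, true) = a * (gen v)⁻¹ := rfl
    have h2 : ¬ Rt (a * (gen v)⁻¹) (v, false) := by
      have h3 := rt_gl_iff a (v, false)
      have h4 : (gl (v, false) : RA Γ) = (gen v)⁻¹ := rfl
      rw [h4] at h3
      intro h5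
      exact h3.1 h5 h
    rw [h1]
    unfold KH1_be KH1_ta
    rw [if_neg h2, if_neg h2]
    exact ⟨rfl, by simp⟩

theorem KH1_sn (b : V × Bool) : sn b * sn b = 1 := by
  unfold sn
  split_ifs <;> rfl

theorem exists_h1 (hr : RK Γ r) : ∃ h1 : (RA Γ × V →₀ ℤ) →ₗ[ℤ] (RA Γ × C2 Γ r →₀ ℤ),
    ∀ a b, Rt a b → h1 (T1 a b) = H1 r a b := by
  refine ⟨Finsupp.linearCombination ℤ
    (fun p => sn (KH1_be p.1 p.2) • H1 r (KH1_ta p.1 p.2) (KH1_be p.1 p.2)), fun a b hb => ?_⟩
  obtain ⟨h1, h2⟩ := KH1_inv hb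
  rw [T1, map_smul, s1, Finsupp.linearCombination_single, one_smul, h1, h2, smul_smul, KH1_sn,
    one_smul]

theorem KH1_mono {m n : ℕ} (h : m ≤ n) : (F1 m : Submodule ℤ (RA Γ × V →₀ ℤ)) ≤ F1 n := by
  refine Submodule.span_mono ?_
  rintro z ⟨a, b, h1, h2, h3⟩
  exact ⟨a, b, h1, h2.trans h, h3⟩

theorem span1 (z : RA Γ × V →₀ ℤ) : ∃ n, z ∈ F1 n := by
  induction z using Finsupp.induction_linear with
  | zero => exact ⟨0, Submodule.zero_mem _⟩
  | add x y hx hy =>
    obtain ⟨m, hm⟩ := hx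
    obtain ⟨n, hn⟩ := hy
    exact ⟨max m n, Submodule.add_mem _ (KH1_mono (le_max_left m n) hm)
      (KH1_mono (le_max_right m n) hn)⟩
  | single p c =>
    obtain ⟨a, v⟩ := p
    refine ⟨len (KH1_ta a v), ?_⟩
    have h1 : T1 (KH1_ta a v) (KH1_be a v) ∈ F1 (len (KH1_ta a v)) :=
      Submodule.subset_span ⟨_, _, KH1_rt a v, le_rfl, rfl⟩
    have h2 : Finsupp.single (a, v) c = (c * sn (KH1_be a v)) • T1 (KH1_ta a v) (KH1_be a v) := by
      rw [T1, KH1_lo, KH1_fst, smul_smul, mul_assoc, KH1_sn, mul_one, s1, Finsupp.smul_single,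
        smul_eq_mul, mul_one]
    rw [h2]
    exact Submodule.smul_mem _ _ h1

end Kz

end NBT
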