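import Pool.Agent.Lib.MP_83fbc5_gt.Basic

/-!
# MP_83fbc5_gt, module LA2: rank of a block triangular matrix

PROOF. Let `T = fromBlocks A B 0 D`, so `(k, p) T = (k A, k B + p D)`. The projection of the range of `T` to the first component
is the range of `A`; the kernel `K` of this projection consists of the pairs `(0, q)` in the range. It contains all `(0, p D)`
(take `k = 0`), which gives the lower bound. By hypothesis `(0, q)` is killed by `fromBlocks A' B' 0 E`, i.e. `q E = 0`, so `K` embeds
in the kernel of `actM F E`, of dimension `card n2 * dim S - rkM F E`.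
(40-60 minutes)
-/

set_option autoImplicit false

namespace NBT

open Matrix Module

universe w

/-- the first component -/
private noncomputable def LA2_p1 (F : Type w) [Field F] (S : Type w) [Ring S] [Algebra F S] (n1 n2 : Type) :
    ((n1 ⊕ n2) → S) →ₗ[F] (n1 → S) where
  toFun u := u ∘ Sum.inl
  map_add' _ _ := rfl
  map_smul' _ _ := rfl

/-- the inclusion of the second component -/
private noncomputable def LA2_i2 (F : Type w) [Field F] (S : Type w) [Ring S] [Algebra F S] (n1 n2 : Type) :
    (n2 → S) →ₗ[F] ((n1 ⊕ n2) → S) where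
  toFun q := Sum.elim 0 q
  map_add' q r := by
    funext x
    rcases x with x | x
    · simp
    · simp
  map_smul' a q := by
    funext x
    rcases x with x | x
    · simp
    · simp

private theorem LA2_i2_apply (F : Type w) [Field F] (S : Type w) [Ring S] [Algebra F S] (n1 n2 : Type) (q : n2 → S) :
    LA2_i2 F S n1 n2 q = Sum.elim (0 : n1 → S) q := rfl

private theorem LA2_p1_apply (F : Type w) [Field F] (S : Type w) [Ring S] [Algebra F S] (n1 n2 : Type)
    (u : (n1 ⊕ n2) → S) : LA2_p1 F S n1 n2 u = u ∘ Sum.inl := rfl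

theorem rkM_block (F : Type w) [Field F] {S : Type w} [Ring S] [Algebra F S] [FiniteDimensional F S]
    {m1 m2 n1 n2 q1 q2 : Type} [Fintype m1] [Fintype m2] [Fintype n1] [Fintype n2]
    (A : Matrix m1 n1 S) (B : Matrix m1 n2 S) (D : Matrix m2 n2 S)
    (A' : Matrix n1 q1 S) (B' : Matrix n1 q2 S) (E : Matrix n2 q2 S)
    (h : fromBlocks A B 0 D * fromBlocks A' B' 0 E = 0) :
    rkM F A + rkM F D ≤ rkM F (fromBlocks A B 0 D) ∧
      (rkM F (fromBlocks A B 0 D) : ℤ) ≤ rkM F A + ((Fintype.card n2 * finrank F S : ℕ) - rkM F E) := by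
  classical
  set R := LinearMap.range (actM F (fromBlocks A B 0 D)) with hR
  set K2 := R.comap (LA2_i2 F S n1 n2) with hK2
  have hinj : Function.Injective (LA2_i2 F S n1 n2) := by
    intro q r hqr
    funext x
    have := congrFun hqr (Sum.inr x)
    exact this
  -- the range of the first projection on `R`
  have hrange : LinearMap.range ((LA2_p1 F S n1 n2) ∘ₗ R.subtype) = LinearMap.range (actM F A) := by
    rw [LinearMap.range_comp, Submodule.range_subtype]
    ext y
    constructor
    · rintro ⟨x, ⟨u, rfl⟩, rfl⟩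
      refine ⟨u ∘ Sum.inl, ?_⟩
      rw [actM_apply, actM_apply, Matrix.vecMul_fromBlocks, LA2_p1_apply, Sum.elim_comp_inl,
        Matrix.vecMul_zero, add_zero]
    · rintro ⟨u, rfl⟩
      refine ⟨actM F (fromBlocks A B 0 D) (Sum.elim u 0), ⟨_, rfl⟩, ?_⟩
      rw [actM_apply, actM_apply, Matrix.vecMul_fromBlocks, LA2_p1_apply, Sum.elim_comp_inl,
        Matrix.vecMul_zero, add_zero, Sum.elim_comp_inl]
  have hker : finrank F (LinearMap.ker ((LA2_p1 F S n1 n2) ∘ₗ R.subtype)) = finrank F K2 := by
    have h1 : LinearMap.ker ((LA2_p1 F S n1 n2) ∘ₗ R.subtype) =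
        Submodule.comap R.subtype (LinearMap.ker (LA2_p1 F S n1 n2)) := by
      rw [LinearMap.ker_comp]
    have h2 : Submodule.map R.subtype (Submodule.comap R.subtype (LinearMap.ker (LA2_p1 F S n1 n2))) =
        Submodule.map (LA2_i2 F S n1 n2) K2 := by
      rw [Submodule.map_comap_eq, Submodule.range_subtype, hK2, Submodule.map_comap_eq]
      have h3 : LinearMap.ker (LA2_p1 F S n1 n2) = LinearMap.range (LA2_i2 F S n1 n2) := by
        ext x
        constructor
        · intro hx
          rw [LinearMap.mem_ker] at hx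
          refine ⟨x ∘ Sum.inr, ?_⟩
          funext y
          rcases y with y | y
          · exact (congrFun hx y).symm
          · rfl
        · rintro ⟨q, rfl⟩
          rw [LinearMap.mem_ker]
          rfl
      rw [h3, inf_comm]
    rw [h1, ← Submodule.finrank_map_subtype_eq, h2]
    exact (Submodule.equivMapOfInjective _ hinj K2).finrank_eq.symm
  have htot : finrank F R = rkM F A + finrank F K2 := by
    have h1 := LinearMap.finrank_range_add_finrank_ker ((LA2_p1 F S n1 n2) ∘ₗ R.subtype)
    rw [hrange, hker] at h1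
    exact h1.symm
  have hlow : LinearMap.range (actM F D) ≤ K2 := by
    rintro _ ⟨p, rfl⟩
    refine ⟨Sum.elim 0 p, ?_⟩
    rw [actM_apply, actM_apply, Matrix.vecMul_fromBlocks, LA2_i2_apply, Sum.elim_comp_inl,
      Sum.elim_comp_inr, Matrix.zero_vecMul, Matrix.zero_vecMul, Matrix.vecMul_zero, zero_add,
      zero_add]
  have hup : K2 ≤ LinearMap.ker (actM F E) := by
    rintro q ⟨u, hu⟩
    rw [LinearMap.mem_ker, actM_apply]
    rw [actM_apply] at hu
    have h1 : (u ᵥ* fromBlocks A B 0 D) ᵥ* fromBlocks A' B' 0 E = 0 := by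
      rw [Matrix.vecMul_vecMul, h, Matrix.vecMul_zero]
    rw [hu, Matrix.vecMul_fromBlocks, LA2_i2_apply, Sum.elim_comp_inl, Sum.elim_comp_inr,
      Matrix.zero_vecMul, Matrix.zero_vecMul, Matrix.vecMul_zero, zero_add, zero_add] at h1
    funext j
    exact congrFun h1 (Sum.inr j)
  have hE := LinearMap.finrank_range_add_finrank_ker (actM F E)
  have hn2 : finrank F (n2 → S) = Fintype.card n2 * finrank F S := by
    rw [Module.finrank_pi_fintype]
    simp
  have h1 : finrank F (LinearMap.range (actM F D)) ≤ finrank F K2 := Submodule.finrank_mono hlow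
  have h2 : finrank F K2 ≤ finrank F (LinearMap.ker (actM F E)) := Submodule.finrank_mono hup
  have hT : rkM F (fromBlocks A B 0 D) = rkM F A + finrank F K2 := htot
  have hDd : rkM F D = finrank F (LinearMap.range (actM F D)) := rfl
  have hEd : rkM F E = finrank F (LinearMap.range (actM F E)) := rfl
  rw [hn2] at hE
  constructor
  · rw [hT, hDd]
    omega
  · rw [hT, hEd]
    push_cast
    have h3 : ((finrank F (LinearMap.range (actM F E)) : ℤ) +
        finrank F (LinearMap.ker (actM F E))) = Fintype.card n2 * finrank F S := by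
      exact_mod_cast hE
    have h4 : (finrank F K2 : ℤ) ≤ finrank F (LinearMap.ker (actM F E)) := by exact_mod_cast h2
    linarith

end NBT
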