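import Pool.Agent.Lib.MP_83fbc5_gt.SDefs
import Pool.Agent.Lib.MP_83fbc5_gt.Basic

/-!
# MP_83fbc5_gt, module PHI1: the Koszul matrices and the boundary matrices

`P1`, `P2`, `P3` are the diagonal entries `∏ (1 - X v)` over the vertices of a clique.

PROOF. `iH_om`: `iH h * X (k, i) = X (h * k, i) * iH h` in `GG` (`SemidirectProduct.inl_aut`: `inl (phi h x) = inr h * inl x * inr h⁻¹`, `phi_gen`), so
`el (iH h) * om (k, i) = om (h * k, i) * el (iH h)`. `om_comm`: the generators of adjacent vertices commute (`gen_comm`). Matrix identities row by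
row (`ext p`, rows are combinations of `Pi.single`; left side: `Pi.single q s ᵥ* diagonal = Pi.single q (s * P q)`).
`K2`: row `(i, j)`, `g = g i j`: `om(1,i) iH g om(1,j) e_j - om(g,j) om(1,i) e_i = om(1,i) om(g,j) (iH g e_j - e_i)`.
`K3`: row `(i, j, k)`: `om(1,i) iH(g) om(1,j) om(g jk, k) e_jk - om(g, j) om(1,i) om(g ik, k) e_ik + om(g ik, k) om(1,i) om(g, j) e_ij`
`= om(1,i) om(g,j) om(g ik, k) (iH g e_jk - e_ik + e_ij)` with `g ik = g * g jk` (`coh`). Here `bd2.map (ind iH)` has rows `Pi.single j (el (iH g)) - Pi.single i 1` (`ind_el`).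
(50-75 minutes)
-/

set_option autoImplicit false

namespace NBT

open Matrix RaagIso

namespace VG

variable {H : Type} [Group H] (L : VG H)

noncomputable def P1 (i : L.I) : MonoidAlgebra ℤ L.GG := L.om (1, i)

noncomputable def P2 (p : L.J2) : MonoidAlgebra ℤ L.GG := L.om (1, p.1.1) * L.om (L.g p.1.1 p.1.2, p.1.2)

noncomputable def P3 (p : L.J3) : MonoidAlgebra ℤ L.GG :=
  L.om (1, p.1.1) * L.om (L.g p.1.1 p.1.2.1, p.1.2.1) * L.om (L.g p.1.1 p.1.2.2, p.1.2.2)

theorem iH_om (h k : H) (i : L.I) : el (L.iH h) * L.om (k, i) = L.om (h * k, i) * el (L.iH h) := by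
  have h1 : L.iH h * L.X (k, i) = L.X (h * k, i) * L.iH h := by
    have h2 : L.X (h * k, i) = L.iH h * L.X (k, i) * L.iH h⁻¹ := by
      unfold X
      rw [← L.phi_gen h (k, i)]
      exact SemidirectProduct.inl_aut h (gen (k, i))
    rw [h2, map_inv, inv_mul_cancel_right]
  unfold om
  rw [mul_sub, sub_mul, mul_one, one_mul, ← el_mul, ← el_mul, h1]

theorem om_comm {v w : H × L.I} (h : L.gr.Adj v w) : L.om v * L.om w = L.om w * L.om v := by
  have h1 : L.X v * L.X w = L.X w * L.X v := by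
    unfold X
    rw [← map_mul, ← map_mul, gen_comm h]
  unfold om
  rw [mul_sub, sub_mul, sub_mul, mul_sub, sub_mul, sub_mul, ← el_mul, ← el_mul, h1]
  simp only [mul_one, one_mul]
  abel

theorem K2_mul : L.K2 * Matrix.diagonal L.P1 = Matrix.diagonal L.P2 * L.bd2.map (ind L.iH) := by
  ext1 p j
  rw [Matrix.mul_diagonal, Matrix.diagonal_mul]
  simp only [K2, bd2, Matrix.of_apply, Matrix.map_apply, Pi.sub_apply, map_sub, sub_mul, mul_sub,
    P1, P2]
  have hadj : L.gr.Adj (1, p.1.1) (L.g p.1.1 p.1.2, p.1.2) := Or.inl ⟨p.2, (one_mul _).symm⟩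
  congr 1
  · rw [Pi.single_apply, Pi.single_apply]
    split_ifs with hj
    · subst hj
      rw [ind_el, mul_assoc, L.iH_om, mul_one, mul_assoc]
    · rw [zero_mul, map_zero, mul_zero]
  · rw [Pi.single_apply, Pi.single_apply]
    split_ifs with hj
    · subst hj
      rw [map_one, mul_one, L.om_comm hadj]
    · rw [zero_mul, map_zero, mul_zero]

theorem K3_mul : L.K3 * Matrix.diagonal L.P2 = Matrix.diagonal L.P3 * L.bd3.map (ind L.iH) := by
  ext1 p q
  rw [Matrix.mul_diagonal, Matrix.diagonal_mul]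
  simp only [K3, bd3, Matrix.of_apply, Matrix.map_apply, Pi.sub_apply, Pi.add_apply, map_sub,
    map_add, sub_mul, mul_sub, add_mul, mul_add]
  have hij : L.R p.1.1 p.1.2.1 := p.2.1
  have hjk : L.R p.1.2.1 p.1.2.2 := p.2.2
  have hik : L.R p.1.1 p.1.2.2 := L.trans _ _ _ hij hjk
  have hg : L.g p.1.1 p.1.2.2 = L.g p.1.1 p.1.2.1 * L.g p.1.2.1 p.1.2.2 := L.coh _ _ _ hij hjk
  have a1 : L.gr.Adj (1, p.1.1) (L.g p.1.1 p.1.2.1, p.1.2.1) := Or.inl ⟨hij, (one_mul _).symm⟩
  have a2 : L.gr.Adj (1, p.1.1) (L.g p.1.1 p.1.2.2, p.1.2.2) := Or.inl ⟨hik, (one_mul _).symm⟩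
  have a3 : L.gr.Adj (L.g p.1.1 p.1.2.1, p.1.2.1) (L.g p.1.1 p.1.2.2, p.1.2.2) :=
    Or.inl ⟨hjk, hg⟩
  congr 1
  · congr 1
    · rw [Pi.single_apply, Pi.single_apply]
      split_ifs with hq
      · subst hq
        rw [ind_el]
        change L.om (1, p.1.1) * el (L.iH (L.g p.1.1 p.1.2.1)) *
          (L.om (1, p.1.2.1) * L.om (L.g p.1.2.1 p.1.2.2, p.1.2.2)) =
          L.om (1, p.1.1) * L.om (L.g p.1.1 p.1.2.1, p.1.2.1) *
            L.om (L.g p.1.1 p.1.2.2, p.1.2.2) * el (L.iH (L.g p.1.1 p.1.2.1))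
        rw [mul_assoc, ← mul_assoc (el (L.iH (L.g p.1.1 p.1.2.1))), L.iH_om, mul_one,
          mul_assoc (L.om (L.g p.1.1 p.1.2.1, p.1.2.1)), L.iH_om, ← hg]
        simp only [mul_assoc]
      · rw [zero_mul, map_zero, mul_zero]
    · rw [Pi.single_apply, Pi.single_apply]
      split_ifs with hq
      · subst hq
        rw [map_one, mul_one]
        change L.om (L.g p.1.1 p.1.2.1, p.1.2.1) *
          (L.om (1, p.1.1) * L.om (L.g p.1.1 p.1.2.2, p.1.2.2)) =
          L.om (1, p.1.1) * L.om (L.g p.1.1 p.1.2.1, p.1.2.1) *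
            L.om (L.g p.1.1 p.1.2.2, p.1.2.2)
        rw [← mul_assoc, L.om_comm a1]
      · rw [zero_mul, map_zero, mul_zero]
  · rw [Pi.single_apply, Pi.single_apply]
    split_ifs with hq
    · subst hq
      rw [map_one, mul_one]
      change L.om (L.g p.1.1 p.1.2.2, p.1.2.2) *
        (L.om (1, p.1.1) * L.om (L.g p.1.1 p.1.2.1, p.1.2.1)) =
        L.om (1, p.1.1) * L.om (L.g p.1.1 p.1.2.1, p.1.2.1) *
          L.om (L.g p.1.1 p.1.2.2, p.1.2.2)
      rw [← mul_assoc, ← L.om_comm a2, mul_assoc, ← L.om_comm a3, mul_assoc]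
    · rw [zero_mul, map_zero, mul_zero]

end VG

end NBT
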