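import Pool.Agent.Lib.MP_83fbc5_gt.SDefs

/-!
# MP_83fbc5_gt, QM: the homomorphism to the group of the quotient graph (proved)
-/

set_option autoImplicit false

namespace NBT

open RaagIso

namespace VG

variable {H : Type} [Group H] (L : VG H) {H' : Type} [Group H'] (f : H →* H')

theorem exists_qm : ∃ F : RA L.gr →* RA (L.map f).gr,
    ∀ v : H × L.I, F (gen v) = gen ((f v.1, v.2) : H' × (L.map f).I) := by
  refine ra_lift (fun v : H × L.I => (gen ((f v.1, v.2) : H' × (L.map f).I) : RA (L.map f).gr))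
    fun v w h => gen_comm ?_
  rcases h with ⟨h1, h2⟩ | ⟨h1, h2⟩
  · exact Or.inl ⟨h1, by show f w.1 = f v.1 * f _; rw [h2, map_mul]⟩
  · exact Or.inr ⟨h1, by show f v.1 = f w.1 * f _; rw [h2, map_mul]⟩

/-- the map of the right-angled Artin groups -/
noncomputable def qm : RA L.gr →* RA (L.map f).gr := (L.exists_qm f).choose

theorem qm_gen (v : H × L.I) : L.qm f (gen v) = gen ((f v.1, v.2) : H' × (L.map f).I) :=
  (L.exists_qm f).choose_spec v

theorem qm_phi (h : H) (a : RA L.gr) : L.qm f (L.phi h a) = (L.map f).phi (f h) (L.qm f a) := by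
  have e : (L.qm f).comp (L.phi h).toMonoidHom = ((L.map f).phi (f h)).toMonoidHom.comp (L.qm f) := by
    apply ra_ext
    intro v
    show L.qm f (L.phi h (gen v)) = (L.map f).phi (f h) (L.qm f (gen v))
    rw [phi_gen, qm_gen, qm_gen, phi_gen, map_mul]
  exact DFunLike.congr_fun e a

end VG

end NBT
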