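import Pool.Agent.Lib.MP_83fbc5_gt.SPL2
import Pool.Agent.Lib.MP_83fbc5_gt.LA2
import Pool.Agent.Lib.MP_83fbc5_gt.BET

/-!
# MP_83fbc5_gt, module SPL3: Betti numbers of the spliced resolution

PROOF. Take `T1 T2 T3` from `splice_theta` and `T` from `splice_exists`. By `betti_succ` for `T`: `betti T 2 = card (T.ι 2) * index - rk (T.d 1) - rk (T.d 2)` and
`betti T 3 = card (T.ι 3) * index - rk (T.d 2) - rk (T.d 3)`. Let `p n = rk (d n)`. By `rkM_block` (after mapping to `F[G/N]`, `Matrix.map_mul`,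
`Matrix.fromBlocks_map`) applied to the products `fromBlocks D3 T3 0 (d 2) * fromBlocks D2 T2 0 (d 1) = 0` and
`fromBlocks D2 T2 0 (d 1) * fromBlocks (0 : Matrix J1 Empty) T1 0 (d 0) = 0` (`Matrix.fromBlocks_multiply`; `D3 * D2 = 0`, `d 2 * d 1 = 0` from `k2`, `p` applied to rows):
`rk D2 + p 1 ≤ rk (T.d 1) ≤ rk D2 + (card (ι 1) * index - p 0)`, `rk D3 + p 2 ≤ rk (T.d 2) ≤ rk D3 + (card (ι 2) * index - p 1)`, `rk (T.d 3) = p 3`.
The claims follow by linear arithmetic (`abs_le`, `omega`/`linarith`), using `0 ≤ card (ι 3) * index - p 2 - p 3` and `0 ≤ card (ι n) * index - ..` as well: the last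
follows from `d 3 * d 2 = 0`, i.e. range of `d 3` inside the kernel of `d 2`.
(50-75 minutes)
-/

set_option autoImplicit false

namespace NBT

open Matrix

universe w

theorem spl3_block (F : Type w) [Field F] {G : Type} [Group G] (N : Subgroup G) [N.Normal] [N.FiniteIndex]
    {m1 m2 n1 n2 q1 q2 : Type} [Fintype m1] [Fintype m2] [Fintype n1] [Fintype n2]
    (A : Matrix m1 n1 (MonoidAlgebra ℤ G)) (B : Matrix m1 n2 (MonoidAlgebra ℤ G)) (D : Matrix m2 n2 (MonoidAlgebra ℤ G))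
    (A' : Matrix n1 q1 (MonoidAlgebra ℤ G)) (B' : Matrix n1 q2 (MonoidAlgebra ℤ G))
    (E : Matrix n2 q2 (MonoidAlgebra ℤ G)) (h : fromBlocks A B 0 D * fromBlocks A' B' 0 E = 0) :
    rk F N A + rk F N D ≤ rk F N (fromBlocks A B 0 D) ∧
      (rk F N (fromBlocks A B 0 D) : ℤ) ≤ rk F N A + ((Fintype.card n2 * N.index : ℕ) - rk F N E) := by
  have e1 : (fromBlocks A B 0 D).map (toQ F N) = fromBlocks (A.map (toQ F N)) (B.map (toQ F N)) 0 (D.map (toQ F N)) := by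
    rw [fromBlocks_map, Matrix.map_zero _ (map_zero _)]
  have e2 : (fromBlocks A' B' 0 E).map (toQ F N) =
      fromBlocks (A'.map (toQ F N)) (B'.map (toQ F N)) 0 (E.map (toQ F N)) := by
    rw [fromBlocks_map, Matrix.map_zero _ (map_zero _)]
  have h1 : fromBlocks (A.map (toQ F N)) (B.map (toQ F N)) 0 (D.map (toQ F N)) *
      fromBlocks (A'.map (toQ F N)) (B'.map (toQ F N)) 0 (E.map (toQ F N)) = 0 := by
    rw [← e1, ← e2, ← Matrix.map_mul, h, Matrix.map_zero _ (map_zero _)]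
  have h2 := rkM_block F (A.map (toQ F N)) (B.map (toQ F N)) (D.map (toQ F N)) (A'.map (toQ F N)) (B'.map (toQ F N))
    (E.map (toQ F N)) h1
  rw [← e1, finrank_Q] at h2
  exact h2

theorem spl3_le (F : Type w) [Field F] {G : Type} [Group G] (N : Subgroup G) [N.Normal] [N.FiniteIndex]
    {m n q : Type} [Fintype m] [Fintype n] (A : Matrix m n (MonoidAlgebra ℤ G)) (B : Matrix n q (MonoidAlgebra ℤ G))
    (h : A * B = 0) : rk F N A + rk F N B ≤ Fintype.card n * N.index := by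
  have h1 := rk_add_ker F N B
  have h2 : LinearMap.range (actM F (A.map (toQ F N))) ≤ LinearMap.ker (actM F (B.map (toQ F N))) := by
    rintro _ ⟨u, rfl⟩
    rw [LinearMap.mem_ker, ← LinearMap.comp_apply, ← actM_mul, ← Matrix.map_mul, h,
      Matrix.map_zero _ (map_zero _), actM_apply, Matrix.vecMul_zero]
  have h3 := Submodule.finrank_mono h2
  have h4 : rk F N A = Module.finrank F (LinearMap.range (actM F (A.map (toQ F N)))) := rfl
  omega

theorem splice (F : Type w) [Field F] {G : Type} [Group G] {D : ℕ} (hD : 3 ≤ D) {J1 J2 J3 M : Type} [Fintype J1]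
    [Fintype J2] [Fintype J3] [AddCommGroup M] (act : G → M → M)
    (D2 : Matrix J2 J1 (MonoidAlgebra ℤ G)) (D3 : Matrix J3 J2 (MonoidAlgebra ℤ G))
    (eK : (J1 → MonoidAlgebra ℤ G) →+ M) (hK : ∀ g u, eK (el g • u) = act g (eK u))
    (aM : M → ℤ) (k0 : ∀ m, aM m = 0 ↔ ∃ u, eK u = m)
    (k1 : ∀ u, eK u = 0 ↔ ∃ v, v ᵥ* D2 = u) (k2 : ∀ u, u ᵥ* D2 = 0 ↔ ∃ v, v ᵥ* D3 = u)
    (k3 : ∀ u, u ᵥ* D3 = 0 → u = 0)
    (ι : ℕ → Type) [∀ n, Fintype (ι n)] (hlen : ∀ n, D < n → IsEmpty (ι n))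
    (d : ∀ n, Matrix (ι (n + 1)) (ι n) (MonoidAlgebra ℤ G)) (aug : ι 0 → ℤ)
    (eP : (ι 0 → MonoidAlgebra ℤ G) →+ M) (hP : ∀ g u, eP (el g • u) = act g (eP u))
    (hPs : Function.Surjective eP) (haug : ∀ u, aM (eP u) = ∑ i, eps G (u i) * aug i)
    (hs : ∃ u : ι 0 → MonoidAlgebra ℤ G, ∑ i, eps G (u i) * aug i = 1)
    (p0 : ∀ u, eP u = 0 ↔ ∃ v, v ᵥ* d 0 = u)
    (p : ∀ n (u : ι (n + 1) → MonoidAlgebra ℤ G), u ᵥ* d n = 0 ↔ ∃ v, v ᵥ* d (n + 1) = u) :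
    ∃ T : FFR G D, ∀ (N : Subgroup G) [N.Normal] [N.FiniteIndex],
      |(betti F T N 2 : ℤ) - (Fintype.card J2 * N.index - rk F N D2 - rk F N D3)| ≤
        (Fintype.card (ι 1) * N.index - rk F N (d 0) - rk F N (d 1)) +
          (Fintype.card (ι 2) * N.index - rk F N (d 1) - rk F N (d 2)) ∧
      |(betti F T N 3 : ℤ) - (Fintype.card J3 * N.index - rk F N D3)| ≤
        (Fintype.card (ι 2) * N.index - rk F N (d 1) - rk F N (d 2)) +
          (Fintype.card (ι 3) * N.index - rk F N (d 2) - rk F N (d 3)) := by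
  classical
  obtain ⟨T1, T2, T3, t1, t2, t3⟩ := splice_theta act D2 D3 eK hK k1 k2 ι d eP hP hPs p0 p
  obtain ⟨T, c2, c3, hr⟩ := splice_exists F hD D2 D3 eK aM k0 k1 k2 k3 ι hlen d aug eP haug hs p0 p T1 T2 T3 t1 t2 t3
  refine ⟨T, ?_⟩
  intro N _ _
  obtain ⟨r1, r2, r3⟩ := hr N
  have b2 := betti_succ F T N 1
  have b3 := betti_succ F T N 2
  have e32 : D3 * D2 = 0 := spl2_mul_zero _ _ fun v => (k2 _).2 ⟨v, rfl⟩
  have e10 : d 1 * d 0 = 0 := spl2_mul_zero _ _ fun v => (p 0 _).2 ⟨v, rfl⟩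
  have e21 : d 2 * d 1 = 0 := spl2_mul_zero _ _ fun v => (p 1 _).2 ⟨v, rfl⟩
  have e3 : d 3 * d 2 = 0 := spl2_mul_zero _ _ fun v => (p 2 _).2 ⟨v, rfl⟩
  have q1 := spl3_block F N D2 T2 (d 1) (0 : Matrix J1 Empty (MonoidAlgebra ℤ G)) T1 (d 0) (by
    rw [fromBlocks_multiply, t2, e10]
    simp)
  have q2 := spl3_block F N D3 T3 (d 2) D2 T2 (d 1) (by
    rw [fromBlocks_multiply, e32, t3, e21]
    simp)
  have q3 := spl3_le F N (d 3) (d 2) e3
  rw [← r1] at q1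
  rw [← r2] at q2
  rw [← r3] at q3
  rw [c2] at b2
  rw [c3] at b3
  rw [← r3]
  zify at b2 b3 q1 q2 q3
  obtain ⟨u1, v1⟩ := q1
  obtain ⟨u2, v2⟩ := q2
  refine ⟨?_, ?_⟩
  · rw [abs_le]
    constructor <;> linarith
  · rw [abs_le]
    constructor <;> linarith

end NBT
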