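import Pool.Agent.Lib.MP_83fbc5_gt.KG3
import Pool.Agent.Lib.MP_83fbc5_gt.EQV
import Pool.Agent.Lib.MP_83fbc5_gt.IND
import Pool.Agent.Lib.MP_83fbc5_gt.SPL3

/-!
# MP_83fbc5_gt, module RESG: the resolution of `GG = RA ⋊ H`

PROOF. Apply `splice` with `M = (RA L.gr →₀ ℤ)`, `act = L.aM`, `D2 = L.K2`, `D3 = L.K3`, `eK = AddMonoidHom.mk' L.eK L.eK_add`, `aM = augM`,
`ι = R.ι`, `d n = (R.d n).map (ind L.iH)`, `eP = AddMonoidHom.mk' (eP left R.aug) (eP_add ..)`. The hypotheses: `K_exact0 .. K_exact3`, `eK_smul`, `eP_smul`, `augM_eP`, `ind_exact`,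
`ind_exact0`, `ind_surj` (with `π = SemidirectProduct.left`, `left_iff`, `f = L.iH` injective by `SemidirectProduct.inr_injective`), `hs`: the vector
`fun i => ind L.iH (u i)` with `u` from `R.surj` (`eps (ind f x) = eps x`).
(30-45 minutes)
-/

set_option autoImplicit false

namespace NBT

open Matrix RaagIso

universe w

theorem res_GG (F : Type w) [Field F] {H : Type} [Group H] (L : VG H) {D : ℕ} (hD : 3 ≤ D) (R : FFR H D) :
    ∃ T : FFR L.GG D, ∀ (N : Subgroup L.GG) [N.Normal] [N.FiniteIndex],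
      |(betti F T N 2 : ℤ) - (Fintype.card L.J2 * N.index - rk F N L.K2 - rk F N L.K3)| ≤
        (Fintype.card (R.ι 1) * N.index - rk F N ((R.d 0).map (ind L.iH)) - rk F N ((R.d 1).map (ind L.iH))) +
          (Fintype.card (R.ι 2) * N.index - rk F N ((R.d 1).map (ind L.iH)) - rk F N ((R.d 2).map (ind L.iH))) ∧
      |(betti F T N 3 : ℤ) - (Fintype.card L.J3 * N.index - rk F N L.K3)| ≤
        (Fintype.card (R.ι 2) * N.index - rk F N ((R.d 1).map (ind L.iH)) - rk F N ((R.d 2).map (ind L.iH))) +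
          (Fintype.card (R.ι 3) * N.index - rk F N ((R.d 2).map (ind L.iH)) - rk F N ((R.d 3).map (ind L.iH))) := by
  have hinj : Function.Injective L.iH := SemidirectProduct.inr_injective
  have hπ : ∀ g g' : L.GG, g.left = g'.left ↔ ∃ h : H, g' = g * L.iH h := L.left_iff
  have hπs : Function.Surjective (SemidirectProduct.left : L.GG → RA L.gr) := fun a => ⟨⟨a, 1⟩, rfl⟩
  have heps : ∀ x : MonoidAlgebra ℤ H, eps L.GG (ind L.iH x) = eps H x := by
    intro x
    refine zg_ind (P := fun x => eps L.GG (ind L.iH x) = eps H x) ?_ ?_ ?_ ?_ x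
    · simp
    · intro h
      rw [ind_el, eps_el, eps_el]
    · intro x y hx hy
      rw [map_add, map_add, map_add, hx, hy]
    · intro x hx
      rw [map_neg, map_neg, map_neg, hx]
  exact splice F hD L.aM L.K2 L.K3 (AddMonoidHom.mk' L.eK L.eK_add) L.eK_smul augM L.K_exact0 L.K_exact1
    L.K_exact2 L.K_exact3 R.ι R.len (fun n => (R.d n).map (ind L.iH)) R.aug
    (AddMonoidHom.mk' (eP (SemidirectProduct.left : L.GG → RA L.gr) R.aug) (eP_add _ _)) (L.eP_smul R.aug)
    (ind_surj L.iH _ hπs hπ R.aug R.surj) (augM_eP _ _)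
    (by
      obtain ⟨u, hu⟩ := R.surj
      exact ⟨fun i => ind L.iH (u i), by simpa only [heps] using hu⟩)
    (ind_exact0 L.iH hinj _ hπ R.aug (R.d 0) R.exact0)
    (fun n => ind_exact L.iH hinj (R.d n) (R.d (n + 1)) (R.exact n))

end NBT
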