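import Mathlib
import Pool.Agent.Lib.MP_32d917_al_raag.W03

/-!
# MP_83fbc5_gt, module RF1: suffixes of an element of a right-angled Artin group

`Sf x` is the set of suffixes `y` of `x`: `len x = len (x y⁻¹) + len y` (`rp_len`).

PROOF. `sf_finite`: for `y ∈ Sf x`, `sup y ⊆ sup x` (`sup_mul`) and `len y ≤ len x`, so `y = ev l` for a word `l` (`exists_wr`, `wr_iff_len`, `sup_ev`) of length `≤ len x` in the finite
alphabet `sup x × Bool` (`sup x` is finite: `sup_ev`); the set of words of bounded length over a finite set is finite (`List.finite_length_le`, image under `ev`).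
`sf_iff` (for `y ∈ Sf x`): if `Lf y (ivl b)` then `gl b * y` is shorter by one than `y` (`len_lf`, `gl_ivl`), a suffix of `y`, so
`len x ≤ len (x y⁻¹ (gl b)⁻¹) + len (gl b * y) ≤ len (x y⁻¹) + 1 + len y - 1 = len x`, equality. If not, `len (gl b * y) = len y + 1` (`len_nlf`) and `gl b * y ∈ Sf x` iff
`len (x * y⁻¹ * (gl b)⁻¹) + 1 = len (x * y⁻¹)` iff `Rt (x * y⁻¹) b` (`len_rt`, `len_nrt`). (Triangle inequality for `len`: `len_le` of a concatenation.)
`sf_adj`: by `sf_iff` twice and: for adjacent `b.1, c.1`, `Lf (gl b * y) (ivl c) ↔ Lf y (ivl c)` and `Rt (z * (gl b)⁻¹) c ↔ Rt z c`. Both follow from `nn_mul`: `Lf z a` is `NN a.1 z (cw a) ≠ 0`,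
`NN s (gl b * y) z = NN s (gl b) z + NN s y ((gl b)⁻¹ * z)`, first term zero for `s ≠ b.1` (`nn_pp`), `z = cw a` commutes with `gl b` and `nn_coset`.
`sf_word`: if `WR (m ++ l)`, then `len (ev (m ++ l)) = m.length + l.length` and `m`, `l` are reduced (`wr_append`, `len_wr`), so `rp_len`.
(60-80 minutes)
-/

set_option autoImplicit false

namespace NBT

open RaagIso

variable {V : Type} {Γ : SimpleGraph V}

def Sf (x : RA Γ) : Set (RA Γ) := {y | Rp (x * y⁻¹) y}

theorem RF1_mem {x y : RA Γ} : y ∈ Sf x ↔ len x = len (x * y⁻¹) + len y := by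
  change Rp (x * y⁻¹) y ↔ _
  rw [rp_len, inv_mul_cancel_right]

theorem RF1_tri (x y : RA Γ) : len (x * y) ≤ len x + len y := by
  obtain ⟨l, rfl, hl⟩ := exists_wr x
  obtain ⟨m, rfl, hm⟩ := exists_wr y
  rw [← ev_append, len_wr hl, len_wr hm, ← List.length_append]
  exact len_le _

theorem RF1_gl (a : V × Bool) : len (gl a : RA Γ) ≤ 1 := by
  have h := len_le (Γ := Γ) [a]
  rwa [ev_cons, ev_nil, mul_one] at h

theorem RF1_fin (x : RA Γ) : (sup x).Finite := by
  obtain ⟨l, rfl, hl⟩ := exists_wr x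
  refine ((List.finite_toSet l).image Prod.fst).subset ?_
  intro s hs
  obtain ⟨c, hc, h⟩ := (sup_ev hl s).1 hs
  exact ⟨c, hc, h⟩

theorem sf_finite (x : RA Γ) : (Sf x).Finite := by
  have hS : Finite {c : V × Bool // c.1 ∈ sup x} := by
    have h : ({c : V × Bool | c.1 ∈ sup x}).Finite := by
      refine ((RF1_fin x).prod (Set.finite_univ (α := Bool))).subset ?_
      rintro ⟨v, b⟩ hv
      exact ⟨hv, Set.mem_univ _⟩
    exact h.to_subtype
  refine ((List.finite_length_le {c : V × Bool // c.1 ∈ sup x} (len x)).image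
    (fun l => (ev (l.map Subtype.val) : RA Γ))).subset ?_
  intro y hy
  have h1 : len x = len (x * y⁻¹) + len y := RF1_mem.1 hy
  have h2 : sup y ⊆ sup x := by
    have h3 := sup_mul (x := x * y⁻¹) (y := y) hy
    rw [inv_mul_cancel_right] at h3
    rw [h3]
    exact Set.subset_union_right
  obtain ⟨l, rfl, hl⟩ := exists_wr y
  have h4 : ∀ c ∈ l, c.1 ∈ sup x := fun c hc => h2 ((sup_ev hl c.1).2 ⟨c, hc, rfl⟩)
  refine ⟨l.attach.map (fun c => ⟨c.1, h4 c.1 c.2⟩), ?_, ?_⟩
  · change (l.attach.map _).length ≤ len x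
    rw [List.length_map, List.length_attach, ← len_wr hl]
    omega
  · dsimp only
    rw [List.map_map]
    congr 1
    exact List.attach_map_subtype_val l

theorem sf_iff {x y : RA Γ} (hy : y ∈ Sf x) (b : V × Bool) :
    gl b * y ∈ Sf x ↔ Lf y (ivl b) ∨ Rt (x * y⁻¹) b := by
  have h1 : len x = len (x * y⁻¹) + len y := RF1_mem.1 hy
  have e1 : x * (gl b * y)⁻¹ = x * y⁻¹ * (gl b)⁻¹ := by group
  have h2 : len x ≤ len (x * y⁻¹ * (gl b)⁻¹) + len (gl b * y) := by
    have h := RF1_tri (x * y⁻¹ * (gl b)⁻¹) (gl b * y)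
    have e2 : x * y⁻¹ * (gl b)⁻¹ * (gl b * y) = x := by group
    rwa [e2] at h
  rw [RF1_mem, e1]
  by_cases hL : Lf y (ivl b)
  · have h3 := len_lf hL
    rw [gl_ivl, inv_inv] at h3
    have h4 := RF1_tri (x * y⁻¹) (gl b)⁻¹
    have h5 := RF1_gl (Γ := Γ) (ivl b)
    rw [gl_ivl] at h5
    constructor
    · intro _
      exact Or.inl hL
    · intro _
      omega
  · have h3 := len_nlf hL
    constructor
    · intro h
      right
      by_contra hR
      have h4 : ¬ Rt (x * y⁻¹) (ivl (ivl b)) := by rwa [ivl_ivl]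
      have h5 := len_nrt h4
      rw [gl_ivl] at h5
      omega
    · rintro (h | h)
      · exact absurd h hL
      · have h4 := len_rt h
        omega

theorem RF1_lf {y : RA Γ} {a b : V × Bool} (h : Γ.Adj a.1 b.1) :
    Lf (gl b * y) a ↔ Lf y a := by
  have hb : (gl b : RA Γ) ∈ PP Γ (lk Γ a.1) := gl_mem h
  have h1 : NN a.1 (gl b : RA Γ) (cw a) = 0 := by
    refine nn_pp (D := {b.1}) (gl_mem rfl) a.1 ?_ _
    intro h2
    rw [Set.mem_singleton_iff] at h2
    rw [h2] at h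
    exact Γ.irrefl h
  have h2 : (gl b : RA Γ)⁻¹ * cw a = cw a * (gl b)⁻¹ := by
    have h3 : (gl b : RA Γ) * cw a = cw a * gl b := by
      have h4 := lk_comm hb
      unfold cw
      split_ifs
      · rw [mul_one, one_mul]
      · rw [eq_comm, inv_mul_eq_iff_eq_mul, ← mul_assoc, h4, mul_inv_cancel_right]
    rw [inv_mul_eq_iff_eq_mul, ← mul_assoc, h3, mul_inv_cancel_right]
  unfold Lf
  rw [nn_mul, h1, zero_add, h2, nn_coset _ _ _ _ (inv_mem hb)]

theorem sf_adj {x y : RA Γ} {b c : V × Bool} (h : Γ.Adj b.1 c.1) (hy : y ∈ Sf x) (hb : gl b * y ∈ Sf x) :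
    gl c * y ∈ Sf x ↔ gl c * (gl b * y) ∈ Sf x := by
  have hc : Γ.Adj (ivl c).1 b.1 := h.symm
  have e1 : x * (gl b * y)⁻¹ = x * y⁻¹ * (gl b)⁻¹ := by group
  rw [sf_iff hy, sf_iff hb, RF1_lf hc, e1]
  unfold Rt
  rw [mul_inv_rev (x * y⁻¹), inv_inv (gl b), RF1_lf hc]

theorem sf_word {m l : List (V × Bool)} (h : WR Γ (m ++ l)) : (ev l : RA Γ) ∈ Sf (ev (m ++ l)) := by
  have h1 := (wr_append.1 h)
  have hl : WR Γ l := wr_mid (p := m) (l := l) (q := []) (by simpa using h)
  have h2 := (wr_app_iff h1.1 hl).1 h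
  change Rp (ev (m ++ l) * (ev l)⁻¹) (ev l)
  rwa [ev_append, mul_inv_cancel_right]

end NBT
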