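import Pool.Agent.Lib.MP_83fbc5_gt.CDefs

/-!
# MP_83fbc5_gt: the semidirect product and the Koszul matrices
-/

set_option autoImplicit false

namespace NBT

open Matrix RaagIso

namespace VG

variable {H : Type} [Group H] (L : VG H)

theorem adj_mul (h : H) {v w : H × L.I} (hvw : L.gr.Adj v w) :
    L.gr.Adj (h * v.1, v.2) (h * w.1, w.2) := by
  rcases hvw with ⟨h1, h2⟩ | ⟨h1, h2⟩
  · exact Or.inl ⟨h1, by show h * w.1 = h * v.1 * _; rw [h2, mul_assoc]⟩
  · exact Or.inr ⟨h1, by show h * v.1 = h * w.1 * _; rw [h2, mul_assoc]⟩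

theorem exists_sh (h : H) : ∃ F : RA L.gr →* RA L.gr, ∀ v, F (gen v) = gen (h * v.1, v.2) :=
  ra_lift (fun v => (gen (h * v.1, v.2) : RA L.gr)) fun _ _ hvw => gen_comm (L.adj_mul h hvw)

/-- the endomorphism of the right-angled Artin group induced by a translation -/
noncomputable def sh (h : H) : RA L.gr →* RA L.gr := (L.exists_sh h).choose

theorem sh_gen (h : H) (v : H × L.I) : L.sh h (gen v) = gen (h * v.1, v.2) := (L.exists_sh h).choose_spec v

theorem sh_one : L.sh 1 = MonoidHom.id _ := by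
  apply ra_ext
  intro v
  rw [sh_gen, one_mul, MonoidHom.id_apply]

theorem sh_mul (h k : H) : L.sh (h * k) = (L.sh h).comp (L.sh k) := by
  apply ra_ext
  intro v
  rw [sh_gen, MonoidHom.comp_apply, sh_gen, sh_gen, mul_assoc]

theorem sh_inv_cancel (h : H) (x : RA L.gr) : L.sh h⁻¹ (L.sh h x) = x := by
  rw [← MonoidHom.comp_apply, ← sh_mul, inv_mul_cancel, sh_one, MonoidHom.id_apply]

theorem sh_cancel_inv (h : H) (x : RA L.gr) : L.sh h (L.sh h⁻¹ x) = x := by
  rw [← MonoidHom.comp_apply, ← sh_mul, mul_inv_cancel, sh_one, MonoidHom.id_apply]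

/-- the automorphism of the right-angled Artin group induced by a translation -/
noncomputable def phiE (h : H) : MulAut (RA L.gr) where
  toFun := L.sh h
  invFun := L.sh h⁻¹
  left_inv := L.sh_inv_cancel h
  right_inv := L.sh_cancel_inv h
  map_mul' := map_mul _

theorem phiE_one : L.phiE 1 = 1 := by
  ext x
  show L.sh 1 x = x
  rw [sh_one, MonoidHom.id_apply]

theorem phiE_mul (h k : H) : L.phiE (h * k) = L.phiE h * L.phiE k := by
  ext x
  show L.sh (h * k) x = L.sh h (L.sh k x)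
  rw [sh_mul, MonoidHom.comp_apply]

/-- the action of `H` on the right-angled Artin group -/
noncomputable def phi : H →* MulAut (RA L.gr) where
  toFun := L.phiE
  map_one' := L.phiE_one
  map_mul' := L.phiE_mul

theorem phi_gen (h : H) (v : H × L.I) : L.phi h (gen v) = gen (h * v.1, v.2) := L.sh_gen h v

/-- the group `RA(gr) ⋊ H` -/
abbrev GG : Type := RA L.gr ⋊[L.phi] H

/-- the inclusion of `H` -/
noncomputable abbrev iH : H →* L.GG := SemidirectProduct.inr

/-- the generator at a vertex as an element of `GG` -/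
noncomputable def X (v : H × L.I) : L.GG := SemidirectProduct.inl (gen v)

/-- `1 - X v` -/
noncomputable def om (v : H × L.I) : MonoidAlgebra ℤ L.GG := 1 - el (L.X v)

/-- the Koszul matrix in degree 2 -/
noncomputable def K2 : Matrix L.J2 L.I (MonoidAlgebra ℤ L.GG) :=
  Matrix.of fun p => Pi.single p.1.2 (L.om (1, p.1.1) * el (L.iH (L.g p.1.1 p.1.2))) -
    Pi.single p.1.1 (L.om (L.g p.1.1 p.1.2, p.1.2))

/-- the Koszul matrix in degree 3 -/
noncomputable def K3 : Matrix L.J3 L.J2 (MonoidAlgebra ℤ L.GG) :=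
  Matrix.of fun p => Pi.single p.f0 (L.om (1, p.1.1) * el (L.iH (L.g p.1.1 p.1.2.1))) -
    Pi.single p.f1 (L.om (L.g p.1.1 p.1.2.1, p.1.2.1)) + Pi.single p.f2 (L.om (L.g p.1.1 p.1.2.2, p.1.2.2))

/-- the first Koszul differential with values in `ℤ[GG/H] = ℤ[RA]`, `g e_i ↦ [g] - [g X(1, i)]` -/
noncomputable def eK (u : L.I → MonoidAlgebra ℤ L.GG) : RA L.gr →₀ ℤ :=
  ∑ i, (pf SemidirectProduct.left (u i) - pf SemidirectProduct.left (u i * el (L.X (1, i))))

/-- the action of `GG` on `ℤ[RA]` -/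
noncomputable def aM (x : L.GG) (m : RA L.gr →₀ ℤ) : RA L.gr →₀ ℤ :=
  Finsupp.mapDomain (fun a => x.left * L.phi x.right a) m

end VG

end NBT
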