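import Pool.Agent.Lib.MP_83fbc5_gt.Basic

/-!
# MP_83fbc5_gt, module SPL1: the connecting matrices

PROOF. Rows one after another (`Matrix.of`, `choose`). Row `i` of `T1`: an element `p` with `eP p = eK (Pi.single i 1)`; then
`eP (u ᵥ* T1) = eK u` holds for `u = Pi.single i (el g)` by `hP`, `hK` (`Pi.single i (el g) ᵥ* T1 = el g • row i`, `Matrix.single_vecMul`-like), and for
all `u` by `row_ext`. Row `j` of `T2`: the row `j` of `-(D2 * T1)` is mapped by `eP` to `- eK (row j of D2) = 0` (row `j` of `D2` is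
`Pi.single j 1 ᵥ* D2`, so it is killed by `eK` by `k1`), so it is `v ᵥ* d 0` by `p0`. Row `l` of `T3`: the row of `-(D3 * T2)` times `d 0` is
`-(D3 * (T2 * d 0)) = D3 * D2 * T1 = 0` (`k2` applied to the rows of `D3`), so it is `v ᵥ* d 1` by `p 0`.
(45-60 minutes)
-/

set_option autoImplicit false

namespace NBT

open Matrix

theorem splice_theta {G : Type} [Group G] {J1 J2 J3 M : Type} [Fintype J1] [Fintype J2] [Fintype J3] [AddCommGroup M]
    (act : G → M → M) (D2 : Matrix J2 J1 (MonoidAlgebra ℤ G)) (D3 : Matrix J3 J2 (MonoidAlgebra ℤ G))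
    (eK : (J1 → MonoidAlgebra ℤ G) →+ M) (hK : ∀ g u, eK (el g • u) = act g (eK u))
    (k1 : ∀ u, eK u = 0 ↔ ∃ v, v ᵥ* D2 = u) (k2 : ∀ u, u ᵥ* D2 = 0 ↔ ∃ v, v ᵥ* D3 = u)
    (ι : ℕ → Type) [∀ n, Fintype (ι n)] (d : ∀ n, Matrix (ι (n + 1)) (ι n) (MonoidAlgebra ℤ G))
    (eP : (ι 0 → MonoidAlgebra ℤ G) →+ M) (hP : ∀ g u, eP (el g • u) = act g (eP u))
    (hPs : Function.Surjective eP) (p0 : ∀ u, eP u = 0 ↔ ∃ v, v ᵥ* d 0 = u)
    (p : ∀ n (u : ι (n + 1) → MonoidAlgebra ℤ G), u ᵥ* d n = 0 ↔ ∃ v, v ᵥ* d (n + 1) = u) :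
    ∃ (T1 : Matrix J1 (ι 0) (MonoidAlgebra ℤ G)) (T2 : Matrix J2 (ι 1) (MonoidAlgebra ℤ G))
      (T3 : Matrix J3 (ι 2) (MonoidAlgebra ℤ G)),
      (∀ u, eP (u ᵥ* T1) = eK u) ∧ D2 * T1 + T2 * d 0 = 0 ∧ D3 * T2 + T3 * d 1 = 0 := by
  classical
  have h1 : ∀ j : J1, ∃ q : ι 0 → MonoidAlgebra ℤ G, eP q = eK (Pi.single j 1) := fun j => hPs _
  choose t1 ht1 using h1
  have hT1 : ∀ u, eP (u ᵥ* (Matrix.of t1)) = eK u := by
    have e : eP.comp (Matrix.vecMulLinear (Matrix.of t1)).toAddMonoidHom = eK := by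
      refine row_ext _ _ fun j g => ?_
      have e1 : (Matrix.vecMulLinear (Matrix.of t1)).toAddMonoidHom (Pi.single j (el g)) = el g • t1 j := by
        show (Pi.single j (el g)) ᵥ* (Matrix.of t1) = _
        rw [Matrix.single_vecMul]
        rfl
      rw [AddMonoidHom.comp_apply, e1, hP, ht1, ← hK]
      congr 1
      ext1 i
      by_cases hi : i = j
      · subst hi
        simp
      · simp [hi]
    intro u
    rw [← e]
    rfl
  have hrow : ∀ {a b c : Type} [Fintype a] [Fintype b] (A : Matrix a b (MonoidAlgebra ℤ G))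
      (B : Matrix b c (MonoidAlgebra ℤ G)) (i : a), (A * B) i = A i ᵥ* B := by
    intro a b c _ _ A B i
    rfl
  have hone : ∀ {a b : Type} [Fintype a] [DecidableEq a] (A : Matrix a b (MonoidAlgebra ℤ G)) (i : a),
      (Pi.single i 1 : a → MonoidAlgebra ℤ G) ᵥ* A = A i := by
    intro a b _ _ A i
    rw [Matrix.single_one_vecMul]
    rfl
  have h2 : ∀ j : J2, ∃ q : ι 1 → MonoidAlgebra ℤ G, q ᵥ* d 0 = -((D2 * Matrix.of t1) j) := by
    intro j
    refine (p0 _).1 ?_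
    rw [map_neg, hrow, hT1, neg_eq_zero]
    exact (k1 _).2 ⟨Pi.single j 1, hone D2 j⟩
  choose t2 ht2 using h2
  have hT2 : D2 * Matrix.of t1 + Matrix.of t2 * d 0 = 0 := by
    refine funext fun j => ?_
    show (D2 * Matrix.of t1) j + (Matrix.of t2 * d 0) j = 0
    rw [hrow (Matrix.of t2)]
    show (D2 * Matrix.of t1) j + t2 j ᵥ* d 0 = 0
    rw [ht2, add_neg_cancel]
  have h3 : ∀ l : J3, ∃ q : ι 2 → MonoidAlgebra ℤ G, q ᵥ* d 1 = -((D3 * Matrix.of t2) l) := by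
    intro l
    refine (p 0 _).1 ?_
    rw [Matrix.neg_vecMul, hrow, Matrix.vecMul_vecMul, neg_eq_zero]
    have e : Matrix.of t2 * d 0 = -(D2 * Matrix.of t1) := by
      rw [eq_neg_iff_add_eq_zero, add_comm]
      exact hT2
    rw [e, Matrix.vecMul_neg, ← Matrix.vecMul_vecMul, (k2 _).2 ⟨Pi.single l 1, hone D3 l⟩, Matrix.zero_vecMul, neg_zero]
  choose t3 ht3 using h3
  refine ⟨Matrix.of t1, Matrix.of t2, Matrix.of t3, hT1, hT2, ?_⟩
  refine funext fun l => ?_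
  show (D3 * Matrix.of t2) l + (Matrix.of t3 * d 1) l = 0
  rw [hrow (Matrix.of t3)]
  show (D3 * Matrix.of t2) l + t3 l ᵥ* d 1 = 0
  rw [ht3, add_neg_cancel]

end NBT
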