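import Pool.Agent.Lib.MP_83fbc5_gt.SPL1

/-!
# MP_83fbc5_gt, module SPL2: the spliced resolution

PROOF. `T.ι` is `ι 0`, `J1 ⊕ ι 1`, `J2 ⊕ ι 2`, `J3 ⊕ ι 3`, `ι (n + 4)` and `T.d` is `fromRows T1 (d 0)`, `fromBlocks D2 T2 0 (d 1)`,
`fromBlocks D3 T3 0 (d 2)`, `fromCols 0 (d 3)`, `d (n + 4)` (define both by pattern matching on `0, 1, 2, 3, n + 4`; `T.aug = aug`), with `T1 T2 T3` from
`splice_theta`. Row vectors on `J ⊕ ι` are pairs `(k, p)` (`Sum.elim k p`), `(k, p) T.d = (k D, k T + p d)`. Exactness: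
degree 0: if `augM (eP u) = 0` then `eP u = eK k` for some `k` (`k0`), so `eP (u - k T1) = 0`, `u = k T1 + p d0`.
degree 1: `k T1 + p d0 = 0` gives `eK k = 0`, `k = w D2`, `(p - w T2) d0 = 0` (use `D2 T1 = - T2 d0`), `p = w T2 + q d1`.
degree 2: `k D2 = 0`, `k T2 + p d1 = 0` give `k = w D3`, `(p - w T3) d1 = 0`, `p = w T3 + q d2`.
degree 3: `k D3 = 0` gives `k = 0` (`k3`), `p d2 = 0`, `p = q d3`. degrees `≥ 4`: `p` of the hypotheses (degree 4: `fromCols 0 (d 3)`).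
The converse directions are `T.d T.d = 0`. `T.len` uses `3 ≤ D`. `surj`: `augM` of a preimage, from `hs`. The last claims hold by definition
(`rk` of `fromCols 0 (d 3)`: the range is the image of the range of `d 3` under the injective map `p ↦ (0, p)`).
(75-100 minutes)
-/

set_option autoImplicit false

namespace NBT

open Matrix

universe w

/-- the index types of the spliced resolution -/
def spl2_spI (J1 J2 J3 : Type) (ι : ℕ → Type) : ℕ → Type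
  | 0 => ι 0
  | 1 => J1 ⊕ ι 1
  | 2 => J2 ⊕ ι 2
  | 3 => J3 ⊕ ι 3
  | n + 4 => ι (n + 4)

/-- the index types are finite -/
@[reducible] def spl2_spF (J1 J2 J3 : Type) [Fintype J1] [Fintype J2] [Fintype J3] (ι : ℕ → Type) [i : ∀ n, Fintype (ι n)] :
    ∀ n, Fintype (spl2_spI J1 J2 J3 ι n)
  | 0 => i 0
  | 1 => inferInstanceAs (Fintype (J1 ⊕ ι 1))
  | 2 => inferInstanceAs (Fintype (J2 ⊕ ι 2))
  | 3 => inferInstanceAs (Fintype (J3 ⊕ ι 3))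
  | n + 4 => i (n + 4)

/-- the differentials of the spliced resolution -/
def spl2_spD {S : Type} [Zero S] {J1 J2 J3 : Type} {ι : ℕ → Type} (D2 : Matrix J2 J1 S) (D3 : Matrix J3 J2 S)
    (d : ∀ n, Matrix (ι (n + 1)) (ι n) S) (T1 : Matrix J1 (ι 0) S) (T2 : Matrix J2 (ι 1) S)
    (T3 : Matrix J3 (ι 2) S) : ∀ n, Matrix (spl2_spI J1 J2 J3 ι (n + 1)) (spl2_spI J1 J2 J3 ι n) S
  | 0 => fromRows T1 (d 0)
  | 1 => fromBlocks D2 T2 0 (d 1)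
  | 2 => fromBlocks D3 T3 0 (d 2)
  | 3 => fromCols 0 (d 3)
  | n + 4 => d (n + 4)

theorem spl2_elim_eq_zero {α β M : Type} [Zero M] {a : α → M} {b : β → M} :
    Sum.elim a b = 0 ↔ a = 0 ∧ b = 0 := by
  constructor
  · intro h
    exact ⟨funext fun i => congrFun h (Sum.inl i), funext fun i => congrFun h (Sum.inr i)⟩
  · rintro ⟨rfl, rfl⟩
    ext (i | i) <;> rfl

theorem spl2_elim_eq {α β M : Type} {a : α → M} {b : β → M} {u : α ⊕ β → M} :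
    Sum.elim a b = u ↔ a = u ∘ Sum.inl ∧ b = u ∘ Sum.inr := by
  constructor
  · rintro rfl
    exact ⟨rfl, rfl⟩
  · rintro ⟨rfl, rfl⟩
    ext (i | i) <;> rfl

section

variable {S : Type} [Ring S] {J1 J2 J3 : Type} [Fintype J1] [Fintype J2] [Fintype J3]

/-- a product which vanishes on all row vectors -/
theorem spl2_mul_zero {a b c : Type} [Fintype a] [Fintype b] (A : Matrix a b S) (B : Matrix b c S)
    (h : ∀ v : a → S, (v ᵥ* A) ᵥ* B = 0) : A * B = 0 := by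
  classical
  ext i j
  have h1 := congrFun (h (Pi.single i 1)) j
  rw [Matrix.vecMul_vecMul, Matrix.single_one_vecMul] at h1
  exact h1

/-- the middle degrees -/
theorem spl2_mid {k0 k1 k2 i0 i1 i2 : Type} [Fintype k1] [Fintype k2] [Fintype i1] [Fintype i2]
    (D : Matrix k1 k0 S) (D' : Matrix k2 k1 S) (T : Matrix k1 i0 S) (T' : Matrix k2 i1 S)
    (d : Matrix i1 i0 S) (d' : Matrix i2 i1 S)
    (hD : ∀ u, u ᵥ* D = 0 ↔ ∃ v, v ᵥ* D' = u) (hd : ∀ u, u ᵥ* d = 0 ↔ ∃ v, v ᵥ* d' = u)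
    (ht : D' * T + T' * d = 0) (u : k1 ⊕ i1 → S) :
    u ᵥ* fromBlocks D T 0 d = 0 ↔ ∃ v, v ᵥ* fromBlocks D' T' 0 d' = u := by
  constructor
  · intro h
    rw [vecMul_fromBlocks, spl2_elim_eq_zero, Matrix.vecMul_zero, add_zero] at h
    obtain ⟨w, hw⟩ := (hD _).1 h.1
    have h1 : (u ∘ Sum.inr - w ᵥ* T') ᵥ* d = 0 := by
      have h2 : u ∘ Sum.inl ᵥ* T = -((w ᵥ* T') ᵥ* d) := by
        rw [← hw, Matrix.vecMul_vecMul, Matrix.vecMul_vecMul, eq_neg_iff_add_eq_zero, ← Matrix.vecMul_add, ht,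
          Matrix.vecMul_zero]
      have h3 := h.2
      rw [h2] at h3
      rw [Matrix.sub_vecMul, sub_eq_add_neg, add_comm]
      exact h3
    obtain ⟨q, hq⟩ := (hd _).1 h1
    refine ⟨Sum.elim w q, ?_⟩
    rw [vecMul_fromBlocks, spl2_elim_eq]
    refine ⟨?_, ?_⟩
    · simp [hw]
    · rw [Sum.elim_comp_inl, Sum.elim_comp_inr, hq]
      abel
  · rintro ⟨v, rfl⟩
    rw [Matrix.vecMul_vecMul, fromBlocks_multiply]
    have e1 : D' * D = 0 := spl2_mul_zero _ _ fun v => (hD _).2 ⟨v, rfl⟩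
    have e2 : d' * d = 0 := spl2_mul_zero _ _ fun v => (hd _).2 ⟨v, rfl⟩
    rw [e1, e2, ht]
    simp

end

theorem spl2_rkM_fromCols (F : Type w) [Field F] {S : Type w} [Ring S] [Algebra F S] {m n1 n2 : Type} [Fintype m]
    (A : Matrix m n2 S) : rkM F (fromCols (0 : Matrix m n1 S) A) = rkM F A := by
  unfold rkM
  let j : (n2 → S) →ₗ[F] (n1 ⊕ n2 → S) :=
    { toFun := fun p => Sum.elim 0 p
      map_add' := fun p q => by ext (i | i) <;> simp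
      map_smul' := fun c p => by ext (i | i) <;> simp }
  have hj : Function.Injective j := fun p q h => by
    ext i
    exact congrFun h (Sum.inr i)
  have e : actM F (fromCols (0 : Matrix m n1 S) A) = j ∘ₗ actM F A := by
    ext1 u
    rw [actM_apply, vecMul_fromCols, Matrix.vecMul_zero]
    rfl
  rw [e, LinearMap.range_comp]
  exact (LinearEquiv.finrank_eq (Submodule.equivMapOfInjective j hj (LinearMap.range (actM F A)))).symm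

section

variable {S : Type} [Ring S] {J1 J2 J3 M : Type} [Fintype J1] [Fintype J2] [Fintype J3]
  [AddCommGroup M] {i0 i1 i2 i3 i4 i5 : Type} [Fintype i0] [Fintype i1] [Fintype i2] [Fintype i3] [Fintype i4]
  [Fintype i5]

theorem spl2_deg1 (D2 : Matrix J2 J1 S) (eK : (J1 → S) →+ M) (k1 : ∀ u, eK u = 0 ↔ ∃ v, v ᵥ* D2 = u)
    (d0 : Matrix i1 i0 S) (d1 : Matrix i2 i1 S) (eP : (i0 → S) →+ M) (p0 : ∀ u, eP u = 0 ↔ ∃ v, v ᵥ* d0 = u)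
    (p1 : ∀ u, u ᵥ* d0 = 0 ↔ ∃ v, v ᵥ* d1 = u) (T1 : Matrix J1 i0 S) (T2 : Matrix J2 i1 S)
    (t1 : ∀ u, eP (u ᵥ* T1) = eK u) (t2 : D2 * T1 + T2 * d0 = 0) (u : J1 ⊕ i1 → S) :
    u ᵥ* fromRows T1 d0 = 0 ↔ ∃ v, v ᵥ* fromBlocks D2 T2 0 d1 = u := by
  rw [vecMul_fromRows]
  constructor
  · intro h
    have h0 : eP (u ∘ Sum.inr ᵥ* d0) = 0 := (p0 _).2 ⟨_, rfl⟩
    have h1 : eK (u ∘ Sum.inl) = 0 := by
      have h5 := congrArg eP h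
      rw [map_add, t1, h0, add_zero, map_zero] at h5
      exact h5
    obtain ⟨w, hw⟩ := (k1 _).1 h1
    have h2 : (u ∘ Sum.inr - w ᵥ* T2) ᵥ* d0 = 0 := by
      have h3 : u ∘ Sum.inl ᵥ* T1 = -((w ᵥ* T2) ᵥ* d0) := by
        rw [← hw, Matrix.vecMul_vecMul, Matrix.vecMul_vecMul, eq_neg_iff_add_eq_zero, ← Matrix.vecMul_add, t2,
          Matrix.vecMul_zero]
      rw [h3] at h
      rw [Matrix.sub_vecMul, sub_eq_add_neg, add_comm]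
      exact h
    obtain ⟨q, hq⟩ := (p1 _).1 h2
    refine ⟨Sum.elim w q, ?_⟩
    rw [vecMul_fromBlocks, spl2_elim_eq]
    refine ⟨?_, ?_⟩
    · simp [hw]
    · rw [Sum.elim_comp_inl, Sum.elim_comp_inr, hq]
      abel
  · rintro ⟨v, rfl⟩
    rw [vecMul_fromBlocks]
    simp only [Sum.elim_comp_inl, Sum.elim_comp_inr, Matrix.vecMul_zero, add_zero]
    have e2 : d1 * d0 = 0 := spl2_mul_zero _ _ fun v => (p1 _).2 ⟨v, rfl⟩
    rw [Matrix.add_vecMul, Matrix.vecMul_vecMul, Matrix.vecMul_vecMul, Matrix.vecMul_vecMul, e2,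
      Matrix.vecMul_zero, add_zero, ← Matrix.vecMul_add, t2, Matrix.vecMul_zero]

theorem spl2_deg3 (D3 : Matrix J3 J2 S) (k3 : ∀ u, u ᵥ* D3 = 0 → u = 0) (d2 : Matrix i3 i2 S)
    (d3 : Matrix i4 i3 S) (p2 : ∀ u, u ᵥ* d2 = 0 ↔ ∃ v, v ᵥ* d3 = u) (T3 : Matrix J3 i2 S) (u : J3 ⊕ i3 → S) :
    u ᵥ* fromBlocks D3 T3 0 d2 = 0 ↔ ∃ v, v ᵥ* fromCols 0 d3 = u := by
  rw [vecMul_fromBlocks, spl2_elim_eq_zero, Matrix.vecMul_zero, add_zero]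
  constructor
  · rintro ⟨h1, h2⟩
    have h3 := k3 _ h1
    rw [h3, Matrix.zero_vecMul, zero_add] at h2
    obtain ⟨q, hq⟩ := (p2 _).1 h2
    refine ⟨q, ?_⟩
    rw [vecMul_fromCols, spl2_elim_eq]
    exact ⟨by rw [Matrix.vecMul_zero, h3], hq⟩
  · rintro ⟨v, rfl⟩
    rw [vecMul_fromCols]
    simp only [Sum.elim_comp_inl, Sum.elim_comp_inr, Matrix.vecMul_zero, Matrix.zero_vecMul, zero_add,
      true_and]
    exact (p2 _).2 ⟨v, rfl⟩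

theorem spl2_deg4 (J : Type) (d3 : Matrix i4 i3 S) (d4 : Matrix i5 i4 S)
    (p3 : ∀ u, u ᵥ* d3 = 0 ↔ ∃ v, v ᵥ* d4 = u) (u : i4 → S) :
    u ᵥ* fromCols (0 : Matrix i4 J S) d3 = 0 ↔ ∃ v, v ᵥ* d4 = u := by
  rw [vecMul_fromCols, spl2_elim_eq_zero]
  constructor
  · rintro ⟨_, h⟩
    exact (p3 _).1 h
  · intro h
    exact ⟨Matrix.vecMul_zero _, (p3 _).2 h⟩

theorem spl2_deg0 (eK : (J1 → S) →+ M) (aM : M → ℤ) (k0 : ∀ m, aM m = 0 ↔ ∃ u, eK u = m)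
    (d0 : Matrix i1 i0 S) (eP : (i0 → S) →+ M) (p0 : ∀ u, eP u = 0 ↔ ∃ v, v ᵥ* d0 = u)
    (T1 : Matrix J1 i0 S) (t1 : ∀ u, eP (u ᵥ* T1) = eK u) (u : i0 → S) :
    aM (eP u) = 0 ↔ ∃ v, v ᵥ* fromRows T1 d0 = u := by
  rw [k0]
  constructor
  · rintro ⟨k, hk⟩
    have h1 : eP (u - k ᵥ* T1) = 0 := by
      rw [map_sub, t1, hk, sub_self]
    obtain ⟨q, hq⟩ := (p0 _).1 h1
    refine ⟨Sum.elim k q, ?_⟩
    rw [sumElim_vecMul_fromRows, hq]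
    abel
  · rintro ⟨v, rfl⟩
    refine ⟨v ∘ Sum.inl, ?_⟩
    rw [vecMul_fromRows, map_add, t1, (p0 _).2 ⟨_, rfl⟩, add_zero]

end

section

variable {G : Type} [Group G] {D : ℕ} {J1 J2 J3 M : Type} [Fintype J1] [Fintype J2] [Fintype J3]
  [AddCommGroup M] {ι : ℕ → Type} [∀ n, Fintype (ι n)]

/-- the spliced resolution -/
noncomputable def spl2_spT (hlen : ∀ n, D < n → IsEmpty (ι n)) (hD : 3 ≤ D)
    (D2 : Matrix J2 J1 (MonoidAlgebra ℤ G)) (D3 : Matrix J3 J2 (MonoidAlgebra ℤ G))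
    (eK : (J1 → MonoidAlgebra ℤ G) →+ M) (aM : M → ℤ) (k0 : ∀ m, aM m = 0 ↔ ∃ u, eK u = m)
    (k1 : ∀ u, eK u = 0 ↔ ∃ v, v ᵥ* D2 = u) (k2 : ∀ u, u ᵥ* D2 = 0 ↔ ∃ v, v ᵥ* D3 = u)
    (k3 : ∀ u, u ᵥ* D3 = 0 → u = 0)
    (d : ∀ n, Matrix (ι (n + 1)) (ι n) (MonoidAlgebra ℤ G)) (aug : ι 0 → ℤ)
    (eP : (ι 0 → MonoidAlgebra ℤ G) →+ M) (haug : ∀ u, aM (eP u) = ∑ i, eps G (u i) * aug i)
    (hs : ∃ u : ι 0 → MonoidAlgebra ℤ G, ∑ i, eps G (u i) * aug i = 1)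
    (p0 : ∀ u, eP u = 0 ↔ ∃ v, v ᵥ* d 0 = u)
    (p : ∀ n (u : ι (n + 1) → MonoidAlgebra ℤ G), u ᵥ* d n = 0 ↔ ∃ v, v ᵥ* d (n + 1) = u)
    (T1 : Matrix J1 (ι 0) (MonoidAlgebra ℤ G)) (T2 : Matrix J2 (ι 1) (MonoidAlgebra ℤ G))
    (T3 : Matrix J3 (ι 2) (MonoidAlgebra ℤ G)) (t1 : ∀ u, eP (u ᵥ* T1) = eK u) (t2 : D2 * T1 + T2 * d 0 = 0)
    (t3 : D3 * T2 + T3 * d 1 = 0) : FFR G D where
  ι := spl2_spI J1 J2 J3 ι
  fin := spl2_spF J1 J2 J3 ι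
  d := spl2_spD D2 D3 d T1 T2 T3
  aug := aug
  len n hn := by
    match n, hn with
    | 0, hn => omega
    | 1, hn => omega
    | 2, hn => omega
    | 3, hn => omega
    | n + 4, hn => exact hlen _ hn
  exact n u := by
    match n, u with
    | 0, u => exact spl2_deg1 D2 eK k1 (d 0) (d 1) eP p0 (p 0) T1 T2 t1 t2 u
    | 1, u => exact spl2_mid D2 D3 T2 T3 (d 1) (d 2) k2 (p 1) t3 u
    | 2, u => exact spl2_deg3 D3 k3 (d 2) (d 3) (p 2) T3 u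
    | 3, u => exact spl2_deg4 J3 (d 3) (d 4) (p 3) u
    | n + 4, u => exact p (n + 4) u
  exact0 u := by
    have h := spl2_deg0 eK aM k0 (d 0) eP p0 T1 t1 u
    have h6 := haug u
    exact (Eq.congr h6.symm rfl).trans h
  surj := hs

end

theorem splice_exists (F : Type w) [Field F] {G : Type} [Group G] {D : ℕ} (hD : 3 ≤ D) {J1 J2 J3 M : Type} [Fintype J1]
    [Fintype J2] [Fintype J3]
    [AddCommGroup M] (D2 : Matrix J2 J1 (MonoidAlgebra ℤ G)) (D3 : Matrix J3 J2 (MonoidAlgebra ℤ G))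
    (eK : (J1 → MonoidAlgebra ℤ G) →+ M) (aM : M → ℤ) (k0 : ∀ m, aM m = 0 ↔ ∃ u, eK u = m)
    (k1 : ∀ u, eK u = 0 ↔ ∃ v, v ᵥ* D2 = u) (k2 : ∀ u, u ᵥ* D2 = 0 ↔ ∃ v, v ᵥ* D3 = u)
    (k3 : ∀ u, u ᵥ* D3 = 0 → u = 0)
    (ι : ℕ → Type) [∀ n, Fintype (ι n)] (hlen : ∀ n, D < n → IsEmpty (ι n))
    (d : ∀ n, Matrix (ι (n + 1)) (ι n) (MonoidAlgebra ℤ G)) (aug : ι 0 → ℤ)
    (eP : (ι 0 → MonoidAlgebra ℤ G) →+ M) (haug : ∀ u, aM (eP u) = ∑ i, eps G (u i) * aug i)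
    (hs : ∃ u : ι 0 → MonoidAlgebra ℤ G, ∑ i, eps G (u i) * aug i = 1)
    (p0 : ∀ u, eP u = 0 ↔ ∃ v, v ᵥ* d 0 = u)
    (p : ∀ n (u : ι (n + 1) → MonoidAlgebra ℤ G), u ᵥ* d n = 0 ↔ ∃ v, v ᵥ* d (n + 1) = u)
    (T1 : Matrix J1 (ι 0) (MonoidAlgebra ℤ G)) (T2 : Matrix J2 (ι 1) (MonoidAlgebra ℤ G))
    (T3 : Matrix J3 (ι 2) (MonoidAlgebra ℤ G)) (t1 : ∀ u, eP (u ᵥ* T1) = eK u) (t2 : D2 * T1 + T2 * d 0 = 0)
    (t3 : D3 * T2 + T3 * d 1 = 0) :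
    ∃ T : FFR G D, Fintype.card (T.ι 2) = Fintype.card J2 + Fintype.card (ι 2) ∧
      Fintype.card (T.ι 3) = Fintype.card J3 + Fintype.card (ι 3) ∧
      ∀ (N : Subgroup G) [N.Normal], rk F N (T.d 1) = rk F N (fromBlocks D2 T2 0 (d 1)) ∧
        rk F N (T.d 2) = rk F N (fromBlocks D3 T3 0 (d 2)) ∧ rk F N (T.d 3) = rk F N (d 3) := by
  classical
  refine ⟨spl2_spT hlen hD D2 D3 eK aM k0 k1 k2 k3 d aug eP haug hs p0 p T1 T2 T3 t1 t2 t3, ?_, ?_, ?_⟩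
  · exact Fintype.card_sum
  · exact Fintype.card_sum
  · intro N _
    refine ⟨rfl, rfl, ?_⟩
    show rkM F ((fromCols (0 : Matrix (ι 4) J3 (MonoidAlgebra ℤ G)) (d 3)).map (toQ F N)) = _
    have e : (fromCols (0 : Matrix (ι 4) J3 (MonoidAlgebra ℤ G)) (d 3)).map (toQ F N) =
        fromCols (0 : Matrix (ι 4) J3 (MonoidAlgebra F (G ⧸ N))) ((d 3).map (toQ F N)) := by
      ext i (j | j)
      · simp
      · simp
    rw [e, spl2_rkM_fromCols]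
    rfl

end NBT
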