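import Pool.Agent.Lib.MP_83fbc5_gt.UDefs
import Pool.Agent.Lib.MP_83fbc5_gt.KG3
import Pool.Agent.Lib.MP_83fbc5_gt.EQV
import Pool.Agent.Lib.MP_83fbc5_gt.ORD
import Pool.Agent.Lib.MP_83fbc5_gt.CL3
import Pool.Agent.Lib.MP_83fbc5_gt.FPG

/-!
# MP_83fbc5_gt, module UA: a free group of rank two

PROOF. Take the trivial group `H = Multiplicative (Fin 0 → ℤ)` or `Unit`/`PUnit` (a finite group, finitely presented) and the voltage graph `L : VG H` with `I = Fin 2`, `rho = 0`, no relation `R`, `g = 1` (so `L.gr` has no edges, `J2` is empty); `P = L.GG = RA ⋊ H` (a free group of rank two), `x k = L.X (1, k)`.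
`fp`: `fp_GG L _`. `ch`: `L.chain_lift` applied to the chain of the trivial group (`N i = ⊤`). `inf`: `X_pow`. `left : L.GG → RA` is injective (`L.left_iff`, `H` is trivial), so `pf left` is injective on `ℤ[GG]` (`pf_eq`-like statements in `IND`/`Basic`, or `Finsupp.mapDomain_injective`) and onto. `eK u = ∑ pf left (u i) - pf left (u i * el (X (1, i))) = - pf left (∑ u i * (el (x i) - 1))`.
`inj`: if `∑ a k * (el (x k) - 1) = 0` then `eK a = 0`, so `a = v ᵥ* K2` (`L.K_exact1`) with `v` on the empty type `J2`: `a = 0`. `gen`: `augM (pf left a) = eps a` (`EQV`: `augM_eP` or its private lemma), so `L.K_exact0` gives `u` with `eK u = pf left a`, `b = -u`.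
(Alternative: `P = FreeGroup (Fin 2)` with Fox derivatives; then a chain is missing.)
(45-60 minutes)
-/

set_option autoImplicit false

namespace NBT

open Matrix RaagIso

/-- two vertices, no edges, trivial group -/
def UA_L : VG Unit where
  I := Fin 2
  fin := inferInstance
  rho := fun _ => 0
  rho_lt := fun _ => Nat.succ_pos 2
  R := fun _ _ => False
  g := fun _ _ => 1
  lt := fun _ _ h => h.elim
  trans := fun _ _ _ h _ => h
  coh := fun _ _ _ h _ => h.elim

theorem UA_pf_neg {G A : Type} [Group G] (π : G → A) (x : MonoidAlgebra ℤ G) : pf π (-x) = -pf π x := by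
  have h : pf π x + pf π (-x) = 0 := by rw [← pf_add, add_neg_cancel, pf_zero]
  exact eq_neg_of_add_eq_zero_right h

theorem UA_pf_sub {G A : Type} [Group G] (π : G → A) (x y : MonoidAlgebra ℤ G) :
    pf π (x - y) = pf π x - pf π y := by
  rw [sub_eq_add_neg, pf_add, UA_pf_neg, ← sub_eq_add_neg]

theorem UA_pf_sum {G A : Type} [Group G] (π : G → A) {ι : Type} (s : Finset ι) (x : ι → MonoidAlgebra ℤ G) :
    pf π (∑ i ∈ s, x i) = ∑ i ∈ s, pf π (x i) := by
  let f : MonoidAlgebra ℤ G →+ (A →₀ ℤ) := AddMonoidHom.mk' (pf π) (pf_add π)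
  exact map_sum f x s

theorem UA_pf_inj {G A : Type} [Group G] {π : G → A} (hπ : Function.Injective π) :
    Function.Injective (pf π) := by
  intro x y h
  unfold pf at h
  exact MonoidAlgebra.coeff_injective (Finsupp.mapDomain_injective hπ h)

theorem UA_aug {G A : Type} [Group G] (π : G → A) (x : MonoidAlgebra ℤ G) : augM (pf π x) = eps G x := by
  have h := augM_eP π (ι := Unit) (fun _ => 1) (fun _ => x)
  have h1 : eP π (fun _ : Unit => (1 : ℤ)) (fun _ => x) = pf π x := by
    unfold eP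
    rw [Fintype.sum_unique, one_smul]
  rw [h1, Fintype.sum_unique, mul_one] at h
  exact h

theorem UA_left_inj : Function.Injective (SemidirectProduct.left : UA_L.GG → RA UA_L.gr) := by
  intro x y h
  obtain ⟨z, rfl⟩ := (UA_L.left_iff x y).1 h
  have hz : z = 1 := rfl
  rw [hz, map_one, mul_one]

/-- the two generators -/
noncomputable def UA_x (k : Fin 2) : UA_L.GG := UA_L.X ((1 : Unit), (k : UA_L.I))

theorem UA_sum (a : Fin 2 → MonoidAlgebra ℤ UA_L.GG) :
    UA_L.eK (a : UA_L.I → MonoidAlgebra ℤ UA_L.GG) =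
      -pf SemidirectProduct.left (∑ k, a k * (el (UA_x k) - 1)) := by
  let E : Fin 2 ≃ UA_L.I := Equiv.refl _
  unfold VG.eK
  rw [← E.sum_comp, UA_pf_sum, ← Finset.sum_neg_distrib]
  refine Finset.sum_congr rfl fun k _ => ?_
  rw [mul_sub, mul_one, UA_pf_sub, neg_sub]
  rfl

theorem UA_eK_neg (u : UA_L.I → MonoidAlgebra ℤ UA_L.GG) : UA_L.eK (-u) = -UA_L.eK u := by
  unfold VG.eK
  rw [← Finset.sum_neg_distrib]
  refine Finset.sum_congr rfl fun k _ => ?_
  rw [Pi.neg_apply, neg_mul, UA_pf_neg, UA_pf_neg]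
  abel

theorem exists_f2 : ∃ (P : Type) (_ : Group P) (x : Fin 2 → P), F2D P x := by
  refine ⟨UA_L.GG, inferInstance, UA_x, ?_, ?_, ?_, ?_, ?_⟩
  · intro a ha
    have h1 : UA_L.eK (a : UA_L.I → MonoidAlgebra ℤ UA_L.GG) = 0 := by
      rw [UA_sum, ha, pf_zero, neg_zero]
    obtain ⟨v, hv⟩ := (UA_L.K_exact1 _).1 h1
    have hE : IsEmpty UA_L.J2 := ⟨fun p => p.2⟩
    have hu : (Finset.univ : Finset UA_L.J2) = ∅ := Finset.eq_empty_of_forall_notMem fun p => hE.elim p
    have h2 : v ᵥ* UA_L.K2 = 0 := by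
      funext i
      show ∑ p, v p * UA_L.K2 p i = 0
      rw [hu, Finset.sum_empty]
    rw [h2] at hv
    exact hv.symm
  · intro a ha
    obtain ⟨u, hu⟩ := (UA_L.K_exact0 (pf SemidirectProduct.left a)).1 (by rw [UA_aug, ha])
    refine ⟨(-u : UA_L.I → MonoidAlgebra ℤ UA_L.GG), ?_⟩
    have h1 := UA_sum (-u : UA_L.I → MonoidAlgebra ℤ UA_L.GG)
    rw [UA_eK_neg, hu] at h1
    exact (UA_pf_inj UA_left_inj (neg_injective h1)).symm
  · intro k j hj
    exact X_pow UA_L _ j hj
  · exact fp_GG UA_L inferInstance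
  · obtain ⟨C', -⟩ := VG.chain_lift UA_L
      { N := fun _ => ⊥, normal := fun _ => inferInstance, fin := fun _ => inferInstance,
        anti := antitone_const, bot := iInf_const }
    exact ⟨C'⟩

end NBT
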