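import Pool.Agent.Lib.MP_83fbc5_gt.UDefs
import Pool.Agent.Lib.MP_83fbc5_gt.IND

/-!
# MP_83fbc5_gt, module UB: the resolution of the product with a free group of rank two

PROOF. As in module `CONE` (on main; copy it), where the factor is `ℤ` and there is one element `t` instead of two: `T.ι = shI R.ι`, `T.d = shD ..`, `T.aug = R.aug`. Degrees `≥ 2`: if `u B + v X = 0` and `v_k C = 0` (`k = 0, 1`), then `v_k = w_k B`, `(u + ..)`: the elements `el (1, x k)` commute with the entries of `(R.d n).map (ind inl)`. Low degrees: apply `cE = eP Prod.snd R.aug : ℤ[G × P]^(ι 0) → (P →₀ ℤ) = ℤ[P]` (kernel = image of `d 0` by `ind_exact0`,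
surjective by `ind_surj`): `cE (v X) = ∑ k, cE (v_k) * (x k - 1)` in `ℤ[P]` (identify `P →₀ ℤ` with `MonoidAlgebra ℤ P`); `F2D.inj` gives `cE (v_k) = 0` if the sum vanishes, `F2D.gen` gives exactness in degree 0.
(75-100 minutes)
-/

set_option autoImplicit false

namespace NBT

open Matrix

universe w

section abstract

variable {S : Type} [Ring S] {a b c e : Type} [Fintype a] [Fintype b] [Fintype c] [Fintype e]

omit [Fintype a] [Fintype c] [Fintype e] in
theorem UB_vX (y : Fin 2 → S) (v : Fin 2 × b → S) (j : b) :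
    (v ᵥ* shX y b) j = ∑ k, v (k, j) * (y k - 1) := by
  classical
  show ∑ p, v p * shX y b p j = _
  rw [Fintype.sum_prod_type]
  refine Finset.sum_congr rfl fun k _ => ?_
  rw [Finset.sum_eq_single j]
  · unfold shX
    rw [Matrix.of_apply, if_pos rfl]
  · intro i _ hi
    unfold shX
    rw [Matrix.of_apply, if_neg hi, mul_zero]
  · intro h
    exact absurd (Finset.mem_univ _) h

omit [Fintype a] [Fintype c] [Fintype e] in
theorem UB_vK (D : Matrix b c S) (v : Fin 2 × b → S) (k : Fin 2) (j : c) :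
    (v ᵥ* shK D) (k, j) = -((fun i => v (k, i)) ᵥ* D) j := by
  show ∑ p, v p * shK D p (k, j) = -∑ i, v (k, i) * D i j
  rw [Fintype.sum_prod_type, Finset.sum_eq_single k]
  · rw [← Finset.sum_neg_distrib]
    refine Finset.sum_congr rfl fun i _ => ?_
    unfold shK
    rw [Matrix.of_apply, if_pos rfl, mul_neg]
  · intro l _ hl
    refine Finset.sum_eq_zero fun i _ => ?_
    unfold shK
    rw [Matrix.of_apply, if_neg hl, mul_zero]
  · intro h
    exact absurd (Finset.mem_univ _) h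

omit [Fintype a] [Fintype e] in
/-- the two operations commute -/
theorem UB_comm (t : Fin 2 → S) (B : Matrix b c S) (ht : ∀ k i j, t k * B i j = B i j * t k)
    (W : Fin 2 × b → S) (s : Fin 2 × c → S) (hs : ∀ k, (fun i => W (k, i)) ᵥ* B = fun j => s (k, j)) :
    (W ᵥ* shX t b) ᵥ* B = s ᵥ* shX t c := by
  funext j
  rw [UB_vX]
  show ∑ i, (W ᵥ* shX t b) i * B i j = _
  simp only [UB_vX, Finset.sum_mul]
  rw [Finset.sum_comm]
  refine Finset.sum_congr rfl fun k _ => ?_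
  have h6 : ∀ i, W (k, i) * (t k - 1) * B i j = (W (k, i) * B i j) * (t k - 1) := by
    intro i
    rw [mul_assoc, mul_assoc, sub_mul, mul_sub (B i j), ht, one_mul, mul_one]
  rw [Finset.sum_congr rfl fun i _ => h6 i, ← Finset.sum_mul]
  have h7 : ∑ i, W (k, i) * B i j = s (k, j) := congrFun (hs k) j
  rw [h7]

omit [Fintype e] in
theorem UB_common (t : Fin 2 → S) (A : Matrix a b S) (B : Matrix b c S)
    (ht : ∀ k i j, t k * B i j = B i j * t k) (h1 : ∀ u : b → S, u ᵥ* B = 0 ↔ ∃ v, v ᵥ* A = u)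
    (r : b → S) (s : Fin 2 × c → S) (h : r ᵥ* B + s ᵥ* shX t c = 0)
    (h2 : ∀ k, ∃ w : b → S, w ᵥ* B = fun j => s (k, j)) :
    ∃ v : a ⊕ Fin 2 × b → S, v ᵥ* fromBlocks A 0 (shX t b) (shK B) = Sum.elim r s := by
  choose w hw using h2
  obtain ⟨W, hW⟩ : ∃ W : Fin 2 × b → S, W = fun q => w q.1 q.2 := ⟨_, rfl⟩
  have hWk : ∀ k, (fun i => W (k, i)) = w k := fun k => by rw [hW]
  have e3 : (r + W ᵥ* shX t b) ᵥ* B = 0 := by
    rw [add_vecMul, UB_comm t B ht W s (fun k => by rw [hWk, hw])]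
    exact h
  obtain ⟨r', hr'⟩ := (h1 _).1 e3
  refine ⟨Sum.elim r' (-W), ?_⟩
  rw [vecMul_fromBlocks, Sum.elim_comp_inl, Sum.elim_comp_inr, vecMul_zero, zero_add]
  congr 1
  · rw [hr', neg_vecMul, add_neg_cancel_right]
  · funext q
    obtain ⟨k, j⟩ := q
    rw [UB_vK]
    have h4 : (fun i => (-W) (k, i)) = -w k := by
      rw [← hWk k]
      rfl
    rw [h4, neg_vecMul, Pi.neg_apply, neg_neg, hw]

theorem UB_back (t : Fin 2 → S) (A : Matrix a b S) (B : Matrix b c S)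
    (ht : ∀ k i j, t k * B i j = B i j * t k) (h1 : ∀ u : b → S, u ᵥ* B = 0 ↔ ∃ v, v ᵥ* A = u)
    (v : a ⊕ Fin 2 × b → S) :
    ((v ᵥ* fromBlocks A 0 (shX t b) (shK B)) ∘ Sum.inl) ᵥ* B +
      ((v ᵥ* fromBlocks A 0 (shX t b) (shK B)) ∘ Sum.inr) ᵥ* shX t c = 0 := by
  rw [vecMul_fromBlocks, Sum.elim_comp_inl, Sum.elim_comp_inr, vecMul_zero, zero_add, add_vecMul,
    (h1 _).2 ⟨_, rfl⟩, zero_add]
  have h2 := UB_comm t B ht (v ∘ Sum.inr) (-((v ∘ Sum.inr) ᵥ* shK B)) (fun k => by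
    funext j
    rw [Pi.neg_apply, UB_vK, neg_neg])
  rw [h2, neg_vecMul, neg_add_cancel]

theorem UB_mid (t : Fin 2 → S) (A : Matrix a b S) (B : Matrix b c S) (C : Matrix c e S)
    (ht : ∀ k i j, t k * B i j = B i j * t k) (h1 : ∀ u : b → S, u ᵥ* B = 0 ↔ ∃ v, v ᵥ* A = u)
    (h2 : ∀ u : c → S, u ᵥ* C = 0 ↔ ∃ v, v ᵥ* B = u) (u : b ⊕ Fin 2 × c → S) :
    u ᵥ* fromBlocks B 0 (shX t c) (shK C) = 0 ↔
      ∃ v : a ⊕ Fin 2 × b → S, v ᵥ* fromBlocks A 0 (shX t b) (shK B) = u := by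
  constructor
  · intro h
    rw [vecMul_fromBlocks] at h
    have e1 : (u ∘ Sum.inl) ᵥ* B + (u ∘ Sum.inr) ᵥ* shX t c = 0 := by
      funext i
      exact congrFun h (Sum.inl i)
    have e2 : (u ∘ Sum.inr) ᵥ* shK C = 0 := by
      funext i
      have h3 := congrFun h (Sum.inr i)
      rw [vecMul_zero, zero_add] at h3
      exact h3
    obtain ⟨v, hv⟩ := UB_common t A B ht h1 _ _ e1 (fun k => (h2 _).1 (by
      funext j
      have h3 := congrFun e2 (k, j)
      rw [UB_vK, Pi.zero_apply, neg_eq_zero] at h3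
      exact h3))
    refine ⟨v, ?_⟩
    rw [hv, Sum.elim_comp_inl_inr]
  · rintro ⟨v, hv⟩
    have hb := UB_back t A B ht h1 v
    have hr : ∀ (k : Fin 2) (i : c), u (Sum.inr (k, i)) = -((fun i => v (Sum.inr (k, i))) ᵥ* B) i := by
      intro k i
      rw [← hv, vecMul_fromBlocks, Sum.elim_inr, vecMul_zero, zero_add, UB_vK]
      rfl
    rw [hv] at hb
    rw [vecMul_fromBlocks, hb, vecMul_zero, zero_add]
    funext i
    rcases i with i | ⟨k, j⟩
    · rfl
    · rw [Sum.elim_inr, UB_vK]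
      have h3 : (fun i => (u ∘ Sum.inr) (k, i)) = -((fun i => v (Sum.inr (k, i))) ᵥ* B) := by
        funext i
        exact hr k i
      rw [h3, neg_vecMul, (h2 _).2 ⟨_, rfl⟩, neg_zero]
      simp

theorem UB_low (t : Fin 2 → S) (A : Matrix a b S) (B : Matrix b c S)
    (ht : ∀ k i j, t k * B i j = B i j * t k) (h1 : ∀ u : b → S, u ᵥ* B = 0 ↔ ∃ v, v ᵥ* A = u)
    (h2 : ∀ (r : b → S) (s : Fin 2 × c → S), r ᵥ* B + s ᵥ* shX t c = 0 →
      ∀ k, ∃ w : b → S, w ᵥ* B = fun j => s (k, j)) (u : b ⊕ Fin 2 × c → S) :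
    u ᵥ* fromRows B (shX t c) = 0 ↔
      ∃ v : a ⊕ Fin 2 × b → S, v ᵥ* fromBlocks A 0 (shX t b) (shK B) = u := by
  rw [vecMul_fromRows]
  constructor
  · intro h
    obtain ⟨v, hv⟩ := UB_common t A B ht h1 _ _ h (h2 _ _ h)
    refine ⟨v, ?_⟩
    rw [hv, Sum.elim_comp_inl_inr]
  · rintro ⟨v, rfl⟩
    exact UB_back t A B ht h1 v

end abstract

section data

variable {G P : Type} [Group G] [Group P] {x : Fin 2 → P} {D : ℕ} (R : FFR G D)

/-- the first augmentation -/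
noncomputable def UB_E (P : Type) [Group P] (u : R.ι 0 → MonoidAlgebra ℤ (G × P)) : MonoidAlgebra ℤ P :=
  ∑ i, R.aug i • ind (MonoidHom.snd G P) (u i)

theorem UB_E_coeff (u : R.ι 0 → MonoidAlgebra ℤ (G × P)) : (UB_E R P u).coeff = eP Prod.snd R.aug u := by
  unfold UB_E eP
  have h : ∀ (s : Finset (R.ι 0)), (∑ i ∈ s, R.aug i • ind (MonoidHom.snd G P) (u i)).coeff =
      ∑ i ∈ s, R.aug i • pf Prod.snd (u i) := by
    intro s
    classical
    induction s using Finset.induction_on with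
    | empty => rw [Finset.sum_empty, Finset.sum_empty, MonoidAlgebra.coeff_zero]
    | insert i s hi ih =>
      rw [Finset.sum_insert hi, Finset.sum_insert hi, MonoidAlgebra.coeff_add, ih]
      congr 1
  exact h _

theorem UB_E_add (u v : R.ι 0 → MonoidAlgebra ℤ (G × P)) : UB_E R P (u + v) = UB_E R P u + UB_E R P v := by
  unfold UB_E
  rw [← Finset.sum_add_distrib]
  refine Finset.sum_congr rfl fun i _ => ?_
  rw [Pi.add_apply, map_add, smul_add]

theorem UB_E_sub (u v : R.ι 0 → MonoidAlgebra ℤ (G × P)) : UB_E R P (u - v) = UB_E R P u - UB_E R P v := by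
  unfold UB_E
  rw [← Finset.sum_sub_distrib]
  refine Finset.sum_congr rfl fun i _ => ?_
  rw [Pi.sub_apply, map_sub, smul_sub]

theorem UB_E_zero : UB_E R P 0 = 0 := by
  unfold UB_E
  refine Finset.sum_eq_zero fun i _ => ?_
  rw [Pi.zero_apply, map_zero, smul_zero]

theorem UB_E_X (s : Fin 2 × R.ι 0 → MonoidAlgebra ℤ (G × P)) :
    UB_E R P (s ᵥ* shX (fun k => el ((1 : G), x k)) (R.ι 0)) =
      ∑ k, UB_E R P (fun i => s (k, i)) * (el (x k) - 1) := by
  unfold UB_E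
  simp only [UB_vX, map_sum, map_mul, map_sub, map_one, ind_el, Finset.smul_sum, Finset.sum_mul]
  rw [Finset.sum_comm]
  refine Finset.sum_congr rfl fun k _ => Finset.sum_congr rfl fun i _ => ?_
  rw [smul_mul_assoc]
  rfl

theorem UB_inj : Function.Injective (MonoidHom.inl G P) := fun _ _ h => congrArg Prod.fst h

theorem UB_pi (g g' : G × P) : g.2 = g'.2 ↔ ∃ h, g' = g * MonoidHom.inl G P h := by
  constructor
  · intro h
    refine ⟨g.1⁻¹ * g'.1, ?_⟩
    rw [Prod.ext_iff]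
    simp [h]
  · rintro ⟨h, rfl⟩
    simp

theorem UB_ker (u : R.ι 0 → MonoidAlgebra ℤ (G × P)) :
    UB_E R P u = 0 ↔ ∃ v, v ᵥ* (R.d 0).map (ind (MonoidHom.inl G P)) = u := by
  rw [← ind_exact0 (MonoidHom.inl G P) UB_inj Prod.snd UB_pi R.aug (R.d 0) R.exact0 u, ← UB_E_coeff,
    MonoidAlgebra.coeff_eq_zero]

theorem UB_surj (m : MonoidAlgebra ℤ P) : ∃ u, UB_E R P u = m := by
  obtain ⟨u, hu⟩ := ind_surj (MonoidHom.inl G P) Prod.snd (fun a => ⟨(1, a), rfl⟩) UB_pi R.aug R.surj m.coeff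
  refine ⟨u, MonoidAlgebra.coeff_injective ?_⟩
  rw [UB_E_coeff, hu]

theorem UB_eps (y : MonoidAlgebra ℤ (G × P)) : eps P (ind (MonoidHom.snd G P) y) = eps (G × P) y := by
  refine zg_ind (P := fun y : MonoidAlgebra ℤ (G × P) => eps P (ind (MonoidHom.snd G P) y) = eps (G × P) y)
    ?_ ?_ ?_ ?_ y
  · rw [map_zero, map_zero, map_zero]
  · intro g
    rw [ind_el, eps_el, eps_el]
  · intro x y hx hy
    rw [map_add, map_add, map_add, hx, hy]
  · intro x hx
    rw [map_neg, map_neg, map_neg, hx]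

theorem UB_eps_E (u : R.ι 0 → MonoidAlgebra ℤ (G × P)) :
    eps P (UB_E R P u) = ∑ i, eps (G × P) (u i) * R.aug i := by
  unfold UB_E
  rw [map_sum]
  refine Finset.sum_congr rfl fun i _ => ?_
  rw [map_zsmul, UB_eps, smul_eq_mul, mul_comm]

theorem UB_exact (n : ℕ) (u : R.ι (n + 1) → MonoidAlgebra ℤ (G × P)) :
    u ᵥ* (R.d n).map (ind (MonoidHom.inl G P)) = 0 ↔ ∃ v, v ᵥ* (R.d (n + 1)).map (ind (MonoidHom.inl G P)) = u :=
  ind_exact (MonoidHom.inl G P) UB_inj (R.d n) (R.d (n + 1)) (R.exact n) u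

theorem UB_central (p : P) (y : MonoidAlgebra ℤ G) :
    el ((1 : G), p) * ind (MonoidHom.inl G P) y = ind (MonoidHom.inl G P) y * el ((1 : G), p) := by
  refine zg_ind (P := fun y => el ((1 : G), p) * ind (MonoidHom.inl G P) y =
    ind (MonoidHom.inl G P) y * el ((1 : G), p)) ?_ ?_ ?_ ?_ y
  · rw [map_zero, mul_zero, zero_mul]
  · intro g
    rw [ind_el, ← el_mul, ← el_mul]
    congr 1
    rw [Prod.ext_iff]
    constructor
    · simp
    · simp
  · intro x y hx hy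
    rw [map_add, mul_add, add_mul, hx, hy]
  · intro x hx
    rw [map_neg, mul_neg, neg_mul, hx]

theorem UB_ht (n : ℕ) (k : Fin 2) (i : R.ι (n + 1)) (j : R.ι n) :
    el ((1 : G), x k) * (R.d n).map (ind (MonoidHom.inl G P)) i j =
      (R.d n).map (ind (MonoidHom.inl G P)) i j * el ((1 : G), x k) := by
  rw [Matrix.map_apply]
  exact UB_central (x k) _

theorem UB_clow (hx : F2D P x) (r : R.ι 1 → MonoidAlgebra ℤ (G × P)) (s : Fin 2 × R.ι 0 → MonoidAlgebra ℤ (G × P))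
    (h : r ᵥ* (R.d 0).map (ind (MonoidHom.inl G P)) + s ᵥ* shX (fun k => el ((1 : G), x k)) (R.ι 0) = 0)
    (k : Fin 2) : ∃ w, w ᵥ* (R.d 0).map (ind (MonoidHom.inl G P)) = fun j => s (k, j) := by
  have h1 := congrArg (UB_E R P) h
  rw [UB_E_add, UB_E_zero, (UB_ker R _).2 ⟨r, rfl⟩, zero_add, UB_E_X] at h1
  have h2 := hx.inj (fun k => UB_E R P (fun i => s (k, i))) h1
  exact (UB_ker R _).1 (congrFun h2 k)

theorem UB_czero (hx : F2D P x) (u : R.ι 0 → MonoidAlgebra ℤ (G × P)) :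
    ∑ i, eps (G × P) (u i) * R.aug i = 0 ↔ ∃ v : R.ι 1 ⊕ Fin 2 × R.ι 0 → MonoidAlgebra ℤ (G × P),
      v ᵥ* fromRows ((R.d 0).map (ind (MonoidHom.inl G P))) (shX (fun k => el ((1 : G), x k)) (R.ι 0)) = u := by
  rw [← UB_eps_E R u]
  constructor
  · intro h
    obtain ⟨bb, hb⟩ := hx.gen _ h
    choose w hw using fun k => UB_surj (G := G) R (bb k)
    have h1 : UB_E R P (u - (fun q : Fin 2 × R.ι 0 => w q.1 q.2) ᵥ* shX (fun k => el ((1 : G), x k)) (R.ι 0)) = 0 := by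
      rw [UB_E_sub, UB_E_X]
      simp only [hw]
      rw [hb, sub_self]
    obtain ⟨r, hr⟩ := (UB_ker R _).1 h1
    refine ⟨Sum.elim r (fun q : Fin 2 × R.ι 0 => w q.1 q.2), ?_⟩
    rw [vecMul_fromRows, Sum.elim_comp_inl, Sum.elim_comp_inr, hr]
    exact sub_add_cancel _ _
  · rintro ⟨v, rfl⟩
    rw [vecMul_fromRows, UB_E_add, (UB_ker R _).2 ⟨_, rfl⟩, zero_add, UB_E_X, map_sum]
    refine Finset.sum_eq_zero fun k _ => ?_
    rw [map_mul, map_sub, eps_el, map_one, sub_self, mul_zero]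

theorem UB_csurj : ∃ u : R.ι 0 → MonoidAlgebra ℤ (G × P), ∑ i, eps (G × P) (u i) * R.aug i = 1 := by
  obtain ⟨u, hu⟩ := UB_surj (P := P) R 1
  refine ⟨u, ?_⟩
  rw [← UB_eps_E R u, hu, map_one]

end data

theorem sh_ffr {G P : Type} [Group G] [Group P] {x : Fin 2 → P} (hx : F2D P x) {D : ℕ} (R : FFR G D) :
    ∃ T : FFR (G × P) (D + 1), (∀ n, Fintype.card (T.ι n) = Fintype.card (shI R.ι n)) ∧
      ∀ (F : Type w) [Field F] (N : Subgroup (G × P)) [N.Normal] (n : ℕ),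
        rk F N (T.d n) = @rk F _ (G × P) _ N _ (shI R.ι (n + 1)) (shI R.ι n) _
          (shD (fun k => el ((1 : G), x k)) (fun n => (R.d n).map (ind (MonoidHom.inl G P))) n) := by
  refine ⟨{ ι := shI R.ι, fin := shF R.ι,
            d := shD (fun k => el ((1 : G), x k)) (fun n => (R.d n).map (ind (MonoidHom.inl G P))),
            aug := (R.aug : shI R.ι 0 → ℤ), len := ?_, exact := ?_, exact0 := ?_, surj := ?_ },
    fun _ => rfl, fun _ _ _ _ _ => rfl⟩
  · intro n hn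
    cases n with
    | zero => omega
    | succ n =>
      have h1 := R.len (n + 1) (by omega)
      have h2 := R.len n (by omega)
      change IsEmpty (R.ι (n + 1) ⊕ (Fin 2 × R.ι n))
      infer_instance
  · intro n u
    cases n with
    | zero =>
      have h := UB_low (fun k => el ((1 : G), x k)) ((R.d 1).map (ind (MonoidHom.inl G P)))
        ((R.d 0).map (ind (MonoidHom.inl G P))) (UB_ht (x := x) R 0) (UB_exact R 0) (UB_clow R hx) u
      exact h
    | succ n =>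
      have h := UB_mid (fun k => el ((1 : G), x k)) ((R.d (n + 2)).map (ind (MonoidHom.inl G P)))
        ((R.d (n + 1)).map (ind (MonoidHom.inl G P))) ((R.d n).map (ind (MonoidHom.inl G P)))
        (UB_ht (x := x) R (n + 1)) (UB_exact R (n + 1)) (UB_exact R n) u
      exact h
  · exact fun u => UB_czero R hx u
  · exact UB_csurj R

end NBT
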