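import Pool.Agent.Lib.MP_83fbc5_gt.UDefs
import Pool.Agent.Lib.MP_83fbc5_gt.CEN1
import Pool.Agent.Lib.MP_83fbc5_gt.LA3

/-!
# MP_83fbc5_gt, module UC: ranks in the product resolution

Write `q = N.index`, `c n = card (ι n)`, everything after the map to `F[G/N]`.

PROOF. `sh_upper`: for `(a, b)` in the image of `fromBlocks (d (n+1)) 0 X K` one has `b` in the image of `K` (dimension `≤ 2 rk (d n)`), and if `b = 0` then `a d n = 0`: `(u, v) ↦ (u d (n+1) + v X, v K)`, `v K = 0` means `v_k d n = 0`, then `(v X) d n = ∑ v_k (x k - 1) d n = ∑ v_k (d n) (x k - 1) = 0` (commutation). So the kernel of the projection `(a, b) ↦ b` on the image has dimension `≤ dim ker (d n) = c (n+1) q - rk (d n)` and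
`rk ≤ 2 rk (d n) + c (n+1) q - rk (d n)`. `sh_lower`: consider only the vectors `u = 0`, `v = (v_0, v_1)` and project the image to the coordinates `a` and `b_1`: the map `(v_0, v_1) ↦ (v_0 (x 0 - 1) + v_1 (x 1 - 1), - v_1 d n)` has rank `≥ rank (v_0 ↦ v_0 (x 0 - 1)) + rk (d n)` (the kernel of the projection of the image to `b_1` contains the first image). The kernel of `v_0 ↦ v_0 (x 0 - 1)` on `F[G/N]^(ι (n+1))` has dimension
`≤ c (n+1) q / orderOf (mk (x 0))` (`ker_diag`, used in the module `CEN2`/`PHI2`). `sh_lower0` in the same way.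
(75-100 minutes)
-/

set_option autoImplicit false

namespace NBT

open Matrix

universe w

section gen

open Module

/-- a generic version of `shX` -/
noncomputable def UC_X {S : Type w} [Ring S] (y : Fin 2 → S) (b : Type) : Matrix (Fin 2 × b) b S := by
  classical
  exact Matrix.of fun p j => if p.2 = j then y p.1 - 1 else 0

/-- a generic version of `shK` -/
def UC_K {S : Type w} [Ring S] {b c : Type} (D : Matrix b c S) : Matrix (Fin 2 × b) (Fin 2 × c) S :=
  Matrix.of fun p q => if p.1 = q.1 then -D p.2 q.2 else 0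

variable {S : Type w} [Ring S] {a b c : Type} [Fintype a] [Fintype b] [Fintype c]

omit [Fintype a] [Fintype c] in
theorem UC_vX (y : Fin 2 → S) (v : Fin 2 × b → S) (j : b) :
    (v ᵥ* UC_X y b) j = ∑ k, v (k, j) * (y k - 1) := by
  classical
  show ∑ p, v p * UC_X y b p j = _
  rw [Fintype.sum_prod_type]
  refine Finset.sum_congr rfl fun k _ => ?_
  rw [Finset.sum_eq_single j]
  · unfold UC_X
    rw [Matrix.of_apply, if_pos rfl]
  · intro i _ hi
    unfold UC_X
    rw [Matrix.of_apply, if_neg hi, mul_zero]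
  · intro h
    exact absurd (Finset.mem_univ _) h

omit [Fintype a] [Fintype c] in
theorem UC_vK (D : Matrix b c S) (v : Fin 2 × b → S) (k : Fin 2) (j : c) :
    (v ᵥ* UC_K D) (k, j) = -((fun i => v (k, i)) ᵥ* D) j := by
  show ∑ p, v p * UC_K D p (k, j) = -∑ i, v (k, i) * D i j
  rw [Fintype.sum_prod_type, Finset.sum_eq_single k]
  · rw [← Finset.sum_neg_distrib]
    refine Finset.sum_congr rfl fun i _ => ?_
    unfold UC_K
    rw [Matrix.of_apply, if_pos rfl, mul_neg]
  · intro l _ hl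
    refine Finset.sum_eq_zero fun i _ => ?_
    unfold UC_K
    rw [Matrix.of_apply, if_neg hl, mul_zero]
  · intro h
    exact absurd (Finset.mem_univ _) h

theorem UC_tri {F A A' B B' : Type w} [Field F] [AddCommGroup A] [Module F A] [FiniteDimensional F A]
    [AddCommGroup A'] [Module F A'] [FiniteDimensional F A'] [AddCommGroup B] [Module F B] [FiniteDimensional F B]
    [AddCommGroup B'] [Module F B'] [FiniteDimensional F B'] (f : A →ₗ[F] A') (h : B →ₗ[F] A') (g : B →ₗ[F] B') :
    finrank F (LinearMap.range f) + finrank F (LinearMap.range g) ≤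
      finrank F (LinearMap.range ((f.coprod h).prod (g ∘ₗ LinearMap.snd F A B))) := by
  set T := (f.coprod h).prod (g ∘ₗ LinearMap.snd F A B) with hT
  have hTa : ∀ x : A × B, T x = (f x.1 + h x.2, g x.2) := fun x => rfl
  have h1 := LinearMap.finrank_range_add_finrank_ker T
  have h2 := LinearMap.finrank_range_add_finrank_ker f
  have h3 := LinearMap.finrank_range_add_finrank_ker g
  rw [Module.finrank_prod] at h1
  set φ : LinearMap.ker T →ₗ[F] LinearMap.ker g :=
    ((LinearMap.snd F A B) ∘ₗ (LinearMap.ker T).subtype).codRestrict (LinearMap.ker g) (fun x => by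
      have hx := x.2
      rw [LinearMap.mem_ker, hTa] at hx
      rw [LinearMap.mem_ker]
      exact congrArg Prod.snd hx) with hφ
  have h4 := LinearMap.finrank_range_add_finrank_ker φ
  have h5 : finrank F (LinearMap.range φ) ≤ finrank F (LinearMap.ker g) := Submodule.finrank_le _
  have hφa : ∀ x : LinearMap.ker T, ((φ x : LinearMap.ker g) : B) = (x : A × B).2 := fun x => rfl
  have h6 : finrank F (LinearMap.ker φ) ≤ finrank F (LinearMap.ker f) := by
    refine LinearMap.finrank_le_finrank_of_injective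
      (f := (((LinearMap.fst F A B) ∘ₗ (LinearMap.ker T).subtype) ∘ₗ (LinearMap.ker φ).subtype).codRestrict
        (LinearMap.ker f) (fun x => ?_)) ?_
    · have hx := x.1.2
      have hx2 : (x.1 : A × B).2 = 0 := by
        rw [← hφa, LinearMap.mem_ker.1 x.2]
        rfl
      rw [LinearMap.mem_ker, hTa, hx2, map_zero, add_zero] at hx
      rw [LinearMap.mem_ker]
      exact congrArg Prod.fst hx
    · intro x y hxy
      have hx2 : (x.1 : A × B).2 = 0 := by
        rw [← hφa, LinearMap.mem_ker.1 x.2]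
        rfl
      have hy2 : (y.1 : A × B).2 = 0 := by
        rw [← hφa, LinearMap.mem_ker.1 y.2]
        rfl
      have h7 : (x.1 : A × B).1 = (y.1 : A × B).1 := congrArg Subtype.val hxy
      exact Subtype.ext (Subtype.ext (Prod.ext h7 (hx2.trans hy2.symm)))
  omega

variable (F : Type w) [Field F] [Algebra F S] [FiniteDimensional F S]

theorem UC_fin (b : Type) [Fintype b] : finrank F (b → S) = Fintype.card b * finrank F S := by
  rw [Module.finrank_pi_fintype, Finset.sum_const, Finset.card_univ, smul_eq_mul]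

theorem UC_upper (D1 : Matrix a b S) (D0 : Matrix b c S) (y : Fin 2 → S)
    (hy : ∀ k i j, y k * D0 i j = D0 i j * y k) (hD : D1 * D0 = 0) :
    rkM F (fromBlocks D1 0 (UC_X y b) (UC_K D0)) ≤ Fintype.card b * finrank F S + rkM F D0 := by
  classical
  set M : Matrix (a ⊕ Fin 2 × b) (b ⊕ Fin 2 × c) S := fromBlocks D1 0 (UC_X y b) (UC_K D0) with hM
  set T := actM F M with hT
  have hTa : ∀ w, T w = Sum.elim ((w ∘ Sum.inl) ᵥ* D1 + (w ∘ Sum.inr) ᵥ* UC_X y b) ((w ∘ Sum.inr) ᵥ* UC_K D0) := by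
    intro w
    rw [hT, actM_apply, hM, vecMul_fromBlocks, vecMul_zero, zero_add]
  set p : ((b ⊕ Fin 2 × c) → S) →ₗ[F] ((Fin 2 × c) → S) := LinearMap.funLeft F S Sum.inr with hp
  have hpa : ∀ r, p r = r ∘ Sum.inr := fun r => rfl
  set R := LinearMap.range T with hR
  have h1 := LinearMap.finrank_range_add_finrank_ker (p ∘ₗ R.subtype)
  have h2 : finrank F (LinearMap.range (p ∘ₗ R.subtype)) ≤ 2 * finrank F (LinearMap.range (actM F D0)) := by
    set Q := LinearMap.range (p ∘ₗ R.subtype) with hQ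
    have hmem : ∀ (q : Q) (k : Fin 2), (fun j => (q : (Fin 2 × c) → S) (k, j)) ∈ LinearMap.range (actM F D0) := by
      rintro ⟨q, ⟨⟨r, ⟨w, rfl⟩⟩, rfl⟩⟩ k
      refine ⟨-(fun i => w (Sum.inr (k, i))), ?_⟩
      rw [map_neg, actM_apply]
      funext j
      show -((fun i => w (Sum.inr (k, i))) ᵥ* D0) j = T w (Sum.inr (k, j))
      rw [hTa, Sum.elim_inr, UC_vK]
      rfl
    let ψ : Q →ₗ[F] (Fin 2 → LinearMap.range (actM F D0)) := LinearMap.pi fun k =>
      ((LinearMap.funLeft F S (fun j : c => ((k, j) : Fin 2 × c))) ∘ₗ Q.subtype).codRestrict _ (fun q => hmem q k)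
    have hψ : Function.Injective ψ := by
      intro q q' h
      apply Subtype.ext
      funext x
      obtain ⟨k, j⟩ := x
      have h3 := congrArg Subtype.val (congrFun h k)
      exact congrFun h3 j
    have h3 := LinearMap.finrank_le_finrank_of_injective hψ
    rw [Module.finrank_pi_fintype, Finset.sum_const, Finset.card_univ, Fintype.card_fin, smul_eq_mul] at h3
    exact h3
  have h3 : finrank F (LinearMap.ker (p ∘ₗ R.subtype)) ≤ finrank F (LinearMap.ker (actM F D0)) := by
    let p1 : ((b ⊕ Fin 2 × c) → S) →ₗ[F] (b → S) := LinearMap.funLeft F S Sum.inl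
    refine LinearMap.finrank_le_finrank_of_injective
      (f := ((p1 ∘ₗ R.subtype) ∘ₗ (LinearMap.ker (p ∘ₗ R.subtype)).subtype).codRestrict
        (LinearMap.ker (actM F D0)) (fun x => ?_)) ?_
    · obtain ⟨⟨r, ⟨w, rfl⟩⟩, hx⟩ := x
      have hx' : (w ∘ Sum.inr) ᵥ* UC_K D0 = 0 := by
        have h4 : p (T w) = 0 := LinearMap.mem_ker.1 hx
        rw [hpa, hTa, Sum.elim_comp_inr] at h4
        exact h4
      have hk : ∀ k : Fin 2, (fun i => w (Sum.inr (k, i))) ᵥ* D0 = 0 := by
        intro k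
        funext j
        have h5 := congrFun hx' (k, j)
        rw [UC_vK, Pi.zero_apply, neg_eq_zero] at h5
        exact h5
      rw [LinearMap.mem_ker]
      show actM F D0 (T w ∘ Sum.inl) = 0
      rw [actM_apply, hTa, Sum.elim_comp_inl, add_vecMul, vecMul_vecMul, hD, vecMul_zero, zero_add]
      funext j
      show ∑ i, ((w ∘ Sum.inr) ᵥ* UC_X y b) i * D0 i j = 0
      simp only [UC_vX, Finset.sum_mul]
      rw [Finset.sum_comm]
      refine Finset.sum_eq_zero fun k _ => ?_
      have h6 : ∀ i, (w ∘ Sum.inr) (k, i) * (y k - 1) * D0 i j = (w (Sum.inr (k, i)) * D0 i j) * (y k - 1) := by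
        intro i
        show w (Sum.inr (k, i)) * (y k - 1) * D0 i j = _
        rw [mul_assoc, mul_assoc, sub_mul, mul_sub (D0 i j), hy, one_mul, mul_one]
      rw [Finset.sum_congr rfl fun i _ => h6 i, ← Finset.sum_mul]
      have h7 : ∑ i, w (Sum.inr (k, i)) * D0 i j = 0 := congrFun (hk k) j
      rw [h7, zero_mul]
    · intro x x' hxx
      have h8 : ∀ z : LinearMap.ker (p ∘ₗ R.subtype), ((z : R) : (b ⊕ Fin 2 × c) → S) ∘ Sum.inr = 0 := by
        intro z
        exact LinearMap.mem_ker.1 z.2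
      have h9 : ((x : R) : (b ⊕ Fin 2 × c) → S) ∘ Sum.inl = ((x' : R) : (b ⊕ Fin 2 × c) → S) ∘ Sum.inl :=
        congrArg Subtype.val hxx
      refine Subtype.ext (Subtype.ext ?_)
      funext i
      rcases i with i | i
      · exact congrFun h9 i
      · exact (congrFun (h8 x) i).trans (congrFun (h8 x') i).symm
  have h4 := LinearMap.finrank_range_add_finrank_ker (actM F D0)
  rw [UC_fin] at h4
  show finrank F R ≤ _ + finrank F (LinearMap.range (actM F D0))
  omega

theorem UC_lower (D1 : Matrix a b S) (D0 : Matrix b c S) (y : Fin 2 → S) :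
    finrank F (LinearMap.range (diagR F (fun _ : b => 1 - y 0))) + rkM F D0 ≤
      rkM F (fromBlocks D1 0 (UC_X y b) (UC_K D0)) := by
  classical
  set M : Matrix (a ⊕ Fin 2 × b) (b ⊕ Fin 2 × c) S := fromBlocks D1 0 (UC_X y b) (UC_K D0) with hM
  set T := actM F M with hT
  have hTa : ∀ w, T w = Sum.elim ((w ∘ Sum.inl) ᵥ* D1 + (w ∘ Sum.inr) ᵥ* UC_X y b) ((w ∘ Sum.inr) ᵥ* UC_K D0) := by
    intro w
    rw [hT, actM_apply, hM, vecMul_fromBlocks, vecMul_zero, zero_add]
  -- the inclusion
  let J : ((b → S) × (b → S)) →ₗ[F] ((a ⊕ Fin 2 × b) → S) :=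
    { toFun := fun v => Sum.elim 0 (fun q => if q.1 = 0 then -v.1 q.2 else -v.2 q.2)
      map_add' := by
        intro v v'
        funext i
        rcases i with i | i
        · simp
        · simp only [Sum.elim_inr, Prod.fst_add, Prod.snd_add, Pi.add_apply]
          split_ifs
          · rw [neg_add]
          · rw [neg_add]
      map_smul' := by
        intro t v
        funext i
        rcases i with i | i
        · simp
        · simp only [Sum.elim_inr, Prod.smul_fst, Prod.smul_snd, Pi.smul_apply, RingHom.id_apply]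
          split_ifs
          · rw [smul_neg]
          · rw [smul_neg] }
  have hJl : ∀ v, (J v) ∘ Sum.inl = 0 := fun v => rfl
  have hJ0 : ∀ v i, (J v) (Sum.inr (0, i)) = -v.1 i := by
    intro v i
    show (if (0 : Fin 2) = 0 then -v.1 i else -v.2 i) = -v.1 i
    rw [if_pos rfl]
  have hJ1 : ∀ v i, (J v) (Sum.inr (1, i)) = -v.2 i := by
    intro v i
    show (if (1 : Fin 2) = 0 then -v.1 i else -v.2 i) = -v.2 i
    rw [if_neg (by decide)]
  -- the projection
  let π : ((b ⊕ Fin 2 × c) → S) →ₗ[F] ((b → S) × (c → S)) :=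
    (LinearMap.funLeft F S Sum.inl).prod (LinearMap.funLeft F S (fun j : c => Sum.inr ((1 : Fin 2), j)))
  have h1 := UC_tri (diagR F (fun _ : b => 1 - y 0)) (diagR F (fun _ : b => 1 - y 1)) (actM F D0)
  have h2 : ((diagR F (fun _ : b => 1 - y 0)).coprod (diagR F (fun _ : b => 1 - y 1))).prod
      ((actM F D0) ∘ₗ LinearMap.snd F (b → S) (b → S)) = (π ∘ₗ T) ∘ₗ J := by
    apply LinearMap.ext
    intro v
    have h3 : T (J v) = Sum.elim (((J v) ∘ Sum.inr) ᵥ* UC_X y b) (((J v) ∘ Sum.inr) ᵥ* UC_K D0) := by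
      rw [hTa, hJl, zero_vecMul, zero_add]
    apply Prod.ext
    · funext j
      show v.1 j * (1 - y 0) + v.2 j * (1 - y 1) = T (J v) (Sum.inl j)
      rw [h3, Sum.elim_inl, UC_vX, Fin.sum_univ_two]
      show _ = (J v) (Sum.inr (0, j)) * (y 0 - 1) + (J v) (Sum.inr (1, j)) * (y 1 - 1)
      rw [hJ0, hJ1, neg_mul, neg_mul, ← mul_neg, ← mul_neg, neg_sub, neg_sub]
    · funext j
      show (v.2 ᵥ* D0) j = T (J v) (Sum.inr (1, j))
      rw [h3, Sum.elim_inr, UC_vK]
      have h4 : (fun i => ((J v) ∘ Sum.inr) ((1 : Fin 2), i)) = -v.2 := by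
        funext i
        exact hJ1 v i
      rw [h4, neg_vecMul, Pi.neg_apply, neg_neg]
  rw [h2] at h1
  refine h1.trans ?_
  have h5 : LinearMap.range ((π ∘ₗ T) ∘ₗ J) ≤ Submodule.map π (LinearMap.range T) := by
    rintro _ ⟨v, rfl⟩
    exact ⟨T (J v), ⟨J v, rfl⟩, rfl⟩
  exact (Submodule.finrank_mono h5).trans (Submodule.finrank_map_le π _)

theorem UC_lower0 (D1 : Matrix a b S) (y : Fin 2 → S) :
    finrank F (LinearMap.range (diagR F (fun _ : b => 1 - y 0))) ≤ rkM F (fromRows D1 (UC_X y b)) := by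
  classical
  have h5 : LinearMap.range (diagR F (fun _ : b => 1 - y 0)) ≤
      LinearMap.range (actM F (fromRows D1 (UC_X y b))) := by
    rintro _ ⟨v, rfl⟩
    refine ⟨Sum.elim 0 (fun q : Fin 2 × b => if q.1 = 0 then -v q.2 else 0), ?_⟩
    rw [actM_apply, vecMul_fromRows, Sum.elim_comp_inl, Sum.elim_comp_inr, zero_vecMul, zero_add]
    funext j
    rw [UC_vX, Fin.sum_univ_two]
    show (if (0 : Fin 2) = 0 then -v j else 0) * (y 0 - 1) + (if (1 : Fin 2) = 0 then -v j else 0) * (y 1 - 1) =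
      v j * (1 - y 0)
    rw [if_pos rfl, if_neg (by decide), zero_mul, add_zero, neg_mul, ← mul_neg, neg_sub]
  exact Submodule.finrank_mono h5

end gen

section

variable (F : Type w) [Field F] {G : Type} [Group G] (N : Subgroup G) [N.Normal] [N.FiniteIndex] (x : Fin 2 → G)
  {ι : ℕ → Type} [∀ n, Fintype (ι n)] (d : ∀ n, Matrix (ι (n + 1)) (ι n) (MonoidAlgebra ℤ G))

omit [N.FiniteIndex] in
theorem UC_mapX (b : Type) : (shX (fun k => el (x k)) b).map (toQ F N) = UC_X (fun k => toQ F N (el (x k))) b := by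
  classical
  ext p j
  rw [Matrix.map_apply]
  unfold shX UC_X
  rw [Matrix.of_apply, Matrix.of_apply]
  split_ifs
  · rw [map_sub, map_one]
  · rw [map_zero]

omit [N.FiniteIndex] in
theorem UC_mapK {b c : Type} (D : Matrix b c (MonoidAlgebra ℤ G)) :
    (shK D).map (toQ F N) = UC_K (D.map (toQ F N)) := by
  ext p j
  rw [Matrix.map_apply]
  unfold shK UC_K
  rw [Matrix.of_apply, Matrix.of_apply]
  split_ifs
  · rw [map_neg]
    rfl
  · rw [map_zero]

omit [N.FiniteIndex] in
theorem UC_rk (n : ℕ) : @rk F _ G _ N _ (shI ι (n + 2)) (shI ι (n + 1)) _ (shD (fun k => el (x k)) d (n + 1)) =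
    rkM F (fromBlocks ((d (n + 1)).map (toQ F N)) 0 (UC_X (fun k => toQ F N (el (x k))) (ι (n + 1)))
      (UC_K ((d n).map (toQ F N)))) := by
  rw [← UC_mapX, ← UC_mapK]
  have h : (0 : Matrix (ι (n + 2)) (Fin 2 × ι n) (MonoidAlgebra F (G ⧸ N))) =
      (0 : Matrix (ι (n + 2)) (Fin 2 × ι n) (MonoidAlgebra ℤ G)).map (toQ F N) := by
    ext i j
    rw [Matrix.map_apply, Matrix.zero_apply, Matrix.zero_apply, map_zero]
  rw [h, ← fromBlocks_map]
  rfl

omit [N.FiniteIndex] in
theorem UC_rk0 : @rk F _ G _ N _ (shI ι 1) (shI ι 0) _ (shD (fun k => el (x k)) d 0) =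
    rkM F (fromRows ((d 0).map (toQ F N)) (UC_X (fun k => toQ F N (el (x k))) (ι 0))) := by
  rw [← UC_mapX]
  have h : fromRows ((d 0).map (toQ F N)) ((shX (fun k => el (x k)) (ι 0)).map (toQ F N)) =
      (fromRows (d 0) (shX (fun k => el (x k)) (ι 0))).map (toQ F N) := by
    ext i j
    rcases i with i | i <;> rfl
  rw [h]
  rfl

theorem UC_q : Module.finrank F (MonoidAlgebra F (G ⧸ N)) = N.index := finrank_Q F N

theorem UC_ker (m : ℕ) (hm : m ≤ orderOf (QuotientGroup.mk (x 0) : G ⧸ N)) (b : Type) [Fintype b] :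
    m * (Fintype.card b * N.index) ≤
      m * Module.finrank F (LinearMap.range (diagR F (fun _ : b => 1 - toQ F N (el (x 0))))) +
        Fintype.card b * N.index := by
  have h1 := ker_diag F (Q := G ⧸ N) (n := b) (fun _ => [(QuotientGroup.mk (x 0) : G ⧸ N)]) m 1 (by
      intro i q hq
      rw [List.mem_singleton] at hq
      rw [hq]
      exact hm) (by intro i; simp)
  have he : (fun _ : b => (([(QuotientGroup.mk (x 0) : G ⧸ N)] : List (G ⧸ N)).map fun q =>
      (1 - MonoidAlgebra.single q 1 : MonoidAlgebra F (G ⧸ N))).prod) =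
      fun _ : b => (1 - toQ F N (el (x 0)) : MonoidAlgebra F (G ⧸ N)) := by
    funext i
    rw [toQ_el]
    simp
  rw [he, mul_one] at h1
  have h2 := LinearMap.finrank_range_add_finrank_ker
    (diagR F (fun _ : b => (1 - toQ F N (el (x 0)) : MonoidAlgebra F (G ⧸ N))))
  rw [UC_fin, UC_q] at h2
  have h3 : Nat.card (G ⧸ N) = N.index := rfl
  rw [h3] at h1
  rw [← h2, mul_add, h2]
  omega

theorem sh_upper (hc : ∀ n i j k, el (x k) * d n i j = d n i j * el (x k)) (hd : ∀ n, d (n + 1) * d n = 0) (n : ℕ) :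
    @rk F _ G _ N _ (shI ι (n + 2)) (shI ι (n + 1)) _ (shD (fun k => el (x k)) d (n + 1)) ≤
      Fintype.card (ι (n + 1)) * N.index + rk F N (d n) := by
  rw [UC_rk, ← UC_q F N]
  refine UC_upper F _ _ _ ?_ ?_
  · intro k i j
    rw [Matrix.map_apply, ← map_mul, ← map_mul, hc]
  · rw [← Matrix.map_mul, hd]
    ext i j
    rw [Matrix.map_apply, Matrix.zero_apply, Matrix.zero_apply, map_zero]

theorem sh_lower (m : ℕ) (hm : m ≤ orderOf (QuotientGroup.mk (x 0) : G ⧸ N)) (n : ℕ) :
    m * (Fintype.card (ι (n + 1)) * N.index + rk F N (d n)) ≤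
      m * @rk F _ G _ N _ (shI ι (n + 2)) (shI ι (n + 1)) _ (shD (fun k => el (x k)) d (n + 1)) +
        Fintype.card (ι (n + 1)) * N.index := by
  rw [UC_rk]
  have h1 := UC_lower F ((d (n + 1)).map (toQ F N)) ((d n).map (toQ F N)) (fun k => toQ F N (el (x k)))
  have h2 := UC_ker F N x m hm (ι (n + 1))
  have h3 := Nat.mul_le_mul_left m h1
  have h4 : rkM F ((d n).map (toQ F N)) = rk F N (d n) := rfl
  rw [h4, mul_add] at h3
  rw [mul_add]
  omega

theorem sh_lower0 (m : ℕ) (hm : m ≤ orderOf (QuotientGroup.mk (x 0) : G ⧸ N)) :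
    m * (Fintype.card (ι 0) * N.index) ≤
      m * @rk F _ G _ N _ (shI ι 1) (shI ι 0) _ (shD (fun k => el (x k)) d 0) + Fintype.card (ι 0) * N.index := by
  rw [UC_rk0]
  have h1 := UC_lower0 F ((d 0).map (toQ F N)) (fun k => toQ F N (el (x k)))
  have h2 := UC_ker F N x m hm (ι 0)
  have h3 := Nat.mul_le_mul_left m h1
  omega

end

end NBT
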