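import Pool.Agent.Lib.MP_83fbc5_gt.PCH
import Pool.Agent.Lib.MP_83fbc5_gt.FPP

/-!
# MP_83fbc5_gt, module UD: finite presentations and chains of products

PROOF. `prod_chain2`: `N i = (C.N i).prod (C₂.N i)` as in the module `PCH`. `fp_prod2`: as in the module `FPP`, with the commutators of the generators `φ (of i)` of `G` and `ψ (of j)` of `P` (`Fin n × Fin m`, finite); `Monoid.Coprod G P` is finitely presented (instance used in `FPP`).
(30-45 minutes)
-/

set_option autoImplicit false

namespace NBT

theorem prod_chain2 {G P : Type} [Group G] [Group P] (C : Chain G) (C₂ : Chain P) :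
    ∃ C' : Chain (G × P), ∀ i, (C'.N i).comap (MonoidHom.inl G P) = C.N i := by
  refine ⟨{ N := fun i => (C.N i).prod (C₂.N i), normal := fun i => inferInstance, fin := ?_, anti := ?_, bot := ?_ }, ?_⟩
  · intro i
    constructor
    rw [Subgroup.index_prod]
    exact mul_ne_zero Subgroup.FiniteIndex.index_ne_zero Subgroup.FiniteIndex.index_ne_zero
  · intro i j hij x hx
    rw [Subgroup.mem_prod] at hx ⊢
    exact ⟨C.anti hij hx.1, C₂.anti hij hx.2⟩
  · rw [eq_bot_iff]
    intro x hx
    rw [Subgroup.mem_iInf] at hx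
    rw [Subgroup.mem_bot]
    have h1 : x.1 = 1 := by
      have : x.1 ∈ ⨅ i, C.N i := by
        rw [Subgroup.mem_iInf]
        exact fun i => (Subgroup.mem_prod.1 (hx i)).1
      rw [C.bot] at this
      exact Subgroup.mem_bot.1 this
    have h2 : x.2 = 1 := by
      have : x.2 ∈ ⨅ i, C₂.N i := by
        rw [Subgroup.mem_iInf]
        exact fun i => (Subgroup.mem_prod.1 (hx i)).2
      rw [C₂.bot] at this
      exact Subgroup.mem_bot.1 this
    exact Prod.ext h1 h2
  · intro i
    ext x
    rw [Subgroup.mem_comap, Subgroup.mem_prod]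
    exact ⟨fun h => h.1, fun h => ⟨h, one_mem _⟩⟩

theorem fp_prod2 {G P : Type} [Group G] [Group P] (h : Group.IsFinitelyPresented G)
    (h' : Group.IsFinitelyPresented P) : Group.IsFinitelyPresented (G × P) := by
  obtain ⟨n, φ, hφ, _⟩ := h.out
  obtain ⟨m, ψ, hψ, _⟩ := h'.out
  let f : Monoid.Coprod G P →* G × P := Monoid.Coprod.toProd
  have hfl : ∀ g : G, f (Monoid.Coprod.inl g) = (g, 1) := fun g => rfl
  have hfr : ∀ a : P, f (Monoid.Coprod.inr a) = (1, a) := fun a => rfl
  have hf : Function.Surjective f := by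
    intro x
    refine ⟨Monoid.Coprod.inl x.1 * Monoid.Coprod.inr x.2, ?_⟩
    rw [map_mul, hfl, hfr]
    simp
  let c : G → P → Monoid.Coprod G P := fun g a => Monoid.Coprod.inl g * Monoid.Coprod.inr a * (Monoid.Coprod.inl g)⁻¹ *
    (Monoid.Coprod.inr a)⁻¹
  let S : Set (Monoid.Coprod G P) := Set.range fun i : Fin n × Fin m => c (φ (FreeGroup.of i.1)) (ψ (FreeGroup.of i.2))
  refine Group.IsFinitelyPresented.of_surjective f hf ⟨S, Set.finite_range _, ?_⟩
  apply le_antisymm
  · apply Subgroup.normalClosure_le_normal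
    rintro _ ⟨i, rfl⟩
    rw [SetLike.mem_coe, MonoidHom.mem_ker]
    simp only [c, map_mul, map_inv, hfl, hfr]
    ext <;> simp
  · set W := Subgroup.normalClosure S with hW
    let q : Monoid.Coprod G P →* Monoid.Coprod G P ⧸ W := QuotientGroup.mk' W
    -- generators commute
    have hc0 : ∀ (i : Fin n) (j : Fin m), Commute (q (Monoid.Coprod.inl (φ (FreeGroup.of i))))
        (q (Monoid.Coprod.inr (ψ (FreeGroup.of j)))) := by
      intro i j
      have h1 : q (c (φ (FreeGroup.of i)) (ψ (FreeGroup.of j))) = 1 := by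
        rw [← MonoidHom.mem_ker, QuotientGroup.ker_mk']
        exact Subgroup.subset_normalClosure ⟨(i, j), rfl⟩
      simp only [c, map_mul, map_inv] at h1
      rw [mul_inv_eq_one, mul_inv_eq_iff_eq_mul] at h1
      exact h1
    -- a generator of the first factor commutes with the image of the second factor
    have hc1 : ∀ (i : Fin n) (a : P), Commute (q (Monoid.Coprod.inl (φ (FreeGroup.of i)))) (q (Monoid.Coprod.inr a)) := by
      intro i
      have hcl : (⊤ : Subgroup (FreeGroup (Fin m))) ≤
          (Subgroup.centralizer {q (Monoid.Coprod.inl (φ (FreeGroup.of i)))}).comap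
            (q.comp (Monoid.Coprod.inr.comp ψ)) := by
        rw [← FreeGroup.closure_range_of, Subgroup.closure_le]
        rintro _ ⟨j, rfl⟩
        rw [SetLike.mem_coe, Subgroup.mem_comap, Subgroup.mem_centralizer_singleton_iff]
        exact (hc0 i j).symm
      intro a
      obtain ⟨w, rfl⟩ := hψ a
      have h1 := hcl (Subgroup.mem_top w)
      rw [Subgroup.mem_comap, Subgroup.mem_centralizer_singleton_iff] at h1
      exact Commute.symm h1
    have hc2 : ∀ (g : G) (a : P),
        Commute ((q.comp Monoid.Coprod.inl) g) ((q.comp Monoid.Coprod.inr) a) := by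
      intro g a
      have hcl : (⊤ : Subgroup (FreeGroup (Fin n))) ≤
          (Subgroup.centralizer {q (Monoid.Coprod.inr a)}).comap (q.comp (Monoid.Coprod.inl.comp φ)) := by
        rw [← FreeGroup.closure_range_of, Subgroup.closure_le]
        rintro _ ⟨i, rfl⟩
        rw [SetLike.mem_coe, Subgroup.mem_comap, Subgroup.mem_centralizer_singleton_iff]
        exact hc1 i a
      obtain ⟨w, rfl⟩ := hφ g
      have h1 := hcl (Subgroup.mem_top w)
      rw [Subgroup.mem_comap, Subgroup.mem_centralizer_singleton_iff] at h1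
      exact h1
    let F' : G × P →* Monoid.Coprod G P ⧸ W := MonoidHom.noncommCoprod _ _ hc2
    have hF : F'.comp f = q := by
      apply Monoid.Coprod.hom_ext
      · ext g
        simp only [MonoidHom.comp_apply, hfl]
        simp [F', MonoidHom.noncommCoprod_apply]
      · refine MonoidHom.ext fun a => ?_
        simp only [MonoidHom.comp_apply, hfr]
        simp [F', MonoidHom.noncommCoprod_apply]
    intro x hx
    rw [MonoidHom.mem_ker] at hx
    have h1 : q x = 1 := by
      rw [← hF, MonoidHom.comp_apply, hx, map_one]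
    rw [← MonoidHom.mem_ker, QuotientGroup.ker_mk'] at h1
    exact h1

end NBT
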