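import Pool.Agent.Lib.MP_83fbc5_gt.CDefs

/-!
# MP_83fbc5_gt, UDefs: products with a free group of rank two
-/

set_option autoImplicit false

namespace NBT

open Matrix

/-- what is used of a free group of rank two -/
structure F2D (P : Type) [Group P] (x : Fin 2 → P) : Prop where
  inj : ∀ a : Fin 2 → MonoidAlgebra ℤ P, ∑ k, a k * (el (x k) - 1) = 0 → a = 0
  gen : ∀ a : MonoidAlgebra ℤ P, eps P a = 0 → ∃ b : Fin 2 → MonoidAlgebra ℤ P, ∑ k, b k * (el (x k) - 1) = a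
  inf : ∀ (k : Fin 2) (j : ℕ), 0 < j → x k ^ j ≠ 1
  fp : Group.IsFinitelyPresented P
  ch : Nonempty (Chain P)

/-- index sets of the product resolution -/
def shI (ι : ℕ → Type) : ℕ → Type
  | 0 => ι 0
  | n + 1 => ι (n + 1) ⊕ (Fin 2 × ι n)

instance shF (ι : ℕ → Type) [i : ∀ n, Fintype (ι n)] : ∀ n, Fintype (shI ι n)
  | 0 => i 0
  | n + 1 => inferInstanceAs (Fintype (ι (n + 1) ⊕ (Fin 2 × ι n)))

/-- `(v_0, v_1) ↦ v_0 (x_0 - 1) + v_1 (x_1 - 1)` -/
noncomputable def shX {S : Type} [Ring S] (x : Fin 2 → S) (m : Type) : Matrix (Fin 2 × m) m S := by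
  classical
  exact Matrix.of fun p j => if p.2 = j then x p.1 - 1 else 0

/-- `(v_0, v_1) ↦ (- v_0 d, - v_1 d)` -/
def shK {S : Type} [Ring S] {m n : Type} (d : Matrix m n S) : Matrix (Fin 2 × m) (Fin 2 × n) S :=
  Matrix.of fun p q => if p.1 = q.1 then -d p.2 q.2 else 0

/-- differentials of the product resolution -/
noncomputable def shD {S : Type} [Ring S] (x : Fin 2 → S) {ι : ℕ → Type} (d : ∀ n, Matrix (ι (n + 1)) (ι n) S) :
    ∀ n, Matrix (shI ι (n + 1)) (shI ι n) S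
  | 0 => fromRows (d 0) (shX x (ι 0))
  | n + 1 => fromBlocks (d (n + 1)) 0 (shX x (ι (n + 1))) (shK (d n))

end NBT
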