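import Pool.Agent.Lib.MP_83fbc5_gt.CellDefs
import Pool.Agent.Lib.MP_83fbc5_gt.Basic

/-!
# MP_83fbc5_gt, XDefs: definitions for the sharp form of the equivalence

`HCok d1 d2 A`: the complex `ℤ[H]^F → ℤ[H]^E → ℤ[H]^V` (matrices `d2`, `d1`, row vectors) has `H_0 = ℤ` (augmentation = sum of the coefficients) and
`H_1 = coker A`, where the isomorphism is induced by a matrix `α` of 1-cycles.

`Wk H`: a free `H`-graph with vertices `H × V`, edges `H × E` and closed walks (orbits `Kk`); `W` is the set of positions of the walks, `nw` the next position. `Wk.cell`: the polygonal complex obtained by attaching a disc along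
each closed walk (ring of vertices `a w`, ring edges `r w`, spokes `q w`, squares `Q w`, polygons `P k`). `Wk.b1`, `Wk.b2`: boundary of the edges, chains of the closed walks.
-/

set_option autoImplicit false

namespace NBT

open Matrix

/-- `H_0 = ℤ`, `H_1 = coker A` -/
structure HCok {H : Type} [Group H] {V E F : Type} [Fintype V] [Fintype E] [Fintype F] {n m : ℕ}
    (d1 : Matrix E V (MonoidAlgebra ℤ H)) (d2 : Matrix F E (MonoidAlgebra ℤ H))
    (A : Matrix (Fin n) (Fin m) (MonoidAlgebra ℤ H)) : Prop where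
  ne : Nonempty V
  aug : ∀ e, ∑ i, eps H (d1 e i) = 0
  conn : ∀ u : V → MonoidAlgebra ℤ H, ∑ i, eps H (u i) = 0 → ∃ v, v ᵥ* d1 = u
  dd : d2 * d1 = 0
  ex : ∃ α : Matrix (Fin m) E (MonoidAlgebra ℤ H), α * d1 = 0 ∧
    (∀ u, u ᵥ* d1 = 0 → ∃ v x, u = v ᵥ* α + x ᵥ* d2) ∧
    ∀ v, (∃ x, v ᵥ* α = x ᵥ* d2) ↔ ∃ y, v = y ᵥ* A

/-- a free `H`-graph with closed walks -/
structure Wk (H : Type) [Group H] where
  V : Type
  E : Type
  W : Type
  Kk : Type
  finV : Finite V
  finE : Finite E
  finW : Finite W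
  finK : Finite Kk
  e0 : E → V
  e1 : E → V
  h0 : E → H
  h1 : E → H
  ne : ∀ e, e0 e ≠ e1 e
  kk : W → Kk
  nw : Equiv.Perm W
  kk_nw : ∀ w, kk (nw w) = kk w
  kk_surj : Function.Surjective kk
  trans : ∀ P : W → Prop, (∀ w, P w → P (nw w)) → ∀ w w', kk w = kk w' → P w → P w'
  nw_ne : ∀ w, nw w ≠ w
  we : W → E
  wg : W → H
  ws : W → Bool
  glue : ∀ w, (if ws w then e1 (we w) else e0 (we w)) = (if ws (nw w) then e0 (we (nw w)) else e1 (we (nw w)))
  glue_v : ∀ w, wg w * (if ws w then h1 (we w) else h0 (we w)) =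
    wg (nw w) * (if ws (nw w) then h0 (we (nw w)) else h1 (we (nw w)))

attribute [instance] Wk.finV Wk.finE Wk.finW Wk.finK

namespace Wk

variable {H : Type} [Group H] (K : Wk H)

noncomputable instance : Fintype K.V := Fintype.ofFinite _

noncomputable instance : Fintype K.E := Fintype.ofFinite _

noncomputable instance : Fintype K.W := Fintype.ofFinite _

noncomputable instance : Fintype K.Kk := Fintype.ofFinite _

noncomputable instance : DecidableEq K.V := Classical.decEq _

noncomputable instance : DecidableEq K.E := Classical.decEq _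

noncomputable instance : DecidableEq K.Kk := Classical.decEq _

/-- label of the starting vertex of a position -/
def bl (w : K.W) : K.V := if K.ws w then K.e0 (K.we w) else K.e1 (K.we w)

/-- group element of the starting vertex of a position -/
def bg (w : K.W) : H := K.wg w * (if K.ws w then K.h0 (K.we w) else K.h1 (K.we w))

theorem bl_nw (w : K.W) : (if K.ws w then K.e1 (K.we w) else K.e0 (K.we w)) = K.bl (K.nw w) := K.glue w

theorem bg_nw (w : K.W) : K.wg w * (if K.ws w then K.h1 (K.we w) else K.h0 (K.we w)) = K.bg (K.nw w) := K.glue_v w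

theorem bl_ne (w : K.W) : K.bl w ≠ K.bl (K.nw w) := by
  rw [← bl_nw]
  unfold bl
  split_ifs
  · exact K.ne _
  · exact (K.ne _).symm

/-- sign of a position -/
def wsn (w : K.W) : ℤ := if K.ws w then 1 else -1

/-- boundary of the edges -/
noncomputable def b1 : Matrix K.E K.V (MonoidAlgebra ℤ H) :=
  Matrix.of fun e => Pi.single (K.e1 e) (el (K.h1 e)) - Pi.single (K.e0 e) (el (K.h0 e))

/-- chains of the closed walks -/
noncomputable def b2 : Matrix K.Kk K.E (MonoidAlgebra ℤ H) :=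
  Matrix.of fun k => ∑ w : K.W, if K.kk w = k then Pi.single (K.we w) (K.wsn w • el (K.wg w)) else 0

def xe0 : K.E ⊕ (K.W ⊕ K.W) → K.V ⊕ K.W
  | .inl e => .inl (K.e0 e)
  | .inr (.inl w) => .inr w
  | .inr (.inr w) => .inr w

def xe1 : K.E ⊕ (K.W ⊕ K.W) → K.V ⊕ K.W
  | .inl e => .inl (K.e1 e)
  | .inr (.inl w) => .inr (K.nw w)
  | .inr (.inr w) => .inl (K.bl w)

def xh0 : K.E ⊕ (K.W ⊕ K.W) → H
  | .inl e => K.h0 e
  | _ => 1

def xh1 : K.E ⊕ (K.W ⊕ K.W) → H
  | .inl e => K.h1 e
  | .inr (.inl _) => 1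
  | .inr (.inr w) => K.bg w

def xface : K.W ⊕ (K.W × Fin 4) → K.W ⊕ K.Kk
  | .inl w => .inr (K.kk w)
  | .inr (w, _) => .inl w

def xnx : K.W ⊕ (K.W × Fin 4) → K.W ⊕ (K.W × Fin 4)
  | .inl w => .inl (K.nw w)
  | .inr (w, i) => .inr (w, i + 1)

def xpv : K.W ⊕ (K.W × Fin 4) → K.W ⊕ (K.W × Fin 4)
  | .inl w => .inl (K.nw.symm w)
  | .inr (w, i) => .inr (w, i - 1)

def xed : K.W ⊕ (K.W × Fin 4) → K.E ⊕ (K.W ⊕ K.W)
  | .inl w => .inr (.inl w)
  | .inr (w, 0) => .inr (.inr w)
  | .inr (w, 1) => .inl (K.we w)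
  | .inr (w, 2) => .inr (.inr (K.nw w))
  | .inr (w, 3) => .inr (.inl w)

def xsv : K.W ⊕ (K.W × Fin 4) → H
  | .inr (w, 1) => K.wg w
  | _ => 1

def xsg : K.W ⊕ (K.W × Fin 4) → Bool
  | .inl _ => true
  | .inr (_, 0) => true
  | .inr (w, 1) => K.ws w
  | .inr (_, 2) => false
  | .inr (_, 3) => false

theorem g4 (p : Fin 4) : p = 0 ∨ p = 1 ∨ p = 2 ∨ p = 3 := by
  revert p; decide

/-- label of the starting vertex of a side -/
theorem xst (s : K.W ⊕ (K.W × Fin 4)) : (if K.xsg s then K.xe0 (K.xed s) else K.xe1 (K.xed s)) =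
    match s with
    | .inl w => .inr w
    | .inr (w, 0) => .inr w
    | .inr (w, 1) => .inl (K.bl w)
    | .inr (w, 2) => .inl (K.bl (K.nw w))
    | .inr (w, 3) => .inr (K.nw w) := by
  rcases s with w | ⟨w, i⟩
  · simp [xsg, xed, xe0]
  · rcases g4 i with rfl | rfl | rfl | rfl
    · simp [xsg, xed, xe0]
    · simp only [xsg, xed, xe0, xe1, bl]
      split_ifs <;> rfl
    · simp [xsg, xed, xe1]
    · simp [xsg, xed, xe1]

/-- group element of the starting vertex of a side -/
theorem xsw (s : K.W ⊕ (K.W × Fin 4)) : K.xsv s * (if K.xsg s then K.xh0 (K.xed s) else K.xh1 (K.xed s)) =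
    match s with
    | .inl _ => 1
    | .inr (_, 0) => 1
    | .inr (w, 1) => K.bg w
    | .inr (w, 2) => K.bg (K.nw w)
    | .inr (_, 3) => 1 := by
  rcases s with w | ⟨w, i⟩
  · simp [xsg, xed, xh0, xsv]
  · rcases g4 i with rfl | rfl | rfl | rfl
    · simp [xsg, xed, xh0, xsv]
    · simp only [xsg, xed, xh0, xh1, bg, xsv]
    · simp [xsg, xed, xh1, xsv]
    · simp [xsg, xed, xh1, xsv]

theorem xtrans (P : K.W ⊕ (K.W × Fin 4) → Prop) (hP : ∀ s, P s → P (K.xnx s)) (s s' : K.W ⊕ (K.W × Fin 4))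
    (hs : K.xface s = K.xface s') (h : P s) : P s' := by
  rcases s with w | ⟨w, i⟩ <;> rcases s' with w' | ⟨w', i'⟩
  · have hk : K.kk w = K.kk w' := by simpa [xface] using hs
    exact K.trans (fun w => P (.inl w)) (fun w hw => hP _ hw) w w' hk h
  · simp [xface] at hs
  · simp [xface] at hs
  · have hw : w = w' := by simpa [xface] using hs
    subst hw
    have h1 := hP _ h
    have h2 := hP _ h1
    have h3 := hP _ h2
    simp only [xnx] at h1 h2 h3
    rcases g4 i with rfl | rfl | rfl | rfl <;> rcases g4 i' with rfl | rfl | rfl | rfl <;>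
      first | exact h | exact h1 | exact h2 | exact h3

theorem xed_inj (s s' : K.W ⊕ (K.W × Fin 4)) (hs : K.xface s = K.xface s') (h : K.xed s = K.xed s') : s = s' := by
  rcases s with w | ⟨w, i⟩ <;> rcases s' with w' | ⟨w', i'⟩
  · simpa [xed] using h
  · simp [xface] at hs
  · simp [xface] at hs
  · have hw : w = w' := by simpa [xface] using hs
    subst hw
    have e4 := K.nw_ne w
    rcases g4 i with rfl | rfl | rfl | rfl <;> rcases g4 i' with rfl | rfl | rfl | rfl <;>
      simp only [xed] at h <;>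
      first
      | rfl
      | (exfalso; revert h; simp; done)
      | (simp only [Sum.inr.injEq] at h; exact absurd h e4)
      | (simp only [Sum.inr.injEq] at h; exact absurd h.symm e4)

theorem xst_inj (s s' : K.W ⊕ (K.W × Fin 4)) (hs : K.xface s = K.xface s')
    (h : (if K.xsg s then K.xe0 (K.xed s) else K.xe1 (K.xed s)) =
      (if K.xsg s' then K.xe0 (K.xed s') else K.xe1 (K.xed s'))) : s = s' := by
  rw [xst, xst] at h
  rcases s with w | ⟨w, i⟩ <;> rcases s' with w' | ⟨w', i'⟩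
  · simpa using h
  · simp [xface] at hs
  · simp [xface] at hs
  · have hw : w = w' := by simpa [xface] using hs
    subst hw
    have e5 := K.bl_ne w
    have e6 := K.nw_ne w
    rcases g4 i with rfl | rfl | rfl | rfl <;> rcases g4 i' with rfl | rfl | rfl | rfl <;>
      simp only [Sum.inr.injEq, Sum.inl.injEq, reduceCtorEq] at h <;>
      first
      | rfl
      | exact h.elim
      | exact absurd h e5
      | exact absurd h.symm e5
      | exact absurd h e6
      | exact absurd h.symm e6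

theorem xglue (s : K.W ⊕ (K.W × Fin 4)) : (if K.xsg s then K.xe1 (K.xed s) else K.xe0 (K.xed s)) =
    (if K.xsg (K.xnx s) then K.xe0 (K.xed (K.xnx s)) else K.xe1 (K.xed (K.xnx s))) := by
  rw [xst]
  rcases s with w | ⟨w, i⟩
  · simp [xsg, xed, xe1, xnx]
  · rcases g4 i with rfl | rfl | rfl | rfl
    · simp [xsg, xed, xe1, xnx]
    · have := K.bl_nw w
      simp only [xsg, xed, xe0, xe1, xnx]
      show _ = Sum.inl (K.bl (K.nw w))
      rw [← this]
      split_ifs <;> rfl
    · simp [xsg, xed, xe0, xnx]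
    · simp [xsg, xed, xe0, xnx]

theorem xglue_v (s : K.W ⊕ (K.W × Fin 4)) : K.xsv s * (if K.xsg s then K.xh1 (K.xed s) else K.xh0 (K.xed s)) =
    K.xsv (K.xnx s) * (if K.xsg (K.xnx s) then K.xh0 (K.xed (K.xnx s)) else K.xh1 (K.xed (K.xnx s))) := by
  rw [xsw]
  rcases s with w | ⟨w, i⟩
  · simp [xsg, xed, xh1, xnx, xsv]
  · rcases g4 i with rfl | rfl | rfl | rfl
    · simp [xsg, xed, xh1, xnx, xsv]
    · have := K.bg_nw w
      simp only [xsg, xed, xh0, xh1, xnx, xsv]
      exact this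
    · simp [xsg, xed, xh0, xnx, xsv]
    · simp [xsg, xed, xh0, xnx, xsv]

/-- the polygonal complex: discs attached along the closed walks -/
noncomputable def cell : Cell H where
  C0 := K.V ⊕ K.W
  C1 := K.E ⊕ (K.W ⊕ K.W)
  C2 := K.W ⊕ K.Kk
  S := K.W ⊕ (K.W × Fin 4)
  fin0 := inferInstance
  fin1 := inferInstance
  fin2 := inferInstance
  finS := inferInstance
  e0 := K.xe0
  e1 := K.xe1
  h0 := K.xh0
  h1 := K.xh1
  ne := by
    rintro (e | w | w)
    · simpa [xe0, xe1] using K.ne e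
    · simpa [xe0, xe1] using (K.nw_ne w).symm
    · simp [xe0, xe1]
  face := K.xface
  nx :=
    { toFun := K.xnx
      invFun := K.xpv
      left_inv := by
        rintro (w | ⟨w, i⟩) <;> simp [xnx, xpv]
      right_inv := by
        rintro (w | ⟨w, i⟩) <;> simp [xnx, xpv] }
  ed := K.xed
  sv := K.xsv
  sg := K.xsg
  face_nx := by
    rintro (w | ⟨w, i⟩)
    · show K.xface (K.xnx (.inl w)) = _
      simp [xnx, xface, K.kk_nw]
    · rfl
  face_surj := by
    rintro (w | k)
    · exact ⟨.inr (w, 0), rfl⟩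
    · obtain ⟨w, rfl⟩ := K.kk_surj k
      exact ⟨.inl w, rfl⟩
  ed_inj := K.xed_inj
  st_inj := K.xst_inj
  glue := K.xglue
  glue_v := K.xglue_v
  trans := K.xtrans

end Wk

end NBT
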