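import Pool.Agent.Lib.MP_83fbc5_gt.XG2
import Pool.Agent.Lib.MP_83fbc5_gt.XDefs
import Pool.Agent.Lib.MP_83fbc5_gt.BET

/-!
# MP_83fbc5_gt, module XCC: the mapping cone of the chain map to the resolution

PROOF. Apply `cone_ranks` with `X0 = R.ι 0`, `X1 = L.I ⊕ R.ι 1`, `X2 = L.J2 ⊕ R.ι 2`, `X3 = L.J3 ⊕ R.ι 3`, `M0 = fromRows φ0 (R.d 0)`, `M1 = fromBlocks L.bd2 φ1 0 (R.d 1)`, `M2 = fromBlocks L.bd3 φ2 0 (R.d 2)`; row vectors are pairs `(c, r)` with `(c, r) M0 = c φ0 + r d0`, `(c, r) M1 = (c bd2, c φ1 + r d1)` etc. (`Sum.elim`, `Matrix.vecMul_fromBlocks`-like). `aug` denotes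
`∑ eps (·) * R.aug`. `h10`, `h21` from `h1`, `h2`, `hL.dd`, `dd`. `hsurj`: for `u` take `i : L.I` (`hL.ne`), `u - (Pi.single i (aug u)) φ0` has augmentation 0, so it is `r d0`. `hex`: `c φ0 + r d0 = 0` gives `∑ eps (c i) = 0` (`aug (c φ0) = ∑ eps (c i)` by `h0`, `aug (r d0) = 0`), so `c = v bd2` (`hL.conn`), and `(r - v φ1) d0 = 0`, so `r - v φ1 = w d1`: `(c, r) = (v, w) M1`.
`α''`: rows `(α j, r j)` with `(α j) φ1 + r j d1 = 0`: exists as `(α j) φ1 d0 = - (α j) bd2 φ0 = 0`. `hcyc`: `(c, r) M1 = 0`: `c = v α + x bd3` (`hL.ex`), `(c, r) - v α'' - (x, 0) M2 = (0, r')` with `r' d1 = 0`, `r' = w d2`. `hα`: `v α'' = (x, w) M2` gives `v α = x bd3`, so `v = y A`; conversely `v = y A` gives `v α = x bd3` and `v α'' - (x, 0) M2 = (0, r')`, `r' d1 = 0`,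
`r' = w d2`. Then rewrite the cards (`Fintype.card_sum`).
(60-80 minutes)
-/

set_option autoImplicit false

namespace NBT

open Matrix Module

universe w

private theorem XCC_vmB {H : Type} [Group H] {a b c d : Type} [Fintype a] [Fintype b]
    (A : Matrix a c (MonoidAlgebra ℤ H)) (B : Matrix a d (MonoidAlgebra ℤ H)) (E : Matrix b d (MonoidAlgebra ℤ H))
    (x : a → MonoidAlgebra ℤ H) (y : b → MonoidAlgebra ℤ H) :
    Sum.elim x y ᵥ* fromBlocks A B 0 E = Sum.elim (x ᵥ* A) (x ᵥ* B + y ᵥ* E) := by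
  rw [Matrix.vecMul_fromBlocks, Sum.elim_comp_inl, Sum.elim_comp_inr, Matrix.vecMul_zero, add_zero]

private theorem XCC_elim {X a b : Type} (u : a ⊕ b → X) : ∃ c r, u = Sum.elim c r :=
  ⟨u ∘ Sum.inl, u ∘ Sum.inr, (Sum.elim_comp_inl_inr u).symm⟩

private theorem XCC_elim_add {X a b : Type} [Add X] (c c' : a → X) (r r' : b → X) :
    Sum.elim c r + Sum.elim c' r' = Sum.elim (c + c') (r + r') := by
  ext i
  rcases i with i | i <;> rfl

private theorem XCC_elim_inj {X a b : Type} {c c' : a → X} {r r' : b → X}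
    (h : Sum.elim c r = Sum.elim c' r') : c = c' ∧ r = r' :=
  ⟨by simpa using congrArg (fun f => f ∘ Sum.inl) h, by simpa using congrArg (fun f => f ∘ Sum.inr) h⟩

private theorem XCC_elim_zero {X a b : Type} [Zero X] :
    (0 : a ⊕ b → X) = Sum.elim (0 : a → X) (0 : b → X) := by
  ext i
  rcases i with i | i <;> rfl

theorem cone_hcok (F : Type w) [Field F] {H : Type} [Group H] (L : VG H) {D : ℕ} (R : FFR H D) {n m : ℕ}
    (A : Matrix (Fin n) (Fin m) (MonoidAlgebra ℤ H)) (hL : HCok L.bd2 L.bd3 A)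
    (φ0 : Matrix L.I (R.ι 0) (MonoidAlgebra ℤ H)) (φ1 : Matrix L.J2 (R.ι 1) (MonoidAlgebra ℤ H))
    (φ2 : Matrix L.J3 (R.ι 2) (MonoidAlgebra ℤ H)) (h0 : ∀ i, ∑ j, eps H (φ0 i j) * R.aug j = 1)
    (h1 : L.bd2 * φ0 + φ1 * R.d 0 = 0) (h2 : L.bd3 * φ1 + φ2 * R.d 1 = 0)
    (N : Subgroup H) [N.Normal] [N.FiniteIndex] :
    rk F N (fromBlocks L.bd2 φ1 0 (R.d 1)) + Fintype.card (R.ι 0) * N.index =
        (Fintype.card L.I + Fintype.card (R.ι 1)) * N.index ∧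
      rk F N (fromBlocks L.bd2 φ1 0 (R.d 1)) + rk F N (fromBlocks L.bd3 φ2 0 (R.d 2)) + m * N.index =
        (Fintype.card L.J2 + Fintype.card (R.ι 2)) * N.index + rk F N A := by
  classical
  obtain ⟨α, hα1, hα2, hα3⟩ := hL.ex
  -- augmentation
  have augφ : ∀ c : L.I → MonoidAlgebra ℤ H,
      ∑ j, eps H ((c ᵥ* φ0) j) * R.aug j = ∑ i, eps H (c i) := by
    intro c
    have e1 : ∀ j, eps H ((c ᵥ* φ0) j) * R.aug j = ∑ i, eps H (c i) * (eps H (φ0 i j) * R.aug j) := by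
      intro j
      rw [Matrix.vecMul, dotProduct, map_sum, Finset.sum_mul]
      refine Finset.sum_congr rfl fun i _ => ?_
      rw [map_mul, mul_assoc]
    simp only [e1]
    rw [Finset.sum_comm]
    refine Finset.sum_congr rfl fun i _ => ?_
    rw [← Finset.mul_sum, h0 i, mul_one]
  have hdd0 : R.d 1 * R.d 0 = 0 := dd R 0
  have hdd1 : R.d 2 * R.d 1 = 0 := dd R 1
  have hφ0 : ∀ v : L.J2 → MonoidAlgebra ℤ H, (v ᵥ* L.bd2) ᵥ* φ0 + (v ᵥ* φ1) ᵥ* R.d 0 = 0 := by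
    intro v
    rw [Matrix.vecMul_vecMul, Matrix.vecMul_vecMul, ← Matrix.vecMul_add, h1, Matrix.vecMul_zero]
  have hφ1 : ∀ v : L.J3 → MonoidAlgebra ℤ H, (v ᵥ* L.bd3) ᵥ* φ1 + (v ᵥ* φ2) ᵥ* R.d 1 = 0 := by
    intro v
    rw [Matrix.vecMul_vecMul, Matrix.vecMul_vecMul, ← Matrix.vecMul_add, h2, Matrix.vecMul_zero]
  -- the cycles
  have hw : ∀ j : Fin m, ∃ w : R.ι 2 → MonoidAlgebra ℤ H, w ᵥ* R.d 1 = -((α j) ᵥ* φ1) := by
    intro j
    refine (R.exact 0 _).1 ?_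
    have e1 := hφ0 (α j)
    have e2 : (α j) ᵥ* L.bd2 = 0 := by
      have := congrFun hα1 j
      rw [Matrix.mul_apply_eq_vecMul] at this
      exact this
    rw [e2, Matrix.zero_vecMul, zero_add] at e1
    rw [Matrix.neg_vecMul, e1, neg_zero]
  choose ρ hρ using hw
  have hρe : α * φ1 + Matrix.of ρ * R.d 1 = 0 := by
    funext j
    show (α * φ1) j + (Matrix.of ρ * R.d 1) j = 0
    rw [Matrix.mul_apply_eq_vecMul, Matrix.mul_apply_eq_vecMul]
    have e1 : Matrix.of ρ j ᵥ* R.d 1 = -((α j) ᵥ* φ1) := hρ j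
    rw [e1, add_neg_cancel]
  have hρ2 : ∀ v : Fin m → MonoidAlgebra ℤ H,
      (v ᵥ* α) ᵥ* φ1 + (v ᵥ* Matrix.of ρ) ᵥ* R.d 1 = 0 := by
    intro v
    rw [Matrix.vecMul_vecMul, Matrix.vecMul_vecMul, ← Matrix.vecMul_add, hρe, Matrix.vecMul_zero]
  have hfc : ∀ v : Fin m → MonoidAlgebra ℤ H,
      v ᵥ* fromCols α (Matrix.of ρ) = Sum.elim (v ᵥ* α) (v ᵥ* Matrix.of ρ) := fun v =>
    Matrix.vecMul_fromCols _ _ _
  have hmain := cone_ranks F (X0 := R.ι 0) (X1 := L.I ⊕ R.ι 1) (X2 := L.J2 ⊕ R.ι 2) (X3 := L.J3 ⊕ R.ι 3)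
    (fromRows φ0 (R.d 0)) (fromBlocks L.bd2 φ1 0 (R.d 1)) (fromBlocks L.bd3 φ2 0 (R.d 2)) A
    (fromCols α (Matrix.of ρ)) ?_ ?_ ?_ ?_ ?_ ?_ ?_ N
  · rw [Fintype.card_sum, Fintype.card_sum] at hmain
    exact hmain
  · rw [Matrix.fromBlocks_mul_fromRows, h1, hdd0, Matrix.zero_mul, add_zero]
    ext i j
    rcases i with i | i <;> rfl
  · rw [Matrix.fromBlocks_multiply, hL.dd, h2, hdd1]
    simp
  · intro u
    obtain ⟨i⟩ := hL.ne
    obtain ⟨r, hr⟩ := (R.exact0 (u - (Pi.single i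
      (((∑ j, eps H (u j) * R.aug j : ℤ)) : MonoidAlgebra ℤ H) : L.I → MonoidAlgebra ℤ H) ᵥ* φ0)).1 (by
        simp only [Pi.sub_apply, map_sub, sub_mul, Finset.sum_sub_distrib]
        rw [augφ, Finset.sum_eq_single i]
        · rw [Pi.single_eq_same, map_intCast, Int.cast_id, sub_self]
        · intro b _ hb
          rw [Pi.single_eq_of_ne hb, map_zero]
        · intro h
          exact absurd (Finset.mem_univ i) h)
    refine ⟨Sum.elim (Pi.single i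
      (((∑ j, eps H (u j) * R.aug j : ℤ)) : MonoidAlgebra ℤ H)) r, ?_⟩
    rw [Matrix.sumElim_vecMul_fromRows, hr]
    abel
  · intro u hu
    obtain ⟨c, r, rfl⟩ := XCC_elim u
    rw [Matrix.sumElim_vecMul_fromRows] at hu
    have e1 : ∑ i, eps H (c i) = 0 := by
      rw [← augφ]
      have e2 : c ᵥ* φ0 = (-r) ᵥ* R.d 0 := by
        rw [Matrix.neg_vecMul]
        exact eq_neg_of_add_eq_zero_left hu
      rw [e2]
      exact (R.exact0 _).2 ⟨_, rfl⟩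
    obtain ⟨v, hv⟩ := hL.conn c e1
    obtain ⟨w, hw⟩ := (R.exact 0 (r - v ᵥ* φ1)).1 (by
      rw [Matrix.sub_vecMul]
      have e3 := hφ0 v
      rw [hv] at e3
      rw [← hu] at e3
      have e4 := add_left_cancel e3
      rw [e4, sub_self])
    refine ⟨Sum.elim v w, ?_⟩
    rw [XCC_vmB, hv, hw]
    congr 1
    abel
  · rw [Matrix.fromCols_mul_fromBlocks, hα1, hρe, Matrix.mul_zero, add_zero]
    ext i j
    rcases j with j | j <;> rfl
  · intro u hu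
    obtain ⟨c, r, rfl⟩ := XCC_elim u
    rw [XCC_vmB, XCC_elim_zero] at hu
    obtain ⟨hu1, hu2⟩ := XCC_elim_inj hu
    obtain ⟨v, x, hvx⟩ := hα2 c hu1
    obtain ⟨w, hw⟩ := (R.exact 1 (r - v ᵥ* Matrix.of ρ - x ᵥ* φ2)).1 (by
      rw [Matrix.sub_vecMul, Matrix.sub_vecMul]
      have e1 := hρ2 v
      have e2 := hφ1 x
      rw [hvx, Matrix.add_vecMul] at hu2
      have e3 : r ᵥ* R.d 1 = -((v ᵥ* α) ᵥ* φ1) + -((x ᵥ* L.bd3) ᵥ* φ1) := by
        rw [← neg_add]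
        exact eq_neg_of_add_eq_zero_right hu2
      rw [e3, eq_neg_of_add_eq_zero_left e1, eq_neg_of_add_eq_zero_left e2]
      abel)
    refine ⟨v, Sum.elim x w, ?_⟩
    rw [hfc, XCC_vmB, XCC_elim_add, ← hvx, hw]
    congr 1
    abel
  · intro v
    constructor
    · rintro ⟨x, hx⟩
      obtain ⟨x1, x2, rfl⟩ := XCC_elim x
      rw [hfc, XCC_vmB] at hx
      exact (hα3 v).1 ⟨x1, (XCC_elim_inj hx).1⟩
    · intro hy
      obtain ⟨x, hx⟩ := (hα3 v).2 hy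
      obtain ⟨w, hw⟩ := (R.exact 1 (v ᵥ* Matrix.of ρ - x ᵥ* φ2)).1 (by
        rw [Matrix.sub_vecMul]
        have e1 := hρ2 v
        have e2 := hφ1 x
        rw [hx] at e1
        have e3 := e1.trans e2.symm
        have e4 := add_left_cancel e3
        rw [e4, sub_self])
      refine ⟨Sum.elim x w, ?_⟩
      rw [hfc, XCC_vmB, hx, hw]
      congr 1
      abel

end NBT
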