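import Pool.Agent.Lib.MP_83fbc5_gt.PHI2

/-!
# MP_83fbc5_gt, module XE: ranks of the block matrices

PROOF. As in module `PHI2` (on main): `fromBlocks K2 (diagonal P2 * φ) 0 d * fromBlocks (diagonal P1) 0 0 1 = fromBlocks (diagonal P2) 0 0 1 * fromBlocks (bd2.map ι) φ 0 d` by `K2_mul` (`Matrix.fromBlocks_multiply`), with `ι = ind L.iH`, and the same for `K3`. After mapping to `F[Q]`, `Q = GG/N`, the matrices `fromBlocks (diagonal P) 0 0 1` act by right multiplication of the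
coordinates by products of at most three factors `1 - q` (empty product on the second block), so `ker_diag` bounds the kernels by `m * dim ≤ (card J + card κ) * 3 * |Q|`; `rank_intertwine` gives both inequalities.
(50-70 minutes)
-/

set_option autoImplicit false

namespace NBT

open Matrix RaagIso

universe w

open Module VG

private theorem XE_mul {H : Type} [Group H] (L : VG H) {a b κ1 κ2 : Type} [Fintype a] [DecidableEq a] [Fintype b]
    [DecidableEq b] [Fintype κ1] [DecidableEq κ1] [Fintype κ2] [DecidableEq κ2]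
    (K B : Matrix a b (MonoidAlgebra ℤ L.GG)) (P : a → MonoidAlgebra ℤ L.GG) (P' : b → MonoidAlgebra ℤ L.GG)
    (φ : Matrix a κ1 (MonoidAlgebra ℤ L.GG)) (d : Matrix κ2 κ1 (MonoidAlgebra ℤ L.GG))
    (hKB : K * Matrix.diagonal P' = Matrix.diagonal P * B) :
    (fromBlocks K (Matrix.diagonal P * φ) 0 d : Matrix (a ⊕ κ2) (b ⊕ κ1) (MonoidAlgebra ℤ L.GG)) *
      (Matrix.diagonal (Sum.elim P' 1) : Matrix (b ⊕ κ1) (b ⊕ κ1) (MonoidAlgebra ℤ L.GG)) =
      (Matrix.diagonal (Sum.elim P 1) : Matrix (a ⊕ κ2) (a ⊕ κ2) (MonoidAlgebra ℤ L.GG)) *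
        (fromBlocks B φ 0 d : Matrix (a ⊕ κ2) (b ⊕ κ1) (MonoidAlgebra ℤ L.GG)) := by
  have h1 : Matrix.diagonal (Sum.elim P' (1 : κ1 → MonoidAlgebra ℤ L.GG)) =
      fromBlocks (Matrix.diagonal P') 0 0 1 := (Matrix.fromBlocks_diagonal P' 1).symm
  have h2 : Matrix.diagonal (Sum.elim P (1 : κ2 → MonoidAlgebra ℤ L.GG)) =
      fromBlocks (Matrix.diagonal P) 0 0 1 := (Matrix.fromBlocks_diagonal P 1).symm
  rw [h1, h2, Matrix.fromBlocks_multiply, Matrix.fromBlocks_multiply, hKB]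
  simp only [Matrix.mul_zero, Matrix.zero_mul, Matrix.mul_one, Matrix.one_mul, add_zero, zero_add]

theorem block_rank (F : Type w) [Field F] {H : Type} [Group H] (L : VG H) {κ1 κ2 κ3 : Type} [Fintype κ1] [Fintype κ2]
    [Fintype κ3] (φ1 : Matrix L.J2 κ1 (MonoidAlgebra ℤ H)) (φ2 : Matrix L.J3 κ2 (MonoidAlgebra ℤ H))
    (d1 : Matrix κ2 κ1 (MonoidAlgebra ℤ H)) (d2 : Matrix κ3 κ2 (MonoidAlgebra ℤ H)) :
    ∃ c : ℕ, ∀ (N : Subgroup L.GG) [N.Normal] [N.FiniteIndex] (m : ℕ),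
      (∀ i, m ≤ orderOf (QuotientGroup.mk (L.X (1, i)) : L.GG ⧸ N)) →
      (m : ℤ) * |(rk F N (fromBlocks L.K2 (Matrix.diagonal L.P2 * φ1.map (ind L.iH)) 0 (d1.map (ind L.iH))) : ℤ) -
        rk F N ((fromBlocks L.bd2 φ1 0 d1).map (ind L.iH))| ≤ c * N.index ∧
      (m : ℤ) * |(rk F N (fromBlocks L.K3 (Matrix.diagonal L.P3 * φ2.map (ind L.iH)) 0 (d2.map (ind L.iH))) : ℤ) -
        rk F N ((fromBlocks L.bd3 φ2 0 d2).map (ind L.iH))| ≤ c * N.index := by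
  classical
  refine ⟨(Fintype.card (L.I ⊕ κ1) * 3 + Fintype.card (L.J2 ⊕ κ2) * 3) +
    (Fintype.card (L.J2 ⊕ κ2) * 3 + Fintype.card (L.J3 ⊕ κ3) * 3), ?_⟩
  intro N _ _ m hm
  have k1 := PHI2_ker F L N m hm (n := L.I ⊕ κ1) (Sum.elim (fun i => [(1, i)]) (fun _ => []))
    (by rintro (i | i) <;> simp) (Sum.elim L.P1 1)
    (by rintro (i | i) <;> simp [P1])
  have k2 := PHI2_ker F L N m hm (n := L.J2 ⊕ κ2)
    (Sum.elim (fun p : L.J2 => [(1, p.1.1), (L.g p.1.1 p.1.2, p.1.2)]) (fun _ => []))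
    (by rintro (i | i) <;> simp) (Sum.elim L.P2 1) (by rintro (i | i) <;> simp [P2])
  have k3 := PHI2_ker F L N m hm (n := L.J3 ⊕ κ3)
    (Sum.elim (fun p : L.J3 => [(1, p.1.1), (L.g p.1.1 p.1.2.1, p.1.2.1),
    (L.g p.1.1 p.1.2.2, p.1.2.2)]) (fun _ => []))
    (by rintro (i | i) <;> simp) (Sum.elim L.P3 1) (by rintro (i | i) <;> simp [P3, mul_assoc])
  have hI : (0 : ℤ) ≤ N.index := Int.natCast_nonneg _
  have m2 : (fromBlocks L.bd2 φ1 0 d1).map (ind L.iH) =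
      fromBlocks (L.bd2.map (ind L.iH)) (φ1.map (ind L.iH)) 0 (d1.map (ind L.iH)) := by
    rw [Matrix.fromBlocks_map, Matrix.map_zero _ (map_zero _)]
  have m3 : (fromBlocks L.bd3 φ2 0 d2).map (ind L.iH) =
      fromBlocks (L.bd3.map (ind L.iH)) (φ2.map (ind L.iH)) 0 (d2.map (ind L.iH)) := by
    rw [Matrix.fromBlocks_map, Matrix.map_zero _ (map_zero _)]
  rw [m2, m3]
  constructor
  · refine (PHI2_gen F L N m _ _ _ _ (XE_mul L L.K2 _ L.P2 L.P1 (φ1.map (ind L.iH)) (d1.map (ind L.iH)) L.K2_mul)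
      k1 k2).trans ?_
    refine mul_le_mul_of_nonneg_right ?_ hI
    exact_mod_cast Nat.le_add_right _ _
  · refine (PHI2_gen F L N m _ _ _ _ (XE_mul L L.K3 _ L.P3 L.P2 (φ2.map (ind L.iH)) (d2.map (ind L.iH)) L.K3_mul)
      k2 k3).trans ?_
    refine mul_le_mul_of_nonneg_right ?_ hI
    exact_mod_cast Nat.le_add_left _ _

end NBT
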