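import Pool.Agent.Lib.MP_83fbc5_gt.SPL2
import Pool.Agent.Lib.MP_83fbc5_gt.KG3
import Pool.Agent.Lib.MP_83fbc5_gt.EQV
import Pool.Agent.Lib.MP_83fbc5_gt.IND
import Pool.Agent.Lib.MP_83fbc5_gt.PHI1

/-!
# MP_83fbc5_gt, module XT: the resolution of `GG` with explicit connecting matrices

PROOF. Apply `splice_exists` as in module `RESG` (on main: copy the arguments) with `T1 = diagonal P1 * φ0.map ι`, `T2 = diagonal P2 * φ1.map ι`, `T3 = diagonal P3 * φ2.map ι`, `ι = ind L.iH`. `t1`: `eP left aug (u ᵥ* T1) = eK u`: additive in `u`, for `u = Pi.single i (el x)`: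
`el x * om (1, i) * ι (φ0 i j)` has image `∑_j aug j • pf left (..)`; `pf left (y * ι z) = eps z • pf left y` (right multiplication by elements of `H` does not change the coset), so the sum is `(∑_j eps (φ0 i j) * aug j) • pf left (el x * om (1, i)) = pf left (el x - el x * el (X (1, i)))`, as in the definition of `eK`.
`t2`: `K2 * diagonal P1 * φ0.map + diagonal P2 * φ1.map * (d 0).map = diagonal P2 * ((bd2 * φ0 + φ1 * d 0).map) = 0` by `K2_mul`; `t3` in the same way by `K3_mul`.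
(50-70 minutes)
-/

set_option autoImplicit false

namespace NBT

open Matrix RaagIso

universe w

/-- right multiplication by the elements of `H` does not change the cosets -/
private theorem XT_pf_mul_ind {H : Type} [Group H] (L : VG H) (y : MonoidAlgebra ℤ L.GG) (z : MonoidAlgebra ℤ H) :
    pf (SemidirectProduct.left : L.GG → RA L.gr) (y * ind L.iH z) =
      eps H z • pf (SemidirectProduct.left : L.GG → RA L.gr) y := by
  have hpneg : ∀ x : MonoidAlgebra ℤ L.GG, pf (SemidirectProduct.left : L.GG → RA L.gr) (-x) =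
      -pf (SemidirectProduct.left : L.GG → RA L.gr) x := fun x =>
    map_neg (AddMonoidHom.mk' (pf (SemidirectProduct.left : L.GG → RA L.gr)) (pf_add _)) x
  refine zg_ind (P := fun z => pf (SemidirectProduct.left : L.GG → RA L.gr) (y * ind L.iH z) =
      eps H z • pf (SemidirectProduct.left : L.GG → RA L.gr) y) ?_ ?_ ?_ ?_ z
  · rw [map_zero, mul_zero, map_zero, pf_zero, zero_smul]
  · intro h
    rw [ind_el, eps_el, one_smul]
    refine zg_ind (P := fun y => pf (SemidirectProduct.left : L.GG → RA L.gr) (y * el (L.iH h)) =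
      pf (SemidirectProduct.left : L.GG → RA L.gr) y) ?_ ?_ ?_ ?_ y
    · rw [zero_mul]
    · intro g
      rw [← el_mul, pf_el, pf_el, ← (L.left_iff g (g * L.iH h)).mpr ⟨h, rfl⟩]
    · intro a b ha hb
      rw [add_mul, pf_add, pf_add, ha, hb]
    · intro a ha
      rw [neg_mul, hpneg, hpneg, ha]
  · intro a b ha hb
    rw [map_add, mul_add, pf_add, ha, hb, map_add, add_smul]
  · intro a ha
    rw [map_neg, mul_neg, hpneg, ha, map_neg, neg_smul]

private theorem XT_t1 {H : Type} [Group H] (L : VG H) {κ : Type} [Fintype κ] (aug : κ → ℤ)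
    (φ0 : Matrix L.I κ (MonoidAlgebra ℤ H)) (h0 : ∀ i, ∑ j, eps H (φ0 i j) * aug j = 1)
    (u : L.I → MonoidAlgebra ℤ L.GG) :
    eP (SemidirectProduct.left : L.GG → RA L.gr) aug
      (u ᵥ* (Matrix.diagonal L.P1 * φ0.map (ind L.iH))) = L.eK u := by
  have hpsub : ∀ x y : MonoidAlgebra ℤ L.GG, pf (SemidirectProduct.left : L.GG → RA L.gr) (x - y) =
      pf (SemidirectProduct.left : L.GG → RA L.gr) x - pf (SemidirectProduct.left : L.GG → RA L.gr) y :=
    fun x y => map_sub (AddMonoidHom.mk' (pf (SemidirectProduct.left : L.GG → RA L.gr)) (pf_add _)) x y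
  have hpsum : ∀ f : L.I → MonoidAlgebra ℤ L.GG, pf (SemidirectProduct.left : L.GG → RA L.gr) (∑ i, f i) =
      ∑ i, pf (SemidirectProduct.left : L.GG → RA L.gr) (f i) :=
    fun f => map_sum (AddMonoidHom.mk' (pf (SemidirectProduct.left : L.GG → RA L.gr)) (pf_add _)) f _
  have e1 : ∀ j, (u ᵥ* (Matrix.diagonal L.P1 * φ0.map (ind L.iH))) j =
      ∑ i, (u i * L.P1 i) * ind L.iH (φ0 i j) := by
    intro j
    show ∑ i, u i * (Matrix.diagonal L.P1 * φ0.map (ind L.iH)) i j = _
    refine Finset.sum_congr rfl fun i _ => ?_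
    rw [Matrix.diagonal_mul, Matrix.map_apply, mul_assoc]
  unfold eP VG.eK
  have e2 : ∀ j, aug j • pf (SemidirectProduct.left : L.GG → RA L.gr)
      ((u ᵥ* (Matrix.diagonal L.P1 * φ0.map (ind L.iH))) j) =
      ∑ i, (eps H (φ0 i j) * aug j) • pf (SemidirectProduct.left : L.GG → RA L.gr) (u i * L.P1 i) := by
    intro j
    rw [e1 j, hpsum, Finset.smul_sum]
    refine Finset.sum_congr rfl fun i _ => ?_
    rw [XT_pf_mul_ind, smul_smul, mul_comm]
  rw [Finset.sum_congr rfl fun j _ => e2 j, Finset.sum_comm]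
  refine Finset.sum_congr rfl fun i _ => ?_
  rw [← Finset.sum_smul, h0 i, one_smul]
  unfold VG.P1 VG.om
  rw [mul_sub, mul_one, hpsub]

theorem exists_T (F : Type w) [Field F] {H : Type} [Group H] (L : VG H) {D : ℕ} (hD : 3 ≤ D) (R : FFR H D)
    (φ0 : Matrix L.I (R.ι 0) (MonoidAlgebra ℤ H)) (φ1 : Matrix L.J2 (R.ι 1) (MonoidAlgebra ℤ H))
    (φ2 : Matrix L.J3 (R.ι 2) (MonoidAlgebra ℤ H)) (h0 : ∀ i, ∑ j, eps H (φ0 i j) * R.aug j = 1)
    (h1 : L.bd2 * φ0 + φ1 * R.d 0 = 0) (h2 : L.bd3 * φ1 + φ2 * R.d 1 = 0) :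
    ∃ T : FFR L.GG D, Fintype.card (T.ι 2) = Fintype.card L.J2 + Fintype.card (R.ι 2) ∧
      Fintype.card (T.ι 3) = Fintype.card L.J3 + Fintype.card (R.ι 3) ∧
      ∀ (N : Subgroup L.GG) [N.Normal],
        rk F N (T.d 1) = rk F N (fromBlocks L.K2 (Matrix.diagonal L.P2 * φ1.map (ind L.iH)) 0
          ((R.d 1).map (ind L.iH))) ∧
        rk F N (T.d 2) = rk F N (fromBlocks L.K3 (Matrix.diagonal L.P3 * φ2.map (ind L.iH)) 0
          ((R.d 2).map (ind L.iH))) ∧
        rk F N (T.d 3) = rk F N ((R.d 3).map (ind L.iH)) := by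
  have hinj : Function.Injective L.iH := SemidirectProduct.inr_injective
  have hπ : ∀ g g' : L.GG, g.left = g'.left ↔ ∃ h : H, g' = g * L.iH h := L.left_iff
  have heps : ∀ x : MonoidAlgebra ℤ H, eps L.GG (ind L.iH x) = eps H x := by
    intro x
    refine zg_ind (P := fun x => eps L.GG (ind L.iH x) = eps H x) ?_ ?_ ?_ ?_ x
    · simp
    · intro h
      rw [ind_el, eps_el, eps_el]
    · intro x y hx hy
      rw [map_add, map_add, map_add, hx, hy]
    · intro x hx
      rw [map_neg, map_neg, map_neg, hx]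
  have hmap : ∀ {a b c : Type} [Fintype b] (A : Matrix a b (MonoidAlgebra ℤ H)) (B : Matrix b c (MonoidAlgebra ℤ H)),
      (A * B).map (ind L.iH) = A.map (ind L.iH) * B.map (ind L.iH) := fun A B => Matrix.map_mul
  have t2 : L.K2 * (Matrix.diagonal L.P1 * φ0.map (ind L.iH)) +
      (Matrix.diagonal L.P2 * φ1.map (ind L.iH)) * (R.d 0).map (ind L.iH) = 0 := by
    rw [← Matrix.mul_assoc, L.K2_mul, Matrix.mul_assoc, Matrix.mul_assoc, ← Matrix.mul_add, ← hmap, ← hmap]
    have e : (L.bd2 * φ0).map (ind L.iH) + (φ1 * R.d 0).map (ind L.iH) =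
        (L.bd2 * φ0 + φ1 * R.d 0).map (ind L.iH) := by
      ext1 i j
      simp only [Matrix.add_apply, Matrix.map_apply, map_add]
    rw [e, h1]
    have e' : (0 : Matrix L.J2 (R.ι 0) (MonoidAlgebra ℤ H)).map (ind L.iH) = 0 := by
      ext1 i j
      simp only [Matrix.map_apply, Matrix.zero_apply, map_zero]
    rw [e', Matrix.mul_zero]
  have t3 : L.K3 * (Matrix.diagonal L.P2 * φ1.map (ind L.iH)) +
      (Matrix.diagonal L.P3 * φ2.map (ind L.iH)) * (R.d 1).map (ind L.iH) = 0 := by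
    rw [← Matrix.mul_assoc, L.K3_mul, Matrix.mul_assoc, Matrix.mul_assoc, ← Matrix.mul_add, ← hmap, ← hmap]
    have e : (L.bd3 * φ1).map (ind L.iH) + (φ2 * R.d 1).map (ind L.iH) =
        (L.bd3 * φ1 + φ2 * R.d 1).map (ind L.iH) := by
      ext1 i j
      simp only [Matrix.add_apply, Matrix.map_apply, map_add]
    rw [e, h2]
    have e' : (0 : Matrix L.J3 (R.ι 1) (MonoidAlgebra ℤ H)).map (ind L.iH) = 0 := by
      ext1 i j
      simp only [Matrix.map_apply, Matrix.zero_apply, map_zero]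
    rw [e', Matrix.mul_zero]
  exact splice_exists F hD L.K2 L.K3 (AddMonoidHom.mk' L.eK L.eK_add) augM L.K_exact0 L.K_exact1
    L.K_exact2 L.K_exact3 R.ι R.len (fun n => (R.d n).map (ind L.iH)) R.aug
    (AddMonoidHom.mk' (eP (SemidirectProduct.left : L.GG → RA L.gr) R.aug) (eP_add _ _)) (augM_eP _ _)
    (by
      obtain ⟨u, hu⟩ := R.surj
      exact ⟨fun i => ind L.iH (u i), by simpa only [heps] using hu⟩)
    (ind_exact0 L.iH hinj _ hπ R.aug (R.d 0) R.exact0)
    (fun n => ind_exact L.iH hinj (R.d n) (R.d (n + 1)) (R.exact n))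
    (Matrix.diagonal L.P1 * φ0.map (ind L.iH)) (Matrix.diagonal L.P2 * φ1.map (ind L.iH))
    (Matrix.diagonal L.P3 * φ2.map (ind L.iH)) (XT_t1 L R.aug φ0 h0) t2 t3

end NBT
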