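import Pool.Agent.Lib.MP_83fbc5_gt.XGad
import Pool.Agent.Lib.MP_83fbc5_gt.XC
import Pool.Agent.Lib.MP_83fbc5_gt.XT
import Pool.Agent.Lib.MP_83fbc5_gt.XE
import Pool.Agent.Lib.MP_83fbc5_gt.XCC
import Pool.Agent.Lib.MP_83fbc5_gt.LIM
import Pool.Agent.Lib.MP_83fbc5_gt.PCH
import Pool.Agent.Lib.MP_83fbc5_gt.REV

/-!
# MP_83fbc5_gt, XL: homology growth of `GG` for the flag complex of a matrix (assembly)
-/

set_option autoImplicit false

namespace NBT

open Matrix Module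

universe w

/-- from ranks at `N` to ranks at the trace `N'` -/
theorem xl_close (F : Type w) [Field F] {H G : Type} [Group H] [Group G] (f : H →* G) (N : Subgroup G) [N.Normal]
    [N.FiniteIndex] (N' : Subgroup H) [N'.Normal] (hN : N.comap f = N') {p q : Type} [Fintype p] [Fintype q]
    (B : Matrix p q (MonoidAlgebra ℤ H)) (r : ℕ) (c k : ℕ) (hk : 0 < k)
    (h : (k : ℤ) * |(r : ℤ) - rk F N (B.map (ind f))| ≤ c * N.index) :
    |(r : ℝ) / N.index - (rk F N' B : ℝ) / N'.index| ≤ (c : ℝ) / k := by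
  have e := rk_chain F f N N' hN B
  rw [← e]
  have hpos : (0 : ℝ) < N.index := by
    exact_mod_cast Nat.pos_of_ne_zero (Subgroup.FiniteIndex.index_ne_zero (H := N))
  have hkR : (0 : ℝ) < k := by exact_mod_cast hk
  have hR : (k : ℝ) * |(r : ℝ) - rk F N (B.map (ind f))| ≤ c * N.index := by exact_mod_cast h
  rw [← sub_div, abs_div, abs_of_pos hpos, div_le_div_iff₀ hpos hkR]
  linarith

theorem growth (F : Type w) [Field F] {H : Type} [Group H] (hfp : Group.IsFinitelyPresented H) {D : ℕ} (hD : 3 ≤ D)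
    (R : FFR H D) {n m : ℕ} (A : Matrix (Fin n) (Fin m) (MonoidAlgebra ℤ H)) :
    ∃ (L : VG H) (T : FFR L.GG D) (K : ℝ), ∀ (C : Chain H) (C' : Chain L.GG),
      (∀ i, (C'.N i).comap L.iH = C.N i) →
      Filter.Tendsto (fun i => (betti F T (C'.N i) 2 : ℝ) / (C'.N i).index -
        (m - (rk F (C.N i) A : ℝ) / (C.N i).index)) Filter.atTop (nhds 0) ∧
      Filter.Tendsto (fun i => (betti F T (C'.N i) 3 : ℝ) / (C'.N i).index -
        (K - (rk F (C.N i) A : ℝ) / (C.N i).index - (rk F (C.N i) (R.d 3) : ℝ) / (C.N i).index))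
          Filter.atTop (nhds 0) := by
  obtain ⟨L, hL⟩ := gadget2 hfp A
  obtain ⟨φ0, φ1, φ2, h0, h1, h2⟩ := exists_chm L hL.dd R
  obtain ⟨T, hc2, hc3, hT⟩ := exists_T F L hD R φ0 φ1 φ2 h0 h1 h2
  obtain ⟨c, hc⟩ := block_rank F L φ1 φ2 (R.d 1) (R.d 2)
  refine ⟨L, T, (Fintype.card L.J3 + Fintype.card (R.ι 3)) - (Fintype.card L.J2 + Fintype.card (R.ι 2)) +
    (Fintype.card L.I + Fintype.card (R.ι 1) - Fintype.card (R.ι 0)) + m, fun C C' hC => ?_⟩
  have key : ∀ k : ℕ, 0 < k → ∀ᶠ i in Filter.atTop,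
      |(rk F (C'.N i) (T.d 1) : ℝ) / (C'.N i).index -
        (rk F (C.N i) (fromBlocks L.bd2 φ1 0 (R.d 1)) : ℝ) / (C.N i).index| ≤ (c : ℝ) / k ∧
      |(rk F (C'.N i) (T.d 2) : ℝ) / (C'.N i).index -
        (rk F (C.N i) (fromBlocks L.bd3 φ2 0 (R.d 2)) : ℝ) / (C.N i).index| ≤ (c : ℝ) / k := by
    intro k hk
    have h2 : ∀ᶠ i in Filter.atTop, ∀ x, k ≤ orderOf (QuotientGroup.mk (L.X (1, x)) : L.GG ⧸ C'.N i) := by
      rw [Filter.eventually_all]
      exact fun x => ord_tendsto C' (L.X (1, x)) (fun j hj => X_pow L _ j hj) k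
    filter_upwards [h2] with i hi
    obtain ⟨e1, e2⟩ := hc (C'.N i) k hi
    obtain ⟨t1, t2, _⟩ := hT (C'.N i)
    rw [← t1] at e1
    rw [← t2] at e2
    exact ⟨xl_close F L.iH (C'.N i) (C.N i) (hC i) _ _ c k hk e1,
      xl_close F L.iH (C'.N i) (C.N i) (hC i) _ _ c k hk e2⟩
  have l1 : Filter.Tendsto (fun i => (rk F (C'.N i) (T.d 1) : ℝ) / (C'.N i).index -
      (rk F (C.N i) (fromBlocks L.bd2 φ1 0 (R.d 1)) : ℝ) / (C.N i).index) Filter.atTop (nhds 0) :=
    lim_aux c _ fun k hk => (key k hk).mono fun i hi => hi.1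
  have l2 : Filter.Tendsto (fun i => (rk F (C'.N i) (T.d 2) : ℝ) / (C'.N i).index -
      (rk F (C.N i) (fromBlocks L.bd3 φ2 0 (R.d 2)) : ℝ) / (C.N i).index) Filter.atTop (nhds 0) :=
    lim_aux c _ fun k hk => (key k hk).mono fun i hi => hi.2
  have hpos : ∀ i, (0 : ℝ) < (C.N i).index := fun i => by
    exact_mod_cast Nat.pos_of_ne_zero (Subgroup.FiniteIndex.index_ne_zero (H := C.N i))
  have hpos' : ∀ i, (0 : ℝ) < (C'.N i).index := fun i => by
    exact_mod_cast Nat.pos_of_ne_zero (Subgroup.FiniteIndex.index_ne_zero (H := C'.N i))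
  have b2 : ∀ i, (betti F T (C'.N i) 2 : ℝ) / (C'.N i).index = (Fintype.card L.J2 + Fintype.card (R.ι 2)) -
      (rk F (C'.N i) (T.d 1) : ℝ) / (C'.N i).index - (rk F (C'.N i) (T.d 2) : ℝ) / (C'.N i).index := by
    intro i
    have e := betti_succ F T (C'.N i) 1
    rw [hc2] at e
    have e' : (betti F T (C'.N i) 2 : ℝ) + rk F (C'.N i) (T.d 1) + rk F (C'.N i) (T.d 2) =
        (Fintype.card L.J2 + Fintype.card (R.ι 2)) * (C'.N i).index := by exact_mod_cast e
    have hp := (hpos' i).ne'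
    field_simp
    linarith
  have b3 : ∀ i, (betti F T (C'.N i) 3 : ℝ) / (C'.N i).index = (Fintype.card L.J3 + Fintype.card (R.ι 3)) -
      (rk F (C'.N i) (T.d 2) : ℝ) / (C'.N i).index - (rk F (C.N i) (R.d 3) : ℝ) / (C.N i).index := by
    intro i
    have e := betti_succ F T (C'.N i) 2
    rw [hc3] at e
    obtain ⟨_, _, t3⟩ := hT (C'.N i)
    have e3 := rk_chain F L.iH (C'.N i) (C.N i) (hC i) (R.d 3)
    rw [← e3, ← t3]
    have e' : (betti F T (C'.N i) 3 : ℝ) + rk F (C'.N i) (T.d 2) + rk F (C'.N i) (T.d 3) =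
        (Fintype.card L.J3 + Fintype.card (R.ι 3)) * (C'.N i).index := by exact_mod_cast e
    have hp := (hpos' i).ne'
    field_simp
    linarith
  have r1 : ∀ i, (rk F (C.N i) (fromBlocks L.bd2 φ1 0 (R.d 1)) : ℝ) / (C.N i).index =
      Fintype.card L.I + Fintype.card (R.ι 1) - Fintype.card (R.ι 0) := by
    intro i
    have e := (cone_hcok F L R A hL φ0 φ1 φ2 h0 h1 h2 (C.N i)).1
    have e' : (rk F (C.N i) (fromBlocks L.bd2 φ1 0 (R.d 1)) : ℝ) + Fintype.card (R.ι 0) * (C.N i).index =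
        (Fintype.card L.I + Fintype.card (R.ι 1)) * (C.N i).index := by exact_mod_cast e
    have hp := (hpos i).ne'
    field_simp
    linarith
  have r2 : ∀ i, (rk F (C.N i) (fromBlocks L.bd2 φ1 0 (R.d 1)) : ℝ) / (C.N i).index +
      (rk F (C.N i) (fromBlocks L.bd3 φ2 0 (R.d 2)) : ℝ) / (C.N i).index =
      (Fintype.card L.J2 + Fintype.card (R.ι 2)) + (rk F (C.N i) A : ℝ) / (C.N i).index - m := by
    intro i
    have e := (cone_hcok F L R A hL φ0 φ1 φ2 h0 h1 h2 (C.N i)).2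
    have e' : (rk F (C.N i) (fromBlocks L.bd2 φ1 0 (R.d 1)) : ℝ) +
        rk F (C.N i) (fromBlocks L.bd3 φ2 0 (R.d 2)) + m * (C.N i).index =
        (Fintype.card L.J2 + Fintype.card (R.ι 2)) * (C.N i).index + rk F (C.N i) A := by exact_mod_cast e
    have hp := (hpos i).ne'
    field_simp
    linarith
  constructor
  · have := (l1.add l2).neg
    rw [add_zero, neg_zero] at this
    refine this.congr fun i => ?_
    rw [b2 i]
    have := r2 i
    linarith
  · have := l2.neg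
    rw [neg_zero] at this
    refine this.congr fun i => ?_
    rw [b3 i]
    have e1 := r1 i
    have e2 := r2 i
    linarith

/-- Q1 in degree 2 or 3 for groups with resolutions of length `D ≥ 3` gives the convergence of ranks for the same `D` -/
theorem mat_of_q1_sharp (F : Type w) [Field F] (D n0 : ℕ) (hD : 3 ≤ D) (hn : n0 = 2 ∨ n0 = 3) (hQ : Q1 F D n0) :
    MatConv F D := by
  intro G _ hG hR n m A
  obtain ⟨R⟩ := hR
  rcases hn with rfl | rfl
  · obtain ⟨L, T, K, h⟩ := growth F hG hD R A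
    obtain ⟨ℓ, hℓ⟩ := hQ L.GG (fp_GG L hG) T
    refine ⟨m - ℓ, fun C => ?_⟩
    obtain ⟨C', hC'⟩ := L.chain_lift C
    have e := ((tendsto_const_nhds (x := (m : ℝ))).sub (hℓ C')).add (h C C' hC').1
    rw [add_zero] at e
    refine e.congr fun i => ?_
    ring
  · obtain ⟨L, T, K, h⟩ := growth F hG hD R A
    obtain ⟨L0, T0, K0, h0⟩ := growth F hG hD R (0 : Matrix (Fin n) (Fin m) (MonoidAlgebra ℤ G))
    obtain ⟨ℓ, hℓ⟩ := hQ L.GG (fp_GG L hG) T
    obtain ⟨ℓ0, hℓ0⟩ := hQ L0.GG (fp_GG L0 hG) T0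
    refine ⟨K - ℓ - (K0 - ℓ0), fun C => ?_⟩
    obtain ⟨C', hC'⟩ := L.chain_lift C
    obtain ⟨C0', hC0'⟩ := L0.chain_lift C
    have e := ((tendsto_const_nhds (x := K)).sub (hℓ C')).add (h C C' hC').2
    have e0 := ((tendsto_const_nhds (x := K0)).sub (hℓ0 C0')).add (h0 C C0' hC0').2
    have e1 := e.sub e0
    rw [add_zero, add_zero] at e1
    refine e1.congr fun i => ?_
    have hz : rk F (C.N i) (0 : Matrix (Fin n) (Fin m) (MonoidAlgebra ℤ G)) = 0 := by
      unfold rk rkM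
      have : actM F ((0 : Matrix (Fin n) (Fin m) (MonoidAlgebra ℤ G)).map (toQ F (C.N i))) = 0 := by
        refine LinearMap.ext fun u => ?_
        rw [actM_apply, Matrix.map_zero _ (map_zero _), Matrix.vecMul_zero, LinearMap.zero_apply]
      rw [this, LinearMap.range_zero]
      exact finrank_bot _ _
    rw [hz]
    push_cast
    ring

theorem main_sharp (F : Type w) [Field F] (D : ℕ) (hD : 3 ≤ D) :
    (Q1 F D 2 ↔ MatConv F D) ∧ (Q1 F D 3 ↔ MatConv F D) ∧ ((∀ n, Q1 F D n) ↔ MatConv F D) :=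
  ⟨⟨mat_of_q1_sharp F D 2 hD (Or.inl rfl), fun h => q1_of_mat F D h 2⟩,
    ⟨mat_of_q1_sharp F D 3 hD (Or.inr rfl), fun h => q1_of_mat F D h 3⟩,
    ⟨fun h => mat_of_q1_sharp F D 2 hD (Or.inl rfl) (h 2), fun h n => q1_of_mat F D h n⟩⟩

end NBT
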