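import Pool.Agent.Lib.MP_83fbc5_gt.UA
import Pool.Agent.Lib.MP_83fbc5_gt.UB
import Pool.Agent.Lib.MP_83fbc5_gt.UC
import Pool.Agent.Lib.MP_83fbc5_gt.UD
import Pool.Agent.Lib.MP_83fbc5_gt.XL

/-!
# MP_83fbc5_gt, UE: degree shift, and the equivalence in every degree `n ≥ 2`
-/

set_option autoImplicit false

namespace NBT

open Matrix Module

universe w

theorem ue_comm {G P : Type} [Group G] [Group P] (x : P) (y : MonoidAlgebra ℤ G) :
    el ((1 : G), x) * ind (MonoidHom.inl G P) y = ind (MonoidHom.inl G P) y * el ((1 : G), x) := by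
  refine zg_ind (P := fun y => el ((1 : G), x) * ind (MonoidHom.inl G P) y =
    ind (MonoidHom.inl G P) y * el ((1 : G), x)) ?_ ?_ ?_ ?_ y
  · rw [map_zero, mul_zero, zero_mul]
  · intro g
    rw [ind_el, ← el_mul, ← el_mul]
    congr 1
    rw [Prod.ext_iff]
    simp
  · intro a b ha hb
    rw [map_add, mul_add, add_mul, ha, hb]
  · intro a ha
    rw [map_neg, mul_neg, neg_mul, ha]

/-- the estimate for the Betti numbers of the product -/
theorem ue_est (F : Type w) [Field F] {G P : Type} [Group G] [Group P] {x : Fin 2 → P} {D : ℕ} (R : FFR G D)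
    (T : FFR (G × P) (D + 1)) (hcard : ∀ n, Fintype.card (T.ι n) = Fintype.card (shI R.ι n))
    (hrk : ∀ (N : Subgroup (G × P)) [N.Normal] (n : ℕ),
      rk F N (T.d n) = @rk F _ (G × P) _ N _ (shI R.ι (n + 1)) (shI R.ι n) _
        (shD (fun k => el ((1 : G), x k)) (fun n => (R.d n).map (ind (MonoidHom.inl G P))) n))
    (n : ℕ) : ∃ c : ℕ, ∀ (N : Subgroup (G × P)) [N.Normal] [N.FiniteIndex] (m : ℕ), 0 < m →
      m ≤ orderOf (QuotientGroup.mk ((1 : G), x 0) : (G × P) ⧸ N) →
      |(betti F T N (n + 1) : ℝ) / N.index -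
        (betti F R (N.comap (MonoidHom.inl G P)) n : ℝ) / (N.comap (MonoidHom.inl G P)).index| ≤ (c : ℝ) / m := by
  have hmap : ∀ {a b c : Type} [Fintype b] (A : Matrix a b (MonoidAlgebra ℤ G)) (B : Matrix b c (MonoidAlgebra ℤ G)),
      (A * B).map (ind (MonoidHom.inl G P)) = A.map (ind (MonoidHom.inl G P)) * B.map (ind (MonoidHom.inl G P)) :=
    fun A B => Matrix.map_mul
  have hd : ∀ n, (fun n => (R.d n).map (ind (MonoidHom.inl G P))) (n + 1) *
      (fun n => (R.d n).map (ind (MonoidHom.inl G P))) n = 0 := by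
    intro n
    show (R.d (n + 1)).map (ind (MonoidHom.inl G P)) * (R.d n).map (ind (MonoidHom.inl G P)) = 0
    rw [← hmap, dd R n]
    ext1 i j
    simp only [Matrix.map_apply, Matrix.zero_apply, map_zero]
  have hc : ∀ n i j k, el ((1 : G), x k) * (fun n => (R.d n).map (ind (MonoidHom.inl G P))) n i j =
      (fun n => (R.d n).map (ind (MonoidHom.inl G P))) n i j * el ((1 : G), x k) := by
    intro n i j k
    exact ue_comm (x k) (R.d n i j)
  have hfin : ∀ (N : Subgroup (G × P)) [N.FiniteIndex], (N.comap (MonoidHom.inl G P)).FiniteIndex := by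
    intro N _
    refine ⟨?_⟩
    rw [Subgroup.index_comap]
    exact (inferInstance : (N.subgroupOf (MonoidHom.inl G P).range).FiniteIndex).index_ne_zero
  cases n with
  | zero =>
    refine ⟨Fintype.card (R.ι 0) + Fintype.card (R.ι 1), fun N _ _ m hm hord => ?_⟩
    have hfi := hfin N
    have hpos : (0 : ℝ) < N.index := by
      exact_mod_cast Nat.pos_of_ne_zero (Subgroup.FiniteIndex.index_ne_zero (H := N))
    have hpos' : (0 : ℝ) < (N.comap (MonoidHom.inl G P)).index := by
      exact_mod_cast Nat.pos_of_ne_zero hfi.index_ne_zero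
    have hmR : (0 : ℝ) < m := by exact_mod_cast hm
    have b := betti_succ F T N 0
    have b' := betti_zero F R (N.comap (MonoidHom.inl G P))
    have u0 := rk_le_col F N (T.d 0)
    have l0 := sh_lower0 F N (fun k => ((1 : G), x k)) (fun n => (R.d n).map (ind (MonoidHom.inl G P))) m hord
    have u1 := sh_upper F N (fun k => ((1 : G), x k)) (fun n => (R.d n).map (ind (MonoidHom.inl G P))) hc hd 0
    have l1 := sh_lower F N (fun k => ((1 : G), x k)) (fun n => (R.d n).map (ind (MonoidHom.inl G P))) m hord 0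
    rw [← hrk N 0] at l0
    rw [← hrk N 1] at u1 l1
    have k0 : Fintype.card (T.ι 0) = Fintype.card (R.ι 0) := hcard 0
    have k1 : Fintype.card (T.ι 1) = Fintype.card (R.ι 1) + 2 * Fintype.card (R.ι 0) := by
      rw [hcard 1]
      show Fintype.card (R.ι 1 ⊕ (Fin 2 × R.ι 0)) = _
      rw [Fintype.card_sum, Fintype.card_prod, Fintype.card_fin]
    rw [k0] at u0
    rw [k1] at b
    have e := rk_chain F (MonoidHom.inl G P) N _ rfl (R.d 0)
    have e' : (rk F N ((R.d 0).map (ind (MonoidHom.inl G P))) : ℝ) =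
        (rk F (N.comap (MonoidHom.inl G P)) (R.d 0) : ℝ) / (N.comap (MonoidHom.inl G P)).index * N.index := by
      rw [← e]
      field_simp
    have b1 : (betti F R (N.comap (MonoidHom.inl G P)) 0 : ℝ) / (N.comap (MonoidHom.inl G P)).index =
        (Fintype.card (R.ι 0) * N.index - rk F N ((R.d 0).map (ind (MonoidHom.inl G P)))) / N.index := by
      have : (betti F R (N.comap (MonoidHom.inl G P)) 0 : ℝ) + rk F (N.comap (MonoidHom.inl G P)) (R.d 0) =
        Fintype.card (R.ι 0) * (N.comap (MonoidHom.inl G P)).index := by exact_mod_cast b'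
      rw [e']
      field_simp
      linarith
    rw [b1, ← sub_div, abs_div, abs_of_pos hpos, div_le_div_iff₀ hpos hmR]
    have b2 : (betti F T N (0 + 1) : ℝ) + rk F N (T.d 0) + rk F N (T.d (0 + 1)) =
      (Fintype.card (R.ι 1) + 2 * Fintype.card (R.ι 0)) * N.index := by exact_mod_cast b
    have u0' : (rk F N (T.d 0) : ℝ) ≤ Fintype.card (R.ι 0) * N.index := by exact_mod_cast u0
    have l0' : (m : ℝ) * (Fintype.card (R.ι 0) * N.index) ≤ m * rk F N (T.d 0) +
      Fintype.card (R.ι 0) * N.index := by exact_mod_cast l0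
    have u1' : (rk F N (T.d 1) : ℝ) ≤ Fintype.card (R.ι 1) * N.index +
      rk F N ((R.d 0).map (ind (MonoidHom.inl G P))) := by exact_mod_cast u1
    have l1' : (m : ℝ) * (Fintype.card (R.ι 1) * N.index + rk F N ((R.d 0).map (ind (MonoidHom.inl G P)))) ≤
      m * rk F N (T.d 1) + Fintype.card (R.ι 1) * N.index := by exact_mod_cast l1
    simp only [zero_add] at b2 ⊢
    have hnn : (0 : ℝ) ≤ (betti F T N 1 : ℝ) - (Fintype.card (R.ι 0) * N.index -
        rk F N ((R.d 0).map (ind (MonoidHom.inl G P)))) := by nlinarith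
    rw [abs_of_nonneg hnn]
    push_cast
    nlinarith
  | succ n =>
    refine ⟨Fintype.card (R.ι (n + 1)) + Fintype.card (R.ι (n + 2)), fun N _ _ m hm hord => ?_⟩
    have hfi := hfin N
    have hpos : (0 : ℝ) < N.index := by
      exact_mod_cast Nat.pos_of_ne_zero (Subgroup.FiniteIndex.index_ne_zero (H := N))
    have hpos' : (0 : ℝ) < (N.comap (MonoidHom.inl G P)).index := by
      exact_mod_cast Nat.pos_of_ne_zero hfi.index_ne_zero
    have hmR : (0 : ℝ) < m := by exact_mod_cast hm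
    have b := betti_succ F T N (n + 1)
    have b' := betti_succ F R (N.comap (MonoidHom.inl G P)) n
    have u0 := sh_upper F N (fun k => ((1 : G), x k)) (fun n => (R.d n).map (ind (MonoidHom.inl G P))) hc hd n
    have l0 := sh_lower F N (fun k => ((1 : G), x k)) (fun n => (R.d n).map (ind (MonoidHom.inl G P))) m hord n
    have u1 := sh_upper F N (fun k => ((1 : G), x k)) (fun n => (R.d n).map (ind (MonoidHom.inl G P))) hc hd (n + 1)
    have l1 := sh_lower F N (fun k => ((1 : G), x k)) (fun n => (R.d n).map (ind (MonoidHom.inl G P))) m hord (n + 1)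
    rw [← hrk N (n + 1)] at u0 l0
    rw [← hrk N (n + 1 + 1)] at u1 l1
    have k1 : Fintype.card (T.ι (n + 1 + 1)) = Fintype.card (R.ι (n + 2)) + 2 * Fintype.card (R.ι (n + 1)) := by
      rw [hcard (n + 1 + 1)]
      show Fintype.card (R.ι (n + 2) ⊕ (Fin 2 × R.ι (n + 1))) = _
      rw [Fintype.card_sum, Fintype.card_prod, Fintype.card_fin]
    rw [k1] at b
    have e0 := rk_chain F (MonoidHom.inl G P) N _ rfl (R.d n)
    have e1 := rk_chain F (MonoidHom.inl G P) N _ rfl (R.d (n + 1))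
    have e0' : (rk F N ((R.d n).map (ind (MonoidHom.inl G P))) : ℝ) =
        (rk F (N.comap (MonoidHom.inl G P)) (R.d n) : ℝ) / (N.comap (MonoidHom.inl G P)).index * N.index := by
      rw [← e0]
      field_simp
    have e1' : (rk F N ((R.d (n + 1)).map (ind (MonoidHom.inl G P))) : ℝ) =
        (rk F (N.comap (MonoidHom.inl G P)) (R.d (n + 1)) : ℝ) / (N.comap (MonoidHom.inl G P)).index * N.index := by
      rw [← e1]
      field_simp
    have b1 : (betti F R (N.comap (MonoidHom.inl G P)) (n + 1) : ℝ) / (N.comap (MonoidHom.inl G P)).index =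
        (Fintype.card (R.ι (n + 1)) * N.index - rk F N ((R.d n).map (ind (MonoidHom.inl G P))) -
          rk F N ((R.d (n + 1)).map (ind (MonoidHom.inl G P)))) / N.index := by
      have : (betti F R (N.comap (MonoidHom.inl G P)) (n + 1) : ℝ) + rk F (N.comap (MonoidHom.inl G P)) (R.d n) +
        rk F (N.comap (MonoidHom.inl G P)) (R.d (n + 1)) =
        Fintype.card (R.ι (n + 1)) * (N.comap (MonoidHom.inl G P)).index := by exact_mod_cast b'
      rw [e0', e1']
      field_simp
      linarith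
    rw [b1, ← sub_div, abs_div, abs_of_pos hpos, div_le_div_iff₀ hpos hmR]
    have b2 : (betti F T N (n + 1 + 1) : ℝ) + rk F N (T.d (n + 1)) + rk F N (T.d (n + 1 + 1)) =
      (Fintype.card (R.ι (n + 2)) + 2 * Fintype.card (R.ι (n + 1))) * N.index := by exact_mod_cast b
    have u0' : (rk F N (T.d (n + 1)) : ℝ) ≤ Fintype.card (R.ι (n + 1)) * N.index +
      rk F N ((R.d n).map (ind (MonoidHom.inl G P))) := by exact_mod_cast u0
    have l0' : (m : ℝ) * (Fintype.card (R.ι (n + 1)) * N.index + rk F N ((R.d n).map (ind (MonoidHom.inl G P)))) ≤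
      m * rk F N (T.d (n + 1)) + Fintype.card (R.ι (n + 1)) * N.index := by exact_mod_cast l0
    have u1' : (rk F N (T.d (n + 1 + 1)) : ℝ) ≤ Fintype.card (R.ι (n + 2)) * N.index +
      rk F N ((R.d (n + 1)).map (ind (MonoidHom.inl G P))) := by exact_mod_cast u1
    have l1' : (m : ℝ) * (Fintype.card (R.ι (n + 2)) * N.index +
        rk F N ((R.d (n + 1)).map (ind (MonoidHom.inl G P)))) ≤
      m * rk F N (T.d (n + 1 + 1)) + Fintype.card (R.ι (n + 2)) * N.index := by exact_mod_cast l1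
    have hnn : (0 : ℝ) ≤ (betti F T N (n + 1 + 1) : ℝ) - (Fintype.card (R.ι (n + 1)) * N.index -
        rk F N ((R.d n).map (ind (MonoidHom.inl G P))) -
        rk F N ((R.d (n + 1)).map (ind (MonoidHom.inl G P)))) := by nlinarith
    rw [abs_of_nonneg hnn]
    push_cast
    nlinarith

/-- degree shift -/
theorem shift (F : Type w) [Field F] (D n : ℕ) (hQ : Q1 F (D + 1) (n + 1)) : Q1 F D n := by
  intro G _ hG R
  obtain ⟨P, _, x, hx⟩ := exists_f2
  obtain ⟨T, hcard, hrk⟩ := sh_ffr.{w} hx R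
  obtain ⟨ℓ, hℓ⟩ := hQ (G × P) (fp_prod2 hG hx.fp) T
  refine ⟨ℓ, fun C => ?_⟩
  obtain ⟨C₂⟩ := hx.ch
  obtain ⟨C', hC'⟩ := prod_chain2 C C₂
  obtain ⟨c, hc⟩ := ue_est F R T hcard (fun N _ n => hrk F N n) n
  have hinf : ∀ j : ℕ, 0 < j → ((1 : G), x 0) ^ j ≠ 1 := by
    intro j hj h
    exact hx.inf 0 j hj (congrArg Prod.snd h)
  have h1 : Filter.Tendsto (fun i => (betti F T (C'.N i) (n + 1) : ℝ) / (C'.N i).index -
      (betti F R (C.N i) n : ℝ) / (C.N i).index) Filter.atTop (nhds 0) := by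
    refine lim_aux c _ fun k hk => ?_
    filter_upwards [ord_tendsto C' ((1 : G), x 0) hinf k] with i hi
    have e := hc (C'.N i) k hk hi
    have h2 : ∀ (N : Subgroup G) [N.Normal], N = C.N i →
        (betti F R N n : ℝ) / N.index = (betti F R (C.N i) n : ℝ) / (C.N i).index := by
      intro N _ hN
      subst hN
      rfl
    rw [h2 _ (hC' i)] at e
    exact e
  have h3 := (hℓ C').sub h1
  rw [sub_zero] at h3
  refine h3.congr fun i => ?_
  ring

theorem shift_iter (F : Type w) [Field F] (D n : ℕ) : ∀ k, Q1 F (D + k) (n + k) → Q1 F D n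
  | 0, h => h
  | k + 1, h => shift_iter F D n k (shift F (D + k) (n + k) h)

theorem matconv_mono (F : Type w) [Field F] {D E : ℕ} (h : D ≤ E) (hE : MatConv F E) : MatConv F D := by
  intro G _ hG hR m n A
  obtain ⟨R⟩ := hR
  exact hE G hG ⟨{ R with len := fun n hn => R.len n (lt_of_le_of_lt h hn) }⟩ m n A

/-- the equivalence in every degree `n ≥ 2` -/
theorem main_all (F : Type w) [Field F] :
    (∀ D, 3 ≤ D → ((Q1 F D 2 ↔ MatConv F D) ∧ (Q1 F D 3 ↔ MatConv F D) ∧ ((∀ n, Q1 F D n) ↔ MatConv F D) ∧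
      ∀ k, Q1 F (D + k) (2 + k) → MatConv F D)) ∧
    ∀ n, 2 ≤ n → ((∀ D, Q1 F D n) ↔ ∀ D, MatConv F D) := by
  have h1 : ∀ D, 3 ≤ D → ∀ k, Q1 F (D + k) (2 + k) → MatConv F D := fun D hD k h =>
    (main_sharp F D hD).1.1 (shift_iter F D 2 k h)
  refine ⟨fun D hD => ⟨(main_sharp F D hD).1, (main_sharp F D hD).2.1, (main_sharp F D hD).2.2, h1 D hD⟩,
    fun n hn => ⟨fun h D => ?_, fun h D => q1_of_mat F D (h D) n⟩⟩
  obtain ⟨k, rfl⟩ := Nat.exists_eq_add_of_le hn
  exact matconv_mono F (le_max_left D 3) (h1 (max D 3) (le_max_right D 3) k (h _))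

end NBT
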