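import Pool.Agent.Lib.MP_83fbc5_gt.SDefs

/-!
# MP_83fbc5_gt, YDefs: definitions for the homology growth of `RA ⋊ H`
-/

set_option autoImplicit false

namespace NBT

open Matrix

universe w

/-- Betti numbers of the flag complex of the graph modulo `N` with coefficients in `F`, from the boundary ranks -/
noncomputable def VG.lb (F : Type w) [Field F] {H : Type} [Group H] (L : VG H) (N : Subgroup H) [N.Normal] : ℕ → ℤ
  | 0 => Fintype.card L.I * N.index - rk F N L.bd2
  | 1 => Fintype.card L.J2 * N.index - rk F N L.bd2 - rk F N L.bd3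
  | 2 => Fintype.card L.J3 * N.index - rk F N L.bd3
  | _ => 0

/-- the dimension of the homology of the complex with matrices `d` over `F[G/N]`, from the ranks -/
noncomputable def bP (F : Type w) [Field F] {G : Type} [Group G] (N : Subgroup G) [N.Normal] (ι : ℕ → Type)
    [∀ n, Fintype (ι n)] (d : ∀ n, Matrix (ι (n + 1)) (ι n) (MonoidAlgebra ℤ G)) : ℕ → ℤ
  | 0 => Fintype.card (ι 0) * N.index - rk F N (d 0)
  | n + 1 => Fintype.card (ι (n + 1)) * N.index - rk F N (d n) - rk F N (d (n + 1))

/-- the homology of the complex `D3, D2` in degrees 3, 2, 1 -/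
noncomputable def kb (F : Type w) [Field F] {G : Type} [Group G] (N : Subgroup G) [N.Normal] {J1 J2 J3 : Type}
    [Fintype J1] [Fintype J2] [Fintype J3] (D2 : Matrix J2 J1 (MonoidAlgebra ℤ G))
    (D3 : Matrix J3 J2 (MonoidAlgebra ℤ G)) : ℕ → ℤ
  | 1 => Fintype.card J1 * N.index - rk F N D2
  | 2 => Fintype.card J2 * N.index - rk F N D2 - rk F N D3
  | 3 => Fintype.card J3 * N.index - rk F N D3
  | _ => 0

/-- `ℤ[H] → F[H]` -/
noncomputable def toF (F : Type w) [Field F] (H : Type) [Group H] : MonoidAlgebra ℤ H →+* MonoidAlgebra F H :=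
  MonoidAlgebra.mapRingHom H (Int.castRingHom F)

/-- the free abelian group of rank `d` -/
abbrev Zd (d : ℕ) : Type := Multiplicative (Fin d → ℤ)

/-- the rank of a matrix over `ℤ[ℤ^d]` over the field of fractions of `F[ℤ^d]` -/
noncomputable def rkK (F : Type w) [Field F] {d : ℕ} {m n : Type} [Fintype m] [Fintype n] (A : Matrix m n (MonoidAlgebra ℤ (Zd d))) :
    ℕ :=
  ((A.map (toF F (Zd d))).map (algebraMap (MonoidAlgebra F (Zd d)) (FractionRing (MonoidAlgebra F (Zd d))))).rank

/-- the dimensions of the homology of the flag complex over the field of fractions of `F[ℤ^d]` -/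
noncomputable def VG.lK (F : Type w) [Field F] {d : ℕ} (L : VG (Zd d)) : ℕ → ℤ
  | 0 => Fintype.card L.I - rkK F L.bd2
  | 1 => Fintype.card L.J2 - rkK F L.bd2 - rkK F L.bd3
  | 2 => Fintype.card L.J3 - rkK F L.bd3
  | _ => 0

end NBT
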