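import Pool.Agent.Lib.MP_83fbc5_gt.WDefs
import Pool.Agent.Lib.MP_83fbc5_gt.YDefs
import Pool.Agent.Lib.MP_83fbc5_gt.BET

/-!
# MP_83fbc5_gt, WB: homology of complexes of free modules in terms of ranks
-/

set_option autoImplicit false

namespace NBT

open Matrix Module

universe w

private theorem WB_quot (F : Type w) [Field F] {V : Type w} [AddCommGroup V] [Module F V] [FiniteDimensional F V]
    {p q : Submodule F V} (h : p ≤ q) :
    Module.finrank F (q ⧸ p.comap q.subtype) + Module.finrank F p = Module.finrank F q := by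
  rw [← Submodule.finrank_quotient_add_finrank (p.comap q.subtype), (Submodule.comapSubtypeEquivOfLe h).finrank_eq]

section

variable (F : Type w) [Field F] {G : Type} [Group G] (N : Subgroup G) [N.Normal] (ι : ℕ → Type) [∀ n, Fintype (ι n)]
  (d : ∀ n, Matrix (ι (n + 1)) (ι n) (MonoidAlgebra ℤ G))

theorem hdim_zero [N.FiniteIndex] : hdim F N ι d 0 + rk F N (d 0) = Fintype.card (ι 0) * N.index := by
  have h := WB_quot F (p := hbdr F N ι d 0) (q := hcyc F N ι d 0) le_top
  have h2 : Module.finrank F (hcyc F N ι d 0) = Fintype.card (ι 0) * N.index := by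
    rw [← finrank_row F N (ι 0)]
    exact finrank_top F _
  rw [← h2]
  exact h

theorem hdim_succ [N.FiniteIndex] (n : ℕ) (hdd : d (n + 1) * d n = 0) :
    hdim F N ι d (n + 1) + rk F N (d n) + rk F N (d (n + 1)) = Fintype.card (ι (n + 1)) * N.index := by
  have hle : hbdr F N ι d (n + 1) ≤ hcyc F N ι d (n + 1) := by
    have e : actM F ((d n).map (toQ F N)) ∘ₗ actM F ((d (n + 1)).map (toQ F N)) = 0 := by
      rw [← actM_mul, ← Matrix.map_mul, hdd]
      ext1 u
      simp [actM_apply, Matrix.map_zero]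
    exact LinearMap.range_le_ker_iff.2 e
  have h := WB_quot F (p := hbdr F N ι d (n + 1)) (q := hcyc F N ι d (n + 1)) hle
  have h2 := rk_add_ker F N (d n)
  have h3 : Module.finrank F (hcyc F N ι d (n + 1)) =
      Module.finrank F (LinearMap.ker (actM F ((d n).map (toQ F N)))) := rfl
  have h4 : hdim F N ι d (n + 1) + rk F N (d (n + 1)) = Module.finrank F (hcyc F N ι d (n + 1)) := h
  omega

theorem hdim_betti {D : ℕ} (R : FFR G D) (n : ℕ) : hdim F N R.ι R.d n = betti F R N n := by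
  cases n <;> rfl

end

theorem VG.bd_bd {H : Type} [Group H] (L : VG H) : L.bd3 * L.bd2 = 0 := by
  classical
  ext1 p j
  rw [Matrix.mul_apply]
  have e : ∀ x : L.J2, L.bd3 p x * L.bd2 x j =
      (Pi.single p.f0 (el (L.g p.1.1 p.1.2.1)) : L.J2 → MonoidAlgebra ℤ H) x * L.bd2 x j -
        (Pi.single p.f1 1 : L.J2 → MonoidAlgebra ℤ H) x * L.bd2 x j +
        (Pi.single p.f2 1 : L.J2 → MonoidAlgebra ℤ H) x * L.bd2 x j := by
    intro x
    unfold VG.bd3
    rw [Matrix.of_apply, Pi.add_apply, Pi.sub_apply, add_mul, sub_mul]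
  rw [Finset.sum_congr rfl fun x _ => e x, Finset.sum_add_distrib, Finset.sum_sub_distrib]
  have s : ∀ (a : L.J2) (r : MonoidAlgebra ℤ H),
      ∑ x, (Pi.single a r : L.J2 → MonoidAlgebra ℤ H) x * L.bd2 x j = r * L.bd2 a j := by
    intro a r
    rw [Finset.sum_eq_single a]
    · rw [Pi.single_eq_same]
    · intro b _ hb
      rw [Pi.single_eq_of_ne hb, zero_mul]
    · intro h
      exact absurd (Finset.mem_univ _) h
  rw [s, s, s]
  obtain ⟨⟨i, k, l⟩, h1, h2⟩ := p
  have c := L.coh i k l h1 h2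
  simp only [VG.bd2, Matrix.of_apply, Pi.sub_apply, VG.J3.f0, VG.J3.f1, VG.J3.f2, one_mul, mul_sub]
  have m : ∀ (a : MonoidAlgebra ℤ H) (i : L.I) (r : MonoidAlgebra ℤ H),
      a * (Pi.single i r : L.I → MonoidAlgebra ℤ H) j = (Pi.single i (a * r) : L.I → MonoidAlgebra ℤ H) j := by
    intro a i r
    by_cases h : j = i
    · subst h
      rw [Pi.single_eq_same, Pi.single_eq_same]
    · rw [Pi.single_eq_of_ne h, Pi.single_eq_of_ne h, mul_zero]
  rw [m, m, ← el_mul, ← c, mul_one]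
  show _ = (0 : MonoidAlgebra ℤ H)
  abel

theorem cone_dd {H : Type} [Group H] {L : VG H} {D : ℕ} {R : FFR H D} (f : CMap L R) :
    ∀ n, coneD f (n + 1) * coneD f n = 0
  | 0 => by
    show (fromBlocks L.bd2 f.f1 0 (R.d 1) : Matrix (L.J2 ⊕ R.ι 2) (L.I ⊕ R.ι 1) (MonoidAlgebra ℤ H)) *
      (fromRows f.f0 (R.d 0) : Matrix (L.I ⊕ R.ι 1) (R.ι 0) (MonoidAlgebra ℤ H)) = 0
    rw [fromBlocks_mul_fromRows, f.eq1, dd R 0, Matrix.zero_mul, zero_add]
    ext1 (i | i) j <;> rfl
  | 1 => by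
    show (fromBlocks L.bd3 f.f2 0 (R.d 2) : Matrix (L.J3 ⊕ R.ι 3) (L.J2 ⊕ R.ι 2) (MonoidAlgebra ℤ H)) *
      (fromBlocks L.bd2 f.f1 0 (R.d 1) : Matrix (L.J2 ⊕ R.ι 2) (L.I ⊕ R.ι 1) (MonoidAlgebra ℤ H)) = 0
    rw [fromBlocks_multiply, L.bd_bd, f.eq2, dd R 1]
    simp only [Matrix.zero_mul, Matrix.mul_zero, add_zero]
    exact fromBlocks_zero
  | 2 => by
    show (fromCols 0 (R.d 3) : Matrix (R.ι 4) (L.J3 ⊕ R.ι 3) (MonoidAlgebra ℤ H)) *
      (fromBlocks L.bd3 f.f2 0 (R.d 2) : Matrix (L.J3 ⊕ R.ι 3) (L.J2 ⊕ R.ι 2) (MonoidAlgebra ℤ H)) = 0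
    rw [fromCols_mul_fromBlocks, dd R 2, Matrix.zero_mul, Matrix.zero_mul, Matrix.mul_zero, add_zero,
      zero_add]
    ext1 i (j | j) <;> rfl
  | 3 => by
    show (R.d 4) * (fromCols 0 (R.d 3) : Matrix (R.ι 4) (L.J3 ⊕ R.ι 3) (MonoidAlgebra ℤ H)) = 0
    rw [Matrix.mul_fromCols, dd R 3, Matrix.mul_zero]
    ext1 i (j | j) <;> rfl
  | n + 4 => dd R (n + 4)

theorem cell_dd {H : Type} [Group H] (L : VG H) : ∀ n, cellD L (n + 1) * cellD L n = 0
  | 0 => L.bd_bd
  | 1 => by
    ext1 i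
    exact i.elim
  | n + 2 => by
    ext1 i
    exact i.elim

theorem rk_empty (F : Type w) [Field F] {G : Type} [Group G] (N : Subgroup G) [N.Normal] {m n : Type} [Fintype m]
    [IsEmpty m] (A : Matrix m n (MonoidAlgebra ℤ G)) : rk F N A = 0 := by
  unfold rk rkM
  have : actM F (A.map (toQ F N)) = 0 := by
    refine LinearMap.ext fun u => ?_
    rw [actM_apply, LinearMap.zero_apply]
    ext1 j
    show ∑ i, _ = _
    rw [Fintype.sum_empty]
    rfl
  rw [this, LinearMap.range_zero]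
  exact finrank_bot _ _

theorem cellb_lb (F : Type w) [Field F] {H : Type} [Group H] (L : VG H) (N : Subgroup H) [N.Normal] [N.FiniteIndex] :
    ∀ n, (cellb F L N n : ℤ) = L.lb F N n
  | 0 => by
    have h := hdim_zero F N (cellI L) (cellD L)
    have h' : cellb F L N 0 + rk F N L.bd2 = Fintype.card L.I * N.index := h
    simp only [VG.lb]
    zify at h'
    linarith
  | 1 => by
    have h := hdim_succ F N (cellI L) (cellD L) 0 (cell_dd L 0)
    have h' : cellb F L N 1 + rk F N L.bd2 + rk F N L.bd3 = Fintype.card L.J2 * N.index := h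
    simp only [VG.lb]
    zify at h'
    linarith
  | 2 => by
    have h := hdim_succ F N (cellI L) (cellD L) 1 (cell_dd L 1)
    have h2 : rk F N (cellD L 2) = 0 :=
      have : IsEmpty (cellI L 3) := inferInstanceAs (IsEmpty Empty)
      rk_empty F N (cellD L 2)
    have h' : cellb F L N 2 + rk F N L.bd3 + rk F N (cellD L 2) = Fintype.card L.J3 * N.index := h
    simp only [VG.lb]
    zify at h' h2
    linarith
  | n + 3 => by
    have h := hdim_succ F N (cellI L) (cellD L) (n + 2) (cell_dd L (n + 2))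
    have h0 : Fintype.card (cellI L (n + 2 + 1)) = 0 := Fintype.card_eq_zero (α := Empty)
    rw [h0] at h
    have h' : cellb F L N (n + 3) = 0 := by
      have : hdim F N (cellI L) (cellD L) (n + 2 + 1) = 0 := by omega
      exact this
    rw [h']
    rfl

end NBT
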