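import Pool.Agent.Lib.MP_83fbc5_gt.CDefs

/-!
# MP_83fbc5_gt, WDefs: the cone of the flag complex over a resolution, homology of complexes of free modules
-/

set_option autoImplicit false

namespace NBT

open Matrix

universe w

section

variable (F : Type w) [Field F] {G : Type} [Group G] (N : Subgroup G) [N.Normal] (ι : ℕ → Type) [∀ n, Fintype (ι n)]
  (d : ∀ n, Matrix (ι (n + 1)) (ι n) (MonoidAlgebra ℤ G))

/-- the `n`-cycles of the complex `F[G/N]^(ι n)` with the differentials `u ↦ u (d n)` -/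
noncomputable def hcyc : (n : ℕ) → Submodule F (ι n → MonoidAlgebra F (G ⧸ N))
  | 0 => ⊤
  | n + 1 => LinearMap.ker (actM F ((d n).map (toQ F N)))

/-- the `n`-boundaries of the complex `F[G/N]^(ι n)` -/
noncomputable def hbdr (n : ℕ) : Submodule F (ι n → MonoidAlgebra F (G ⧸ N)) :=
  LinearMap.range (actM F ((d n).map (toQ F N)))

/-- the dimension over `F` of the `n`-th homology of the complex `F[G/N]^(ι n)` -/
noncomputable def hdim (n : ℕ) : ℕ :=
  qdim F (hbdr F N ι d n) (hcyc F N ι d n)

end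

/-- a chain map from the cellular chain complex of the flag complex to a resolution, compatible with the augmentations
(with the sign convention `∂ φ = - φ ∂`) -/
structure CMap {H : Type} [Group H] (L : VG H) {D : ℕ} (R : FFR H D) where
  f0 : Matrix L.I (R.ι 0) (MonoidAlgebra ℤ H)
  f1 : Matrix L.J2 (R.ι 1) (MonoidAlgebra ℤ H)
  f2 : Matrix L.J3 (R.ι 2) (MonoidAlgebra ℤ H)
  aug : ∀ i, ∑ j, eps H (f0 i j) * R.aug j = 1
  eq1 : L.bd2 * f0 + f1 * R.d 0 = 0
  eq2 : L.bd3 * f1 + f2 * R.d 1 = 0

/-- index sets of the mapping cone -/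
def coneI {H : Type} [Group H] (L : VG H) (ι : ℕ → Type) : ℕ → Type
  | 0 => ι 0
  | 1 => L.I ⊕ ι 1
  | 2 => L.J2 ⊕ ι 2
  | 3 => L.J3 ⊕ ι 3
  | n + 4 => ι (n + 4)

noncomputable instance {H : Type} [Group H] (L : VG H) (ι : ℕ → Type) [i : ∀ n, Fintype (ι n)] :
    ∀ n, Fintype (coneI L ι n)
  | 0 => i 0
  | 1 => inferInstanceAs (Fintype (L.I ⊕ ι 1))
  | 2 => inferInstanceAs (Fintype (L.J2 ⊕ ι 2))
  | 3 => inferInstanceAs (Fintype (L.J3 ⊕ ι 3))
  | n + 4 => i (n + 4)

/-- differentials of the mapping cone -/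
noncomputable def coneD {H : Type} [Group H] {L : VG H} {D : ℕ} {R : FFR H D} (f : CMap L R) :
    ∀ n, Matrix (coneI L R.ι (n + 1)) (coneI L R.ι n) (MonoidAlgebra ℤ H)
  | 0 => fromRows f.f0 (R.d 0)
  | 1 => fromBlocks L.bd2 f.f1 0 (R.d 1)
  | 2 => fromBlocks L.bd3 f.f2 0 (R.d 2)
  | 3 => fromCols 0 (R.d 3)
  | n + 4 => R.d (n + 4)

/-- the relative Betti numbers of the classifying space of `N` modulo the quotient `L/N` of the flag complex: the dimensions of
the homology of the mapping cone of `C(L) → R` with coefficients in `F[H/N]` -/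
noncomputable def relb (F : Type w) [Field F] {H : Type} [Group H] {L : VG H} {D : ℕ} {R : FFR H D} (f : CMap L R)
    (N : Subgroup H) [N.Normal] (n : ℕ) : ℕ :=
  hdim F N (coneI L R.ι) (coneD f) n

/-- index sets of the cellular chain complex of the flag complex -/
def cellI {H : Type} [Group H] (L : VG H) : ℕ → Type
  | 0 => L.I
  | 1 => L.J2
  | 2 => L.J3
  | _ + 3 => Empty

noncomputable instance {H : Type} [Group H] (L : VG H) : ∀ n, Fintype (cellI L n)
  | 0 => inferInstanceAs (Fintype L.I)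
  | 1 => inferInstanceAs (Fintype L.J2)
  | 2 => inferInstanceAs (Fintype L.J3)
  | _ + 3 => inferInstanceAs (Fintype Empty)

/-- differentials of the cellular chain complex of the flag complex -/
noncomputable def cellD {H : Type} [Group H] (L : VG H) :
    ∀ n, Matrix (cellI L (n + 1)) (cellI L n) (MonoidAlgebra ℤ H)
  | 0 => L.bd2
  | 1 => L.bd3
  | _ + 2 => fun a => a.elim

/-- the Betti numbers of the quotient `L/N` of the flag complex -/
noncomputable def cellb (F : Type w) [Field F] {H : Type} [Group H] (L : VG H) (N : Subgroup H) [N.Normal] (n : ℕ) :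
    ℕ :=
  hdim F N (cellI L) (cellD L) n

end NBT
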