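import Pool.Agent.Lib.MP_83fbc5_gt.SPL2
import Pool.Agent.Lib.MP_83fbc5_gt.KG3
import Pool.Agent.Lib.MP_83fbc5_gt.EQV
import Pool.Agent.Lib.MP_83fbc5_gt.IND
import Pool.Agent.Lib.MP_83fbc5_gt.PHI1
import Pool.Agent.Lib.MP_83fbc5_gt.XE
import Pool.Agent.Lib.MP_83fbc5_gt.WB

/-!
# MP_83fbc5_gt, WT: the resolution of `RA ⋊ H` and the cone of the flag complex, ranks in all degrees
-/

set_option autoImplicit false

namespace NBT

open Matrix RaagIso

universe w

/-- right multiplication by the elements of `H` does not change the cosets -/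
private theorem WT_pf_mul_ind {H : Type} [Group H] (L : VG H) (y : MonoidAlgebra ℤ L.GG) (z : MonoidAlgebra ℤ H) :
    pf (SemidirectProduct.left : L.GG → RA L.gr) (y * ind L.iH z) =
      eps H z • pf (SemidirectProduct.left : L.GG → RA L.gr) y := by
  have hpneg : ∀ x : MonoidAlgebra ℤ L.GG, pf (SemidirectProduct.left : L.GG → RA L.gr) (-x) =
      -pf (SemidirectProduct.left : L.GG → RA L.gr) x := fun x =>
    map_neg (AddMonoidHom.mk' (pf (SemidirectProduct.left : L.GG → RA L.gr)) (pf_add _)) x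
  refine zg_ind (P := fun z => pf (SemidirectProduct.left : L.GG → RA L.gr) (y * ind L.iH z) =
      eps H z • pf (SemidirectProduct.left : L.GG → RA L.gr) y) ?_ ?_ ?_ ?_ z
  · rw [map_zero, mul_zero, map_zero, pf_zero, zero_smul]
  · intro h
    rw [ind_el, eps_el, one_smul]
    refine zg_ind (P := fun y => pf (SemidirectProduct.left : L.GG → RA L.gr) (y * el (L.iH h)) =
      pf (SemidirectProduct.left : L.GG → RA L.gr) y) ?_ ?_ ?_ ?_ y
    · rw [zero_mul]
    · intro g
      rw [← el_mul, pf_el, pf_el, ← (L.left_iff g (g * L.iH h)).mpr ⟨h, rfl⟩]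
    · intro a b ha hb
      rw [add_mul, pf_add, pf_add, ha, hb]
    · intro a ha
      rw [neg_mul, hpneg, hpneg, ha]
  · intro a b ha hb
    rw [map_add, mul_add, pf_add, ha, hb, map_add, add_smul]
  · intro a ha
    rw [map_neg, mul_neg, hpneg, ha, map_neg, neg_smul]

private theorem WT_t1 {H : Type} [Group H] (L : VG H) {κ : Type} [Fintype κ] (aug : κ → ℤ)
    (φ0 : Matrix L.I κ (MonoidAlgebra ℤ H)) (h0 : ∀ i, ∑ j, eps H (φ0 i j) * aug j = 1)
    (u : L.I → MonoidAlgebra ℤ L.GG) :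
    eP (SemidirectProduct.left : L.GG → RA L.gr) aug
      (u ᵥ* (Matrix.diagonal L.P1 * φ0.map (ind L.iH))) = L.eK u := by
  have hpsub : ∀ x y : MonoidAlgebra ℤ L.GG, pf (SemidirectProduct.left : L.GG → RA L.gr) (x - y) =
      pf (SemidirectProduct.left : L.GG → RA L.gr) x - pf (SemidirectProduct.left : L.GG → RA L.gr) y :=
    fun x y => map_sub (AddMonoidHom.mk' (pf (SemidirectProduct.left : L.GG → RA L.gr)) (pf_add _)) x y
  have hpsum : ∀ f : L.I → MonoidAlgebra ℤ L.GG, pf (SemidirectProduct.left : L.GG → RA L.gr) (∑ i, f i) =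
      ∑ i, pf (SemidirectProduct.left : L.GG → RA L.gr) (f i) :=
    fun f => map_sum (AddMonoidHom.mk' (pf (SemidirectProduct.left : L.GG → RA L.gr)) (pf_add _)) f _
  have e1 : ∀ j, (u ᵥ* (Matrix.diagonal L.P1 * φ0.map (ind L.iH))) j =
      ∑ i, (u i * L.P1 i) * ind L.iH (φ0 i j) := by
    intro j
    show ∑ i, u i * (Matrix.diagonal L.P1 * φ0.map (ind L.iH)) i j = _
    refine Finset.sum_congr rfl fun i _ => ?_
    rw [Matrix.diagonal_mul, Matrix.map_apply, mul_assoc]
  unfold eP VG.eK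
  have e2 : ∀ j, aug j • pf (SemidirectProduct.left : L.GG → RA L.gr)
      ((u ᵥ* (Matrix.diagonal L.P1 * φ0.map (ind L.iH))) j) =
      ∑ i, (eps H (φ0 i j) * aug j) • pf (SemidirectProduct.left : L.GG → RA L.gr) (u i * L.P1 i) := by
    intro j
    rw [e1 j, hpsum, Finset.smul_sum]
    refine Finset.sum_congr rfl fun i _ => ?_
    rw [WT_pf_mul_ind, smul_smul, mul_comm]
  rw [Finset.sum_congr rfl fun j _ => e2 j, Finset.sum_comm]
  refine Finset.sum_congr rfl fun i _ => ?_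
  rw [← Finset.sum_smul, h0 i, one_smul]
  unfold VG.P1 VG.om
  rw [mul_sub, mul_one, hpsub]

theorem exists_Tall (F : Type w) [Field F] {H : Type} [Group H] (L : VG H) {D : ℕ} (hD : 3 ≤ D) (R : FFR H D)
    (f : CMap L R) :
    ∃ T : FFR L.GG D, (∀ n, Fintype.card (T.ι n) = Fintype.card (coneI L R.ι n)) ∧
      ∃ c : ℕ, ∀ (N : Subgroup L.GG) [N.Normal] [N.FiniteIndex] (m : ℕ),
        (∀ i, m ≤ orderOf (QuotientGroup.mk (L.X (1, i)) : L.GG ⧸ N)) → ∀ n,
        (m : ℤ) * |(rk F N (T.d n) : ℤ) - rk F N ((coneD f n).map (ind L.iH))| ≤ c * N.index := by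
  classical
  have hinj : Function.Injective L.iH := SemidirectProduct.inr_injective
  have hπ : ∀ g g' : L.GG, g.left = g'.left ↔ ∃ h : H, g' = g * L.iH h := L.left_iff
  have heps : ∀ x : MonoidAlgebra ℤ H, eps L.GG (ind L.iH x) = eps H x := by
    intro x
    refine zg_ind (P := fun x => eps L.GG (ind L.iH x) = eps H x) ?_ ?_ ?_ ?_ x
    · simp
    · intro h
      rw [ind_el, eps_el, eps_el]
    · intro x y hx hy
      rw [map_add, map_add, map_add, hx, hy]
    · intro x hx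
      rw [map_neg, map_neg, map_neg, hx]
  have hmap : ∀ {a b c : Type} [Fintype b] (A : Matrix a b (MonoidAlgebra ℤ H)) (B : Matrix b c (MonoidAlgebra ℤ H)),
      (A * B).map (ind L.iH) = A.map (ind L.iH) * B.map (ind L.iH) := fun A B => Matrix.map_mul
  have t2 : L.K2 * (Matrix.diagonal L.P1 * f.f0.map (ind L.iH)) +
      (Matrix.diagonal L.P2 * f.f1.map (ind L.iH)) * (R.d 0).map (ind L.iH) = 0 := by
    rw [← Matrix.mul_assoc, L.K2_mul, Matrix.mul_assoc, Matrix.mul_assoc, ← Matrix.mul_add, ← hmap, ← hmap]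
    have e : (L.bd2 * f.f0).map (ind L.iH) + (f.f1 * R.d 0).map (ind L.iH) =
        (L.bd2 * f.f0 + f.f1 * R.d 0).map (ind L.iH) := by
      ext1 i j
      simp only [Matrix.add_apply, Matrix.map_apply, map_add]
    rw [e, f.eq1]
    have e' : (0 : Matrix L.J2 (R.ι 0) (MonoidAlgebra ℤ H)).map (ind L.iH) = 0 := by
      ext1 i j
      simp only [Matrix.map_apply, Matrix.zero_apply, map_zero]
    rw [e', Matrix.mul_zero]
  have t3 : L.K3 * (Matrix.diagonal L.P2 * f.f1.map (ind L.iH)) +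
      (Matrix.diagonal L.P3 * f.f2.map (ind L.iH)) * (R.d 1).map (ind L.iH) = 0 := by
    rw [← Matrix.mul_assoc, L.K3_mul, Matrix.mul_assoc, Matrix.mul_assoc, ← Matrix.mul_add, ← hmap, ← hmap]
    have e : (L.bd3 * f.f1).map (ind L.iH) + (f.f2 * R.d 1).map (ind L.iH) =
        (L.bd3 * f.f1 + f.f2 * R.d 1).map (ind L.iH) := by
      ext1 i j
      simp only [Matrix.add_apply, Matrix.map_apply, map_add]
    rw [e, f.eq2]
    have e' : (0 : Matrix L.J3 (R.ι 1) (MonoidAlgebra ℤ H)).map (ind L.iH) = 0 := by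
      ext1 i j
      simp only [Matrix.map_apply, Matrix.zero_apply, map_zero]
    rw [e', Matrix.mul_zero]
  obtain ⟨c, hc⟩ := block_rank F L f.f1 f.f2 (R.d 1) (R.d 2)
  set T : FFR L.GG D := spl2_spT R.len hD L.K2 L.K3 (AddMonoidHom.mk' L.eK L.eK_add) augM L.K_exact0 L.K_exact1
    L.K_exact2 L.K_exact3 (fun n => (R.d n).map (ind L.iH)) R.aug
    (AddMonoidHom.mk' (eP (SemidirectProduct.left : L.GG → RA L.gr) R.aug) (eP_add _ _)) (augM_eP _ _)
    (by
      obtain ⟨u, hu⟩ := R.surj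
      exact ⟨fun i => ind L.iH (u i), by simpa only [heps] using hu⟩)
    (ind_exact0 L.iH hinj _ hπ R.aug (R.d 0) R.exact0)
    (fun n => ind_exact L.iH hinj (R.d n) (R.d (n + 1)) (R.exact n))
    (Matrix.diagonal L.P1 * f.f0.map (ind L.iH)) (Matrix.diagonal L.P2 * f.f1.map (ind L.iH))
    (Matrix.diagonal L.P3 * f.f2.map (ind L.iH)) (WT_t1 L R.aug f.f0 f.aug) t2 t3 with hT
  refine ⟨T, ?_, Fintype.card (R.ι 0) * 3 + Fintype.card (L.I ⊕ R.ι 1) * 3 + c, ?_⟩
  · intro n
    match n with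
    | 0 => rfl
    | 1 => rfl
    | 2 => rfl
    | 3 => rfl
    | k + 4 => rfl
  intro N _ _ m hm n
  have hI : (0 : ℤ) ≤ N.index := Int.natCast_nonneg _
  obtain ⟨hc1, hc2⟩ := hc N m hm
  match n with
  | 0 =>
    have r0 : rk F N (T.d 0) = rk F N (fromRows (Matrix.diagonal L.P1 * f.f0.map (ind L.iH))
      ((R.d 0).map (ind L.iH))) := rfl
    have r0' : rk F N ((coneD f 0).map (ind L.iH)) = rk F N (fromRows (f.f0.map (ind L.iH))
      ((R.d 0).map (ind L.iH))) := by
      have e : (fromRows f.f0 (R.d 0)).map (ind L.iH) = fromRows (f.f0.map (ind L.iH))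
          ((R.d 0).map (ind L.iH)) := by
        ext1 (i | i) j <;> rfl
      rw [← e]
      rfl
    rw [r0, r0']
    have k1 := VG.PHI2_ker F L N m hm (n := R.ι 0) (fun _ => []) (by intro i; simp) 1 (by intro i; simp)
    have k2 := VG.PHI2_ker F L N m hm (n := L.I ⊕ R.ι 1) (Sum.elim (fun i => [(1, i)]) (fun _ => []))
      (by rintro (i | i) <;> simp) (Sum.elim L.P1 1) (by rintro (i | i) <;> simp [VG.P1])
    refine (VG.PHI2_gen F L N m _ _ (Sum.elim L.P1 1) 1 ?_ k1 k2).trans ?_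
    · have h2 : (Matrix.diagonal (Sum.elim L.P1 1) :
          Matrix (L.I ⊕ R.ι 1) (L.I ⊕ R.ι 1) (MonoidAlgebra ℤ L.GG)) =
          fromBlocks (Matrix.diagonal L.P1) 0 0 1 := (Matrix.fromBlocks_diagonal L.P1 1).symm
      have h3 : (Matrix.diagonal (1 : R.ι 0 → MonoidAlgebra ℤ L.GG)) = 1 := Matrix.diagonal_one
      rw [h2, fromBlocks_mul_fromRows, h3]
      simp only [Matrix.zero_mul, Matrix.mul_one, Matrix.one_mul, add_zero, zero_add]
    · refine mul_le_mul_of_nonneg_right ?_ hI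
      push_cast
      linarith [Int.natCast_nonneg c]
  | 1 =>
    refine le_trans (b := (c : ℤ) * N.index) hc1 ?_
    refine mul_le_mul_of_nonneg_right ?_ hI
    push_cast
    have := Int.natCast_nonneg (Fintype.card (R.ι 0))
    have := Int.natCast_nonneg (Fintype.card (L.I ⊕ R.ι 1))
    linarith
  | 2 =>
    refine le_trans (b := (c : ℤ) * N.index) hc2 ?_
    refine mul_le_mul_of_nonneg_right ?_ hI
    push_cast
    have := Int.natCast_nonneg (Fintype.card (R.ι 0))
    have := Int.natCast_nonneg (Fintype.card (L.I ⊕ R.ι 1))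
    linarith
  | 3 =>
    have e : (fromCols (0 : Matrix (R.ι 4) L.J3 (MonoidAlgebra ℤ H)) (R.d 3)).map (ind L.iH) =
        fromCols (0 : Matrix (R.ι 4) L.J3 (MonoidAlgebra ℤ L.GG)) ((R.d 3).map (ind L.iH)) := by
      ext1 i (j | j)
      · simp
      · rfl
    have r : rk F N (T.d 3) = rk F N ((coneD f 3).map (ind L.iH)) := by
      have r1 : rk F N (T.d 3) = rk F N (fromCols (0 : Matrix (R.ι 4) L.J3 (MonoidAlgebra ℤ L.GG))
        ((R.d 3).map (ind L.iH))) := rfl
      rw [r1, ← e]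
      rfl
    rw [r, sub_self, abs_zero, mul_zero]
    positivity
  | k + 4 =>
    have r : rk F N (T.d (k + 4)) = rk F N ((coneD f (k + 4)).map (ind L.iH)) := rfl
    rw [r, sub_self, abs_zero, mul_zero]
    positivity

end NBT
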