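import Pool.Agent.Lib.MP_83fbc5_gt.XWord

/-!
# MP_83fbc5_gt, module XB: from the Fox complex to the graph with closed walks

The complex `b2, b1` of the graph of words (`T.wk`: vertices `none`, `some z`; edges `(z, false) : none → some z`, `(z, true) : some z → nu z • none`) against the Fox complex `f2, f1`.

PROOF. `b1` has the rows `(z, false) ↦ e_(some z) - e_none`, `(z, true) ↦ [nu z] e_none - e_(some z)`. (ne, aug) clear (`V = Option Z`). (b2) The row `k` of `b2` is `∑_i` (letter `(z, true)` at `i`: `[pre i] (e_(z,false) + e_(z,true))`; letter `(z, false)`: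
`-[pre i (nu z)⁻¹] (e_(z,false) + e_(z,true))`), i.e. `b2 k (z, b) = f2 k z` for both `b`: by induction on the list, `fox nu l z = ∑_(i < length) [value of take i] * (contribution of the letter i)` (the sum over `Pos` with `kk = k` is a sum over `i` and `b : Bool`;
`Fintype.sum_sigma`, `Fintype.sum_prod_type`, `Fin.sum_univ_succ` for the induction). So with the additive map `δ : ℤ[H]^Z → ℤ[H]^(Z × Bool)`, `(δ x) (z, b) = x z`, one has `x ᵥ* b2 = δ (x ᵥ* f2)`. (dd) follows from `f2 * f1 = 0` and `δ x ᵥ* b1 = (∑ x z ([nu z] - 1)) e_none = (x ᵥ* f1) e_none`.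
(conn) Let `u : Option Z → ℤ[H]` have total augmentation 0. Subtract `∑_z u (some z) (row (z, false))`: the rest is `c e_none` with `c = ∑ u`, augmentation 0, so `c = ∑ x z ([nu z] - 1)` by `h.conn` and `c e_none = δ x ᵥ* b1`. (ex) `α' j = δ (α j)`. If `y ᵥ* b1 = 0` then the coefficient at
`some z` gives `y (z, false) = y (z, true) =: x z`, so `y = δ x` and the coefficient at `none` gives `x ᵥ* f1 = 0`. All conditions translate by the injectivity of `δ`.
(75-100 minutes)
-/

set_option autoImplicit false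

namespace NBT

open Matrix

namespace XB

variable {H : Type} [Group H]

/-- contribution of a letter to the Fox derivative -/
noncomputable def tm {Z : Type} [DecidableEq Z] (nu : Z → H) (l : List (Z × Bool)) (z : Z) (i : Fin l.length) :
    MonoidAlgebra ℤ H :=
  if (l[i]).1 = z then
      (if (l[i]).2 then el (((l.take i).map fun p => if p.2 then nu p.1 else (nu p.1)⁻¹).prod)
        else -el (((l.take i).map fun p => if p.2 then nu p.1 else (nu p.1)⁻¹).prod * (nu (l[i]).1)⁻¹)) else 0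

theorem fox_eq {Z : Type} [DecidableEq Z] (nu : Z → H) (l : List (Z × Bool)) (z : Z) :
    Wd.fox nu l z = ∑ i : Fin l.length, tm nu l z i := by
  induction l with
  | nil => simp [Wd.fox]
  | cons p l ih =>
    refine Eq.trans ?_ (Fin.sum_univ_succ (n := l.length) (tm nu (p :: l) z)).symm
    rw [Wd.fox, Pi.add_apply, Pi.smul_apply, ih]
    congr 1
    · show _ = if p.1 = z then (if p.2 then el ([].prod) else -el ([].prod * (nu p.1)⁻¹)) else 0
      rw [List.prod_nil, one_mul, el_one]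
      by_cases hp : p.1 = z
      · rw [if_pos hp]
        by_cases hb : p.2 = true
        · rw [if_pos hb, if_pos hb, ← hp, Pi.single_eq_same]
        · rw [if_neg hb, if_neg hb, ← hp, Pi.neg_apply, Pi.single_eq_same]
      · rw [if_neg hp]
        by_cases hb : p.2 = true
        · rw [if_pos hb, Pi.single_eq_of_ne (Ne.symm hp)]
        · rw [if_neg hb, Pi.neg_apply, Pi.single_eq_of_ne (Ne.symm hp), neg_zero]
    · rw [smul_eq_mul, Finset.mul_sum]
      refine Finset.sum_congr rfl fun i _ => ?_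
      show _ = if (l[i]).1 = z then (if (l[i]).2 then
        el (((p :: l.take i).map fun p => if p.2 then nu p.1 else (nu p.1)⁻¹).prod)
          else -el (((p :: l.take i).map fun p => if p.2 then nu p.1 else (nu p.1)⁻¹).prod * (nu (l[i]).1)⁻¹)) else 0
      rw [List.map_cons, List.prod_cons, tm]
      by_cases hp : (l[i]).1 = z
      · rw [if_pos hp, if_pos hp]
        by_cases hb : (l[i]).2 = true
        · rw [if_pos hb, if_pos hb, el_mul]
        · rw [if_neg hb, if_neg hb, mul_neg, mul_assoc, ← el_mul]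
      · rw [if_neg hp, if_neg hp, mul_zero]

variable (T : Wd H)

/-- the vertex of a letter -/
def vs (z : T.Z) : T.wk.V := (some z : Option T.Z)

/-- the base vertex -/
def vn : T.wk.V := (none : Option T.Z)

/-- the half edges -/
def ee (z : T.Z) (b : Bool) : T.wk.E := ((z, b) : T.Z × Bool)

theorem vs_inj {z z' : T.Z} (h : vs T z = vs T z') : z = z' := Option.some.inj h

theorem vs_ne (z : T.Z) : vs T z ≠ vn T := fun h => Option.some_ne_none z h

theorem ee_fst {z z' : T.Z} {b b' : Bool} (h : ee T z b = ee T z' b') : z = z' := congrArg Prod.fst h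

theorem ee_snd {z z' : T.Z} {b b' : Bool} (h : ee T z b = ee T z' b') : b = b' := congrArg Prod.snd h

theorem sumE {M : Type*} [AddCommMonoid M] (f : T.wk.E → M) :
    (∑ e : T.wk.E, f e) = ∑ z : T.Z, (f (ee T z false) + f (ee T z true)) := by
  have h1 : (∑ e : T.wk.E, f e) = ∑ e : T.Z × Bool, f e :=
    @Fintype.sum_equiv T.wk.E (T.Z × Bool) M _ _ _ (Equiv.refl (T.Z × Bool)) f f fun _ => rfl
  rw [h1, Fintype.sum_prod_type]
  refine Finset.sum_congr rfl fun z _ => ?_
  rw [Fintype.sum_bool, add_comm]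
  rfl

theorem sumV {M : Type*} [AddCommMonoid M] (f : T.wk.V → M) :
    (∑ e : T.wk.V, f e) = f (vn T) + ∑ z : T.Z, f (vs T z) := by
  have h1 : (∑ e : T.wk.V, f e) = ∑ e : Option T.Z, f e :=
    @Fintype.sum_equiv T.wk.V (Option T.Z) M _ _ _ (Equiv.refl (Option T.Z)) f f fun _ => rfl
  rw [h1, Fintype.sum_option]
  rfl

theorem sumK {M : Type*} [AddCommMonoid M] (f : T.wk.Kk → M) :
    (∑ e : T.wk.Kk, f e) = ∑ k : T.Kk, f k :=
  @Fintype.sum_equiv T.wk.Kk T.Kk M _ _ _ (Equiv.refl T.Kk) f f fun _ => rfl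

theorem sumW {M : Type*} [AddCommMonoid M] (f : T.wk.W → M) :
    (∑ w : T.wk.W, f w) = ∑ k : T.Kk, ∑ i : Fin (T.wd k).length, (f ⟨k, i, false⟩ + f ⟨k, i, true⟩) := by
  have h1 : (∑ w : T.wk.W, f w) = ∑ w : T.Pos, f w :=
    @Fintype.sum_equiv T.wk.W T.Pos M _ _ _ (Equiv.refl T.Pos) f f fun _ => rfl
  rw [h1, Fintype.sum_sigma]
  refine Finset.sum_congr rfl fun k _ => ?_
  rw [Fintype.sum_prod_type]
  refine Finset.sum_congr rfl fun i _ => ?_
  rw [Fintype.sum_bool, add_comm]

theorem b1_f (z' : T.Z) : T.wk.b1 (ee T z' false) = Pi.single (vs T z') 1 - Pi.single (vn T) 1 := rfl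

theorem b1_t (z' : T.Z) : T.wk.b1 (ee T z' true) = Pi.single (vn T) (el (T.nu z')) - Pi.single (vs T z') 1 := rfl

theorem b1_fs (z' z : T.Z) : T.wk.b1 (ee T z' false) (vs T z) = if z' = z then 1 else 0 := by
  rw [b1_f, Pi.sub_apply, Pi.single_apply, Pi.single_apply, if_neg (vs_ne T z), sub_zero]
  by_cases h : z' = z
  · subst h
    rw [if_pos rfl, if_pos rfl]
  · rw [if_neg h, if_neg (fun hh => h (vs_inj T hh).symm)]

theorem b1_ts (z' z : T.Z) : T.wk.b1 (ee T z' true) (vs T z) = if z' = z then -1 else 0 := by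
  rw [b1_t, Pi.sub_apply, Pi.single_apply, Pi.single_apply, if_neg (vs_ne T z), zero_sub]
  by_cases h : z' = z
  · subst h
    rw [if_pos rfl, if_pos rfl]
  · rw [if_neg h, if_neg (fun hh => h (vs_inj T hh).symm), neg_zero]

theorem b1_fn (z' : T.Z) : T.wk.b1 (ee T z' false) (vn T) = -1 := by
  rw [b1_f, Pi.sub_apply, Pi.single_apply, Pi.single_apply, if_neg (vs_ne T z').symm, if_pos rfl, zero_sub]

theorem b1_tn (z' : T.Z) : T.wk.b1 (ee T z' true) (vn T) = el (T.nu z') := by
  rw [b1_t, Pi.sub_apply, Pi.single_apply, Pi.single_apply, if_neg (vs_ne T z').symm, if_pos rfl, sub_zero]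

theorem vm_some (y : T.wk.E → MonoidAlgebra ℤ H) (z : T.Z) :
    (y ᵥ* T.wk.b1) (vs T z) = y (ee T z false) - y (ee T z true) := by
  have h := sumE T fun e => y e * T.wk.b1 e (vs T z)
  refine Eq.trans (b := ∑ e : T.wk.E, y e * T.wk.b1 e (vs T z)) rfl (h.trans ?_)
  rw [Finset.sum_eq_single z]
  · rw [b1_fs, b1_ts, if_pos rfl, if_pos rfl, mul_one, mul_neg, mul_one, sub_eq_add_neg]
  · intro z' _ hz'
    rw [b1_fs, b1_ts, if_neg hz', if_neg hz', mul_zero, mul_zero, add_zero]
  · intro hz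
    exact absurd (Finset.mem_univ z) hz

theorem vm_none (y : T.wk.E → MonoidAlgebra ℤ H) :
    (y ᵥ* T.wk.b1) (vn T) = ∑ z, (y (ee T z true) * el (T.nu z) - y (ee T z false)) := by
  have h := sumE T fun e => y e * T.wk.b1 e (vn T)
  refine Eq.trans (b := ∑ e : T.wk.E, y e * T.wk.b1 e (vn T)) rfl (h.trans ?_)
  refine Finset.sum_congr rfl fun z _ => ?_
  rw [b1_fn, b1_tn, mul_neg, mul_one]
  abel

/-- the doubling -/
def dl (x : T.Z → MonoidAlgebra ℤ H) : T.wk.E → MonoidAlgebra ℤ H := fun e : T.Z × Bool => x e.1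

theorem dl_some (x : T.Z → MonoidAlgebra ℤ H) (z : T.Z) :
    (dl T x ᵥ* T.wk.b1) (vs T z) = 0 := by
  rw [vm_some]
  exact sub_self _

theorem dl_none (x : T.Z → MonoidAlgebra ℤ H) :
    (dl T x ᵥ* T.wk.b1) (vn T) = (x ᵥ* T.f1) () := by
  rw [vm_none]
  refine Eq.trans ?_ (show (∑ z, x z * (el (T.nu z) - 1)) = (x ᵥ* T.f1) () from rfl)
  refine Finset.sum_congr rfl fun z _ => ?_
  rw [mul_sub, mul_one]
  rfl

theorem dl_zero (x : T.Z → MonoidAlgebra ℤ H) (h : x ᵥ* T.f1 = 0) :
    dl T x ᵥ* T.wk.b1 = 0 := by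
  have key : ∀ v : Option T.Z, (dl T x ᵥ* T.wk.b1) v = 0 := by
    rintro (_ | z)
    · refine (dl_none T x).trans ?_
      rw [h]
      rfl
    · exact dl_some T x z
  funext v
  exact key v

theorem dl_inj (x x' : T.Z → MonoidAlgebra ℤ H) (h : dl T x = dl T x') : x = x' := by
  funext z
  exact congrFun h (z, true)

theorem term_val (k : T.Kk) (i : Fin (T.wd k).length) (b' b : Bool) (z : T.Z) :
    (if T.wk.kk ⟨k, i, b'⟩ = k then (Pi.single (T.wk.we ⟨k, i, b'⟩) (T.wk.wsn ⟨k, i, b'⟩ • el (T.wk.wg ⟨k, i, b'⟩)) :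
    T.wk.E → MonoidAlgebra ℤ H) else 0) (ee T z b) =
    if (if ((T.wd k)[i]).2 then b' else !b') = b then tm T.nu (T.wd k) z i else 0 := by
  have hk : T.wk.kk (⟨k, i, b'⟩ : T.Pos) = k := rfl
  rw [if_pos hk, Pi.single_apply]
  have hwe : T.wk.we (⟨k, i, b'⟩ : T.Pos) =
      ee T ((T.wd k)[i]).1 (if ((T.wd k)[i]).2 then b' else !b') := rfl
  have hws : T.wk.wsn (⟨k, i, b'⟩ : T.Pos) = if ((T.wd k)[i]).2 then 1 else -1 := rfl
  have hwg : T.wk.wg (⟨k, i, b'⟩ : T.Pos) =
      if ((T.wd k)[i]).2 then T.pre k i else T.pre k i * (T.nu ((T.wd k)[i]).1)⁻¹ := rfl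
  have hpre : T.pre k i = (((T.wd k).take i).map fun p => if p.2 then T.nu p.1 else (T.nu p.1)⁻¹).prod := rfl
  rw [hwe, hws, hwg, tm, ← hpre]
  by_cases hb : (if ((T.wd k)[i]).2 then b' else !b') = b
  · rw [if_pos hb, hb]
    by_cases hz : ((T.wd k)[i]).1 = z
    · rw [if_pos hz, hz, if_pos rfl]
      by_cases hs : ((T.wd k)[i]).2 = true
      · rw [if_pos hs, if_pos hs, if_pos hs, one_smul]
      · rw [if_neg hs, if_neg hs, if_neg hs, neg_smul, one_smul]
    · rw [if_neg hz, if_neg (fun h => hz (ee_fst T h).symm)]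
  · rw [if_neg hb, if_neg (fun h => hb (ee_snd T h).symm)]

theorem b2_eq (k : T.Kk) : (T.wk.b2 k : T.wk.E → MonoidAlgebra ℤ H) = dl T (T.f2 k) := by
  have key : ∀ (z : T.Z) (b : Bool), (T.wk.b2 k) (ee T z b) = Wd.fox T.nu (T.wd k) z := by
    intro z b
    rw [fox_eq]
    unfold Wk.b2
    rw [Matrix.of_apply, Finset.sum_apply]
    have h := sumW T fun w => (if T.wk.kk w = k then (Pi.single (T.wk.we w) (T.wk.wsn w • el (T.wk.wg w)) :
      T.wk.E → MonoidAlgebra ℤ H) else 0) (ee T z b)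
    refine h.trans ?_
    rw [Finset.sum_eq_single k]
    · refine Finset.sum_congr rfl fun i _ => ?_
      have h1 := term_val T k i false b z
      have h2 := term_val T k i true b z
      refine (congrArg₂ (· + ·) h1 h2).trans ?_
      cases hs : ((T.wd k)[i]).2 <;> cases b <;> simp
    · intro k' _ hk'
      refine Finset.sum_eq_zero fun i _ => ?_
      have hk : ∀ b', ¬ T.wk.kk (⟨k', i, b'⟩ : T.Pos) = k := fun _ => hk'
      have h1 : (if T.wk.kk ⟨k', i, false⟩ = k then (Pi.single (T.wk.we ⟨k', i, false⟩)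
        (T.wk.wsn ⟨k', i, false⟩ • el (T.wk.wg ⟨k', i, false⟩)) : T.wk.E → MonoidAlgebra ℤ H) else 0) (ee T z b) = 0 := by
        rw [if_neg (hk false)]
        rfl
      have h2 : (if T.wk.kk ⟨k', i, true⟩ = k then (Pi.single (T.wk.we ⟨k', i, true⟩)
        (T.wk.wsn ⟨k', i, true⟩ • el (T.wk.wg ⟨k', i, true⟩)) : T.wk.E → MonoidAlgebra ℤ H) else 0) (ee T z b) = 0 := by
        rw [if_neg (hk true)]
        rfl
      refine (congrArg₂ (· + ·) h1 h2).trans ?_
      exact add_zero _
    · intro hz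
      exact absurd (Finset.mem_univ k) hz
  have key2 : ∀ e : T.Z × Bool, T.wk.b2 k e = dl T (T.f2 k) e := fun e => key e.1 e.2
  funext e
  exact key2 e

theorem vm_b2 (x : T.wk.Kk → MonoidAlgebra ℤ H) :
    x ᵥ* T.wk.b2 = dl T ((fun k : T.Kk => x k) ᵥ* T.f2) := by
  funext e
  have h := sumK T fun k => x k * T.wk.b2 k e
  refine Eq.trans (b := ∑ k : T.wk.Kk, x k * T.wk.b2 k e) rfl (h.trans ?_)
  refine Eq.trans (b := ∑ k : T.Kk, x k * dl T (T.f2 k) e) ?_ rfl
  refine Finset.sum_congr rfl fun k _ => ?_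
  have h2 := congrFun (b2_eq T k) e
  exact congrArg (fun t => x k * t) h2

end XB

theorem hc_base {H : Type} [Group H] (T : Wd H) {n m : ℕ} (A : Matrix (Fin n) (Fin m) (MonoidAlgebra ℤ H))
    (h : HCok T.f1 T.f2 A) : HCok T.wk.b1 T.wk.b2 A := by
  refine ⟨⟨(none : Option T.Z)⟩, ?_, ?_, ?_, ?_⟩
  · have key : ∀ (z : T.Z) (b : Bool), ∑ i, eps H (T.wk.b1 (XB.ee T z b) i) = 0 := ?_
    · exact fun e : T.Z × Bool => key e.1 e.2
    intro z b
    have h1 := XB.sumV T fun i => eps H (T.wk.b1 (XB.ee T z b) i)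
    refine h1.trans ?_
    cases b
    · rw [XB.b1_fn, Finset.sum_eq_single z]
      · rw [XB.b1_fs, if_pos rfl, map_neg, map_one]
        norm_num
      · intro z' _ hz'
        rw [XB.b1_fs, if_neg (Ne.symm hz'), map_zero]
      · intro hz
        exact absurd (Finset.mem_univ z) hz
    · rw [XB.b1_tn, eps_el, Finset.sum_eq_single z]
      · rw [XB.b1_ts, if_pos rfl, map_neg, map_one]
        norm_num
      · intro z' _ hz'
        rw [XB.b1_ts, if_neg (Ne.symm hz'), map_zero]
      · intro hz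
        exact absurd (Finset.mem_univ z) hz
  · intro u hu
    have h1 := XB.sumV T fun i => eps H (u i)
    have h2 : eps H (u (XB.vn T)) + ∑ z : T.Z, eps H (u (XB.vs T z)) = 0 := h1.symm.trans hu
    obtain ⟨x, hx⟩ := h.conn (fun _ => u (XB.vn T) + ∑ z : T.Z, u (XB.vs T z)) (by
      rw [Fintype.sum_unique, map_add, map_sum]
      exact h2)
    let y : T.wk.E → MonoidAlgebra ℤ H := fun e : T.Z × Bool => (if e.2 then (0 : MonoidAlgebra ℤ H) else u (XB.vs T e.1)) + x e.1
    have hyt : ∀ z, y (XB.ee T z true) = x z := by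
      intro z
      show (if true = true then (0 : MonoidAlgebra ℤ H) else u (XB.vs T z)) + x z = x z
      rw [if_pos rfl, zero_add]
    have hyf : ∀ z, y (XB.ee T z false) = u (XB.vs T z) + x z := by
      intro z
      show (if false = true then (0 : MonoidAlgebra ℤ H) else u (XB.vs T z)) + x z = u (XB.vs T z) + x z
      rw [if_neg (by decide)]
    have key : ∀ v : Option T.Z, (y ᵥ* T.wk.b1) v = u v := by
      rintro (_ | z)
      · refine (XB.vm_none T y).trans ?_
        have h3 := congrFun hx ()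
        have h4 : ∑ z, x z * (el (T.nu z) - 1) = u (XB.vn T) + ∑ z : T.Z, u (XB.vs T z) := h3
        have h5 : ∑ z, (y (XB.ee T z true) * el (T.nu z) - y (XB.ee T z false)) =
            ∑ z, x z * (el (T.nu z) - 1) - ∑ z : T.Z, u (XB.vs T z) := by
          rw [← Finset.sum_sub_distrib]
          refine Finset.sum_congr rfl fun z _ => ?_
          rw [hyt, hyf, mul_sub, mul_one]
          abel
        rw [h5, h4, add_sub_cancel_right]
        rfl
      · refine (XB.vm_some T y z).trans ?_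
        rw [hyt, hyf, add_sub_cancel_right]
        rfl
    refine ⟨y, ?_⟩
    funext v
    exact key v
  · have h1 : ∀ k : T.wk.Kk, (T.wk.b2 * T.wk.b1) k = 0 := by
      intro k
      have h2 : (T.wk.b2 * T.wk.b1) k = (T.wk.b2 k) ᵥ* T.wk.b1 := rfl
      rw [h2, XB.b2_eq T k]
      refine XB.dl_zero T _ ?_
      have h5 := h.dd
      have h6 : (T.f2 * T.f1) k = T.f2 k ᵥ* T.f1 := rfl
      rw [← h6, h5]
      rfl
    funext k
    exact h1 k
  · obtain ⟨α, h1, h2, h3⟩ := h.ex
    let α' : Matrix (Fin m) T.wk.E (MonoidAlgebra ℤ H) := fun j => XB.dl T (α j)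
    have key : ∀ v : Fin m → MonoidAlgebra ℤ H, v ᵥ* α' = XB.dl T (v ᵥ* α) := fun v => rfl
    refine ⟨α', ?_, ?_, ?_⟩
    · have h4 : ∀ j, (α' * T.wk.b1) j = 0 := by
        intro j
        have h5 : (α' * T.wk.b1) j = XB.dl T (α j) ᵥ* T.wk.b1 := rfl
        rw [h5]
        refine XB.dl_zero T _ ?_
        have h6 : (α * T.f1) j = α j ᵥ* T.f1 := rfl
        rw [← h6, h1]
        rfl
      funext j
      exact h4 j
    · intro u hu
      have h4 : ∀ z : T.Z, u (XB.ee T z false) = u (XB.ee T z true) := by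
        intro z
        have h5 := congrFun hu (XB.vs T z)
        have h6 := XB.vm_some T u z
        rw [h6] at h5
        exact sub_eq_zero.1 h5
      have h5 : u = XB.dl T (fun z => u (XB.ee T z false)) := by
        have h6 : ∀ e : T.Z × Bool, u e = u (XB.ee T e.1 false) := by
          rintro ⟨z, b⟩
          cases b
          · rfl
          · exact (h4 z).symm
        funext e
        exact h6 e
      have h6 : (fun z => u (XB.ee T z false)) ᵥ* T.f1 = 0 := by
        funext t
        have h7 := XB.dl_none T (fun z => u (XB.ee T z false))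
        have h8 := congrFun hu (XB.vn T)
        rw [h5] at h8
        exact h7.symm.trans h8
      obtain ⟨v, x, hvx⟩ := h2 _ h6
      refine ⟨v, x, ?_⟩
      have h8 : u = XB.dl T (v ᵥ* α) + XB.dl T (x ᵥ* T.f2) := by
        rw [h5, hvx]
        rfl
      rw [h8, key v]
      exact congrArg (fun t => XB.dl T (v ᵥ* α) + t) (XB.vm_b2 T x).symm
    · intro v
      rw [← h3]
      constructor
      · rintro ⟨x, hx⟩
        refine ⟨x, XB.dl_inj T _ _ ?_⟩
        exact (key v).symm.trans (hx.trans (XB.vm_b2 T x))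
      · rintro ⟨x, hx⟩
        refine ⟨x, ?_⟩
        exact (key v).trans ((congrArg (XB.dl T) hx).trans (XB.vm_b2 T x).symm)

end NBT
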