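import Pool.Agent.Lib.MP_83fbc5_gt.XWord

/-!
# MP_83fbc5_gt, module XF: exactness of the Fox complex of a presentation

PROOF. `B` = set of row combinations `∑_r y r • fox nu (wd r)` (a left submodule of `ℤ[H]^X`), `M = ℤ[H]^X ⧸ B`. (a) The semidirect-type group `G' = {(m, h)}` of `M` and `H` (product `(m, h) (m', h') = (m + h • m', h h')`; e.g. `Multiplicative M ⋊ H`, or avoid it by working with the group of affine maps `Equiv.Perm M` together with `H`: `h`-affine maps
`x ↦ m + h • x`). Homomorphism `ψ : FreeGroup X → G'`, `of x ↦ (class of e_x, nu x)`. By induction on the word `ψ (FreeGroup.mk l) = (class of fox nu l, value of l)` (this is the definition of `fox`; inverse letter: `(m, h)⁻¹ = (-h⁻¹ m, h⁻¹)`). So `ψ` kills the relators, hence the kernel of `lift nu` (normal closure), so there is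
a map `D : H → M` (surjectivity of `lift nu`) with `D (nu x) = class of e_x`, `D (g h) = D g + g • D h`. (b) Let `E : ℤ[H] → M` be the additive map with `E (el h) = D h`. For `x : X → ℤ[H]` one has `E (∑ x z * (el (nu z) - 1)) = class of x`: additive in `x`, for `x = el g e_z`: `D (g nu z) - D g = g • D (nu z) = class of el g e_z`. Hence if
`∑ x z * (el (nu z) - 1) = 0` then `x ∈ B`. (c) First claim: an element of augmentation 0 is a combination of `el h - 1`; `el (g h) - 1 = el g (el h - 1) + (el g - 1)` and `el (nu z)⁻¹ - 1 = -el (nu z)⁻¹ (el (nu z) - 1)`, so by surjectivity all `el h - 1` are in the left ideal of the `el (nu z) - 1`.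
(75-100 minutes)
-/

set_option autoImplicit false

namespace NBT

open Matrix

section XF

variable {H X : Type} [Group H] [DecidableEq X] (nu : X → H)

theorem XF_mk_cons (p : X × Bool) (l : List (X × Bool)) :
    FreeGroup.lift nu (FreeGroup.mk (p :: l)) =
      (if p.2 then nu p.1 else (nu p.1)⁻¹) * FreeGroup.lift nu (FreeGroup.mk l) := by
  rw [FreeGroup.lift_mk, FreeGroup.lift_mk, List.map_cons, List.prod_cons]
  cases p.2 <;> rfl

theorem XF_fox_cons (p : X × Bool) (l : List (X × Bool)) : Wd.fox nu (p :: l) =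
    (if p.2 then Pi.single p.1 1 else -Pi.single p.1 (el (nu p.1)⁻¹)) +
      el (if p.2 then nu p.1 else (nu p.1)⁻¹) • Wd.fox nu l := rfl

/-- the fundamental formula -/
theorem XF_fund [Fintype X] (l : List (X × Bool)) :
    ∑ z, Wd.fox nu l z * (el (nu z) - 1) = el (FreeGroup.lift nu (FreeGroup.mk l)) - 1 := by
  induction l with
  | nil =>
    have h1 : FreeGroup.lift nu (FreeGroup.mk ([] : List (X × Bool))) = 1 := by
      rw [← FreeGroup.one_eq_mk, map_one]
    rw [h1, el_one, sub_self]
    refine Finset.sum_eq_zero fun z _ => ?_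
    show (0 : X → MonoidAlgebra ℤ H) z * _ = 0
    rw [Pi.zero_apply, zero_mul]
  | cons p l ih =>
    rw [XF_mk_cons, XF_fox_cons, el_mul]
    have h1 : ∑ z, (((if p.2 then Pi.single p.1 1 else -Pi.single p.1 (el (nu p.1)⁻¹)) :
        X → MonoidAlgebra ℤ H) + el (if p.2 then nu p.1 else (nu p.1)⁻¹) • Wd.fox nu l) z * (el (nu z) - 1) =
        ∑ z, ((if p.2 then Pi.single p.1 1 else -Pi.single p.1 (el (nu p.1)⁻¹)) :
        X → MonoidAlgebra ℤ H) z * (el (nu z) - 1) +
        el (if p.2 then nu p.1 else (nu p.1)⁻¹) * ∑ z, Wd.fox nu l z * (el (nu z) - 1) := by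
      rw [Finset.mul_sum, ← Finset.sum_add_distrib]
      refine Finset.sum_congr rfl fun z _ => ?_
      rw [Pi.add_apply, Pi.smul_apply, smul_eq_mul, add_mul, mul_assoc]
    rw [h1, ih]
    have h2 : ∑ z, ((if p.2 then Pi.single p.1 1 else -Pi.single p.1 (el (nu p.1)⁻¹)) :
        X → MonoidAlgebra ℤ H) z * (el (nu z) - 1) = el (if p.2 then nu p.1 else (nu p.1)⁻¹) - 1 := by
      have h3 : ∀ c : MonoidAlgebra ℤ H, ∑ z, (Pi.single p.1 c : X → MonoidAlgebra ℤ H) z * (el (nu z) - 1) =
          c * (el (nu p.1) - 1) := by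
        intro c
        rw [Finset.sum_eq_single p.1]
        · rw [Pi.single_eq_same]
        · intro z _ hz
          rw [Pi.single_eq_of_ne hz, zero_mul]
        · intro h
          exact absurd (Finset.mem_univ _) h
      split_ifs
      · rw [h3, one_mul]
      · rw [← Pi.single_neg, h3, neg_mul, mul_sub, ← el_mul, inv_mul_cancel, el_one, mul_one, neg_sub]
    rw [h2]
    noncomm_ring

end XF

theorem fox_exact {H X R : Type} [Group H] [Fintype X] [Fintype R] [DecidableEq X] (nu : X → H)
    (wd : R → List (X × Bool)) (hs : Function.Surjective (FreeGroup.lift nu))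
    (hk : (FreeGroup.lift nu).ker = Subgroup.normalClosure (Set.range fun r => FreeGroup.mk (wd r))) :
    (∀ u : MonoidAlgebra ℤ H, eps H u = 0 → ∃ x : X → MonoidAlgebra ℤ H, ∑ z, x z * (el (nu z) - 1) = u) ∧
    ∀ x : X → MonoidAlgebra ℤ H, ∑ z, x z * (el (nu z) - 1) = 0 ↔
      ∃ y : R → MonoidAlgebra ℤ H, x = fun z => ∑ r, y r * Wd.fox nu (wd r) z := by
  have hl : ∀ h : H, ∃ l : List (X × Bool), FreeGroup.lift nu (FreeGroup.mk l) = h := by
    intro h
    obtain ⟨w, hw⟩ := hs h
    exact ⟨w.toWord, by rw [FreeGroup.mk_toWord, hw]⟩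
  choose lw hlw using hl
  have hrel : ∀ r, FreeGroup.lift nu (FreeGroup.mk (wd r)) = 1 := by
    intro r
    have h1 : FreeGroup.mk (wd r) ∈ (FreeGroup.lift nu).ker := by
      rw [hk]
      exact Subgroup.subset_normalClosure ⟨r, rfl⟩
    exact h1
  refine ⟨?_, fun x => ⟨?_, ?_⟩⟩
  · intro u hu
    have h1 : ∀ u : MonoidAlgebra ℤ H, ∃ x : X → MonoidAlgebra ℤ H,
        ∑ z, x z * (el (nu z) - 1) = u - ((eps H u : ℤ) : MonoidAlgebra ℤ H) := by
      intro u
      refine zg_ind (P := fun u => ∃ x : X → MonoidAlgebra ℤ H,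
        ∑ z, x z * (el (nu z) - 1) = u - ((eps H u : ℤ) : MonoidAlgebra ℤ H)) ?_ ?_ ?_ ?_ u
      · refine ⟨0, ?_⟩
        rw [map_zero, Int.cast_zero, sub_zero]
        exact Finset.sum_eq_zero fun z _ => by rw [Pi.zero_apply, zero_mul]
      · intro g
        refine ⟨Wd.fox nu (lw g), ?_⟩
        rw [XF_fund, hlw, eps_el, Int.cast_one]
      · rintro a b ⟨x, hx⟩ ⟨y, hy⟩
        refine ⟨x + y, ?_⟩
        rw [map_add, Int.cast_add, add_sub_add_comm, ← hx, ← hy, ← Finset.sum_add_distrib]
        exact Finset.sum_congr rfl fun z _ => by rw [Pi.add_apply, add_mul]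
      · rintro a ⟨x, hx⟩
        refine ⟨-x, ?_⟩
        rw [map_neg, Int.cast_neg, ← neg_sub', ← hx, ← Finset.sum_neg_distrib]
        exact Finset.sum_congr rfl fun z _ => by rw [Pi.neg_apply, neg_mul]
    obtain ⟨x, hx⟩ := h1 u
    exact ⟨x, by rw [hx, hu, Int.cast_zero, sub_zero]⟩
  · intro hx
    let B : Submodule (MonoidAlgebra ℤ H) (X → MonoidAlgebra ℤ H) :=
      Submodule.span (MonoidAlgebra ℤ H) (Set.range fun r => Wd.fox nu (wd r))
    let M := (X → MonoidAlgebra ℤ H) ⧸ B
    let cls : (X → MonoidAlgebra ℤ H) →ₗ[MonoidAlgebra ℤ H] M := B.mkQ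
    have hcls : ∀ v, cls v = 0 ↔ v ∈ B := fun v => Submodule.Quotient.mk_eq_zero B
    have hel : ∀ (a b : H) (m : M), (el a : MonoidAlgebra ℤ H) • (el b : MonoidAlgebra ℤ H) • m =
        (el (a * b) : MonoidAlgebra ℤ H) • m := fun a b m => by rw [el_mul, mul_smul]
    have hel1 : ∀ m : M, (el (1 : H) : MonoidAlgebra ℤ H) • m = m := fun m => by rw [el_one, one_smul]
    let σ : X → Equiv.Perm (M × H) := fun z =>
      { toFun := fun q => (cls (Pi.single z 1) + (el (nu z) : MonoidAlgebra ℤ H) • q.1, nu z * q.2)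
        invFun := fun q => ((el (nu z)⁻¹ : MonoidAlgebra ℤ H) • (q.1 - cls (Pi.single z 1)), (nu z)⁻¹ * q.2)
        left_inv := fun q => by
          refine Prod.ext ?_ ?_
          · show (el (nu z)⁻¹ : MonoidAlgebra ℤ H) • ((cls (Pi.single z 1) +
              (el (nu z) : MonoidAlgebra ℤ H) • q.1) - cls (Pi.single z 1)) = q.1
            rw [add_sub_cancel_left, hel, inv_mul_cancel, hel1]
          · show (nu z)⁻¹ * (nu z * q.2) = q.2
            rw [inv_mul_cancel_left]
        right_inv := fun q => by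
          refine Prod.ext ?_ ?_
          · show cls (Pi.single z 1) + (el (nu z) : MonoidAlgebra ℤ H) •
              ((el (nu z)⁻¹ : MonoidAlgebra ℤ H) • (q.1 - cls (Pi.single z 1))) = q.1
            rw [hel, mul_inv_cancel, hel1, add_sub_cancel]
          · show nu z * ((nu z)⁻¹ * q.2) = q.2
            rw [mul_inv_cancel_left] }
    have hσ : ∀ z q, σ z q = (cls (Pi.single z 1) + (el (nu z) : MonoidAlgebra ℤ H) • q.1, nu z * q.2) :=
      fun _ _ => rfl
    have hσi : ∀ z q, (σ z)⁻¹ q =
        ((el (nu z)⁻¹ : MonoidAlgebra ℤ H) • (q.1 - cls (Pi.single z 1)), (nu z)⁻¹ * q.2) :=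
      fun _ _ => rfl
    let Φ : FreeGroup X →* Equiv.Perm (M × H) := FreeGroup.lift σ
    have hΦ : ∀ (l : List (X × Bool)) (q : M × H), Φ (FreeGroup.mk l) q =
        (cls (Wd.fox nu l) + (el (FreeGroup.lift nu (FreeGroup.mk l)) : MonoidAlgebra ℤ H) • q.1,
          FreeGroup.lift nu (FreeGroup.mk l) * q.2) := by
      intro l
      induction l with
      | nil =>
        intro q
        have h1 : (FreeGroup.mk ([] : List (X × Bool))) = 1 := FreeGroup.one_eq_mk.symm
        rw [h1, map_one, map_one, one_mul, hel1]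
        have h2 : cls (Wd.fox nu []) = 0 := by
          show cls 0 = 0
          rw [map_zero]
        rw [h2, zero_add]
        rfl
      | cons p l ih =>
        intro q
        have h1 : Φ (FreeGroup.mk (p :: l)) = (if p.2 then σ p.1 else (σ p.1)⁻¹) * Φ (FreeGroup.mk l) := by
          show FreeGroup.lift σ (FreeGroup.mk (p :: l)) = _ * FreeGroup.lift σ (FreeGroup.mk l)
          rw [FreeGroup.lift_mk, FreeGroup.lift_mk, List.map_cons, List.prod_cons]
          cases p.2 <;> rfl
        rw [h1, Equiv.Perm.mul_apply, ih, XF_mk_cons, XF_fox_cons, map_add, map_smul, mul_assoc,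
          ← hel]
        cases hp : p.2 with
        | true =>
          rw [if_pos rfl, if_pos rfl, if_pos rfl, hσ]
          refine Prod.ext ?_ rfl
          show cls (Pi.single p.1 1) + (el (nu p.1) : MonoidAlgebra ℤ H) • (_ + _) = _ + _ + _
          rw [smul_add, add_assoc]
        | false =>
          rw [if_neg (by simp), if_neg (by simp), if_neg (by simp), hσi]
          refine Prod.ext ?_ rfl
          show (el (nu p.1)⁻¹ : MonoidAlgebra ℤ H) • (cls (Wd.fox nu l) +
            (el (FreeGroup.lift nu (FreeGroup.mk l)) : MonoidAlgebra ℤ H) • q.1 - cls (Pi.single p.1 1)) =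
            cls (-Pi.single p.1 (el (nu p.1)⁻¹)) + (el (nu p.1)⁻¹ : MonoidAlgebra ℤ H) • cls (Wd.fox nu l) +
            (el (nu p.1)⁻¹ : MonoidAlgebra ℤ H) •
              (el (FreeGroup.lift nu (FreeGroup.mk l)) : MonoidAlgebra ℤ H) • q.1
          have h2 : (Pi.single p.1 (el (nu p.1)⁻¹) : X → MonoidAlgebra ℤ H) =
              (el (nu p.1)⁻¹ : MonoidAlgebra ℤ H) • Pi.single p.1 1 := by
            rw [← Pi.single_smul, smul_eq_mul, mul_one]
          rw [h2, map_neg, map_smul, smul_sub, smul_add]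
          abel
    have hker : (FreeGroup.lift nu).ker ≤ Φ.ker := by
      rw [hk]
      refine Subgroup.normalClosure_le_normal ?_
      rintro _ ⟨r, rfl⟩
      show Φ (FreeGroup.mk (wd r)) = 1
      ext1 q
      rw [hΦ, hrel, hel1, one_mul, (hcls _).2 (Submodule.subset_span ⟨r, rfl⟩), zero_add]
      rfl
    have hD : ∀ l l' : List (X × Bool), FreeGroup.lift nu (FreeGroup.mk l) = FreeGroup.lift nu (FreeGroup.mk l') →
        cls (Wd.fox nu l) = cls (Wd.fox nu l') := by
      intro l l' h
      have h1 : (FreeGroup.mk l)⁻¹ * FreeGroup.mk l' ∈ (FreeGroup.lift nu).ker := by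
        rw [MonoidHom.mem_ker, map_mul, map_inv, h, inv_mul_cancel]
      have h2 := hker h1
      rw [MonoidHom.mem_ker, map_mul, map_inv, inv_mul_eq_one] at h2
      have h3 := congrArg (fun e : Equiv.Perm (M × H) => (e (0, 1)).1) h2
      simp only [hΦ] at h3
      rwa [smul_zero, smul_zero, add_zero, add_zero] at h3
    have hDmul : ∀ g h : H, cls (Wd.fox nu (lw (g * h))) =
        cls (Wd.fox nu (lw g)) + (el g : MonoidAlgebra ℤ H) • cls (Wd.fox nu (lw h)) := by
      intro g h
      have h1 : FreeGroup.lift nu (FreeGroup.mk (lw g ++ lw h)) = g * h := by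
        rw [← FreeGroup.mul_mk, map_mul, hlw, hlw]
      rw [hD (lw (g * h)) (lw g ++ lw h) (by rw [h1, hlw])]
      have h2 : Φ (FreeGroup.mk (lw g ++ lw h)) (0, 1) = Φ (FreeGroup.mk (lw g)) (Φ (FreeGroup.mk (lw h)) (0, 1)) := by
        rw [← FreeGroup.mul_mk, map_mul, Equiv.Perm.mul_apply]
      have h3 := congrArg Prod.fst h2
      simp only [hΦ, hlw] at h3
      rwa [smul_zero, smul_zero, add_zero, add_zero] at h3
    have hDnu : ∀ z, cls (Wd.fox nu (lw (nu z))) = cls (Pi.single z 1) := by
      intro z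
      have h1 : FreeGroup.lift nu (FreeGroup.mk [(z, true)]) = nu z := by
        rw [XF_mk_cons, if_pos rfl, ← FreeGroup.one_eq_mk, map_one, mul_one]
      rw [hD (lw (nu z)) [(z, true)] (by rw [h1, hlw]), XF_fox_cons, if_pos rfl]
      congr 1
      show Pi.single z 1 + _ • (0 : X → MonoidAlgebra ℤ H) = _
      rw [smul_zero, add_zero]
    let E0 : (H →₀ ℤ) →ₗ[ℤ] M := Finsupp.linearCombination ℤ fun h => cls (Wd.fox nu (lw h))
    let E : MonoidAlgebra ℤ H →+ M :=
      { toFun := fun u => E0 u.coeff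
        map_zero' := by
          rw [MonoidAlgebra.coeff_zero, map_zero]
        map_add' := fun u v => by
          rw [MonoidAlgebra.coeff_add, map_add] }
    have hE : ∀ h, E (el h) = cls (Wd.fox nu (lw h)) := by
      intro h
      show E0 (MonoidAlgebra.single h (1 : ℤ)).coeff = _
      rw [MonoidAlgebra.coeff_single, Finsupp.linearCombination_single, one_smul]
    let F : (X → MonoidAlgebra ℤ H) →+ M :=
      { toFun := fun v => E (∑ z, v z * (el (nu z) - 1))
        map_zero' := by
          rw [Finset.sum_eq_zero fun z _ => by rw [Pi.zero_apply, zero_mul], map_zero]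
        map_add' := fun u v => by
          rw [← map_add, ← Finset.sum_add_distrib]
          congr 1
          exact Finset.sum_congr rfl fun z _ => by rw [Pi.add_apply, add_mul] }
    have hF : F = cls.toAddMonoidHom := by
      refine row_ext _ _ fun j g => ?_
      show E (∑ z, (Pi.single j (el g) : X → MonoidAlgebra ℤ H) z * (el (nu z) - 1)) = cls (Pi.single j (el g))
      rw [Finset.sum_eq_single j (fun z _ hz => by rw [Pi.single_eq_of_ne hz, zero_mul])
        (fun h => absurd (Finset.mem_univ _) h), Pi.single_eq_same, mul_sub, mul_one, ← el_mul, map_sub, hE, hE,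
        hDmul, add_sub_cancel_left, hDnu, ← map_smul, ← Pi.single_smul, smul_eq_mul, mul_one]
    have h1 : cls x = 0 := by
      have h2 := DFunLike.congr_fun hF x
      have h3 : F x = 0 := by
        show E (∑ z, x z * (el (nu z) - 1)) = 0
        rw [hx, map_zero]
      rw [h3] at h2
      exact h2.symm
    have h2 := (hcls x).1 h1
    obtain ⟨y, hy⟩ := (Submodule.mem_span_range_iff_exists_fun _).1 h2
    refine ⟨y, ?_⟩
    rw [← hy]
    funext z
    rw [Finset.sum_apply]
    rfl
  · rintro ⟨y, rfl⟩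
    have h1 : ∑ z, (∑ r, y r * Wd.fox nu (wd r) z) * (el (nu z) - 1) =
        ∑ r, y r * ∑ z, Wd.fox nu (wd r) z * (el (nu z) - 1) := by
      simp only [Finset.sum_mul, Finset.mul_sum]
      rw [Finset.sum_comm]
      exact Finset.sum_congr rfl fun r _ => Finset.sum_congr rfl fun z _ => by rw [mul_assoc]
    rw [h1]
    refine Finset.sum_eq_zero fun r _ => ?_
    rw [XF_fund, hrel, el_one, sub_self, mul_zero]

end NBT
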