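import Pool.Agent.Lib.MP_83fbc5_gt.Basic

/-!
# MP_83fbc5_gt, module XG1: matrices from exactness

Complex `ℤ[H]^X3 → ℤ[H]^X2 → ℤ[H]^X1 → ℤ[H]^X0` with matrices `M2`, `M1`, `M0`, surjective at `X0`, exact at `X1` and with `H_2 = coker A` via the cycles `α`. The statement provides matrix identities (which survive every change of rings).

PROOF. Rows one after another (`Matrix.of`, `choose`). `s0 * M0 = 1`: `hsurj` for `Pi.single i 1`. `M0 * s0 + s1 * M1 = 1` on `X1`: the row `i` of `1 - M0 * s0` is killed by `M0` (`M0 * s0 * M0 = M0`), so it is `v ᵥ* M1` by `hex`. Put `π = 1 - M1 * s1` on `X2`: `π * M1 = M1 - M1 * (s1 * M1) = M1 - M1 * (1 - M0 * s0) = 0` (`M1 * M0 = 0`). So each row of `π` is a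
cycle, hence `v ᵥ* α + x ᵥ* M2`: this gives `β`, `γ` with `π = β * α + γ * M2`. `A * α = ε * M2`: `hα` for `v = ` row of `A` (`y = Pi.single`). `1 - α * β = δ * A`: the row `j` of `1 - α * β` is a vector `v` with `v ᵥ* α = α j - (α j) ᵥ* β ᵥ* α = (α j) ᵥ* (π - β * α) = (α j) ᵥ* γ ᵥ* M2` (as `(α j) ᵥ* π = α j` because `α * M1 = 0`), a boundary, so `v = y ᵥ* A` by `hα`.
`M2 * β = ζ * A`: the row `i` of `M2 * β` is `v` with `v ᵥ* α = (M2 i) ᵥ* (π - γ * M2) = M2 i - ((M2 i) ᵥ* γ) ᵥ* M2` (`(M2 i) ᵥ* π = M2 i` as `M2 * M1 = 0`), a boundary.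
(50-70 minutes)
-/

set_option autoImplicit false

namespace NBT

open Matrix

private theorem XG1_exists {S : Type} [Ring S] {I J K : Type} [Fintype J] (B : Matrix J K S) (C : Matrix I K S)
    (h : ∀ i, ∃ v, v ᵥ* B = C i) : ∃ D : Matrix I J S, D * B = C := by
  choose f hf using h
  refine ⟨Matrix.of f, ?_⟩
  refine Matrix.ext fun i k => ?_
  rw [Matrix.mul_apply_eq_vecMul]
  exact congrFun (hf i) k

private theorem XG1_row_mul {S : Type} [Ring S] {I J K : Type} [Fintype J] (A : Matrix I J S) (B : Matrix J K S)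
    (i : I) : A i ᵥ* B = (A * B) i := (Matrix.mul_apply_eq_vecMul A B i).symm

theorem cone_matrices {S : Type} [Ring S] {X0 X1 X2 X3 : Type} [Fintype X0] [Fintype X1] [Fintype X2] [Fintype X3]
    [DecidableEq X0] [DecidableEq X1] [DecidableEq X2] {n m : ℕ}
    (M0 : Matrix X1 X0 S) (M1 : Matrix X2 X1 S) (M2 : Matrix X3 X2 S) (A : Matrix (Fin n) (Fin m) S)
    (α : Matrix (Fin m) X2 S) (h10 : M1 * M0 = 0) (h21 : M2 * M1 = 0) (hsurj : ∀ u, ∃ v, v ᵥ* M0 = u)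
    (hex : ∀ u, u ᵥ* M0 = 0 → ∃ v, v ᵥ* M1 = u) (hα0 : α * M1 = 0)
    (hcyc : ∀ u, u ᵥ* M1 = 0 → ∃ v x, u = v ᵥ* α + x ᵥ* M2)
    (hα : ∀ v, (∃ x, v ᵥ* α = x ᵥ* M2) ↔ ∃ y, v = y ᵥ* A) :
    ∃ (s0 : Matrix X0 X1 S) (s1 : Matrix X1 X2 S) (β : Matrix X2 (Fin m) S) (γ : Matrix X2 X3 S)
      (ε : Matrix (Fin n) X3 S) (δ : Matrix (Fin m) (Fin n) S) (ζ : Matrix X3 (Fin n) S),
      s0 * M0 = 1 ∧ M0 * s0 + s1 * M1 = 1 ∧ 1 - M1 * s1 = β * α + γ * M2 ∧ A * α = ε * M2 ∧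
        1 - α * β = δ * A ∧ M2 * β = ζ * A := by
  classical
  obtain ⟨s0, hs0⟩ := XG1_exists M0 (1 : Matrix X0 X0 S) (fun i => hsurj _)
  obtain ⟨s1, hs1⟩ := XG1_exists M1 (1 - M0 * s0) (fun i => hex _ (by
    rw [XG1_row_mul, Matrix.sub_mul, Matrix.mul_assoc, hs0, Matrix.one_mul, Matrix.mul_one, sub_self]
    rfl))
  have hπ : (1 - M1 * s1) * M1 = 0 := by
    rw [Matrix.sub_mul, Matrix.mul_assoc, hs1, Matrix.mul_sub, Matrix.mul_one, ← Matrix.mul_assoc, h10,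
      Matrix.zero_mul, sub_zero, Matrix.one_mul, sub_self]
  have h1 : ∀ i, ∃ v x, (1 - M1 * s1 : Matrix X2 X2 S) i = v ᵥ* α + x ᵥ* M2 := fun i => hcyc _ (by
    rw [XG1_row_mul, hπ]
    rfl)
  choose f g hfg using h1
  have hβγ : 1 - M1 * s1 = Matrix.of f * α + Matrix.of g * M2 := by
    refine Matrix.ext fun i k => ?_
    rw [Matrix.add_apply, Matrix.mul_apply_eq_vecMul, Matrix.mul_apply_eq_vecMul]
    exact congrFun (hfg i) k
  obtain ⟨β, hβ⟩ : ∃ β : Matrix X2 (Fin m) S, β = Matrix.of f := ⟨_, rfl⟩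
  obtain ⟨γ, hγ⟩ : ∃ γ : Matrix X2 X3 S, γ = Matrix.of g := ⟨_, rfl⟩
  rw [← hβ, ← hγ] at hβγ
  obtain ⟨ε, hε⟩ := XG1_exists M2 (A * α) (fun i => by
    obtain ⟨x, hx⟩ := (hα (A i)).2 ⟨Pi.single i 1, (Matrix.single_one_vecMul i A).symm⟩
    exact ⟨x, by rw [← hx, XG1_row_mul]⟩)
  have hαπ : α * (1 - M1 * s1) = α := by
    rw [Matrix.mul_sub, Matrix.mul_one, ← Matrix.mul_assoc, hα0, Matrix.zero_mul, sub_zero]
  have hMπ : M2 * (1 - M1 * s1) = M2 := by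
    rw [Matrix.mul_sub, Matrix.mul_one, ← Matrix.mul_assoc, h21, Matrix.zero_mul, sub_zero]
  have hδ0 : (1 - α * β) * α = (α * γ) * M2 := by
    have h2 : α = α * β * α + α * γ * M2 := by
      rw [Matrix.mul_assoc, Matrix.mul_assoc α γ, ← Matrix.mul_add, ← hβγ, hαπ]
    rw [Matrix.sub_mul, Matrix.one_mul, sub_eq_iff_eq_add, add_comm]
    exact h2
  obtain ⟨δ, hδ⟩ := XG1_exists A (1 - α * β) (fun i => by
    obtain ⟨y, hy⟩ := (hα ((1 - α * β : Matrix (Fin m) (Fin m) S) i)).1 ⟨(α * γ) i, by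
      rw [XG1_row_mul, XG1_row_mul, hδ0]⟩
    exact ⟨y, hy.symm⟩)
  have hζ0 : (M2 * β) * α = (1 - M2 * γ) * M2 := by
    have h2 : M2 = M2 * β * α + M2 * γ * M2 := by
      rw [Matrix.mul_assoc, Matrix.mul_assoc M2 γ, ← Matrix.mul_add, ← hβγ, hMπ]
    rw [Matrix.sub_mul, Matrix.one_mul, eq_sub_iff_add_eq]
    exact h2.symm
  obtain ⟨ζ, hζ⟩ := XG1_exists A (M2 * β) (fun i => by
    obtain ⟨y, hy⟩ := (hα ((M2 * β) i)).1 ⟨(1 - M2 * γ : Matrix X3 X3 S) i, by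
      rw [XG1_row_mul, XG1_row_mul, hζ0]⟩
    exact ⟨y, hy.symm⟩)
  refine ⟨s0, s1, β, γ, ε, δ, ζ, hs0, ?_, hβγ, hε.symm, hδ.symm, hζ.symm⟩
  rw [hs1]
  exact add_sub_cancel _ _

end NBT
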