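import Pool.Agent.Lib.MP_83fbc5_gt.XG1

/-!
# MP_83fbc5_gt, module XG2: ranks from the matrix identities

PROOF. Map all identities of `cone_matrices` to `S' = F[H/N]` with `θ = toQ F N` (`Matrix.map_mul`, `Matrix.map_add`, ..): they hold for the mapped matrices, which we denote by the same letters; let `q = N.index = dim S'`. Ranks of the maps `u ↦ u M`:
`rk M0 = |X0| q`: surjective by `s0 * M0 = 1`. Kernel of `M0` = range of `M1`: `⊇` `h10`; `⊆` `u = u (M0 s0) + u s1 M1`. So `rk M1 = |X1| q - |X0| q`. Kernel `Z` of `M1` has dimension `|X2| q - rk M1`. The map `α` induces an isomorphism `S'^m / (range of A) → Z / (range of M2)`: well defined (`A α = ε M2`, `α M1 = 0`), surjective (for `u ∈ Z`: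
`u = u (1 - M1 s1) = u β α + u γ M2`), injective: if `v α = x M2` then `v = v (1 - α β) + v α β = v δ A + x M2 β = v δ A + x ζ A`. Hence `m q - rk A = dim Z - rk M2`.
(60-80 minutes)
-/

set_option autoImplicit false

namespace NBT

open Matrix Module

universe w

private theorem XG2_map {S S' : Type*} [Ring S] [Ring S'] (θ : S →+* S') {I J K : Type} [Fintype J]
    (A : Matrix I J S) (B : Matrix J K S) : (A * B).map θ = A.map θ * B.map θ := Matrix.map_mul

theorem cone_ranks (F : Type w) [Field F] {H : Type} [Group H] {X0 X1 X2 X3 : Type} [Fintype X0] [Fintype X1]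
    [Fintype X2] [Fintype X3] {n m : ℕ}
    (M0 : Matrix X1 X0 (MonoidAlgebra ℤ H)) (M1 : Matrix X2 X1 (MonoidAlgebra ℤ H))
    (M2 : Matrix X3 X2 (MonoidAlgebra ℤ H)) (A : Matrix (Fin n) (Fin m) (MonoidAlgebra ℤ H))
    (α : Matrix (Fin m) X2 (MonoidAlgebra ℤ H)) (h10 : M1 * M0 = 0) (h21 : M2 * M1 = 0)
    (hsurj : ∀ u, ∃ v, v ᵥ* M0 = u) (hex : ∀ u, u ᵥ* M0 = 0 → ∃ v, v ᵥ* M1 = u) (hα0 : α * M1 = 0)
    (hcyc : ∀ u, u ᵥ* M1 = 0 → ∃ v x, u = v ᵥ* α + x ᵥ* M2)
    (hα : ∀ v, (∃ x, v ᵥ* α = x ᵥ* M2) ↔ ∃ y, v = y ᵥ* A) (N : Subgroup H) [N.Normal] [N.FiniteIndex] :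
    rk F N M1 + Fintype.card X0 * N.index = Fintype.card X1 * N.index ∧
      rk F N M1 + rk F N M2 + m * N.index = Fintype.card X2 * N.index + rk F N A := by
  classical
  obtain ⟨s0, s1, β, γ, ε, δ, ζ, e1, e2, e3, e4, e5, e6⟩ :=
    cone_matrices M0 M1 M2 A α h10 h21 hsurj hex hα0 hcyc hα
  -- the identities over the quotient ring
  have f1 : s0.map (toQ F N) * M0.map (toQ F N) = 1 := by
    rw [← XG2_map, e1]; exact Matrix.map_one _ (map_zero _) (map_one _)
  have f2 : M0.map (toQ F N) * s0.map (toQ F N) + s1.map (toQ F N) * M1.map (toQ F N) = 1 := by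
    rw [← XG2_map, ← XG2_map, ← Matrix.map_add _ (map_add _), e2]
    exact Matrix.map_one _ (map_zero _) (map_one _)
  have f3 : 1 - M1.map (toQ F N) * s1.map (toQ F N)
      = β.map (toQ F N) * α.map (toQ F N) + γ.map (toQ F N) * M2.map (toQ F N) := by
    rw [← XG2_map, ← XG2_map, ← XG2_map, ← Matrix.map_add _ (map_add _), ← e3,
      Matrix.map_sub _ (map_sub _), Matrix.map_one _ (map_zero _) (map_one _)]
  have f4 : A.map (toQ F N) * α.map (toQ F N) = ε.map (toQ F N) * M2.map (toQ F N) := by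
    rw [← XG2_map, ← XG2_map, e4]
  have f5 : 1 - α.map (toQ F N) * β.map (toQ F N) = δ.map (toQ F N) * A.map (toQ F N) := by
    rw [← XG2_map, ← XG2_map, ← e5, Matrix.map_sub _ (map_sub _), Matrix.map_one _ (map_zero _) (map_one _)]
  have f6 : M2.map (toQ F N) * β.map (toQ F N) = ζ.map (toQ F N) * A.map (toQ F N) := by
    rw [← XG2_map, ← XG2_map, e6]
  have f7 : M1.map (toQ F N) * M0.map (toQ F N) = 0 := by
    rw [← XG2_map, h10]; exact Matrix.map_zero _ (map_zero _)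
  have f8 : M2.map (toQ F N) * M1.map (toQ F N) = 0 := by
    rw [← XG2_map, h21]; exact Matrix.map_zero _ (map_zero _)
  have f9 : α.map (toQ F N) * M1.map (toQ F N) = 0 := by
    rw [← XG2_map, hα0]; exact Matrix.map_zero _ (map_zero _)
  have r0 := rk_add_ker F N M0
  have r1 := rk_add_ker F N M1
  unfold rk rkM at *
  generalize M0.map (toQ F N) = m0 at *
  generalize M1.map (toQ F N) = m1 at *
  generalize M2.map (toQ F N) = m2 at *
  generalize A.map (toQ F N) = a at *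
  generalize α.map (toQ F N) = al at *
  generalize s0.map (toQ F N) = t0 at *
  generalize s1.map (toQ F N) = t1 at *
  generalize β.map (toQ F N) = be at *
  generalize γ.map (toQ F N) = ga at *
  generalize ε.map (toQ F N) = ep at *
  generalize δ.map (toQ F N) = de at *
  generalize ζ.map (toQ F N) = ze at *
  clear e1 e2 e3 e4 e5 e6 h10 h21 hsurj hex hα0 hcyc hα
  -- M0
  have hsur : LinearMap.range (actM F m0) = ⊤ := by
    rw [LinearMap.range_eq_top]
    intro u
    refine ⟨u ᵥ* t0, ?_⟩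
    show (u ᵥ* t0) ᵥ* m0 = u
    rw [Matrix.vecMul_vecMul, f1, Matrix.vecMul_one]
  have hker0 : LinearMap.ker (actM F m0) = LinearMap.range (actM F m1) := by
    ext u
    rw [LinearMap.mem_ker, LinearMap.mem_range]
    constructor
    · intro hu
      have hu' : u ᵥ* m0 = 0 := hu
      refine ⟨u ᵥ* t1, ?_⟩
      show (u ᵥ* t1) ᵥ* m1 = u
      have h2 : u ᵥ* (m0 * t0 + t1 * m1) = u := by rw [f2, Matrix.vecMul_one]
      rw [Matrix.vecMul_add, ← Matrix.vecMul_vecMul, ← Matrix.vecMul_vecMul, hu', Matrix.zero_vecMul,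
        zero_add] at h2
      exact h2
    · rintro ⟨v, rfl⟩
      show (v ᵥ* m1) ᵥ* m0 = 0
      rw [Matrix.vecMul_vecMul, f7, Matrix.vecMul_zero]
  rw [hsur, finrank_top, finrank_row, hker0] at r0
  refine ⟨by omega, ?_⟩
  -- the second statement
  set Z := LinearMap.ker (actM F m1) with hZ
  set W := LinearMap.range (actM F m2) with hW
  have hWZ : W ≤ Z := by
    rintro _ ⟨v, rfl⟩
    rw [hZ, LinearMap.mem_ker]
    show (v ᵥ* m2) ᵥ* m1 = 0
    rw [Matrix.vecMul_vecMul, f8, Matrix.vecMul_zero]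
  let f := W.mkQ ∘ₗ actM F al
  let g := W.mkQ ∘ₗ Z.subtype
  have hkf : LinearMap.ker f = LinearMap.range (actM F a) := by
    ext v
    rw [LinearMap.mem_ker]
    show W.mkQ (v ᵥ* al) = 0 ↔ _
    rw [Submodule.mkQ_apply, Submodule.Quotient.mk_eq_zero, hW, LinearMap.mem_range, LinearMap.mem_range]
    constructor
    · rintro ⟨x, hx⟩
      have hx' : x ᵥ* m2 = v ᵥ* al := hx
      refine ⟨v ᵥ* de + x ᵥ* ze, ?_⟩
      show (v ᵥ* de + x ᵥ* ze) ᵥ* a = v
      rw [Matrix.add_vecMul, Matrix.vecMul_vecMul, Matrix.vecMul_vecMul, ← f5, ← f6, Matrix.vecMul_sub,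
        Matrix.vecMul_one, ← Matrix.vecMul_vecMul, ← Matrix.vecMul_vecMul, hx', sub_add_cancel]
    · rintro ⟨y, rfl⟩
      refine ⟨y ᵥ* ep, ?_⟩
      show (y ᵥ* ep) ᵥ* m2 = (y ᵥ* a) ᵥ* al
      rw [Matrix.vecMul_vecMul, Matrix.vecMul_vecMul, f4]
  have hrfg : LinearMap.range f = LinearMap.range g := by
    apply le_antisymm
    · rintro _ ⟨v, rfl⟩
      refine ⟨⟨v ᵥ* al, ?_⟩, rfl⟩
      rw [hZ, LinearMap.mem_ker]
      show (v ᵥ* al) ᵥ* m1 = 0
      rw [Matrix.vecMul_vecMul, f9, Matrix.vecMul_zero]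
    · rintro _ ⟨⟨u, hu⟩, rfl⟩
      have hu' : u ᵥ* m1 = 0 := hu
      refine ⟨u ᵥ* be, ?_⟩
      show W.mkQ ((u ᵥ* be) ᵥ* al) = W.mkQ u
      have h2 : u = (u ᵥ* be) ᵥ* al + (u ᵥ* ga) ᵥ* m2 := by
        rw [Matrix.vecMul_vecMul, Matrix.vecMul_vecMul, ← Matrix.vecMul_add, ← f3, Matrix.vecMul_sub,
          Matrix.vecMul_one, ← Matrix.vecMul_vecMul, hu', Matrix.zero_vecMul, sub_zero]
      have h3 : W.mkQ ((u ᵥ* ga) ᵥ* m2) = 0 := by
        rw [Submodule.mkQ_apply, Submodule.Quotient.mk_eq_zero, hW]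
        exact ⟨u ᵥ* ga, rfl⟩
      conv_rhs => rw [h2]
      rw [map_add, h3, add_zero]
  have hkg : finrank F (LinearMap.ker g) = finrank F W := by
    have h2 : LinearMap.ker g = W.comap Z.subtype := by
      show LinearMap.ker (W.mkQ ∘ₗ Z.subtype) = _
      rw [LinearMap.ker_comp, Submodule.ker_mkQ]
    rw [h2]
    exact (Submodule.comapSubtypeEquivOfLe hWZ).finrank_eq
  have n1 := LinearMap.finrank_range_add_finrank_ker f
  have n2 := LinearMap.finrank_range_add_finrank_ker g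
  rw [hkf, finrank_row, Fintype.card_fin] at n1
  rw [hkg, ← hrfg] at n2
  omega

end NBT
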