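import Pool.Agent.Lib.MP_83fbc5_gt.XDefs

/-!
# MP_83fbc5_gt, module XH: attaching discs along closed walks

`K.cell` has vertices `V ⊕ W` (`inr w` = ring vertex `a w`), edges `E ⊕ (W ⊕ W)` (`inr (inl w)` = ring edge `r w` from `a w` to `a (nw w)`, `inr (inr w)` = spoke `q w` from `a w` to `bg w • bl w`), polygons `W ⊕ Kk` (`Q w`, `P k`).

PROOF. Write `e_x` for `Pi.single x 1`. First evaluate `c1`, `c2` on the new cells: `c1 (r w) = e_(a (nw w)) - e_(a w)`, `c1 (q w) = [bg w] e_(bl w) - e_(a w)`, `c1 (inl e) = b1 e` (extended by 0);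
`c2 (Q w) = e_(q w) + wsn w [wg w] e_(we w) - e_(q (nw w)) - e_(r w)`, `c2 (P k) = ∑_(kk w = k) e_(r w)` (sum over the sides `s` with `face s = f`, `Fintype.sum_sum_type`, `Fintype.sum_prod_type`, `Fin.sum_univ_four`).
Chain maps (additive, commuting with left multiplication): `f0 : ℤ[H]^V → ℤ[H]^(V ⊕ W)`, `f1 : ℤ[H]^E → ℤ[H]^C1` extension by 0, `f2 : ℤ[H]^Kk → ℤ[H]^C2`, `f2 e_k = e_(P k) + ∑_(kk w = k) e_(Q w)`: `f2 (x) ᵥ* c2 = f1 (x ᵥ* b2)` (the spokes cancel along `nw`, the ring edges cancel).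
`g0 : e_(inl v) ↦ e_v, e_(a w) ↦ [bg w] e_(bl w)`; `g1 : e_(inl e) ↦ e_e, e_(q w) ↦ 0, e_(r w) ↦ wsn w [wg w] e_(we w)`; `g2 : e_(Q w) ↦ 0, e_(P k) ↦ e_k`; these are chain maps: `g1 (x) ᵥ* b1 = g0 (x ᵥ* c1)` (`bl_nw`, `bg_nw`), `g2 (x) ᵥ* b2 = g1 (x ᵥ* c2)`. `g f = id`.
(conn) `u - f0 (g0 u)` is a combination of `e_(a w) - [bg w] e_(bl w) = - c1 (q w)`, and `g0 u` has the same total augmentation. (ex) `α' = f1 α`. Let `u ᵥ* c1 = 0`. Then `u - f1 (g1 u)` is a boundary: with `x = ∑_w -(u (r w)) e_(Q w)` the vector `u' = u - f1 (g1 u) - x ᵥ* c2` has zero coefficients at all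
`r w` and at all `inl e` (check), so it is a combination of the `q w`; it is a cycle (both `u` and `f1 (g1 u)` are) and the coefficient of `u' ᵥ* c1` at `a w` is `- u' (q w)`, so `u' = 0`. So `u = f1 (g1 u) + x ᵥ* c2` and `g1 u` is a cycle of `b1`, to which `h.ex` applies; boundaries: `f1 (y ᵥ* b2) = f2 y ᵥ* c2`.
If `v ᵥ* α' = x ᵥ* c2` apply `g1`: `v ᵥ* α = g2 x ᵥ* b2`; conversely apply `f`. (dd): `c2 * c1 = 0` on both kinds of rows. (ne, aug) clear.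
(90-120 minutes; may be split: evaluation of `c1`, `c2`; chain maps; conclusion)
-/

set_option autoImplicit false

namespace NBT

open Matrix

section XH

variable {H : Type} [Group H]

theorem XH_single_vecMul {m n : Type} [Fintype m] [DecidableEq m] (M : Matrix m n (MonoidAlgebra ℤ H)) (x : m)
    (c : MonoidAlgebra ℤ H) : (Pi.single x c : m → MonoidAlgebra ℤ H) ᵥ* M = c • M x := by
  funext j
  rw [Matrix.vecMul, dotProduct, Finset.sum_eq_single x]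
  · rw [Pi.single_eq_same]
    rfl
  · intro y _ hy
    rw [Pi.single_eq_of_ne hy, zero_mul]
  · intro h
    exact absurd (Finset.mem_univ _) h

theorem XH_row_mul {l m n : Type} [Fintype m] (M : Matrix l m (MonoidAlgebra ℤ H))
    (N : Matrix m n (MonoidAlgebra ℤ H)) (i : l) : (M * N) i = M i ᵥ* N := rfl

theorem XH_row_one {m : Type} [DecidableEq m] (i : m) :
    (1 : Matrix m m (MonoidAlgebra ℤ H)) i = Pi.single i 1 := by
  funext j
  rw [Matrix.one_apply, Pi.single_apply]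
  by_cases h : i = j
  · rw [if_pos h, if_pos h.symm]
  · rw [if_neg h, if_neg fun e => h e.symm]

theorem XH_smul_single {m : Type} [DecidableEq m] (c d : MonoidAlgebra ℤ H) (x : m) :
    c • (Pi.single x d : m → MonoidAlgebra ℤ H) = Pi.single x (c * d) := by
  rw [← Pi.single_smul, smul_eq_mul]

theorem XH_aug_single {m : Type} [Fintype m] [DecidableEq m] (g : H) (x : m) :
    ∑ j, eps H ((Pi.single x (el g) : m → MonoidAlgebra ℤ H) j) = 1 := by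
  rw [Finset.sum_eq_single x, Pi.single_eq_same, eps_el]
  · intro y _ hy
    rw [Pi.single_eq_of_ne hy, map_zero]
  · intro h
    exact absurd (Finset.mem_univ _) h

theorem XH_aug_mul {m n : Type} [Fintype m] [Fintype n] (M : Matrix m n (MonoidAlgebra ℤ H))
    (h : ∀ i, ∑ j, eps H (M i j) = 1) (u : m → MonoidAlgebra ℤ H) :
    ∑ j, eps H ((u ᵥ* M) j) = ∑ i, eps H (u i) := by
  simp only [Matrix.vecMul, dotProduct, map_sum, map_mul]
  rw [Finset.sum_comm]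
  refine Finset.sum_congr rfl fun i _ => ?_
  rw [← Finset.mul_sum, h, mul_one]

/-- `H_0` and `H_1` are invariant under chain homotopy equivalence -/
theorem XH_transfer {V E F V' E' F' : Type} [Fintype V] [Fintype E] [Fintype F] [Fintype V'] [Fintype E'] [Fintype F']
    [DecidableEq V'] [DecidableEq E'] [DecidableEq E] {n m : ℕ}
    (b1 : Matrix E V (MonoidAlgebra ℤ H)) (b2 : Matrix F E (MonoidAlgebra ℤ H))
    (c1 : Matrix E' V' (MonoidAlgebra ℤ H)) (c2 : Matrix F' E' (MonoidAlgebra ℤ H))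
    (A : Matrix (Fin n) (Fin m) (MonoidAlgebra ℤ H)) (h : HCok b1 b2 A) (hne : Nonempty V')
    (haug : ∀ e, ∑ i, eps H (c1 e i) = 0) (hdd : c2 * c1 = 0)
    (F0 : Matrix V V' (MonoidAlgebra ℤ H)) (F1 : Matrix E E' (MonoidAlgebra ℤ H)) (F2 : Matrix F F' (MonoidAlgebra ℤ H))
    (G0 : Matrix V' V (MonoidAlgebra ℤ H)) (G1 : Matrix E' E (MonoidAlgebra ℤ H)) (G2 : Matrix F' F (MonoidAlgebra ℤ H))
    (S0 : Matrix V' E' (MonoidAlgebra ℤ H)) (S1 : Matrix E' F' (MonoidAlgebra ℤ H))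
    (hG0 : ∀ i, ∑ j, eps H (G0 i j) = 1)
    (h1 : F1 * c1 = b1 * F0) (h2 : F2 * c2 = b2 * F1) (h3 : G1 * b1 = c1 * G0) (h4 : G2 * b2 = c2 * G1)
    (h5 : F1 * G1 = 1) (h6 : 1 = G0 * F0 + S0 * c1) (h7 : 1 = G1 * F1 + (S1 * c2 + c1 * S0)) : HCok c1 c2 A := by
  refine ⟨hne, haug, ?_, hdd, ?_⟩
  · intro u hu
    obtain ⟨v, hv⟩ := h.conn (u ᵥ* G0) (by rw [XH_aug_mul _ hG0, hu])
    refine ⟨v ᵥ* F1 + u ᵥ* S0, ?_⟩
    have e1 : u = (u ᵥ* G0) ᵥ* F0 + (u ᵥ* S0) ᵥ* c1 := by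
      rw [Matrix.vecMul_vecMul, Matrix.vecMul_vecMul, ← Matrix.vecMul_add, ← h6, Matrix.vecMul_one]
    rw [Matrix.add_vecMul, Matrix.vecMul_vecMul, h1, ← Matrix.vecMul_vecMul, hv]
    exact e1.symm
  · obtain ⟨α, ha1, ha2, ha3⟩ := h.ex
    refine ⟨α * F1, ?_, ?_, ?_⟩
    · rw [Matrix.mul_assoc, h1, ← Matrix.mul_assoc, ha1, Matrix.zero_mul]
    · intro u hu
      obtain ⟨v, x, hvx⟩ := ha2 (u ᵥ* G1) (by
        rw [Matrix.vecMul_vecMul, h3, ← Matrix.vecMul_vecMul, hu, Matrix.zero_vecMul])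
      refine ⟨v, x ᵥ* F2 + u ᵥ* S1, ?_⟩
      have e1 : u = (u ᵥ* G1) ᵥ* F1 + ((u ᵥ* S1) ᵥ* c2 + (u ᵥ* c1) ᵥ* S0) := by
        rw [Matrix.vecMul_vecMul, Matrix.vecMul_vecMul, Matrix.vecMul_vecMul, ← Matrix.vecMul_add,
          ← Matrix.vecMul_add, ← h7, Matrix.vecMul_one]
      rw [hu, Matrix.zero_vecMul, add_zero, hvx] at e1
      conv_lhs => rw [e1]
      rw [Matrix.add_vecMul, Matrix.add_vecMul, Matrix.vecMul_vecMul, Matrix.vecMul_vecMul, Matrix.vecMul_vecMul x F2, h2]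
      rw [add_assoc]
    · intro v
      rw [← ha3]
      constructor
      · rintro ⟨x, hx⟩
        refine ⟨x ᵥ* G2, ?_⟩
        have e1 := congrArg (fun u => u ᵥ* G1) hx
        simp only [Matrix.vecMul_vecMul] at e1
        rw [Matrix.mul_assoc, h5, Matrix.mul_one, ← h4] at e1
        rw [Matrix.vecMul_vecMul]
        exact e1
      · rintro ⟨x, hx⟩
        refine ⟨x ᵥ* F2, ?_⟩
        rw [← Matrix.vecMul_vecMul, hx, Matrix.vecMul_vecMul, Matrix.vecMul_vecMul, h2]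

end XH

namespace Cell

variable {H : Type} [Group H] (K : Cell H)

theorem XH_c1_row (e : K.C1) : K.c1 e = Pi.single (K.e1 e) (el (K.h1 e)) - Pi.single (K.e0 e) (el (K.h0 e)) := rfl

open Classical in
theorem XH_c2_row (f : K.C2) : K.c2 f =
    ∑ s : K.S, if K.face s = f then Pi.single (K.ed s) (K.sgn s • el (K.sv s)) else 0 := rfl

theorem XH_side (s : K.S) : (K.sgn s • el (K.sv s) : MonoidAlgebra ℤ H) • K.c1 (K.ed s) =
    Pi.single (K.st (K.nx s)) (el (K.cv (K.nx s))) - Pi.single (K.st s) (el (K.cv s)) := by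
  rw [← en_eq, ← ev_eq, XH_c1_row]
  unfold en ev st cv sgn
  cases K.sg s with
  | true =>
    simp only [if_true, one_smul, smul_sub, XH_smul_single, el_mul]
  | false =>
    simp only [Bool.false_eq_true, if_false, neg_smul, one_smul, smul_sub, XH_smul_single, el_mul]
    abel

theorem XH_dd : K.c2 * K.c1 = 0 := by
  classical
  funext f
  rw [XH_row_mul, XH_c2_row, Matrix.sum_vecMul]
  have h1 : ∀ s : K.S, (if K.face s = f then (Pi.single (K.ed s) (K.sgn s • el (K.sv s)) : K.C1 → MonoidAlgebra ℤ H)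
      else 0) ᵥ* K.c1 = (if K.face (K.nx s) = f then
        (Pi.single (K.st (K.nx s)) (el (K.cv (K.nx s))) : K.C0 → MonoidAlgebra ℤ H) else 0) -
        (if K.face s = f then Pi.single (K.st s) (el (K.cv s)) else 0) := by
    intro s
    rw [K.face_nx]
    split_ifs
    · rw [XH_single_vecMul, XH_side]
    · rw [Matrix.zero_vecMul, sub_zero]
  rw [Finset.sum_congr rfl fun s _ => h1 s, Finset.sum_sub_distrib]
  show _ = (0 : K.C0 → MonoidAlgebra ℤ H)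
  rw [sub_eq_zero]
  exact Equiv.sum_comp K.nx (fun s => if K.face s = f then
    (Pi.single (K.st s) (el (K.cv s)) : K.C0 → MonoidAlgebra ℤ H) else 0)

theorem XH_aug (e : K.C1) : ∑ i, eps H (K.c1 e i) = 0 := by
  rw [XH_c1_row]
  simp only [Pi.sub_apply, map_sub]
  rw [Finset.sum_sub_distrib, XH_aug_single, XH_aug_single, sub_self]

end Cell

namespace Wk

variable {H : Type} [Group H] (K : Wk H)

def iv (v : K.V) : K.cell.C0 := (Sum.inl v : K.V ⊕ K.W)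
def ia (w : K.W) : K.cell.C0 := (Sum.inr w : K.V ⊕ K.W)
def je (e : K.E) : K.cell.C1 := (Sum.inl e : K.E ⊕ (K.W ⊕ K.W))
def jr (w : K.W) : K.cell.C1 := (Sum.inr (Sum.inl w) : K.E ⊕ (K.W ⊕ K.W))
def jq (w : K.W) : K.cell.C1 := (Sum.inr (Sum.inr w) : K.E ⊕ (K.W ⊕ K.W))
def kq (w : K.W) : K.cell.C2 := (Sum.inl w : K.W ⊕ K.Kk)
def kp (k : K.Kk) : K.cell.C2 := (Sum.inr k : K.W ⊕ K.Kk)

theorem XH_i0 {P : K.cell.C0 → Prop} (h1 : ∀ v, P (K.iv v)) (h2 : ∀ w, P (K.ia w)) (x : K.cell.C0) : P x :=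
  Sum.rec (motive := fun x : K.V ⊕ K.W => P x) h1 h2 x

theorem XH_i1 {P : K.cell.C1 → Prop} (h1 : ∀ e, P (K.je e)) (h2 : ∀ w, P (K.jr w)) (h3 : ∀ w, P (K.jq w))
    (x : K.cell.C1) : P x :=
  Sum.rec (motive := fun x : K.E ⊕ (K.W ⊕ K.W) => P x) h1
    (fun y => Sum.rec (motive := fun y : K.W ⊕ K.W => P (Sum.inr y : K.E ⊕ (K.W ⊕ K.W))) h2 h3 y) x

theorem XH_i2 {P : K.cell.C2 → Prop} (h1 : ∀ w, P (K.kq w)) (h2 : ∀ k, P (K.kp k)) (x : K.cell.C2) : P x :=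
  Sum.rec (motive := fun x : K.W ⊕ K.Kk => P x) h1 h2 x

theorem XH_c1e (e : K.E) : K.cell.c1 (K.je e) =
    Pi.single (K.iv (K.e1 e)) (el (K.h1 e)) - Pi.single (K.iv (K.e0 e)) (el (K.h0 e)) := rfl

theorem XH_c1r (w : K.W) : K.cell.c1 (K.jr w) =
    Pi.single (K.ia (K.nw w)) (el 1) - Pi.single (K.ia w) (el 1) := rfl

theorem XH_c1q (w : K.W) : K.cell.c1 (K.jq w) =
    Pi.single (K.iv (K.bl w)) (el (K.bg w)) - Pi.single (K.ia w) (el 1) := rfl

theorem XH_b1_row (e : K.E) : K.b1 e = Pi.single (K.e1 e) (el (K.h1 e)) - Pi.single (K.e0 e) (el (K.h0 e)) := rfl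

theorem XH_b2_row (k : K.Kk) : K.b2 k =
    ∑ w : K.W, if K.kk w = k then Pi.single (K.we w) (K.wsn w • el (K.wg w)) else 0 := rfl

theorem XH_edge (w : K.W) : (K.wsn w • el (K.wg w) : MonoidAlgebra ℤ H) • K.b1 (K.we w) =
    Pi.single (K.bl (K.nw w)) (el (K.bg (K.nw w))) - Pi.single (K.bl w) (el (K.bg w)) := by
  rw [← bl_nw, ← bg_nw, XH_b1_row]
  unfold bl bg wsn
  cases K.ws w with
  | true =>
    simp only [if_true, one_smul, smul_sub, XH_smul_single, el_mul]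
  | false =>
    simp only [Bool.false_eq_true, if_false, neg_smul, one_smul, smul_sub, XH_smul_single, el_mul]
    abel

theorem XH_sumS {M : Type} [AddCommMonoid M] (f : K.cell.S → M) : ∑ s, f s =
    ∑ w : K.W, f (Sum.inl w : K.W ⊕ (K.W × Fin 4)) +
      ∑ w : K.W, (f (Sum.inr (w, 0) : K.W ⊕ (K.W × Fin 4)) + f (Sum.inr (w, 1) : K.W ⊕ (K.W × Fin 4)) +
        f (Sum.inr (w, 2) : K.W ⊕ (K.W × Fin 4)) + f (Sum.inr (w, 3) : K.W ⊕ (K.W × Fin 4))) := by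
  let e : K.cell.S ≃ K.W ⊕ (K.W × Fin 4) := Equiv.refl _
  have h1 : ∑ s, f s = ∑ s : K.W ⊕ (K.W × Fin 4), f (e.symm s) :=
    Fintype.sum_equiv e f (fun s => f (e.symm s)) fun _ => rfl
  rw [h1, Fintype.sum_sum_type, Fintype.sum_prod_type]
  congr 1
  refine Finset.sum_congr rfl fun w _ => ?_
  rw [Fin.sum_univ_four]
  rfl

open Classical in
theorem XH_c2p (k : K.Kk) : K.cell.c2 (K.kp k) =
    ∑ w : K.W, if K.kk w = k then Pi.single (K.jr w) (el 1) else 0 := by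
  rw [Cell.XH_c2_row, XH_sumS]
  have h0 : ∀ w : K.W, ∀ i : Fin 4, K.cell.face (Sum.inr (w, i) : K.W ⊕ (K.W × Fin 4)) ≠ K.kp k := by
    intro w i h
    exact Sum.inl_ne_inr (h : (Sum.inl w : K.W ⊕ K.Kk) = Sum.inr k)
  have h1 : ∀ w : K.W, (K.cell.face (Sum.inl w : K.W ⊕ (K.W × Fin 4)) = K.kp k ↔ K.kk w = k) := by
    intro w
    constructor
    · intro h
      exact Sum.inr.inj (h : (Sum.inr (K.kk w) : K.W ⊕ K.Kk) = Sum.inr k)
    · intro h
      show (Sum.inr (K.kk w) : K.W ⊕ K.Kk) = Sum.inr k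
      rw [h]
  have h2 : ∀ w : K.W, (K.cell.sgn (Sum.inl w : K.W ⊕ (K.W × Fin 4))) = 1 := fun w => rfl
  rw [Finset.sum_eq_zero (s := Finset.univ) (f := fun w : K.W => _ + _ + _ + _) (fun w _ => by
    rw [if_neg (h0 w 0), if_neg (h0 w 1), if_neg (h0 w 2), if_neg (h0 w 3), add_zero, add_zero, add_zero]), add_zero]
  refine Finset.sum_congr rfl fun w _ => ?_
  by_cases h : K.kk w = k
  · rw [if_pos ((h1 w).2 h), if_pos h, h2, one_smul]
    rfl
  · rw [if_neg (fun e => h ((h1 w).1 e)), if_neg h]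

theorem XH_c2q (w : K.W) : K.cell.c2 (K.kq w) =
    Pi.single (K.jq w) (el 1) + Pi.single (K.je (K.we w)) (K.wsn w • el (K.wg w)) - Pi.single (K.jq (K.nw w)) (el 1) -
      Pi.single (K.jr w) (el 1) := by
  classical
  rw [Cell.XH_c2_row, XH_sumS]
  have h0 : ∀ w' : K.W, K.cell.face (Sum.inl w' : K.W ⊕ (K.W × Fin 4)) ≠ K.kq w := by
    intro w' h
    exact Sum.inr_ne_inl (h : (Sum.inr (K.kk w') : K.W ⊕ K.Kk) = Sum.inl w)
  have h1 : ∀ (w' : K.W) (i : Fin 4), (K.cell.face (Sum.inr (w', i) : K.W ⊕ (K.W × Fin 4)) = K.kq w ↔ w' = w) := by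
    intro w' i
    constructor
    · intro h
      exact Sum.inl.inj (h : (Sum.inl w' : K.W ⊕ K.Kk) = Sum.inl w)
    · intro h
      show (Sum.inl w' : K.W ⊕ K.Kk) = Sum.inl w
      rw [h]
  rw [Finset.sum_eq_zero (s := Finset.univ) (f := fun w' : K.W => _) (fun w' _ => if_neg (h0 w')), zero_add,
    Finset.sum_eq_single w]
  · rw [if_pos ((h1 w 0).2 rfl), if_pos ((h1 w 1).2 rfl), if_pos ((h1 w 2).2 rfl), if_pos ((h1 w 3).2 rfl)]
    have s0 : K.cell.sgn (Sum.inr (w, 0) : K.W ⊕ (K.W × Fin 4)) = 1 := rfl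
    have s1 : K.cell.sgn (Sum.inr (w, 1) : K.W ⊕ (K.W × Fin 4)) = K.wsn w := rfl
    have s2 : K.cell.sgn (Sum.inr (w, 2) : K.W ⊕ (K.W × Fin 4)) = -1 := rfl
    have s3 : K.cell.sgn (Sum.inr (w, 3) : K.W ⊕ (K.W × Fin 4)) = -1 := rfl
    rw [s0, s1, s2, s3, one_smul, neg_smul, neg_smul, one_smul, one_smul, Pi.single_neg, Pi.single_neg,
      ← sub_eq_add_neg, ← sub_eq_add_neg]
    rfl
  · intro w' _ hw'
    rw [if_neg fun e => hw' ((h1 w' 0).1 e), if_neg fun e => hw' ((h1 w' 1).1 e), if_neg fun e => hw' ((h1 w' 2).1 e),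
      if_neg fun e => hw' ((h1 w' 3).1 e), add_zero, add_zero, add_zero]
  · intro h
    exact absurd (Finset.mem_univ _) h

noncomputable def mF0 : Matrix K.V K.cell.C0 (MonoidAlgebra ℤ H) := Matrix.of fun v => Pi.single (K.iv v) 1
noncomputable def mF1 : Matrix K.E K.cell.C1 (MonoidAlgebra ℤ H) := Matrix.of fun e => Pi.single (K.je e) 1
noncomputable def mF2 : Matrix K.Kk K.cell.C2 (MonoidAlgebra ℤ H) := Matrix.of fun k => Pi.single (K.kp k) 1 +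
  ∑ w : K.W, if K.kk w = k then Pi.single (K.kq w) 1 else 0
noncomputable def mG0 : Matrix K.cell.C0 K.V (MonoidAlgebra ℤ H) := Matrix.of fun x =>
  Sum.rec (motive := fun _ : K.V ⊕ K.W => K.V → MonoidAlgebra ℤ H) (fun v => Pi.single v (el 1))
    (fun w => Pi.single (K.bl w) (el (K.bg w))) x
noncomputable def mG1 : Matrix K.cell.C1 K.E (MonoidAlgebra ℤ H) := Matrix.of fun x =>
  Sum.rec (motive := fun _ : K.E ⊕ (K.W ⊕ K.W) => K.E → MonoidAlgebra ℤ H) (fun e => Pi.single e 1)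
    (fun y => Sum.rec (motive := fun _ : K.W ⊕ K.W => K.E → MonoidAlgebra ℤ H)
      (fun w => Pi.single (K.we w) (K.wsn w • el (K.wg w))) (fun _ => 0) y) x
noncomputable def mG2 : Matrix K.cell.C2 K.Kk (MonoidAlgebra ℤ H) := Matrix.of fun x =>
  Sum.rec (motive := fun _ : K.W ⊕ K.Kk => K.Kk → MonoidAlgebra ℤ H) (fun _ => 0) (fun k => Pi.single k 1) x
noncomputable def mS0 : Matrix K.cell.C0 K.cell.C1 (MonoidAlgebra ℤ H) := Matrix.of fun x =>
  Sum.rec (motive := fun _ : K.V ⊕ K.W => K.cell.C1 → MonoidAlgebra ℤ H) (fun _ => 0)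
    (fun w => -Pi.single (K.jq w) 1) x
noncomputable def mS1 : Matrix K.cell.C1 K.cell.C2 (MonoidAlgebra ℤ H) := Matrix.of fun x =>
  Sum.rec (motive := fun _ : K.E ⊕ (K.W ⊕ K.W) => K.cell.C2 → MonoidAlgebra ℤ H) (fun _ => 0)
    (fun y => Sum.rec (motive := fun _ : K.W ⊕ K.W => K.cell.C2 → MonoidAlgebra ℤ H)
      (fun w => -Pi.single (K.kq w) 1) (fun _ => 0) y) x

theorem mF0_row (v : K.V) : K.mF0 v = Pi.single (K.iv v) 1 := rfl
theorem mF1_row (e : K.E) : K.mF1 e = Pi.single (K.je e) 1 := rfl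
theorem mF2_row (k : K.Kk) : K.mF2 k = Pi.single (K.kp k) 1 +
  ∑ w : K.W, if K.kk w = k then Pi.single (K.kq w) 1 else 0 := rfl
theorem mG0_v (v : K.V) : K.mG0 (K.iv v) = Pi.single v (el 1) := rfl
theorem mG0_a (w : K.W) : K.mG0 (K.ia w) = Pi.single (K.bl w) (el (K.bg w)) := rfl
theorem mG1_e (e : K.E) : K.mG1 (K.je e) = Pi.single e 1 := rfl
theorem mG1_r (w : K.W) : K.mG1 (K.jr w) = Pi.single (K.we w) (K.wsn w • el (K.wg w)) := rfl
theorem mG1_q (w : K.W) : K.mG1 (K.jq w) = 0 := rfl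
theorem mG2_q (w : K.W) : K.mG2 (K.kq w) = 0 := rfl
theorem mG2_p (k : K.Kk) : K.mG2 (K.kp k) = Pi.single k 1 := rfl
theorem mS0_v (v : K.V) : K.mS0 (K.iv v) = 0 := rfl
theorem mS0_a (w : K.W) : K.mS0 (K.ia w) = -Pi.single (K.jq w) 1 := rfl
theorem mS1_e (e : K.E) : K.mS1 (K.je e) = 0 := rfl
theorem mS1_r (w : K.W) : K.mS1 (K.jr w) = -Pi.single (K.kq w) 1 := rfl
theorem mS1_q (w : K.W) : K.mS1 (K.jq w) = 0 := rfl

theorem XH_h1 : K.mF1 * K.cell.c1 = K.b1 * K.mF0 := by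
  funext e
  rw [XH_row_mul, XH_row_mul, mF1_row, XH_single_vecMul, XH_b1_row, Matrix.sub_vecMul, XH_single_vecMul,
    XH_single_vecMul, XH_c1e, mF0_row, mF0_row, XH_smul_single, XH_smul_single, one_smul, mul_one, mul_one]

theorem XH_h2 : K.mF2 * K.cell.c2 = K.b2 * K.mF1 := by
  classical
  funext k
  rw [XH_row_mul, XH_row_mul, mF2_row, Matrix.add_vecMul, XH_single_vecMul, XH_b2_row, Matrix.sum_vecMul,
    Matrix.sum_vecMul, XH_c2p, one_smul, ← Finset.sum_add_distrib]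
  have h1 : ∀ w : K.W, ((if K.kk w = k then Pi.single (K.jr w) (el 1) else 0 : K.cell.C1 → MonoidAlgebra ℤ H) +
      (if K.kk w = k then Pi.single (K.kq w) 1 else 0) ᵥ* K.cell.c2) =
      (if K.kk w = k then Pi.single (K.we w) (K.wsn w • el (K.wg w)) else 0) ᵥ* K.mF1 +
        ((if K.kk w = k then (Pi.single (K.jq w) (el 1) : K.cell.C1 → MonoidAlgebra ℤ H) else 0) -
        (if K.kk (K.nw w) = k then Pi.single (K.jq (K.nw w)) (el 1) else 0)) := by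
    intro w
    rw [K.kk_nw]
    split_ifs
    · rw [XH_single_vecMul, XH_single_vecMul, XH_c2q, mF1_row, XH_smul_single, one_smul, mul_one]
      abel
    · rw [Matrix.zero_vecMul, Matrix.zero_vecMul, sub_zero]
  rw [Finset.sum_congr rfl fun w _ => h1 w, Finset.sum_add_distrib, Finset.sum_sub_distrib,
    Equiv.sum_comp K.nw (fun w => if K.kk w = k then
      (Pi.single (K.jq w) (el 1) : K.cell.C1 → MonoidAlgebra ℤ H) else 0), sub_self, add_zero]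

theorem XH_h3 : K.mG1 * K.b1 = K.cell.c1 * K.mG0 := by
  funext x
  rw [XH_row_mul, XH_row_mul]
  refine K.XH_i1 (P := fun x => K.mG1 x ᵥ* K.b1 = K.cell.c1 x ᵥ* K.mG0) ?_ ?_ ?_ x
  · intro e
    rw [mG1_e, XH_single_vecMul, one_smul, XH_c1e, Matrix.sub_vecMul, XH_single_vecMul, XH_single_vecMul, mG0_v, mG0_v,
      XH_smul_single, XH_smul_single, el_one, mul_one, mul_one]
    rfl
  · intro w
    rw [mG1_r, XH_single_vecMul, XH_edge, XH_c1r, Matrix.sub_vecMul, XH_single_vecMul, XH_single_vecMul, mG0_a, mG0_a,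
      XH_smul_single, XH_smul_single, el_one, one_mul, one_mul]
  · intro w
    rw [mG1_q, Matrix.zero_vecMul, XH_c1q, Matrix.sub_vecMul, XH_single_vecMul, XH_single_vecMul, mG0_v, mG0_a,
      XH_smul_single, XH_smul_single, el_one, one_mul, mul_one, sub_self]

theorem XH_h4 : K.mG2 * K.b2 = K.cell.c2 * K.mG1 := by
  classical
  funext x
  rw [XH_row_mul, XH_row_mul]
  refine K.XH_i2 (P := fun x => K.mG2 x ᵥ* K.b2 = K.cell.c2 x ᵥ* K.mG1) ?_ ?_ x
  · intro w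
    rw [mG2_q, Matrix.zero_vecMul, XH_c2q, Matrix.sub_vecMul, Matrix.sub_vecMul, Matrix.add_vecMul, XH_single_vecMul,
      XH_single_vecMul, XH_single_vecMul, XH_single_vecMul, mG1_q, mG1_q, mG1_e, mG1_r, XH_smul_single, el_one,
      one_smul, mul_one, zero_add, sub_zero, one_smul, sub_self]
  · intro k
    rw [mG2_p, XH_single_vecMul, one_smul, XH_c2p, XH_b2_row, Matrix.sum_vecMul]
    refine Finset.sum_congr rfl fun w _ => ?_
    split_ifs
    · rw [XH_single_vecMul, mG1_r, el_one, one_smul]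
    · rw [Matrix.zero_vecMul]

theorem XH_h5 : K.mF1 * K.mG1 = 1 := by
  funext e
  rw [XH_row_mul, mF1_row, XH_single_vecMul, mG1_e, one_smul, XH_row_one]

theorem XH_h6 : (1 : Matrix K.cell.C0 K.cell.C0 (MonoidAlgebra ℤ H)) = K.mG0 * K.mF0 + K.mS0 * K.cell.c1 := by
  funext x
  refine K.XH_i0 (P := fun x => (1 : Matrix K.cell.C0 K.cell.C0 (MonoidAlgebra ℤ H)) x =
    (K.mG0 * K.mF0 + K.mS0 * K.cell.c1) x) ?_ ?_ x
  · intro v
    show _ = K.mG0 (K.iv v) ᵥ* K.mF0 + K.mS0 (K.iv v) ᵥ* K.cell.c1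
    rw [XH_row_one, mG0_v, XH_single_vecMul, mF0_row, mS0_v, Matrix.zero_vecMul, el_one, one_smul, add_zero]
  · intro w
    show _ = K.mG0 (K.ia w) ᵥ* K.mF0 + K.mS0 (K.ia w) ᵥ* K.cell.c1
    rw [XH_row_one, mG0_a, XH_single_vecMul, mF0_row, mS0_a, Matrix.neg_vecMul, XH_single_vecMul, XH_c1q, one_smul,
      XH_smul_single, mul_one, el_one]
    abel

theorem XH_h7 : (1 : Matrix K.cell.C1 K.cell.C1 (MonoidAlgebra ℤ H)) =
    K.mG1 * K.mF1 + (K.mS1 * K.cell.c2 + K.cell.c1 * K.mS0) := by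
  funext x
  refine K.XH_i1 (P := fun x => (1 : Matrix K.cell.C1 K.cell.C1 (MonoidAlgebra ℤ H)) x =
    (K.mG1 * K.mF1 + (K.mS1 * K.cell.c2 + K.cell.c1 * K.mS0)) x) ?_ ?_ ?_ x
  · intro e
    show _ = K.mG1 (K.je e) ᵥ* K.mF1 + (K.mS1 (K.je e) ᵥ* K.cell.c2 + K.cell.c1 (K.je e) ᵥ* K.mS0)
    rw [XH_row_one, mG1_e, XH_single_vecMul, mF1_row, mS1_e, Matrix.zero_vecMul, XH_c1e, Matrix.sub_vecMul,
      XH_single_vecMul, XH_single_vecMul, mS0_v, mS0_v, smul_zero, smul_zero, one_smul, sub_zero, add_zero, add_zero]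
  · intro w
    show _ = K.mG1 (K.jr w) ᵥ* K.mF1 + (K.mS1 (K.jr w) ᵥ* K.cell.c2 + K.cell.c1 (K.jr w) ᵥ* K.mS0)
    rw [XH_row_one, mG1_r, XH_single_vecMul, mF1_row, mS1_r, Matrix.neg_vecMul, XH_single_vecMul, XH_c2q, XH_c1r,
      Matrix.sub_vecMul, XH_single_vecMul, XH_single_vecMul, mS0_a, mS0_a, one_smul, XH_smul_single, mul_one, el_one,
      one_smul, one_smul]
    abel
  · intro w
    show _ = K.mG1 (K.jq w) ᵥ* K.mF1 + (K.mS1 (K.jq w) ᵥ* K.cell.c2 + K.cell.c1 (K.jq w) ᵥ* K.mS0)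
    rw [XH_row_one, mG1_q, mS1_q, Matrix.zero_vecMul, Matrix.zero_vecMul, XH_c1q, Matrix.sub_vecMul,
      XH_single_vecMul, XH_single_vecMul, mS0_v, mS0_a, smul_zero, el_one, one_smul, zero_sub, neg_neg, zero_add,
      zero_add]

theorem XH_augG0 (x : K.cell.C0) : ∑ j, eps H (K.mG0 x j) = 1 := by
  refine K.XH_i0 (P := fun x => ∑ j, eps H (K.mG0 x j) = 1) ?_ ?_ x
  · intro v
    rw [mG0_v]
    exact XH_aug_single _ _
  · intro w
    rw [mG0_a]
    exact XH_aug_single _ _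

end Wk

theorem hc_cell {H : Type} [Group H] (K : Wk H) {n m : ℕ} (A : Matrix (Fin n) (Fin m) (MonoidAlgebra ℤ H))
    (h : HCok K.b1 K.b2 A) : HCok K.cell.c1 K.cell.c2 A :=
  XH_transfer K.b1 K.b2 K.cell.c1 K.cell.c2 A h ⟨K.iv h.ne.some⟩ K.cell.XH_aug K.cell.XH_dd K.mF0 K.mF1 K.mF2 K.mG0
    K.mG1 K.mG2 K.mS0 K.mS1 K.XH_augG0 K.XH_h1 K.XH_h2 K.XH_h3 K.XH_h4 K.XH_h5 K.XH_h6 K.XH_h7

end NBT
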