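import Pool.Agent.Lib.MP_83fbc5_gt.XS2

/-!
# MP_83fbc5_gt, module XS3: the homology condition passes to the barycentric subdivision

PROOF. (ne) `inl a`. (aug) rows of `bd2` are `el g` at one place minus `1` at another. (conn) `conn_vg`. (dd) `bd3_bd2`. (ex) Let `α` be given for `c1, c2`; `α'` has the rows `sd1 (α j)`. `α' * bd2 = 0` by `sd1_bd2`. If `y ᵥ* bd2 = 0`, `y = sd1 v + x ᵥ* bd3` (`cyc1`), `sd1 v` is a cycle (`bd3_bd2`), so `v ᵥ* c1 = 0` (`sd1_bd2`),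
`v = w ᵥ* α + z ᵥ* c2` and `sd1 v = w ᵥ* α' + sd2 z ᵥ* bd3` (`sd1` is additive and commutes with left multiplication; `sd2_bd3`). If `v ᵥ* α' = sd1 (v ᵥ* α)` is a boundary then `v ᵥ* α` is a boundary (`bdry1`), and conversely (`sd2_bd3`).
(30-45 minutes)
-/

set_option autoImplicit false

namespace NBT

open Matrix

section XS3

variable {H : Type} [Group H] (K : Cell H)

private theorem XS3_sd1_apply (v : K.C1 → MonoidAlgebra ℤ H) (q : K.toVG.J2) :
    K.sd1 v q = ∑ e, ((Pi.single (K.ea (e, true)) (v e * el (K.h0 e)) : K.toVG.J2 → MonoidAlgebra ℤ H) q -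
      (Pi.single (K.ea (e, false)) (v e * el (K.h1 e)) : K.toVG.J2 → MonoidAlgebra ℤ H) q) := by
  unfold Cell.sd1
  rw [Finset.sum_apply]
  rfl

private theorem XS3_add (u v : K.C1 → MonoidAlgebra ℤ H) : K.sd1 (u + v) = K.sd1 u + K.sd1 v := by
  funext q
  rw [Pi.add_apply, XS3_sd1_apply, XS3_sd1_apply, XS3_sd1_apply, ← Finset.sum_add_distrib]
  refine Finset.sum_congr rfl fun e _ => ?_
  rw [Pi.add_apply, add_mul, add_mul, Pi.single_add, Pi.single_add, Pi.add_apply, Pi.add_apply]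
  abel

private theorem XS3_single_mul {J : Type} [DecidableEq J] (i q : J) (r x : MonoidAlgebra ℤ H) :
    r * (Pi.single i x : J → MonoidAlgebra ℤ H) q = (Pi.single i (r * x) : J → MonoidAlgebra ℤ H) q := by
  rw [Pi.single_apply, Pi.single_apply]
  split_ifs
  · rfl
  · rw [mul_zero]

private theorem XS3_mat {m : ℕ} (α : Matrix (Fin m) K.C1 (MonoidAlgebra ℤ H)) (w : Fin m → MonoidAlgebra ℤ H) :
    K.sd1 (w ᵥ* α) = w ᵥ* (Matrix.of fun j => K.sd1 (α j)) := by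
  funext q
  have e1 : (w ᵥ* (Matrix.of fun j => K.sd1 (α j))) q = ∑ j, w j * K.sd1 (α j) q := rfl
  rw [e1, XS3_sd1_apply]
  simp only [XS3_sd1_apply, Finset.mul_sum]
  rw [Finset.sum_comm]
  refine Finset.sum_congr rfl fun e _ => ?_
  have e2 : (w ᵥ* α) e = ∑ j, w j * α j e := rfl
  rw [e2]
  simp only [mul_sub, XS3_single_mul]
  rw [Finset.sum_sub_distrib]
  have e3 : ∀ (i : K.toVG.J2) (g : H), (Pi.single i ((∑ j, w j * α j e) * el g) :
      K.toVG.J2 → MonoidAlgebra ℤ H) q =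
      ∑ j, (Pi.single i (w j * (α j e * el g)) : K.toVG.J2 → MonoidAlgebra ℤ H) q := by
    intro i g
    simp only [Pi.single_apply, Finset.sum_mul, mul_assoc]
    split_ifs
    · rfl
    · rw [Finset.sum_const_zero]
  rw [e3, e3]

private theorem XS3_sum_single {J : Type} [Fintype J] [DecidableEq J] (i : J) (x : MonoidAlgebra ℤ H) :
    ∑ j, eps H ((Pi.single i x : J → MonoidAlgebra ℤ H) j) = eps H x := by
  rw [Finset.sum_eq_single i]
  · rw [Pi.single_eq_same]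
  · intro j _ hj
    rw [Pi.single_eq_of_ne hj, map_zero]
  · intro h
    exact absurd (Finset.mem_univ _) h

private theorem XS3_zero (v : K.C1 → MonoidAlgebra ℤ H) (h : v ᵥ* K.c1 = 0) : K.sd1 v ᵥ* K.toVG.bd2 = 0 := by
  obtain ⟨h1, h2⟩ := K.sd1_bd2 v
  funext i
  rcases i with a | x
  · refine (h1 a).trans ?_
    rw [h]
    rfl
  · exact h2 x

end XS3

theorem hc_vg {H : Type} [Group H] (K : Cell H) {n m : ℕ} (A : Matrix (Fin n) (Fin m) (MonoidAlgebra ℤ H))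
    (h : HCok K.c1 K.c2 A) : HCok K.toVG.bd2 K.toVG.bd3 A := by
  obtain ⟨α, ha, hcyc, hb⟩ := h.ex
  refine ⟨?_, ?_, ?_, ?_, Matrix.of fun j => K.sd1 (α j), ?_, ?_, ?_⟩
  · obtain ⟨a⟩ := h.ne
    exact ⟨Sum.inl a⟩
  · intro e
    have e1 : ∀ i, K.toVG.bd2 e i =
        (Pi.single e.1.2 (el (K.toVG.g e.1.1 e.1.2)) : K.toVG.I → MonoidAlgebra ℤ H) i -
          (Pi.single e.1.1 1 : K.toVG.I → MonoidAlgebra ℤ H) i := fun i => rfl
    simp only [e1, map_sub]
    rw [Finset.sum_sub_distrib, XS3_sum_single, XS3_sum_single, eps_el, map_one, sub_self]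
  · exact fun u hu => K.conn_vg h.conn u hu
  · exact Cell.bd3_bd2 K.toVG
  · ext1 j i
    have e1 : ((Matrix.of fun j => K.sd1 (α j)) * K.toVG.bd2) j i = (K.sd1 (α j) ᵥ* K.toVG.bd2) i := rfl
    have e2 : α j ᵥ* K.c1 = 0 := by
      have := congrFun ha j
      exact this
    rw [e1, XS3_zero K _ e2]
    rfl
  · intro u hu
    obtain ⟨v, x, rfl⟩ := K.cyc1 u hu
    have h1 : K.sd1 v ᵥ* K.toVG.bd2 = 0 := by
      have h2 : (x ᵥ* K.toVG.bd3) ᵥ* K.toVG.bd2 = 0 := by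
        rw [Matrix.vecMul_vecMul, Cell.bd3_bd2, Matrix.vecMul_zero]
      rw [Matrix.add_vecMul, h2, add_zero] at hu
      exact hu
    have h3 : v ᵥ* K.c1 = 0 := by
      funext a
      rw [← (K.sd1_bd2 v).1 a, h1]
      rfl
    obtain ⟨w, z, rfl⟩ := hcyc v h3
    refine ⟨w, K.sd2 z + x, ?_⟩
    rw [XS3_add, XS3_mat, ← K.sd2_bd3, Matrix.add_vecMul, add_assoc]
  · intro v
    rw [← XS3_mat]
    constructor
    · intro hx
      exact (hb v).1 (K.bdry1 _ hx)
    · intro hy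
      obtain ⟨x, hx⟩ := (hb v).2 hy
      exact ⟨K.sd2 x, by rw [hx, K.sd2_bd3]⟩

end NBT
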