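import Pool.Agent.Lib.MP_83fbc5_gt.XW
import Pool.Agent.Lib.MP_83fbc5_gt.XB
import Pool.Agent.Lib.MP_83fbc5_gt.XH
import Pool.Agent.Lib.MP_83fbc5_gt.XS3

/-!
# MP_83fbc5_gt, XGad: connected flag complexes with prescribed first homology (assembly)
-/

set_option autoImplicit false

namespace NBT

open Matrix

theorem gadget2 {H : Type} [Group H] (hfp : Group.IsFinitelyPresented H) {n m : ℕ}
    (A : Matrix (Fin n) (Fin m) (MonoidAlgebra ℤ H)) : ∃ L : VG H, HCok L.bd2 L.bd3 A := by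
  obtain ⟨T, hT⟩ := exists_wd hfp A
  exact ⟨T.wk.cell.toVG, hc_vg _ A (hc_cell _ A (hc_base T A hT))⟩

end NBT
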