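import Mathlib

/-!
# MP_83fbc5_gt, module XP: finite presentations with prescribed generators

PROOF. From `Group.IsFinitelyPresented`: `n`, `φ : FreeGroup (Fin n) →* H` surjective, `φ.ker = normalClosure S0`, `S0` finite. Let `X = Fin n ⊕ S` (`S` the finite set, as a subtype), `nu (inl i) = φ (of i)`, `nu (inr h) = h`. For `h ∈ S` choose `w_h ∈ FreeGroup (Fin n)` with `φ w_h = h`. Relators (elements of `FreeGroup X`): the images `ι s` of the `s ∈ S0`,
`s ≠ 1` (`ι = FreeGroup.map Sum.inl`), and `of (inr h) * (ι w_h)⁻¹` for `h ∈ S`. Every relator `ρ ≠ 1` is `FreeGroup.mk (ρ.toWord)` with `toWord ≠ []` (`FreeGroup.mk_toWord`, `FreeGroup.toWord_eq_nil_iff`); the second kind is never trivial (its image in the abelianisation, exponent of `inr h`), or simply drop the trivial ones. Kernel: `⊇` clear. `⊆`: let `N` be the normal closure of the relators,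
`q : FreeGroup X → FreeGroup X ⧸ N`; `q (of (inr h)) = q (ι w_h)`, so every element of the quotient is `q (ι w)`; if `x` is in the kernel of `lift nu`, `q x = q (ι w)` with `φ w = 1`, `w ∈ normalClosure S0`, so `q (ι w) = 1` (`Subgroup.map_normalClosure`-like: `ι` maps the normal closure of `S0` into `N`: `Subgroup.normalClosure_le_normal` for `N.comap ι`).
(50-70 minutes)
-/

set_option autoImplicit false

namespace NBT

theorem exists_pres {H : Type} [Group H] (hfp : Group.IsFinitelyPresented H) (S : Set H) (hS : S.Finite) :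
    ∃ (X R : Type) (_ : Finite X) (_ : Finite R) (nu : X → H) (wd : R → List (X × Bool)), (∀ r, wd r ≠ []) ∧
      Function.Surjective (FreeGroup.lift nu) ∧
      (FreeGroup.lift nu).ker = Subgroup.normalClosure (Set.range fun r => FreeGroup.mk (wd r)) ∧
      ∀ h ∈ S, ∃ x, nu x = h := by
  classical
  obtain ⟨n, φ, hφ, hker⟩ := hfp.out
  have hSf : Finite S := hS.to_subtype
  choose w hw using fun h : S => hφ h
  let X : Type := Fin n ⊕ S
  let ι : FreeGroup (Fin n) →* FreeGroup X := FreeGroup.map Sum.inl
  let ρ : FreeGroup X →* FreeGroup (Fin n) := FreeGroup.lift (Sum.elim FreeGroup.of w)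
  let nu : X → H := Sum.elim (fun i => φ (FreeGroup.of i)) (fun h => h)
  have hψ : FreeGroup.lift nu = φ.comp ρ := by
    apply FreeGroup.ext_hom
    rintro (i | h)
    · simp [nu, ρ]
    · simp [nu, ρ, hw]
  have hρι : ∀ x, ρ (ι x) = x := by
    have h1 : ρ.comp ι = MonoidHom.id _ := by
      apply FreeGroup.ext_hom
      intro i
      simp [ρ, ι]
    intro x
    exact DFunLike.congr_fun h1 x
  have hρs : Function.Surjective ρ := fun x => ⟨ι x, hρι x⟩
  let S1 : Set (FreeGroup X) := Set.range fun h : S => FreeGroup.of (Sum.inr h) * (ι (w h))⁻¹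
  have hkρ : ρ.ker.IsFinitelyNormallyGenerated := by
    refine ⟨S1, Set.finite_range _, ?_⟩
    apply le_antisymm
    · apply Subgroup.normalClosure_le_normal
      rintro _ ⟨h, rfl⟩
      show ρ (FreeGroup.of (Sum.inr h) * (ι (w h))⁻¹) = 1
      rw [map_mul, map_inv, hρι]
      have : ρ (FreeGroup.of (Sum.inr h)) = w h := by simp [ρ]
      rw [this, mul_inv_cancel]
    · intro x hx
      have h1 : QuotientGroup.mk' (Subgroup.normalClosure S1)
          = ((QuotientGroup.mk' (Subgroup.normalClosure S1)).comp ι).comp ρ := by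
        apply FreeGroup.ext_hom
        rintro (i | h)
        · simp [ρ, ι]
        · have h2 : ρ (FreeGroup.of (Sum.inr h)) = w h := by simp [ρ]
          rw [MonoidHom.comp_apply, MonoidHom.comp_apply, h2]
          have h3 : QuotientGroup.mk' (Subgroup.normalClosure S1) (FreeGroup.of (Sum.inr h) * (ι (w h))⁻¹) = 1 :=
            (QuotientGroup.eq_one_iff _).2 (Subgroup.subset_normalClosure ⟨h, rfl⟩)
          rw [map_mul, map_inv, mul_inv_eq_one] at h3
          exact h3
      have h4 : QuotientGroup.mk' (Subgroup.normalClosure S1) x = 1 := by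
        rw [h1, MonoidHom.comp_apply, (MonoidHom.mem_ker).1 hx, map_one]
      exact (QuotientGroup.eq_one_iff _).1 h4
  obtain ⟨T, hT, hTc⟩ := hker.comap hρs hkρ
  have hψk : (FreeGroup.lift nu).ker = Subgroup.normalClosure T := by
    rw [hTc, hψ]
    exact (MonoidHom.comap_ker φ ρ).symm
  let R : Type := {t : FreeGroup X // t ∈ T ∧ t ≠ 1}
  have hTf : Finite T := hT.to_subtype
  have hR : Finite R := by
    refine Finite.of_injective (fun r : R => (⟨r.1, r.2.1⟩ : T)) ?_
    intro r r' h
    exact Subtype.ext (congrArg (fun t : T => (t : FreeGroup X)) h)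
  refine ⟨X, R, inferInstance, hR, nu, fun r => r.1.toWord, ?_, ?_, ?_, ?_⟩
  · intro r h
    exact r.2.2 (FreeGroup.toWord_eq_nil_iff.1 h)
  · rw [hψ]
    exact hφ.comp hρs
  · rw [hψk]
    have h1 : (Set.range fun r : R => FreeGroup.mk r.1.toWord) = {t | t ∈ T ∧ t ≠ 1} := by
      ext t
      constructor
      · rintro ⟨r, rfl⟩
        show FreeGroup.mk r.1.toWord ∈ T ∧ FreeGroup.mk r.1.toWord ≠ 1
        rw [FreeGroup.mk_toWord]
        exact r.2
      · intro ht
        exact ⟨⟨t, ht⟩, FreeGroup.mk_toWord⟩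
    rw [h1]
    apply le_antisymm
    · apply Subgroup.normalClosure_le_normal
      intro t ht
      by_cases h : t = 1
      · rw [h]
        exact Subgroup.one_mem _
      · exact Subgroup.subset_normalClosure ⟨ht, h⟩
    · exact Subgroup.normalClosure_mono fun t ht => ht.1
  · intro h hh
    exact ⟨Sum.inr ⟨h, hh⟩, rfl⟩

end NBT
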