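import Pool.Agent.Lib.MP_83fbc5_gt.GA1
import Pool.Agent.Lib.MP_83fbc5_gt.XDefs

/-!
# MP_83fbc5_gt, module XS1: barycentric subdivision, the subdivision chain map and degree 0

The voltage graph `K.toVG` of the face poset: labels `inl a`, `inr (inl e)`, `inr (inr f)`. The rows of `bd2`: a pair `i < j` gives `[vol i j] e_j - e_i`. Subdivision maps (additive and commuting with left multiplication):
`sd0 e_a = e_(inl a)`, `sd1 e_e = [h0 e] (row vector e_(ea (e, true))) - [h1 e] e_(ea (e, false))`: as `vol (e0 e) e = (h0 e)⁻¹`, its boundary is `[h0 e] ([h0 e]⁻¹ e_e - e_(e0 e)) - [h1 e] ([h1 e]⁻¹ e_e - e_(e1 e)) = [h1 e] e_(e1 e) - [h0 e] e_(e0 e)`.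
`sd2 e_f = ∑_(face s = f) ([cv s] e_(fl (s, true)) - [ev s] e_(fl (s, false)))`: by `val_ec`, `val_eb`, `val_ea` its boundary is `sd1 (c2 e_f)` up to the sign: check the sign with `val_ea` (at `ea (e, true)` the value is `∑_(ed s = e, face s = f) sgn s [sv s] [h0 e]`, at `ea (e, false)` the negative with `h1`), so
`sd2 (x) ᵥ* bd3 = sd1 (x ᵥ* c2)`; the values at `ec s` and `eb s` vanish (`cv s [h]⁻¹ = [sv s]`, `ev s = cv (nx s)`).

PROOF of the statements: straightforward as above (these are the computations of module `GA1` with `u = x`, which is on main: look there). `bd3_bd2`: each row of `bd3` is `[g ij] e_(jk) - e_(ik) + e_(ij)` and `coh`. `conn_vg`: let `u : I → ℤ[H]` have total augmentation 0. Modulo the rows of `bd2`: `e_(inr (inl e)) ≡ [h0 e] e_(inl (e0 e))` and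
`e_(inr (inr f)) ≡ [cv s] e_(inl (st s))` for a side `s` of `f`; so `u ≡ sd0 u'` with the same augmentation, and `u' = v ᵥ* c1` by hypothesis, `sd0 (v ᵥ* c1) = sd1 v ᵥ* bd2`.
(75-100 minutes)
-/

set_option autoImplicit false

namespace NBT

open Matrix

namespace Cell

variable {H : Type} [Group H] (K : Cell H)

/-- subdivision in degree 1 -/
noncomputable def sd1 (v : K.C1 → MonoidAlgebra ℤ H) : K.toVG.J2 → MonoidAlgebra ℤ H :=
  ∑ e, (Pi.single (K.ea (e, true)) (v e * el (K.h0 e)) - Pi.single (K.ea (e, false)) (v e * el (K.h1 e)))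

/-- subdivision in degree 2 -/
noncomputable def sd2 (x : K.C2 → MonoidAlgebra ℤ H) : K.toVG.J3 → MonoidAlgebra ℤ H :=
  ∑ s, (Pi.single (K.fl (s, true)) (x (K.face s) * el (K.cv s)) -
    Pi.single (K.fl (s, false)) (x (K.face s) * el (K.ev s)))

/-- a row of `bd2`, multiplied by `x` -/
theorem XS1_row2 (L : VG H) (p : L.J2) (x : MonoidAlgebra ℤ H) :
    (Pi.single p x : L.J2 → MonoidAlgebra ℤ H) ᵥ* L.bd2 =
      Pi.single p.1.2 (x * el (L.g p.1.1 p.1.2)) - Pi.single p.1.1 x := by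
  funext j
  have h1 : ((Pi.single p x : L.J2 → MonoidAlgebra ℤ H) ᵥ* L.bd2) j = x * L.bd2 p j :=
    single_dotProduct _ _ _
  rw [h1]
  unfold VG.bd2
  rw [Matrix.of_apply, Pi.sub_apply, Pi.sub_apply, Pi.single_apply, Pi.single_apply, Pi.single_apply,
    Pi.single_apply]
  by_cases h2 : j = p.1.2
  · by_cases h3 : j = p.1.1
    · rw [if_pos h2, if_pos h3, if_pos h2, if_pos h3, mul_sub, mul_one]
    · rw [if_pos h2, if_neg h3, if_pos h2, if_neg h3, sub_zero, sub_zero]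
  · by_cases h3 : j = p.1.1
    · rw [if_neg h2, if_pos h3, if_neg h2, if_pos h3, mul_sub, mul_one, mul_zero]
    · rw [if_neg h2, if_neg h3, if_neg h2, if_neg h3, sub_zero, mul_zero]

theorem XS1_grp {A : Type} [AddCommGroup A] (a b c : A) : a - b - (a - c) + (b - c) = 0 := by
  abel

theorem XS1_grp2 {A : Type} [AddCommGroup A] (a b c : A) : a - b - (a - c) = c - b := by
  abel

theorem bd3_bd2 (L : VG H) : L.bd3 * L.bd2 = 0 := by
  funext p
  have h1 : (L.bd3 * L.bd2) p = L.bd3 p ᵥ* L.bd2 := rfl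
  have h2 : L.bd3 p = Pi.single p.f0 (el (L.g p.1.1 p.1.2.1)) - Pi.single p.f1 1 + Pi.single p.f2 1 := rfl
  rw [h1, h2, Matrix.add_vecMul, Matrix.sub_vecMul, XS1_row2, XS1_row2, XS1_row2]
  have e0 : p.f0.1 = (p.1.2.1, p.1.2.2) := rfl
  have e1 : p.f1.1 = (p.1.1, p.1.2.2) := rfl
  have e2 : p.f2.1 = (p.1.1, p.1.2.1) := rfl
  rw [e0, e1, e2]
  simp only [one_mul]
  rw [← el_mul, ← L.coh _ _ _ p.2.1 p.2.2]
  exact XS1_grp _ _ _

/-- the label of a vertex -/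
def XS1_v (a : K.C0) : K.toVG.I := (Sum.inl a : K.C0 ⊕ K.C1 ⊕ K.C2)

/-- the label of an edge or a polygon -/
def XS1_w (y : K.C1 ⊕ K.C2) : K.toVG.I := (Sum.inr y : K.C0 ⊕ K.C1 ⊕ K.C2)

theorem XS1_v_inj {a b : K.C0} (h : K.XS1_v a = K.XS1_v b) : a = b := Sum.inl_injective h

theorem XS1_w_inj {a b : K.C1 ⊕ K.C2} (h : K.XS1_w a = K.XS1_w b) : a = b := Sum.inr_injective h

theorem XS1_v_ne_w (a : K.C0) (y : K.C1 ⊕ K.C2) : K.XS1_v a ≠ K.XS1_w y := fun h => Sum.inl_ne_inr h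

theorem XS1_inl (a b : K.C0) (x : MonoidAlgebra ℤ H) :
    (Pi.single (K.XS1_v b) x : K.toVG.I → MonoidAlgebra ℤ H) (K.XS1_v a) =
      (Pi.single b x : K.C0 → MonoidAlgebra ℤ H) a := by
  rw [Pi.single_apply, Pi.single_apply]
  by_cases h : a = b
  · rw [if_pos h, if_pos (congrArg K.XS1_v h)]
  · rw [if_neg h, if_neg (fun h' => h (K.XS1_v_inj h'))]

theorem XS1_inl_inr (b : K.C0) (y : K.C1 ⊕ K.C2) (x : MonoidAlgebra ℤ H) :
    (Pi.single (K.XS1_v b) x : K.toVG.I → MonoidAlgebra ℤ H) (K.XS1_w y) = 0 := by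
  rw [Pi.single_apply, if_neg (K.XS1_v_ne_w b y).symm]

theorem XS1_inr_inl (b : K.C0) (y : K.C1 ⊕ K.C2) (x : MonoidAlgebra ℤ H) :
    (Pi.single (K.XS1_w y) x : K.toVG.I → MonoidAlgebra ℤ H) (K.XS1_v b) = 0 := by
  rw [Pi.single_apply, if_neg (K.XS1_v_ne_w b y)]

theorem XS1_inr_ne {y z : K.C1 ⊕ K.C2} (h : z ≠ y) (x : MonoidAlgebra ℤ H) :
    (Pi.single (K.XS1_w y) x : K.toVG.I → MonoidAlgebra ℤ H) (K.XS1_w z) = 0 := by
  rw [Pi.single_apply, if_neg (fun h' => h (K.XS1_w_inj h'))]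

/-- the boundary of the subdivision of an edge chain -/
theorem XS1_sd1 (v : K.C1 → MonoidAlgebra ℤ H) : K.sd1 v ᵥ* K.toVG.bd2 =
    ∑ e, (Pi.single (K.XS1_v (K.e1 e)) (v e * el (K.h1 e)) -
      Pi.single (K.XS1_v (K.e0 e)) (v e * el (K.h0 e))) := by
  unfold sd1
  rw [Matrix.sum_vecMul]
  refine Finset.sum_congr rfl fun e _ => ?_
  rw [Matrix.sub_vecMul, XS1_row2, XS1_row2]
  have e0 : (K.ea (e, true)).1 = (K.XS1_v (K.e0 e), K.XS1_w (Sum.inl e)) := rfl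
  have e1 : (K.ea (e, false)).1 = (K.XS1_v (K.e1 e), K.XS1_w (Sum.inl e)) := rfl
  have g0 : K.toVG.g (K.XS1_v (K.e0 e)) (K.XS1_w (Sum.inl e)) = (K.h0 e)⁻¹ := K.vol_e0 e
  have g1 : K.toVG.g (K.XS1_v (K.e1 e)) (K.XS1_w (Sum.inl e)) = (K.h1 e)⁻¹ := K.vol_e1 e
  rw [e0, e1]
  simp only
  rw [g0, g1, mul_assoc, mul_assoc, ← el_mul, ← el_mul, mul_inv_cancel, mul_inv_cancel, el_one, mul_one]
  exact XS1_grp2 _ _ _

/-- `inl` part of `sd1 v ᵥ* bd2` is `v ᵥ* c1`, the other coordinates vanish -/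
theorem sd1_bd2 (v : K.C1 → MonoidAlgebra ℤ H) :
    (∀ a : K.C0, (K.sd1 v ᵥ* K.toVG.bd2) (Sum.inl a) = (v ᵥ* K.c1) a) ∧
      (∀ x : K.C1 ⊕ K.C2, (K.sd1 v ᵥ* K.toVG.bd2) (Sum.inr x) = 0) := by
  constructor
  · intro a
    show (K.sd1 v ᵥ* K.toVG.bd2) (K.XS1_v a) = (v ᵥ* K.c1) a
    have h1 : (v ᵥ* K.c1) a = ∑ e, v e * K.c1 e a := rfl
    rw [XS1_sd1, h1, Finset.sum_apply]
    refine Finset.sum_congr rfl fun e _ => ?_
    rw [Pi.sub_apply, K.XS1_inl, K.XS1_inl]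
    unfold c1
    rw [Matrix.of_apply, Pi.sub_apply, mul_sub, Pi.single_apply, Pi.single_apply, Pi.single_apply, Pi.single_apply]
    simp only [mul_ite, mul_zero]
  · intro x
    show (K.sd1 v ᵥ* K.toVG.bd2) (K.XS1_w x) = 0
    rw [XS1_sd1, Finset.sum_apply]
    refine Finset.sum_eq_zero fun e _ => ?_
    rw [Pi.sub_apply, K.XS1_inl_inr, K.XS1_inl_inr, sub_zero]

theorem XS1_sd1_ea (w : K.C1 → MonoidAlgebra ℤ H) (e : K.C1) (b : Bool) : K.sd1 w (K.ea (e, b)) =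
    (if b then 1 else -1) * (w e * el (K.GA1_h e b)) := by
  unfold sd1
  rw [Finset.sum_apply, Finset.sum_eq_single e]
  · rw [Pi.sub_apply, Pi.single_apply, Pi.single_apply]
    cases b
    · rw [if_neg (fun h => Bool.false_ne_true (K.GA0_ea_inj.1 h).2), if_pos rfl]
      unfold GA1_h
      simp
    · rw [if_neg (fun h => Bool.false_ne_true (K.GA0_ea_inj.1 h).2.symm), if_pos rfl]
      unfold GA1_h
      simp
  · intro e' _ he'
    rw [Pi.sub_apply, Pi.single_apply, Pi.single_apply, if_neg (fun h => he' (K.GA0_ea_inj.1 h).1.symm),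
      if_neg (fun h => he' (K.GA0_ea_inj.1 h).1.symm), sub_zero]
  · intro h
    exact absurd (Finset.mem_univ _) h

theorem XS1_sd1_ec (w : K.C1 → MonoidAlgebra ℤ H) (s : K.S) : K.sd1 w (K.ec s) = 0 := by
  unfold sd1
  rw [Finset.sum_apply]
  refine Finset.sum_eq_zero fun e _ => ?_
  rw [Pi.sub_apply, Pi.single_apply, Pi.single_apply, if_neg (K.GA0_ec_ea _ _ _), if_neg (K.GA0_ec_ea _ _ _), sub_zero]

theorem XS1_sd1_eb (w : K.C1 → MonoidAlgebra ℤ H) (s : K.S) : K.sd1 w (K.eb s) = 0 := by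
  unfold sd1
  rw [Finset.sum_apply]
  refine Finset.sum_eq_zero fun e _ => ?_
  rw [Pi.sub_apply, Pi.single_apply, Pi.single_apply, if_neg (K.GA0_eb_ea _ _ _), if_neg (K.GA0_eb_ea _ _ _), sub_zero]

theorem XS1_fl_ne {s s' : K.S} {b b' : Bool} (h : (s, b) ≠ (s', b')) : K.fl (s, b) ≠ K.fl (s', b') :=
  fun h' => h (K.fl_bij.1 h')

theorem XS1_sd2_t (x : K.C2 → MonoidAlgebra ℤ H) (s : K.S) :
    K.sd2 x (K.fl (s, true)) = x (K.face s) * el (K.cv s) := by
  unfold sd2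
  rw [Finset.sum_apply, Finset.sum_eq_single s]
  · rw [Pi.sub_apply, Pi.single_apply, Pi.single_apply, if_pos rfl, if_neg (K.XS1_fl_ne (by simp)), sub_zero]
  · intro s' _ hs'
    rw [Pi.sub_apply, Pi.single_apply, Pi.single_apply,
      if_neg (K.XS1_fl_ne fun h => hs' (congrArg Prod.fst h).symm),
      if_neg (K.XS1_fl_ne fun h => hs' (congrArg Prod.fst h).symm), sub_zero]
  · intro h
    exact absurd (Finset.mem_univ _) h

theorem XS1_sd2_f (x : K.C2 → MonoidAlgebra ℤ H) (s : K.S) :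
    K.sd2 x (K.fl (s, false)) = -(x (K.face s) * el (K.ev s)) := by
  unfold sd2
  rw [Finset.sum_apply, Finset.sum_eq_single s]
  · rw [Pi.sub_apply, Pi.single_apply, Pi.single_apply, if_pos rfl, if_neg (K.XS1_fl_ne (by simp)), zero_sub]
  · intro s' _ hs'
    rw [Pi.sub_apply, Pi.single_apply, Pi.single_apply,
      if_neg (K.XS1_fl_ne fun h => hs' (congrArg Prod.fst h).symm),
      if_neg (K.XS1_fl_ne fun h => hs' (congrArg Prod.fst h).symm), sub_zero]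
  · intro h
    exact absurd (Finset.mem_univ _) h

theorem sd2_bd3 (x : K.C2 → MonoidAlgebra ℤ H) : K.sd2 x ᵥ* K.toVG.bd3 = K.sd1 (x ᵥ* K.c2) := by
  classical
  have hid : ∀ {m n : Type} (A : Matrix m n (MonoidAlgebra ℤ H)),
      A.map (RingHom.id (MonoidAlgebra ℤ H)) = A := fun A => rfl
  funext q
  rcases K.J2_cases q with ⟨s, rfl⟩ | ⟨s, rfl⟩ | ⟨⟨e, b⟩, rfl⟩
  · rw [XS1_sd1_ec, ← hid K.toVG.bd3, K.GA1_val_ec, XS1_sd2_t, XS1_sd2_f]
    simp only [RingHom.id_apply]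
    rw [K.GA1_cv, K.GA1_ev, neg_mul, mul_assoc, mul_assoc, ← el_mul, ← el_mul, mul_inv_cancel_right,
      mul_inv_cancel_right, add_neg_cancel]
  · rw [XS1_sd1_eb]
    obtain ⟨s', rfl⟩ := K.nx.surjective s
    rw [← hid K.toVG.bd3, K.val_eb, XS1_sd2_t, XS1_sd2_f, K.face_nx, K.ev_eq]
    simp
  · rw [XS1_sd1_ea, ← hid K.toVG.bd3, K.val_ea, ← hid K.c2, K.GA1_c2, Finset.sum_mul, Finset.mul_sum]
    refine Finset.sum_congr rfl fun s _ => ?_
    by_cases he : K.ed s = e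
    · subst he
      rw [if_pos rfl, if_pos rfl]
      simp only [RingHom.id_apply]
      unfold sgn
      cases hs : K.sg s <;> cases b
      · have h1 : (false == false) = true := rfl
        rw [h1, XS1_sd2_t, K.GA1_cv, hs, el_mul]
        simp [mul_assoc]
      · have h1 : (false == true) = false := rfl
        rw [h1, XS1_sd2_f, K.GA1_ev, hs, el_mul]
        simp [mul_assoc]
      · have h1 : (true == false) = false := rfl
        rw [h1, XS1_sd2_f, K.GA1_ev, hs, el_mul]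
        simp [mul_assoc]
      · have h1 : (true == true) = true := rfl
        rw [h1, XS1_sd2_t, K.GA1_cv, hs, el_mul]
        simp [mul_assoc]
    · rw [if_neg he, if_neg he, zero_mul, mul_zero]

theorem XS1_eps (x : MonoidAlgebra ℤ H) (g : H) : eps H (x * el g) = eps H x := by
  rw [map_mul, eps_el, mul_one]

theorem XS1_eps_single {J : Type} [Fintype J] [DecidableEq J] (j : J) (x : MonoidAlgebra ℤ H) :
    ∑ i, eps H ((Pi.single j x : J → MonoidAlgebra ℤ H) i) = eps H x := by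
  rw [Finset.sum_eq_single j]
  · rw [Pi.single_eq_same]
  · intro i _ hi
    rw [Pi.single_eq_of_ne hi, map_zero]
  · intro h
    exact absurd (Finset.mem_univ _) h

/-- modulo the boundaries an edge label is its starting vertex -/
theorem XS1_e (e : K.C1) (x : MonoidAlgebra ℤ H) :
    (Pi.single (K.ea (e, true)) (x * el (K.h0 e)) : K.toVG.J2 → MonoidAlgebra ℤ H) ᵥ* K.toVG.bd2 =
      Pi.single (K.XS1_w (Sum.inl e)) x - Pi.single (K.XS1_v (K.e0 e)) (x * el (K.h0 e)) := by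
  rw [XS1_row2]
  have e0 : (K.ea (e, true)).1 = (K.XS1_v (K.e0 e), K.XS1_w (Sum.inl e)) := rfl
  have g0 : K.toVG.g (K.XS1_v (K.e0 e)) (K.XS1_w (Sum.inl e)) = (K.h0 e)⁻¹ := K.vol_e0 e
  rw [e0]
  simp only
  rw [g0, mul_assoc, ← el_mul, mul_inv_cancel, el_one, mul_one]

theorem XS1_f (s : K.S) (x : MonoidAlgebra ℤ H) :
    (Pi.single (K.eb s) (x * el (K.cv s)) : K.toVG.J2 → MonoidAlgebra ℤ H) ᵥ* K.toVG.bd2 =
      Pi.single (K.XS1_w (Sum.inr (K.face s))) x - Pi.single (K.XS1_v (K.st s)) (x * el (K.cv s)) := by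
  rw [XS1_row2]
  have e0 : (K.eb s).1 = (K.XS1_v (K.st s), K.XS1_w (Sum.inr (K.face s))) := rfl
  have g0 : K.toVG.g (K.XS1_v (K.st s)) (K.XS1_w (Sum.inr (K.face s))) = (K.cv s)⁻¹ := K.vol_st s
  rw [e0]
  simp only
  rw [g0, mul_assoc, ← el_mul, mul_inv_cancel, el_one, mul_one]

/-- splitting a sum over the labels -/
theorem XS1_sum (F : K.toVG.I → ℤ) : ∑ i, F i = ∑ a, F (K.XS1_v a) +
    (∑ e, F (K.XS1_w (Sum.inl e)) + ∑ f, F (K.XS1_w (Sum.inr f))) := by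
  let E : K.C0 ⊕ (K.C1 ⊕ K.C2) ≃ K.toVG.I := Equiv.refl _
  rw [← E.sum_comp, Fintype.sum_sum_type, Fintype.sum_sum_type]
  rfl

theorem conn_vg (h : ∀ u : K.C0 → MonoidAlgebra ℤ H, ∑ i, eps H (u i) = 0 → ∃ v, v ᵥ* K.c1 = u)
    (u : K.toVG.I → MonoidAlgebra ℤ H) (hu : ∑ i, eps H (u i) = 0) : ∃ v, v ᵥ* K.toVG.bd2 = u := by
  choose g hg using K.face_surj
  obtain ⟨u0, hu0⟩ : ∃ u0 : K.C0 → MonoidAlgebra ℤ H, u0 = fun a => u (K.XS1_v a) := ⟨_, rfl⟩
  obtain ⟨ue, hue⟩ : ∃ ue : K.C1 → MonoidAlgebra ℤ H, ue = fun a => u (K.XS1_w (Sum.inl a)) := ⟨_, rfl⟩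
  obtain ⟨uf, huf⟩ : ∃ uf : K.C2 → MonoidAlgebra ℤ H, uf = fun a => u (K.XS1_w (Sum.inr a)) := ⟨_, rfl⟩
  have hsum : ∑ a, eps H (u0 a) + (∑ e, eps H (ue e) + ∑ f, eps H (uf f)) = 0 := by
    rw [hu0, hue, huf, ← hu]
    exact (K.XS1_sum fun i => eps H (u i)).symm
  obtain ⟨pe, hpe⟩ : ∃ pe : K.C1 → K.C0 → MonoidAlgebra ℤ H,
    pe = fun e => Pi.single (K.e0 e) (ue e * el (K.h0 e)) := ⟨_, rfl⟩
  obtain ⟨pf, hpf⟩ : ∃ pf : K.C2 → K.C0 → MonoidAlgebra ℤ H,
    pf = fun f => Pi.single (K.st (g f)) (uf f * el (K.cv (g f))) := ⟨_, rfl⟩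
  have hpe' : ∀ e, ∑ a, eps H (pe e a) = eps H (ue e) := fun e => by
    rw [hpe, XS1_eps_single, XS1_eps]
  have hpf' : ∀ f, ∑ a, eps H (pf f a) = eps H (uf f) := fun f => by
    rw [hpf, XS1_eps_single, XS1_eps]
  obtain ⟨v', hv'⟩ := h (fun a => u0 a + ∑ e, pe e a + ∑ f, pf f a) (by
    simp only [map_add, map_sum, Finset.sum_add_distrib]
    rw [Finset.sum_comm, Finset.sum_comm (f := fun a f => eps H (pf f a))]
    simp only [hpe', hpf']
    rw [add_assoc]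
    exact hsum)
  refine ⟨(∑ e, Pi.single (K.ea (e, true)) (ue e * el (K.h0 e))) +
    (∑ f, Pi.single (K.eb (g f)) (uf f * el (K.cv (g f)))) + K.sd1 v', ?_⟩
  rw [Matrix.add_vecMul, Matrix.add_vecMul, Matrix.sum_vecMul, Matrix.sum_vecMul]
  simp only [XS1_e, XS1_f]
  have hcase : ∀ i : K.toVG.I, (∃ a, i = K.XS1_v a) ∨ (∃ y, i = K.XS1_w y) := by
    intro i
    rcases i with a | y
    · exact Or.inl ⟨a, rfl⟩
    · exact Or.inr ⟨y, rfl⟩
  funext i
  rcases hcase i with ⟨a, rfl⟩ | ⟨y, rfl⟩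
  · have h1 : (K.sd1 v' ᵥ* K.toVG.bd2) (K.XS1_v a) = u0 a + ∑ e, pe e a + ∑ f, pf f a := by
      rw [← congrFun hv' a]
      exact (K.sd1_bd2 v').1 a
    rw [Pi.add_apply, Pi.add_apply, h1, Finset.sum_apply, Finset.sum_apply]
    have h2 : ∀ e, (Pi.single (K.XS1_w (Sum.inl e)) (ue e) -
        Pi.single (K.XS1_v (K.e0 e)) (ue e * el (K.h0 e)) : K.toVG.I → MonoidAlgebra ℤ H) (K.XS1_v a) =
        -pe e a := by
      intro e
      rw [Pi.sub_apply, K.XS1_inl, K.XS1_inr_inl, zero_sub, hpe]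
    have h3 : ∀ f, (Pi.single (K.XS1_w (Sum.inr (K.face (g f)))) (uf f) -
        Pi.single (K.XS1_v (K.st (g f))) (uf f * el (K.cv (g f))) : K.toVG.I → MonoidAlgebra ℤ H) (K.XS1_v a) =
        -pf f a := by
      intro f
      rw [Pi.sub_apply, K.XS1_inl, K.XS1_inr_inl, zero_sub, hpf]
    rw [Finset.sum_congr rfl fun e _ => h2 e, Finset.sum_congr rfl fun f _ => h3 f, Finset.sum_neg_distrib,
      Finset.sum_neg_distrib]
    have h4 : u0 a = u (K.XS1_v a) := by rw [hu0]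
    rw [h4]
    abel
  · have h1 : (K.sd1 v' ᵥ* K.toVG.bd2) (K.XS1_w y) = 0 := (K.sd1_bd2 v').2 y
    rw [Pi.add_apply, Pi.add_apply, h1, add_zero, Finset.sum_apply, Finset.sum_apply]
    simp only [Pi.sub_apply, K.XS1_inl_inr, sub_zero]
    rcases y with e | f
    · rw [Finset.sum_eq_single e, Finset.sum_eq_zero]
      · rw [Pi.single_eq_same, add_zero, hue]
      · intro f _
        exact K.XS1_inr_ne (fun h' => Sum.inl_ne_inr h') _
      · intro e' _ he'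
        exact K.XS1_inr_ne (fun h' => he' (Sum.inl_injective h').symm) _
      · intro h'
        exact absurd (Finset.mem_univ _) h'
    · rw [Finset.sum_eq_zero, Finset.sum_eq_single f]
      · rw [zero_add, hg, Pi.single_eq_same, huf]
      · intro f' _ hf'
        refine K.XS1_inr_ne (fun h' => hf' ?_) _
        have h'' := Sum.inr_injective h'
        rw [hg] at h''
        exact h''.symm
      · intro h'
        exact absurd (Finset.mem_univ _) h'
      · intro e _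
        exact K.XS1_inr_ne (fun h' => Sum.inr_ne_inl h') _

end Cell

end NBT
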