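import Pool.Agent.Lib.MP_83fbc5_gt.XS1

/-!
# MP_83fbc5_gt, module XS2: 1-cycles of the subdivision

Statement `cyc1`: every 1-cycle `y` of `bd2` is `sd1 v + x ᵥ* bd3`. Statement `bdry1`: if `sd1 v` is a boundary, `sd1 v = x ᵥ* bd3`, then `v` is a cellular boundary.

PROOF of `bdry1`. Let `x ᵥ* bd3 = sd1 v`. The values of `x ᵥ* bd3` at `ec s` and `eb (nx s)` are 0 (`sd1 v` is supported on the pairs `ea`), so as in module `GA1` (part (ii): `w s = x (fl (s, true)) * [cv s]⁻¹` satisfies `w (nx s) = w s`, so `w s = u (face s)`) `x = sd2 u` for some `u : C2 → ℤ[H]`. Then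
`sd1 v = sd2 u ᵥ* bd3 = sd1 (u ᵥ* c2)` (`sd2_bd3`) and `sd1` is injective (coordinate at `ea (e, true)`), `v = u ᵥ* c2`.
PROOF of `cyc1`. Let `y ᵥ* bd2 = 0`. Step 1: subtract a combination of rows of `bd3` to make the coordinates at all `ec s` zero: use `∑_s (y (ec s) [vol (st s) (ed s)]⁻¹) e_(fl (s, true))` (`val_ec`: the coordinate of the row of `fl (s, true)` at `ec s` is `[vol]`, and it is 0 at the other `ec s'`). So assume `y (ec s) = 0` for all `s`.
Step 2: now use the combinations `t_s = e_(fl (s, true)) - [vol (st s) (ed s)] [vol (en s) (ed s)]⁻¹ e_(fl (s, false))`, whose boundary vanishes at all `ec` and has at the pairs (vertex, polygon) only `- e_(eb s) + [..] e_(eb (nx s))`. For each polygon choose a side `s0` and subtract combinations of the `t_s`, going around the polygon, to make all coordinates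
`y (eb s)`, `s ≠ s0`, zero. A clean way: after step 1 the coefficient of `y ᵥ* bd2` at the vertex `inr (inr f)` is `∑_(face s = f) y (eb s) [vol (st s) f] = 0`, i.e. `∑_(face s = f) w s = 0` with `w s = y (eb s) [cv s]⁻¹`; a function `w` on the cyclically ordered set of the sides of `f` with sum 0 is a difference `w (nx s) = z (nx s) - z s` (partial sums;
`Equiv.Perm`: prove the lemma: if `∑_(face s = f) w s = 0` for all `f`, then there is `z : S → M` with `w (nx s) = z (nx s) - z s`; e.g. the image of `z ↦ z - z ∘ nx⁻¹` contains all differences `e_s - e_(s')` with `face s = face s'` by `trans`). Subtracting the corresponding combination of the `t_s` makes all `y (eb s)` zero. Step 3: then `y` is supported on the pairs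
`ea (e, b)`; the coefficient of `y ᵥ* bd2` at `inr (inl e)` is `y (ea (e, true)) [h0 e]⁻¹ + y (ea (e, false)) [h1 e]⁻¹ = 0`, so `y = sd1 v` with `v e = y (ea (e, true)) [h0 e]⁻¹`.
(90-120 minutes; may be split)
-/

set_option autoImplicit false

namespace NBT

open Matrix

namespace Cell

variable {H : Type} [Group H] (K : Cell H)

/-! ### Functions on the cyclically ordered sides -/

/-- differences along `nx` -/
def XS2_im (M : Type) [AddCommGroup M] : AddSubgroup (K.S → M) where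
  carrier := {w | ∃ p : K.S → M, ∀ s, w s = p s - p (K.nx s)}
  zero_mem' := ⟨0, fun s => by simp⟩
  add_mem' := by
    rintro w w' ⟨p, hp⟩ ⟨p', hp'⟩
    refine ⟨p + p', fun s => ?_⟩
    rw [Pi.add_apply, Pi.add_apply, Pi.add_apply, hp, hp']
    abel
  neg_mem' := by
    rintro w ⟨p, hp⟩
    refine ⟨-p, fun s => ?_⟩
    rw [Pi.neg_apply, Pi.neg_apply, Pi.neg_apply, hp]
    abel

theorem XS2_mem_im {M : Type} [AddCommGroup M] {w : K.S → M} :
    w ∈ K.XS2_im M ↔ ∃ p : K.S → M, ∀ s, w s = p s - p (K.nx s) := Iff.rfl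

open Classical in
theorem XS2_single {M : Type} [AddCommGroup M] (m : M) (s s' : K.S) (h : K.face s = K.face s') :
    (Pi.single s m - Pi.single s' m : K.S → M) ∈ K.XS2_im M := by
  refine K.trans (fun t => (Pi.single s m - Pi.single t m : K.S → M) ∈ K.XS2_im M) ?_ s s' h ?_
  · intro t ht
    have h1 : (Pi.single t m - Pi.single (K.nx t) m : K.S → M) ∈ K.XS2_im M := by
      rw [XS2_mem_im]
      refine ⟨-Pi.single (K.nx t) m, fun r => ?_⟩
      rw [Pi.sub_apply, Pi.neg_apply, Pi.neg_apply, Pi.single_apply, Pi.single_apply, Pi.single_apply]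
      by_cases hr : r = t
      · subst hr
        rw [if_pos rfl, if_pos rfl]
        abel
      · rw [if_neg hr, if_neg (fun h' => hr (K.nx.injective h'))]
        abel
    have h2 := (K.XS2_im M).add_mem ht h1
    have h3 : (Pi.single s m - Pi.single t m : K.S → M) + (Pi.single t m - Pi.single (K.nx t) m) =
        Pi.single s m - Pi.single (K.nx t) m := by abel
    rw [h3] at h2
    exact h2
  · rw [sub_self]
    exact (K.XS2_im M).zero_mem

open Classical in
theorem XS2_cyc {M : Type} [AddCommGroup M] (w : K.S → M)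
    (hw : ∀ f, ∑ s, (if K.face s = f then w s else 0) = 0) :
    ∃ p : K.S → M, ∀ s, w s = p s - p (K.nx s) := by
  have hch : ∀ f, ∃ s, K.face s = f := K.face_surj
  choose g hg using hch
  have h1 : (∑ s, (Pi.single s (w s) - Pi.single (g (K.face s)) (w s)) : K.S → M) ∈ K.XS2_im M :=
    (K.XS2_im M).sum_mem fun s _ => K.XS2_single (w s) s (g (K.face s)) (hg _).symm
  have h2 : (∑ s, Pi.single (g (K.face s)) (w s) : K.S → M) = 0 := by
    funext t
    rw [Finset.sum_apply, Pi.zero_apply]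
    by_cases ht : g (K.face t) = t
    · rw [← hw (K.face t)]
      refine Finset.sum_congr rfl fun s _ => ?_
      rw [Pi.single_apply]
      by_cases hs : K.face s = K.face t
      · rw [if_pos hs, if_pos (by rw [hs, ht])]
      · rw [if_neg hs, if_neg]
        intro h3
        apply hs
        rw [h3, hg]
    · refine Finset.sum_eq_zero fun s _ => ?_
      rw [Pi.single_apply, if_neg]
      intro h3
      apply ht
      rw [h3, hg]
  rw [Finset.sum_sub_distrib, h2, sub_zero, Finset.univ_sum_single] at h1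
  exact h1

/-! ### The pairs -/

/-- the pairs, parametrised -/
def XS2_j : K.S ⊕ K.S ⊕ (K.C1 × Bool) → K.toVG.J2
  | .inl s => K.ec s
  | .inr (.inl s) => K.eb s
  | .inr (.inr q) => K.ea q

theorem XS2_j_bij : Function.Bijective K.XS2_j := by
  constructor
  · rintro (s | s | ⟨e, b⟩) (s' | s' | ⟨e', b'⟩) h
    · rw [K.GA0_ec_inj.1 h]
    · exact absurd h (K.GA0_ec_eb s s')
    · exact absurd h (K.GA0_ec_ea s e' b')
    · exact absurd h.symm (K.GA0_ec_eb s' s)
    · rw [K.GA0_eb_inj.1 h]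
    · exact absurd h (K.GA0_eb_ea s e' b')
    · exact absurd h.symm (K.GA0_ec_ea s' e b)
    · exact absurd h.symm (K.GA0_eb_ea s' e b)
    · obtain ⟨h1, h2⟩ := K.GA0_ea_inj.1 h
      rw [h1, h2]
  · intro p
    rcases K.J2_cases p with ⟨s, rfl⟩ | ⟨s, rfl⟩ | ⟨q, rfl⟩
    · exact ⟨.inl s, rfl⟩
    · exact ⟨.inr (.inl s), rfl⟩
    · exact ⟨.inr (.inr q), rfl⟩

theorem XS2_sum_J2 {M : Type} [AddCommMonoid M] (F : K.toVG.J2 → M) :
    ∑ p, F p = (∑ s, F (K.ec s)) + ((∑ s, F (K.eb s)) + ∑ e, (F (K.ea (e, true)) + F (K.ea (e, false)))) := by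
  rw [← (Equiv.ofBijective _ K.XS2_j_bij).sum_comp, Fintype.sum_sum_type, Fintype.sum_sum_type,
    Fintype.sum_prod_type]
  congr 1
  congr 1
  refine Finset.sum_congr rfl fun e _ => ?_
  rw [Fintype.sum_bool]
  rfl

theorem XS2_bd2_ec (s : K.S) (i : K.toVG.I) : K.toVG.bd2 (K.ec s) i =
    (if i = Sum.inr (Sum.inr (K.face s)) then el (K.sv s)⁻¹ else 0) -
      (if i = Sum.inr (Sum.inl (K.ed s)) then 1 else 0) := by
  unfold VG.bd2
  rw [Matrix.of_apply, Pi.sub_apply, Pi.single_apply, Pi.single_apply]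
  have h1 : K.toVG.g (K.ec s).1.1 (K.ec s).1.2 = (K.sv s)⁻¹ := K.vol_ed s
  rw [h1]
  rfl

theorem XS2_bd2_eb (s : K.S) (i : K.toVG.I) : K.toVG.bd2 (K.eb s) i =
    (if i = Sum.inr (Sum.inr (K.face s)) then el (K.cv s)⁻¹ else 0) -
      (if i = Sum.inl (K.st s) then 1 else 0) := by
  unfold VG.bd2
  rw [Matrix.of_apply, Pi.sub_apply, Pi.single_apply, Pi.single_apply]
  have h1 : K.toVG.g (K.eb s).1.1 (K.eb s).1.2 = (K.cv s)⁻¹ := K.vol_st s
  rw [h1]
  rfl

theorem XS2_bd2_eat (e : K.C1) (i : K.toVG.I) : K.toVG.bd2 (K.ea (e, true)) i =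
    (if i = Sum.inr (Sum.inl e) then el (K.h0 e)⁻¹ else 0) -
      (if i = Sum.inl (K.e0 e) then 1 else 0) := by
  unfold VG.bd2
  rw [Matrix.of_apply, Pi.sub_apply, Pi.single_apply, Pi.single_apply]
  have h1 : K.toVG.g (K.ea (e, true)).1.1 (K.ea (e, true)).1.2 = (K.h0 e)⁻¹ := K.vol_e0 e
  rw [h1]
  rfl

theorem XS2_bd2_eaf (e : K.C1) (i : K.toVG.I) : K.toVG.bd2 (K.ea (e, false)) i =
    (if i = Sum.inr (Sum.inl e) then el (K.h1 e)⁻¹ else 0) -
      (if i = Sum.inl (K.e1 e) then 1 else 0) := by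
  unfold VG.bd2
  rw [Matrix.of_apply, Pi.sub_apply, Pi.single_apply, Pi.single_apply]
  have h1 : K.toVG.g (K.ea (e, false)).1.1 (K.ea (e, false)).1.2 = (K.h1 e)⁻¹ := K.vol_e1 e
  rw [h1]
  rfl

theorem XS2_n1 (f : K.C2) (e : K.C1) :
    ¬ @Eq K.toVG.I (Sum.inr (Sum.inr f) : K.C0 ⊕ K.C1 ⊕ K.C2) (Sum.inr (Sum.inl e) : K.C0 ⊕ K.C1 ⊕ K.C2) :=
  fun h => Sum.inr_ne_inl (Sum.inr_injective h)

theorem XS2_n2 (f : K.C2) (a : K.C0) :
    ¬ @Eq K.toVG.I (Sum.inr (Sum.inr f) : K.C0 ⊕ K.C1 ⊕ K.C2) (Sum.inl a : K.C0 ⊕ K.C1 ⊕ K.C2) :=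
  fun h => Sum.inr_ne_inl h

theorem XS2_n3 (f : K.C2) (e : K.C1) :
    ¬ @Eq K.toVG.I (Sum.inr (Sum.inl e) : K.C0 ⊕ K.C1 ⊕ K.C2) (Sum.inr (Sum.inr f) : K.C0 ⊕ K.C1 ⊕ K.C2) :=
  fun h => Sum.inl_ne_inr (Sum.inr_injective h)

theorem XS2_n4 (e : K.C1) (a : K.C0) :
    ¬ @Eq K.toVG.I (Sum.inr (Sum.inl e) : K.C0 ⊕ K.C1 ⊕ K.C2) (Sum.inl a : K.C0 ⊕ K.C1 ⊕ K.C2) :=
  fun h => Sum.inr_ne_inl h

theorem XS2_n5 {f f' : K.C2} (hf : f ≠ f') :
    ¬ @Eq K.toVG.I (Sum.inr (Sum.inr f) : K.C0 ⊕ K.C1 ⊕ K.C2) (Sum.inr (Sum.inr f') : K.C0 ⊕ K.C1 ⊕ K.C2) :=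
  fun h => hf (K.GA0_face h)

theorem XS2_n6 {e e' : K.C1} (he : e ≠ e') :
    ¬ @Eq K.toVG.I (Sum.inr (Sum.inl e) : K.C0 ⊕ K.C1 ⊕ K.C2) (Sum.inr (Sum.inl e') : K.C0 ⊕ K.C1 ⊕ K.C2) :=
  fun h => he (K.GA0_ed h)

open Classical in
theorem XS2_bd2_face (y : K.toVG.J2 → MonoidAlgebra ℤ H) (f : K.C2) :
    (y ᵥ* K.toVG.bd2) (Sum.inr (Sum.inr f) : K.C0 ⊕ K.C1 ⊕ K.C2) =
      ∑ s, (if K.face s = f then y (K.ec s) * el (K.sv s)⁻¹ + y (K.eb s) * el (K.cv s)⁻¹ else 0) := by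
  have h1 : (y ᵥ* K.toVG.bd2) (Sum.inr (Sum.inr f) : K.C0 ⊕ K.C1 ⊕ K.C2) =
      ∑ p, y p * K.toVG.bd2 p (Sum.inr (Sum.inr f) : K.C0 ⊕ K.C1 ⊕ K.C2) := rfl
  rw [h1, K.XS2_sum_J2]
  have h2 : ∀ e, y (K.ea (e, true)) * K.toVG.bd2 (K.ea (e, true)) (Sum.inr (Sum.inr f) : K.C0 ⊕ K.C1 ⊕ K.C2) +
      y (K.ea (e, false)) * K.toVG.bd2 (K.ea (e, false)) (Sum.inr (Sum.inr f) : K.C0 ⊕ K.C1 ⊕ K.C2) = 0 := by
    intro e
    rw [K.XS2_bd2_eat, K.XS2_bd2_eaf, if_neg (K.XS2_n1 f e), if_neg (K.XS2_n2 f _), if_neg (K.XS2_n1 f e),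
      if_neg (K.XS2_n2 f _)]
    simp
  rw [Finset.sum_congr rfl fun e _ => h2 e, Finset.sum_const_zero, add_zero, ← Finset.sum_add_distrib]
  refine Finset.sum_congr rfl fun s _ => ?_
  rw [K.XS2_bd2_ec, K.XS2_bd2_eb, if_neg (K.XS2_n1 f _), if_neg (K.XS2_n2 f _)]
  by_cases hs : K.face s = f
  · subst hs
    rw [if_pos rfl, if_pos rfl, if_pos rfl, sub_zero, sub_zero]
  · have hs' : f ≠ K.face s := fun h => hs h.symm
    rw [if_neg hs, if_neg (K.XS2_n5 hs'), if_neg (K.XS2_n5 hs'), sub_zero, mul_zero, mul_zero, add_zero]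

open Classical in
theorem XS2_bd2_edge (y : K.toVG.J2 → MonoidAlgebra ℤ H) (hy : ∀ s, y (K.ec s) = 0) (e : K.C1) :
    (y ᵥ* K.toVG.bd2) (Sum.inr (Sum.inl e) : K.C0 ⊕ K.C1 ⊕ K.C2) =
      y (K.ea (e, true)) * el (K.h0 e)⁻¹ + y (K.ea (e, false)) * el (K.h1 e)⁻¹ := by
  have h1 : (y ᵥ* K.toVG.bd2) (Sum.inr (Sum.inl e) : K.C0 ⊕ K.C1 ⊕ K.C2) =
      ∑ p, y p * K.toVG.bd2 p (Sum.inr (Sum.inl e) : K.C0 ⊕ K.C1 ⊕ K.C2) := rfl
  rw [h1, K.XS2_sum_J2]
  have h2 : ∀ s, y (K.ec s) * K.toVG.bd2 (K.ec s) (Sum.inr (Sum.inl e) : K.C0 ⊕ K.C1 ⊕ K.C2) = 0 := by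
    intro s
    rw [hy s, zero_mul]
  have h3 : ∀ s, y (K.eb s) * K.toVG.bd2 (K.eb s) (Sum.inr (Sum.inl e) : K.C0 ⊕ K.C1 ⊕ K.C2) = 0 := by
    intro s
    rw [K.XS2_bd2_eb, if_neg (K.XS2_n3 _ _), if_neg (K.XS2_n4 _ _), sub_zero, mul_zero]
  rw [Finset.sum_congr rfl fun s _ => h2 s, Finset.sum_congr rfl fun s _ => h3 s,
    Finset.sum_const_zero, zero_add, zero_add, Finset.sum_eq_single e]
  · rw [K.XS2_bd2_eat, K.XS2_bd2_eaf, if_neg (K.XS2_n4 _ _), if_neg (K.XS2_n4 _ _), if_pos rfl, if_pos rfl,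
      sub_zero, sub_zero]
  · intro e' _ he'
    rw [K.XS2_bd2_eat, K.XS2_bd2_eaf]
    have h4 : e ≠ e' := fun h => he' h.symm
    rw [if_neg (K.XS2_n6 h4), if_neg (K.XS2_n6 h4), if_neg (K.XS2_n4 _ _), if_neg (K.XS2_n4 _ _), sub_zero,
      mul_zero, mul_zero, add_zero]
  · intro h
    exact absurd (Finset.mem_univ _) h

/-! ### Coordinates of the subdivision maps -/

theorem XS2_sd1_ec (v : K.C1 → MonoidAlgebra ℤ H) (s : K.S) : K.sd1 v (K.ec s) = 0 := by
  unfold sd1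
  rw [Finset.sum_apply]
  refine Finset.sum_eq_zero fun e _ => ?_
  rw [Pi.sub_apply, Pi.single_apply, Pi.single_apply, if_neg (K.GA0_ec_ea s e true),
    if_neg (K.GA0_ec_ea s e false), sub_zero]

theorem XS2_sd1_eb (v : K.C1 → MonoidAlgebra ℤ H) (s : K.S) : K.sd1 v (K.eb s) = 0 := by
  unfold sd1
  rw [Finset.sum_apply]
  refine Finset.sum_eq_zero fun e _ => ?_
  rw [Pi.sub_apply, Pi.single_apply, Pi.single_apply, if_neg (K.GA0_eb_ea s e true),
    if_neg (K.GA0_eb_ea s e false), sub_zero]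

theorem XS2_sd1_eat (v : K.C1 → MonoidAlgebra ℤ H) (e : K.C1) :
    K.sd1 v (K.ea (e, true)) = v e * el (K.h0 e) := by
  unfold sd1
  rw [Finset.sum_apply, Finset.sum_eq_single e]
  · rw [Pi.sub_apply, Pi.single_apply, Pi.single_apply, if_pos rfl, if_neg, sub_zero]
    intro h
    have := (K.GA0_ea_inj.1 h).2
    exact absurd this (by decide)
  · intro e' _ he'
    rw [Pi.sub_apply, Pi.single_apply, Pi.single_apply, if_neg, if_neg, sub_zero]
    · intro h
      exact he' (K.GA0_ea_inj.1 h).1.symm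
    · intro h
      exact he' (K.GA0_ea_inj.1 h).1.symm
  · intro h
    exact absurd (Finset.mem_univ _) h

theorem XS2_sd1_eaf (v : K.C1 → MonoidAlgebra ℤ H) (e : K.C1) :
    K.sd1 v (K.ea (e, false)) = -(v e * el (K.h1 e)) := by
  unfold sd1
  rw [Finset.sum_apply, Finset.sum_eq_single e]
  · rw [Pi.sub_apply, Pi.single_apply, Pi.single_apply, if_pos rfl, if_neg, zero_sub]
    intro h
    have := (K.GA0_ea_inj.1 h).2
    exact absurd this (by decide)
  · intro e' _ he'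
    rw [Pi.sub_apply, Pi.single_apply, Pi.single_apply, if_neg, if_neg, sub_zero]
    · intro h
      exact he' (K.GA0_ea_inj.1 h).1.symm
    · intro h
      exact he' (K.GA0_ea_inj.1 h).1.symm
  · intro h
    exact absurd (Finset.mem_univ _) h

theorem XS2_fl_inj {s s' : K.S} {b b' : Bool} (h : K.fl (s, b) = K.fl (s', b')) : s = s' ∧ b = b' := by
  have h1 := K.fl_bij.1 h
  exact ⟨congrArg Prod.fst h1, congrArg Prod.snd h1⟩

theorem XS2_sd2_t (u : K.C2 → MonoidAlgebra ℤ H) (s : K.S) :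
    K.sd2 u (K.fl (s, true)) = u (K.face s) * el (K.cv s) := by
  unfold sd2
  rw [Finset.sum_apply, Finset.sum_eq_single s]
  · rw [Pi.sub_apply, Pi.single_apply, Pi.single_apply, if_pos rfl, if_neg, sub_zero]
    intro h
    have := (K.XS2_fl_inj h).2
    exact absurd this (by decide)
  · intro e' _ he'
    rw [Pi.sub_apply, Pi.single_apply, Pi.single_apply, if_neg, if_neg, sub_zero]
    · intro h
      exact he' (K.XS2_fl_inj h).1.symm
    · intro h
      exact he' (K.XS2_fl_inj h).1.symm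
  · intro h
    exact absurd (Finset.mem_univ _) h

theorem XS2_sd2_f (u : K.C2 → MonoidAlgebra ℤ H) (s : K.S) :
    K.sd2 u (K.fl (s, false)) = -(u (K.face s) * el (K.ev s)) := by
  unfold sd2
  rw [Finset.sum_apply, Finset.sum_eq_single s]
  · rw [Pi.sub_apply, Pi.single_apply, Pi.single_apply, if_pos rfl, if_neg, zero_sub]
    intro h
    have := (K.XS2_fl_inj h).2
    exact absurd this (by decide)
  · intro e' _ he'
    rw [Pi.sub_apply, Pi.single_apply, Pi.single_apply, if_neg, if_neg, sub_zero]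
    · intro h
      exact he' (K.XS2_fl_inj h).1.symm
    · intro h
      exact he' (K.XS2_fl_inj h).1.symm
  · intro h
    exact absurd (Finset.mem_univ _) h

/-! ### Group elements -/

theorem XS2_inv (h : H) : (el h * el h⁻¹ : MonoidAlgebra ℤ H) = 1 := by
  rw [← el_mul, mul_inv_cancel, el_one]

theorem XS2_inv' (h : H) : (el h⁻¹ * el h : MonoidAlgebra ℤ H) = 1 := by
  rw [← el_mul, inv_mul_cancel, el_one]

theorem XS2_cancel {a b : MonoidAlgebra ℤ H} (h : H) (hab : a * el h = b * el h) : a = b := by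
  have h1 := congrArg (fun x => x * el h⁻¹) hab
  simp only [mul_assoc, XS2_inv, mul_one] at h1
  exact h1

theorem XS2_map : K.toVG.bd3.map (RingHom.id (MonoidAlgebra ℤ H)) = K.toVG.bd3 := by
  ext i j
  rfl

/-- the values of `x ᵥ* bd3` at `ec s` -/
theorem XS2_ec (x : K.toVG.J3 → MonoidAlgebra ℤ H) (p q : K.S → MonoidAlgebra ℤ H)
    (hp : ∀ s, x (K.fl (s, true)) = p s * el (K.cv s))
    (hq : ∀ s, x (K.fl (s, false)) = -(q s * el (K.ev s))) (s : K.S) :
    (x ᵥ* K.toVG.bd3) (K.ec s) = (p s - q s) * el (K.sv s) := by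
  have h := K.val_ec (RingHom.id (MonoidAlgebra ℤ H)) x s
  rw [K.XS2_map] at h
  rw [h, hp, hq]
  unfold cv ev
  simp only [RingHom.id_apply]
  have h1 : ∀ a b : H, (el (a * b) * el b⁻¹ : MonoidAlgebra ℤ H) = el a := by
    intro a b
    rw [el_mul, mul_assoc, XS2_inv, mul_one]
  rw [mul_assoc, h1, neg_mul, mul_assoc, h1, sub_mul, sub_eq_add_neg]

/-- the values of `x ᵥ* bd3` at `eb (nx s)` -/
theorem XS2_eb (x : K.toVG.J3 → MonoidAlgebra ℤ H) (p q : K.S → MonoidAlgebra ℤ H)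
    (hp : ∀ s, x (K.fl (s, true)) = p s * el (K.cv s))
    (hq : ∀ s, x (K.fl (s, false)) = -(q s * el (K.ev s))) (s : K.S) :
    (x ᵥ* K.toVG.bd3) (K.eb (K.nx s)) = (q s - p (K.nx s)) * el (K.cv (K.nx s)) := by
  have h := K.val_eb (RingHom.id (MonoidAlgebra ℤ H)) x s
  rw [K.XS2_map] at h
  rw [h, hp, hq, K.ev_eq, sub_mul]
  abel

theorem cyc1 (y : K.toVG.J2 → MonoidAlgebra ℤ H) (hy : y ᵥ* K.toVG.bd2 = 0) :
    ∃ v x, y = K.sd1 v + x ᵥ* K.toVG.bd3 := by
  classical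
  -- the coefficients at the centres of the polygons
  have hsum : ∀ f, ∑ s, (if K.face s = f then
      y (K.ec s) * el (K.sv s)⁻¹ + y (K.eb (K.nx s)) * el (K.cv (K.nx s))⁻¹ else 0) = 0 := by
    intro f
    have h1 := congrFun hy (Sum.inr (Sum.inr f) : K.C0 ⊕ K.C1 ⊕ K.C2)
    rw [K.XS2_bd2_face] at h1
    change _ = (0 : MonoidAlgebra ℤ H) at h1
    have h2 : ∀ s, (if K.face s = f then
        y (K.ec s) * el (K.sv s)⁻¹ + y (K.eb s) * el (K.cv s)⁻¹ else 0) =
        (if K.face s = f then y (K.ec s) * el (K.sv s)⁻¹ else 0) +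
        (if K.face s = f then y (K.eb s) * el (K.cv s)⁻¹ else 0) := by
      intro s
      by_cases h : K.face s = f
      · rw [if_pos h, if_pos h, if_pos h]
      · rw [if_neg h, if_neg h, if_neg h, add_zero]
    have h3 : ∀ s, (if K.face s = f then
        y (K.ec s) * el (K.sv s)⁻¹ + y (K.eb (K.nx s)) * el (K.cv (K.nx s))⁻¹ else 0) =
        (if K.face s = f then y (K.ec s) * el (K.sv s)⁻¹ else 0) +
        (if K.face (K.nx s) = f then y (K.eb (K.nx s)) * el (K.cv (K.nx s))⁻¹ else 0) := by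
      intro s
      rw [K.face_nx]
      by_cases h : K.face s = f
      · rw [if_pos h, if_pos h, if_pos h]
      · rw [if_neg h, if_neg h, if_neg h, add_zero]
    rw [Finset.sum_congr rfl fun s _ => h2 s, Finset.sum_add_distrib] at h1
    rw [Finset.sum_congr rfl fun s _ => h3 s, Finset.sum_add_distrib,
      Equiv.sum_comp K.nx (fun s => if K.face s = f then y (K.eb s) * el (K.cv s)⁻¹ else 0)]
    exact h1
  obtain ⟨p, hp⟩ := K.XS2_cyc _ hsum
  -- the 2-chain
  set q : K.S → MonoidAlgebra ℤ H := fun s => p s - y (K.ec s) * el (K.sv s)⁻¹ with hq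
  set x : K.toVG.J3 → MonoidAlgebra ℤ H :=
    ∑ s, (Pi.single (K.fl (s, true)) (p s * el (K.cv s)) -
      Pi.single (K.fl (s, false)) (q s * el (K.ev s))) with hx
  have hxt : ∀ s, x (K.fl (s, true)) = p s * el (K.cv s) := by
    intro s
    rw [hx, Finset.sum_apply, Finset.sum_eq_single s]
    · rw [Pi.sub_apply, Pi.single_apply, Pi.single_apply, if_pos rfl, if_neg, sub_zero]
      intro h
      have := (K.XS2_fl_inj h).2
      exact absurd this (by decide)
    · intro e' _ he'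
      rw [Pi.sub_apply, Pi.single_apply, Pi.single_apply, if_neg, if_neg, sub_zero]
      · intro h
        exact he' (K.XS2_fl_inj h).1.symm
      · intro h
        exact he' (K.XS2_fl_inj h).1.symm
    · intro h
      exact absurd (Finset.mem_univ _) h
  have hxf : ∀ s, x (K.fl (s, false)) = -(q s * el (K.ev s)) := by
    intro s
    rw [hx, Finset.sum_apply, Finset.sum_eq_single s]
    · rw [Pi.sub_apply, Pi.single_apply, Pi.single_apply, if_pos rfl, if_neg, zero_sub]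
      intro h
      have := (K.XS2_fl_inj h).2
      exact absurd this (by decide)
    · intro e' _ he'
      rw [Pi.sub_apply, Pi.single_apply, Pi.single_apply, if_neg, if_neg, sub_zero]
      · intro h
        exact he' (K.XS2_fl_inj h).1.symm
      · intro h
        exact he' (K.XS2_fl_inj h).1.symm
    · intro h
      exact absurd (Finset.mem_univ _) h
  have hec : ∀ s, (x ᵥ* K.toVG.bd3) (K.ec s) = y (K.ec s) := by
    intro s
    rw [K.XS2_ec x p q hxt hxf s, hq]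
    simp only
    rw [sub_sub_cancel, mul_assoc, XS2_inv', mul_one]
  have heb : ∀ s, (x ᵥ* K.toVG.bd3) (K.eb s) = y (K.eb s) := by
    intro s
    obtain ⟨s, rfl⟩ := K.nx.surjective s
    rw [K.XS2_eb x p q hxt hxf s, hq]
    simp only
    have h1 : p s - y (K.ec s) * el (K.sv s)⁻¹ - p (K.nx s) = y (K.eb (K.nx s)) * el (K.cv (K.nx s))⁻¹ := by
      have h2 := hp s
      have h3 : p s = p (K.nx s) + (y (K.ec s) * el (K.sv s)⁻¹ + y (K.eb (K.nx s)) * el (K.cv (K.nx s))⁻¹) := by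
        rw [h2]; abel
      rw [h3]
      abel
    rw [h1, mul_assoc, XS2_inv', mul_one]
  -- the rest
  set y' : K.toVG.J2 → MonoidAlgebra ℤ H := y - x ᵥ* K.toVG.bd3 with hy'
  have h0 : y' ᵥ* K.toVG.bd2 = 0 := by
    rw [hy', Matrix.sub_vecMul, hy, Matrix.vecMul_vecMul, bd3_bd2, Matrix.vecMul_zero, sub_zero]
  have hc : ∀ s, y' (K.ec s) = 0 := by
    intro s
    rw [hy', Pi.sub_apply, hec, sub_self]
  have hb : ∀ s, y' (K.eb s) = 0 := by
    intro s
    rw [hy', Pi.sub_apply, heb, sub_self]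
  have he : ∀ e, y' (K.ea (e, true)) * el (K.h0 e)⁻¹ + y' (K.ea (e, false)) * el (K.h1 e)⁻¹ = 0 := by
    intro e
    rw [← K.XS2_bd2_edge y' hc e, h0]
    rfl
  refine ⟨fun e => y' (K.ea (e, true)) * el (K.h0 e)⁻¹, x, ?_⟩
  have hfin : y' = K.sd1 (fun e => y' (K.ea (e, true)) * el (K.h0 e)⁻¹) := by
    funext r
    rcases K.J2_cases r with ⟨s, rfl⟩ | ⟨s, rfl⟩ | ⟨⟨e, b⟩, rfl⟩
    · rw [hc, XS2_sd1_ec]
    · rw [hb, XS2_sd1_eb]
    · cases b
      · rw [XS2_sd1_eaf]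
        apply XS2_cancel (K.h1 e)⁻¹
        rw [neg_mul, mul_assoc (y' (K.ea (e, true)) * el (K.h0 e)⁻¹), XS2_inv, mul_one]
        exact eq_neg_of_add_eq_zero_right (he e)
      · rw [XS2_sd1_eat, mul_assoc, XS2_inv', mul_one]
  rw [← hfin, hy', sub_add_cancel]

theorem bdry1 (v : K.C1 → MonoidAlgebra ℤ H) (h : ∃ x, K.sd1 v = x ᵥ* K.toVG.bd3) : ∃ u, v = u ᵥ* K.c2 := by
  obtain ⟨x, hx⟩ := h
  set p : K.S → MonoidAlgebra ℤ H := fun s => x (K.fl (s, true)) * el (K.cv s)⁻¹ with hp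
  set q : K.S → MonoidAlgebra ℤ H := fun s => -(x (K.fl (s, false)) * el (K.ev s)⁻¹) with hq
  have hxt : ∀ s, x (K.fl (s, true)) = p s * el (K.cv s) := by
    intro s
    rw [hp]
    simp only
    rw [mul_assoc, XS2_inv', mul_one]
  have hxf : ∀ s, x (K.fl (s, false)) = -(q s * el (K.ev s)) := by
    intro s
    rw [hq]
    simp only
    rw [neg_mul, neg_neg, mul_assoc, XS2_inv', mul_one]
  have hpq : ∀ s, p s = q s := by
    intro s
    have h1 := K.XS2_ec x p q hxt hxf s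
    rw [← hx, XS2_sd1_ec] at h1
    have h2 : p s * el (K.sv s) = q s * el (K.sv s) := by
      rw [sub_mul] at h1
      exact sub_eq_zero.1 h1.symm
    exact XS2_cancel _ h2
  have hnx : ∀ s, p (K.nx s) = p s := by
    intro s
    have h1 := K.XS2_eb x p q hxt hxf s
    rw [← hx, XS2_sd1_eb] at h1
    have h2 : q s * el (K.cv (K.nx s)) = p (K.nx s) * el (K.cv (K.nx s)) := by
      rw [sub_mul] at h1
      exact sub_eq_zero.1 h1.symm
    rw [hpq s]
    exact (XS2_cancel _ h2).symm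
  have hface : ∀ s s', K.face s = K.face s' → p s' = p s := by
    intro s s' h
    exact K.trans (fun t => p t = p s) (fun t ht => (hnx t).trans ht) s s' h rfl
  have hch : ∀ f, ∃ s, K.face s = f := K.face_surj
  choose g hg using hch
  have hu : ∀ s, p (g (K.face s)) = p s := fun s => hface s (g (K.face s)) (hg (K.face s)).symm
  have hsd : x = K.sd2 (fun f => p (g f)) := by
    funext r
    obtain ⟨⟨s, b⟩, rfl⟩ := K.fl_bij.2 r
    cases b
    · rw [XS2_sd2_f, hu, hxf s, hpq s]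
    · rw [XS2_sd2_t, hu, hxt s]
  rw [hsd, sd2_bd3] at hx
  refine ⟨fun f => p (g f), ?_⟩
  funext e
  have h1 := congrFun hx (K.ea (e, true))
  rw [XS2_sd1_eat, XS2_sd1_eat] at h1
  exact XS2_cancel _ h1

end Cell

end NBT
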