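import Pool.Agent.Lib.MP_83fbc5_gt.XF
import Pool.Agent.Lib.MP_83fbc5_gt.XP

/-!
# MP_83fbc5_gt, module XW: words for a group and a matrix

PROOF. Let `S` be the finite set of the group elements in the supports of the entries of `A` together with `1`; `X, R, nu, wd` from `exists_pres`; for `g ∈ S` let `x g` be a letter with `nu (x g) = g`. Alphabet `Z = X ⊕ Fin m`, values `nu` on `X` and `1` on `Fin m`; words: `Kk = R ⊕ Fin n`, `inl r ↦ (wd r)` with letters in `X`; `inr k ↦` the concatenation of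
`[(x 1, true), (x 1, false)]` (so the word is not empty) and, for all `j` and all `g` in the support of `A k j`, `|A k j g|` copies of `[(x g, true), (inr j, sign), (x g, false)]`, the sign being that of the coefficient. Values: `1` in all cases (`R`: `FreeGroup.mk (wd r)` is in the kernel). Fox derivatives (`fox (l ++ l') = fox l + [value l] • fox l'` by induction): for `inl r`: `fox nu (wd r)` on `X`
and `0` on `Fin m`; for `[(x g, true), (inr j, b), (x g, false)]`: `e_(x g) ± [g] e_j - [g 1 g⁻¹] e_(x g) = ± [g] e_j`; so for `inr k`: `0` on `X` and `A k j` at `inr j`. So `f2` is block diagonal with blocks the Fox matrix of the presentation and `A`, and `f1` is `el (nu x) - 1` on `X` and `0` on `Fin m`.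
`HCok`: (ne) `Unit`. (aug) `eps (el _ - 1) = 0`. (conn), (dd) from `fox_exact` (the sum over `Z` splits, `Fintype.sum_sum_type`; the Fintype and DecidableEq instances of `Wd` are noncomputable ones: use `Subsingleton.elim`/`convert`-free rewriting or state auxiliary lemmas for arbitrary instances). (ex) `α j = e_(inr j)`: a vector `u` with `u ᵥ* f1 = 0` has its `X`-part in the row space of the Fox
matrix by `fox_exact` and its `Fin m`-part `v` is `v ᵥ* α`; `v ᵥ* α = x ᵥ* f2` iff the `R`-part of `x` gives 0 and `v = (Kk-part) ᵥ* A`.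
(90-120 minutes; may be split: the words and their Fox derivatives; HCok)
-/

set_option autoImplicit false

namespace NBT

open Matrix

section words

variable {H : Type} [Group H]

/-- value of a word -/
private noncomputable def XW_val {Z : Type} (nu : Z → H) (l : List (Z × Bool)) : H :=
  (l.map fun p => if p.2 then nu p.1 else (nu p.1)⁻¹).prod

private theorem XW_val_nil {Z : Type} (nu : Z → H) : XW_val nu [] = 1 := rfl

private theorem XW_val_cons {Z : Type} (nu : Z → H) (p : Z × Bool) (l : List (Z × Bool)) :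
    XW_val nu (p :: l) = (if p.2 then nu p.1 else (nu p.1)⁻¹) * XW_val nu l := by
  simp [XW_val]

private theorem XW_val_append {Z : Type} (nu : Z → H) (l l' : List (Z × Bool)) :
    XW_val nu (l ++ l') = XW_val nu l * XW_val nu l' := by
  simp [XW_val]

private theorem XW_el_smul {Z : Type} (g h : H) (v : Z → MonoidAlgebra ℤ H) :
    (el (g * h) : MonoidAlgebra ℤ H) • v = (el g : MonoidAlgebra ℤ H) • (el h : MonoidAlgebra ℤ H) • v := by
  rw [el_mul, mul_smul]

private theorem XW_fox_append {Z : Type} [DecidableEq Z] (nu : Z → H) (l l' : List (Z × Bool)) :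
    Wd.fox nu (l ++ l') = Wd.fox nu l + (el (XW_val nu l) : MonoidAlgebra ℤ H) • Wd.fox nu l' := by
  induction l with
  | nil =>
    rw [List.nil_append, XW_val_nil, el_one, one_smul]
    simp [Wd.fox]
  | cons p l ih =>
    rw [List.cons_append, Wd.fox, Wd.fox, ih, XW_val_cons, XW_el_smul, smul_add, add_assoc]

/-- inverse word -/
private def XW_inv {Z : Type} : List (Z × Bool) → List (Z × Bool)
  | [] => []
  | p :: l => XW_inv l ++ [(p.1, !p.2)]

private theorem XW_val_inv {Z : Type} (nu : Z → H) (l : List (Z × Bool)) :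
    XW_val nu (XW_inv l) = (XW_val nu l)⁻¹ := by
  induction l with
  | nil => simp [XW_inv, XW_val_nil]
  | cons p l ih =>
    rw [XW_inv, XW_val_append, ih, XW_val_cons, XW_val_cons, XW_val_nil, mul_one, _root_.mul_inv_rev]
    congr 1
    rcases p with ⟨z, b⟩
    cases b <;> simp

private theorem XW_fox_single {Z : Type} [DecidableEq Z] (nu : Z → H) (p : Z × Bool) :
    Wd.fox nu [p] = (if p.2 then Pi.single p.1 1 else -Pi.single p.1 (el (nu p.1)⁻¹)) := by
  simp [Wd.fox]

private theorem XW_smul_single {Z : Type} [DecidableEq Z] (a b : MonoidAlgebra ℤ H) (z : Z) :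
    a • (Pi.single z b : Z → MonoidAlgebra ℤ H) = Pi.single z (a * b) := by
  ext1 i
  rw [Pi.smul_apply, smul_eq_mul]
  by_cases h : i = z
  · subst h
    simp
  · rw [Pi.single_eq_of_ne h, Pi.single_eq_of_ne h, mul_zero]

private theorem XW_fox_inv1 {Z : Type} [DecidableEq Z] (nu : Z → H) (p : Z × Bool) :
    Wd.fox nu [(p.1, !p.2)] =
      -((el (if p.2 then nu p.1 else (nu p.1)⁻¹)⁻¹ : MonoidAlgebra ℤ H) • Wd.fox nu [p]) := by
  rcases p with ⟨z, b⟩
  rw [XW_fox_single, XW_fox_single]
  cases b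
  · simp only [Bool.not_false, if_true, Bool.false_eq_true, if_false, inv_inv, smul_neg, neg_neg]
    rw [XW_smul_single, ← el_mul, mul_inv_cancel, el_one]
  · simp only [Bool.not_true, Bool.false_eq_true, if_false, if_true]
    rw [XW_smul_single, mul_one]

private theorem XW_fox_inv {Z : Type} [DecidableEq Z] (nu : Z → H) (l : List (Z × Bool)) :
    Wd.fox nu (XW_inv l) = -((el (XW_val nu l)⁻¹ : MonoidAlgebra ℤ H) • Wd.fox nu l) := by
  induction l with
  | nil => simp [XW_inv, Wd.fox]
  | cons p l ih =>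
    have e1 : p :: l = [p] ++ l := rfl
    rw [XW_inv, XW_fox_append, ih, XW_val_inv, XW_fox_inv1, e1, XW_fox_append, XW_val_append, _root_.mul_inv_rev,
      XW_el_smul]
    have e2 : XW_val nu [p] = if p.2 then nu p.1 else (nu p.1)⁻¹ := by
      rw [XW_val_cons, XW_val_nil, mul_one]
    rw [← e2, smul_add, smul_add, ← XW_el_smul (XW_val nu [p])⁻¹ (XW_val nu [p]), inv_mul_cancel, el_one, one_smul,
      smul_neg]
    abel

/-- fundamental formula -/
private theorem XW_fund {Z : Type} [DecidableEq Z] [Fintype Z] (nu : Z → H) (l : List (Z × Bool)) :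
    ∑ z, Wd.fox nu l z * (el (nu z) - 1) = el (XW_val nu l) - 1 := by
  have hs : ∀ (z0 : Z) (a : MonoidAlgebra ℤ H), ∑ z, (Pi.single z0 a : Z → MonoidAlgebra ℤ H) z * (el (nu z) - 1) =
      a * (el (nu z0) - 1) := by
    intro z0 a
    rw [Finset.sum_eq_single z0]
    · rw [Pi.single_eq_same]
    · intro b _ hb
      rw [Pi.single_eq_of_ne hb, zero_mul]
    · intro h
      exact absurd (Finset.mem_univ _) h
  induction l with
  | nil => simp [Wd.fox, XW_val_nil, el_one]
  | cons p l ih =>
    rcases p with ⟨z, b⟩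
    rw [XW_val_cons]
    have e : ∀ i, Wd.fox nu ((z, b) :: l) i * (el (nu i) - 1) =
        Wd.fox nu [(z, b)] i * (el (nu i) - 1) +
          el (if b then nu z else (nu z)⁻¹) * (Wd.fox nu l i * (el (nu i) - 1)) := by
      intro i
      rw [XW_fox_single, Wd.fox, Pi.add_apply, add_mul, Pi.smul_apply, smul_eq_mul, mul_assoc]
    simp only [e, Finset.sum_add_distrib]
    rw [← Finset.mul_sum, ih]
    simp only [XW_fox_single]
    cases b
    · simp only [Bool.false_eq_true, if_false, Pi.neg_apply, neg_mul, Finset.sum_neg_distrib, hs]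
      rw [el_mul, mul_sub, mul_sub, ← el_mul, inv_mul_cancel, el_one, mul_one]
      abel
    · simp only [if_true, hs]
      rw [el_mul, one_mul, mul_sub, mul_one]
      abel

end words

section words2

variable {H : Type} [Group H] {X : Type} {m : ℕ} [DecidableEq X] (D : DecidableEq (X ⊕ Fin m)) (nu : X → H)

/-- values of the letters -/
private def XW_nu (nu : X → H) (m : ℕ) : X ⊕ Fin m → H := Sum.elim nu (fun _ => 1)

private theorem XW_single_inl (x : X) (a : MonoidAlgebra ℤ H) :
    (Pi.single (Sum.inl x) a : X ⊕ Fin m → MonoidAlgebra ℤ H) = Sum.elim (Pi.single x a) 0 := by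
  ext1 i
  rcases i with i | i
  · by_cases h : i = x
    · subst h
      simp
    · rw [Pi.single_eq_of_ne (by simpa using h)]
      simp [h]
  · rw [Pi.single_eq_of_ne (by simp)]
    rfl

omit [DecidableEq X] in
private theorem XW_single_inr (j : Fin m) (a : MonoidAlgebra ℤ H) :
    (Pi.single (Sum.inr j) a : X ⊕ Fin m → MonoidAlgebra ℤ H) = Sum.elim (0 : X → MonoidAlgebra ℤ H) (Pi.single j a) := by
  ext1 i
  rcases i with i | i
  · rw [Pi.single_eq_of_ne (by simp)]
    rfl
  · by_cases h : i = j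
    · subst h
      simp
    · rw [Pi.single_eq_of_ne (by simpa using h)]
      simp [h]

omit [DecidableEq X] in
private theorem XW_val_inl (l : List (X × Bool)) :
    XW_val (XW_nu nu m) (l.map fun p => (Sum.inl p.1, p.2)) = XW_val nu l := by
  simp [XW_val, XW_nu, Function.comp_def]

private theorem XW_fox_inl (l : List (X × Bool)) :
    Wd.fox (XW_nu nu m) (l.map fun p => (Sum.inl p.1, p.2)) = Sum.elim (Wd.fox nu l) 0 := by
  induction l with
  | nil =>
    simp only [List.map_nil, Wd.fox]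
    ext1 i
    rcases i with i | i <;> rfl
  | cons p l ih =>
    rcases p with ⟨x, b⟩
    rw [List.map_cons, Wd.fox, Wd.fox, ih]
    have e : XW_nu nu m (Sum.inl x) = nu x := rfl
    simp only [e, XW_single_inl]
    cases b
    · simp only [Bool.false_eq_true, if_false]
      ext1 i
      rcases i with i | i
      · rfl
      · show -(0 : MonoidAlgebra ℤ H) + el (nu x)⁻¹ * 0 = 0
        simp
    · simp only [if_true]
      ext1 i
      rcases i with i | i
      · rfl
      · show (0 : MonoidAlgebra ℤ H) + el (nu x) * 0 = 0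
        simp

/-- words with value 1 and given Fox derivatives -/
private theorem XW_exists_one (hs : ∀ g : H, ∃ l : List (X × Bool), XW_val nu l = g) (j : Fin m)
    (a : MonoidAlgebra ℤ H) : ∃ l : List ((X ⊕ Fin m) × Bool), XW_val (XW_nu nu m) l = 1 ∧
      Wd.fox (XW_nu nu m) l = Sum.elim (0 : X → MonoidAlgebra ℤ H) (Pi.single j a) := by
  refine zg_ind (P := fun a => ∃ l : List ((X ⊕ Fin m) × Bool), XW_val (XW_nu nu m) l = 1 ∧
      Wd.fox (XW_nu nu m) l = Sum.elim (0 : X → MonoidAlgebra ℤ H) (Pi.single j a)) ?_ ?_ ?_ ?_ a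
  · refine ⟨[], rfl, ?_⟩
    rw [Wd.fox, Pi.single_zero]
    ext1 i
    rcases i with i | i <;> rfl
  · intro g
    obtain ⟨l0, hl0⟩ := hs g
    refine ⟨(l0.map fun p => (Sum.inl p.1, p.2)) ++ ([(Sum.inr j, true)] ++
      XW_inv (l0.map fun p => (Sum.inl p.1, p.2))), ?_, ?_⟩
    · rw [XW_val_append, XW_val_append, XW_val_inv, XW_val_inl, XW_val_cons, XW_val_nil]
      simp [XW_nu]
    · have e1 : XW_val (XW_nu nu m) [(Sum.inr j, true)] = 1 := by
        rw [XW_val_cons, XW_val_nil]
        simp [XW_nu]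
      rw [XW_fox_append, XW_fox_append, XW_fox_inv, XW_fox_inl, XW_val_inl, hl0, e1, el_one, one_smul,
        smul_add, smul_neg, ← XW_el_smul, mul_inv_cancel, el_one, one_smul, XW_fox_single]
      simp only [if_true]
      rw [XW_smul_single, mul_one, XW_single_inr]
      abel
  · rintro x y ⟨l, h1, h2⟩ ⟨l', h1', h2'⟩
    refine ⟨l ++ l', ?_, ?_⟩
    · rw [XW_val_append, h1, h1', mul_one]
    · rw [XW_fox_append, h1, h2, h2', el_one, one_smul, Pi.single_add]
      ext1 i
      rcases i with i | i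
      · show (0 : MonoidAlgebra ℤ H) + 0 = 0
        simp
      · rfl
  · rintro x ⟨l, h1, h2⟩
    refine ⟨XW_inv l, ?_, ?_⟩
    · rw [XW_val_inv, h1, inv_one]
    · rw [XW_fox_inv, h1, h2, inv_one, el_one, one_smul, Pi.single_neg]
      ext1 i
      rcases i with i | i
      · show -(0 : MonoidAlgebra ℤ H) = 0
        simp
      · rfl

private theorem XW_exists_row (hs : ∀ g : H, ∃ l : List (X × Bool), XW_val nu l = g)
    (b : Fin m → MonoidAlgebra ℤ H) : ∃ l : List ((X ⊕ Fin m) × Bool), XW_val (XW_nu nu m) l = 1 ∧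
      Wd.fox (XW_nu nu m) l = Sum.elim (0 : X → MonoidAlgebra ℤ H) b := by
  have h : ∀ s : Finset (Fin m), ∃ l : List ((X ⊕ Fin m) × Bool), XW_val (XW_nu nu m) l = 1 ∧
      Wd.fox (XW_nu nu m) l = Sum.elim (0 : X → MonoidAlgebra ℤ H) (∑ j ∈ s, Pi.single j (b j)) := by
    intro s
    induction s using Finset.induction_on with
    | empty =>
      refine ⟨[], rfl, ?_⟩
      rw [Wd.fox, Finset.sum_empty]
      ext1 i
      rcases i with i | i <;> rfl
    | insert j s hj ih =>
      obtain ⟨l, h1, h2⟩ := ih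
      obtain ⟨l', h1', h2'⟩ := XW_exists_one D nu hs j (b j)
      refine ⟨l' ++ l, ?_, ?_⟩
      · rw [XW_val_append, h1, h1', mul_one]
      · rw [XW_fox_append, h1', h2, h2', el_one, one_smul, Finset.sum_insert hj]
        ext1 i
        rcases i with i | i
        · show (0 : MonoidAlgebra ℤ H) + 0 = 0
          simp
        · rfl
  obtain ⟨l, h1, h2⟩ := h Finset.univ
  rw [Finset.univ_sum_single] at h2
  exact ⟨l, h1, h2⟩

private theorem XW_exists_row_ne (hX : Nonempty X) (hs : ∀ g : H, ∃ l : List (X × Bool), XW_val nu l = g)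
    (b : Fin m → MonoidAlgebra ℤ H) : ∃ l : List ((X ⊕ Fin m) × Bool), l ≠ [] ∧ XW_val (XW_nu nu m) l = 1 ∧
      Wd.fox (XW_nu nu m) l = Sum.elim (0 : X → MonoidAlgebra ℤ H) b := by
  obtain ⟨x⟩ := hX
  obtain ⟨l, h1, h2⟩ := XW_exists_row D nu hs b
  refine ⟨[(Sum.inl x, true)] ++ ([(Sum.inl x, false)] ++ l), by simp, ?_, ?_⟩
  · rw [XW_val_append, XW_val_append, h1, XW_val_cons, XW_val_cons, XW_val_nil]
    simp
  · have e1 : XW_val (XW_nu nu m) [(Sum.inl x, true)] = nu x := by
      rw [XW_val_cons, XW_val_nil]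
      simp [XW_nu]
    have e2 : XW_val (XW_nu nu m) [(Sum.inl x, false)] = (nu x)⁻¹ := by
      rw [XW_val_cons, XW_val_nil]
      simp [XW_nu]
    have e3 : XW_nu nu m (Sum.inl x) = nu x := rfl
    rw [XW_fox_append, XW_fox_append, e1, e2, h2, smul_add, ← XW_el_smul, mul_inv_cancel, el_one, one_smul,
      XW_fox_single, XW_fox_single]
    simp only [if_true, Bool.false_eq_true, if_false, e3]
    rw [smul_neg, XW_smul_single, ← el_mul, mul_inv_cancel, el_one]
    abel

end words2

section hcok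

variable {H : Type} [Group H]

private theorem XW_vmB {a b c d : Type} [Fintype a] [Fintype b]
    (A : Matrix a c (MonoidAlgebra ℤ H)) (E : Matrix b d (MonoidAlgebra ℤ H))
    (x : a → MonoidAlgebra ℤ H) (y : b → MonoidAlgebra ℤ H) :
    Sum.elim x y ᵥ* fromBlocks A 0 0 E = Sum.elim (x ᵥ* A) (y ᵥ* E) := by
  rw [Matrix.vecMul_fromBlocks, Sum.elim_comp_inl, Sum.elim_comp_inr, Matrix.vecMul_zero, Matrix.vecMul_zero,
    add_zero, zero_add]

private theorem XW_elim_inj {M a b : Type} {c c' : a → M} {r r' : b → M}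
    (h : Sum.elim c r = Sum.elim c' r') : c = c' ∧ r = r' :=
  ⟨by simpa using congrArg (fun f => f ∘ Sum.inl) h, by simpa using congrArg (fun f => f ∘ Sum.inr) h⟩

private theorem XW_hcok {X R : Type} [Fintype X] [Fintype R] {n m : ℕ} (iZ : Fintype (X ⊕ Fin m))
    (iK : Fintype (R ⊕ Fin n)) (nu : X → H) (FX : Matrix R X (MonoidAlgebra ℤ H))
    (A : Matrix (Fin n) (Fin m) (MonoidAlgebra ℤ H)) (f1 : Matrix (X ⊕ Fin m) Unit (MonoidAlgebra ℤ H))
    (hf1 : f1 = Matrix.of fun z _ => el (XW_nu nu m z) - 1)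
    (f2 : Matrix (R ⊕ Fin n) (X ⊕ Fin m) (MonoidAlgebra ℤ H)) (hf2 : f2 = fromBlocks FX 0 0 A)
    (hd : f2 * f1 = 0)
    (hc : ∀ u : MonoidAlgebra ℤ H, eps H u = 0 → ∃ x : X → MonoidAlgebra ℤ H, ∑ z, x z * (el (nu z) - 1) = u)
    (he : ∀ x : X → MonoidAlgebra ℤ H, ∑ z, x z * (el (nu z) - 1) = 0 → ∃ y : R → MonoidAlgebra ℤ H, x = y ᵥ* FX) :
    HCok f1 f2 A := by
  obtain rfl : iZ = instFintypeSum X (Fin m) := Subsingleton.elim _ _
  obtain rfl : iK = instFintypeSum R (Fin n) := Subsingleton.elim _ _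
  have hv : ∀ (c : X → MonoidAlgebra ℤ H) (r : Fin m → MonoidAlgebra ℤ H),
      Sum.elim c r ᵥ* f1 = fun _ => ∑ z, c z * (el (nu z) - 1) := by
    intro c r
    ext1 t
    rw [hf1, Matrix.vecMul, dotProduct, Fintype.sum_sum_type]
    have e : ∑ j : Fin m, r j * ((el (1 : H) : MonoidAlgebra ℤ H) - 1) = 0 := by
      simp [el_one]
    exact (congrArg (fun q => (∑ z, c z * (el (nu z) - 1)) + q) e).trans (add_zero _)
  refine ⟨⟨()⟩, ?_, ?_, hd, ?_⟩
  · intro e
    rw [hf1]
    simp only [Matrix.of_apply, map_sub, map_one]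
    simp [eps_el]
  · intro u hu
    obtain ⟨x, hx⟩ := hc (u ()) (by simpa using hu)
    refine ⟨Sum.elim x 0, ?_⟩
    rw [hv, hx]
  · refine ⟨fromCols 0 1, ?_, ?_, ?_⟩
    · ext j t
      have h1 : (fromCols (0 : Matrix (Fin m) X (MonoidAlgebra ℤ H)) (1 : Matrix (Fin m) (Fin m) (MonoidAlgebra ℤ H)) * f1) j =
          (Sum.elim 0 ((1 : Matrix (Fin m) (Fin m) (MonoidAlgebra ℤ H)) j)) ᵥ* f1 := by
        rw [Matrix.mul_apply_eq_vecMul]
        congr 1
      rw [h1, hv]
      simp
    · intro u hu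
      obtain ⟨c, r, rfl⟩ : ∃ c r, u = Sum.elim c r := ⟨u ∘ Sum.inl, u ∘ Sum.inr, (Sum.elim_comp_inl_inr u).symm⟩
      rw [hv] at hu
      obtain ⟨y, hy⟩ := he c (congrFun hu ())
      refine ⟨r, Sum.elim y 0, ?_⟩
      rw [Matrix.vecMul_fromCols, hf2, XW_vmB, ← hy, Matrix.vecMul_zero, Matrix.vecMul_one, Matrix.zero_vecMul]
      ext1 i
      rcases i with i | i
      · show c i = 0 + c i
        rw [zero_add]
      · show r i = r i + 0
        rw [add_zero]
    · intro v
      rw [Matrix.vecMul_fromCols, Matrix.vecMul_zero, Matrix.vecMul_one, hf2]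
      constructor
      · rintro ⟨x, hx⟩
        obtain ⟨c, r, rfl⟩ : ∃ c r, x = Sum.elim c r := ⟨x ∘ Sum.inl, x ∘ Sum.inr, (Sum.elim_comp_inl_inr x).symm⟩
        rw [XW_vmB] at hx
        exact ⟨r, (XW_elim_inj hx).2⟩
      · rintro ⟨y, hy⟩
        refine ⟨Sum.elim 0 y, ?_⟩
        rw [XW_vmB, Matrix.zero_vecMul, hy]

end hcok

private theorem XW_dd {H : Type} [Group H] (T : Wd H) : T.f2 * T.f1 = 0 := by
  refine Matrix.ext fun k t => ?_
  rw [Matrix.mul_apply]
  show ∑ z, Wd.fox T.nu (T.wd k) z * (el (T.nu z) - 1) = 0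
  rw [XW_fund]
  have : XW_val T.nu (T.wd k) = 1 := T.val k
  rw [this, el_one, sub_self]

theorem exists_wd {H : Type} [Group H] (hfp : Group.IsFinitelyPresented H) {n m : ℕ}
    (A : Matrix (Fin n) (Fin m) (MonoidAlgebra ℤ H)) : ∃ T : Wd H, HCok T.f1 T.f2 A := by
  classical
  obtain ⟨X, R, fX, fR, nu, wd, hne, hs, hk, hS⟩ := exists_pres hfp {1} (Set.finite_singleton 1)
  have iX : Fintype X := Fintype.ofFinite X
  have iR : Fintype R := Fintype.ofFinite R
  have hX : Nonempty X := by
    obtain ⟨x, _⟩ := hS 1 rfl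
    exact ⟨x⟩
  have hmk : ∀ l : List (X × Bool), FreeGroup.lift nu (FreeGroup.mk l) = XW_val nu l := by
    intro l
    rw [FreeGroup.lift_mk, XW_val]
    congr 1
    refine List.map_congr_left fun p _ => ?_
    rcases p with ⟨z, b⟩
    cases b <;> rfl
  have hsur : ∀ g : H, ∃ l : List (X × Bool), XW_val nu l = g := by
    intro g
    obtain ⟨w, hw⟩ := hs g
    refine ⟨w.toWord, ?_⟩
    rw [← hmk, FreeGroup.mk_toWord, hw]
  obtain ⟨hc, he⟩ := fox_exact nu wd hs hk
  have D : DecidableEq (X ⊕ Fin m) := Classical.decEq _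
  choose wA hwA1 hwA2 hwA3 using fun k : Fin n => XW_exists_row_ne (Classical.decEq (X ⊕ Fin m)) nu hX hsur (A k)
  have hval : ∀ r, XW_val nu (wd r) = 1 := by
    intro r
    rw [← hmk]
    have : FreeGroup.mk (wd r) ∈ (FreeGroup.lift nu).ker := by
      rw [hk]
      exact Subgroup.subset_normalClosure ⟨r, rfl⟩
    exact this
  let T : Wd H :=
    { Z := X ⊕ Fin m
      Kk := R ⊕ Fin n
      finZ := inferInstance
      finK := inferInstance
      nu := XW_nu nu m
      wd := Sum.elim (fun r => (wd r).map fun p => (Sum.inl p.1, p.2)) wA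
      ne := by
        rintro (r | k)
        · simpa using hne r
        · exact hwA1 k
      val := by
        rintro (r | k)
        · exact (XW_val_inl nu (wd r)).trans (hval r)
        · exact hwA2 k }
  have hf2 : T.f2 = fromBlocks (Matrix.of fun r => Wd.fox nu (wd r)) 0 0 A := by
    funext k
    rcases k with r | k
    · exact XW_fox_inl (Classical.decEq (X ⊕ Fin m)) nu (wd r)
    · exact hwA3 k
  refine ⟨T, ?_⟩
  refine XW_hcok _ _ nu (Matrix.of fun r => Wd.fox nu (wd r)) A T.f1 rfl T.f2 hf2 (XW_dd T) hc ?_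
  intro x hx
  obtain ⟨y, hy⟩ := (he x).1 hx
  exact ⟨y, hy⟩

end NBT
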