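import Pool.Agent.Lib.MP_83fbc5_gt.XDefs

/-!
# MP_83fbc5_gt, XWord: the closed walks given by words

`Wd H`: a finite alphabet `Z` with values `nu` in `H` and finitely many nonempty words with value `1`. The base graph has one vertex orbit `none`, and for each letter `z` a subdivided edge: `(z, false)` from `(1, none)` to `(1, some z)` and
`(z, true)` from `(1, some z)` to `(nu z, none)`. The positions of the walk of the word `k` are `(i, b)`, `i < length`, `b = false` for the first half of the letter number `i`, `b = true` for the second half.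
`pre k i`: the value of the first `i` letters.
-/

set_option autoImplicit false

namespace NBT

open Matrix

structure Wd (H : Type) [Group H] where
  Z : Type
  Kk : Type
  finZ : Finite Z
  finK : Finite Kk
  nu : Z → H
  wd : Kk → List (Z × Bool)
  ne : ∀ k, wd k ≠ []
  val : ∀ k, ((wd k).map fun p => if p.2 then nu p.1 else (nu p.1)⁻¹).prod = 1

attribute [instance] Wd.finZ Wd.finK

namespace Wd

variable {H : Type} [Group H] (T : Wd H)

noncomputable instance : Fintype T.Z := Fintype.ofFinite _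

noncomputable instance : Fintype T.Kk := Fintype.ofFinite _

noncomputable instance : DecidableEq T.Z := Classical.decEq _

/-- value of a letter -/
def vl (p : T.Z × Bool) : H := if p.2 then T.nu p.1 else (T.nu p.1)⁻¹

/-- value of the first letters -/
def pre (k : T.Kk) (i : ℕ) : H := (((T.wd k).take i).map T.vl).prod

theorem pre_zero (k : T.Kk) : T.pre k 0 = 1 := by simp [pre]

theorem pre_succ (k : T.Kk) (i : ℕ) (h : i < (T.wd k).length) : T.pre k (i + 1) = T.pre k i * T.vl ((T.wd k)[i]) := by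
  unfold pre
  rw [List.take_succ_eq_append_getElem h, List.map_append, List.prod_append]
  simp

theorem pre_len (k : T.Kk) : T.pre k (T.wd k).length = 1 := by
  unfold pre
  rw [List.take_length]
  exact T.val k

theorem len_pos (k : T.Kk) : 0 < (T.wd k).length := List.length_pos_iff.2 (T.ne k)

/-- positions -/
abbrev Pos : Type := (k : T.Kk) × (Fin (T.wd k).length × Bool)

/-- cyclic successor of an index -/
def suc (k : T.Kk) (i : Fin (T.wd k).length) : Fin (T.wd k).length :=
  ⟨(i + 1) % (T.wd k).length, Nat.mod_lt _ (T.len_pos k)⟩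

/-- cyclic predecessor of an index -/
def prd (k : T.Kk) (i : Fin (T.wd k).length) : Fin (T.wd k).length :=
  ⟨(i + ((T.wd k).length - 1)) % (T.wd k).length, Nat.mod_lt _ (T.len_pos k)⟩

theorem suc_prd (k : T.Kk) (i : Fin (T.wd k).length) : T.suc k (T.prd k i) = i := by
  apply Fin.ext
  have h := T.len_pos k
  show ((i + ((T.wd k).length - 1)) % (T.wd k).length + 1) % (T.wd k).length = i
  rw [Nat.mod_add_mod]
  have e : (i : ℕ) + ((T.wd k).length - 1) + 1 = i + (T.wd k).length := by omega
  rw [e, Nat.add_mod_right, Nat.mod_eq_of_lt i.2]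

theorem prd_suc (k : T.Kk) (i : Fin (T.wd k).length) : T.prd k (T.suc k i) = i := by
  apply Fin.ext
  have h := T.len_pos k
  show ((i + 1) % (T.wd k).length + ((T.wd k).length - 1)) % (T.wd k).length = i
  rw [Nat.mod_add_mod]
  have e : (i : ℕ) + 1 + ((T.wd k).length - 1) = i + (T.wd k).length := by omega
  rw [e, Nat.add_mod_right, Nat.mod_eq_of_lt i.2]

/-- the next position -/
def nxt : T.Pos → T.Pos
  | ⟨k, i, false⟩ => ⟨k, i, true⟩
  | ⟨k, i, true⟩ => ⟨k, T.suc k i, false⟩

/-- the previous position -/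
def prv : T.Pos → T.Pos
  | ⟨k, i, false⟩ => ⟨k, T.prd k i, true⟩
  | ⟨k, i, true⟩ => ⟨k, i, false⟩

/-- the letter of a position -/
def lt (w : T.Pos) : T.Z × Bool := (T.wd w.1)[w.2.1]

def we : T.Pos → T.Z × Bool := fun w => ((T.lt w).1, if (T.lt w).2 then w.2.2 else !w.2.2)

def ws : T.Pos → Bool := fun w => (T.lt w).2

def wg : T.Pos → H := fun w =>
  if (T.lt w).2 then T.pre w.1 w.2.1 else T.pre w.1 w.2.1 * (T.nu (T.lt w).1)⁻¹

def e0 : T.Z × Bool → Option T.Z := fun e => if e.2 then some e.1 else none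

def e1 : T.Z × Bool → Option T.Z := fun e => if e.2 then none else some e.1

def h1 : T.Z × Bool → H := fun e => if e.2 then T.nu e.1 else 1

/-- group element of the starting point of a position -/
def sg (w : T.Pos) : H :=
  if w.2.2 then (if (T.lt w).2 then T.pre w.1 w.2.1 else T.pre w.1 w.2.1 * (T.nu (T.lt w).1)⁻¹) else T.pre w.1 w.2.1

theorem st_eq (w : T.Pos) : (if T.ws w then T.e0 (T.we w) else T.e1 (T.we w)) =
    if w.2.2 then some (T.lt w).1 else none := by
  obtain ⟨k, i, b⟩ := w
  simp only [ws, e0, e1, we]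
  cases h : (T.lt ⟨k, i, b⟩).2 <;> cases b <;> simp

theorem sg_eq (w : T.Pos) : T.wg w * (if T.ws w then 1 else T.h1 (T.we w)) = T.sg w := by
  obtain ⟨k, i, b⟩ := w
  simp only [ws, h1, we, wg, sg]
  cases h : (T.lt ⟨k, i, b⟩).2 <;> cases b <;> simp

theorem pre_suc (k : T.Kk) (i : Fin (T.wd k).length) : T.pre k (T.suc k i) = T.pre k (i + 1) := by
  show T.pre k ((i + 1) % (T.wd k).length) = _
  by_cases h : (i : ℕ) + 1 < (T.wd k).length
  · rw [Nat.mod_eq_of_lt h]
  · have e : (i : ℕ) + 1 = (T.wd k).length := by omega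
    rw [e, Nat.mod_self, pre_zero, pre_len]

theorem glue' (w : T.Pos) : (if T.ws w then T.e1 (T.we w) else T.e0 (T.we w)) =
    if T.ws (T.nxt w) then T.e0 (T.we (T.nxt w)) else T.e1 (T.we (T.nxt w)) := by
  rw [st_eq]
  obtain ⟨k, i, b⟩ := w
  cases b
  · have e : T.lt (T.nxt ⟨k, i, false⟩) = T.lt ⟨k, i, false⟩ := rfl
    rw [e]
    simp only [ws, e0, e1, we, nxt]
    cases h : (T.lt ⟨k, i, false⟩).2 <;> simp
  · simp only [ws, e0, e1, we, nxt]
    cases h : (T.lt ⟨k, i, true⟩).2 <;> simp

theorem glue_v' (w : T.Pos) : T.wg w * (if T.ws w then T.h1 (T.we w) else 1) =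
    T.wg (T.nxt w) * if T.ws (T.nxt w) then 1 else T.h1 (T.we (T.nxt w)) := by
  rw [sg_eq]
  obtain ⟨k, i, b⟩ := w
  cases b
  · have e : T.lt (T.nxt ⟨k, i, false⟩) = T.lt ⟨k, i, false⟩ := rfl
    simp only [sg, e]
    simp only [ws, h1, we, wg, nxt]
    cases h : (T.lt ⟨k, i, false⟩).2 <;> simp
  · have e : T.sg (T.nxt ⟨k, i, true⟩) = T.pre k (i + 1) := T.pre_suc k i
    rw [e, T.pre_succ k i i.2]
    have e2 : T.lt ⟨k, i, true⟩ = (T.wd k)[i] := rfl
    simp only [ws, h1, we, wg, vl]
    rw [e2]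
    show _ = T.pre k ↑i * if ((T.wd k)[i]).2 = true then T.nu ((T.wd k)[i]).1 else (T.nu ((T.wd k)[i]).1)⁻¹
    cases h : ((T.wd k)[i]).2 <;> simp

theorem trans' (P : T.Pos → Prop) (hP : ∀ w, P w → P (T.nxt w)) (w w' : T.Pos) (hk : w.1 = w'.1) (h : P w) : P w' := by
  obtain ⟨k, i, b⟩ := w
  obtain ⟨k', i', b'⟩ := w'
  simp only at hk
  subst hk
  -- reach the first half of the next letter
  have h1 : ∀ i b, P ⟨k, i, b⟩ → P ⟨k, T.suc k i, false⟩ := by
    intro i b h
    cases b
    · exact hP _ (hP _ h)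
    · exact hP _ h
  have h2 : ∀ (n : ℕ) (i : Fin (T.wd k).length), P ⟨k, i, false⟩ →
      P ⟨k, ⟨(i + n) % (T.wd k).length, Nat.mod_lt _ (T.len_pos k)⟩, false⟩ := by
    intro n
    induction n with
    | zero =>
      intro i h
      have e : (⟨(i + 0) % (T.wd k).length, Nat.mod_lt _ (T.len_pos k)⟩ : Fin (T.wd k).length) = i :=
        Fin.ext (by show ((i : ℕ) + 0) % _ = _; rw [add_zero, Nat.mod_eq_of_lt i.2])
      rw [e]
      exact h
    | succ n ih =>
      intro i h
      have h3 := h1 _ _ (ih i h)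
      have e : T.suc k ⟨(i + n) % (T.wd k).length, Nat.mod_lt _ (T.len_pos k)⟩ =
          ⟨(i + (n + 1)) % (T.wd k).length, Nat.mod_lt _ (T.len_pos k)⟩ :=
        Fin.ext (by show ((i + n) % _ + 1) % _ = _; rw [Nat.mod_add_mod, add_assoc])
      rw [e] at h3
      exact h3
  have h3 := h2 ((T.wd k).length - (T.suc k i : ℕ) + i') _ (h1 i b h)
  have e : (⟨(T.suc k i + ((T.wd k).length - (T.suc k i : ℕ) + i')) % (T.wd k).length,
      Nat.mod_lt _ (T.len_pos k)⟩ : Fin (T.wd k).length) = i' :=
    Fin.ext (by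
      have hl := (T.suc k i).2
      show ((T.suc k i : ℕ) + ((T.wd k).length - (T.suc k i : ℕ) + i')) % _ = _
      have : (T.suc k i : ℕ) + ((T.wd k).length - (T.suc k i : ℕ) + i') = i' + (T.wd k).length := by omega
      rw [this, Nat.add_mod_right, Nat.mod_eq_of_lt i'.2])
  rw [e] at h3
  cases b'
  · exact h3
  · exact hP _ h3

/-- the closed walks of the words -/
def wk : Wk H where
  V := Option T.Z
  E := T.Z × Bool
  W := T.Pos
  Kk := T.Kk
  finV := inferInstance
  finE := inferInstance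
  finW := inferInstance
  finK := inferInstance
  e0 := T.e0
  e1 := T.e1
  h0 := fun _ => 1
  h1 := T.h1
  ne := by
    rintro ⟨z, b⟩
    cases b <;> simp [e0, e1]
  kk := Sigma.fst
  nw :=
    { toFun := T.nxt
      invFun := T.prv
      left_inv := by
        rintro ⟨k, i, b⟩
        cases b
        · rfl
        · simp [nxt, prv, prd_suc]
      right_inv := by
        rintro ⟨k, i, b⟩
        cases b
        · simp [nxt, prv, suc_prd]
        · rfl }
  kk_nw := by
    rintro ⟨k, i, b⟩
    cases b <;> rfl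
  kk_surj := fun k => ⟨⟨k, ⟨0, T.len_pos k⟩, false⟩, rfl⟩
  trans := T.trans'
  nw_ne := by
    rintro ⟨k, i, b⟩ h
    cases b
    · have := congrArg (fun w : T.Pos => w.2.2) h
      simp [nxt] at this
    · have := congrArg (fun w : T.Pos => w.2.2) h
      simp [nxt] at this
  we := T.we
  wg := T.wg
  ws := T.ws
  glue := T.glue'
  glue_v := T.glue_v'

/-- the boundary of the letters, `z ↦ nu z - 1` -/
noncomputable def f1 : Matrix T.Z Unit (MonoidAlgebra ℤ H) := Matrix.of fun z _ => el (T.nu z) - 1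

/-- the Fox derivatives of a word (row vector) -/
noncomputable def fox {H Z : Type} [Group H] [DecidableEq Z] (nu : Z → H) : List (Z × Bool) → Z → MonoidAlgebra ℤ H
  | [] => 0
  | p :: l => (if p.2 then Pi.single p.1 1 else -Pi.single p.1 (el (nu p.1)⁻¹)) +
      el (if p.2 then nu p.1 else (nu p.1)⁻¹) • fox nu l

/-- the Fox matrix -/
noncomputable def f2 : Matrix T.Kk T.Z (MonoidAlgebra ℤ H) := Matrix.of fun k => fox T.nu (T.wd k)

end Wd

end NBT
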