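import Pool.Agent.Lib.MP_83fbc5_gt.BET

/-!
# MP_83fbc5_gt, module YI1: comparison of resolutions

PROOF. `exists_map`: rows one after another. `f 0`: for `i` the augmentation value `R.aug i` is an integer; take `R.aug i • u` with `u` from `R'.surj`. Step: the row `i` of `R.d n * f n` is a cycle of `R'` (for `n = 0` it has augmentation 0: `∑ eps (R.d 0 i j) * aug j = 0` by `R.exact0` applied to the row), so it is `v ᵥ* R'.d n`; this is the row `i` of `f (n+1)`.
(Recursion: `Nat.rec` on the subtype of matrices `f n` for which all rows of `R.d n * f n` are boundaries of `R'`.)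
`null_homotopic`: the same with `S 0`: the row `i` of `h 0` has augmentation 0 (hypothesis), so it is `v ᵥ* R.d 0`; row `i` of `h (n+1) - R.d n * S n` is a cycle: `(h (n+1) - d n * S n) * d n = d n * h n - d n * (h n - d (n-1) * S (n-1)) = 0` (`dd`). See the proof of `central_homotopy` in module `CEN1` (on main), which is the case `h n = scal (1 - el t)`.
(60-80 minutes)
-/

set_option autoImplicit false

namespace NBT

open Matrix

private theorem YI1_lift {H : Type} [Group H] {D : ℕ} (R : FFR H D) (n : ℕ) {m : Type}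
    (M : Matrix m (R.ι (n + 1)) (MonoidAlgebra ℤ H)) (hM : M * R.d n = 0) :
    ∃ T : Matrix m (R.ι (n + 1 + 1)) (MonoidAlgebra ℤ H), T * R.d (n + 1) = M := by
  have h : ∀ i, ∃ v, v ᵥ* R.d (n + 1) = M i := by
    intro i
    rw [← R.exact n (M i)]
    have := congrFun hM i
    rw [Matrix.mul_apply_eq_vecMul] at this
    exact this
  choose v hv using h
  refine ⟨Matrix.of v, ?_⟩
  funext i
  rw [Matrix.mul_apply_eq_vecMul]
  exact hv i

private theorem YI1_lift0 {H : Type} [Group H] {D : ℕ} (R : FFR H D) {m : Type}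
    (M : Matrix m (R.ι 0) (MonoidAlgebra ℤ H)) (hM : ∀ i, ∑ j, eps H (M i j) * R.aug j = 0) :
    ∃ T : Matrix m (R.ι (0 + 1)) (MonoidAlgebra ℤ H), T * R.d 0 = M := by
  have h : ∀ i, ∃ v, v ᵥ* R.d 0 = M i := fun i => (R.exact0 (M i)).mp (hM i)
  choose v hv using h
  refine ⟨Matrix.of v, ?_⟩
  funext i
  rw [Matrix.mul_apply_eq_vecMul]
  exact hv i

private theorem YI1_row {H : Type} [Group H] {D : ℕ} (R : FFR H D) (i : R.ι 1) :
    ∑ k, eps H (R.d 0 i k) * R.aug k = 0 := by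
  classical
  exact (R.exact0 (R.d 0 i)).mpr ⟨Pi.single i 1, by rw [Matrix.single_one_vecMul]; rfl⟩

theorem exists_map {G : Type} [Group G] {D D' : ℕ} (R : FFR G D) (R' : FFR G D') :
    ∃ f : ∀ n, Matrix (R.ι n) (R'.ι n) (MonoidAlgebra ℤ G),
      (∀ i, ∑ j, eps G (f 0 i j) * R'.aug j = R.aug i) ∧ ∀ n, R.d n * f n = f (n + 1) * R'.d n := by
  classical
  obtain ⟨u, hu⟩ := R'.surj
  let f0 : Matrix (R.ι 0) (R'.ι 0) (MonoidAlgebra ℤ G) := Matrix.of fun i j => R.aug i • u j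
  have hf0 : ∀ i, ∑ j, eps G (f0 i j) * R'.aug j = R.aug i := by
    intro i
    have e : ∀ j, eps G (f0 i j) * R'.aug j = R.aug i * (eps G (u j) * R'.aug j) := by
      intro j
      show eps G (R.aug i • u j) * R'.aug j = _
      rw [map_zsmul, smul_eq_mul, mul_assoc]
    rw [Finset.sum_congr rfl fun j _ => e j, ← Finset.mul_sum, hu, mul_one]
  let Q : ∀ n, Matrix (R.ι n) (R'.ι n) (MonoidAlgebra ℤ G) → Prop :=
    fun n g => ∃ T : Matrix (R.ι (n + 1)) (R'.ι (n + 1)) (MonoidAlgebra ℤ G), R.d n * g = T * R'.d n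
  have h0 : Q 0 f0 := by
    obtain ⟨T, hT⟩ := YI1_lift0 R' (R.d 0 * f0) (fun i => by
      have e : ∀ j, eps G ((R.d 0 * f0) i j) * R'.aug j =
          ∑ k, eps G (R.d 0 i k) * (eps G (f0 k j) * R'.aug j) := by
        intro j
        rw [Matrix.mul_apply, map_sum, Finset.sum_mul]
        refine Finset.sum_congr rfl fun k _ => ?_
        rw [map_mul, mul_assoc]
      rw [Finset.sum_congr rfl fun j _ => e j, Finset.sum_comm]
      have e2 : ∀ k, ∑ j, eps G (R.d 0 i k) * (eps G (f0 k j) * R'.aug j) =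
          eps G (R.d 0 i k) * R.aug k := by
        intro k
        rw [← Finset.mul_sum, hf0 k]
      rw [Finset.sum_congr rfl fun k _ => e2 k]
      exact YI1_row R i)
    exact ⟨T, hT.symm⟩
  have step : ∀ n (g : Matrix (R.ι n) (R'.ι n) (MonoidAlgebra ℤ G)), Q n g →
      ∃ T : Matrix (R.ι (n + 1)) (R'.ι (n + 1)) (MonoidAlgebra ℤ G), Q (n + 1) T ∧
        R.d n * g = T * R'.d n := by
    rintro n g ⟨T, hT⟩
    obtain ⟨T', hT'⟩ := YI1_lift R' n (R.d (n + 1) * T) (by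
      rw [Matrix.mul_assoc, ← hT, ← Matrix.mul_assoc, dd, Matrix.zero_mul])
    exact ⟨T, ⟨T', hT'.symm⟩, hT⟩
  choose f hf1 hf2 using step
  let F : ∀ n, {g : Matrix (R.ι n) (R'.ι n) (MonoidAlgebra ℤ G) // Q n g} :=
    fun n => Nat.rec ⟨f0, h0⟩ (fun n g => ⟨f n g.1 g.2, hf1 n g.1 g.2⟩) n
  exact ⟨fun n => (F n).1, hf0, fun n => hf2 n (F n).1 (F n).2⟩

theorem null_homotopic {G : Type} [Group G] {D : ℕ} (R : FFR G D)
    (h : ∀ n, Matrix (R.ι n) (R.ι n) (MonoidAlgebra ℤ G)) (h0 : ∀ i, ∑ j, eps G (h 0 i j) * R.aug j = 0)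
    (hd : ∀ n, R.d n * h n = h (n + 1) * R.d n) :
    ∃ S : ∀ n, Matrix (R.ι n) (R.ι (n + 1)) (MonoidAlgebra ℤ G), h 0 = S 0 * R.d 0 ∧
      ∀ n, h (n + 1) = R.d n * S n + S (n + 1) * R.d (n + 1) := by
  obtain ⟨S0, hS0⟩ := YI1_lift0 R (h 0) h0
  let P : ∀ n, Matrix (R.ι n) (R.ι (n + 1)) (MonoidAlgebra ℤ G) → Prop :=
    fun n S => R.d n * (h n - S * R.d n) = 0
  have step : ∀ n (S : Matrix (R.ι n) (R.ι (n + 1)) (MonoidAlgebra ℤ G)), P n S →
      ∃ S' : Matrix (R.ι (n + 1)) (R.ι (n + 1 + 1)) (MonoidAlgebra ℤ G), P (n + 1) S' ∧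
        h (n + 1) = R.d n * S + S' * R.d (n + 1) := by
    intro n S hS
    obtain ⟨T, hT⟩ := YI1_lift R n (h (n + 1) - R.d n * S) (by
      rw [Matrix.sub_mul, ← hd, Matrix.mul_assoc, ← Matrix.mul_sub]
      exact hS)
    refine ⟨T, ?_, ?_⟩
    · show R.d (n + 1) * (h (n + 1) - T * R.d (n + 1)) = 0
      rw [hT, sub_sub_cancel, ← Matrix.mul_assoc, dd, Matrix.zero_mul]
    · rw [hT]
      abel
  have hP0 : P 0 S0 := by
    show R.d 0 * (h 0 - S0 * R.d 0) = 0
    rw [hS0, sub_self, Matrix.mul_zero]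
  choose f hf1 hf2 using step
  let F : ∀ n, {S : Matrix (R.ι n) (R.ι (n + 1)) (MonoidAlgebra ℤ G) // P n S} :=
    fun n => Nat.rec ⟨S0, hP0⟩ (fun n S => ⟨f n S.1 S.2, hf1 n S.1 S.2⟩) n
  refine ⟨fun n => (F n).1, hS0.symm, fun n => ?_⟩
  exact hf2 n (F n).1 (F n).2

end NBT
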