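import Pool.Agent.Lib.MP_83fbc5_gt.YS
import Pool.Agent.Lib.MP_83fbc5_gt.RESG
import Pool.Agent.Lib.MP_83fbc5_gt.EST

/-!
# MP_83fbc5_gt, YR: the resolution of `RA ⋊ H`, all degrees (assembly)
-/

set_option autoImplicit false

namespace NBT

open Matrix Module RaagIso

universe w

theorem res_all (F : Type w) [Field F] {H : Type} [Group H] (L : VG H) {D : ℕ} (hD : 3 ≤ D) (R : FFR H D) :
    ∃ T : FFR L.GG D, ∀ (N : Subgroup L.GG) [N.Normal] [N.FiniteIndex] (n : ℕ),
      |(betti F T N n : ℤ) - kb F N L.K2 L.K3 n| ≤ bP F N R.ι (fun n => (R.d n).map (ind L.iH)) n +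
        bP F N R.ι (fun n => (R.d n).map (ind L.iH)) (n - 1) := by
  have hinj : Function.Injective L.iH := SemidirectProduct.inr_injective
  have hπ : ∀ g g' : L.GG, g.left = g'.left ↔ ∃ h : H, g' = g * L.iH h := L.left_iff
  have hπs : Function.Surjective (SemidirectProduct.left : L.GG → RA L.gr) := fun a => ⟨⟨a, 1⟩, rfl⟩
  have heps : ∀ x : MonoidAlgebra ℤ H, eps L.GG (ind L.iH x) = eps H x := by
    intro x
    refine zg_ind (P := fun x => eps L.GG (ind L.iH x) = eps H x) ?_ ?_ ?_ ?_ x
    · simp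
    · intro h
      rw [ind_el, eps_el, eps_el]
    · intro x y hx hy
      rw [map_add, map_add, map_add, hx, hy]
    · intro x hx
      rw [map_neg, map_neg, map_neg, hx]
  exact splice_all F hD L.aM L.K2 L.K3 (AddMonoidHom.mk' L.eK L.eK_add) L.eK_smul augM L.K_exact0 L.K_exact1
    L.K_exact2 L.K_exact3 R.ι R.len (fun n => (R.d n).map (ind L.iH)) R.aug
    (AddMonoidHom.mk' (eP (SemidirectProduct.left : L.GG → RA L.gr) R.aug) (eP_add _ _)) (L.eP_smul R.aug)
    (ind_surj L.iH _ hπs hπ R.aug R.surj) (augM_eP _ _)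
    (by
      obtain ⟨u, hu⟩ := R.surj
      exact ⟨fun i => ind L.iH (u i), by simpa only [heps] using hu⟩)
    (ind_exact0 L.iH hinj _ hπ R.aug (R.d 0) R.exact0)
    (fun n => ind_exact L.iH hinj (R.d n) (R.d (n + 1)) (R.exact n))

theorem yr_fi {H G : Type} [Group H] [Group G] (f : H →* G) (N : Subgroup G) [N.FiniteIndex] :
    (N.comap f).FiniteIndex := by
  refine ⟨?_⟩
  rw [Subgroup.index_comap]
  exact (inferInstance : (N.subgroupOf f.range).FiniteIndex).index_ne_zero

/-- the Betti number of the induced resolution is small -/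
theorem yr_P (F : Type w) [Field F] {H : Type} [Group H] (t : H) (ht : ∀ h, h * t = t * h) (L : VG H) {D : ℕ}
    (R : FFR H D) (N : Subgroup L.GG) [N.Normal] [N.FiniteIndex] (k : ℕ)
    (hk : k ≤ orderOf (QuotientGroup.mk t : H ⧸ N.comap L.iH)) (n : ℕ) :
    (k : ℤ) * (Fintype.card (R.ι (n + 1)) * N.index - rk F N ((R.d n).map (ind L.iH)) -
      rk F N ((R.d (n + 1)).map (ind L.iH))) ≤ Fintype.card (R.ι (n + 1)) * N.index := by
  have hfi := yr_fi L.iH N
  have h1 := rk_ind F L.iH N (R.d n)
  have h2 := rk_ind F L.iH N (R.d (n + 1))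
  have h3 := betti_succ F R (N.comap L.iH) n
  have h4 := betti_central F R t ht (N.comap L.iH) (n + 1)
  have h5 : k * betti F R (N.comap L.iH) (n + 1) ≤ Fintype.card (R.ι (n + 1)) * (N.comap L.iH).index :=
    (Nat.mul_le_mul_right _ hk).trans h4
  have hpos : 0 < (N.comap L.iH).index := Nat.pos_of_ne_zero Subgroup.FiniteIndex.index_ne_zero
  set q1 := rk F N ((R.d n).map (ind L.iH))
  set q2 := rk F N ((R.d (n + 1)).map (ind L.iH))
  set b := betti F R (N.comap L.iH) (n + 1)
  set r1 := rk F (N.comap L.iH) (R.d n)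
  set r2 := rk F (N.comap L.iH) (R.d (n + 1))
  set I' := (N.comap L.iH).index
  set c := Fintype.card (R.ι (n + 1))
  zify at h1 h2 h3 h5 hpos
  have e : ((c : ℤ) * N.index - q1 - q2) * I' = b * N.index := by
    have e1 : ((c : ℤ) * N.index - q1 - q2) * I' = N.index * (c * I') - q1 * I' - q2 * I' := by ring
    rw [e1, h1, h2, ← h3]
    ring
  have e2 : ((k : ℤ) * (c * N.index - q1 - q2)) * I' ≤ (c * N.index) * I' := by
    rw [mul_assoc, e]
    have h6 : (k : ℤ) * b * N.index ≤ c * I' * N.index :=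
      mul_le_mul_of_nonneg_right h5 (Nat.cast_nonneg _)
    calc (k : ℤ) * (b * N.index) = k * b * N.index := by ring
      _ ≤ c * I' * N.index := h6
      _ = c * N.index * I' := by ring
  exact le_of_mul_le_mul_right e2 hpos

/-- the Betti numbers of the induced resolution are small -/
theorem bP_small (F : Type w) [Field F] {H : Type} [Group H] (t : H) (ht : ∀ h, h * t = t * h) (L : VG H) {D : ℕ}
    (R : FFR H D) (N : Subgroup L.GG) [N.Normal] [N.FiniteIndex] (k : ℕ)
    (hk : k ≤ orderOf (QuotientGroup.mk t : H ⧸ N.comap L.iH)) (n : ℕ) :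
    (k : ℤ) * bP F N R.ι (fun n => (R.d n).map (ind L.iH)) n ≤ Fintype.card (R.ι n) * N.index := by
  cases n with
  | succ n => exact yr_P F t ht L R N k hk n
  | zero =>
    have hfi := yr_fi L.iH N
    have h1 := rk_ind F L.iH N (R.d 0)
    have h3 := betti_zero F R (N.comap L.iH)
    have h4 := betti_central F R t ht (N.comap L.iH) 0
    have h5 : k * betti F R (N.comap L.iH) 0 ≤ Fintype.card (R.ι 0) * (N.comap L.iH).index :=
      (Nat.mul_le_mul_right _ hk).trans h4
    have hpos : 0 < (N.comap L.iH).index := Nat.pos_of_ne_zero Subgroup.FiniteIndex.index_ne_zero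
    show (k : ℤ) * (Fintype.card (R.ι 0) * N.index - rk F N ((R.d 0).map (ind L.iH))) ≤ _
    set q1 := rk F N ((R.d 0).map (ind L.iH))
    set b := betti F R (N.comap L.iH) 0
    set r1 := rk F (N.comap L.iH) (R.d 0)
    set I' := (N.comap L.iH).index
    set c := Fintype.card (R.ι 0)
    zify at h1 h3 h5 hpos
    have e : ((c : ℤ) * N.index - q1) * I' = b * N.index := by
      have e1 : ((c : ℤ) * N.index - q1) * I' = N.index * (c * I') - q1 * I' := by ring
      rw [e1, h1, ← h3]
      ring
    have e2 : ((k : ℤ) * (c * N.index - q1)) * I' ≤ (c * N.index) * I' := by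
      rw [mul_assoc, e]
      have h6 : (k : ℤ) * b * N.index ≤ c * I' * N.index :=
        mul_le_mul_of_nonneg_right h5 (Nat.cast_nonneg _)
      calc (k : ℤ) * (b * N.index) = k * b * N.index := by ring
        _ ≤ c * I' * N.index := h6
        _ = c * N.index * I' := by ring
    exact le_of_mul_le_mul_right e2 hpos

end NBT
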