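import Pool.Agent.Lib.MP_83fbc5_gt.YDefs
import Pool.Agent.Lib.MP_83fbc5_gt.SPL3

/-!
# MP_83fbc5_gt, module YS: Betti numbers of the spliced resolution in all degrees

PROOF. As in the modules `SPL2`, `SPL3` (on main: the exactness lemmas `spl2_deg0`, .. and the rank estimates can be reused; the resolution `T` is constructed there inside the proof of `splice_exists`, so build it again with the same definitions and the additional conclusions
`card (T.ι 0) = card (ι 0)`, `card (T.ι 1) = card J1 + card (ι 1)`, `card (T.ι (n+4)) = card (ι (n+4))`, `rk (T.d 0) = rk (fromRows T1 (d 0))`, `rk (T.d (n+4)) = rk (d (n+4))`, all by definition). Write `p n = rk (d n)`, `t n = rk (T.d n)`, `q = N.index`. Then `p 0 ≤ t 0 ≤ card (ι 0) * q`; `rk D2 + p 1 ≤ t 1 ≤ rk D2 + (card (ι 1) * q - p 0)`;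
`rk D3 + p 2 ≤ t 2 ≤ rk D3 + (card (ι 2) * q - p 1)`; `t 3 = p 3`; `t (n+4) = p (n+4)`. With `betti_zero`, `betti_succ` for `T` the claim follows in each degree: with `t n = (rk D) + p n + e n`, `0 ≤ e n ≤ bP n` (`n = 0, 1, 2`) `betti T n = kb n + bP n - e n - e (n-1)`. (`bP n ≥ 0`: kernel of `d n` contains the range of `d (n+1)`.)
(60-90 minutes)
-/

set_option autoImplicit false

namespace NBT

open Matrix

universe w

/-- the rank of two blocks of rows is at least the rank of the second block -/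
private theorem YS_rows (F : Type w) [Field F] {G : Type} [Group G] (N : Subgroup G) [N.Normal] [N.FiniteIndex]
    {m1 m2 n : Type} [Fintype m1] [Fintype m2] [Fintype n] (A : Matrix m1 n (MonoidAlgebra ℤ G))
    (B : Matrix m2 n (MonoidAlgebra ℤ G)) : rk F N B ≤ rk F N (fromRows A B) := by
  have h : LinearMap.range (actM F (B.map (toQ F N))) ≤
      LinearMap.range (actM F ((fromRows A B).map (toQ F N))) := by
    rintro _ ⟨u, rfl⟩
    refine ⟨Sum.elim 0 u, ?_⟩
    rw [actM_apply, actM_apply]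
    have e : (fromRows A B).map (toQ F N) = fromRows (A.map (toQ F N)) (B.map (toQ F N)) := by
      ext (i | i) j <;> rfl
    rw [e, sumElim_vecMul_fromRows, Matrix.zero_vecMul, zero_add]
  exact Submodule.finrank_mono h

/-- the rank of the differential in degree 4 -/
private theorem YS_cols (F : Type w) [Field F] {G : Type} [Group G] (N : Subgroup G) [N.Normal]
    {m n1 n2 : Type} [Fintype m] (A : Matrix m n2 (MonoidAlgebra ℤ G)) :
    rk F N (fromCols (0 : Matrix m n1 (MonoidAlgebra ℤ G)) A) = rk F N A := by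
  show rkM F ((fromCols (0 : Matrix m n1 (MonoidAlgebra ℤ G)) A).map (toQ F N)) = _
  have e : (fromCols (0 : Matrix m n1 (MonoidAlgebra ℤ G)) A).map (toQ F N) =
      fromCols (0 : Matrix m n1 (MonoidAlgebra F (G ⧸ N))) (A.map (toQ F N)) := by
    ext i (j | j)
    · simp
    · simp
  rw [e, spl2_rkM_fromCols]
  rfl

private theorem YS_bP (F : Type w) [Field F] {G : Type} [Group G] (N : Subgroup G) [N.Normal] [N.FiniteIndex]
    (ι : ℕ → Type) [∀ n, Fintype (ι n)]
    (d : ∀ n, Matrix (ι (n + 1)) (ι n) (MonoidAlgebra ℤ G))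
    (p : ∀ n (u : ι (n + 1) → MonoidAlgebra ℤ G), u ᵥ* d n = 0 ↔ ∃ v, v ᵥ* d (n + 1) = u) (n : ℕ) :
    0 ≤ bP F N ι d n := by
  cases n with
  | zero =>
    have h := rk_le_col F N (d 0)
    show (0 : ℤ) ≤ Fintype.card (ι 0) * N.index - rk F N (d 0)
    zify at h
    linarith
  | succ n =>
    have e : d (n + 1) * d n = 0 := spl2_mul_zero _ _ fun v => (p n _).2 ⟨v, rfl⟩
    have h := spl3_le F N (d (n + 1)) (d n) e
    show (0 : ℤ) ≤ Fintype.card (ι (n + 1)) * N.index - rk F N (d n) - rk F N (d (n + 1))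
    zify at h
    linarith

theorem splice_all (F : Type w) [Field F] {G : Type} [Group G] {D : ℕ} (hD : 3 ≤ D) {J1 J2 J3 M : Type} [Fintype J1]
    [Fintype J2] [Fintype J3] [AddCommGroup M] (act : G → M → M)
    (D2 : Matrix J2 J1 (MonoidAlgebra ℤ G)) (D3 : Matrix J3 J2 (MonoidAlgebra ℤ G))
    (eK : (J1 → MonoidAlgebra ℤ G) →+ M) (hK : ∀ g u, eK (el g • u) = act g (eK u))
    (aM : M → ℤ) (k0 : ∀ m, aM m = 0 ↔ ∃ u, eK u = m)
    (k1 : ∀ u, eK u = 0 ↔ ∃ v, v ᵥ* D2 = u) (k2 : ∀ u, u ᵥ* D2 = 0 ↔ ∃ v, v ᵥ* D3 = u)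
    (k3 : ∀ u, u ᵥ* D3 = 0 → u = 0)
    (ι : ℕ → Type) [∀ n, Fintype (ι n)] (hlen : ∀ n, D < n → IsEmpty (ι n))
    (d : ∀ n, Matrix (ι (n + 1)) (ι n) (MonoidAlgebra ℤ G)) (aug : ι 0 → ℤ)
    (eP : (ι 0 → MonoidAlgebra ℤ G) →+ M) (hP : ∀ g u, eP (el g • u) = act g (eP u))
    (hPs : Function.Surjective eP) (haug : ∀ u, aM (eP u) = ∑ i, eps G (u i) * aug i)
    (hs : ∃ u : ι 0 → MonoidAlgebra ℤ G, ∑ i, eps G (u i) * aug i = 1)
    (p0 : ∀ u, eP u = 0 ↔ ∃ v, v ᵥ* d 0 = u)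
    (p : ∀ n (u : ι (n + 1) → MonoidAlgebra ℤ G), u ᵥ* d n = 0 ↔ ∃ v, v ᵥ* d (n + 1) = u) :
    ∃ T : FFR G D, ∀ (N : Subgroup G) [N.Normal] [N.FiniteIndex] (n : ℕ),
      |(betti F T N n : ℤ) - kb F N D2 D3 n| ≤ bP F N ι d n + bP F N ι d (n - 1) := by
  classical
  obtain ⟨T1, T2, T3, t1, t2, t3⟩ := splice_theta act D2 D3 eK hK k1 k2 ι d eP hP hPs p0 p
  refine ⟨spl2_spT hlen hD D2 D3 eK aM k0 k1 k2 k3 d aug eP haug hs p0 p T1 T2 T3 t1 t2 t3, ?_⟩
  intro N _ _ n
  have hb := YS_bP F N ι d p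
  set T : FFR G D := spl2_spT hlen hD D2 D3 eK aM k0 k1 k2 k3 d aug eP haug hs p0 p T1 T2 T3 t1 t2 t3 with hT
  have c0 : Fintype.card (T.ι 0) = Fintype.card (ι 0) := rfl
  have c1 : Fintype.card (T.ι 1) = Fintype.card J1 + Fintype.card (ι 1) := Fintype.card_sum
  have c2 : Fintype.card (T.ι 2) = Fintype.card J2 + Fintype.card (ι 2) := Fintype.card_sum
  have c3 : Fintype.card (T.ι 3) = Fintype.card J3 + Fintype.card (ι 3) := Fintype.card_sum
  have c4 : ∀ k, Fintype.card (T.ι (k + 4)) = Fintype.card (ι (k + 4)) := fun k => rfl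
  have r0 : rk F N (T.d 0) = rk F N (fromRows T1 (d 0)) := rfl
  have r1 : rk F N (T.d 1) = rk F N (fromBlocks D2 T2 0 (d 1)) := rfl
  have r2 : rk F N (T.d 2) = rk F N (fromBlocks D3 T3 0 (d 2)) := rfl
  have r3 : rk F N (T.d 3) = rk F N (d 3) := YS_cols F N (n1 := J3) (d 3)
  have r4 : ∀ k, rk F N (T.d (k + 4)) = rk F N (d (k + 4)) := fun k => rfl
  have e32 : D3 * D2 = 0 := spl2_mul_zero _ _ fun v => (k2 _).2 ⟨v, rfl⟩
  have e10 : d 1 * d 0 = 0 := spl2_mul_zero _ _ fun v => (p 0 _).2 ⟨v, rfl⟩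
  have e21 : d 2 * d 1 = 0 := spl2_mul_zero _ _ fun v => (p 1 _).2 ⟨v, rfl⟩
  have q0 := YS_rows F N T1 (d 0)
  have q0' := rk_le_col F N (fromRows T1 (d 0))
  have q1 := spl3_block F N D2 T2 (d 1) (0 : Matrix J1 Empty (MonoidAlgebra ℤ G)) T1 (d 0) (by
    rw [fromBlocks_multiply, t2, e10]
    simp)
  have q2 := spl3_block F N D3 T3 (d 2) D2 T2 (d 1) (by
    rw [fromBlocks_multiply, e32, t3, e21]
    simp)
  rw [← r0] at q0 q0'
  rw [← r1] at q1
  rw [← r2] at q2
  obtain ⟨u1, v1⟩ := q1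
  obtain ⟨u2, v2⟩ := q2
  zify at q0 q0' u1 u2
  push_cast at v1 v2
  have b0 := hb 0
  have b1 := hb 1
  have b2 := hb 2
  have b3 := hb 3
  have f0 : bP F N ι d 0 = Fintype.card (ι 0) * N.index - rk F N (d 0) := rfl
  have fs : ∀ k, bP F N ι d (k + 1) =
    Fintype.card (ι (k + 1)) * N.index - rk F N (d k) - rk F N (d (k + 1)) := fun k => rfl
  have f1 := fs 0
  have f2 := fs 1
  have f3 := fs 2
  have z0 := betti_zero F T N
  have zs := betti_succ F T N
  match n with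
  | 0 =>
    have g : kb F N D2 D3 0 = 0 := rfl
    show |(betti F T N 0 : ℤ) - kb F N D2 D3 0| ≤ bP F N ι d 0 + bP F N ι d 0
    rw [c0] at z0
    zify at z0
    rw [g, abs_le]
    constructor <;> linarith
  | 1 =>
    have g : kb F N D2 D3 1 = Fintype.card J1 * N.index - rk F N D2 := rfl
    show |(betti F T N 1 : ℤ) - kb F N D2 D3 1| ≤ bP F N ι d 1 + bP F N ι d 0
    have z := zs 0
    rw [c1] at z
    zify at z
    simp only [zero_add] at z f1
    rw [g, abs_le]
    constructor <;> linarith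
  | 2 =>
    have g : kb F N D2 D3 2 = Fintype.card J2 * N.index - rk F N D2 - rk F N D3 := rfl
    show |(betti F T N 2 : ℤ) - kb F N D2 D3 2| ≤ bP F N ι d 2 + bP F N ι d 1
    have z := zs 1
    simp only [zero_add, Nat.reduceAdd] at z f1 f2
    rw [c2] at z
    zify at z
    rw [g, abs_le]
    constructor <;> linarith
  | 3 =>
    have g : kb F N D2 D3 3 = Fintype.card J3 * N.index - rk F N D3 := rfl
    show |(betti F T N 3 : ℤ) - kb F N D2 D3 3| ≤ bP F N ι d 3 + bP F N ι d 2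
    have z := zs 2
    simp only [Nat.reduceAdd] at z f2 f3
    rw [c3] at z
    zify at z
    rw [r3] at z
    rw [g, abs_le]
    constructor <;> linarith
  | k + 4 =>
    have g : kb F N D2 D3 (k + 4) = 0 := rfl
    have f4 := fs (k + 3)
    have b4 := hb (k + 4)
    have b4' := hb (k + 3)
    have z := zs (k + 3)
    have r3' : rk F N (T.d (k + 3)) = rk F N (d (k + 3)) := by
      cases k with
      | zero => exact r3
      | succ k => exact r4 k
    have z2 : betti F T N (k + 4) + rk F N (d (k + 3)) + rk F N (d (k + 4)) =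
        Fintype.card (ι (k + 4)) * N.index := by
      rw [← r3']
      exact z
    zify at z2
    have f4' : bP F N ι d (k + 4) =
      Fintype.card (ι (k + 4)) * N.index - rk F N (d (k + 3)) - rk F N (d (k + 4)) := f4
    show |(betti F T N (k + 4) : ℤ) - kb F N D2 D3 (k + 4)| ≤ bP F N ι d (k + 4) + bP F N ι d (k + 3)
    rw [g, abs_le]
    constructor <;> linarith

end NBT
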