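import Pool.Agent.Lib.MP_83fbc5_gt.YDefs

/-!
# MP_83fbc5_gt, module ZA: local bound for the kernel of a multiplication

`H` is a group such that `F[H]` has no zero divisors, `f ∈ F[H]`, `f ≠ 0`, `Q = H/N` finite, `V` the kernel of right multiplication by the image of `f` on `F[Q]`. For a finite set `B ⊆ H` and `q ∈ Q` the restrictions of the elements of `V` to the translate `q B` (as functions on `B`: `b ↦ x (q b)`) form a space of dimension at most `|B| - |J|` whenever `J ⊆ H` is a finite set with
`c * s⁻¹ ∈ B` for all `c ∈ J`, `s ∈ supp f`.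

PROOF. For `x ∈ V`, `c ∈ J` the coefficient of `x * f` at `q c` is `∑_(s ∈ supp f) x (q c s⁻¹) f s = 0` (the coefficient formula in `F[Q]`: expand `x * f̄ = ∑_s f s • x * single (mk s) 1`, and `(x * single (mk s) 1) (p) = x (p (mk s)⁻¹)`). So the restriction `y = (b ↦ x (q b))` satisfies `λ_c y := ∑_(s ∈ supp f) y (c s⁻¹) f s = 0`. The functionals `λ_c`, `c ∈ J`, on `B → F` are linearly
independent: if `∑_c a c λ_c = 0` (`a` extended by zero to `H`), evaluate at the indicator of `b ∈ B`: `∑_s a (b s) f s = 0`; for `b ∉ B` all `a (b s)` vanish (`b s = c ∈ J` would give `b = c s⁻¹ ∈ B`). So `(∑_c a c • c) * (∑_s f s • s⁻¹) = 0` in `F[H]`, the second factor is not zero, hence `a = 0`. So the common kernel of the `λ_c` has dimension `|B| - |J|`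
(the map `(B → F) → (J → F)`, `y ↦ (λ_c y)_c` is surjective, since its dual is injective: `Module.finrank` of the dual map / `LinearMap.dualMap_injective_iff`; rank-nullity) and contains the restrictions.
(75-100 minutes)
-/

set_option autoImplicit false

namespace NBT

open Module

universe w

/-- restriction of functions on `H/N` to the translate `q B` -/
noncomputable def resB (F : Type w) [Field F] {H : Type} [Group H] (N : Subgroup H) [N.Normal] (B : Finset H)
    (q : H ⧸ N) : MonoidAlgebra F (H ⧸ N) →ₗ[F] (B → F) where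
  toFun x := fun b => x.coeff (q * QuotientGroup.mk b.1)
  map_add' x y := by ext b; simp
  map_smul' c x := by ext b; simp

private theorem ZA_sum {F : Type w} [Field F] {H : Type} [Group H] (f : MonoidAlgebra F H) :
    ∑ s ∈ f.coeff.support, MonoidAlgebra.single s (f.coeff s) = f := by
  apply MonoidAlgebra.coeff_injective
  rw [MonoidAlgebra.coeff_sum]
  exact Finsupp.sum_single f.coeff

/-- the convolution functionals -/
private noncomputable def ZA_lam (F : Type w) [Field F] {H : Type} [Group H]
    (f : MonoidAlgebra F H) (B J : Finset H)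
    (hJ : ∀ c ∈ J, ∀ s ∈ f.coeff.support, c * s⁻¹ ∈ B) : (B → F) →ₗ[F] (J → F) where
  toFun y := fun c => ∑ s : f.coeff.support, y ⟨c.1 * s.1⁻¹, hJ c.1 c.2 s.1 s.2⟩ * f.coeff s.1
  map_add' y z := by
    ext c
    simp only [Pi.add_apply, add_mul, Finset.sum_add_distrib]
  map_smul' a y := by
    ext c
    simp only [Pi.smul_apply, smul_eq_mul, RingHom.id_apply, Finset.mul_sum, mul_assoc]

private theorem ZA_surj (F : Type w) [Field F] {H : Type} [Group H] [NoZeroDivisors (MonoidAlgebra F H)]
    (f : MonoidAlgebra F H) (hf : f ≠ 0) (B J : Finset H)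
    (hJ : ∀ c ∈ J, ∀ s ∈ f.coeff.support, c * s⁻¹ ∈ B) : LinearMap.range (ZA_lam F f B J hJ) = ⊤ := by
  classical
  by_contra hne
  obtain ⟨φ, hφ, hle⟩ := (LinearMap.range (ZA_lam F f B J hJ)).exists_le_ker_of_lt_top (lt_top_iff_ne_top.2 hne)
  let a : J → F := fun c => φ (Pi.single c 1)
  have hφa : ∀ v : J → F, φ v = ∑ c, v c * a c := by
    intro v
    have h1 : v = ∑ c, v c • (Pi.single c (1 : F) : J → F) := by
      ext d
      simp [Finset.sum_apply, Pi.single_apply]
    conv_lhs => rw [h1]
    rw [map_sum]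
    refine Finset.sum_congr rfl fun c _ => ?_
    rw [map_smul, smul_eq_mul]
  let A : MonoidAlgebra F H := ∑ c : J, MonoidAlgebra.single c.1 (a c)
  let g : MonoidAlgebra F H := ∑ s : f.coeff.support, MonoidAlgebra.single s.1⁻¹ (f.coeff s.1)
  have hcoef : ∀ b : H, (A * g).coeff b
      = ∑ c : J, ∑ s : f.coeff.support, if c.1 * s.1⁻¹ = b then a c * f.coeff s.1 else 0 := by
    intro b
    show ((∑ c : J, MonoidAlgebra.single c.1 (a c)) *
      ∑ s : f.coeff.support, MonoidAlgebra.single s.1⁻¹ (f.coeff s.1) : MonoidAlgebra F H).coeff b = _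
    rw [Finset.sum_mul, MonoidAlgebra.coeff_sum, Finsupp.finsetSum_apply]
    refine Finset.sum_congr rfl fun c _ => ?_
    rw [Finset.mul_sum, MonoidAlgebra.coeff_sum, Finsupp.finsetSum_apply]
    refine Finset.sum_congr rfl fun s _ => ?_
    rw [MonoidAlgebra.single_mul_single, MonoidAlgebra.coeff_single, Finsupp.single_apply]
  have hzero : A * g = 0 := by
    ext b
    rw [hcoef, MonoidAlgebra.coeff_zero, Finsupp.zero_apply]
    by_cases hb : b ∈ B
    · have h1 : φ (ZA_lam F f B J hJ (Pi.single ⟨b, hb⟩ 1)) = 0 := hle ⟨_, rfl⟩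
      rw [hφa] at h1
      refine Eq.trans ?_ h1
      refine Finset.sum_congr rfl fun c _ => ?_
      have h2 : ZA_lam F f B J hJ (Pi.single ⟨b, hb⟩ 1) c
          = ∑ s : f.coeff.support, if c.1 * s.1⁻¹ = b then f.coeff s.1 else 0 := by
        show ∑ s : f.coeff.support, (Pi.single (⟨b, hb⟩ : B) (1 : F) : B → F)
          ⟨c.1 * s.1⁻¹, hJ c.1 c.2 s.1 s.2⟩ * f.coeff s.1 = _
        refine Finset.sum_congr rfl fun s _ => ?_
        rw [Pi.single_apply]
        by_cases h3 : c.1 * s.1⁻¹ = b
        · rw [if_pos (Subtype.ext h3), if_pos h3, one_mul]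
        · rw [if_neg (fun h4 => h3 (congrArg Subtype.val h4)), if_neg h3, zero_mul]
      rw [h2, Finset.sum_mul]
      refine Finset.sum_congr rfl fun s _ => ?_
      by_cases h4 : c.1 * s.1⁻¹ = b
      · rw [if_pos h4, if_pos h4, mul_comm]
      · rw [if_neg h4, if_neg h4, zero_mul]
    · refine Finset.sum_eq_zero fun c _ => Finset.sum_eq_zero fun s _ => ?_
      rw [if_neg]
      intro h
      exact hb (h ▸ hJ c.1 c.2 s.1 s.2)
  have hg : g ≠ 0 := by
    have h1 : g = MonoidAlgebra.mapDomain (fun s : H => s⁻¹) f := by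
      show (∑ s : f.coeff.support, MonoidAlgebra.single s.1⁻¹ (f.coeff s.1) : MonoidAlgebra F H) = _
      conv_rhs => rw [← ZA_sum f]
      rw [Finset.sum_coe_sort f.coeff.support (fun s => (MonoidAlgebra.single s⁻¹ (f.coeff s) : MonoidAlgebra F H))]
      apply MonoidAlgebra.coeff_injective
      show _ = Finsupp.mapDomain (fun s : H => s⁻¹) _
      rw [MonoidAlgebra.coeff_sum, MonoidAlgebra.coeff_sum, Finsupp.mapDomain_finsetSum]
      refine Finset.sum_congr rfl fun s _ => ?_
      rw [MonoidAlgebra.coeff_single, MonoidAlgebra.coeff_single, Finsupp.mapDomain_single]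
    rw [h1]
    intro h2
    apply hf
    apply MonoidAlgebra.mapDomain_injective (f := fun s : H => s⁻¹) inv_injective
    rw [h2, MonoidAlgebra.mapDomain_zero]
  have hA : A = 0 := (mul_eq_zero.1 hzero).resolve_right hg
  apply hφ
  apply LinearMap.ext
  intro v
  rw [hφa, LinearMap.zero_apply]
  refine Finset.sum_eq_zero fun c _ => ?_
  have h1 : A.coeff c.1 = a c := by
    show (∑ c : J, MonoidAlgebra.single c.1 (a c) : MonoidAlgebra F H).coeff c.1 = _
    rw [MonoidAlgebra.coeff_sum, Finsupp.finsetSum_apply, Finset.sum_eq_single c]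
    · rw [MonoidAlgebra.coeff_single, Finsupp.single_eq_same]
    · intro d _ hd
      rw [MonoidAlgebra.coeff_single, Finsupp.single_apply, if_neg]
      exact fun h => hd (Subtype.ext h)
    · intro h
      exact absurd (Finset.mem_univ _) h
  rw [← h1, hA, MonoidAlgebra.coeff_zero, Finsupp.zero_apply, mul_zero]

theorem local_bound (F : Type w) [Field F] {H : Type} [Group H] [NoZeroDivisors (MonoidAlgebra F H)]
    (f : MonoidAlgebra F H) (hf : f ≠ 0) (N : Subgroup H) [N.Normal] [N.FiniteIndex] (B J : Finset H)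
    (hJ : ∀ c ∈ J, ∀ s ∈ f.coeff.support, c * s⁻¹ ∈ B) (q : H ⧸ N) :
    finrank F (Submodule.map (resB F N B q) (LinearMap.ker (LinearMap.mulRight F
      (MonoidAlgebra.mapDomainRingHom F (QuotientGroup.mk' N) f)))) + J.card ≤ B.card := by
  classical
  have h1 : Submodule.map (resB F N B q) (LinearMap.ker (LinearMap.mulRight F
      (MonoidAlgebra.mapDomainRingHom F (QuotientGroup.mk' N) f))) ≤ LinearMap.ker (ZA_lam F f B J hJ) := by
    rintro _ ⟨x, hx, rfl⟩
    have hx' : x * MonoidAlgebra.mapDomainRingHom F (QuotientGroup.mk' N) f = 0 := hx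
    rw [LinearMap.mem_ker]
    ext c
    show ∑ s : f.coeff.support, x.coeff (q * QuotientGroup.mk (c.1 * s.1⁻¹)) * f.coeff s.1 = 0
    have h2 : (x * MonoidAlgebra.mapDomainRingHom F (QuotientGroup.mk' N) f).coeff (q * QuotientGroup.mk c.1) = 0 := by
      rw [hx']; rfl
    rw [← h2]
    conv_rhs => rw [← ZA_sum f]
    rw [map_sum, Finset.mul_sum, MonoidAlgebra.coeff_sum, Finsupp.finsetSum_apply,
      Finset.sum_coe_sort f.coeff.support (fun s => x.coeff (q * QuotientGroup.mk (c.1 * s⁻¹)) * f.coeff s)]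
    refine Finset.sum_congr rfl fun s _ => ?_
    have h3 : MonoidAlgebra.mapDomainRingHom F (QuotientGroup.mk' N) (MonoidAlgebra.single s (f.coeff s))
        = MonoidAlgebra.single (QuotientGroup.mk s : H ⧸ N) (f.coeff s) := by simp
    rw [h3, MonoidAlgebra.coeff_mul_single_apply]
    congr 2
    rw [mul_assoc]
    rfl
  have h2 := LinearMap.finrank_range_add_finrank_ker (ZA_lam F f B J hJ)
  rw [ZA_surj F f hf B J hJ, finrank_top, finrank_fintype_fun_eq_card, finrank_fintype_fun_eq_card,
    Fintype.card_coe, Fintype.card_coe] at h2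
  have h3 := Submodule.finrank_mono h1
  omega

end NBT
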