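import Pool.Agent.Lib.MP_83fbc5_gt.ZA

/-!
# MP_83fbc5_gt, module ZB: covering a finite quotient by translates

PROOF. Let `P ⊆ Q = H/N` be a subset, maximal with respect to: the translates `p B0`, `p ∈ P`, are pairwise disjoint (`B0 ⊆ H` finite and not empty, injective in `Q`: `hinj`). (a) `|P| * |B0| ≤ |Q|`. (b) For every `q ∈ Q` there is `p ∈ P` with `q B0 ∩ p B0 ≠ ∅` (maximality; if `q ∈ P` trivially), i.e. `q = p b' b⁻¹` with `b, b' ∈ B0`, so `q ∈ p B` as
`b' b⁻¹ ∈ B` (`hB`). (c) So an element `x ∈ F[Q]` with zero restriction to all `p B`, `p ∈ P`, is zero: the map `V → ∏_(p ∈ P) (restrictions to p B)` is injective for every subspace `V`, and `dim V ≤ ∑_(p ∈ P) dim (V restricted to p B) ≤ |P| * c`. With (a): `|B0| * dim V ≤ c * |Q|`.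
(45-60 minutes)
-/

set_option autoImplicit false

namespace NBT

open Module

universe w

private theorem zb_packing {H : Type} [Group H] (N : Subgroup H) [N.Normal] [N.FiniteIndex]
    (B0 B : Finset H) (h0 : B0.Nonempty) (hinj : ∀ b ∈ B0, ∀ b' ∈ B0, b * b'⁻¹ ∈ N → b = b')
    (hB : ∀ b ∈ B0, ∀ b' ∈ B0, b' * b⁻¹ ∈ B) :
    ∃ P : Finset (H ⧸ N), P.card * B0.card ≤ N.index ∧
      ∀ q : H ⧸ N, ∃ p ∈ P, ∃ b ∈ B, q = p * QuotientGroup.mk b := by
  classical
  have : Fintype (H ⧸ N) := Fintype.ofFinite _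
  let S : Finset (Finset (H ⧸ N)) := Finset.univ.filter fun P => ∀ p ∈ P, ∀ p' ∈ P,
    ∀ b ∈ B0, ∀ b' ∈ B0, p * QuotientGroup.mk b = p' * QuotientGroup.mk b' → p = p'
  have hS : S.Nonempty := ⟨∅, Finset.mem_filter.2 ⟨Finset.mem_univ _, fun p hp =>
    absurd hp (Finset.notMem_empty p)⟩⟩
  obtain ⟨P, hP, hmax⟩ := Finset.exists_max_image S Finset.card hS
  have hPd := (Finset.mem_filter.1 hP).2
  refine ⟨P, ?_, ?_⟩
  · have h1 : (P ×ˢ B0).card ≤ (Finset.univ : Finset (H ⧸ N)).card := by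
      refine Finset.card_le_card_of_injOn
        (fun x : (H ⧸ N) × H => x.1 * (QuotientGroup.mk x.2 : H ⧸ N))
        (fun _ _ => Finset.mem_coe.2 (Finset.mem_univ _)) ?_
      rintro ⟨p, b⟩ hx ⟨p', b'⟩ hx' hxx
      rw [Finset.mem_coe, Finset.mem_product] at hx hx'
      have e1 : p * (QuotientGroup.mk b : H ⧸ N) = p' * QuotientGroup.mk b' := hxx
      have e2 : p = p' := hPd p hx.1 p' hx'.1 b hx.2 b' hx'.2 e1
      subst e2
      have e3 : (QuotientGroup.mk b : H ⧸ N) = QuotientGroup.mk b' := mul_left_cancel e1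
      have e4 : b * b'⁻¹ ∈ N := by
        rw [← QuotientGroup.eq_one_iff, QuotientGroup.mk_mul, QuotientGroup.mk_inv, e3,
          mul_inv_cancel]
      rw [hinj b hx.2 b' hx'.2 e4]
    rw [Finset.card_product, Finset.card_univ, ← Nat.card_eq_fintype_card] at h1
    exact h1
  · intro q
    have key : ∃ p ∈ P, ∃ b ∈ B0, ∃ b' ∈ B0,
        q * (QuotientGroup.mk b : H ⧸ N) = p * QuotientGroup.mk b' := by
      by_cases hq : q ∈ P
      · obtain ⟨b, hb⟩ := h0
        exact ⟨q, hq, b, hb, b, hb, rfl⟩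
      · by_contra hcon
        push Not at hcon
        have hins : insert q P ∈ S := by
          refine Finset.mem_filter.2 ⟨Finset.mem_univ _, ?_⟩
          intro p hp p' hp' b hb b' hb' e
          rcases Finset.mem_insert.1 hp with h1 | h1
          · rcases Finset.mem_insert.1 hp' with h2 | h2
            · rw [h1, h2]
            · rw [h1] at e
              exact absurd e (hcon p' h2 b hb b' hb')
          · rcases Finset.mem_insert.1 hp' with h2 | h2
            · rw [h2] at e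
              exact absurd e.symm (hcon p h1 b' hb' b hb)
            · exact hPd p h1 p' h2 b hb b' hb' e
        have := hmax _ hins
        rw [Finset.card_insert_of_notMem hq] at this
        omega
    obtain ⟨p, hp, b, hb, b', hb', e⟩ := key
    refine ⟨p, hp, b' * b⁻¹, hB b hb b' hb', ?_⟩
    rw [QuotientGroup.mk_mul, QuotientGroup.mk_inv, ← mul_assoc, ← e, mul_inv_cancel_right]

theorem cover_bound (F : Type w) [Field F] {H : Type} [Group H] (N : Subgroup H) [N.Normal] [N.FiniteIndex]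
    (B0 B : Finset H) (h0 : B0.Nonempty) (hinj : ∀ b ∈ B0, ∀ b' ∈ B0, b * b'⁻¹ ∈ N → b = b')
    (hB : ∀ b ∈ B0, ∀ b' ∈ B0, b' * b⁻¹ ∈ B) (V : Submodule F (MonoidAlgebra F (H ⧸ N))) (c : ℕ)
    (hc : ∀ q, finrank F (Submodule.map (resB F N B q) V) ≤ c) : B0.card * finrank F V ≤ c * N.index := by
  classical
  obtain ⟨P, hP1, hP2⟩ := zb_packing N B0 B h0 hinj hB
  let Φ : V →ₗ[F] (∀ p : {p // p ∈ P}, (Submodule.map (resB F N B p.1) V : Submodule F (B → F))) :=
    LinearMap.pi fun p => (resB F N B p.1).submoduleMap V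
  have hΦ : Function.Injective Φ := by
    rw [← LinearMap.ker_eq_bot, LinearMap.ker_eq_bot']
    intro x hx
    have h1 : ∀ q, (x : MonoidAlgebra F (H ⧸ N)).coeff q = 0 := by
      intro q
      obtain ⟨p, hp, b, hb, rfl⟩ := hP2 q
      have h2 := congrFun hx ⟨p, hp⟩
      have h3 : resB F N B p (x : MonoidAlgebra F (H ⧸ N)) = 0 := congrArg Subtype.val h2
      exact congrFun h3 ⟨b, hb⟩
    refine Subtype.ext ?_
    refine MonoidAlgebra.ext (Finsupp.ext fun q => ?_)
    rw [h1 q]
    rfl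
  have h1 := LinearMap.finrank_le_finrank_of_injective hΦ
  rw [finrank_pi_fintype] at h1
  have h2 : ∑ p : {p // p ∈ P}, finrank F (Submodule.map (resB F N B p.1) V) ≤ P.card * c := by
    refine (Finset.sum_le_sum fun p _ => hc p.1).trans ?_
    rw [Finset.sum_const, smul_eq_mul, Finset.card_univ, Fintype.card_coe]
  calc B0.card * finrank F V ≤ B0.card * (P.card * c) := Nat.mul_le_mul_left _ (h1.trans h2)
    _ = c * (P.card * B0.card) := by ring
    _ ≤ c * N.index := Nat.mul_le_mul_left _ hP1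

end NBT
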