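import Pool.Agent.Lib.MP_83fbc5_gt.ZB

/-!
# MP_83fbc5_gt, module ZC: multiplication by a nonzero element has small kernel on large quotients of `ℤ^d`

PROOF. Let `f ≠ 0` have support in the box `[-r, r]^d`. For `k ≥ 1` let `B0 = [0, k)^d` (`k^d` elements), `B = [-k, k]^d` (`(2k+1)^d` elements), `J = [-k+r, k-r]^d` (for `k ≥ r`: `(2k+1-2r)^d` elements); `c * s⁻¹ ∈ B` for `c ∈ J`, `s ∈ supp f`, and differences of elements of `B0` are in `B`. If `N` contains no nontrivial element of `[-k, k]^d`, then `hinj` of `cover_bound` holds and with `local_bound`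
`k^d * dim ker ≤ ((2k+1)^d - (2k+1-2r)^d) * |Q|`. Since `((2k+1)^d - (2k+1-2r)^d) / k^d → 0` for `k → ∞` (`(2 + 1/k)^d - (2 + (1-2r)/k)^d → 0`, continuity) choose `k` with quotient `≤ ε`; `E` = the nontrivial elements of `[-k, k]^d`. (Boxes as `Finset`: `Fintype.piFinset fun _ => Finset.Ico 0 k`, mapped by `Multiplicative.ofAdd`; `Finset.Icc` on `Fin d → ℤ`, `Pi.card_Icc`.)
(60-80 minutes)
-/

set_option autoImplicit false

namespace NBT

open Module

universe w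

/-- the box `[a, b]^d` -/
private noncomputable def zcBox (d : ℕ) (a b : ℤ) : Finset (Zd d) :=
  (Fintype.piFinset fun _ : Fin d => Finset.Icc a b).map Multiplicative.ofAdd.toEmbedding

private theorem zc_mem {d : ℕ} {a b : ℤ} {x : Zd d} :
    x ∈ zcBox d a b ↔ ∀ i, a ≤ x.toAdd i ∧ x.toAdd i ≤ b := by
  unfold zcBox
  rw [Finset.mem_map]
  constructor
  · rintro ⟨y, hy, rfl⟩ i
    exact Finset.mem_Icc.1 (Fintype.mem_piFinset.1 hy i)
  · intro h
    exact ⟨x.toAdd, Fintype.mem_piFinset.2 fun i => Finset.mem_Icc.2 (h i), rfl⟩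

private theorem zc_card (d : ℕ) (a b : ℤ) : (zcBox d a b).card = (b + 1 - a).toNat ^ d := by
  unfold zcBox
  rw [Finset.card_map, Fintype.card_piFinset, Finset.prod_const, Finset.card_univ, Fintype.card_fin,
    Int.card_Icc]

/-- every finite set is contained in a box -/
private theorem zc_supp {d : ℕ} (S : Finset (Zd d)) : ∃ r : ℕ, ∀ s ∈ S, ∀ i, |s.toAdd i| ≤ r := by
  refine ⟨∑ s ∈ S, ∑ i, (s.toAdd i).natAbs, fun s hs i => ?_⟩
  rw [← Int.natCast_natAbs]
  have h1 : (s.toAdd i).natAbs ≤ ∑ i, (s.toAdd i).natAbs :=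
    Finset.single_le_sum (f := fun i => (s.toAdd i).natAbs) (fun _ _ => Nat.zero_le _)
      (Finset.mem_univ i)
  have h2 : ∑ i, (s.toAdd i).natAbs ≤ ∑ s ∈ S, ∑ i, (s.toAdd i).natAbs :=
    Finset.single_le_sum (f := fun s : Zd d => ∑ i, (s.toAdd i).natAbs) (fun _ _ => Nat.zero_le _)
      hs
  exact_mod_cast h1.trans h2

private theorem zc_lim (d r : ℕ) (ε : ℝ) (hε : 0 < ε) : ∃ k : ℕ, 1 ≤ k ∧ r ≤ k ∧
    (2 * (k : ℝ) + 1) ^ d - (2 * ((k : ℝ) - r) + 1) ^ d ≤ ε * (k : ℝ) ^ d := by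
  have h1 : Filter.Tendsto (fun k : ℕ => (2 + 1 / (k : ℝ)) ^ d) Filter.atTop (nhds ((2 + 0) ^ d)) :=
    (tendsto_const_nhds.add (tendsto_const_div_atTop_nhds_zero_nat 1)).pow d
  have h2 : Filter.Tendsto (fun k : ℕ => (2 + (1 - 2 * (r : ℝ)) / (k : ℝ)) ^ d) Filter.atTop
      (nhds ((2 + 0) ^ d)) :=
    (tendsto_const_nhds.add (tendsto_const_div_atTop_nhds_zero_nat _)).pow d
  have h3 := h1.sub h2
  rw [sub_self] at h3
  have h4 := h3.eventually_lt_const hε
  obtain ⟨k, hk, hk1⟩ := (h4.and (Filter.eventually_ge_atTop (max 1 r))).exists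
  have hk0 : (0 : ℝ) < k := by
    have : 1 ≤ k := (le_max_left _ _).trans hk1
    exact_mod_cast this
  refine ⟨k, (le_max_left _ _).trans hk1, (le_max_right _ _).trans hk1, ?_⟩
  have e1 : (2 * (k : ℝ) + 1) ^ d = (2 + 1 / (k : ℝ)) ^ d * (k : ℝ) ^ d := by
    rw [← mul_pow]
    congr 1
    field_simp
  have e2 : (2 * ((k : ℝ) - r) + 1) ^ d = (2 + (1 - 2 * (r : ℝ)) / (k : ℝ)) ^ d * (k : ℝ) ^ d := by
    rw [← mul_pow]
    congr 1
    field_simp
    ring
  rw [e1, e2, ← sub_mul]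
  exact mul_le_mul_of_nonneg_right hk.le (by positivity)

theorem ker_small (F : Type w) [Field F] {d : ℕ} (f : MonoidAlgebra F (Zd d)) (hf : f ≠ 0) (ε : ℝ) (hε : 0 < ε) :
    ∃ E : Finset (Zd d), (1 : Zd d) ∉ E ∧ ∀ (N : Subgroup (Zd d)) [N.FiniteIndex], (∀ e ∈ E, e ∉ N) →
      (finrank F (LinearMap.ker (LinearMap.mulRight F
        (MonoidAlgebra.mapDomainRingHom F (QuotientGroup.mk' N) f))) : ℝ) ≤ ε * N.index := by
  classical
  obtain ⟨r, hr⟩ := zc_supp f.coeff.support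
  obtain ⟨k, hk1, hkr, hk⟩ := zc_lim d r ε hε
  refine ⟨(zcBox d (-k) k).erase 1, Finset.notMem_erase _ _, fun N _ hE => ?_⟩
  have hB0 : (zcBox d 0 (k - 1)).card = k ^ d := by
    rw [zc_card]
    congr 1
    omega
  have hBc : (zcBox d (-k) k).card = (2 * k + 1) ^ d := by
    rw [zc_card]
    congr 1
    omega
  have hJc : (zcBox d (-(k - r)) (k - r)).card = (2 * (k - r) + 1) ^ d := by
    rw [zc_card]
    congr 1
    omega
  have hne : (zcBox d 0 (k - 1)).Nonempty := by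
    rw [← Finset.card_pos, hB0]
    exact pow_pos (by omega) d
  have hdiff : ∀ b ∈ zcBox d 0 (k - 1), ∀ b' ∈ zcBox d 0 (k - 1), b' * b⁻¹ ∈ zcBox d (-k) k := by
    intro b hb b' hb'
    rw [zc_mem] at hb hb' ⊢
    intro i
    have e : (b' * b⁻¹).toAdd i = b'.toAdd i - b.toAdd i := rfl
    rw [e]
    have := hb i
    have := hb' i
    constructor <;> omega
  have hinj : ∀ b ∈ zcBox d 0 (k - 1), ∀ b' ∈ zcBox d 0 (k - 1), b * b'⁻¹ ∈ N → b = b' := by
    intro b hb b' hb' hN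
    by_contra hcon
    refine hE (b * b'⁻¹) (Finset.mem_erase.2 ⟨fun h => hcon ?_, hdiff b' hb' b hb⟩) hN
    exact mul_inv_eq_one.1 h
  have hJ : ∀ c ∈ zcBox d (-(k - r)) (k - r), ∀ s ∈ f.coeff.support, c * s⁻¹ ∈ zcBox d (-k) k := by
    intro c hc s hs
    rw [zc_mem] at hc ⊢
    intro i
    have e : (c * s⁻¹).toAdd i = c.toAdd i - s.toAdd i := rfl
    rw [e]
    have h1 := abs_le.1 (hr s hs i)
    have h2 := hc i
    constructor <;> omega
  have hloc := fun q => local_bound F f hf N (zcBox d (-k) k) (zcBox d (-(k - r)) (k - r)) hJ q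
  have hcov := cover_bound F N (zcBox d 0 (k - 1)) (zcBox d (-k) k) hne hinj hdiff
    (LinearMap.ker (LinearMap.mulRight F
      (MonoidAlgebra.mapDomainRingHom F (QuotientGroup.mk' N) f)))
    ((2 * k + 1) ^ d - (2 * (k - r) + 1) ^ d) (fun q => by
      have h1 := hloc q
      rw [hBc, hJc] at h1
      omega)
  rw [hB0] at hcov
  have hle : (2 * (k - r) + 1) ^ d ≤ (2 * k + 1) ^ d := Nat.pow_le_pow_left (by omega) d
  set D := finrank F (LinearMap.ker (LinearMap.mulRight F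
    (MonoidAlgebra.mapDomainRingHom F (QuotientGroup.mk' N) f))) with hD
  have h1 : ((k ^ d * D : ℕ) : ℝ) ≤ (((2 * k + 1) ^ d - (2 * (k - r) + 1) ^ d) * N.index : ℕ) := by
    exact_mod_cast hcov
  have hk0 : (0 : ℝ) < (k : ℝ) ^ d := by
    have : (0 : ℝ) < k := by exact_mod_cast hk1
    positivity
  push_cast [Nat.cast_sub hle, Nat.cast_sub hkr] at h1
  have h2 : (k : ℝ) ^ d * D ≤ (k : ℝ) ^ d * (ε * N.index) := by
    refine h1.trans ?_
    have h3 := mul_le_mul_of_nonneg_right hk (Nat.cast_nonneg N.index : (0 : ℝ) ≤ N.index)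
    linarith
  exact le_of_mul_le_mul_left h2 hk0

end NBT
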